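import Mathlib

set_option autoImplicit false

section Row_Defs

/-!
# Definitions for the linearity of virtual braid groups (MP_7c21d5_al)

Everything acts on FUNCTIONS from the RIGHT: `rac F g` with `rac F (g*h) = rac (rac F g) h`.
-/

namespace Pool.Agent.VB

open FreeGroup (of)

/-! ## The field `K = Q(t)`, `q = 1/2` -/

/-- the field `Q(t)` -/
abbrev KK : Type := FractionRing (Polynomial ℚ)

/-- `q = 1/2` in `Q` -/
def q0 : ℚ := 1 / 2

/-- `q = 1/2` in `Q[t]` -/
noncomputable def qP : Polynomial ℚ := Polynomial.C q0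

/-- `t` in `Q[t]` -/
noncomputable def tP : Polynomial ℚ := Polynomial.X

/-- `q` in `K` -/
noncomputable def qK : KK := algebraMap (Polynomial ℚ) KK qP

/-- `t` in `K` -/
noncomputable def tK : KK := algebraMap (Polynomial ℚ) KK tP

/-! ## Right actions -/

section right
variable {G M : Type} [Group G] [AddCommGroup M] [Module KK M]

/-- a right action of `G` on `M` by linear automorphisms -/
abbrev RA (G M : Type) [Group G] [AddCommGroup M] [Module KK M] : Type := G →* (M ≃ₗ[KK] M)ᵐᵒᵖ

/-- `F . g` -/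
noncomputable def rac (r : RA G M) (F : M) (g : G) : M := (r g).unop F

end right

/-! ## Arc systems and their Artin groups -/

/-- an arc system: arcs `S`, sites `W`, tail `src` and head `tgt` of each arc -/
structure ArcSys (S W : Type) where
  src : S → W
  tgt : S → W
  ne : ∀ s, src s ≠ tgt s

namespace ArcSys
variable {S W : Type} (A : ArcSys S W)

/-- `s = (i,j)`, `r = (j,k)` with `i ≠ k` -/
def br (s r : S) : Prop := A.tgt s = A.src r ∧ A.src s ≠ A.tgt r

/-- disjoint arcs -/
def cm (s r : S) : Prop :=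
  A.src s ≠ A.src r ∧ A.src s ≠ A.tgt r ∧ A.tgt s ≠ A.src r ∧ A.tgt s ≠ A.tgt r

/-- adjacency: the two arcs occur together in a relation -/
def adj (s r : S) : Prop := A.br s r ∨ A.br r s ∨ A.cm s r

/-- reversed arc system -/
def rev : ArcSys S W := ⟨A.tgt, A.src, fun s => (A.ne s).symm⟩

end ArcSys

/-- relators of an Artin group with braid pairs `br` and commuting pairs `cm` -/
def artRels {S : Type} (br cm : S → S → Prop) : Set (FreeGroup S) :=
  {w | (∃ s r, br s r ∧ w = of s * of r * of s * (of r * of s * of r)⁻¹) ∨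
       (∃ s r, cm s r ∧ w = of s * of r * (of r * of s)⁻¹)}

/-- Artin group -/
abbrev Art {S : Type} (br cm : S → S → Prop) : Type := PresentedGroup (artRels br cm)

/-- the generators -/
def gen {S : Type} (br cm : S → S → Prop) (s : S) : Art br cm := PresentedGroup.of s

/-- the group of an arc system -/
abbrev ArcSys.G {S W : Type} (A : ArcSys S W) : Type := Art A.br A.cm

/-- the generators of the group of an arc system -/
def ArcSys.x {S W : Type} (A : ArcSys S W) (s : S) : A.G := gen A.br A.cm s

/-- the parabolic subgroup of a set of arcs -/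
def ArcSys.par {S W : Type} (A : ArcSys S W) (X : Set S) : Subgroup A.G :=
  Subgroup.closure (A.x '' X)

/-- homomorphism from an Artin group -/
def artLift {S H : Type} [Group H] {br cm : S → S → Prop} (f : S → H)
    (h1 : ∀ s r, br s r → f s * f r * f s = f r * f s * f r)
    (h2 : ∀ s r, cm s r → f s * f r = f r * f s) : Art br cm →* H :=
  PresentedGroup.toGroup (f := f) (by
    rintro w (⟨s, r, h, rfl⟩ | ⟨s, r, h, rfl⟩)
    · simp only [map_mul, map_inv, FreeGroup.lift_apply_of]
      rw [h1 s r h, mul_inv_cancel]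
    · simp only [map_mul, map_inv, FreeGroup.lift_apply_of]
      rw [h2 s r h, mul_inv_cancel])

theorem artLift_gen {S H : Type} [Group H] {br cm : S → S → Prop} (f : S → H)
    (h1 : ∀ s r, br s r → f s * f r * f s = f r * f s * f r)
    (h2 : ∀ s r, cm s r → f s * f r = f r * f s) (s : S) :
    artLift f h1 h2 (gen br cm s) = f s := by
  simp [artLift, gen]

/-! ## The three arc systems -/

/-- arcs `(i,j)`, `i ≠ j` in `Fin n`: the group is `KB_n` -/
def kb (n : ℕ) : ArcSys {p : Fin n × Fin n // p.1 ≠ p.2} (Fin n) :=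
  ⟨fun p => p.1.1, fun p => p.1.2, fun p => p.2⟩

/-- the directed cycle with `M+3` sites, arc `k` from `k` to `k+1` (indices mod `M+3`) -/
def cyc (M : ℕ) : ArcSys (Fin (M + 3)) (Fin (M + 3)) :=
  ⟨fun k => k, fun k => k + 1, fun k => by simp⟩

/-- the directed path with `l` arcs -/
def path (l : ℕ) : ArcSys (Fin l) (Fin (l + 1)) :=
  ⟨Fin.castSucc, Fin.succ, fun k => by simp [Fin.ext_iff]⟩

/-! ## Braid groups `Br n` (generators `s 0, ..., s (n-1)`, the others are trivial) -/

/-- relators of the braid group on `n+1` strands -/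
def brRels (n : ℕ) : Set (FreeGroup ℕ) :=
  {w | (∃ k, n ≤ k ∧ w = of k) ∨
       (∃ k, k + 1 < n ∧ w = of k * of (k + 1) * of k * (of (k + 1) * of k * of (k + 1))⁻¹) ∨
       (∃ i j, i + 2 ≤ j ∧ w = of i * of j * (of j * of i)⁻¹)}

/-- braid group on `n+1` strands -/
abbrev Br (n : ℕ) : Type := PresentedGroup (brRels n)

/-- generators of `Br n`; trivial for `k ≥ n` -/
def sg (n k : ℕ) : Br n := PresentedGroup.of k

/-- homomorphism from a braid group -/
def brLift {H : Type} [Group H] (n : ℕ) (f : ℕ → H) (h0 : ∀ k, n ≤ k → f k = 1)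
    (h1 : ∀ k, k + 1 < n → f k * f (k + 1) * f k = f (k + 1) * f k * f (k + 1))
    (h2 : ∀ i j, i + 2 ≤ j → f i * f j = f j * f i) : Br n →* H :=
  PresentedGroup.toGroup (f := f) (by
    rintro w (⟨k, h, rfl⟩ | ⟨k, h, rfl⟩ | ⟨i, j, h, rfl⟩)
    · simp [h0 k h]
    · simp only [map_mul, map_inv, FreeGroup.lift_apply_of]
      rw [h1 k h, mul_inv_cancel]
    · simp only [map_mul, map_inv, FreeGroup.lift_apply_of]
      rw [h2 i j h, mul_inv_cancel])

theorem brLift_sg {H : Type} [Group H] (n : ℕ) (f : ℕ → H) (h0 : ∀ k, n ≤ k → f k = 1)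
    (h1 : ∀ k, k + 1 < n → f k * f (k + 1) * f k = f (k + 1) * f k * f (k + 1))
    (h2 : ∀ i j, i + 2 ≤ j → f i * f j = f j * f i) (k : ℕ) :
    brLift n f h0 h1 h2 (sg n k) = f k := by
  simp [brLift, sg]

theorem sg_eq_one (n k : ℕ) (h : n ≤ k) : sg n k = 1 := by
  have h' : (QuotientGroup.mk (of k) : PresentedGroup (brRels n)) = 1 :=
    (QuotientGroup.eq_one_iff _).2 (Subgroup.subset_normalClosure (Or.inl ⟨k, h, rfl⟩))
  exact h'

theorem sg_braid (n k : ℕ) (h : k + 1 < n) :
    sg n k * sg n (k + 1) * sg n k = sg n (k + 1) * sg n k * sg n (k + 1) := by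
  have h' : (QuotientGroup.mk (of k * of (k + 1) * of k * (of (k + 1) * of k * of (k + 1))⁻¹) :
      PresentedGroup (brRels n)) = 1 :=
    (QuotientGroup.eq_one_iff _).2 (Subgroup.subset_normalClosure (Or.inr (Or.inl ⟨k, h, rfl⟩)))
  have h'' : sg n k * sg n (k + 1) * sg n k * (sg n (k + 1) * sg n k * sg n (k + 1))⁻¹ = 1 := h'
  exact mul_inv_eq_one.1 h''

theorem sg_comm (n i j : ℕ) (h : i + 2 ≤ j) : sg n i * sg n j = sg n j * sg n i := by
  have h' : (QuotientGroup.mk (of i * of j * (of j * of i)⁻¹) : PresentedGroup (brRels n)) = 1 :=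
    (QuotientGroup.eq_one_iff _).2 (Subgroup.subset_normalClosure (Or.inr (Or.inr ⟨i, j, h, rfl⟩)))
  have h'' : sg n i * sg n j * (sg n j * sg n i)⁻¹ = 1 := h'
  exact mul_inv_eq_one.1 h''

theorem x_braid {S W : Type} (A : ArcSys S W) (s r : S) (h : A.br s r) :
    A.x s * A.x r * A.x s = A.x r * A.x s * A.x r := by
  have h' : (QuotientGroup.mk (of s * of r * of s * (of r * of s * of r)⁻¹) : A.G) = 1 :=
    (QuotientGroup.eq_one_iff _).2 (Subgroup.subset_normalClosure (Or.inl ⟨s, r, h, rfl⟩))
  have h'' : A.x s * A.x r * A.x s * (A.x r * A.x s * A.x r)⁻¹ = 1 := h'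
  exact mul_inv_eq_one.1 h''

theorem x_comm {S W : Type} (A : ArcSys S W) (s r : S) (h : A.cm s r) :
    A.x s * A.x r = A.x r * A.x s := by
  have h' : (QuotientGroup.mk (of s * of r * (of r * of s)⁻¹) : A.G) = 1 :=
    (QuotientGroup.eq_one_iff _).2 (Subgroup.subset_normalClosure (Or.inr ⟨s, r, h, rfl⟩))
  have h'' : A.x s * A.x r * (A.x r * A.x s)⁻¹ = 1 := h'
  exact mul_inv_eq_one.1 h''

end Pool.Agent.VB

namespace Pool.Agent.VB

open FreeGroup (of)

section right
variable {G M : Type} [Group G] [AddCommGroup M] [Module KK M]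

theorem rac_mul (r : RA G M) (F : M) (g h : G) : rac r F (g * h) = rac r (rac r F g) h := by
  simp [rac]

theorem rac_one (r : RA G M) (F : M) : rac r F 1 = F := by
  simp [rac]

theorem rac_inv_mul (r : RA G M) (F : M) (g : G) : rac r (rac r F g) g⁻¹ = F := by
  rw [← rac_mul, mul_inv_cancel, rac_one]

end right

/-! ## Level 2 functions: functions on multisets `{p,r}` of sites -/

section modules
variable {R : Type} [CommRing R] {W : Type} [DecidableEq W]

/-- the action of `x_ij` with twist `a` (and `a' = 1/a`) on level 2 functions -/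
def actV (q t a a' : R) (i j : W) (F : Sym2 W → R) (z : Sym2 W) : R :=
  Sym2.lift ⟨fun p r =>
    if p = i then
      (if r = i then (1 - q) * (1 - t * q) * F s(i, i) + (1 + t) * q * (1 - q) * a * F s(i, j)
            + q ^ 2 * a ^ 2 * F s(j, j)
        else if r = j then (1 - t * q) * a' * F s(i, i) + t * q * F s(i, j)
        else (1 - q) * F s(i, r) + q * a * F s(j, r))
    else if p = j then
      (if r = i then (1 - t * q) * a' * F s(i, i) + t * q * F s(i, j)
        else if r = j then a' ^ 2 * F s(i, i)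
        else a' * F s(i, r))
    else
      (if r = i then (1 - q) * F s(i, p) + q * a * F s(j, p)
        else if r = j then a' * F s(i, p)
        else F s(p, r)), by
    intro p r
    by_cases h1 : p = i <;> by_cases h2 : r = i <;> by_cases h3 : p = j <;> by_cases h4 : r = j <;>
      simp_all [Sym2.eq_swap]⟩ z

/-- level 1 action of `x_ij` with twist `a` on functions of the sites -/
def act1 (q a a' : R) (i j : W) (f : W → R) (p : W) : R :=
  if p = i then (1 - q) * f i + q * a * f j else if p = j then a' * f i else f p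

/-- the generator `sigma_0` on level 2 functions with sites `0,1,2,...` -/
def actS0 (q t : R) (F : Sym2 ℕ → R) (z : Sym2 ℕ) : R :=
  Sym2.lift ⟨fun p r =>
    if p = 0 ∧ r = 0 then t * q ^ 2 * F s(0, 0)
    else if p = 0 ∨ r = 0 then t * q ^ 2 * F s(0, 0) - q * F s(0, max p r)
    else F s(p, r) - q * (t * F s(0, min p r) + F s(0, max p r)) + t * q ^ 2 * F s(0, 0), by
    intro p r
    by_cases h1 : p = 0 <;> by_cases h2 : r = 0 <;> simp_all [Sym2.eq_swap, max_comm, min_comm]⟩ z

/-- `sigma_k` on level 2 functions with sites in `N`: `sigma_(k+1) = x_(k,k+1)`, twist 1 -/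
def actS (q t : R) (k : ℕ) (F : Sym2 ℕ → R) : Sym2 ℕ → R :=
  match k with
  | 0 => actS0 q t F
  | (k + 1) => actV q t 1 1 k (k + 1) F

/-- action of a positive word -/
def actW (q t : R) (w : List ℕ) (F : Sym2 ℕ → R) : Sym2 ℕ → R :=
  w.foldl (fun F k => actS q t k F) F

end modules

/-! ## The modules with an emitter.  States: `some (inl z)` multisets, `some (inr p)` = `(h,p)`,
`none` = `hh`. -/

/-- states -/
abbrev St (W : Type) : Type := Option (Sym2 W ⊕ W)

section emit
variable {R : Type} [Field R] {W : Type} [DecidableEq W]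

/-- level 2 module with emitter; `em` says whether the arc is the emitter -/
def act2E (q t a : R) (em : Bool) (i j : W) (F : St W → R) : St W → R
  | some (Sum.inl z) => actV q t a a⁻¹ i j (fun z => F (some (Sum.inl z))) z
  | some (Sum.inr p) =>
      if em then
        (if p = i then (1 - q) * F (some (Sum.inr i)) + q * (a / t) * F (some (Sum.inr j))
              + t * (1 - q) * (1 - t * q) * F (some (Sum.inl s(i, i)))
              + t * (1 - q) * (q + t * q - 1) * a * F (some (Sum.inl s(i, j)))
              - q * (1 - t * q) * a ^ 2 * F (some (Sum.inl s(j, j)))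
          else if p = j then t / a * F (some (Sum.inr i))
              + t * (1 - t * q) / a * F (some (Sum.inl s(i, i)))
              - t ^ 2 * (1 - q) * F (some (Sum.inl s(i, j)))
          else F (some (Sum.inr p))
              + t * (1 - q) * (F (some (Sum.inl s(i, p))) - a * F (some (Sum.inl s(j, p)))))
      else act1 q a a⁻¹ i j (fun p => F (some (Sum.inr p))) p
  | none =>
      if em then
        F none + (1 + t) * (t * F (some (Sum.inr i)) - a * F (some (Sum.inr j)))
          + t * (1 - t * q) * (t * F (some (Sum.inl s(i, i))) + a ^ 2 * F (some (Sum.inl s(j, j))))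
          - t ^ 2 * (1 + t) * (1 - q) * a * F (some (Sum.inl s(i, j)))
      else F none

/-- level 1 module with emitter (the multiset states are left alone) -/
def act1E (q a : R) (em : Bool) (i j : W) (F : St W → R) : St W → R
  | some (Sum.inl z) => F (some (Sum.inl z))
  | some (Sum.inr p) => act1 q a a⁻¹ i j (fun p => F (some (Sum.inr p))) p
  | none => if em then F none + (F (some (Sum.inr i)) - a * F (some (Sum.inr j))) else F none

/-- both levels; `lv = true` is level 2.  Twist `t q` (level 2), `q` (level 1) on the cut arc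
(`cut = true`), 1 elsewhere -/
def actE (q t : R) (lv cut em : Bool) (i j : W) (F : St W → R) : St W → R :=
  if lv then act2E q t (if cut then t * q else 1) em i j F
  else act1E q (if cut then q else 1) em i j F

/-- the row functional `eps` -/
def eps (t : R) (lv : Bool) : St W → R
  | some (Sum.inl _) => if lv then 1 else 0
  | some (Sum.inr _) => if lv then t else 1
  | none => 0

end emit


/-! ## evaluation lemmas -/

section evalV
variable {R : Type} [CommRing R] {W : Type} [DecidableEq W] (q t a a' : R) (i j : W)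
  (F : Sym2 W → R)

theorem actV_ii : actV q t a a' i j F s(i, i) =
    (1 - q) * (1 - t * q) * F s(i, i) + (1 + t) * q * (1 - q) * a * F s(i, j)
            + q ^ 2 * a ^ 2 * F s(j, j) := by
  simp [actV]

theorem actV_ij (h : i ≠ j) : actV q t a a' i j F s(i, j) =
    (1 - t * q) * a' * F s(i, i) + t * q * F s(i, j) := by
  simp [actV, h.symm]

theorem actV_jj (h : i ≠ j) : actV q t a a' i j F s(j, j) = a' ^ 2 * F s(i, i) := by
  simp [actV, h.symm]

theorem actV_ik (k : W) (h1 : k ≠ i) (h2 : k ≠ j) : actV q t a a' i j F s(i, k) =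
    (1 - q) * F s(i, k) + q * a * F s(j, k) := by
  simp [actV, h1, h2]

theorem actV_jk (h : i ≠ j) (k : W) (h1 : k ≠ i) (h2 : k ≠ j) :
    actV q t a a' i j F s(j, k) = a' * F s(i, k) := by
  simp [actV, h.symm, h1, h2]

theorem actV_kl (p r : W) (h1 : p ≠ i) (h2 : p ≠ j) (h3 : r ≠ i) (h4 : r ≠ j) :
    actV q t a a' i j F s(p, r) = F s(p, r) := by
  simp [actV, h1, h2, h3, h4]

theorem act1_i (f : W → R) : act1 q a a' i j f i = (1 - q) * f i + q * a * f j := by
  simp [act1]

theorem act1_j (f : W → R) (h : i ≠ j) : act1 q a a' i j f j = a' * f i := by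
  simp [act1, h.symm]

theorem act1_k (f : W → R) (p : W) (h1 : p ≠ i) (h2 : p ≠ j) : act1 q a a' i j f p = f p := by
  simp [act1, h1, h2]

theorem actS0_00 (F : Sym2 ℕ → R) : actS0 q t F s(0, 0) = t * q ^ 2 * F s(0, 0) := by
  simp [actS0]

theorem actS0_0j (F : Sym2 ℕ → R) (j : ℕ) (h : j ≠ 0) :
    actS0 q t F s(0, j) = t * q ^ 2 * F s(0, 0) - q * F s(0, j) := by
  simp [actS0, h]

theorem actS0_ij (F : Sym2 ℕ → R) (i j : ℕ) (h : i ≠ 0) (hij : i ≤ j) :
    actS0 q t F s(i, j) = F s(i, j) - q * (t * F s(0, i) + F s(0, j))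
      + t * q ^ 2 * F s(0, 0) := by
  have hj : j ≠ 0 := by omega
  simp [actS0, h, hj, hij]

theorem actW_nil (F : Sym2 ℕ → R) : actW q t [] F = F := rfl

theorem actW_cons (F : Sym2 ℕ → R) (k : ℕ) (w : List ℕ) :
    actW q t (k :: w) F = actW q t w (actS q t k F) := rfl

theorem actW_append (F : Sym2 ℕ → R) (w w' : List ℕ) :
    actW q t (w ++ w') F = actW q t w' (actW q t w F) := by
  simp [actW, List.foldl_append]

end evalV

/-! ## The free group `FreeGroup ℕ` (generators `y_j = of j`) and the Artin action -/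

/-- images of the generators under `s_i` -/
def bact0 (i j : ℕ) : FreeGroup ℕ :=
  if j = i then of (i + 1) else if j = i + 1 then (of (i + 1))⁻¹ * of i * of (i + 1) else of j

/-- images of the generators under `s_i^-1` -/
def bact0' (i j : ℕ) : FreeGroup ℕ :=
  if j = i then of i * of (i + 1) * (of i)⁻¹ else if j = i + 1 then of i else of j

/-- the automorphism `s_i` of the free group: `y_i -> y_(i+1)`,
`y_(i+1) -> y_(i+1)^-1 y_i y_(i+1)` -/
def bact (i : ℕ) : MulAut (FreeGroup ℕ) :=
  MonoidHom.toMulEquiv (FreeGroup.lift (bact0 i)) (FreeGroup.lift (bact0' i))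
    (by
      ext j
      by_cases h1 : j = i
      · subst h1; simp [bact0, bact0']
      · by_cases h2 : j = i + 1
        · subst h2; simp [bact0, bact0', mul_assoc]
        · simp [bact0, bact0', h1, h2])
    (by
      ext j
      by_cases h1 : j = i
      · subst h1; simp [bact0, bact0', mul_assoc]
      · by_cases h2 : j = i + 1
        · subst h2; simp [bact0, bact0']
        · simp [bact0, bact0', h1, h2])

theorem bact_of (i j : ℕ) : bact i (of j) = bact0 i j := by
  simp [bact]

theorem bact_self (i : ℕ) : bact i (of i) = of (i + 1) := by simp [bact_of, bact0]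

theorem bact_succ (i : ℕ) : bact i (of (i + 1)) = (of (i + 1))⁻¹ * of i * of (i + 1) := by
  simp [bact_of, bact0]

theorem bact_ne (i j : ℕ) (h1 : j ≠ i) (h2 : j ≠ i + 1) : bact i (of j) = of j := by
  simp [bact_of, bact0, h1, h2]

end Pool.Agent.VB

end Row_Defs

section Row_KKf

/-!
Elementary facts on q and t in K.
-/

namespace Pool.Agent.VB

open FreeGroup (of)

theorem q0_pos : (0 : ℚ) < q0 := by norm_num [q0]
theorem q0_lt : q0 < 1 := by norm_num [q0]

theorem algMap_inj : Function.Injective (algebraMap (Polynomial ℚ) KK) :=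
  IsFractionRing.injective (Polynomial ℚ) KK

theorem qK_ne : qK ≠ 0 := by
  intro h
  have : qP = 0 := algMap_inj (by rw [map_zero]; exact h)
  rw [qP, Polynomial.C_eq_zero] at this
  norm_num [q0] at this

theorem tK_ne : tK ≠ 0 := by
  intro h
  have : tP = 0 := algMap_inj (by rw [map_zero]; exact h)
  exact Polynomial.X_ne_zero this

/-- a polynomial with non zero constant term is non zero in `K` -/
theorem algMap_ne (p : Polynomial ℚ) (h : p.eval 0 ≠ 0) : algebraMap (Polynomial ℚ) KK p ≠ 0 := by
  intro h'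
  have : p = 0 := algMap_inj (by rw [map_zero]; exact h')
  rw [this] at h; simp at h

end Pool.Agent.VB

end Row_KKf

section Row_A1

/-!
ROW A1: linearity of all the actions.  By cases on the states (Sym2.ind / rcases) and `ring`.
-/

namespace Pool.Agent.VB

open FreeGroup (of)

section
variable {R : Type} [CommRing R] {W : Type} [DecidableEq W]

theorem actV_add (q t a a' : R) (i j : W) (F G : Sym2 W → R) :
    actV q t a a' i j (F + G) = actV q t a a' i j F + actV q t a a' i j G := by
  funext z
  induction z using Sym2.ind with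
  | _ p r =>
    simp only [actV, Sym2.lift_mk, Pi.add_apply]
    split_ifs <;> ring

theorem actV_smul (q t a a' c : R) (i j : W) (F : Sym2 W → R) :
    actV q t a a' i j (c • F) = c • actV q t a a' i j F := by
  funext z
  induction z using Sym2.ind with
  | _ p r =>
    simp only [actV, Sym2.lift_mk, Pi.smul_apply, smul_eq_mul]
    split_ifs <;> ring

theorem actS0_add (q t : R) (F G : Sym2 ℕ → R) :
    actS0 q t (F + G) = actS0 q t F + actS0 q t G := by
  funext z
  induction z using Sym2.ind with
  | _ p r =>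
    simp only [actS0, Sym2.lift_mk, Pi.add_apply]
    split_ifs <;> ring

theorem actS0_smul (q t c : R) (F : Sym2 ℕ → R) :
    actS0 q t (c • F) = c • actS0 q t F := by
  funext z
  induction z using Sym2.ind with
  | _ p r =>
    simp only [actS0, Sym2.lift_mk, Pi.smul_apply, smul_eq_mul]
    split_ifs <;> ring

theorem actS_add (q t : R) (k : ℕ) (F G : Sym2 ℕ → R) :
    actS q t k (F + G) = actS q t k F + actS q t k G := by
  cases k with
  | zero => exact actS0_add q t F G
  | succ k => exact actV_add q t 1 1 k (k + 1) F G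

theorem actS_smul (q t c : R) (k : ℕ) (F : Sym2 ℕ → R) :
    actS q t k (c • F) = c • actS q t k F := by
  cases k with
  | zero => exact actS0_smul q t c F
  | succ k => exact actV_smul q t 1 1 c k (k + 1) F

theorem actW_add (q t : R) (w : List ℕ) (F G : Sym2 ℕ → R) :
    actW q t w (F + G) = actW q t w F + actW q t w G := by
  induction w generalizing F G with
  | nil => rfl
  | cons k w ih => rw [actW_cons, actW_cons, actW_cons, actS_add, ih]

theorem actW_smul (q t c : R) (w : List ℕ) (F : Sym2 ℕ → R) :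
    actW q t w (c • F) = c • actW q t w F := by
  induction w generalizing F with
  | nil => rfl
  | cons k w ih => rw [actW_cons, actW_cons, actS_smul, ih]

theorem act1_add (q a a' : R) (i j : W) (f g : W → R) :
    act1 q a a' i j (f + g) = act1 q a a' i j f + act1 q a a' i j g := by
  funext p
  simp only [act1, Pi.add_apply]
  split_ifs <;> ring

theorem act1_smul (q a a' c : R) (i j : W) (f : W → R) :
    act1 q a a' i j (c • f) = c • act1 q a a' i j f := by
  funext p
  simp only [act1, Pi.smul_apply, smul_eq_mul]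
  split_ifs <;> ring
end

section
variable {K : Type} [Field K] {W : Type} [DecidableEq W]

theorem actE_add (q t : K) (lv cut em : Bool) (i j : W) (F G : St W → K) :
    actE q t lv cut em i j (F + G) = actE q t lv cut em i j F + actE q t lv cut em i j G := by
  have hV : ∀ (a : K), actV q t a a⁻¹ i j (fun z => (F + G) (some (Sum.inl z))) =
      actV q t a a⁻¹ i j (fun z => F (some (Sum.inl z))) +
      actV q t a a⁻¹ i j (fun z => G (some (Sum.inl z))) := fun a => by
    rw [← actV_add]; rfl
  have h1 : ∀ (a : K), act1 q a a⁻¹ i j (fun p => (F + G) (some (Sum.inr p))) =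
      act1 q a a⁻¹ i j (fun p => F (some (Sum.inr p))) +
      act1 q a a⁻¹ i j (fun p => G (some (Sum.inr p))) := fun a => by
    rw [← act1_add]; rfl
  funext z
  rcases z with _ | z | p
  · cases lv <;> simp only [actE, act2E, act1E, Pi.add_apply, Bool.false_eq_true, if_true,
      if_false] <;> cases em <;> simp only [Bool.false_eq_true, if_true, if_false] <;> ring
  · cases lv
    · simp only [actE, act1E, Pi.add_apply, Bool.false_eq_true, if_false]
    · exact congrFun (hV (if cut = true then t * q else 1)) z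
  · cases lv
    · exact congrFun (h1 (if cut = true then q else 1)) p
    · cases em
      · exact congrFun (h1 (if cut = true then t * q else 1)) p
      · simp only [actE, act2E, if_true, Pi.add_apply]
        generalize (if cut = true then t * q else 1) = a
        split_ifs <;> ring

theorem actE_smul (q t c : K) (lv cut em : Bool) (i j : W) (F : St W → K) :
    actE q t lv cut em i j (c • F) = c • actE q t lv cut em i j F := by
  have hV : ∀ (a : K), actV q t a a⁻¹ i j (fun z => (c • F) (some (Sum.inl z))) =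
      c • actV q t a a⁻¹ i j (fun z => F (some (Sum.inl z))) := fun a => by
    rw [← actV_smul]; rfl
  have h1 : ∀ (a : K), act1 q a a⁻¹ i j (fun p => (c • F) (some (Sum.inr p))) =
      c • act1 q a a⁻¹ i j (fun p => F (some (Sum.inr p))) := fun a => by
    rw [← act1_smul]; rfl
  funext z
  rcases z with _ | z | p
  · cases lv <;> simp only [actE, act2E, act1E, Pi.smul_apply, smul_eq_mul, Bool.false_eq_true,
      if_true, if_false] <;> cases em <;>
      simp only [Bool.false_eq_true, if_true, if_false] <;> ring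
  · cases lv
    · simp only [actE, act1E, Pi.smul_apply, Bool.false_eq_true, if_false]
    · exact congrFun (hV (if cut = true then t * q else 1)) z
  · cases lv
    · exact congrFun (h1 (if cut = true then q else 1)) p
    · cases em
      · exact congrFun (h1 (if cut = true then t * q else 1)) p
      · simp only [actE, act2E, if_true, Pi.smul_apply, smul_eq_mul]
        generalize (if cut = true then t * q else 1) = a
        split_ifs <;> ring
end

end Pool.Agent.VB

end Row_A1

section Row_A2

/-!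
ROW A2: change of the ring.  `f : R →+* R'` commutes with the actions.
-/

namespace Pool.Agent.VB

open FreeGroup (of)

section
variable {R R' : Type} [CommRing R] [CommRing R'] (f : R →+* R') {W : Type} [DecidableEq W]

theorem actV_map (q t a a' : R) (i j : W) (F : Sym2 W → R) :
    actV (f q) (f t) (f a) (f a') i j (fun z => f (F z)) = fun z => f (actV q t a a' i j F z) := by
  funext z
  induction z using Sym2.ind with
  | _ p r =>
    simp only [actV, Sym2.lift_mk]
    split_ifs <;> simp only [map_add, map_mul, map_sub, map_one, map_pow]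

theorem actS0_map (q t : R) (F : Sym2 ℕ → R) :
    actS0 (f q) (f t) (fun z => f (F z)) = fun z => f (actS0 q t F z) := by
  funext z
  induction z using Sym2.ind with
  | _ p r =>
    simp only [actS0, Sym2.lift_mk]
    split_ifs <;> simp only [map_add, map_mul, map_sub, map_pow]

theorem actS_map (q t : R) (k : ℕ) (F : Sym2 ℕ → R) :
    actS (f q) (f t) k (fun z => f (F z)) = fun z => f (actS q t k F z) := by
  cases k with
  | zero => exact actS0_map f q t F
  | succ k =>
    have h := actV_map f q t 1 1 k (k + 1) F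
    rw [map_one] at h
    exact h

theorem actW_map (q t : R) (w : List ℕ) (F : Sym2 ℕ → R) :
    actW (f q) (f t) w (fun z => f (F z)) = fun z => f (actW q t w F z) := by
  induction w generalizing F with
  | nil => rfl
  | cons k w ih =>
    change actW (f q) (f t) w (actS (f q) (f t) k (fun z => f (F z))) =
      fun z => f (actW q t w (actS q t k F) z)
    rw [actS_map, ih]
end

end Pool.Agent.VB

end Row_A2

section Row_A3

/-!
ROW A3: `actV` is bijective.  Inverse of G = F.x (a' = 1/a):
F{i,i} = a^2 G{j,j};  F{i,j} = (G{i,j} - (1-tq) a G{j,j})/(t q);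
F{j,j} = (G{i,i} - (1-q)(1-tq) a^2 G{j,j} - (1+t) q (1-q) a F{i,j})/(q^2 a^2) with the above F{i,j};
F{i,k} = a G{j,k};  F{j,k} = (G{i,k} - (1-q) a G{j,k})/(q a);  F{p,r} = G{p,r} otherwise.
(Injectivity: read off the values in this order; surjectivity: define F by Sym2.lift.)
-/

namespace Pool.Agent.VB

open FreeGroup (of)

/-- two functions on `Sym2 W` agree if they agree on the six kinds of pairs -/
theorem A3_ext {K : Type} {W : Type} [DecidableEq W] (U V : Sym2 W → K) (i j : W)
    (h1 : U s(i, i) = V s(i, i)) (h2 : U s(i, j) = V s(i, j)) (h3 : U s(j, j) = V s(j, j))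
    (h4 : ∀ k, k ≠ i → k ≠ j → U s(i, k) = V s(i, k))
    (h5 : ∀ k, k ≠ i → k ≠ j → U s(j, k) = V s(j, k))
    (h6 : ∀ p r, p ≠ i → p ≠ j → r ≠ i → r ≠ j → U s(p, r) = V s(p, r)) : U = V := by
  funext z
  induction z using Sym2.ind with
  | _ p r =>
    by_cases hp : p = i
    · rw [hp]
      by_cases hr : r = i
      · rw [hr]; exact h1
      · by_cases hr' : r = j
        · rw [hr']; exact h2
        · exact h4 r hr hr'
    · by_cases hp' : p = j
      · rw [hp']
        by_cases hr : r = i
        · rw [hr, Sym2.eq_swap]; exact h2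
        · by_cases hr' : r = j
          · rw [hr']; exact h3
          · exact h5 r hr hr'
      · by_cases hr : r = i
        · rw [hr, Sym2.eq_swap]; exact h4 p hp hp'
        · by_cases hr' : r = j
          · rw [hr', Sym2.eq_swap]; exact h5 p hp hp'
          · exact h6 p r hp hp' hr hr'

/-- a function on `Sym2 W` with prescribed values on the six kinds of pairs -/
theorem A3_exists {K : Type} {W : Type} [DecidableEq W] (i j : W) (hij : i ≠ j) (A B C : K)
    (D E : W → K) (G : Sym2 W → K) : ∃ F : Sym2 W → K, F s(i, i) = A ∧ F s(i, j) = B ∧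
      F s(j, j) = C ∧ (∀ k, k ≠ i → k ≠ j → F s(i, k) = D k) ∧
      (∀ k, k ≠ i → k ≠ j → F s(j, k) = E k) ∧
      (∀ p r, p ≠ i → p ≠ j → r ≠ i → r ≠ j → F s(p, r) = G s(p, r)) := by
  refine ⟨Sym2.lift ⟨fun p r =>
    if p = i then (if r = i then A else if r = j then B else D r)
    else if p = j then (if r = i then B else if r = j then C else E r)
    else (if r = i then D p else if r = j then E p else G s(p, r)), ?_⟩, ?_, ?_, ?_, ?_, ?_, ?_⟩
  · intro p r
    by_cases h1 : p = i <;> by_cases h2 : r = i <;> by_cases h3 : p = j <;> by_cases h4 : r = j <;>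
      simp_all [Sym2.eq_swap]
  · simp
  · simp [hij.symm]
  · simp [hij.symm]
  · intro k h1 h2
    simp [h1, h2]
  · intro k h1 h2
    simp [h1, h2, hij.symm]
  · intro p r h1 h2 h3 h4
    simp [h1, h2, h3, h4]

theorem actV_bij {K : Type} [Field K] {W : Type} [DecidableEq W] (q t a : K) (hq : q ≠ 0)
    (ht : t ≠ 0) (ha : a ≠ 0) (i j : W) (h : i ≠ j) :
    Function.Bijective (actV q t a a⁻¹ i j) := by
  have ha' : a⁻¹ ≠ 0 := inv_ne_zero ha
  constructor
  · intro F F' hF
    have hz : ∀ z, actV q t a a⁻¹ i j F z = actV q t a a⁻¹ i j F' z := fun z => congrFun hF z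
    have e1 : F s(i, i) = F' s(i, i) := by
      have h1 := hz s(j, j)
      rw [actV_jj q t a a⁻¹ i j F h, actV_jj q t a a⁻¹ i j F' h] at h1
      exact mul_left_cancel₀ (pow_ne_zero 2 ha') h1
    have e2 : F s(i, j) = F' s(i, j) := by
      have h1 := hz s(i, j)
      rw [actV_ij q t a a⁻¹ i j F h, actV_ij q t a a⁻¹ i j F' h, e1] at h1
      exact mul_left_cancel₀ (mul_ne_zero ht hq) (add_left_cancel h1)
    have e3 : F s(j, j) = F' s(j, j) := by
      have h1 := hz s(i, i)
      rw [actV_ii q t a a⁻¹ i j F, actV_ii q t a a⁻¹ i j F', e1, e2] at h1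
      exact mul_left_cancel₀ (mul_ne_zero (pow_ne_zero 2 hq) (pow_ne_zero 2 ha))
        (add_left_cancel h1)
    have e4 : ∀ k, k ≠ i → k ≠ j → F s(i, k) = F' s(i, k) := by
      intro k h1 h2
      have h3 := hz s(j, k)
      rw [actV_jk q t a a⁻¹ i j F h k h1 h2, actV_jk q t a a⁻¹ i j F' h k h1 h2] at h3
      exact mul_left_cancel₀ ha' h3
    have e5 : ∀ k, k ≠ i → k ≠ j → F s(j, k) = F' s(j, k) := by
      intro k h1 h2
      have h3 := hz s(i, k)
      rw [actV_ik q t a a⁻¹ i j F k h1 h2, actV_ik q t a a⁻¹ i j F' k h1 h2, e4 k h1 h2] at h3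
      exact mul_left_cancel₀ (mul_ne_zero hq ha) (add_left_cancel h3)
    refine A3_ext F F' i j e1 e2 e3 e4 e5 (fun p r h1 h2 h3 h4 => ?_)
    have h5 := hz s(p, r)
    rw [actV_kl q t a a⁻¹ i j F p r h1 h2 h3 h4, actV_kl q t a a⁻¹ i j F' p r h1 h2 h3 h4] at h5
    exact h5
  · intro G
    obtain ⟨F, f1, f2, f3, f4, f5, f6⟩ := A3_exists i j h (a ^ 2 * G s(j, j))
      ((G s(i, j) - (1 - t * q) * a * G s(j, j)) / (t * q))
      ((G s(i, i) - (1 - q) * (1 - t * q) * a ^ 2 * G s(j, j) -
        (1 + t) * q * (1 - q) * a * ((G s(i, j) - (1 - t * q) * a * G s(j, j)) / (t * q))) /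
        (q ^ 2 * a ^ 2))
      (fun k => a * G s(j, k)) (fun k => (G s(i, k) - (1 - q) * a * G s(j, k)) / (q * a)) G
    refine ⟨F, ?_⟩
    refine A3_ext _ G i j ?_ ?_ ?_ ?_ ?_ ?_
    · rw [actV_ii, f1, f2, f3]
      field_simp
      ring
    · rw [actV_ij q t a a⁻¹ i j F h, f1, f2]
      field_simp
      ring
    · rw [actV_jj q t a a⁻¹ i j F h, f1]
      field_simp
    · intro k h1 h2
      rw [actV_ik q t a a⁻¹ i j F k h1 h2, f4 k h1 h2, f5 k h1 h2]
      field_simp
      ring
    · intro k h1 h2
      rw [actV_jk q t a a⁻¹ i j F h k h1 h2, f4 k h1 h2]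
      field_simp
    · intro p r h1 h2 h3 h4
      rw [actV_kl q t a a⁻¹ i j F p r h1 h2 h3 h4, f6 p r h1 h2 h3 h4]

end Pool.Agent.VB

end Row_A3

section Row_A4

/-!
ROW A4: `actS0` is bijective.  Inverse of G = F.s_0:
F{0,0} = G{0,0}/(t q^2); F{0,j} = (G{0,0} - G{0,j})/q (j ≠ 0);
F{i,j} = G{i,j} + t (G{0,0} - G{0,min}) + (G{0,0} - G{0,max}) - G{0,0}  (i,j ≠ 0).
-/

namespace Pool.Agent.VB

open FreeGroup (of)

private theorem A4_ord (z : Sym2 ℕ) :
    z = s(0, 0) ∨ (∃ j, j ≠ 0 ∧ z = s(0, j)) ∨ (∃ i j, i ≠ 0 ∧ i ≤ j ∧ z = s(i, j)) := by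
  induction z using Sym2.ind with
  | _ p r =>
    by_cases hp : p = 0
    · subst hp
      by_cases hr : r = 0
      · subst hr; exact Or.inl rfl
      · exact Or.inr (Or.inl ⟨r, hr, rfl⟩)
    · by_cases hr : r = 0
      · subst hr; exact Or.inr (Or.inl ⟨p, hp, Sym2.eq_swap⟩)
      · rcases le_total p r with h | h
        · exact Or.inr (Or.inr ⟨p, r, hp, h, rfl⟩)
        · exact Or.inr (Or.inr ⟨r, p, hr, h, Sym2.eq_swap⟩)

private def A4_inv {K : Type} [Field K] (q t : K) (G : Sym2 ℕ → K) (z : Sym2 ℕ) : K :=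
  Sym2.lift ⟨fun p r =>
    if p = 0 ∧ r = 0 then G s(0, 0) / (t * q ^ 2)
    else if p = 0 ∨ r = 0 then (G s(0, 0) - G s(0, max p r)) / q
    else G s(p, r) + t * (G s(0, 0) - G s(0, min p r)) + (G s(0, 0) - G s(0, max p r))
      - G s(0, 0), by
    intro p r
    by_cases h1 : p = 0 <;> by_cases h2 : r = 0 <;> simp_all [Sym2.eq_swap, max_comm, min_comm]⟩ z

private theorem A4_inv_00 {K : Type} [Field K] (q t : K) (G : Sym2 ℕ → K) :
    A4_inv q t G s(0, 0) = G s(0, 0) / (t * q ^ 2) := by
  simp [A4_inv]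

private theorem A4_inv_0j {K : Type} [Field K] (q t : K) (G : Sym2 ℕ → K) (j : ℕ) (h : j ≠ 0) :
    A4_inv q t G s(0, j) = (G s(0, 0) - G s(0, j)) / q := by
  simp [A4_inv, h]

private theorem A4_inv_ij {K : Type} [Field K] (q t : K) (G : Sym2 ℕ → K) (i j : ℕ) (h : i ≠ 0)
    (hij : i ≤ j) : A4_inv q t G s(i, j) =
      G s(i, j) + t * (G s(0, 0) - G s(0, i)) + (G s(0, 0) - G s(0, j)) - G s(0, 0) := by
  have hj : j ≠ 0 := by omega
  simp [A4_inv, h, hj, hij]

theorem actS0_bij {K : Type} [Field K] (q t : K) (hq : q ≠ 0) (ht : t ≠ 0) :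
    Function.Bijective (actS0 q t) := by
  refine Function.bijective_iff_has_inverse.2 ⟨A4_inv q t, fun F => ?_, fun G => ?_⟩
  · funext z
    rcases A4_ord z with rfl | ⟨j, hj, rfl⟩ | ⟨i, j, hi, hij, rfl⟩
    · rw [A4_inv_00, actS0_00]
      field_simp
    · rw [A4_inv_0j _ _ _ _ hj, actS0_00, actS0_0j _ _ _ _ hj]
      field_simp
      ring
    · have hj : j ≠ 0 := by omega
      rw [A4_inv_ij _ _ _ _ _ hi hij, actS0_00, actS0_0j _ _ _ _ hj, actS0_0j _ _ _ _ hi,
        actS0_ij _ _ _ _ _ hi hij]
      ring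
  · funext z
    rcases A4_ord z with rfl | ⟨j, hj, rfl⟩ | ⟨i, j, hi, hij, rfl⟩
    · rw [actS0_00, A4_inv_00]
      field_simp
    · rw [actS0_0j _ _ _ _ hj, A4_inv_00, A4_inv_0j _ _ _ _ hj]
      field_simp
      ring
    · have hj : j ≠ 0 := by omega
      rw [actS0_ij _ _ _ _ _ hi hij, A4_inv_00, A4_inv_0j _ _ _ _ hj, A4_inv_0j _ _ _ _ hi,
        A4_inv_ij _ _ _ _ _ hi hij]
      field_simp
      ring

end Pool.Agent.VB

end Row_A4

section Row_A5

set_option linter.unusedSimpArgs false

/-!
ROW A5: braid relation for level 2 functions, arbitrary twists.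
funext z; induction z using Sym2.ind; cases p,r in {i,j,k,other}; use the evaluation lemmas
actV_ii, actV_ij, actV_jj, actV_ik, actV_jk, actV_kl (and Sym2.eq_swap) or unfold and simp with the
inequalities; field_simp; ring.
-/

namespace Pool.Agent.VB

open FreeGroup (of)

theorem actV_braid {K : Type} [Field K] {W : Type} [DecidableEq W] (q t a b : K) (ha : a ≠ 0)
    (hb : b ≠ 0) (i j k : W) (hij : i ≠ j) (hjk : j ≠ k) (hik : i ≠ k) (F : Sym2 W → K) :
    actV q t a a⁻¹ i j (actV q t b b⁻¹ j k (actV q t a a⁻¹ i j F)) =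
      actV q t b b⁻¹ j k (actV q t a a⁻¹ i j (actV q t b b⁻¹ j k F)) := by
  have hji := hij.symm
  have hkj := hjk.symm
  have hki := hik.symm
  have e1 : (s(j, i) : Sym2 W) = s(i, j) := Sym2.eq_swap
  have e2 : (s(k, i) : Sym2 W) = s(i, k) := Sym2.eq_swap
  have e3 : (s(k, j) : Sym2 W) = s(j, k) := Sym2.eq_swap
  have A1 : ∀ G : Sym2 W → K, actV q t a a⁻¹ i j G s(i, i) =
      (1 - q) * (1 - t * q) * G s(i, i) + (1 + t) * q * (1 - q) * a * G s(i, j)
            + q ^ 2 * a ^ 2 * G s(j, j) := fun G => actV_ii q t a a⁻¹ i j G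
  have A2 : ∀ G : Sym2 W → K, actV q t a a⁻¹ i j G s(i, j) =
      (1 - t * q) * a⁻¹ * G s(i, i) + t * q * G s(i, j) := fun G => actV_ij q t a a⁻¹ i j G hij
  have A3 : ∀ G : Sym2 W → K, actV q t a a⁻¹ i j G s(j, j) = a⁻¹ ^ 2 * G s(i, i) :=
    fun G => actV_jj q t a a⁻¹ i j G hij
  have A4 : ∀ (G : Sym2 W → K) (r : W), r ≠ i → r ≠ j → actV q t a a⁻¹ i j G s(i, r) =
      (1 - q) * G s(i, r) + q * a * G s(j, r) := fun G r h1 h2 => actV_ik q t a a⁻¹ i j G r h1 h2
  have A5 : ∀ (G : Sym2 W → K) (r : W), r ≠ i → r ≠ j → actV q t a a⁻¹ i j G s(j, r) =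
      a⁻¹ * G s(i, r) := fun G r h1 h2 => actV_jk q t a a⁻¹ i j G hij r h1 h2
  have A6 : ∀ (G : Sym2 W → K) (p r : W), p ≠ i → p ≠ j → r ≠ i → r ≠ j →
      actV q t a a⁻¹ i j G s(p, r) = G s(p, r) :=
    fun G p r h1 h2 h3 h4 => actV_kl q t a a⁻¹ i j G p r h1 h2 h3 h4
  have B1 : ∀ G : Sym2 W → K, actV q t b b⁻¹ j k G s(j, j) =
      (1 - q) * (1 - t * q) * G s(j, j) + (1 + t) * q * (1 - q) * b * G s(j, k)
            + q ^ 2 * b ^ 2 * G s(k, k) := fun G => actV_ii q t b b⁻¹ j k G
  have B2 : ∀ G : Sym2 W → K, actV q t b b⁻¹ j k G s(j, k) =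
      (1 - t * q) * b⁻¹ * G s(j, j) + t * q * G s(j, k) := fun G => actV_ij q t b b⁻¹ j k G hjk
  have B3 : ∀ G : Sym2 W → K, actV q t b b⁻¹ j k G s(k, k) = b⁻¹ ^ 2 * G s(j, j) :=
    fun G => actV_jj q t b b⁻¹ j k G hjk
  have B4 : ∀ (G : Sym2 W → K) (r : W), r ≠ j → r ≠ k → actV q t b b⁻¹ j k G s(j, r) =
      (1 - q) * G s(j, r) + q * b * G s(k, r) := fun G r h1 h2 => actV_ik q t b b⁻¹ j k G r h1 h2
  have B5 : ∀ (G : Sym2 W → K) (r : W), r ≠ j → r ≠ k → actV q t b b⁻¹ j k G s(k, r) =
      b⁻¹ * G s(j, r) := fun G r h1 h2 => actV_jk q t b b⁻¹ j k G hjk r h1 h2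
  have B6 : ∀ (G : Sym2 W → K) (p r : W), p ≠ j → p ≠ k → r ≠ j → r ≠ k →
      actV q t b b⁻¹ j k G s(p, r) = G s(p, r) :=
    fun G p r h1 h2 h3 h4 => actV_kl q t b b⁻¹ j k G p r h1 h2 h3 h4
  have B7 : ∀ G : Sym2 W → K, actV q t b b⁻¹ j k G s(i, j) =
      (1 - q) * G s(i, j) + q * b * G s(i, k) := by
    intro G
    rw [← e1, ← e2]
    exact B4 G i hij hik
  have B8 : ∀ G : Sym2 W → K, actV q t b b⁻¹ j k G s(i, k) = b⁻¹ * G s(i, j) := by
    intro G
    rw [← e1, ← e2]
    exact B5 G i hij hik
  have A7 : ∀ G : Sym2 W → K, actV q t a a⁻¹ i j G s(i, k) =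
      (1 - q) * G s(i, k) + q * a * G s(j, k) := fun G => A4 G k hki hkj
  have A8 : ∀ G : Sym2 W → K, actV q t a a⁻¹ i j G s(j, k) = a⁻¹ * G s(i, k) :=
    fun G => A5 G k hki hkj
  have A9 : ∀ G : Sym2 W → K, actV q t a a⁻¹ i j G s(k, k) = G s(k, k) :=
    fun G => A6 G k k hki hkj hki hkj
  have B9 : ∀ G : Sym2 W → K, actV q t b b⁻¹ j k G s(i, i) = G s(i, i) :=
    fun G => B6 G i i hij hik hij hik
  have cii : actV q t a a⁻¹ i j (actV q t b b⁻¹ j k (actV q t a a⁻¹ i j F)) s(i, i) =
      actV q t b b⁻¹ j k (actV q t a a⁻¹ i j (actV q t b b⁻¹ j k F)) s(i, i) := by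
    simp only [A1, A2, A3, A7, A8, A9, B1, B2, B3, B7, B8, B9]
    try field_simp
    try ring
  have cij : actV q t a a⁻¹ i j (actV q t b b⁻¹ j k (actV q t a a⁻¹ i j F)) s(i, j) =
      actV q t b b⁻¹ j k (actV q t a a⁻¹ i j (actV q t b b⁻¹ j k F)) s(i, j) := by
    simp only [A1, A2, A3, A7, A8, A9, B1, B2, B3, B7, B8, B9]
    try field_simp
    try ring
  have cik : actV q t a a⁻¹ i j (actV q t b b⁻¹ j k (actV q t a a⁻¹ i j F)) s(i, k) =
      actV q t b b⁻¹ j k (actV q t a a⁻¹ i j (actV q t b b⁻¹ j k F)) s(i, k) := by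
    simp only [A1, A2, A3, A7, A8, A9, B1, B2, B3, B7, B8, B9]
    try field_simp
    try ring
  have cjj : actV q t a a⁻¹ i j (actV q t b b⁻¹ j k (actV q t a a⁻¹ i j F)) s(j, j) =
      actV q t b b⁻¹ j k (actV q t a a⁻¹ i j (actV q t b b⁻¹ j k F)) s(j, j) := by
    simp only [A1, A2, A3, A7, A8, A9, B1, B2, B3, B7, B8, B9]
    try field_simp
    try ring
  have cjk : actV q t a a⁻¹ i j (actV q t b b⁻¹ j k (actV q t a a⁻¹ i j F)) s(j, k) =
      actV q t b b⁻¹ j k (actV q t a a⁻¹ i j (actV q t b b⁻¹ j k F)) s(j, k) := by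
    simp only [A1, A2, A3, A7, A8, A9, B1, B2, B3, B7, B8, B9]
    try field_simp
    try ring
  have ckk : actV q t a a⁻¹ i j (actV q t b b⁻¹ j k (actV q t a a⁻¹ i j F)) s(k, k) =
      actV q t b b⁻¹ j k (actV q t a a⁻¹ i j (actV q t b b⁻¹ j k F)) s(k, k) := by
    simp only [A1, A2, A3, A7, A8, A9, B1, B2, B3, B7, B8, B9]
    try field_simp
    try ring
  have cr : ∀ r : W, r ≠ i → r ≠ j → r ≠ k →
      (actV q t a a⁻¹ i j (actV q t b b⁻¹ j k (actV q t a a⁻¹ i j F)) s(i, r) =
        actV q t b b⁻¹ j k (actV q t a a⁻¹ i j (actV q t b b⁻¹ j k F)) s(i, r)) ∧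
      (actV q t a a⁻¹ i j (actV q t b b⁻¹ j k (actV q t a a⁻¹ i j F)) s(j, r) =
        actV q t b b⁻¹ j k (actV q t a a⁻¹ i j (actV q t b b⁻¹ j k F)) s(j, r)) ∧
      (actV q t a a⁻¹ i j (actV q t b b⁻¹ j k (actV q t a a⁻¹ i j F)) s(k, r) =
        actV q t b b⁻¹ j k (actV q t a a⁻¹ i j (actV q t b b⁻¹ j k F)) s(k, r)) := by
    intro r r1 r2 r3
    have C1 : ∀ G : Sym2 W → K, actV q t a a⁻¹ i j G s(i, r) =
      (1 - q) * G s(i, r) + q * a * G s(j, r) := fun G => A4 G r r1 r2
    have C2 : ∀ G : Sym2 W → K, actV q t a a⁻¹ i j G s(j, r) = a⁻¹ * G s(i, r) :=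
      fun G => A5 G r r1 r2
    have C3 : ∀ G : Sym2 W → K, actV q t a a⁻¹ i j G s(k, r) = G s(k, r) :=
      fun G => A6 G k r hki hkj r1 r2
    have C4 : ∀ G : Sym2 W → K, actV q t b b⁻¹ j k G s(j, r) =
      (1 - q) * G s(j, r) + q * b * G s(k, r) := fun G => B4 G r r2 r3
    have C5 : ∀ G : Sym2 W → K, actV q t b b⁻¹ j k G s(k, r) = b⁻¹ * G s(j, r) :=
      fun G => B5 G r r2 r3
    have C6 : ∀ G : Sym2 W → K, actV q t b b⁻¹ j k G s(i, r) = G s(i, r) :=
      fun G => B6 G i r hij hik r2 r3
    refine ⟨?_, ?_, ?_⟩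
    · simp only [C1, C2, C3, C4, C5, C6]
      field_simp
      ring
    · simp only [C1, C2, C3, C4, C5, C6]
      field_simp
      try ring
    · simp only [C1, C2, C3, C4, C5, C6]
      try field_simp
      try ring
  funext z
  induction z using Sym2.ind with
  | _ p r =>
  have key : ∀ p : W, (p = i ∨ (p ≠ i ∧ p = j) ∨ (p ≠ i ∧ p ≠ j ∧ p = k) ∨ (p ≠ i ∧ p ≠ j ∧ p ≠ k)) := by
    intro p
    by_cases h1 : p = i
    · exact Or.inl h1
    · by_cases h2 : p = j
      · exact Or.inr (Or.inl ⟨h1, h2⟩)
      · by_cases h3 : p = k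
        · exact Or.inr (Or.inr (Or.inl ⟨h1, h2, h3⟩))
        · exact Or.inr (Or.inr (Or.inr ⟨h1, h2, h3⟩))
  rcases key p with hp | ⟨-, hp⟩ | ⟨-, -, hp⟩ | ⟨p1, p2, p3⟩ <;>
  rcases key r with hr | ⟨-, hr⟩ | ⟨-, -, hr⟩ | ⟨r1, r2, r3⟩
  · rw [hp, hr]; exact cii
  · rw [hp, hr]; exact cij
  · rw [hp, hr]; exact cik
  · rw [hp]; exact (cr r r1 r2 r3).1
  · rw [hp, hr, e1]; exact cij
  · rw [hp, hr]; exact cjj
  · rw [hp, hr]; exact cjk
  · rw [hp]; exact (cr r r1 r2 r3).2.1
  · rw [hp, hr, e2]; exact cik
  · rw [hp, hr, e3]; exact cjk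
  · rw [hp, hr]; exact ckk
  · rw [hp]; exact (cr r r1 r2 r3).2.2
  · rw [hr, Sym2.eq_swap]; exact (cr p p1 p2 p3).1
  · rw [hr, Sym2.eq_swap]; exact (cr p p1 p2 p3).2.1
  · rw [hr, Sym2.eq_swap]; exact (cr p p1 p2 p3).2.2
  · rw [A6 _ p r p1 p2 r1 r2, B6 _ p r p2 p3 r2 r3, A6 _ p r p1 p2 r1 r2,
      B6 _ p r p2 p3 r2 r3, A6 _ p r p1 p2 r1 r2, B6 _ p r p2 p3 r2 r3]

end Pool.Agent.VB

end Row_A5

section Row_A6

/-!
ROW A6: disjoint arcs commute (level 2), arbitrary twists.
-/

namespace Pool.Agent.VB

open FreeGroup (of)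

private theorem A6_cases {W : Type} (i j k l p : W) :
    i = p ∨ j = p ∨ k = p ∨ l = p ∨ (p ≠ i ∧ p ≠ j ∧ p ≠ k ∧ p ≠ l) := by
  by_cases h1 : i = p
  · exact Or.inl h1
  by_cases h2 : j = p
  · exact Or.inr (Or.inl h2)
  by_cases h3 : k = p
  · exact Or.inr (Or.inr (Or.inl h3))
  by_cases h4 : l = p
  · exact Or.inr (Or.inr (Or.inr (Or.inl h4)))
  exact Or.inr (Or.inr (Or.inr (Or.inr ⟨Ne.symm h1, Ne.symm h2, Ne.symm h3, Ne.symm h4⟩)))

theorem actV_comm {K : Type} [Field K] {W : Type} [DecidableEq W] (q t a b : K) (ha : a ≠ 0)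
    (hb : b ≠ 0) (i j k l : W) (hij : i ≠ j) (hkl : k ≠ l) (hik : i ≠ k) (hil : i ≠ l)
    (hjk : j ≠ k) (hjl : j ≠ l) (F : Sym2 W → K) :
    actV q t a a⁻¹ i j (actV q t b b⁻¹ k l F) = actV q t b b⁻¹ k l (actV q t a a⁻¹ i j F) := by
  funext z
  induction z using Sym2.ind with
  | _ p r =>
  have e1 : s(k, i) = s(i, k) := Sym2.eq_swap
  have e2 : s(l, i) = s(i, l) := Sym2.eq_swap
  have e3 : s(k, j) = s(j, k) := Sym2.eq_swap
  have e4 : s(l, j) = s(j, l) := Sym2.eq_swap
  have hji := hij.symm
  have hlk := hkl.symm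
  have hki := hik.symm
  have hli := hil.symm
  have hkj := hjk.symm
  have hlj := hjl.symm
  obtain rfl | rfl | rfl | rfl | ⟨p1, p2, p3, p4⟩ := A6_cases i j k l p <;>
  obtain rfl | rfl | rfl | rfl | ⟨r1, r2, r3, r4⟩ := A6_cases i j k l r <;>
  simp (config := { decide := false }) only [actV, Sym2.lift_mk, if_true, if_false, *] <;> ring

end Pool.Agent.VB

end Row_A6

section Row_A7

/-!
ROW A7: level 1 (plain and with emitter): braid relation and commutation.
At most one of the two arcs is the emitter.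
-/

namespace Pool.Agent.VB

open FreeGroup (of)

private theorem A7_cases3 {W : Type} (i j k p : W) :
    i = p ∨ j = p ∨ k = p ∨ (p ≠ i ∧ p ≠ j ∧ p ≠ k) := by
  by_cases h1 : i = p
  · exact Or.inl h1
  by_cases h2 : j = p
  · exact Or.inr (Or.inl h2)
  by_cases h3 : k = p
  · exact Or.inr (Or.inr (Or.inl h3))
  exact Or.inr (Or.inr (Or.inr ⟨Ne.symm h1, Ne.symm h2, Ne.symm h3⟩))

private theorem A7_cases4 {W : Type} (i j k l p : W) :
    i = p ∨ j = p ∨ k = p ∨ l = p ∨ (p ≠ i ∧ p ≠ j ∧ p ≠ k ∧ p ≠ l) := by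
  by_cases h1 : i = p
  · exact Or.inl h1
  by_cases h2 : j = p
  · exact Or.inr (Or.inl h2)
  by_cases h3 : k = p
  · exact Or.inr (Or.inr (Or.inl h3))
  by_cases h4 : l = p
  · exact Or.inr (Or.inr (Or.inr (Or.inl h4)))
  exact Or.inr (Or.inr (Or.inr (Or.inr ⟨Ne.symm h1, Ne.symm h2, Ne.symm h3, Ne.symm h4⟩)))

theorem act1_braid {K : Type} [Field K] {W : Type} [DecidableEq W] (q a b : K) (ha : a ≠ 0)
    (hb : b ≠ 0) (i j k : W) (hij : i ≠ j) (hjk : j ≠ k) (hik : i ≠ k) (f : W → K) :
    act1 q a a⁻¹ i j (act1 q b b⁻¹ j k (act1 q a a⁻¹ i j f)) =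
      act1 q b b⁻¹ j k (act1 q a a⁻¹ i j (act1 q b b⁻¹ j k f)) := by
  funext p
  have hji := hij.symm
  have hkj := hjk.symm
  have hki := hik.symm
  obtain rfl | rfl | rfl | ⟨p1, p2, p3⟩ := A7_cases3 i j k p <;>
  simp (config := { decide := false }) only [act1, if_true, if_false, *] <;>
  first
  | done
  | (field_simp; done)
  | (field_simp; ring)

theorem act1_comm {K : Type} [Field K] {W : Type} [DecidableEq W] (q a b : K) (ha : a ≠ 0)
    (hb : b ≠ 0) (i j k l : W) (hij : i ≠ j) (hkl : k ≠ l) (hik : i ≠ k) (hil : i ≠ l)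
    (hjk : j ≠ k) (hjl : j ≠ l) (f : W → K) :
    act1 q a a⁻¹ i j (act1 q b b⁻¹ k l f) = act1 q b b⁻¹ k l (act1 q a a⁻¹ i j f) := by
  funext p
  have hji := hij.symm
  have hlk := hkl.symm
  have hki := hik.symm
  have hli := hil.symm
  have hkj := hjk.symm
  have hlj := hjl.symm
  obtain rfl | rfl | rfl | rfl | ⟨p1, p2, p3, p4⟩ := A7_cases4 i j k l p <;>
  simp (config := { decide := false }) only [act1, if_true, if_false, *] <;>
  ring

theorem act1E_braid {K : Type} [Field K] {W : Type} [DecidableEq W] (q a b : K) (ha : a ≠ 0)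
    (hb : b ≠ 0) (em em' : Bool) (hem : ¬ (em = true ∧ em' = true)) (i j k : W) (hij : i ≠ j)
    (hjk : j ≠ k) (hik : i ≠ k) (F : St W → K) :
    act1E q a em i j (act1E q b em' j k (act1E q a em i j F)) =
      act1E q b em' j k (act1E q a em i j (act1E q b em' j k F)) := by
  funext x
  have hji := hij.symm
  have hkj := hjk.symm
  have hki := hik.symm
  rcases x with _ | z | p
  · cases em <;> cases em'
    · rfl
    · simp (config := { decide := false }) only [act1E, act1, if_true, if_false, *]
      simp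
      field_simp
      ring
    · simp (config := { decide := false }) only [act1E, act1, if_true, if_false, *]
      simp
      field_simp
      ring
    · exact absurd ⟨rfl, rfl⟩ hem
  · rfl
  · exact congrFun (act1_braid q a b ha hb i j k hij hjk hik (fun p => F (some (Sum.inr p)))) p

theorem act1E_comm {K : Type} [Field K] {W : Type} [DecidableEq W] (q a b : K) (ha : a ≠ 0)
    (hb : b ≠ 0) (em em' : Bool) (hem : ¬ (em = true ∧ em' = true)) (i j k l : W) (hij : i ≠ j)
    (hkl : k ≠ l) (hik : i ≠ k) (hil : i ≠ l) (hjk : j ≠ k) (hjl : j ≠ l) (F : St W → K) :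
    act1E q a em i j (act1E q b em' k l F) = act1E q b em' k l (act1E q a em i j F) := by
  funext x
  have hji := hij.symm
  have hlk := hkl.symm
  have hki := hik.symm
  have hli := hil.symm
  have hkj := hjk.symm
  have hlj := hjl.symm
  rcases x with _ | z | p
  · cases em <;> cases em'
    · rfl
    · simp (config := { decide := false }) only [act1E, act1, if_true, if_false, *]
      simp
    · simp (config := { decide := false }) only [act1E, act1, if_true, if_false, *]
      simp
    · exact absurd ⟨rfl, rfl⟩ hem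
  · rfl
  · exact congrFun (act1_comm q a b ha hb i j k l hij hkl hik hil hjk hjl
      (fun p => F (some (Sum.inr p)))) p

end Pool.Agent.VB

end Row_A7

section Row_A9

set_option linter.unusedSimpArgs false

/-!
ROW A9: braid relation for the level 2 module with emitter, when the FIRST arc `(i,j)` is the
emitter.  funext x; rcases x with _ | z | p.  inl z: this is actV_braid (A5).  The other states: unfold, simp with the
inequalities, field_simp, ring (cases p in {i,j,k,other}).
-/

namespace Pool.Agent.VB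

open FreeGroup (of)

theorem act2E_braid_tf {K : Type} [Field K] {W : Type} [DecidableEq W] (q t a b : K)
    (ht : t ≠ 0) (ha : a ≠ 0) (hb : b ≠ 0) (i j k : W) (hij : i ≠ j) (hjk : j ≠ k)
    (hik : i ≠ k) (F : St W → K) :
    act2E q t a true i j (act2E q t b false j k (act2E q t a true i j F)) =
      act2E q t b false j k (act2E q t a true i j (act2E q t b false j k F)) := by
  have hji := hij.symm
  have hkj := hjk.symm
  have hki := hik.symm
  have e1 : (s(j, i) : Sym2 W) = s(i, j) := Sym2.eq_swap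
  have e2 : (s(k, i) : Sym2 W) = s(i, k) := Sym2.eq_swap
  have e3 : (s(k, j) : Sym2 W) = s(j, k) := Sym2.eq_swap
  have A1 : ∀ G : St W → K, act2E q t a true i j G (some (Sum.inl s(i, i))) =
      (1 - q) * (1 - t * q) * G (some (Sum.inl s(i, i))) + (1 + t) * q * (1 - q) * a * G (some (Sum.inl s(i, j)))
            + q ^ 2 * a ^ 2 * G (some (Sum.inl s(j, j))) := fun G => actV_ii q t a a⁻¹ i j (fun z => G (some (Sum.inl z)))
  have A2 : ∀ G : St W → K, act2E q t a true i j G (some (Sum.inl s(i, j))) =
      (1 - t * q) * a⁻¹ * G (some (Sum.inl s(i, i))) + t * q * G (some (Sum.inl s(i, j))) :=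
    fun G => actV_ij q t a a⁻¹ i j (fun z => G (some (Sum.inl z))) hij
  have A3 : ∀ G : St W → K, act2E q t a true i j G (some (Sum.inl s(j, j))) = a⁻¹ ^ 2 * G (some (Sum.inl s(i, i))) :=
    fun G => actV_jj q t a a⁻¹ i j (fun z => G (some (Sum.inl z))) hij
  have A4 : ∀ (G : St W → K) (r : W), r ≠ i → r ≠ j → act2E q t a true i j G (some (Sum.inl s(i, r))) =
      (1 - q) * G (some (Sum.inl s(i, r))) + q * a * G (some (Sum.inl s(j, r))) :=
    fun G r h1 h2 => actV_ik q t a a⁻¹ i j (fun z => G (some (Sum.inl z))) r h1 h2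
  have A5 : ∀ (G : St W → K) (r : W), r ≠ i → r ≠ j → act2E q t a true i j G (some (Sum.inl s(j, r))) =
      a⁻¹ * G (some (Sum.inl s(i, r))) := fun G r h1 h2 => actV_jk q t a a⁻¹ i j (fun z => G (some (Sum.inl z))) hij r h1 h2
  have A6 : ∀ (G : St W → K) (p r : W), p ≠ i → p ≠ j → r ≠ i → r ≠ j →
      act2E q t a true i j G (some (Sum.inl s(p, r))) = G (some (Sum.inl s(p, r))) :=
    fun G p r h1 h2 h3 h4 => actV_kl q t a a⁻¹ i j (fun z => G (some (Sum.inl z))) p r h1 h2 h3 h4
  have B1 : ∀ G : St W → K, act2E q t b false j k G (some (Sum.inl s(j, j))) =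
      (1 - q) * (1 - t * q) * G (some (Sum.inl s(j, j))) + (1 + t) * q * (1 - q) * b * G (some (Sum.inl s(j, k)))
            + q ^ 2 * b ^ 2 * G (some (Sum.inl s(k, k))) := fun G => actV_ii q t b b⁻¹ j k (fun z => G (some (Sum.inl z)))
  have B2 : ∀ G : St W → K, act2E q t b false j k G (some (Sum.inl s(j, k))) =
      (1 - t * q) * b⁻¹ * G (some (Sum.inl s(j, j))) + t * q * G (some (Sum.inl s(j, k))) :=
    fun G => actV_ij q t b b⁻¹ j k (fun z => G (some (Sum.inl z))) hjk
  have B3 : ∀ G : St W → K, act2E q t b false j k G (some (Sum.inl s(k, k))) = b⁻¹ ^ 2 * G (some (Sum.inl s(j, j))) :=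
    fun G => actV_jj q t b b⁻¹ j k (fun z => G (some (Sum.inl z))) hjk
  have B4 : ∀ (G : St W → K) (r : W), r ≠ j → r ≠ k → act2E q t b false j k G (some (Sum.inl s(j, r))) =
      (1 - q) * G (some (Sum.inl s(j, r))) + q * b * G (some (Sum.inl s(k, r))) :=
    fun G r h1 h2 => actV_ik q t b b⁻¹ j k (fun z => G (some (Sum.inl z))) r h1 h2
  have B5 : ∀ (G : St W → K) (r : W), r ≠ j → r ≠ k → act2E q t b false j k G (some (Sum.inl s(k, r))) =
      b⁻¹ * G (some (Sum.inl s(j, r))) := fun G r h1 h2 => actV_jk q t b b⁻¹ j k (fun z => G (some (Sum.inl z))) hjk r h1 h2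
  have B6 : ∀ (G : St W → K) (p r : W), p ≠ j → p ≠ k → r ≠ j → r ≠ k →
      act2E q t b false j k G (some (Sum.inl s(p, r))) = G (some (Sum.inl s(p, r))) :=
    fun G p r h1 h2 h3 h4 => actV_kl q t b b⁻¹ j k (fun z => G (some (Sum.inl z))) p r h1 h2 h3 h4
  have B7 : ∀ G : St W → K, act2E q t b false j k G (some (Sum.inl s(i, j))) =
      (1 - q) * G (some (Sum.inl s(i, j))) + q * b * G (some (Sum.inl s(i, k))) := by
    intro G
    rw [← e1, ← e2]
    exact B4 G i hij hik
  have B8 : ∀ G : St W → K, act2E q t b false j k G (some (Sum.inl s(i, k))) = b⁻¹ * G (some (Sum.inl s(i, j))) := by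
    intro G
    rw [← e1, ← e2]
    exact B5 G i hij hik
  have A7 : ∀ G : St W → K, act2E q t a true i j G (some (Sum.inl s(i, k))) =
      (1 - q) * G (some (Sum.inl s(i, k))) + q * a * G (some (Sum.inl s(j, k))) := fun G => A4 G k hki hkj
  have A8 : ∀ G : St W → K, act2E q t a true i j G (some (Sum.inl s(j, k))) = a⁻¹ * G (some (Sum.inl s(i, k))) :=
    fun G => A5 G k hki hkj
  have A9 : ∀ G : St W → K, act2E q t a true i j G (some (Sum.inl s(k, k))) = G (some (Sum.inl s(k, k))) :=
    fun G => A6 G k k hki hkj hki hkj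
  have B9 : ∀ G : St W → K, act2E q t b false j k G (some (Sum.inl s(i, i))) = G (some (Sum.inl s(i, i))) :=
    fun G => B6 G i i hij hik hij hik
  have D1 : ∀ G : St W → K, act2E q t a true i j G (some (Sum.inr i)) =
      (1 - q) * G (some (Sum.inr i)) + q * (a / t) * G (some (Sum.inr j))
              + t * (1 - q) * (1 - t * q) * G (some (Sum.inl s(i, i)))
              + t * (1 - q) * (q + t * q - 1) * a * G (some (Sum.inl s(i, j)))
              - q * (1 - t * q) * a ^ 2 * G (some (Sum.inl s(j, j))) := by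
    intro G
    simp [act2E]
  have D2 : ∀ G : St W → K, act2E q t a true i j G (some (Sum.inr j)) = t / a * G (some (Sum.inr i))
              + t * (1 - t * q) / a * G (some (Sum.inl s(i, i)))
              - t ^ 2 * (1 - q) * G (some (Sum.inl s(i, j))) := by
    intro G
    simp [act2E, hji]
  have D3 : ∀ (G : St W → K) (p : W), p ≠ i → p ≠ j → act2E q t a true i j G (some (Sum.inr p)) = G (some (Sum.inr p))
              + t * (1 - q) * (G (some (Sum.inl s(i, p))) - a * G (some (Sum.inl s(j, p)))) := by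
    intro G p h1 h2
    simp [act2E, h1, h2]
  have D4 : ∀ G : St W → K, act2E q t a true i j G none = G none + (1 + t) * (t * G (some (Sum.inr i)) - a * G (some (Sum.inr j)))
          + t * (1 - t * q) * (t * G (some (Sum.inl s(i, i))) + a ^ 2 * G (some (Sum.inl s(j, j))))
          - t ^ 2 * (1 + t) * (1 - q) * a * G (some (Sum.inl s(i, j))) := by
    intro G
    simp [act2E]
  have D5 : ∀ G : St W → K, act2E q t a true i j G (some (Sum.inr k)) = G (some (Sum.inr k))
              + t * (1 - q) * (G (some (Sum.inl s(i, k))) - a * G (some (Sum.inl s(j, k)))) :=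
    fun G => D3 G k hki hkj
  have E1 : ∀ G : St W → K, act2E q t b false j k G (some (Sum.inr j)) = (1 - q) * G (some (Sum.inr j)) + q * b * G (some (Sum.inr k)) := by
    intro G
    simp [act2E, act1]
  have E2 : ∀ G : St W → K, act2E q t b false j k G (some (Sum.inr k)) = b⁻¹ * G (some (Sum.inr j)) := by
    intro G
    simp [act2E, act1, hkj]
  have E3 : ∀ (G : St W → K) (p : W), p ≠ j → p ≠ k → act2E q t b false j k G (some (Sum.inr p)) = G (some (Sum.inr p)) := by
    intro G p h1 h2
    simp [act2E, act1, h1, h2]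
  have E4 : ∀ G : St W → K, act2E q t b false j k G none = G none := by
    intro G
    simp [act2E]
  have E5 : ∀ G : St W → K, act2E q t b false j k G (some (Sum.inr i)) = G (some (Sum.inr i)) := fun G => E3 G i hij hik
  funext x
  rcases x with _ | z | p
  · simp only [A1, A2, A3, A7, A8, A9, B1, B2, B3, B7, B8, B9, D1, D2, D4, D5, E1, E2, E4, E5]
    try field_simp
    try ring
  · exact congrFun (actV_braid q t a b ha hb i j k hij hjk hik (fun z => F (some (Sum.inl z)))) z
  · by_cases p1 : p = i
    · rw [p1]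
      simp only [A1, A2, A3, A7, A8, A9, B1, B2, B3, B7, B8, B9, D1, D2, D4, D5, E1, E2, E4, E5]
      try field_simp
      try ring
    by_cases p2 : p = j
    · rw [p2]
      simp only [A1, A2, A3, A7, A8, A9, B1, B2, B3, B7, B8, B9, D1, D2, D4, D5, E1, E2, E4, E5]
      try field_simp
      try ring
    by_cases p3 : p = k
    · rw [p3]
      simp only [A1, A2, A3, A7, A8, A9, B1, B2, B3, B7, B8, B9, D1, D2, D4, D5, E1, E2, E4, E5]
      try field_simp
      try ring
    have C1 := fun G : St W → K => A4 G p p1 p2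
    have C2 := fun G : St W → K => A5 G p p1 p2
    have C4 := fun G : St W → K => B4 G p p2 p3
    have C5 := fun G : St W → K => B5 G p p2 p3
    have C6 := fun G : St W → K => B6 G i p hij hik p2 p3
    have C7 := fun G : St W → K => A6 G k p hki hkj p1 p2
    have C8 := fun G : St W → K => D3 G p p1 p2
    have C9 := fun G : St W → K => E3 G p p2 p3
    simp only [C1, C2, C4, C5, C6, C7, C8, C9]
    try field_simp
    try ring

end Pool.Agent.VB

end Row_A9

section Row_A10

/-!
ROW A10: same as A9 when the SECOND arc `(j,k)` is the emitter, and when none is.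
-/

namespace Pool.Agent.VB

open FreeGroup (of)

section A10
variable {K : Type} [Field K] {W : Type} [DecidableEq W] (q t a : K) (em : Bool) (i j : W)
  (F : St W → K)

private theorem A10_ii : act2E q t a em i j F (some (Sum.inl s(i, i))) =
    (1 - q) * (1 - t * q) * F (some (Sum.inl s(i, i))) + (1 + t) * q * (1 - q) * a * F (some (Sum.inl s(i, j)))
            + q ^ 2 * a ^ 2 * F (some (Sum.inl s(j, j))) :=
  actV_ii q t a a⁻¹ i j fun z => F (some (Sum.inl z))

private theorem A10_ij (h : i ≠ j) : act2E q t a em i j F (some (Sum.inl s(i, j))) =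
    (1 - t * q) * a⁻¹ * F (some (Sum.inl s(i, i))) + t * q * F (some (Sum.inl s(i, j))) :=
  actV_ij q t a a⁻¹ i j (fun z => F (some (Sum.inl z))) h

private theorem A10_ji (h : i ≠ j) : act2E q t a em i j F (some (Sum.inl s(j, i))) =
    (1 - t * q) * a⁻¹ * F (some (Sum.inl s(i, i))) + t * q * F (some (Sum.inl s(i, j))) := by
  rw [Sym2.eq_swap (a := j) (b := i)]
  exact A10_ij q t a em i j F h

private theorem A10_jj (h : i ≠ j) : act2E q t a em i j F (some (Sum.inl s(j, j))) =
    a⁻¹ ^ 2 * F (some (Sum.inl s(i, i))) :=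
  actV_jj q t a a⁻¹ i j (fun z => F (some (Sum.inl z))) h

private theorem A10_ik (k : W) (h1 : k ≠ i) (h2 : k ≠ j) : act2E q t a em i j F (some (Sum.inl s(i, k))) =
    (1 - q) * F (some (Sum.inl s(i, k))) + q * a * F (some (Sum.inl s(j, k))) :=
  actV_ik q t a a⁻¹ i j (fun z => F (some (Sum.inl z))) k h1 h2

private theorem A10_ki (k : W) (h1 : k ≠ i) (h2 : k ≠ j) : act2E q t a em i j F (some (Sum.inl s(k, i))) =
    (1 - q) * F (some (Sum.inl s(i, k))) + q * a * F (some (Sum.inl s(j, k))) := by
  rw [Sym2.eq_swap (a := k) (b := i)]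
  exact A10_ik q t a em i j F k h1 h2

private theorem A10_jk (h : i ≠ j) (k : W) (h1 : k ≠ i) (h2 : k ≠ j) :
    act2E q t a em i j F (some (Sum.inl s(j, k))) = a⁻¹ * F (some (Sum.inl s(i, k))) :=
  actV_jk q t a a⁻¹ i j (fun z => F (some (Sum.inl z))) h k h1 h2

private theorem A10_kj (h : i ≠ j) (k : W) (h1 : k ≠ i) (h2 : k ≠ j) :
    act2E q t a em i j F (some (Sum.inl s(k, j))) = a⁻¹ * F (some (Sum.inl s(i, k))) := by
  rw [Sym2.eq_swap (a := k) (b := j)]
  exact A10_jk q t a em i j F h k h1 h2

private theorem A10_kl (p r : W) (h1 : p ≠ i) (h2 : p ≠ j) (h3 : r ≠ i) (h4 : r ≠ j) :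
    act2E q t a em i j F (some (Sum.inl s(p, r))) = F (some (Sum.inl s(p, r))) :=
  actV_kl q t a a⁻¹ i j (fun z => F (some (Sum.inl z))) p r h1 h2 h3 h4

private theorem A10_fi : act2E q t a false i j F (some (Sum.inr i)) =
    (1 - q) * F (some (Sum.inr i)) + q * a * F (some (Sum.inr j)) := by
  simp [act2E, act1]

private theorem A10_fj (h : i ≠ j) : act2E q t a false i j F (some (Sum.inr j)) = a⁻¹ * F (some (Sum.inr i)) := by
  simp [act2E, act1, h.symm]

private theorem A10_fk (p : W) (h1 : p ≠ i) (h2 : p ≠ j) :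
    act2E q t a false i j F (some (Sum.inr p)) = F (some (Sum.inr p)) := by
  simp [act2E, act1, h1, h2]

private theorem A10_fn : act2E q t a false i j F none = F none := by
  simp [act2E]

private theorem A10_ti : act2E q t a true i j F (some (Sum.inr i)) =
    (1 - q) * F (some (Sum.inr i)) + q * (a / t) * F (some (Sum.inr j))
              + t * (1 - q) * (1 - t * q) * F (some (Sum.inl s(i, i)))
              + t * (1 - q) * (q + t * q - 1) * a * F (some (Sum.inl s(i, j)))
              - q * (1 - t * q) * a ^ 2 * F (some (Sum.inl s(j, j))) := by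
  simp [act2E]

private theorem A10_tj (h : i ≠ j) : act2E q t a true i j F (some (Sum.inr j)) =
    t / a * F (some (Sum.inr i)) + t * (1 - t * q) / a * F (some (Sum.inl s(i, i)))
              - t ^ 2 * (1 - q) * F (some (Sum.inl s(i, j))) := by
  simp [act2E, h.symm]

private theorem A10_tk (p : W) (h1 : p ≠ i) (h2 : p ≠ j) :
    act2E q t a true i j F (some (Sum.inr p)) = F (some (Sum.inr p))
              + t * (1 - q) * (F (some (Sum.inl s(i, p))) - a * F (some (Sum.inl s(j, p)))) := by
  simp [act2E, h1, h2]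

private theorem A10_tn : act2E q t a true i j F none =
        F none + (1 + t) * (t * F (some (Sum.inr i)) - a * F (some (Sum.inr j)))
          + t * (1 - t * q) * (t * F (some (Sum.inl s(i, i))) + a ^ 2 * F (some (Sum.inl s(j, j))))
          - t ^ 2 * (1 + t) * (1 - q) * a * F (some (Sum.inl s(i, j))) := by
  simp [act2E]

end A10

theorem act2E_braid_ft {K : Type} [Field K] {W : Type} [DecidableEq W] (q t a b : K)
    (ht : t ≠ 0) (ha : a ≠ 0) (hb : b ≠ 0) (i j k : W) (hij : i ≠ j) (hjk : j ≠ k)
    (hik : i ≠ k) (F : St W → K) :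
    act2E q t a false i j (act2E q t b true j k (act2E q t a false i j F)) =
      act2E q t b true j k (act2E q t a false i j (act2E q t b true j k F)) := by
  have hji := hij.symm
  have hkj := hjk.symm
  have hki := hik.symm
  have e1 : s(j, i) = s(i, j) := Sym2.eq_swap
  have e2 : s(k, i) = s(i, k) := Sym2.eq_swap
  have e3 : s(k, j) = s(j, k) := Sym2.eq_swap
  funext x
  rcases x with _ | z | p
  · simp only [A10_ii, A10_ij, A10_ji, A10_jj, A10_ik, A10_ki, A10_jk, A10_kj, A10_kl, A10_fi, A10_fj, A10_fk, A10_fn,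
      A10_ti, A10_tj, A10_tk, A10_tn, ne_eq, hij, hji, hjk, hkj, hik, hki, not_false_eq_true, e1, e2, e3]
    field_simp
    ring
  · exact congrFun (actV_braid q t a b ha hb i j k hij hjk hik fun z => F (some (Sum.inl z))) z
  · by_cases h1 : p = i
    · subst h1
      simp only [A10_ii, A10_ij, A10_ji, A10_jj, A10_ik, A10_ki, A10_jk, A10_kj, A10_kl, A10_fi, A10_fj, A10_fk, A10_fn,
        A10_ti, A10_tj, A10_tk, A10_tn, ne_eq, hij, hji, hjk, hkj, hik, hki, not_false_eq_true, e1, e2, e3]
      field_simp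
      ring
    by_cases h2 : p = j
    · subst h2
      simp only [A10_ii, A10_ij, A10_ji, A10_jj, A10_ik, A10_ki, A10_jk, A10_kj, A10_kl, A10_fi, A10_fj, A10_fk, A10_fn,
        A10_ti, A10_tj, A10_tk, A10_tn, ne_eq, hij, hji, hjk, hkj, hik, hki, not_false_eq_true, e1, e2, e3]
      field_simp
      ring
    by_cases h3 : p = k
    · subst h3
      simp only [A10_ii, A10_ij, A10_ji, A10_jj, A10_ik, A10_ki, A10_jk, A10_kj, A10_kl, A10_fi, A10_fj, A10_fk, A10_fn,
        A10_ti, A10_tj, A10_tk, A10_tn, ne_eq, hij, hji, hjk, hkj, hik, hki, not_false_eq_true, e1, e2, e3]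
      field_simp
      ring
    have h1' : ¬ i = p := fun h => h1 h.symm
    have h2' : ¬ j = p := fun h => h2 h.symm
    have h3' : ¬ k = p := fun h => h3 h.symm
    simp only [A10_ii, A10_ij, A10_ji, A10_jj, A10_ik, A10_ki, A10_jk, A10_kj, A10_kl, A10_fi, A10_fj, A10_fk, A10_fn,
      A10_ti, A10_tj, A10_tk, A10_tn, ne_eq, hij, hji, hjk, hkj, hik, hki, h1, h2, h3, h1', h2', h3', not_false_eq_true, e1, e2, e3]
    field_simp
    ring

theorem act2E_braid_ff {K : Type} [Field K] {W : Type} [DecidableEq W] (q t a b : K)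
    (ht : t ≠ 0) (ha : a ≠ 0) (hb : b ≠ 0) (i j k : W) (hij : i ≠ j) (hjk : j ≠ k)
    (hik : i ≠ k) (F : St W → K) :
    act2E q t a false i j (act2E q t b false j k (act2E q t a false i j F)) =
      act2E q t b false j k (act2E q t a false i j (act2E q t b false j k F)) := by
  funext x
  rcases x with _ | z | p
  · simp only [A10_fn]
  · exact congrFun (actV_braid q t a b ha hb i j k hij hjk hik fun z => F (some (Sum.inl z))) z
  · exact congrFun (act1_braid q a b ha hb i j k hij hjk hik fun p => F (some (Sum.inr p))) p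

end Pool.Agent.VB

end Row_A10

section Row_A11

/-!
ROW A11: commutation for disjoint arcs in the level 2 module with emitter (at most one of
the arcs is the emitter).  inl z: A6.
-/

namespace Pool.Agent.VB

open FreeGroup (of)

private theorem A11_inl {K : Type} [Field K] {W : Type} [DecidableEq W] (q t a : K) (em : Bool)
    (i j : W) (F : St W → K) (z : Sym2 W) :
    act2E q t a em i j F (some (Sum.inl z)) =
      actV q t a a⁻¹ i j (fun z => F (some (Sum.inl z))) z := rfl

private theorem A11_inrf {K : Type} [Field K] {W : Type} [DecidableEq W] (q t a : K)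
    (i j : W) (F : St W → K) (p : W) :
    act2E q t a false i j F (some (Sum.inr p)) =
      act1 q a a⁻¹ i j (fun p => F (some (Sum.inr p))) p := rfl

private theorem A11_nonef {K : Type} [Field K] {W : Type} [DecidableEq W] (q t a : K)
    (i j : W) (F : St W → K) :
    act2E q t a false i j F none = F none := rfl

private theorem A11_nonet {K : Type} [Field K] {W : Type} [DecidableEq W] (q t a : K)
    (i j : W) (F : St W → K) :
    act2E q t a true i j F none = F none + (1 + t) * (t * F (some (Sum.inr i)) - a * F (some (Sum.inr j)))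
          + t * (1 - t * q) * (t * F (some (Sum.inl s(i, i))) + a ^ 2 * F (some (Sum.inl s(j, j))))
          - t ^ 2 * (1 + t) * (1 - q) * a * F (some (Sum.inl s(i, j))) := rfl

private theorem A11_inrt_i {K : Type} [Field K] {W : Type} [DecidableEq W] (q t a : K)
    (i j : W) (F : St W → K) :
    act2E q t a true i j F (some (Sum.inr i)) =
      (1 - q) * F (some (Sum.inr i)) + q * (a / t) * F (some (Sum.inr j))
              + t * (1 - q) * (1 - t * q) * F (some (Sum.inl s(i, i)))
              + t * (1 - q) * (q + t * q - 1) * a * F (some (Sum.inl s(i, j)))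
              - q * (1 - t * q) * a ^ 2 * F (some (Sum.inl s(j, j))) := by
  simp [act2E]

private theorem A11_inrt_j {K : Type} [Field K] {W : Type} [DecidableEq W] (q t a : K)
    (i j : W) (hij : i ≠ j) (F : St W → K) :
    act2E q t a true i j F (some (Sum.inr j)) =
      t / a * F (some (Sum.inr i))
              + t * (1 - t * q) / a * F (some (Sum.inl s(i, i)))
              - t ^ 2 * (1 - q) * F (some (Sum.inl s(i, j))) := by
  simp [act2E, hij.symm]

private theorem A11_inrt_p {K : Type} [Field K] {W : Type} [DecidableEq W] (q t a : K)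
    (i j p : W) (hi : p ≠ i) (hj : p ≠ j) (F : St W → K) :
    act2E q t a true i j F (some (Sum.inr p)) =
      F (some (Sum.inr p))
              + t * (1 - q) * (F (some (Sum.inl s(i, p))) - a * F (some (Sum.inl s(j, p)))) := by
  simp [act2E, hi, hj]

/-- one emitter -/
private theorem A11_tf {K : Type} [Field K] {W : Type} [DecidableEq W] (q t a b : K)
    (ha : a ≠ 0) (hb : b ≠ 0)
    (i j k l : W) (hij : i ≠ j) (hkl : k ≠ l) (hik : i ≠ k) (hil : i ≠ l) (hjk : j ≠ k)
    (hjl : j ≠ l) (F : St W → K) :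
    act2E q t a true i j (act2E q t b false k l F) = act2E q t b false k l (act2E q t a true i j F) := by
  funext z
  rcases z with _ | (z | p)
  · rw [A11_nonet, A11_nonef, A11_nonef, A11_nonet]
    simp only [A11_inl, A11_inrf]
    rw [act1_k _ _ _ _ _ _ _ hik hil, act1_k _ _ _ _ _ _ _ hjk hjl,
      actV_kl _ _ _ _ _ _ _ _ _ hik hil hik hil, actV_kl _ _ _ _ _ _ _ _ _ hik hil hjk hjl,
      actV_kl _ _ _ _ _ _ _ _ _ hjk hjl hjk hjl]
  · exact congrFun (actV_comm q t a b ha hb i j k l hij hkl hik hil hjk hjl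
      (fun z => F (some (Sum.inl z)))) z
  · by_cases hpi : p = i
    · subst hpi
      simp only [A11_inrt_i, A11_inl, A11_inrf, act1_k _ _ _ _ _ _ _ hik hil,
        act1_k _ _ _ _ _ _ _ hjk hjl,
        actV_kl _ _ _ _ _ _ _ _ _ hik hil hik hil, actV_kl _ _ _ _ _ _ _ _ _ hik hil hjk hjl,
        actV_kl _ _ _ _ _ _ _ _ _ hjk hjl hjk hjl]
    · by_cases hpj : p = j
      · subst hpj
        simp only [A11_inrt_j _ _ _ _ _ hij, A11_inl, A11_inrf, act1_k _ _ _ _ _ _ _ hjk hjl,
          act1_k _ _ _ _ _ _ _ hik hil,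
          actV_kl _ _ _ _ _ _ _ _ _ hik hil hik hil, actV_kl _ _ _ _ _ _ _ _ _ hik hil hjk hjl]
      · rw [A11_inrt_p _ _ _ _ _ _ hpi hpj]
        by_cases hpk : p = k
        · subst hpk
          simp only [A11_inl, A11_inrf]
          rw [act1_i, act1_i, A11_inrt_p _ _ _ _ _ _ hpi hpj,
            A11_inrt_p _ _ _ _ _ _ hil.symm hjl.symm]
          rw [Sym2.eq_swap (a := i) (b := p), Sym2.eq_swap (a := j) (b := p),
            actV_ik _ _ _ _ _ _ _ _ hik hil, actV_ik _ _ _ _ _ _ _ _ hjk hjl,
            Sym2.eq_swap (a := i) (b := l), Sym2.eq_swap (a := j) (b := l)]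
          ring
        · by_cases hpl : p = l
          · subst hpl
            simp only [A11_inl, A11_inrf]
            rw [act1_j _ _ _ _ _ _ hkl, act1_j _ _ _ _ _ _ hkl, A11_inrt_p _ _ _ _ _ _ hik.symm hjk.symm]
            rw [Sym2.eq_swap (a := i) (b := p), Sym2.eq_swap (a := j) (b := p),
              actV_jk _ _ _ _ _ _ _ hkl _ hik hil, actV_jk _ _ _ _ _ _ _ hkl _ hjk hjl,
              Sym2.eq_swap (a := i) (b := k), Sym2.eq_swap (a := j) (b := k)]
            ring
          · simp only [A11_inl, A11_inrf]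
            rw [act1_k _ _ _ _ _ _ _ hpk hpl, act1_k _ _ _ _ _ _ _ hpk hpl,
              A11_inrt_p _ _ _ _ _ _ hpi hpj, actV_kl _ _ _ _ _ _ _ _ _ hik hil hpk hpl,
              actV_kl _ _ _ _ _ _ _ _ _ hjk hjl hpk hpl]

theorem act2E_comm {K : Type} [Field K] {W : Type} [DecidableEq W] (q t a b : K)
    (ht : t ≠ 0) (ha : a ≠ 0) (hb : b ≠ 0) (em em' : Bool) (hem : ¬ (em = true ∧ em' = true))
    (i j k l : W) (hij : i ≠ j) (hkl : k ≠ l) (hik : i ≠ k) (hil : i ≠ l) (hjk : j ≠ k)
    (hjl : j ≠ l) (F : St W → K) :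
    act2E q t a em i j (act2E q t b em' k l F) = act2E q t b em' k l (act2E q t a em i j F) := by
  rcases em with _ | _
  · rcases em' with _ | _
    · funext z
      rcases z with _ | (z | p)
      · rfl
      · exact congrFun (actV_comm q t a b ha hb i j k l hij hkl hik hil hjk hjl
          (fun z => F (some (Sum.inl z)))) z
      · exact congrFun (act1_comm q a b ha hb i j k l hij hkl hik hil hjk hjl
          (fun p => F (some (Sum.inr p)))) p
    · exact (A11_tf q t b a hb ha k l i j hkl hij hik.symm hjk.symm hil.symm hjl.symm F).symm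
  · rcases em' with _ | _
    · exact A11_tf q t a b ha hb i j k l hij hkl hik hil hjk hjl F
    · exact absurd ⟨rfl, rfl⟩ hem

end Pool.Agent.VB

end Row_A11

section Row_A12

/-!
ROW A12: the relations for `actE` (cases on lv, em, em'; twists 1, tq or q, all non zero).
When `em' = true` in the braid relation use A10, when `em = true` A9, else act2E_braid_ff; level 1: A7.
-/

namespace Pool.Agent.VB

open FreeGroup (of)

private theorem A12_tw1 {K : Type} [Field K] (q : K) (hq : q ≠ 0) (cut : Bool) :
    (if cut = true then q else 1) ≠ 0 := by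
  cases cut
  · simp
  · simpa using hq

private theorem A12_tw2 {K : Type} [Field K] (q t : K) (hq : q ≠ 0) (ht : t ≠ 0) (cut : Bool) :
    (if cut = true then t * q else 1) ≠ 0 := by
  cases cut
  · simp
  · simpa using ⟨ht, hq⟩

theorem actE_braid {K : Type} [Field K] {W : Type} [DecidableEq W] (q t : K) (hq : q ≠ 0)
    (ht : t ≠ 0) (lv cut cut' em em' : Bool) (hem : ¬ (em = true ∧ em' = true)) (i j k : W)
    (hij : i ≠ j) (hjk : j ≠ k) (hik : i ≠ k) (F : St W → K) :
    actE q t lv cut em i j (actE q t lv cut' em' j k (actE q t lv cut em i j F)) =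
      actE q t lv cut' em' j k (actE q t lv cut em i j (actE q t lv cut' em' j k F)) := by
  cases lv
  · have h1 := A12_tw1 q hq cut
    have h2 := A12_tw1 q hq cut'
    simp only [actE, Bool.false_eq_true, if_false]
    exact act1E_braid q _ _ h1 h2 em em' hem i j k hij hjk hik F
  · have h1 := A12_tw2 q t hq ht cut
    have h2 := A12_tw2 q t hq ht cut'
    simp only [actE, if_true]
    cases em
    · cases em'
      · exact act2E_braid_ff q t _ _ ht h1 h2 i j k hij hjk hik F
      · exact act2E_braid_ft q t _ _ ht h1 h2 i j k hij hjk hik F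
    · cases em'
      · exact act2E_braid_tf q t _ _ ht h1 h2 i j k hij hjk hik F
      · exact absurd ⟨rfl, rfl⟩ hem

theorem actE_comm {K : Type} [Field K] {W : Type} [DecidableEq W] (q t : K) (hq : q ≠ 0)
    (ht : t ≠ 0) (lv cut cut' em em' : Bool) (hem : ¬ (em = true ∧ em' = true))
    (i j k l : W) (hij : i ≠ j) (hkl : k ≠ l) (hik : i ≠ k) (hil : i ≠ l) (hjk : j ≠ k)
    (hjl : j ≠ l) (F : St W → K) :
    actE q t lv cut em i j (actE q t lv cut' em' k l F) =
      actE q t lv cut' em' k l (actE q t lv cut em i j F) := by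
  cases lv
  · have h1 := A12_tw1 q hq cut
    have h2 := A12_tw1 q hq cut'
    simp only [actE, Bool.false_eq_true, if_false]
    exact act1E_comm q _ _ h1 h2 em em' hem i j k l hij hkl hik hil hjk hjl F
  · have h1 := A12_tw2 q t hq ht cut
    have h2 := A12_tw2 q t hq ht cut'
    simp only [actE, if_true]
    exact act2E_comm q t _ _ ht h1 h2 em em' hem i j k l hij hkl hik hil hjk hjl F

end Pool.Agent.VB

end Row_A12

section Row_A13

/-!
ROW A13: `actE` is injective (i ≠ j, q,t ≠ 0): if F.x = 0 (use linearity A1) or directly F.x = G.x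
then first the values on multisets agree (A3), then F(h,i) from (h,j), F(h,j) from (h,i), F(h,p), F(hh).
-/

namespace Pool.Agent.VB

open FreeGroup (of)

private theorem A13_act1 {K : Type} [Field K] {W : Type} [DecidableEq W] (q a : K) (hq : q ≠ 0)
    (ha : a ≠ 0) (i j : W) (h : i ≠ j) (f g : W → K)
    (he : ∀ p, act1 q a a⁻¹ i j f p = act1 q a a⁻¹ i j g p) (p : W) : f p = g p := by
  have hi : f i = g i := by
    have h1 := he j
    rw [act1_j _ _ _ _ _ _ h, act1_j _ _ _ _ _ _ h] at h1
    exact mul_left_cancel₀ (inv_ne_zero ha) h1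
  have hj : f j = g j := by
    have h1 := he i
    rw [act1_i, act1_i, hi] at h1
    exact mul_left_cancel₀ (mul_ne_zero hq ha) (add_left_cancel h1)
  by_cases h1 : p = i
  · rw [h1, hi]
  by_cases h2 : p = j
  · rw [h2, hj]
  have h3 := he p
  rwa [act1_k _ _ _ _ _ _ _ h1 h2, act1_k _ _ _ _ _ _ _ h1 h2] at h3

private theorem A13_act2E {K : Type} [Field K] {W : Type} [DecidableEq W] (q t a : K) (hq : q ≠ 0)
    (ht : t ≠ 0) (ha : a ≠ 0) (em : Bool) (i j : W) (h : i ≠ j) :
    Function.Injective (act2E q t a em i j : (St W → K) → (St W → K)) := by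
  intro F G he
  have hz : ∀ z, F (some (Sum.inl z)) = G (some (Sum.inl z)) := by
    have h1 : actV q t a a⁻¹ i j (fun z => F (some (Sum.inl z))) = actV q t a a⁻¹ i j (fun z => G (some (Sum.inl z))) := by
      funext z
      exact congrFun he (some (Sum.inl z))
    intro z
    exact congrFun ((actV_bij q t a hq ht ha i j h).1 h1) z
  cases em with
  | false =>
    have hp : ∀ p, F (some (Sum.inr p)) = G (some (Sum.inr p)) :=
      A13_act1 q a hq ha i j h (fun p => F (some (Sum.inr p))) (fun p => G (some (Sum.inr p)))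
        fun p => congrFun he (some (Sum.inr p))
    have hn : F none = G none := congrFun he none
    funext x
    rcases x with _ | z | p
    · exact hn
    · exact hz z
    · exact hp p
  | true =>
    have hi : F (some (Sum.inr i)) = G (some (Sum.inr i)) := by
      have h1 := congrFun he (some (Sum.inr j))
      simp only [act2E, if_true, h.symm, if_false, hz] at h1
      have h2 : t / a * F (some (Sum.inr i)) = t / a * G (some (Sum.inr i)) := by linear_combination h1
      exact mul_left_cancel₀ (div_ne_zero ht ha) h2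
    have hj : F (some (Sum.inr j)) = G (some (Sum.inr j)) := by
      have h1 := congrFun he (some (Sum.inr i))
      simp only [act2E, if_true, hz, hi] at h1
      have h2 : q * (a / t) * F (some (Sum.inr j)) = q * (a / t) * G (some (Sum.inr j)) := by linear_combination h1
      exact mul_left_cancel₀ (mul_ne_zero hq (div_ne_zero ha ht)) h2
    have hp : ∀ p, F (some (Sum.inr p)) = G (some (Sum.inr p)) := by
      intro p
      by_cases h1 : p = i
      · rw [h1, hi]
      by_cases h2 : p = j
      · rw [h2, hj]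
      have h3 := congrFun he (some (Sum.inr p))
      simp only [act2E, if_true, h1, h2, if_false, hz] at h3
      linear_combination h3
    have hn : F none = G none := by
      have h3 := congrFun he none
      simp only [act2E, if_true, hz, hi, hj] at h3
      linear_combination h3
    funext x
    rcases x with _ | z | p
    · exact hn
    · exact hz z
    · exact hp p

private theorem A13_act1E {K : Type} [Field K] {W : Type} [DecidableEq W] (q a : K) (hq : q ≠ 0)
    (ha : a ≠ 0) (em : Bool) (i j : W) (h : i ≠ j) :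
    Function.Injective (act1E q a em i j : (St W → K) → (St W → K)) := by
  intro F G he
  have hz : ∀ z, F (some (Sum.inl z)) = G (some (Sum.inl z)) := fun z => congrFun he (some (Sum.inl z))
  have hp : ∀ p, F (some (Sum.inr p)) = G (some (Sum.inr p)) :=
    A13_act1 q a hq ha i j h (fun p => F (some (Sum.inr p))) (fun p => G (some (Sum.inr p)))
      fun p => congrFun he (some (Sum.inr p))
  have hn : F none = G none := by
    have h3 := congrFun he none
    cases em with
    | false => exact h3
    | true =>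
      simp only [act1E, if_true, hp] at h3
      linear_combination h3
  funext x
  rcases x with _ | z | p
  · exact hn
  · exact hz z
  · exact hp p

theorem actE_inj {K : Type} [Field K] {W : Type} [DecidableEq W] (q t : K) (hq : q ≠ 0)
    (ht : t ≠ 0) (lv cut em : Bool) (i j : W) (h : i ≠ j) :
    Function.Injective (actE q t lv cut em i j : (St W → K) → (St W → K)) := by
  intro F G he
  cases lv with
  | false =>
    have ha : (if cut then q else 1) ≠ 0 := by
      cases cut
      · simp
      · simpa using hq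
    exact A13_act1E q (if cut then q else 1) hq ha em i j h he
  | true =>
    have ha : (if cut then t * q else 1) ≠ 0 := by
      cases cut
      · simp
      · simpa using ⟨ht, hq⟩
    exact A13_act2E q t (if cut then t * q else 1) hq ht ha em i j h he

end Pool.Agent.VB

end Row_A13

section Row_A14

/-!
ROW A14: braid relation between `sigma_0` and `sigma_1` and commutation of `sigma_0` with
`sigma_k`, k ≥ 2, on level 2 functions with sites in N (twist 1), over any commutative ring.
-/

namespace Pool.Agent.VB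

open FreeGroup (of)

section A14

variable {R : Type} [CommRing R]

theorem A14_ext {F G : Sym2 ℕ → R} (h : ∀ p r : ℕ, p ≤ r → F s(p, r) = G s(p, r)) : F = G := by
  funext z
  induction z using Sym2.ind with
  | _ p r =>
    rcases le_total p r with hpr | hpr
    · exact h p r hpr
    · rw [Sym2.eq_swap]
      exact h r p hpr

theorem A14_a00 (q t : R) (F : Sym2 ℕ → R) : actS q t 0 F s(0, 0) = t * q ^ 2 * F s(0, 0) :=
  actS0_00 q t F

theorem A14_a0j (q t : R) (F : Sym2 ℕ → R) (j : ℕ) (h : 1 ≤ j) :
    actS q t 0 F s(0, j) = t * q ^ 2 * F s(0, 0) - q * F s(0, j) :=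
  actS0_0j q t F j (by omega)

theorem A14_aij (q t : R) (F : Sym2 ℕ → R) (i j : ℕ) (h : 1 ≤ i) (hij : i ≤ j) :
    actS q t 0 F s(i, j) = F s(i, j) - q * (t * F s(0, i) + F s(0, j)) + t * q ^ 2 * F s(0, 0) :=
  actS0_ij q t F i j (by omega) hij

theorem A14_b00 (q t : R) (F : Sym2 ℕ → R) : actS q t 1 F s(0, 0) =
    (1 - q) * (1 - t * q) * F s(0, 0) + (1 + t) * q * (1 - q) * F s(0, 1) + q ^ 2 * F s(1, 1) := by
  have h := actV_ii q t 1 1 0 1 F
  change actV q t 1 1 0 1 F s(0, 0) = _
  rw [h]
  ring

theorem A14_b01 (q t : R) (F : Sym2 ℕ → R) : actS q t 1 F s(0, 1) =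
    (1 - t * q) * F s(0, 0) + t * q * F s(0, 1) := by
  have h := actV_ij q t 1 1 0 1 F (by omega)
  change actV q t 1 1 0 1 F s(0, 1) = _
  rw [h]
  ring

theorem A14_b11 (q t : R) (F : Sym2 ℕ → R) : actS q t 1 F s(1, 1) = F s(0, 0) := by
  have h := actV_jj q t 1 1 0 1 F (by omega)
  change actV q t 1 1 0 1 F s(1, 1) = _
  rw [h]
  ring

theorem A14_b0k (q t : R) (F : Sym2 ℕ → R) (k : ℕ) (hk : 2 ≤ k) : actS q t 1 F s(0, k) =
    (1 - q) * F s(0, k) + q * F s(1, k) := by
  have h := actV_ik q t 1 1 0 1 F k (by omega) (by omega)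
  change actV q t 1 1 0 1 F s(0, k) = _
  rw [h]
  ring

theorem A14_b1k (q t : R) (F : Sym2 ℕ → R) (k : ℕ) (hk : 2 ≤ k) : actS q t 1 F s(1, k) =
    F s(0, k) := by
  have h := actV_jk q t 1 1 0 1 F (by omega) k (by omega) (by omega)
  change actV q t 1 1 0 1 F s(1, k) = _
  rw [h]
  ring

theorem A14_bij (q t : R) (F : Sym2 ℕ → R) (i j : ℕ) (hi : 2 ≤ i) (hj : 2 ≤ j) :
    actS q t 1 F s(i, j) = F s(i, j) :=
  actV_kl q t 1 1 0 1 F i j (by omega) (by omega) (by omega) (by omega)

end A14

theorem actS_braid0 {R : Type} [CommRing R] (q t : R) (F : Sym2 ℕ → R) :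
    actS q t 0 (actS q t 1 (actS q t 0 F)) = actS q t 1 (actS q t 0 (actS q t 1 F)) := by
  apply A14_ext
  intro p r hpr
  rcases Nat.lt_or_ge p 2 with hp | hp
  · rcases Nat.lt_or_ge r 2 with hr | hr
    · have h3 : (p = 0 ∧ r = 0) ∨ (p = 0 ∧ r = 1) ∨ (p = 1 ∧ r = 1) := by omega
      rcases h3 with ⟨rfl, rfl⟩ | ⟨rfl, rfl⟩ | ⟨rfl, rfl⟩
      · simp only [A14_a00, A14_b00, A14_a0j _ _ _ 1 le_rfl, A14_b01, A14_aij _ _ _ 1 1 le_rfl le_rfl, A14_b11]
        ring
      · simp only [A14_a00, A14_b00, A14_a0j _ _ _ 1 le_rfl, A14_b01, A14_aij _ _ _ 1 1 le_rfl le_rfl, A14_b11]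
        ring
      · simp only [A14_a00, A14_b00, A14_a0j _ _ _ 1 le_rfl, A14_b01, A14_aij _ _ _ 1 1 le_rfl le_rfl, A14_b11]
        ring
    · have h3 : p = 0 ∨ p = 1 := by omega
      rcases h3 with rfl | rfl
      · simp only [A14_a00, A14_b00, A14_a0j _ _ _ 1 le_rfl, A14_b01, A14_aij _ _ _ 1 1 le_rfl le_rfl, A14_b11,
          A14_a0j _ _ _ r (by omega : 1 ≤ r), A14_b0k _ _ _ r hr, A14_b1k _ _ _ r hr,
          A14_aij _ _ _ 1 r le_rfl (by omega : 1 ≤ r)]
        ring
      · simp only [A14_a00, A14_b00, A14_a0j _ _ _ 1 le_rfl, A14_b01, A14_aij _ _ _ 1 1 le_rfl le_rfl, A14_b11,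
          A14_a0j _ _ _ r (by omega : 1 ≤ r), A14_b0k _ _ _ r hr, A14_b1k _ _ _ r hr,
          A14_aij _ _ _ 1 r le_rfl (by omega : 1 ≤ r)]
        ring
  · have hr : 2 ≤ r := by omega
    simp only [A14_a00, A14_b00, A14_a0j _ _ _ 1 le_rfl, A14_b01, A14_aij _ _ _ 1 1 le_rfl le_rfl, A14_b11,
      A14_a0j _ _ _ r (by omega : 1 ≤ r), A14_b0k _ _ _ r hr, A14_b1k _ _ _ r hr,
      A14_aij _ _ _ 1 r le_rfl (by omega : 1 ≤ r),
      A14_a0j _ _ _ p (by omega : 1 ≤ p), A14_b0k _ _ _ p hp, A14_b1k _ _ _ p hp,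
      A14_aij _ _ _ 1 p le_rfl (by omega : 1 ≤ p), A14_bij _ _ _ p r hp hr,
      A14_aij _ _ _ p r (by omega : 1 ≤ p) hpr]
    ring

section A14c

variable {R : Type} [CommRing R] (q t : R) (F : Sym2 ℕ → R) (i : ℕ)

theorem A14_v00 (hi : 1 ≤ i) : actS q t (i + 1) F s(0, 0) = F s(0, 0) :=
  actV_kl q t 1 1 i (i + 1) F 0 0 (by omega) (by omega) (by omega) (by omega)

theorem A14_v0i (hi : 1 ≤ i) : actS q t (i + 1) F s(0, i) = (1 - q) * F s(0, i) + q * F s(0, i + 1) := by
  have h := actV_ik q t 1 1 i (i + 1) F 0 (by omega) (by omega)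
  change actV q t 1 1 i (i + 1) F s(0, i) = _
  rw [Sym2.eq_swap, h, Sym2.eq_swap, Sym2.eq_swap (a := i + 1)]
  ring

theorem A14_v0j (hi : 1 ≤ i) : actS q t (i + 1) F s(0, i + 1) = F s(0, i) := by
  have h := actV_jk q t 1 1 i (i + 1) F (by omega) 0 (by omega) (by omega)
  change actV q t 1 1 i (i + 1) F s(0, i + 1) = _
  rw [Sym2.eq_swap, h, Sym2.eq_swap]
  ring

theorem A14_vkl (p r : ℕ) (hp : p ≠ i) (hp' : p ≠ i + 1) (hr : r ≠ i) (hr' : r ≠ i + 1) :
    actS q t (i + 1) F s(p, r) = F s(p, r) :=
  actV_kl q t 1 1 i (i + 1) F p r hp hp' hr hr'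

theorem A14_vii : actS q t (i + 1) F s(i, i) =
    (1 - q) * (1 - t * q) * F s(i, i) + (1 + t) * q * (1 - q) * F s(i, i + 1)
      + q ^ 2 * F s(i + 1, i + 1) := by
  have h := actV_ii q t 1 1 i (i + 1) F
  change actV q t 1 1 i (i + 1) F s(i, i) = _
  rw [h]
  ring

theorem A14_vij : actS q t (i + 1) F s(i, i + 1) =
    (1 - t * q) * F s(i, i) + t * q * F s(i, i + 1) := by
  have h := actV_ij q t 1 1 i (i + 1) F (by omega)
  change actV q t 1 1 i (i + 1) F s(i, i + 1) = _
  rw [h]
  ring

theorem A14_vjj : actS q t (i + 1) F s(i + 1, i + 1) = F s(i, i) := by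
  have h := actV_jj q t 1 1 i (i + 1) F (by omega)
  change actV q t 1 1 i (i + 1) F s(i + 1, i + 1) = _
  rw [h]
  ring

theorem A14_vir (r : ℕ) (hr : r ≠ i) (hr' : r ≠ i + 1) : actS q t (i + 1) F s(i, r) =
    (1 - q) * F s(i, r) + q * F s(i + 1, r) := by
  have h := actV_ik q t 1 1 i (i + 1) F r hr hr'
  change actV q t 1 1 i (i + 1) F s(i, r) = _
  rw [h]
  ring

theorem A14_vjr (r : ℕ) (hr : r ≠ i) (hr' : r ≠ i + 1) : actS q t (i + 1) F s(i + 1, r) =
    F s(i, r) := by
  have h := actV_jk q t 1 1 i (i + 1) F (by omega) r hr hr'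
  change actV q t 1 1 i (i + 1) F s(i + 1, r) = _
  rw [h]
  ring

theorem A14_vri (r : ℕ) (hr : r ≠ i) (hr' : r ≠ i + 1) : actS q t (i + 1) F s(r, i) =
    (1 - q) * F s(r, i) + q * F s(r, i + 1) := by
  rw [Sym2.eq_swap, A14_vir q t F i r hr hr', Sym2.eq_swap, Sym2.eq_swap (a := i + 1)]

theorem A14_vrj (r : ℕ) (hr : r ≠ i) (hr' : r ≠ i + 1) : actS q t (i + 1) F s(r, i + 1) =
    F s(r, i) := by
  rw [Sym2.eq_swap, A14_vjr q t F i r hr hr', Sym2.eq_swap]

end A14c

theorem actS_comm0 {R : Type} [CommRing R] (q t : R) (k : ℕ) (hk : 2 ≤ k) (F : Sym2 ℕ → R) :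
    actS q t 0 (actS q t k F) = actS q t k (actS q t 0 F) := by
  obtain ⟨i, rfl⟩ : ∃ i, k = i + 1 := ⟨k - 1, by omega⟩
  have hi : 1 ≤ i := by omega
  apply A14_ext
  intro p r hpr
  rcases Nat.eq_zero_or_pos p with rfl | hp
  · rcases Nat.eq_zero_or_pos r with rfl | hr
    · rw [A14_a00, A14_v00 q t _ i hi, A14_v00 q t _ i hi, A14_a00]
    · rw [A14_a0j _ _ _ r hr, A14_v00 q t _ i hi]
      by_cases h1 : r = i
      · subst h1
        rw [A14_v0i q t _ r hi, A14_v0i q t _ r hi, A14_a0j _ _ _ r hr, A14_a0j _ _ _ (r + 1) (by omega)]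
        ring
      · by_cases h2 : r = i + 1
        · subst h2
          rw [A14_v0j q t _ i hi, A14_v0j q t _ i hi, A14_a0j _ _ _ i hi]
        · rw [A14_vkl q t _ i 0 r (by omega) (by omega) h1 h2, A14_vkl q t _ i 0 r (by omega) (by omega) h1 h2,
            A14_a0j _ _ _ r hr]
  · rw [A14_aij _ _ _ p r hp hpr, A14_v00 q t _ i hi]
    by_cases h1 : p = i
    · subst h1
      by_cases h3 : r = p
      · subst h3
        rw [A14_v0i q t _ r hi, A14_vii, A14_vii, A14_aij _ _ _ r r hi le_rfl,
          A14_aij _ _ _ r (r + 1) hi (by omega), A14_aij _ _ _ (r + 1) (r + 1) (by omega) le_rfl]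
        ring
      · by_cases h4 : r = p + 1
        · subst h4
          rw [A14_v0i q t _ p hi, A14_v0j q t _ p hi, A14_vij, A14_vij, A14_aij _ _ _ p p hi le_rfl,
            A14_aij _ _ _ p (p + 1) hi (by omega)]
          ring
        · rw [A14_v0i q t _ p hi, A14_vkl q t _ p 0 r (by omega) (by omega) h3 h4,
            A14_vir q t _ p r h3 h4, A14_vir q t _ p r h3 h4, A14_aij _ _ _ p r hi hpr,
            A14_aij _ _ _ (p + 1) r (by omega) (by omega)]
          ring
    · by_cases h2 : p = i + 1
      · subst h2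
        by_cases h4 : r = i + 1
        · subst h4
          rw [A14_v0j q t _ i hi, A14_vjj, A14_vjj, A14_aij _ _ _ i i hi le_rfl]
        · rw [A14_v0j q t _ i hi, A14_vkl q t _ i 0 r (by omega) (by omega) (by omega) h4,
            A14_vjr q t _ i r (by omega) h4, A14_vjr q t _ i r (by omega) h4,
            A14_aij _ _ _ i r hi (by omega)]
      · by_cases h3 : r = i
        · subst h3
          rw [A14_v0i q t _ r hi, A14_vkl q t _ r 0 p (by omega) (by omega) h1 h2,
            A14_vri q t _ r p h1 h2, A14_vri q t _ r p h1 h2, A14_aij _ _ _ p r hp hpr,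
            A14_aij _ _ _ p (r + 1) hp (by omega)]
          ring
        · by_cases h4 : r = i + 1
          · subst h4
            rw [A14_v0j q t _ i hi, A14_vkl q t _ i 0 p (by omega) (by omega) h1 h2,
              A14_vrj q t _ i p h1 h2, A14_vrj q t _ i p h1 h2, A14_aij _ _ _ p i hp (by omega)]
          · rw [A14_vkl q t _ i 0 p (by omega) (by omega) h1 h2,
              A14_vkl q t _ i 0 r (by omega) (by omega) h3 h4, A14_vkl q t _ i p r h1 h2 h3 h4,
              A14_vkl q t _ i p r h1 h2 h3 h4, A14_aij _ _ _ p r hp hpr]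

end Pool.Agent.VB

end Row_A14

section Row_Mods

/-!
The right modules: `modE A b a lv` (emitter `a`, cut `b`, level `lv`), `modV A b` (level 2 without
emitter), `brV m` (braid group `Br m` on level 2 functions with sites in N), and the functionals `Psi`.
-/

namespace Pool.Agent.VB

open FreeGroup (of)

section modE
variable {S W : Type} [DecidableEq S] [Fintype W] [DecidableEq W]

/-- the linear automorphism `F ↦ F . x_ij` -/
noncomputable def eqE (lv cut em : Bool) (i j : W) (h : i ≠ j) :
    (St W → KK) ≃ₗ[KK] (St W → KK) :=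
  LinearEquiv.ofInjectiveEndo
    { toFun := actE qK tK lv cut em i j
      map_add' := actE_add qK tK lv cut em i j
      map_smul' := fun c F => actE_smul qK tK c lv cut em i j F }
    (actE_inj qK tK qK_ne tK_ne lv cut em i j h)

theorem eqE_apply (lv cut em : Bool) (i j : W) (h : i ≠ j) (F : St W → KK) :
    eqE lv cut em i j h F = actE qK tK lv cut em i j F := by
  simp [eqE]

theorem eqE_braid (A : ArcSys S W) (b a : S) (lv : Bool) (s r : S) (h : A.br s r) :
    (MulOpposite.op (eqE lv (decide (s = b)) (decide (s = a)) (A.src s) (A.tgt s) (A.ne s))) *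
      (MulOpposite.op (eqE lv (decide (r = b)) (decide (r = a)) (A.src r) (A.tgt r) (A.ne r))) *
      (MulOpposite.op (eqE lv (decide (s = b)) (decide (s = a)) (A.src s) (A.tgt s) (A.ne s))) =
    (MulOpposite.op (eqE lv (decide (r = b)) (decide (r = a)) (A.src r) (A.tgt r) (A.ne r))) *
      (MulOpposite.op (eqE lv (decide (s = b)) (decide (s = a)) (A.src s) (A.tgt s) (A.ne s))) *
      (MulOpposite.op (eqE lv (decide (r = b)) (decide (r = a)) (A.src r) (A.tgt r) (A.ne r))) := by
  have h1 := h.1
  have h2 := h.2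
  have hsr : s ≠ r := by
    rintro rfl; exact A.ne s h1.symm
  have hem : ¬ (decide (s = a) = true ∧ decide (r = a) = true) := by
    rintro ⟨e1, e2⟩
    exact hsr ((of_decide_eq_true e1).trans (of_decide_eq_true e2).symm)
  rw [← MulOpposite.op_mul, ← MulOpposite.op_mul, ← MulOpposite.op_mul, ← MulOpposite.op_mul]
  congr 1
  apply LinearEquiv.ext
  intro F
  simp only [LinearEquiv.mul_apply, eqE_apply]
  have := actE_braid qK tK qK_ne tK_ne lv (decide (s = b)) (decide (r = b)) (decide (s = a))
    (decide (r = a)) hem (A.src s) (A.tgt s) (A.tgt r) (A.ne s) (by rw [h1]; exact A.ne r) h2 F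
  rw [← h1]
  exact this

theorem eqE_comm (A : ArcSys S W) (b a : S) (lv : Bool) (s r : S) (h : A.cm s r) :
    (MulOpposite.op (eqE lv (decide (s = b)) (decide (s = a)) (A.src s) (A.tgt s) (A.ne s))) *
      (MulOpposite.op (eqE lv (decide (r = b)) (decide (r = a)) (A.src r) (A.tgt r) (A.ne r))) =
    (MulOpposite.op (eqE lv (decide (r = b)) (decide (r = a)) (A.src r) (A.tgt r) (A.ne r))) *
      (MulOpposite.op (eqE lv (decide (s = b)) (decide (s = a)) (A.src s) (A.tgt s) (A.ne s))) := by
  obtain ⟨h1, h2, h3, h4⟩ := h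
  have hsr : s ≠ r := by
    rintro rfl; exact h1 rfl
  have hem : ¬ (decide (s = a) = true ∧ decide (r = a) = true) := by
    rintro ⟨e1, e2⟩
    exact hsr ((of_decide_eq_true e1).trans (of_decide_eq_true e2).symm)
  rw [← MulOpposite.op_mul, ← MulOpposite.op_mul]
  congr 1
  apply LinearEquiv.ext
  intro F
  simp only [LinearEquiv.mul_apply, eqE_apply]
  exact (actE_comm qK tK qK_ne tK_ne lv (decide (s = b)) (decide (r = b)) (decide (s = a))
    (decide (r = a)) hem (A.src s) (A.tgt s) (A.src r) (A.tgt r) (A.ne s) (A.ne r) h1 h2 h3 h4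
    F).symm

/-- the module with emitter `a`, cut `b` -/
noncomputable def modE (A : ArcSys S W) (b a : S) (lv : Bool) : RA A.G (St W → KK) :=
  artLift (fun s => MulOpposite.op
    (eqE lv (decide (s = b)) (decide (s = a)) (A.src s) (A.tgt s) (A.ne s)))
    (eqE_braid A b a lv) (eqE_comm A b a lv)

theorem modE_x (A : ArcSys S W) (b a : S) (lv : Bool) (s : S) (F : St W → KK) :
    rac (modE A b a lv) F (A.x s) =
      actE qK tK lv (decide (s = b)) (decide (s = a)) (A.src s) (A.tgt s) F := by
  simp only [rac, modE, ArcSys.x, artLift_gen]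
  exact eqE_apply _ _ _ _ _ (A.ne s) _

/-- inversion and reversal of the arcs -/
def theta (A : ArcSys S W) : A.G →* A.rev.G :=
  artLift (fun s => (A.rev.x s)⁻¹)
    (fun s r h => by
      have h' : A.rev.br r s := ⟨h.1.symm, h.2.symm⟩
      have e := x_braid A.rev r s h'
      rw [← mul_inv_rev, ← mul_inv_rev, ← mul_inv_rev, ← mul_inv_rev, ← mul_assoc, ← mul_assoc, e])
    (fun s r h => by
      have h' : A.rev.cm r s := ⟨h.2.2.2.symm, h.2.1.symm, h.2.2.1.symm, h.1.symm⟩
      have e := x_comm A.rev r s h'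
      rw [← mul_inv_rev, ← mul_inv_rev, e])

omit [DecidableEq S] [Fintype W] [DecidableEq W] in
theorem theta_x (A : ArcSys S W) (s : S) : theta A (A.x s) = (A.rev.x s)⁻¹ := by
  simp [theta, ArcSys.x, artLift_gen]

/-- the module, plain (`d = false`) or bar (`d = true`) -/
noncomputable def modD (A : ArcSys S W) (b a : S) (lv d : Bool) : RA A.G (St W → KK) :=
  if d then (modE A.rev b a lv).comp (theta A) else modE A b a lv

/-- the matrix coefficient `Psi` -/
noncomputable def Psi (A : ArcSys S W) (b a : S) (lv d : Bool) (g : A.G) : KK :=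
  rac (modD A b a lv d) (eps tK lv) g none

theorem Psi_true (A : ArcSys S W) (b a : S) (lv : Bool) (g : A.G) :
    Psi A b a lv true g = Psi A.rev b a lv false (theta A g) := by
  simp [Psi, modD, rac]

end modE

section modV
variable {S W : Type} [DecidableEq S] [DecidableEq W]

/-- the twist of the arc `s` when the cut is `b` -/
noncomputable def tw (b s : S) : KK := if s = b then tK * qK else 1

theorem tw_ne (b s : S) : tw b s ≠ 0 := by
  unfold tw; split_ifs
  · exact mul_ne_zero tK_ne qK_ne
  · exact one_ne_zero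

/-- the linear automorphism of level 2 functions -/
noncomputable def eqV (a : KK) (ha : a ≠ 0) (i j : W) (h : i ≠ j) :
    (Sym2 W → KK) ≃ₗ[KK] (Sym2 W → KK) :=
  LinearEquiv.ofBijective
    { toFun := actV qK tK a a⁻¹ i j
      map_add' := actV_add qK tK a a⁻¹ i j
      map_smul' := fun c F => actV_smul qK tK a a⁻¹ c i j F }
    (actV_bij qK tK a qK_ne tK_ne ha i j h)

theorem eqV_apply (a : KK) (ha : a ≠ 0) (i j : W) (h : i ≠ j) (F : Sym2 W → KK) :
    eqV a ha i j h F = actV qK tK a a⁻¹ i j F := rfl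

/-- level 2 functions without emitter, cut `b` -/
noncomputable def modV (A : ArcSys S W) (b : S) : RA A.G (Sym2 W → KK) :=
  artLift (fun s => MulOpposite.op (eqV (tw b s) (tw_ne b s) (A.src s) (A.tgt s) (A.ne s)))
    (fun s r h => by
      have h1 := h.1
      have h2 := h.2
      rw [← MulOpposite.op_mul, ← MulOpposite.op_mul, ← MulOpposite.op_mul, ← MulOpposite.op_mul]
      congr 1
      apply LinearEquiv.ext
      intro F
      simp only [LinearEquiv.mul_apply, eqV_apply]
      have := actV_braid qK tK (tw b s) (tw b r) (tw_ne b s) (tw_ne b r) (A.src s) (A.tgt s)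
        (A.tgt r) (A.ne s) (by rw [h1]; exact A.ne r) h2 F
      rw [← h1]
      exact this)
    (fun s r h => by
      obtain ⟨h1, h2, h3, h4⟩ := h
      rw [← MulOpposite.op_mul, ← MulOpposite.op_mul]
      congr 1
      apply LinearEquiv.ext
      intro F
      simp only [LinearEquiv.mul_apply, eqV_apply]
      exact (actV_comm qK tK (tw b s) (tw b r) (tw_ne b s) (tw_ne b r) (A.src s) (A.tgt s)
        (A.src r) (A.tgt r) (A.ne s) (A.ne r) h1 h2 h3 h4 F).symm)

theorem modV_x (A : ArcSys S W) (b : S) (s : S) (F : Sym2 W → KK) :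
    rac (modV A b) F (A.x s) =
      actV qK tK (tw b s) (tw b s)⁻¹ (A.src s) (A.tgt s) F := by
  simp only [rac, modV, ArcSys.x, artLift_gen]
  rfl

end modV

section brV

theorem actS_bij (k : ℕ) : Function.Bijective (actS qK tK k) := by
  cases k with
  | zero => exact actS0_bij qK tK qK_ne tK_ne
  | succ k =>
    have := actV_bij qK tK (1 : KK) qK_ne tK_ne one_ne_zero k (k + 1) (by omega)
    rw [inv_one] at this
    exact this

/-- `sigma_k` as a linear automorphism -/
noncomputable def eqS (k : ℕ) : (Sym2 ℕ → KK) ≃ₗ[KK] (Sym2 ℕ → KK) :=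
  LinearEquiv.ofBijective
    { toFun := actS qK tK k
      map_add' := actS_add qK tK k
      map_smul' := fun c F => actS_smul qK tK c k F }
    (actS_bij k)

theorem eqS_apply (k : ℕ) (F : Sym2 ℕ → KK) : eqS k F = actS qK tK k F := rfl

theorem actS_braid (k : ℕ) (F : Sym2 ℕ → KK) :
    actS qK tK k (actS qK tK (k + 1) (actS qK tK k F)) =
      actS qK tK (k + 1) (actS qK tK k (actS qK tK (k + 1) F)) := by
  cases k with
  | zero => exact actS_braid0 qK tK F
  | succ k =>
    have := actV_braid qK tK (1 : KK) 1 one_ne_zero one_ne_zero k (k + 1) (k + 2) (by omega)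
      (by omega) (by omega) F
    rw [inv_one] at this
    exact this

theorem actS_comm (i j : ℕ) (h : i + 2 ≤ j) (F : Sym2 ℕ → KK) :
    actS qK tK i (actS qK tK j F) = actS qK tK j (actS qK tK i F) := by
  cases i with
  | zero => exact actS_comm0 qK tK j (by omega) F
  | succ i =>
    obtain ⟨j, rfl⟩ : ∃ j', j = j' + 1 := ⟨j - 1, by omega⟩
    have := actV_comm qK tK (1 : KK) 1 one_ne_zero one_ne_zero i (i + 1) j (j + 1) (by omega)
      (by omega) (by omega) (by omega) (by omega) (by omega) F
    rw [inv_one] at this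
    exact this

/-- `Br m` acts on level 2 functions with sites in `N` -/
noncomputable def brV (m : ℕ) : RA (Br m) (Sym2 ℕ → KK) :=
  brLift m (fun k => MulOpposite.op (if k < m then eqS k else 1))
    (fun k h => by simp only [if_neg (by omega : ¬ k < m), MulOpposite.op_one])
    (fun k h => by
      simp only [if_pos (by omega : k < m), if_pos h]
      rw [← MulOpposite.op_mul, ← MulOpposite.op_mul, ← MulOpposite.op_mul, ← MulOpposite.op_mul]
      congr 1
      apply LinearEquiv.ext
      intro F
      exact actS_braid k F)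
    (fun i j h => by
      by_cases hi : i < m
      · by_cases hj : j < m
        · simp only [if_pos hi, if_pos hj]
          rw [← MulOpposite.op_mul, ← MulOpposite.op_mul]
          congr 1
          apply LinearEquiv.ext
          intro F
          exact (actS_comm i j h F).symm
        · simp only [if_neg hj, MulOpposite.op_one, one_mul, mul_one]
      · simp only [if_neg hi, MulOpposite.op_one, one_mul, mul_one])

theorem brV_sg (m k : ℕ) (h : k < m) (F : Sym2 ℕ → KK) :
    rac (brV m) F (sg m k) = actS qK tK k F := by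
  simp only [rac, brV, brLift_sg, if_pos h, MulOpposite.unop_op]
  exact eqS_apply k F

end brV

end Pool.Agent.VB

end Row_Mods

section Row_B1

/-!
ROW B1: restriction of functions along an injection of sites commutes with the actions.
-/

namespace Pool.Agent.VB

open FreeGroup (of)

/-- the map on states -/
def stMap {W' W : Type} (v : W' → W) : St W' → St W := Option.map (Sum.map (Sym2.map v) v)

theorem actV_restr {R : Type} [CommRing R] {W W' : Type} [DecidableEq W] [DecidableEq W']
    (v : W' → W) (hv : Function.Injective v) (q t a a' : R) (i j : W') (F : Sym2 W → R) :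
    actV q t a a' i j (fun z => F (Sym2.map v z)) =
      fun z => actV q t a a' (v i) (v j) F (Sym2.map v z) := by
  funext z
  induction z using Sym2.ind with
  | _ p r =>
    simp only [actV, Sym2.map_mk, Sym2.lift_mk, hv.eq_iff]

private theorem B1_act1_restr {R : Type} [CommRing R] {W W' : Type} [DecidableEq W]
    [DecidableEq W'] (v : W' → W) (hv : Function.Injective v) (q a a' : R) (i j : W')
    (f : W → R) (p : W') :
    act1 q a a' i j (fun z => f (v z)) p = act1 q a a' (v i) (v j) f (v p) := by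
  simp only [act1, hv.eq_iff]

theorem actE_restr {K : Type} [Field K] {W W' : Type} [DecidableEq W] [DecidableEq W']
    (v : W' → W) (hv : Function.Injective v) (q t : K) (lv cut em : Bool) (i j : W')
    (F : St W → K) :
    actE q t lv cut em i j (fun x => F (stMap v x)) =
      fun x => actE q t lv cut em (v i) (v j) F (stMap v x) := by
  funext x
  rcases x with _ | (z | p)
  · cases lv <;> cases em <;> simp [actE, act2E, act1E, stMap]
  · cases lv
    · simp [actE, act1E, stMap]
    · have h := congrFun (actV_restr v hv q t (if cut then t * q else 1)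
        (if cut then t * q else 1)⁻¹ i j (fun z => F (some (Sum.inl z)))) z
      simpa [actE, act2E, stMap] using h
  · cases lv
    · have h := B1_act1_restr v hv q (if cut then q else 1) (if cut then q else 1)⁻¹ i j
        (fun p => F (some (Sum.inr p))) p
      simpa [actE, act1E, stMap] using h
    · cases em
      · have h := B1_act1_restr v hv q (if cut then t * q else 1)
          (if cut then t * q else 1)⁻¹ i j (fun p => F (some (Sum.inr p))) p
        simpa [actE, act2E, stMap] using h
      · simp [actE, act2E, stMap, hv.eq_iff]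

end Pool.Agent.VB

end Row_B1

section Row_HomDef

/-!
Morphisms of arc systems.
-/

namespace Pool.Agent.VB

open FreeGroup (of)

/-- a morphism of arc systems, injective on arcs and on sites -/
structure ArcHom {S' W' S W : Type} (A' : ArcSys S' W') (A : ArcSys S W) where
  f : S' → S
  v : W' → W
  hf : Function.Injective f
  hv : Function.Injective v
  hs : ∀ s, A.src (f s) = v (A'.src s)
  ht : ∀ s, A.tgt (f s) = v (A'.tgt s)

variable {S' W' S W : Type} {A' : ArcSys S' W'} {A : ArcSys S W}

/-- the induced homomorphism of groups -/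
def ArcHom.map (φ : ArcHom A' A) : A'.G →* A.G :=
  artLift (fun s => A.x (φ.f s))
    (fun s r h => x_braid A _ _ ⟨by rw [φ.ht, φ.hs, h.1], by
      rw [φ.ht, φ.hs]; exact fun e => h.2 (φ.hv e)⟩)
    (fun s r h => x_comm A _ _ ⟨by rw [φ.hs, φ.hs]; exact fun e => h.1 (φ.hv e),
      by rw [φ.hs, φ.ht]; exact fun e => h.2.1 (φ.hv e),
      by rw [φ.ht, φ.hs]; exact fun e => h.2.2.1 (φ.hv e),
      by rw [φ.ht, φ.ht]; exact fun e => h.2.2.2 (φ.hv e)⟩)

theorem ArcHom.map_x (φ : ArcHom A' A) (s : S') : φ.map (A'.x s) = A.x (φ.f s) := by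
  simp [ArcHom.map, ArcSys.x, artLift_gen]

/-- the same morphism between the reversed systems -/
def ArcHom.rev (φ : ArcHom A' A) : ArcHom A'.rev A.rev :=
  ⟨φ.f, φ.v, φ.hf, φ.hv, φ.ht, φ.hs⟩

end Pool.Agent.VB

end Row_HomDef

section Row_B2

/-!
ROW B2: `Psi` is compatible with morphisms.  (1) for the group elements: rac (modE A (f b) (f a) lv) F (map g)
restricted along stMap v equals rac (modE A' b a lv) (restricted F) g: true for generators by actE_restr (decide (f s = f b) = decide (s = b)
by injectivity), then for products and inverses (the restricted action is by linear automorphisms; closure_induction / PresentedGroup.induction_on).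
(2) eps restricts to eps, none to none.  (3) bar version: theta commutes with map: theta (φ.map g) = φ.rev.map (theta g).
-/

namespace Pool.Agent.VB

open FreeGroup (of)

variable {S' W' S W : Type} [DecidableEq S'] [Fintype W'] [DecidableEq W'] [DecidableEq S]
  [Fintype W] [DecidableEq W] {A' : ArcSys S' W'} {A : ArcSys S W}

omit [DecidableEq S'] [Fintype W'] [DecidableEq W'] [DecidableEq S] [Fintype W] [DecidableEq W] in
private theorem B2_ind (P : A'.G → Prop) (h1 : P 1) (hx : ∀ s, P (A'.x s))
    (hm : ∀ g h, P g → P h → P (g * h)) (hi : ∀ g, P g → P g⁻¹) (g : A'.G) : P g := by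
  have hg : g ∈ Subgroup.closure (Set.range (PresentedGroup.of (rels := artRels A'.br A'.cm))) := by
    rw [PresentedGroup.closure_range_of]; trivial
  induction hg using Subgroup.closure_induction with
  | mem x hx' =>
    obtain ⟨s, rfl⟩ := hx'
    exact hx s
  | one => exact h1
  | mul x y _ _ ix iy => exact hm x y ix iy
  | inv x _ ix => exact hi x ix

omit [DecidableEq S'] [Fintype W'] [DecidableEq W'] [DecidableEq S] [Fintype W] [DecidableEq W] in
private theorem B2_theta (φ : ArcHom A' A) (g : A'.G) :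
    theta A (φ.map g) = φ.rev.map (theta A' g) := by
  refine B2_ind (A' := A') (fun g => theta A (φ.map g) = φ.rev.map (theta A' g)) ?_ ?_ ?_ ?_ g
  · simp
  · intro s
    show theta A (φ.map (A'.x s)) = φ.rev.map (theta A' (A'.x s))
    rw [ArcHom.map_x, theta_x, theta_x, map_inv, ArcHom.map_x]
    rfl
  · intro g h hg hh
    show theta A (φ.map (g * h)) = φ.rev.map (theta A' (g * h))
    rw [map_mul, map_mul, map_mul, map_mul, hg, hh]
  · intro g hg
    show theta A (φ.map g⁻¹) = φ.rev.map (theta A' g⁻¹)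
    rw [map_inv, map_inv, map_inv, map_inv, hg]

theorem theta_map (φ : ArcHom A' A) (g : A'.G) :
    theta A (φ.map g) = φ.rev.map (theta A' g) := B2_theta φ g

private theorem B2_modE (φ : ArcHom A' A) (b a : S') (lv : Bool) (g : A'.G) :
    ∀ F : St W → KK, rac (modE A' b a lv) (fun x => F (stMap φ.v x)) g =
      fun x => rac (modE A (φ.f b) (φ.f a) lv) F (φ.map g) (stMap φ.v x) := by
  refine B2_ind (A' := A') (fun g => ∀ F : St W → KK,
    rac (modE A' b a lv) (fun x => F (stMap φ.v x)) g =
      fun x => rac (modE A (φ.f b) (φ.f a) lv) F (φ.map g) (stMap φ.v x)) ?_ ?_ ?_ ?_ g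
  · intro F
    simp only [map_one, rac_one]
  · intro s F
    show rac (modE A' b a lv) (fun x => F (stMap φ.v x)) (A'.x s) =
      fun x => rac (modE A (φ.f b) (φ.f a) lv) F (φ.map (A'.x s)) (stMap φ.v x)
    rw [modE_x, ArcHom.map_x, modE_x, φ.hs, φ.ht, actE_restr φ.v φ.hv]
    have e1 : decide (φ.f s = φ.f b) = decide (s = b) := by
      simp only [φ.hf.eq_iff]
    have e2 : decide (φ.f s = φ.f a) = decide (s = a) := by
      simp only [φ.hf.eq_iff]
    rw [e1, e2]
  · intro g h hg hh F
    show rac (modE A' b a lv) (fun x => F (stMap φ.v x)) (g * h) =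
      fun x => rac (modE A (φ.f b) (φ.f a) lv) F (φ.map (g * h)) (stMap φ.v x)
    rw [rac_mul, hg F, hh, map_mul, rac_mul]
  · intro g hg F
    show rac (modE A' b a lv) (fun x => F (stMap φ.v x)) g⁻¹ =
      fun x => rac (modE A (φ.f b) (φ.f a) lv) F (φ.map g⁻¹) (stMap φ.v x)
    have e := hg (rac (modE A (φ.f b) (φ.f a) lv) F (φ.map g⁻¹))
    rw [← rac_mul, ← map_mul, inv_mul_cancel, map_one, rac_one] at e
    rw [← e, rac_inv_mul]

private theorem B2_false (φ : ArcHom A' A) (b a : S') (lv : Bool) (g : A'.G) :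
    Psi A (φ.f b) (φ.f a) lv false (φ.map g) = Psi A' b a lv false g := by
  have e := congrFun (B2_modE φ b a lv g (eps tK lv)) none
  have e' : (fun x => eps tK lv (stMap φ.v x)) = (eps tK lv : St W' → KK) := by
    funext x
    rcases x with _ | (z | p) <;> rfl
  rw [e'] at e
  exact e.symm

theorem Psi_map (φ : ArcHom A' A) (b a : S') (lv d : Bool) (g : A'.G) :
    Psi A (φ.f b) (φ.f a) lv d (φ.map g) = Psi A' b a lv d g := by
  cases d
  · exact B2_false φ b a lv g
  · rw [Psi_true, Psi_true, B2_theta]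
    exact B2_false φ.rev b a lv (theta A' g)

end Pool.Agent.VB

end Row_B2

section Row_B3

/-!
ROW B3: invariance of eps and of the evaluation at hh.  eps . x_r = eps for r ≠ b; (F . x_r)(none) = F none for
r ≠ a; F = fun x => if x = none then 1 else 0 is invariant.  Consequences for Psi: left multiplication by par {b}ᶜ, right multiplication by
par {a}ᶜ do not change Psi (both d; theta maps par X to par X), Psi 1 = 0.
-/

namespace Pool.Agent.VB

open FreeGroup (of)

private theorem b3_actV_one {R : Type} [CommRing R] {W : Type} [DecidableEq W] (q t : R)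
    (i j : W) (hij : i ≠ j) (z : Sym2 W) :
    actV q t 1 1 i j (fun _ => (1 : R)) z = 1 := by
  induction z using Sym2.ind with
  | _ p r =>
    by_cases h1 : p = i
    · subst h1
      by_cases h2 : r = p
      · subst h2
        simp only [actV, Sym2.lift_mk, if_true]
        ring
      · by_cases h3 : r = j
        · subst h3
          simp only [actV, Sym2.lift_mk, if_true, if_neg h2]
          ring
        · simp only [actV, Sym2.lift_mk, if_true, if_neg h2, if_neg h3]
          ring
    · by_cases h1' : p = j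
      · subst h1'
        by_cases h2 : r = i
        · subst h2
          simp only [actV, Sym2.lift_mk, if_true, if_neg h1]
          ring
        · by_cases h3 : r = p
          · subst h3
            simp only [actV, Sym2.lift_mk, if_true, if_neg h1]
            ring
          · simp only [actV, Sym2.lift_mk, if_true, if_neg h1, if_neg h2, if_neg h3]
            ring
      · by_cases h2 : r = i
        · subst h2
          simp only [actV, Sym2.lift_mk, if_true, if_neg h1, if_neg h1']
          ring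
        · by_cases h3 : r = j
          · subst h3
            simp only [actV, Sym2.lift_mk, if_true, if_neg h1, if_neg h1', if_neg h2]
            ring
          · simp only [actV, Sym2.lift_mk, if_neg h1, if_neg h1', if_neg h2, if_neg h3]

private theorem b3_act1_one {R : Type} [CommRing R] {W : Type} [DecidableEq W] (q c : R)
    (i j : W) (p : W) :
    act1 q 1 1 i j (fun _ => c) p = c := by
  unfold act1
  split_ifs <;> ring

private theorem b3_actE_eps {K : Type} [Field K] {W : Type} [DecidableEq W] (q t : K)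
    (ht : t ≠ 0) (lv em : Bool) (i j : W) (hij : i ≠ j) :
    actE q t lv false em i j (eps t lv : St W → K) = eps t lv := by
  cases lv with
  | false =>
    funext st
    rcases st with _ | (z | p)
    · cases em <;> simp [actE, act1E, eps]
    · simp [actE, act1E, eps]
    · have := b3_act1_one q (1 : K) i j p
      simpa [actE, act1E, eps] using this
  | true =>
    funext st
    rcases st with _ | (z | p)
    · cases em
      · simp [actE, act2E, eps]
      · simp only [actE, act2E, eps, if_true]
        simp only [Bool.false_eq_true, if_false]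
        ring
    · have := b3_actV_one q t i j hij z
      simpa [actE, act2E, eps] using this
    · cases em
      · have := b3_act1_one q t i j p
        simpa [actE, act2E, eps] using this
      · simp only [actE, act2E, eps, if_true]
        simp only [Bool.false_eq_true, if_false]
        split_ifs
        · field_simp
          ring
        · field_simp
          ring
        · ring

private theorem b3_actE_none {K : Type} [Field K] {W : Type} [DecidableEq W] (q t : K)
    (lv cut : Bool) (i j : W) (F : St W → K) :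
    actE q t lv cut false i j F none = F none := by
  cases lv <;> simp [actE, act1E, act2E]

variable {S W : Type} [DecidableEq S] [Fintype W] [DecidableEq W] (A : ArcSys S W)

theorem eps_inv (b a : S) (lv : Bool) (r : S) (h : r ≠ b) :
    rac (modE A b a lv) (eps tK lv) (A.x r) = eps tK lv := by
  rw [modE_x]
  have hb : decide (r = b) = false := decide_eq_false h
  rw [hb]
  exact b3_actE_eps qK tK tK_ne lv _ _ _ (A.ne r)

theorem none_inv (b a : S) (lv : Bool) (r : S) (h : r ≠ a) (F : St W → KK) :
    rac (modE A b a lv) F (A.x r) none = F none := by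
  rw [modE_x]
  have hb : decide (r = a) = false := decide_eq_false h
  rw [hb]
  exact b3_actE_none qK tK lv _ _ _ F

theorem Psi_one (b a : S) (lv d : Bool) : Psi A b a lv d 1 = 0 := by
  unfold Psi
  rw [rac_one]
  rfl

private theorem b3_eps_par (b a : S) (lv : Bool) (u : A.G) (hu : u ∈ A.par {b}ᶜ) :
    rac (modE A b a lv) (eps tK lv) u = eps tK lv := by
  unfold ArcSys.par at hu
  induction hu using Subgroup.closure_induction with
  | mem x hx =>
    obtain ⟨r, hr, rfl⟩ := hx
    exact eps_inv A b a lv r hr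
  | one => exact rac_one _ _
  | mul x y _ _ hx hy => rw [rac_mul, hx, hy]
  | inv x _ hx =>
    have h := rac_inv_mul (modE A b a lv) (eps tK lv) x
    rw [hx] at h
    exact h

private theorem b3_none_par (b a : S) (lv : Bool) (v : A.G) (hv : v ∈ A.par {a}ᶜ) :
    ∀ F : St W → KK, rac (modE A b a lv) F v none = F none := by
  unfold ArcSys.par at hv
  induction hv using Subgroup.closure_induction with
  | mem x hx =>
    obtain ⟨r, hr, rfl⟩ := hx
    exact none_inv A b a lv r hr
  | one => intro F; rw [rac_one]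
  | mul x y _ _ hx hy => intro F; rw [rac_mul, hy, hx]
  | inv x _ hx =>
    intro F
    have h := hx (rac (modE A b a lv) F x⁻¹)
    rw [← rac_mul, inv_mul_cancel, rac_one] at h
    exact h.symm

omit [DecidableEq S] [Fintype W] [DecidableEq W] in
private theorem b3_theta_par (X : Set S) (u : A.G) (hu : u ∈ A.par X) :
    theta A u ∈ A.rev.par X := by
  unfold ArcSys.par at hu
  induction hu using Subgroup.closure_induction with
  | mem x hx =>
    obtain ⟨r, hr, rfl⟩ := hx
    rw [theta_x]
    exact Subgroup.inv_mem _ (Subgroup.subset_closure ⟨r, hr, rfl⟩)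
  | one => rw [map_one]; exact Subgroup.one_mem _
  | mul x y _ _ hx hy => rw [map_mul]; exact Subgroup.mul_mem _ hx hy
  | inv x _ hx => rw [map_inv]; exact Subgroup.inv_mem _ hx

private theorem b3_Psi_left_false (b a : S) (lv : Bool) (u g : A.G) (hu : u ∈ A.par {b}ᶜ) :
    Psi A b a lv false (u * g) = Psi A b a lv false g := by
  have h : modD A b a lv false = modE A b a lv := rfl
  unfold Psi
  rw [rac_mul, h, b3_eps_par A b a lv u hu]

private theorem b3_Psi_right_false (b a : S) (lv : Bool) (g v : A.G) (hv : v ∈ A.par {a}ᶜ) :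
    Psi A b a lv false (g * v) = Psi A b a lv false g := by
  have h : modD A b a lv false = modE A b a lv := rfl
  unfold Psi
  rw [rac_mul, h, b3_none_par A b a lv v hv]

theorem Psi_left (b a : S) (lv d : Bool) (u g : A.G) (hu : u ∈ A.par {b}ᶜ) :
    Psi A b a lv d (u * g) = Psi A b a lv d g := by
  cases d with
  | false => exact b3_Psi_left_false A b a lv u g hu
  | true =>
    rw [Psi_true, Psi_true, map_mul]
    exact b3_Psi_left_false A.rev b a lv _ _ (b3_theta_par A _ u hu)

theorem Psi_right (b a : S) (lv d : Bool) (g v : A.G) (hv : v ∈ A.par {a}ᶜ) :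
    Psi A b a lv d (g * v) = Psi A b a lv d g := by
  cases d with
  | false => exact b3_Psi_right_false A b a lv g v hv
  | true =>
    rw [Psi_true, Psi_true, map_mul]
    exact b3_Psi_right_false A.rev b a lv _ _ (b3_theta_par A _ v hv)

end Pool.Agent.VB

end Row_B3
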