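import Pool.Agent.Lib.MP_7c21d5_al.VB01_Modules

set_option autoImplicit false

section Row_Seq

/-!
Braid sequences in an arbitrary group (definitions and rows G1-G6).
-/

namespace Pool.Agent.VB

open FreeGroup (of)

/-- `f 0, ..., f (n-1)` satisfy the braid relations -/
structure BSeq {H : Type} [Group H] (f : ℕ → H) (n : ℕ) : Prop where
  braid : ∀ k, k + 1 < n → f k * f (k + 1) * f k = f (k + 1) * f k * f (k + 1)
  comm : ∀ i j, i + 2 ≤ j → j < n → f i * f j = f j * f i

/-- `f 0 * f 1 * ... * f (k-1)` -/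
def PP {H : Type} [Group H] (f : ℕ → H) : ℕ → H
  | 0 => 1
  | k + 1 => PP f k * f k

/-- `f (k-1) * ... * f 1 * f 0` -/
def RR {H : Type} [Group H] (f : ℕ → H) : ℕ → H
  | 0 => 1
  | k + 1 => f k * RR f k

theorem bseq_sg (n : ℕ) : BSeq (sg n) n :=
  ⟨fun k h => sg_braid n k h, fun i j h _ => sg_comm n i j h⟩

end Pool.Agent.VB

end Row_Seq

section Row_F1

set_option linter.unusedSimpArgs false

/-!
ROW F1: the automorphisms `bact i` of the free group satisfy the braid relations.
ext on generators (MulEquiv / MonoidHom.ext, FreeGroup.ext_hom), cases j = i, i+1, i+2, other; simp + group.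
-/

namespace Pool.Agent.VB

open FreeGroup (of)

theorem F1_ext (f g : MulAut (FreeGroup ℕ)) (h : ∀ j, f (of j) = g (of j)) : f = g := by
  apply MulEquiv.toMonoidHom_injective
  apply FreeGroup.ext_hom
  exact h

theorem F1_of (i j : ℕ) : bact i (of j) = bact0 i j := by
  simp [bact]

theorem F1_i (i : ℕ) : bact i (of i) = of (i + 1) := by
  simp [F1_of, bact0]

theorem F1_i1 (i : ℕ) : bact i (of (i + 1)) = (of (i + 1))⁻¹ * of i * of (i + 1) := by
  simp [F1_of, bact0]

theorem F1_ne (i j : ℕ) (h1 : j ≠ i) (h2 : j ≠ i + 1) : bact i (of j) = of j := by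
  simp [F1_of, bact0, h1, h2]

theorem bact_braid (i : ℕ) :
    bact i * bact (i + 1) * bact i = bact (i + 1) * bact i * bact (i + 1) := by
  apply F1_ext
  intro j
  simp only [MulAut.mul_apply]
  have e1 : bact i (of (i + 1 + 1)) = of (i + 1 + 1) := F1_ne _ _ (by omega) (by omega)
  have e2 : bact (i + 1) (of i) = of i := F1_ne _ _ (by omega) (by omega)
  by_cases h0 : j = i
  · subst h0
    simp only [F1_i, F1_i1, e1, e2, map_mul, map_inv]
  · by_cases h1 : j = i + 1
    · subst h1
      simp only [F1_i, F1_i1, e1, e2, map_mul, map_inv]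
      try group
    · by_cases h2 : j = i + 1 + 1
      · subst h2
        simp only [F1_i, F1_i1, e1, e2, map_mul, map_inv]
        group
      · have e3 : bact i (of j) = of j := F1_ne _ _ h0 h1
        have e4 : bact (i + 1) (of j) = of j := F1_ne _ _ h1 h2
        simp only [e3, e4]

theorem bact_comm (i j : ℕ) (h : i + 2 ≤ j) : bact i * bact j = bact j * bact i := by
  apply F1_ext
  intro k
  simp only [MulAut.mul_apply]
  have e1 : bact i (of j) = of j := F1_ne _ _ (by omega) (by omega)
  have e2 : bact i (of (j + 1)) = of (j + 1) := F1_ne _ _ (by omega) (by omega)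
  have e3 : bact j (of i) = of i := F1_ne _ _ (by omega) (by omega)
  have e4 : bact j (of (i + 1)) = of (i + 1) := F1_ne _ _ (by omega) (by omega)
  by_cases h0 : k = i
  · subst h0
    simp only [F1_i, F1_i1, e1, e2, e3, e4, map_mul, map_inv]
  · by_cases h1 : k = i + 1
    · subst h1
      simp only [F1_i, F1_i1, e1, e2, e3, e4, map_mul, map_inv]
    · by_cases h2 : k = j
      · subst h2
        simp only [F1_i, F1_i1, e1, e2, e3, e4, map_mul, map_inv]
      · by_cases h3 : k = j + 1
        · subst h3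
          simp only [F1_i, F1_i1, e1, e2, e3, e4, map_mul, map_inv]
        · have e5 : bact i (of k) = of k := F1_ne _ _ h0 h1
          have e6 : bact j (of k) = of k := F1_ne _ _ h2 h3
          simp only [e5, e6]

end Pool.Agent.VB

end Row_F1

section Row_G1

/-!
ROW G1: `delta f_j = f_(j+1) delta`, `delta^2 f_(n-1) = f_0 delta^2`.
With delta = PP f n.  First: PP f k commutes with f j for j ≥ k+1; f_(j+1) for j+1 < n:
PP f n = PP f j * f j * f (j+1) * rest.  Second (n = k+1): let c = PP f (k+1) = f0...fk,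
c' = f1...fk, c'' = f0...f(k-1): c = f0 c' = c'' fk, c c'' = c' c (from the first part), so
c^2 fk = f0 c' c fk = f0 c c'' fk = f0 c^2.
-/

namespace Pool.Agent.VB

open FreeGroup (of)

variable {H : Type} [Group H]

theorem PP_comm_ge (f : ℕ → H) (n k j : ℕ) (h : BSeq f n) (hk : k + 1 ≤ j) (hj : j < n) :
    PP f k * f j = f j * PP f k := by
  induction k with
  | zero => simp [PP]
  | succ k ih =>
    have h1 := ih (by omega)
    have h2 := h.comm k j (by omega) hj
    calc PP f (k + 1) * f j = PP f k * (f k * f j) := by rw [PP, mul_assoc]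
      _ = PP f k * f j * f k := by rw [h2, mul_assoc]
      _ = f j * PP f (k + 1) := by rw [h1, PP, mul_assoc]

theorem RR_comm_ge (f : ℕ → H) (n k j : ℕ) (h : BSeq f n) (hk : k + 1 ≤ j) (hj : j < n) :
    RR f k * f j = f j * RR f k := by
  induction k with
  | zero => simp [RR]
  | succ k ih =>
    have h1 := ih (by omega)
    have h2 := h.comm k j (by omega) hj
    calc RR f (k + 1) * f j = f k * (RR f k * f j) := by rw [RR, mul_assoc]
      _ = f k * f j * RR f k := by rw [h1, mul_assoc]
      _ = f j * RR f (k + 1) := by rw [h2, RR, mul_assoc]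

theorem PP_conj (f : ℕ → H) (n k j : ℕ) (h : BSeq f n) (hk : k ≤ n) (hj : j + 1 < k) :
    PP f k * f j = f (j + 1) * PP f k := by
  induction k with
  | zero => omega
  | succ k ih =>
    rcases Nat.lt_or_ge (j + 1) k with h1 | h1
    · have h2 := ih (by omega) h1
      have h3 := h.comm j k (by omega) (by omega)
      calc PP f (k + 1) * f j = PP f k * (f k * f j) := by rw [PP, mul_assoc]
        _ = PP f k * f j * f k := by rw [← h3, mul_assoc]
        _ = f (j + 1) * PP f (k + 1) := by rw [h2, PP, mul_assoc]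
    · have h2 : k = j + 1 := by omega
      subst h2
      have h3 := PP_comm_ge f n j (j + 1) h le_rfl (by omega)
      have h4 := h.braid j (by omega)
      calc PP f (j + 1 + 1) * f j = PP f j * (f j * f (j + 1) * f j) := by
            simp only [PP, mul_assoc]
        _ = PP f j * f (j + 1) * (f j * f (j + 1)) := by rw [h4]; simp only [mul_assoc]
        _ = f (j + 1) * PP f (j + 1 + 1) := by rw [h3]; simp only [PP, mul_assoc]

theorem RR_conj (f : ℕ → H) (n k j : ℕ) (h : BSeq f n) (hk : k ≤ n) (hj : j + 1 < k) :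
    RR f k * f (j + 1) = f j * RR f k := by
  induction k with
  | zero => omega
  | succ k ih =>
    rcases Nat.lt_or_ge (j + 1) k with h1 | h1
    · have h2 := ih (by omega) h1
      have h3 := h.comm j k (by omega) (by omega)
      calc RR f (k + 1) * f (j + 1) = f k * (RR f k * f (j + 1)) := by rw [RR, mul_assoc]
        _ = f k * f j * RR f k := by rw [h2, mul_assoc]
        _ = f j * RR f (k + 1) := by rw [← h3, RR, mul_assoc]
    · have h2 : k = j + 1 := by omega
      subst h2
      have h3 := RR_comm_ge f n j (j + 1) h le_rfl (by omega)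
      have h4 := h.braid j (by omega)
      calc RR f (j + 1 + 1) * f (j + 1) = f (j + 1) * f j * (RR f j * f (j + 1)) := by
            simp only [RR, mul_assoc]
        _ = f (j + 1) * f j * f (j + 1) * RR f j := by rw [h3]; simp only [mul_assoc]
        _ = f j * RR f (j + 1 + 1) := by rw [← h4]; simp only [RR, mul_assoc]

private theorem G1_succ_left (f : ℕ → H) (n : ℕ) : PP f (n + 1) = f 0 * PP (fun i => f (i + 1)) n := by
  induction n with
  | zero => simp [PP]
  | succ n ih =>
    rw [PP, ih, mul_assoc]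
    rfl

private theorem G1_shift (f : ℕ → H) (n k m : ℕ) (h : BSeq f n) (hk : k + 1 ≤ n) (hm : m ≤ k) :
    PP f (k + 1) * PP f m = PP (fun i => f (i + 1)) m * PP f (k + 1) := by
  induction m with
  | zero => simp [PP]
  | succ m ih =>
    have h1 := ih (by omega)
    have h2 := PP_conj f n (k + 1) m h hk (by omega)
    calc PP f (k + 1) * PP f (m + 1) = PP f (k + 1) * PP f m * f m := by
          rw [show PP f (m + 1) = PP f m * f m from rfl, mul_assoc]
      _ = PP (fun i => f (i + 1)) m * (PP f (k + 1) * f m) := by rw [h1, mul_assoc]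
      _ = PP (fun i => f (i + 1)) m * f (m + 1) * PP f (k + 1) := by rw [h2, mul_assoc]
      _ = _ := rfl

theorem PP_sq (f : ℕ → H) (n k : ℕ) (h : BSeq f n) (hk : k + 1 ≤ n) :
    PP f (k + 1) * PP f (k + 1) * f k = f 0 * (PP f (k + 1) * PP f (k + 1)) := by
  have h1 := G1_shift f n k k h hk le_rfl
  have h2 := G1_succ_left f k
  have h3 : PP f (k + 1) = PP f k * f k := rfl
  calc PP f (k + 1) * PP f (k + 1) * f k
      = (f 0 * PP (fun i => f (i + 1)) k) * PP f (k + 1) * f k := by rw [← h2]
    _ = f 0 * (PP (fun i => f (i + 1)) k * PP f (k + 1)) * f k := by simp only [mul_assoc]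
    _ = f 0 * (PP f (k + 1) * PP f k) * f k := by rw [← h1]
    _ = f 0 * (PP f (k + 1) * (PP f k * f k)) := by simp only [mul_assoc]
    _ = _ := by rw [← h3]

end Pool.Agent.VB

end Row_G1

section Row_G2

/-!
ROW G2: `PP f n ^ (n+1)` commutes with all `f j`, j < n (from PP_conj, PP_sq: move f j up to
f (n-1) with n-1-j factors, then with 2 factors to f 0, then with j factors to f j).
-/

namespace Pool.Agent.VB

open FreeGroup (of)

variable {H : Type} [Group H]

private theorem G2_up (f : ℕ → H) (n j i : ℕ) (h : BSeq f n) (hj : j + i < n) :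
    PP f n ^ i * f j = f (j + i) * PP f n ^ i := by
  induction i with
  | zero => simp
  | succ i ih =>
    rw [pow_succ', mul_assoc, ih (by omega), ← mul_assoc,
      PP_conj f n n (j + i) h le_rfl (by omega), mul_assoc, add_assoc]

theorem PP_central (f : ℕ → H) (n j : ℕ) (h : BSeq f n) (hj : j < n) :
    PP f n ^ (n + 1) * f j = f j * PP f n ^ (n + 1) := by
  obtain ⟨k, rfl⟩ : ∃ k, n = k + 1 := ⟨n - 1, by omega⟩
  obtain ⟨i, rfl⟩ : ∃ i, k = j + i := ⟨k - j, by omega⟩
  have e : j + i + 1 + 1 = j + (2 + i) := by omega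
  have h1 := G2_up f (j + i + 1) j i h (by omega)
  have h2 : PP f (j + i + 1) ^ 2 * f (j + i) = f 0 * PP f (j + i + 1) ^ 2 := by
    rw [pow_two]; exact PP_sq f (j + i + 1) (j + i) h le_rfl
  have h3 := G2_up f (j + i + 1) 0 j h (by omega)
  rw [zero_add] at h3
  rw [e, pow_add, pow_add]
  generalize PP f (j + i + 1) = d at h1 h2 h3 ⊢
  calc d ^ j * (d ^ 2 * d ^ i) * f j = d ^ j * (d ^ 2 * (d ^ i * f j)) := by
        simp only [mul_assoc]
    _ = d ^ j * ((d ^ 2 * f (j + i)) * d ^ i) := by rw [h1]; simp only [mul_assoc]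
    _ = (d ^ j * f 0) * (d ^ 2 * d ^ i) := by rw [h2]; simp only [mul_assoc]
    _ = f j * (d ^ j * (d ^ 2 * d ^ i)) := by rw [h3]; simp only [mul_assoc]

end Pool.Agent.VB

end Row_G2

section Row_G3

/-!
ROW G3: `delta^(n+1) = delta * delta' * C^n`, delta = f0...f(n-1), delta' = f(n-1)...f0,
C = f1...f(n-1) (n ≥ 1).  Proof: delta = f0 C. By induction on k ≤ n + 1: delta^k = RR f k * C^k, since
delta^k f_0 = f_k delta^k (PP_conj).
-/

namespace Pool.Agent.VB

open FreeGroup (of)

variable {H : Type} [Group H]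

theorem PP_succ_left (f : ℕ → H) (n : ℕ) : PP f (n + 1) = f 0 * PP (fun i => f (i + 1)) n := by
  induction n with
  | zero => simp [PP]
  | succ n ih =>
    rw [PP, ih, mul_assoc]
    rfl

private theorem G3_pow (f : ℕ → H) (n k : ℕ) (h : BSeq f (n + 1)) (hk : k ≤ n) :
    PP f (n + 1) ^ k * f 0 = f k * PP f (n + 1) ^ k := by
  induction k with
  | zero => simp
  | succ k ih =>
    have h1 := ih (by omega)
    have h2 := PP_conj f (n + 1) (n + 1) k h le_rfl (by omega)
    calc PP f (n + 1) ^ (k + 1) * f 0 = PP f (n + 1) * (PP f (n + 1) ^ k * f 0) := by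
          rw [pow_succ', mul_assoc]
      _ = PP f (n + 1) * f k * PP f (n + 1) ^ k := by rw [h1, mul_assoc]
      _ = f (k + 1) * PP f (n + 1) ^ (k + 1) := by rw [h2, mul_assoc, ← pow_succ']

private theorem G3_RR (f : ℕ → H) (n k : ℕ) (h : BSeq f (n + 1)) (hk : k ≤ n + 1) :
    PP f (n + 1) ^ k = RR f k * PP (fun i => f (i + 1)) n ^ k := by
  induction k with
  | zero => simp [RR]
  | succ k ih =>
    have h1 := ih (by omega)
    have h2 := G3_pow f n k h (by omega)
    calc PP f (n + 1) ^ (k + 1) = PP f (n + 1) ^ k * PP f (n + 1) := pow_succ _ _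
      _ = PP f (n + 1) ^ k * (f 0 * PP (fun i => f (i + 1)) n) := by rw [← PP_succ_left]
      _ = f k * PP f (n + 1) ^ k * PP (fun i => f (i + 1)) n := by rw [← mul_assoc, h2]
      _ = f k * (RR f k * PP (fun i => f (i + 1)) n ^ k) * PP (fun i => f (i + 1)) n := by rw [h1]
      _ = _ := by rw [RR, pow_succ]; simp only [mul_assoc]

theorem full_twist (f : ℕ → H) (n : ℕ) (h : BSeq f (n + 1)) :
    PP f (n + 1) ^ (n + 2) =
      PP f (n + 1) * RR f (n + 1) * PP (fun i => f (i + 1)) n ^ (n + 1) := by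
  rw [pow_succ', G3_RR f n (n + 1) h le_rfl, mul_assoc]

end Pool.Agent.VB

end Row_G3

section Row_G5

/-!
ROW G5: elementary identities for a pair a b with aba = bab.
(1) a^-1 b^2 a = b a^2 b^-1; (2) b a^2 b a^2 = a^2 b a^2 b;
-/

namespace Pool.Agent.VB

open FreeGroup (of)

variable {H : Type} [Group H]

theorem pair_conj (a b : H) (h : a * b * a = b * a * b) : a⁻¹ * (b * b) * a = b * (a * a) * b⁻¹ := by
  rw [eq_mul_inv_iff_mul_eq, mul_assoc, mul_assoc, inv_mul_eq_iff_eq_mul]
  calc b * b * (a * b) = b * (b * a * b) := by simp only [mul_assoc]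
    _ = b * (a * b * a) := by rw [h]
    _ = (b * a * b) * a := by simp only [mul_assoc]
    _ = (a * b * a) * a := by rw [h]
    _ = a * (b * (a * a)) := by simp only [mul_assoc]

theorem pair_typeB (a b : H) (h : a * b * a = b * a * b) :
    b * (a * a) * b * (a * a) = a * a * b * (a * a) * b := by
  calc b * (a * a) * b * (a * a) = b * a * (a * b * a) * a := by simp only [mul_assoc]
    _ = b * a * (b * a * b) * a := by rw [h]
    _ = (b * a * b) * (a * b * a) := by simp only [mul_assoc]
    _ = (a * b * a) * (b * a * b) := by rw [← h]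
    _ = a * (b * a * b) * a * b := by simp only [mul_assoc]
    _ = a * (a * b * a) * a * b := by rw [h]
    _ = a * a * b * (a * a) * b := by simp only [mul_assoc]

end Pool.Agent.VB

end Row_G5

section Row_Gam

/-!
Definitions: the Artin action `alpha n`, the group `Gam n`, shift.
-/

namespace Pool.Agent.VB

open FreeGroup (of)

theorem alphaAux0 (n k : ℕ) (h : n ≤ k) : (if k < n then bact k else 1) = 1 := by
  rw [if_neg (by omega)]

theorem alphaAux1 (n k : ℕ) (h : k + 1 < n) :
    (if k < n then bact k else 1) * (if k + 1 < n then bact (k + 1) else 1)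
        * (if k < n then bact k else 1) =
      (if k + 1 < n then bact (k + 1) else 1) * (if k < n then bact k else 1)
        * (if k + 1 < n then bact (k + 1) else 1) := by
  rw [if_pos (by omega : k < n), if_pos h]; exact bact_braid k

theorem alphaAux2 (n i j : ℕ) (h : i + 2 ≤ j) :
    (if i < n then bact i else 1) * (if j < n then bact j else 1) =
      (if j < n then bact j else 1) * (if i < n then bact i else 1) := by
  by_cases hi : i < n
  · by_cases hj : j < n
    · rw [if_pos hi, if_pos hj]; exact bact_comm i j h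
    · rw [if_neg hj]; simp
  · rw [if_neg hi]; simp

/-- Artin's action of the braid group on the free group -/
def alpha (n : ℕ) : Br n →* MulAut (FreeGroup ℕ) :=
  brLift n (fun k => if k < n then bact k else 1) (alphaAux0 n) (alphaAux1 n) (alphaAux2 n)

theorem alpha_sg (n k : ℕ) : alpha n (sg n k) = if k < n then bact k else 1 :=
  brLift_sg n _ _ _ _ k

/-- `Gam n = F x| Br n` -/
abbrev Gam (n : ℕ) : Type := FreeGroup ℕ ⋊[alpha n] Br n

/-- `y_k` in `Gam n` -/
def yy (n k : ℕ) : Gam n := SemidirectProduct.inl (of k)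

/-- `s_k` in `Gam n` -/
def ss (n k : ℕ) : Gam n := SemidirectProduct.inr (sg n k)

theorem ss_eq_one (n k : ℕ) (h : n ≤ k) : ss n k = 1 := by simp [ss, sg_eq_one n k h]

theorem bseq_ss (n : ℕ) : BSeq (ss n) n :=
  ⟨fun k h => by simp only [ss, ← map_mul, sg_braid n k h],
   fun i j h _ => by simp only [ss, ← map_mul, sg_comm n i j h]⟩

theorem ss_yy (n j i : ℕ) (h : j < n) :
    ss n j * yy n i * (ss n j)⁻¹ = SemidirectProduct.inl (bact j (of i)) := by
  have := SemidirectProduct.inl_aut (φ := alpha n) (sg n j) (of i)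
  rw [alpha_sg, if_pos h] at this
  simp only [ss, yy, this, map_inv]

/-- the subgroup generated by `s_k` (all k) and `y_k`, `k ≤ n` -/
def GamP (n : ℕ) : Subgroup (Gam n) :=
  Subgroup.closure ({g | ∃ k, g = ss n k} ∪ {g | ∃ k, k ≤ n ∧ g = yy n k})

/-- `c = s_0 ... s_(n-1)` -/
def cG (n : ℕ) : Gam n := PP (ss n) n

/-- `tau = y_0 s_0 ... s_(n-1)` -/
def tauG (n : ℕ) : Gam n := yy n 0 * cG n

/-- `omega_r = y_0 ... y_(r-1)` in the free group -/
def om (r : ℕ) : FreeGroup ℕ := PP (fun i => (of i : FreeGroup ℕ)) r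

/-- kill `y_0`, shift the others -/
def pi0 : FreeGroup ℕ →* FreeGroup ℕ :=
  FreeGroup.lift (fun k => if k = 0 then 1 else of (k - 1))

end Pool.Agent.VB

end Row_Gam

section Row_Iota0

/-!
Definition of `Ydef n k = t_k^-1 sigma_k^2 t_k` in `Br (n+1)`, t_k = sigma_(k-1)...sigma_0.
-/

namespace Pool.Agent.VB

open FreeGroup (of)

/-- `t_k^-1 sigma_k^2 t_k` in `Br (n+1)` -/
def Ydef (n k : ℕ) : Br (n + 1) :=
  (RR (sg (n + 1)) k)⁻¹ * (sg (n + 1) k * sg (n + 1) k) * RR (sg (n + 1)) k

/-- `s_k -> sigma_(k+1)` -/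
def shiftBr (n : ℕ) : Br n →* Br (n + 1) :=
  brLift n (fun k => sg (n + 1) (k + 1)) (fun k h => sg_eq_one (n + 1) (k + 1) (by omega))
    (fun k h => sg_braid (n + 1) (k + 1) (by omega)) (fun i j h => sg_comm (n + 1) _ _ (by omega))

theorem shiftBr_sg (n k : ℕ) : shiftBr n (sg n k) = sg (n + 1) (k + 1) :=
  brLift_sg n _ _ _ _ k

end Pool.Agent.VB

end Row_Iota0

section Row_I1

/-!
ROW I1: sigma_(j+1) Y_i sigma_(j+1)^-1 for i = j and i ≠ j, j+1.
(1) i = j: Y_(j+1) = t_j^-1 sigma_j^-1 sigma_(j+1)^2 sigma_j t_j (RR f (j+1) = f j * RR f j), pair_conj with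
a = sigma_j, b = sigma_(j+1), and t_j commutes with sigma_(j+1) (RR_comm_ge).
(2) i < j: Y_i lies in the group of sigma_0..sigma_i; commutes with sigma_(j+1), j+1 ≥ i+2.
(3) i ≥ j+2: t_i sigma_(j+1) = sigma_j t_i (RR_conj; needs i ≤ n+1), sigma_j commutes with sigma_i;
if i ≥ n+1 then sigma_i = 1 and Y_i = 1.
-/

namespace Pool.Agent.VB

open FreeGroup (of)

theorem Ydef_succ (n j : ℕ) (h : j < n) :
    sg (n + 1) (j + 1) * Ydef n j * (sg (n + 1) (j + 1))⁻¹ = Ydef n (j + 1) := by
  have hc := RR_comm_ge (sg (n + 1)) (n + 1) j (j + 1) (bseq_sg (n + 1)) le_rfl (by omega)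
  have hp := pair_conj (sg (n + 1) j) (sg (n + 1) (j + 1)) (sg_braid (n + 1) j (by omega))
  have hR : RR (sg (n + 1)) (j + 1) = sg (n + 1) j * RR (sg (n + 1)) j := rfl
  unfold Ydef
  rw [hR]
  generalize RR (sg (n + 1)) j = t at *
  generalize sg (n + 1) (j + 1) = s at *
  generalize sg (n + 1) j = a at *
  have hc' : t⁻¹ * s = s * t⁻¹ := by
    rw [inv_mul_eq_iff_eq_mul, ← mul_assoc, hc, mul_assoc, mul_inv_cancel, mul_one]
  have hc'' : s⁻¹ * t = t * s⁻¹ := by
    rw [inv_mul_eq_iff_eq_mul, ← mul_assoc, ← hc, mul_assoc, mul_inv_cancel, mul_one]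
  calc s * (t⁻¹ * (a * a) * t) * s⁻¹ = (s * t⁻¹) * (a * a) * (t * s⁻¹) := by group
    _ = (t⁻¹ * s) * (a * a) * (s⁻¹ * t) := by rw [hc', hc'']
    _ = t⁻¹ * (s * (a * a) * s⁻¹) * t := by group
    _ = t⁻¹ * (a⁻¹ * (s * s) * a) * t := by rw [hp]
    _ = (a * t)⁻¹ * (s * s) * (a * t) := by group

theorem Ydef_other (n j i : ℕ) (h : j < n) (h1 : i ≠ j) (h2 : i ≠ j + 1) :
    sg (n + 1) (j + 1) * Ydef n i * (sg (n + 1) (j + 1))⁻¹ = Ydef n i := by
  rw [mul_inv_eq_iff_eq_mul]
  rcases Nat.lt_or_ge i j with hi | hi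
  · -- `i < j`
    have hc := RR_comm_ge (sg (n + 1)) (n + 1) i (j + 1) (bseq_sg (n + 1)) (by omega) (by omega)
    have hs := sg_comm (n + 1) i (j + 1) (by omega)
    have c1 : Commute (sg (n + 1) (j + 1)) (RR (sg (n + 1)) i) := hc.symm
    have c2 : Commute (sg (n + 1) (j + 1)) (sg (n + 1) i) := hs.symm
    exact ((c1.inv_right.mul_right (c2.mul_right c2)).mul_right c1)
  · rcases Nat.lt_or_ge n i with hn | hn
    · have h1' : sg (n + 1) i = 1 := sg_eq_one (n + 1) i (by omega)
      unfold Ydef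
      rw [h1']
      simp
    · have hc := RR_conj (sg (n + 1)) (n + 1) i j (bseq_sg (n + 1)) (by omega) (by omega)
      have hs : sg (n + 1) j * sg (n + 1) i = sg (n + 1) i * sg (n + 1) j :=
        sg_comm (n + 1) j i (by omega)
      unfold Ydef
      generalize RR (sg (n + 1)) i = t at *
      generalize sg (n + 1) (j + 1) = s at *
      generalize sg (n + 1) j = b at *
      generalize sg (n + 1) i = a at *
      have hc' : t⁻¹ * b = s * t⁻¹ := by
        rw [inv_mul_eq_iff_eq_mul, ← mul_assoc, hc, mul_assoc, mul_inv_cancel, mul_one]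
      calc s * (t⁻¹ * (a * a) * t) = (s * t⁻¹) * (a * a) * t := by group
        _ = t⁻¹ * (b * a) * a * t := by rw [← hc']; group
        _ = t⁻¹ * (a * b) * a * t := by rw [hs]
        _ = t⁻¹ * a * (b * a) * t := by group
        _ = t⁻¹ * a * (a * b) * t := by rw [hs]
        _ = t⁻¹ * (a * a) * (b * t) := by group
        _ = t⁻¹ * (a * a) * t * s := by rw [← hc]; group

end Pool.Agent.VB

end Row_I1

section Row_I2

/-!
ROW I2: sigma_(j+1) Y_(j+1) sigma_(j+1)^-1 = Y_(j+1)^-1 Y_j Y_(j+1).  With s = sigma_(j+1),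
Y = Y_j: Y_(j+1) = s Y s^-1 (I1) and s Y s Y = Y s Y s (conjugate pair_typeB, a = sigma_j, b = s, by t_j; t_j commutes
with s).
-/

namespace Pool.Agent.VB

open FreeGroup (of)

private theorem I2_conj {H : Type} [Group H] (a b t : H) (h : b * (a * a) * b * (a * a) = (a * a) * b * (a * a) * b)
    (ht : t * b = b * t) :
    b * (t⁻¹ * (a * a) * t) * b * (t⁻¹ * (a * a) * t) = (t⁻¹ * (a * a) * t) * b * (t⁻¹ * (a * a) * t) * b := by
  have ht' : b * t⁻¹ = t⁻¹ * b := by
    rw [eq_inv_mul_iff_mul_eq, ← mul_assoc, ht, mul_assoc, mul_inv_cancel, mul_one]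
  have e1 : b * (t⁻¹ * (a * a) * t) * b * (t⁻¹ * (a * a) * t) = t⁻¹ * (b * (a * a) * b * (a * a)) * t := by
    calc b * (t⁻¹ * (a * a) * t) * b * (t⁻¹ * (a * a) * t)
        = (b * t⁻¹) * (a * a) * (t * b) * t⁻¹ * (a * a) * t := by group
      _ = (t⁻¹ * b) * (a * a) * (b * t) * t⁻¹ * (a * a) * t := by rw [ht', ht]
      _ = t⁻¹ * (b * (a * a) * b * (a * a)) * t := by group
  have e2 : (t⁻¹ * (a * a) * t) * b * (t⁻¹ * (a * a) * t) * b = t⁻¹ * ((a * a) * b * (a * a) * b) * t := by
    calc (t⁻¹ * (a * a) * t) * b * (t⁻¹ * (a * a) * t) * b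
        = t⁻¹ * (a * a) * (t * b) * t⁻¹ * (a * a) * (t * b) := by group
      _ = t⁻¹ * (a * a) * (b * t) * t⁻¹ * (a * a) * (b * t) := by rw [ht]
      _ = t⁻¹ * ((a * a) * b * (a * a) * b) * t := by group
  rw [e1, e2, h]

theorem Ydef_typeB (n j : ℕ) (h : j < n) :
    sg (n + 1) (j + 1) * Ydef n j * sg (n + 1) (j + 1) * Ydef n j =
      Ydef n j * sg (n + 1) (j + 1) * Ydef n j * sg (n + 1) (j + 1) := by
  have hab := sg_braid (n + 1) j (by omega)
  exact I2_conj (sg (n + 1) j) (sg (n + 1) (j + 1)) (RR (sg (n + 1)) j) (pair_typeB _ _ hab)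
    (RR_comm_ge (sg (n + 1)) (n + 1) j (j + 1) (bseq_sg (n + 1)) le_rfl (by omega))

theorem Ydef_mid (n j : ℕ) (h : j < n) :
    sg (n + 1) (j + 1) * Ydef n (j + 1) * (sg (n + 1) (j + 1))⁻¹ =
      (Ydef n (j + 1))⁻¹ * Ydef n j * Ydef n (j + 1) := by
  have h1 := Ydef_succ n j h
  have h2 := Ydef_typeB n j h
  obtain ⟨s, hs⟩ : ∃ s, s = sg (n + 1) (j + 1) := ⟨_, rfl⟩
  obtain ⟨Y, hY⟩ : ∃ Y, Y = Ydef n j := ⟨_, rfl⟩
  rw [← hs, ← hY] at h1 h2 ⊢
  rw [← h1]
  have h3 : (s * Y * s⁻¹) * (s * (s * Y * s⁻¹) * s⁻¹) = Y * (s * Y * s⁻¹) := by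
    calc (s * Y * s⁻¹) * (s * (s * Y * s⁻¹) * s⁻¹) = (s * Y * s * Y) * s⁻¹ * s⁻¹ := by group
      _ = (Y * s * Y * s) * s⁻¹ * s⁻¹ := by rw [h2]
      _ = Y * (s * Y * s⁻¹) := by group
  rw [mul_assoc (s * Y * s⁻¹)⁻¹, ← h3, inv_mul_cancel_left]

end Pool.Agent.VB

end Row_I2

section Row_I3

/-!
ROW I3: compatibility needed for `SemidirectProduct.lift`.  For g = sg n j (j < n) check on the
generators of the free group with Ydef_succ, Ydef_other, Ydef_mid and bact_of / bact0; for j ≥ n both sides are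
trivial (sg n j = 1).  The set of g for which it holds is a subgroup; it contains the generators; use
PresentedGroup.induction_on / closure_range_of.
-/

namespace Pool.Agent.VB

open FreeGroup (of)

theorem I3_gen (n j : ℕ) (x : FreeGroup ℕ) :
    FreeGroup.lift (Ydef n) (alpha n (sg n j) x) =
      shiftBr n (sg n j) * FreeGroup.lift (Ydef n) x * (shiftBr n (sg n j))⁻¹ := by
  by_cases hj : j < n
  · rw [alpha_sg, if_pos hj, shiftBr_sg]
    have h : (FreeGroup.lift (Ydef n)).comp (bact j).toMonoidHom =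
        (MulAut.conj (sg (n + 1) (j + 1))).toMonoidHom.comp (FreeGroup.lift (Ydef n)) := by
      ext i
      by_cases h1 : i = j
      · subst h1
        simp [bact_self, Ydef_succ n i hj]
      · by_cases h2 : i = j + 1
        · subst h2
          simp [bact_succ, Ydef_mid n j hj]
        · simp [bact_ne j i h1 h2, Ydef_other n j i hj h1 h2]
    exact DFunLike.congr_fun h x
  · have h1 : sg n j = 1 := sg_eq_one n j (by omega)
    rw [h1]
    simp

theorem I3_all (n : ℕ) (g : Br n) : ∀ x : FreeGroup ℕ,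
    FreeGroup.lift (Ydef n) (alpha n g x) =
      shiftBr n g * FreeGroup.lift (Ydef n) x * (shiftBr n g)⁻¹ := by
  have hg : g ∈ Subgroup.closure (Set.range (PresentedGroup.of : ℕ → Br n)) := by
    rw [PresentedGroup.closure_range_of]
    exact Subgroup.mem_top g
  induction hg using Subgroup.closure_induction with
  | mem y hy =>
    obtain ⟨j, rfl⟩ := hy
    exact I3_gen n j
  | one => intro x; simp
  | mul y z _ _ hy hz =>
    intro x
    rw [map_mul, MulAut.mul_apply, hy, hz, map_mul]
    group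
  | inv y _ hy =>
    intro x
    have h := hy (alpha n y⁻¹ x)
    have h2 : alpha n y (alpha n y⁻¹ x) = x := by
      rw [← MulAut.mul_apply, ← map_mul]
      simp
    rw [h2] at h
    rw [h]
    simp only [map_inv]
    group

theorem iota_compat (n : ℕ) (g : Br n) :
    (FreeGroup.lift (Ydef n)).comp (alpha n g).toMonoidHom =
      (MulAut.conj (shiftBr n g)).toMonoidHom.comp (FreeGroup.lift (Ydef n)) := by
  refine MonoidHom.ext fun x => ?_
  exact I3_all n g x

end Pool.Agent.VB

end Row_I3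

section Row_Iota

/-!
Definition of `iota n : Gam n → Br (n+1)`.
-/

namespace Pool.Agent.VB

open FreeGroup (of)

/-- `s_k -> sigma_(k+1)`, `y_k -> t_k^-1 sigma_k^2 t_k` -/
def iota (n : ℕ) : Gam n →* Br (n + 1) :=
  SemidirectProduct.lift (FreeGroup.lift (Ydef n)) (shiftBr n) (iota_compat n)

theorem iota_ss (n k : ℕ) : iota n (ss n k) = sg (n + 1) (k + 1) := by
  simp [iota, ss, shiftBr_sg]

theorem iota_yy (n k : ℕ) : iota n (yy n k) = Ydef n k := by
  simp [iota, yy]

end Pool.Agent.VB

end Row_Iota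

section Row_Th0

/-!
Definition of the maps `thF n k` on `N × Gam n`.
-/

namespace Pool.Agent.VB

open FreeGroup (of)

/-- the generator `sigma_k` of `Br (n+1)` acts on pairs (position of strand 0, element of Gam n) -/
def thF (n k : ℕ) (p : ℕ × Gam n) : ℕ × Gam n :=
  if n + 1 < p.1 ∨ n < k then p
  else if p.1 = k then (k + 1, p.2)
  else if p.1 = k + 1 then (k, yy n k * p.2)
  else if p.1 < k then (p.1, ss n (k - 1) * p.2)
  else (p.1, ss n k * p.2)

end Pool.Agent.VB

end Row_Th0

section Row_T1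

/-!
ROW T1: `thF n k` is bijective and the relations.
Relations: funext/ext on (j,g); cases on the position j relative to k (j < k, k, k+1, k+2, > k+2) and j ≤ n+1.
braid (k+1 < n+1): e.g. j = k: (k, g) -> k+1 -> k+2 -> (k+2, s_k g) on one side: thF k, thF (k+1), thF k gives
(k+2, s_k g) [position k+2 ≥ k+2 for sigma_k: s_k]; other side thF (k+1) [j = k < k+1: s_k], thF k -> k+1,
thF (k+1) -> k+2: (k+2, s_k g).  j = k+1, k+2: use ss_yy: s_k y_k s_k^-1 = y_(k+1), y_(k+1) commutes etc. (bact).
j < k: ss (k-1), ss k braid relation (bseq_ss, k < n... k+1 ≤ n); j ≥ k+3 (then k+1 ≤ n-1).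
Order: the composite perm is sigma_k * sigma_(k+1) * sigma_k, i.e. thF k (thF (k+1) (thF k p)) on both sides.
-/

namespace Pool.Agent.VB

open FreeGroup (of)

theorem thF_bij (n k : ℕ) : Function.Bijective (thF n k) := by
  rw [Function.bijective_iff_has_inverse]
  refine ⟨fun p => if n + 1 < p.1 ∨ n < k then p
    else if p.1 = k + 1 then (k, p.2)
    else if p.1 = k then (k + 1, (yy n k)⁻¹ * p.2)
    else if p.1 < k then (p.1, (ss n (k - 1))⁻¹ * p.2)
    else (p.1, (ss n k)⁻¹ * p.2), ?_, ?_⟩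
  · rintro ⟨j, g⟩
    by_cases h0 : n + 1 < j ∨ n < k
    · simp only [thF, if_pos h0]
    · have h0' : ¬ (n + 1 < k + 1 ∨ n < k) := by omega
      have h0'' : ¬ (n + 1 < k ∨ n < k) := by omega
      by_cases h1 : j = k
      · subst h1
        simp only [thF, if_neg h0, if_true, if_neg h0']
      · by_cases h2 : j = k + 1
        · subst h2
          simp only [thF, if_neg h0, if_neg h1, if_true, if_neg h0'', if_neg (by omega : ¬ k = k + 1),
            inv_mul_cancel_left]
        · by_cases h3 : j < k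
          · simp only [thF, if_neg h0, if_neg h1, if_neg h2, if_pos h3, inv_mul_cancel_left]
          · simp only [thF, if_neg h0, if_neg h1, if_neg h2, if_neg h3, inv_mul_cancel_left]
  · rintro ⟨j, g⟩
    by_cases h0 : n + 1 < j ∨ n < k
    · simp only [thF, if_pos h0]
    · have h0' : ¬ (n + 1 < k + 1 ∨ n < k) := by omega
      have h0'' : ¬ (n + 1 < k ∨ n < k) := by omega
      by_cases h2 : j = k + 1
      · subst h2
        simp only [thF, if_neg h0, if_true, if_neg h0'']
      · by_cases h1 : j = k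
        · subst h1
          simp only [thF, if_neg h0, if_neg h2, if_true, if_neg h0', if_neg (by omega : ¬ j + 1 = j),
            mul_inv_cancel_left]
        · by_cases h3 : j < k
          · simp only [thF, if_neg h0, if_neg h1, if_neg h2, if_pos h3, mul_inv_cancel_left]
          · simp only [thF, if_neg h0, if_neg h1, if_neg h2, if_neg h3, mul_inv_cancel_left]

end Pool.Agent.VB

end Row_T1

section Row_T2

/-!
ROW T2: braid relation for `thF` (see T1 for the cases).  j = position p.1, k+1 ≤ n.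
j = k: both sides (k+2, s_k g).  j = k+1: thF k (thF (k+1) (thF k (k+1,g))): (k, y_k g) -> (k, s_k y_k g) -> (k+1, s_k y_k g);
other side: (k+2, g) -> (k+2, s_k g) -> (k+1, y_(k+1) s_k g); s_k y_k = y_(k+1) s_k by ss_yy.  j = k+2: (k+2, s_k g) ->
(k+1, y_(k+1) s_k g) -> (k, y_k y_(k+1) s_k g); other side: (k+1, y_(k+1) g) -> (k, y_k y_(k+1) g) -> (k, s_k y_k y_(k+1) g);
s_k commutes with y_k y_(k+1).  j < k: s_(k-1) s_k s_(k-1) = ...; j > k+2: s_k s_(k+1) s_k (k+1 < n since j ≤ n+1).
-/

namespace Pool.Agent.VB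

open FreeGroup (of)

theorem thF_braid (n k : ℕ) (h : k + 1 < n + 1) (p : ℕ × Gam n) :
    thF n k (thF n (k + 1) (thF n k p)) = thF n (k + 1) (thF n k (thF n (k + 1) p)) := by
  have hk : k < n := by omega
  obtain ⟨j, g⟩ := p
  -- outside
  by_cases hj : n + 1 < j
  · have e : ∀ i : ℕ, thF n i (j, g) = (j, g) := by
      intro i
      simp only [thF]
      rw [if_pos (Or.inl hj)]
    simp only [e]
  -- evaluation
  have hn1 : ∀ (i j : ℕ) (g : Gam n), i ≤ n → j ≤ n + 1 → j = i → thF n i (j, g) = (i + 1, g) := by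
    intro i j g hi hj he
    simp only [thF]
    rw [if_neg (by omega), if_pos he]
  have hn2 : ∀ (i j : ℕ) (g : Gam n), i ≤ n → j ≤ n + 1 → j = i + 1 →
      thF n i (j, g) = (i, yy n i * g) := by
    intro i j g hi hj he
    simp only [thF]
    rw [if_neg (by omega), if_neg (by omega), if_pos he]
  have hn3 : ∀ (i j : ℕ) (g : Gam n), i ≤ n → j ≤ n + 1 → j < i →
      thF n i (j, g) = (j, ss n (i - 1) * g) := by
    intro i j g hi hj he
    simp only [thF]
    rw [if_neg (by omega), if_neg (by omega), if_neg (by omega), if_pos he]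
  have hn4 : ∀ (i j : ℕ) (g : Gam n), i ≤ n → j ≤ n + 1 → i + 1 < j →
      thF n i (j, g) = (j, ss n i * g) := by
    intro i j g hi hj he
    simp only [thF]
    rw [if_neg (by omega), if_neg (by omega), if_neg (by omega), if_neg (by omega)]
  have hy1 : ss n k * yy n k = yy n (k + 1) * ss n k := by
    have := ss_yy n k k hk
    rw [bact_self] at this
    rw [mul_inv_eq_iff_eq_mul] at this
    exact this
  have hy2 : ss n k * (yy n k * yy n (k + 1)) = yy n k * yy n (k + 1) * ss n k := by
    have h1 := ss_yy n k (k + 1) hk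
    rw [bact_succ, mul_inv_eq_iff_eq_mul, map_mul, map_mul, map_inv] at h1
    have h2 : ss n k * yy n (k + 1) = (yy n (k + 1))⁻¹ * yy n k * yy n (k + 1) * ss n k := h1
    calc ss n k * (yy n k * yy n (k + 1)) = (ss n k * yy n k) * yy n (k + 1) := by group
      _ = yy n (k + 1) * (ss n k * yy n (k + 1)) := by rw [hy1]; group
      _ = yy n k * yy n (k + 1) * ss n k := by rw [h2]; group
  rcases lt_trichotomy j k with h1 | h1 | h1
  · -- j < k
    obtain ⟨m, rfl⟩ : ∃ m, k = m + 1 := ⟨k - 1, by omega⟩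
    rw [hn3 (m + 1) j g (by omega) (by omega) (by omega),
      hn3 (m + 1 + 1) j _ (by omega) (by omega) (by omega),
      hn3 (m + 1) j _ (by omega) (by omega) (by omega),
      hn3 (m + 1 + 1) j g (by omega) (by omega) (by omega),
      hn3 (m + 1) j _ (by omega) (by omega) (by omega),
      hn3 (m + 1 + 1) j _ (by omega) (by omega) (by omega)]
    have hb := (bseq_ss n).1 m (by omega)
    simp only [Nat.add_sub_cancel]
    rw [← mul_assoc, ← mul_assoc, ← mul_assoc, ← mul_assoc, hb]
  · -- j = k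
    rw [hn1 k j g (by omega) (by omega) h1, hn1 (k + 1) (k + 1) g (by omega) (by omega) rfl,
      hn4 k (k + 1 + 1) g (by omega) (by omega) (by omega),
      hn3 (k + 1) j g (by omega) (by omega) (by omega), Nat.add_sub_cancel,
      hn1 k j _ (by omega) (by omega) h1, hn1 (k + 1) (k + 1) _ (by omega) (by omega) rfl]
  · rcases lt_trichotomy j (k + 2) with h2 | h2 | h2
    · -- j = k + 1
      have h3 : j = k + 1 := by omega
      rw [hn2 k j g (by omega) (by omega) h3, hn3 (k + 1) k _ (by omega) (by omega) (by omega),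
        Nat.add_sub_cancel, hn1 k k _ (by omega) (by omega) rfl,
        hn1 (k + 1) j g (by omega) (by omega) h3,
        hn4 k (k + 1 + 1) g (by omega) (by omega) (by omega),
        hn2 (k + 1) (k + 1 + 1) _ (by omega) (by omega) rfl, ← mul_assoc, hy1, mul_assoc]
    · -- j = k + 2
      rw [hn4 k j g (by omega) (by omega) (by omega), hn2 (k + 1) j _ (by omega) (by omega) (by omega),
        hn2 k (k + 1) _ (by omega) (by omega) rfl,
        hn2 (k + 1) j g (by omega) (by omega) (by omega), hn2 k (k + 1) _ (by omega) (by omega) rfl,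
        hn3 (k + 1) k _ (by omega) (by omega) (by omega), Nat.add_sub_cancel]
      rw [← mul_assoc, ← mul_assoc, ← hy2]
      simp only [mul_assoc]
    · -- j > k + 2
      rw [hn4 k j g (by omega) (by omega) (by omega), hn4 (k + 1) j _ (by omega) (by omega) (by omega),
        hn4 k j _ (by omega) (by omega) (by omega), hn4 (k + 1) j g (by omega) (by omega) (by omega),
        hn4 k j _ (by omega) (by omega) (by omega), hn4 (k + 1) j _ (by omega) (by omega) (by omega)]
      have hb := (bseq_ss n).1 k (by omega)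
      rw [← mul_assoc, ← mul_assoc, ← mul_assoc, ← mul_assoc, hb]

end Pool.Agent.VB

end Row_T2

section Row_T3

/-!
ROW T3: commutation for `thF`: i + 2 ≤ k.  Cases on the position j: j < i, i, i+1, i+2..k-1, k, k+1,
> k+1 (and j ≤ n+1, k ≤ n).  Uses sg_comm and that s_k fixes y_i, y_(i+1) etc. (ss_yy, bact_ne): e.g. j = i+1:
y_i commutes with s_(k-1) (k-1 ≥ i+1 ... so k-1 ≠ i, and y_i is moved only by s_(i-1), s_i: ok); j = k+1: y_k commutes with s_i
(i ≤ k-2: ok).
-/

namespace Pool.Agent.VB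

open FreeGroup (of)

theorem thF_comm (n i k : ℕ) (h : i + 2 ≤ k) (p : ℕ × Gam n) :
    thF n i (thF n k p) = thF n k (thF n i p) := by
  obtain ⟨j, g⟩ := p
  -- outside
  by_cases hj : n + 1 < j
  · have e : ∀ i : ℕ, thF n i (j, g) = (j, g) := by
      intro i
      simp only [thF]
      rw [if_pos (Or.inl hj)]
    rw [e, e, e]
  by_cases hkn : n < k
  · have e : ∀ p : ℕ × Gam n, thF n k p = p := by
      intro p
      simp only [thF]
      rw [if_pos (Or.inr hkn)]
    rw [e, e]
  -- evaluation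
  have hn1 : ∀ (i j : ℕ) (g : Gam n), i ≤ n → j ≤ n + 1 → j = i → thF n i (j, g) = (i + 1, g) := by
    intro i j g hi hj he
    simp only [thF]
    rw [if_neg (by omega), if_pos he]
  have hn2 : ∀ (i j : ℕ) (g : Gam n), i ≤ n → j ≤ n + 1 → j = i + 1 →
      thF n i (j, g) = (i, yy n i * g) := by
    intro i j g hi hj he
    simp only [thF]
    rw [if_neg (by omega), if_neg (by omega), if_pos he]
  have hn3 : ∀ (i j : ℕ) (g : Gam n), i ≤ n → j ≤ n + 1 → j < i →
      thF n i (j, g) = (j, ss n (i - 1) * g) := by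
    intro i j g hi hj he
    simp only [thF]
    rw [if_neg (by omega), if_neg (by omega), if_neg (by omega), if_pos he]
  have hn4 : ∀ (i j : ℕ) (g : Gam n), i ≤ n → j ≤ n + 1 → i + 1 < j →
      thF n i (j, g) = (j, ss n i * g) := by
    intro i j g hi hj he
    simp only [thF]
    rw [if_neg (by omega), if_neg (by omega), if_neg (by omega), if_neg (by omega)]
  -- commutation of `s` and `y`
  have hsy : ∀ a b : ℕ, b ≠ a → b ≠ a + 1 → ss n a * yy n b = yy n b * ss n a := by
    intro a b h1 h2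
    by_cases ha : a < n
    · have := ss_yy n a b ha
      rw [bact_ne a b h1 h2, mul_inv_eq_iff_eq_mul] at this
      exact this
    · rw [ss_eq_one n a (by omega), one_mul, mul_one]
  have hss : ∀ a b : ℕ, a + 2 ≤ b → ss n a * ss n b = ss n b * ss n a := by
    intro a b hab
    simp only [ss, ← map_mul, sg_comm n a b hab]
  rcases lt_trichotomy j i with h1 | h1 | h1
  · -- j < i
    rw [hn3 k j g (by omega) (by omega) (by omega), hn3 i j _ (by omega) (by omega) (by omega),
      hn3 i j g (by omega) (by omega) (by omega), hn3 k j _ (by omega) (by omega) (by omega),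
      ← mul_assoc, ← mul_assoc, hss (i - 1) (k - 1) (by omega)]
  · -- j = i
    rw [hn3 k j g (by omega) (by omega) (by omega), hn1 i j _ (by omega) (by omega) h1,
      hn1 i j g (by omega) (by omega) h1, hn3 k (i + 1) _ (by omega) (by omega) (by omega)]
  · rcases lt_trichotomy j (i + 1) with h2 | h2 | h2
    · omega
    · -- j = i + 1
      rw [hn3 k j g (by omega) (by omega) (by omega), hn2 i j _ (by omega) (by omega) h2,
        hn2 i j g (by omega) (by omega) h2, hn3 k i _ (by omega) (by omega) (by omega),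
        ← mul_assoc, ← mul_assoc, hsy (k - 1) i (by omega) (by omega)]
    · rcases lt_trichotomy j k with h3 | h3 | h3
      · -- i + 1 < j < k
        rw [hn3 k j g (by omega) (by omega) (by omega), hn4 i j _ (by omega) (by omega) (by omega),
          hn4 i j g (by omega) (by omega) (by omega), hn3 k j _ (by omega) (by omega) (by omega),
          ← mul_assoc, ← mul_assoc, hss i (k - 1) (by omega)]
      · -- j = k
        rw [hn1 k j g (by omega) (by omega) h3, hn4 i (k + 1) g (by omega) (by omega) (by omega),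
          hn4 i j g (by omega) (by omega) (by omega), hn1 k j _ (by omega) (by omega) h3]
      · rcases lt_trichotomy j (k + 1) with h4 | h4 | h4
        · omega
        · -- j = k + 1
          rw [hn2 k j g (by omega) (by omega) h4, hn4 i k _ (by omega) (by omega) (by omega),
            hn4 i j g (by omega) (by omega) (by omega), hn2 k j _ (by omega) (by omega) h4,
            ← mul_assoc, ← mul_assoc, hsy i k (by omega) (by omega)]
        · -- j > k + 1
          rw [hn4 k j g (by omega) (by omega) (by omega), hn4 i j _ (by omega) (by omega) (by omega),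
            hn4 i j g (by omega) (by omega) (by omega), hn4 k j _ (by omega) (by omega) (by omega),
            ← mul_assoc, ← mul_assoc, hss i k (by omega)]

end Pool.Agent.VB

end Row_T3

section Row_Th

/-!
Definition of `Theta n : Br (n+1) → Perm (N × Gam n)`.
-/

namespace Pool.Agent.VB

open FreeGroup (of)

/-- the permutation -/
noncomputable def thE (n k : ℕ) : Equiv.Perm (ℕ × Gam n) := Equiv.ofBijective (thF n k) (thF_bij n k)

theorem thE_apply (n k : ℕ) (p : ℕ × Gam n) : thE n k p = thF n k p := rfl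

theorem thE_one (n k : ℕ) (h : n + 1 ≤ k) : thE n k = 1 := by
  ext1 p
  rw [thE_apply]
  simp [thF, (by omega : n < k)]

/-- `Br (n+1)` acts on `N × Gam n` -/
noncomputable def Theta (n : ℕ) : Br (n + 1) →* Equiv.Perm (ℕ × Gam n) :=
  brLift (n + 1) (thE n) (thE_one n)
    (fun k h => Equiv.ext fun p => thF_braid n k h p)
    (fun i j h => Equiv.ext fun p => thF_comm n i j h p)

theorem Theta_sg (n k : ℕ) (p : ℕ × Gam n) : Theta n (sg (n + 1) k) p = thF n k p := by
  simp [Theta, brLift_sg, thE_apply]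

end Pool.Agent.VB

end Row_Th

section Row_T4

/-!
ROW T4: E(j,g) = t_j iota(g) is equivariant: sigma_k E(p) = E(thF n k p) for p.1 ≤ n+1, k ≤ n.
cases: j = k: RR f (k+1) = f k * RR f k.  j = k+1: sigma_k t_(k+1) = sigma_k^2 t_k = t_k Y_k.
j ≥ k+2: sigma_k t_j = t_j sigma_(k+1) (RR_conj, j ≤ n+1) = t_j iota(s_k).  j < k: sigma_k t_j = t_j sigma_k
(RR_comm_ge, j+1 ≤ k ≤ n) = t_j iota(s_(k-1)).
-/

namespace Pool.Agent.VB

open FreeGroup (of)

theorem E_equiv (n k : ℕ) (hk : k ≤ n) (p : ℕ × Gam n) (hp : p.1 ≤ n + 1) :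
    sg (n + 1) k * (RR (sg (n + 1)) p.1 * iota n p.2) =
      RR (sg (n + 1)) (thF n k p).1 * iota n (thF n k p).2 := by
  obtain ⟨j, g⟩ := p
  simp only at hp
  have h0 : ¬ (n + 1 < j ∨ n < k) := by omega
  unfold thF
  simp only
  rw [if_neg h0]
  by_cases h1 : j = k
  · subst h1
    rw [if_pos rfl]
    simp only
    rw [RR, mul_assoc]
  · rw [if_neg h1]
    by_cases h2 : j = k + 1
    · subst h2
      rw [if_pos rfl]
      simp only
      rw [map_mul, iota_yy, Ydef, RR]
      group
    · rw [if_neg h2]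
      by_cases h3 : j < k
      · rw [if_pos h3]
        simp only
        rw [map_mul, iota_ss, show k - 1 + 1 = k by omega, ← mul_assoc, ← mul_assoc,
          RR_comm_ge (sg (n + 1)) (n + 1) j k (bseq_sg (n + 1)) (by omega) (by omega)]
      · rw [if_neg h3]
        simp only
        rw [map_mul, iota_ss, ← mul_assoc, ← mul_assoc,
          RR_conj (sg (n + 1)) (n + 1) j k (bseq_sg (n + 1)) hp (by omega)]

theorem thF_le (n k : ℕ) (p : ℕ × Gam n) (hp : p.1 ≤ n + 1) : (thF n k p).1 ≤ n + 1 := by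
  unfold thF
  split_ifs with h0 h1 h2 h3
  · exact hp
  · simp only; omega
  · simp only; omega
  · exact hp
  · exact hp

theorem thF_mem (n k : ℕ) (p : ℕ × Gam n) (hp : p.1 ≤ n + 1) (hg : p.2 ∈ GamP n) :
    (thF n k p).2 ∈ GamP n := by
  have hs : ∀ i, ss n i ∈ GamP n := fun i => Subgroup.subset_closure (Or.inl ⟨i, rfl⟩)
  unfold thF
  split_ifs with h0 h1 h2 h3
  · exact hg
  · exact hg
  · exact mul_mem (Subgroup.subset_closure (Or.inr ⟨k, by omega, rfl⟩)) hg
  · exact mul_mem (hs _) hg
  · exact mul_mem (hs _) hg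

end Pool.Agent.VB

end Row_T4

section Row_T5

/-!
ROW T5: for every b in Br (n+1), with (j,g) = Theta n b (0,1): j ≤ n+1, g in GamP n and
b = t_j iota(g).  Prove for all p with p.1 ≤ n+1, p.2 in GamP: Theta b p has the same properties and
b * E(p) = E(Theta b p); closed under products; for generators T4; for inverses of generators: the map
p -> thF n k p is a bijection of {p | p.1 ≤ n+1} with inverse also preserving it (if (Theta b^-1 p).1 > n+1 then thF fixes it,
contradiction); for GamP: the inverse of thF n k multiplies by yy^-1 or ss^-1.  (Alternative: b is a product of generators and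
inverses, Subgroup.closure_induction.)
-/

namespace Pool.Agent.VB

open FreeGroup (of)

/-- the property -/
private def T5_Q (n : ℕ) (b : Br (n + 1)) : Prop := ∀ p : ℕ × Gam n, p.1 ≤ n + 1 → p.2 ∈ GamP n →
    (Theta n b p).1 ≤ n + 1 ∧ (Theta n b p).2 ∈ GamP n ∧
      b * (RR (sg (n + 1)) p.1 * iota n p.2) =
        RR (sg (n + 1)) (Theta n b p).1 * iota n (Theta n b p).2

private theorem T5_one (n : ℕ) : T5_Q n 1 := by
  intro p hp hg
  simp [map_one, hp, hg]

private theorem T5_mul (n : ℕ) (a b : Br (n + 1)) (ha : T5_Q n a) (hb : T5_Q n b) : T5_Q n (a * b) := by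
  intro p hp hg
  obtain ⟨h1, h2, h3⟩ := hb p hp hg
  obtain ⟨h4, h5, h6⟩ := ha _ h1 h2
  rw [map_mul, Equiv.Perm.mul_apply]
  exact ⟨h4, h5, by rw [mul_assoc, h3, h6]⟩

private theorem T5_gen (n k : ℕ) : T5_Q n (sg (n + 1) k) := by
  by_cases hk : k ≤ n
  · intro p hp hg
    rw [Theta_sg]
    exact ⟨thF_le n k p hp, thF_mem n k p hp hg, E_equiv n k hk p hp⟩
  · rw [sg_eq_one (n + 1) k (by omega)]
    exact T5_one n

private theorem T5_memS (n k : ℕ) : ss n k ∈ GamP n := Subgroup.subset_closure (Or.inl ⟨k, rfl⟩)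

private theorem T5_memY (n k : ℕ) (hk : k ≤ n) : yy n k ∈ GamP n :=
  Subgroup.subset_closure (Or.inr ⟨k, hk, rfl⟩)

private theorem T5_back (n k : ℕ) (hk : k ≤ n) (r : ℕ × Gam n) (hr : r.1 ≤ n + 1)
    (h : (thF n k r).2 ∈ GamP n) : r.2 ∈ GamP n := by
  unfold thF at h
  rw [if_neg (by omega)] at h
  split_ifs at h with h1 h2 h3
  · exact h
  · exact (Subgroup.mul_mem_cancel_left _ (T5_memY n k hk)).1 h
  · exact (Subgroup.mul_mem_cancel_left _ (T5_memS n (k - 1))).1 h
  · exact (Subgroup.mul_mem_cancel_left _ (T5_memS n k)).1 h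

private theorem T5_inv (n k : ℕ) : T5_Q n (sg (n + 1) k)⁻¹ := by
  by_cases hk : k ≤ n
  · intro p hp hg
    obtain ⟨r, hr⟩ : ∃ r : ℕ × Gam n, r = Theta n (sg (n + 1) k)⁻¹ p := ⟨_, rfl⟩
    have hrp : thF n k r = p := by
      rw [← Theta_sg, hr, ← Equiv.Perm.mul_apply, ← map_mul, mul_inv_cancel, map_one]
      rfl
    have hr1 : r.1 ≤ n + 1 := by
      by_contra hcon
      have h1 : thF n k r = r := by
        unfold thF
        rw [if_pos (Or.inl (by omega))]
      rw [h1] at hrp
      rw [hrp] at hcon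
      exact hcon hp
    have hr2 : r.2 ∈ GamP n := T5_back n k hk r hr1 (by rw [hrp]; exact hg)
    rw [← hr]
    refine ⟨hr1, hr2, ?_⟩
    have hE := E_equiv n k hk r hr1
    rw [hrp] at hE
    rw [← hE, inv_mul_cancel_left]
  · rw [sg_eq_one (n + 1) k (by omega), inv_one]
    exact T5_one n

private theorem T5_all (n : ℕ) (b : Br (n + 1)) : T5_Q n b := by
  have hb' : b ∈ Submonoid.closure (Set.range (sg (n + 1)) ∪ (Set.range (sg (n + 1)))⁻¹) := by
    rw [← Subgroup.closure_toSubmonoid]
    have h2 : Subgroup.closure (Set.range (sg (n + 1))) = ⊤ :=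
      PresentedGroup.closure_range_of (brRels (n + 1))
    rw [h2]; exact Subgroup.mem_top b
  induction hb' using Submonoid.closure_induction with
  | mem x hx =>
    rcases hx with ⟨k, rfl⟩ | hx
    · exact T5_gen n k
    · obtain ⟨k, hk⟩ := Set.mem_inv.1 hx
      have : x = (sg (n + 1) k)⁻¹ := by rw [hk, inv_inv]
      rw [this]; exact T5_inv n k
  | one => exact T5_one n
  | mul x y _ _ hx hy => exact T5_mul n x y hx hy

theorem Theta_E (n : ℕ) (b : Br (n + 1)) (p : ℕ × Gam n) (hp : p.1 ≤ n + 1) (hg : p.2 ∈ GamP n) :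
    (Theta n b p).1 ≤ n + 1 ∧ (Theta n b p).2 ∈ GamP n ∧
      b * (RR (sg (n + 1)) p.1 * iota n p.2) =
        RR (sg (n + 1)) (Theta n b p).1 * iota n (Theta n b p).2 :=
  T5_all n b p hp hg

end Pool.Agent.VB

end Row_T5

section Row_T6

/-!
ROW T6: Theta(iota g)(0,g') = (0, g g') for g in GamP n.  closure_induction: s_k -> sigma_(k+1):
position 0 < k+1: multiplies by s_k (k < n; for k ≥ n: sigma_(k+1) = 1 and s_k = 1).  y_0 -> sigma_0^2: (0,g') -> (1,g') -> (0,y_0 g').
y_k for k ≤ n: Y_(k+1) = sigma_(k+1) Y_k sigma_(k+1)^-1 and y_(k+1) = s_k y_k s_k^-1 (k < n): induction on k.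
-/

namespace Pool.Agent.VB

open FreeGroup (of)

theorem T6_sg (n k : ℕ) (g' : Gam n) :
    Theta n (sg (n + 1) (k + 1)) (0, g') = (0, ss n k * g') := by
  rw [Theta_sg]
  rcases Nat.lt_or_ge k n with hk | hk
  · have h1 : ¬ (n + 1 < 0 ∨ n < k + 1) := by omega
    unfold thF
    simp only [if_neg h1]
    simp
  · have h1 : (n + 1 < 0 ∨ n < k + 1) := by omega
    unfold thF
    simp only [if_pos h1]
    rw [ss_eq_one n k hk, one_mul]

theorem T6_inv (n : ℕ) (b : Br (n + 1)) (g : Gam n)
    (h : ∀ g' : Gam n, Theta n b (0, g') = (0, g * g')) (g' : Gam n) :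
    Theta n b⁻¹ (0, g') = (0, g⁻¹ * g') := by
  rw [map_inv, Equiv.Perm.inv_eq_iff_eq, h, mul_inv_cancel_left]

theorem T6_yy (n k : ℕ) (hk : k ≤ n) (g' : Gam n) :
    Theta n (Ydef n k) (0, g') = (0, yy n k * g') := by
  induction k generalizing g' with
  | zero =>
    have h1 : Ydef n 0 = sg (n + 1) 0 * sg (n + 1) 0 := by simp [Ydef, RR]
    rw [h1, map_mul, Equiv.Perm.mul_apply, Theta_sg, Theta_sg]
    have h2 : thF n 0 (0, g') = (1, g') := by simp [thF]
    rw [h2]
    simp [thF]
  | succ k ih =>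
    rw [← Ydef_succ n k (by omega), map_mul, map_mul, Equiv.Perm.mul_apply, Equiv.Perm.mul_apply,
      T6_inv n _ _ (T6_sg n k), ih (by omega), T6_sg]
    have h1 : ss n k * yy n k * (ss n k)⁻¹ = yy n (k + 1) := by
      rw [ss_yy n k k (by omega), bact_self]; rfl
    rw [← h1]
    simp only [mul_assoc]

theorem Theta_iota (n : ℕ) (g : Gam n) (hg : g ∈ GamP n) (g' : Gam n) :
    Theta n (iota n g) (0, g') = (0, g * g') := by
  induction hg using Subgroup.closure_induction generalizing g' with
  | mem x hx =>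
    rcases hx with ⟨k, rfl⟩ | ⟨k, hk, rfl⟩
    · rw [iota_ss, T6_sg]
    · rw [iota_yy, T6_yy n k hk]
  | one => simp
  | mul x y _ _ hx hy =>
    rw [map_mul, map_mul, Equiv.Perm.mul_apply, hy, hx, mul_assoc]
  | inv x _ hx =>
    rw [map_inv]
    exact T6_inv n _ _ hx g'

end Pool.Agent.VB

end Row_T6
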