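import Pool.Agent.Lib.MP_7c21d5_al.VB01_Modules
import Pool.Agent.Lib.MP_7c21d5_al.VB02_Braids

set_option autoImplicit false

section Row_AR1

/-!
ROW AR1: the position is the permutation: if Theta n b (0,1) = (j,g) then alpha (n+1) b (y_0) is a
conjugate of y_j.  More generally for every p with p.1 ≤ n+1: alpha (n+1) b (y_(p.1)) is conjugate to y_(Theta n b p).1
(generators: bact_of; closed under products and inverses).
-/

namespace Pool.Agent.VB

open FreeGroup (of)

/-- the property proved by induction -/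
def AR1_P (n : ℕ) (b : Br (n + 1)) : Prop :=
  ∀ p : ℕ × Gam n, ((Theta n b p).1 ≤ n + 1 ↔ p.1 ≤ n + 1) ∧
    (p.1 ≤ n + 1 → ∃ w : FreeGroup ℕ, alpha (n + 1) b (of p.1) = w * of (Theta n b p).1 * w⁻¹)

theorem AR1_gen (n k : ℕ) : AR1_P n (sg (n + 1) k) := by
  rintro ⟨j, g⟩
  rw [Theta_sg, alpha_sg]
  by_cases hk : n < k
  · have h1 : thF n k (j, g) = (j, g) := by simp only [thF, if_pos (Or.inr hk : n + 1 < j ∨ n < k)]
    rw [h1, if_neg (by omega)]
    exact ⟨Iff.rfl, fun _ => ⟨1, by simp⟩⟩
  · rw [if_pos (by omega)]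
    by_cases hj : n + 1 < j
    · have h1 : thF n k (j, g) = (j, g) := by simp only [thF, if_pos (Or.inl hj : n + 1 < j ∨ n < k)]
      rw [h1]
      exact ⟨Iff.rfl, fun h => absurd h (by simp only; omega)⟩
    · have h0 : ¬ (n + 1 < j ∨ n < k) := by omega
      by_cases h1 : j = k
      · subst h1
        have h2 : thF n j (j, g) = (j + 1, g) := by simp only [thF, if_neg h0, if_true]
        rw [h2]
        refine ⟨by simp only; omega, fun _ => ⟨1, by simp [bact_self]⟩⟩
      · by_cases h2 : j = k + 1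
        · subst h2
          have h3 : thF n k (k + 1, g) = (k, yy n k * g) := by
            simp only [thF, if_neg h0, if_neg h1, if_true]
          rw [h3]
          refine ⟨by simp only; omega, fun _ => ⟨(of (k + 1))⁻¹, by simp [bact_succ]⟩⟩
        · have h3 : (thF n k (j, g)).1 = j := by
            simp only [thF, if_neg h0, if_neg h1, if_neg h2]
            split_ifs <;> rfl
          rw [h3]
          refine ⟨Iff.rfl, fun _ => ⟨1, by simp [bact_ne k j h1 h2]⟩⟩

theorem AR1_mul (n : ℕ) (b c : Br (n + 1)) (hb : AR1_P n b) (hc : AR1_P n c) : AR1_P n (b * c) := by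
  intro p
  have h1 : Theta n (b * c) p = Theta n b (Theta n c p) := by rw [map_mul]; rfl
  rw [h1]
  refine ⟨(hb _).1.trans (hc p).1, fun hp => ?_⟩
  obtain ⟨w, hw⟩ := (hc p).2 hp
  obtain ⟨v, hv⟩ := (hb (Theta n c p)).2 ((hc p).1.2 hp)
  refine ⟨alpha (n + 1) b w * v, ?_⟩
  have h2 : alpha (n + 1) (b * c) (of p.1) = alpha (n + 1) b (alpha (n + 1) c (of p.1)) := by
    rw [map_mul]; rfl
  rw [h2, hw, map_mul, map_mul, hv, map_inv]
  group

theorem AR1_inv (n : ℕ) (b : Br (n + 1)) (hb : AR1_P n b) : AR1_P n b⁻¹ := by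
  intro p
  have h1 : Theta n b (Theta n b⁻¹ p) = p := by
    rw [map_inv]
    exact Equiv.apply_symm_apply (Theta n b) p
  have h2 := (hb (Theta n b⁻¹ p)).1
  rw [h1] at h2
  refine ⟨h2.symm, fun hp => ?_⟩
  obtain ⟨w, hw⟩ := (hb (Theta n b⁻¹ p)).2 (h2.1 hp)
  rw [h1] at hw
  refine ⟨(alpha (n + 1) b⁻¹ w)⁻¹, ?_⟩
  have h3 : alpha (n + 1) b⁻¹ (alpha (n + 1) b (of (Theta n b⁻¹ p).1)) = of (Theta n b⁻¹ p).1 := by
    rw [map_inv]
    exact MulEquiv.symm_apply_apply (alpha (n + 1) b) _
  rw [hw] at h3
  generalize alpha (n + 1) b⁻¹ = β at h3 ⊢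
  rw [map_mul β, map_mul β, map_inv β] at h3
  rw [← h3]
  group

theorem AR1_all (n : ℕ) (b : Br (n + 1)) : AR1_P n b := by
  have hb : b ∈ Subgroup.closure (Set.range (PresentedGroup.of : ℕ → Br (n + 1))) := by
    rw [PresentedGroup.closure_range_of]
    exact Subgroup.mem_top b
  induction hb using Subgroup.closure_induction with
  | mem x hx =>
    obtain ⟨k, rfl⟩ := hx
    exact AR1_gen n k
  | one =>
    intro p
    rw [map_one, map_one]
    exact ⟨Iff.rfl, fun _ => ⟨1, by simp⟩⟩
  | mul x y _ _ hx hy => exact AR1_mul n x y hx hy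
  | inv x _ hx => exact AR1_inv n x hx

theorem alpha_conj (n : ℕ) (b : Br (n + 1)) (p : ℕ × Gam n) (hp : p.1 ≤ n + 1) :
    (Theta n b p).1 ≤ n + 1 ∧
      ∃ w : FreeGroup ℕ, alpha (n + 1) b (of p.1) = w * of (Theta n b p).1 * w⁻¹ :=
  ⟨(AR1_all n b p).1.2 hp, (AR1_all n b p).2 hp⟩

end Pool.Agent.VB

end Row_AR1

section Row_AR2

/-!
ROW AR2: pi0 (kill y_0, shift) intertwines alpha (n+1) (iota g) and alpha n (g.right).
Check for g = inr (sg n k): iota = sigma_(k+1); on generators y_j: bact (k+1) (y_j) vs bact k (y_(j-1)), k < n.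
For g = inl w: enough for w = y_k; Y_k acts trivially modulo y_0: pi0 (alpha (Y_k) x) = pi0 x: for k = 0: sigma_0^2:
y_0 -> y_1^-1 y_0 y_1, y_1 -> y_1^-1 y_0^-1 y_1 y_0 y_1; k+1 ≤ n: Y_(k+1) = sigma_(k+1) Y_k sigma_(k+1)^-1 (Ydef_succ);
k > n: Y_k = 1.  Both sides are multiplicative in g.
-/

namespace Pool.Agent.VB

open FreeGroup (of)

private theorem AR2_pi0_of (k : ℕ) : pi0 (of k) = if k = 0 then 1 else of (k - 1) := by
  simp [pi0]

private theorem AR2_pi0_zero : pi0 (of 0) = 1 := by simp [pi0]

private theorem AR2_pi0_succ (k : ℕ) : pi0 (of (k + 1)) = of k := by simp [pi0]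

/-- homomorphisms which agree on the generators -/
private theorem AR2_ext (φ ψ : FreeGroup ℕ →* FreeGroup ℕ) (h : ∀ j, φ (of j) = ψ (of j)) (x : FreeGroup ℕ) :
    φ x = ψ x := by
  have : φ = ψ := FreeGroup.ext_hom φ ψ h
  rw [this]

private theorem AR2_bact (k : ℕ) (x : FreeGroup ℕ) : pi0 (bact (k + 1) x) = bact k (pi0 x) := by
  refine AR2_ext (pi0.comp (bact (k + 1)).toMonoidHom) ((bact k).toMonoidHom.comp pi0) (fun j => ?_) x
  show pi0 (bact (k + 1) (of j)) = bact k (pi0 (of j))
  rcases j with _ | j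
  · rw [bact_ne (k + 1) 0 (by omega) (by omega), AR2_pi0_zero, map_one]
  · rw [AR2_pi0_succ]
    rcases eq_or_ne j k with h1 | h1
    · rw [h1, bact_self, bact_self, AR2_pi0_succ]
    · rcases eq_or_ne j (k + 1) with h2 | h2
      · rw [h2, bact_succ, bact_succ]
        simp only [map_mul, map_inv, AR2_pi0_succ]
      · rw [bact_ne _ _ (by omega) (by omega), bact_ne _ _ h1 h2, AR2_pi0_succ]

private theorem AR2_bact0 (x : FreeGroup ℕ) : pi0 (bact 0 (bact 0 x)) = pi0 x := by
  refine AR2_ext (pi0.comp ((bact 0).toMonoidHom.comp (bact 0).toMonoidHom)) pi0 (fun j => ?_) x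
  show pi0 (bact 0 (bact 0 (of j))) = pi0 (of j)
  rcases j with _ | _ | j
  · rw [bact_self, bact_succ]
    simp only [map_mul, map_inv, AR2_pi0_succ, AR2_pi0_zero]
    group
  · rw [zero_add, ← zero_add 1, bact_succ]
    simp only [map_mul, map_inv, bact_self, bact_succ, AR2_pi0_succ, AR2_pi0_zero]
    group
  · rw [bact_ne _ _ (by omega) (by omega), bact_ne _ _ (by omega) (by omega)]

private theorem AR2_Y (n k : ℕ) (hk : k ≤ n) (x : FreeGroup ℕ) : pi0 (alpha (n + 1) (Ydef n k) x) = pi0 x := by
  induction k generalizing x with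
  | zero =>
    have h1 : Ydef n 0 = sg (n + 1) 0 * sg (n + 1) 0 := by simp [Ydef, RR]
    rw [h1, map_mul, alpha_sg, if_pos (by omega)]
    exact AR2_bact0 x
  | succ k ih =>
    rw [← Ydef_succ n k (by omega), map_mul, map_mul, map_inv, alpha_sg, if_pos (by omega)]
    show pi0 (bact (k + 1) (alpha (n + 1) (Ydef n k) ((bact (k + 1))⁻¹ x))) = pi0 x
    rw [AR2_bact, ih (by omega), ← AR2_bact]
    congr 1
    exact (bact (k + 1)).apply_symm_apply x

private theorem AR2_Y' (n k : ℕ) (x : FreeGroup ℕ) : pi0 (alpha (n + 1) (Ydef n k) x) = pi0 x := by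
  rcases Nat.lt_or_ge n k with h | h
  · have h1 : Ydef n k = 1 := by
      unfold Ydef
      rw [sg_eq_one (n + 1) k (by omega)]
      group
    rw [h1, map_one]
    rfl
  · exact AR2_Y n k h x

/-- the set of the elements for which the statement holds -/
private def AR2_S (n : ℕ) : Subgroup (Gam n) where
  carrier := {g | ∀ x, pi0 (alpha (n + 1) (iota n g) x) = alpha n g.right (pi0 x)}
  mul_mem' := by
    intro g h hg hh x
    show pi0 (alpha (n + 1) (iota n (g * h)) x) = alpha n (g * h).right (pi0 x)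
    rw [map_mul, map_mul, SemidirectProduct.mul_right, map_mul]
    show pi0 (alpha (n + 1) (iota n g) (alpha (n + 1) (iota n h) x)) = alpha n g.right (alpha n h.right (pi0 x))
    rw [hg, hh]
  one_mem' := by
    intro x
    rw [map_one, map_one, SemidirectProduct.one_right, map_one]
    rfl
  inv_mem' := by
    intro g hg x
    have h1 := hg (alpha (n + 1) (iota n g⁻¹) x)
    have h2 : alpha (n + 1) (iota n g) (alpha (n + 1) (iota n g⁻¹) x) = x := by
      rw [map_inv, map_inv]
      exact (alpha (n + 1) (iota n g)).apply_symm_apply x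
    rw [h2] at h1
    rw [h1, SemidirectProduct.inv_right, map_inv (alpha n)]
    exact ((alpha n g.right).symm_apply_apply _).symm

theorem pi0_alpha (n : ℕ) (g : Gam n) (x : FreeGroup ℕ) :
    pi0 (alpha (n + 1) (iota n g) x) = alpha n g.right (pi0 x) := by
  have hr : ∀ b : Br n, (SemidirectProduct.inr b : Gam n) ∈ AR2_S n := by
    intro b
    have h1 : b ∈ (AR2_S n).comap (SemidirectProduct.inr : Br n →* Gam n) := by
      have h2 : Subgroup.closure (Set.range (PresentedGroup.of : ℕ → Br n)) ≤
          (AR2_S n).comap (SemidirectProduct.inr : Br n →* Gam n) := by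
        rw [Subgroup.closure_le]
        rintro _ ⟨k, rfl⟩
        intro x
        show pi0 (alpha (n + 1) (iota n (ss n k)) x) = alpha n (ss n k).right (pi0 x)
        rw [iota_ss, alpha_sg]
        have h3 : (ss n k).right = sg n k := rfl
        rw [h3, alpha_sg]
        rcases Nat.lt_or_ge k n with h | h
        · rw [if_pos h, if_pos (by omega)]
          exact AR2_bact k x
        · rw [if_neg (by omega), if_neg (by omega)]
          rfl
      rw [PresentedGroup.closure_range_of] at h2
      exact h2 (Subgroup.mem_top b)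
    exact h1
  have hl : ∀ w : FreeGroup ℕ, (SemidirectProduct.inl w : Gam n) ∈ AR2_S n := by
    intro w
    have h1 : w ∈ (AR2_S n).comap (SemidirectProduct.inl : FreeGroup ℕ →* Gam n) := by
      have h2 : Subgroup.closure (Set.range (FreeGroup.of : ℕ → FreeGroup ℕ)) ≤
          (AR2_S n).comap (SemidirectProduct.inl : FreeGroup ℕ →* Gam n) := by
        rw [Subgroup.closure_le]
        rintro _ ⟨k, rfl⟩
        intro x
        show pi0 (alpha (n + 1) (iota n (yy n k)) x) = alpha n (yy n k).right (pi0 x)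
        have h3 : (yy n k).right = 1 := rfl
        rw [iota_yy, h3, map_one, AR2_Y']
        rfl
      rw [FreeGroup.closure_range_of] at h2
      exact h2 (Subgroup.mem_top w)
    exact h1
  have h : g ∈ AR2_S n := by
    rw [← SemidirectProduct.inl_left_mul_inr_right g]
    exact (AR2_S n).mul_mem (hl _) (hr _)
  exact h x

end Pool.Agent.VB

end Row_AR2

section Row_AR3

/-!
ROW AR3: cocycle.  For g in GamP n there is W with alpha (n+1) (iota g) (y_0) = W y_0 W^-1 and
pi0 W = (g.left)^-1.  closure_induction.  s_k: W = 1 (sigma_(k+1) fixes y_0).  y_0: iota = sigma_0^2, W = y_1^-1,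
pi0 W = y_0^-1.  y_(k+1) = s_k y_k s_k^-1.  Products: W_(gh) = alpha(iota g)(W_h) * W_g, pi0 of it = alpha n g.right (h.left^-1) * g.left^-1
= ((g*h).left)^-1 (SemidirectProduct.mul_left), by AR2.  Inverses: W = (alpha (iota g)^-1 (W_g))^-1.
-/

namespace Pool.Agent.VB

open FreeGroup (of)

private def AR3P (n : ℕ) (g : Gam n) : Prop :=
  ∃ W : FreeGroup ℕ, alpha (n + 1) (iota n g) (of 0) = W * of 0 * W⁻¹ ∧ pi0 W = (g.left)⁻¹

private theorem AR3_one (n : ℕ) : AR3P n 1 := by
  refine ⟨1, ?_, ?_⟩
  · simp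
  · simp

private theorem AR3_mul (n : ℕ) (g h : Gam n) (hg : AR3P n g) (hh : AR3P n h) :
    AR3P n (g * h) := by
  obtain ⟨W, hW, hW'⟩ := hg
  obtain ⟨V, hV, hV'⟩ := hh
  refine ⟨alpha (n + 1) (iota n g) V * W, ?_, ?_⟩
  · rw [map_mul, map_mul, MulAut.mul_apply, hV, map_mul, map_mul, map_inv, hW]
    group
  · rw [map_mul, pi0_alpha, hV', hW', map_inv, SemidirectProduct.mul_left, mul_inv_rev]

private theorem AR3_inv (n : ℕ) (g : Gam n) (hg : AR3P n g) : AR3P n g⁻¹ := by
  obtain ⟨W, hW, hW'⟩ := hg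
  have key : ∀ x : FreeGroup ℕ, alpha (n + 1) (iota n g⁻¹) (alpha (n + 1) (iota n g) x) = x := by
    intro x
    rw [← MulAut.mul_apply, ← map_mul, ← map_mul, inv_mul_cancel, map_one, map_one,
      MulAut.one_apply]
  have hpi := pi0_alpha n g⁻¹ W⁻¹
  have h1 := key (of 0)
  rw [hW] at h1
  unfold AR3P
  generalize alpha (n + 1) (iota n g⁻¹) = A at h1 hpi ⊢
  refine ⟨A W⁻¹, ?_, ?_⟩
  · rw [map_mul, map_mul, map_inv] at h1
    rw [map_inv]
    generalize A W = V at h1 ⊢
    generalize A (of 0) = Y at h1 ⊢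
    rw [← h1]
    group
  · rw [hpi, map_inv, hW', inv_inv, SemidirectProduct.inv_left, SemidirectProduct.inv_right,
      map_inv (alpha n g.right⁻¹), inv_inv]

private theorem AR3_ss (n k : ℕ) : AR3P n (ss n k) := by
  refine ⟨1, ?_, ?_⟩
  · rw [iota_ss, alpha_sg]
    split_ifs with h
    · rw [bact_ne _ _ (by omega) (by omega)]
      simp
    · simp
  · simp [ss]

private theorem AR3_yy0 (n : ℕ) : AR3P n (yy n 0) := by
  refine ⟨(of 1)⁻¹, ?_, ?_⟩
  · rw [iota_yy, Ydef, RR, inv_one, one_mul, mul_one, map_mul, MulAut.mul_apply, alpha_sg,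
      if_pos (by omega), bact_self, bact_succ]
    group
  · simp [yy, pi0]

private theorem AR3_yy (n k : ℕ) (hk : k ≤ n) : AR3P n (yy n k) := by
  induction k with
  | zero => exact AR3_yy0 n
  | succ k ih =>
    have h := ss_yy n k k (by omega)
    rw [bact_self] at h
    have h' : yy n (k + 1) = ss n k * yy n k * (ss n k)⁻¹ := by
      rw [h]; rfl
    rw [h']
    exact AR3_mul n _ _ (AR3_mul n _ _ (AR3_ss n k) (ih (by omega))) (AR3_inv n _ (AR3_ss n k))

theorem alpha_y0 (n : ℕ) (g : Gam n) (hg : g ∈ GamP n) :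
    ∃ W : FreeGroup ℕ, alpha (n + 1) (iota n g) (of 0) = W * of 0 * W⁻¹ ∧ pi0 W = (g.left)⁻¹ := by
  have h : AR3P n g := by
    unfold GamP at hg
    induction hg using Subgroup.closure_induction with
    | mem x hx =>
      rcases hx with ⟨k, rfl⟩ | ⟨k, hk, rfl⟩
      · exact AR3_ss n k
      · exact AR3_yy n k hk
    | one => exact AR3_one n
    | mul x y _ _ hx hy => exact AR3_mul n x y hx hy
    | inv x _ hx => exact AR3_inv n x hx
  exact h

end Pool.Agent.VB

end Row_AR3

section Row_AR4

/-!
ROW AR4: if W commutes with y_0 then pi0 W = 1.  Let FreeGroup ℕ act on FreeGroup ℕ × ℤ by permutations: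
y_0 : (x,z) -> if x = 1 then (1,z+1) else (x,z);  y_(i+1) : (x,z) -> (y_i x, z).  Then W (x,z) = (pi0 W * x, z + c(x)) with
some c independent of z.  W y_0 = y_0 W applied to (1,0): (pi0 W, 1 + c) = y_0 (pi0 W, c): so y_0 moves (pi0 W, c), i.e. pi0 W = 1.
-/

namespace Pool.Agent.VB

open FreeGroup (of)

/-- the permutation of `FreeGroup ℕ × ℤ` given by the generator `y_0` -/
def AR4_zero : Equiv.Perm (FreeGroup ℕ × ℤ) where
  toFun p := (p.1, if p.1 = 1 then p.2 + 1 else p.2)
  invFun p := (p.1, if p.1 = 1 then p.2 - 1 else p.2)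
  left_inv p := by
    obtain ⟨x, z⟩ := p
    by_cases h : x = 1 <;> simp [h]
  right_inv p := by
    obtain ⟨x, z⟩ := p
    by_cases h : x = 1 <;> simp [h]

/-- the permutation of `FreeGroup ℕ × ℤ` given by the generator `y_(i+1)` -/
def AR4_succ (i : ℕ) : Equiv.Perm (FreeGroup ℕ × ℤ) where
  toFun p := (of i * p.1, p.2)
  invFun p := ((of i)⁻¹ * p.1, p.2)
  left_inv p := by simp
  right_inv p := by simp

/-- the action of the free group -/
def AR4_rho : FreeGroup ℕ →* Equiv.Perm (FreeGroup ℕ × ℤ) :=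
  FreeGroup.lift (fun k => if k = 0 then AR4_zero else AR4_succ (k - 1))

theorem AR4_gen (k : ℕ) : ∃ c : FreeGroup ℕ → ℤ, ∀ x z,
    AR4_rho (of k) (x, z) = (pi0 (of k) * x, z + c x) := by
  rcases Nat.eq_zero_or_pos k with hk | hk
  · subst hk
    refine ⟨fun x => if x = 1 then 1 else 0, fun x z => ?_⟩
    by_cases h : x = 1 <;> simp [AR4_rho, pi0, AR4_zero, h]
  · have hk' : k ≠ 0 := hk.ne'
    exact ⟨fun _ => 0, fun x z => by simp [AR4_rho, pi0, AR4_succ, hk']⟩

theorem AR4_inv (W : FreeGroup ℕ) (h : ∃ c : FreeGroup ℕ → ℤ, ∀ x z,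
    AR4_rho W (x, z) = (pi0 W * x, z + c x)) : ∃ c : FreeGroup ℕ → ℤ, ∀ x z,
    AR4_rho W⁻¹ (x, z) = (pi0 W⁻¹ * x, z + c x) := by
  obtain ⟨c, hc⟩ := h
  refine ⟨fun x => - c ((pi0 W)⁻¹ * x), fun x z => ?_⟩
  rw [map_inv, map_inv, Equiv.Perm.inv_eq_iff_eq, hc]
  simp

theorem AR4_all (W : FreeGroup ℕ) : ∃ c : FreeGroup ℕ → ℤ, ∀ x z,
    AR4_rho W (x, z) = (pi0 W * x, z + c x) := by
  induction W using FreeGroup.induction_on with
  | C1 => exact ⟨fun _ => 0, fun x z => by simp⟩
  | of k => exact AR4_gen k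
  | inv_of k _ => exact AR4_inv _ (AR4_gen k)
  | mul V W hV hW =>
    obtain ⟨c, hc⟩ := hV
    obtain ⟨d, hd⟩ := hW
    refine ⟨fun x => d x + c (pi0 W * x), fun x z => ?_⟩
    rw [map_mul, Equiv.Perm.mul_apply, hd, hc, map_mul, mul_assoc, add_assoc]

theorem centralizer_y0 (W : FreeGroup ℕ) (h : W * of 0 = of 0 * W) : pi0 W = 1 := by
  by_contra hne
  obtain ⟨c, hc⟩ := AR4_all W
  have h0 : ∀ x z, AR4_rho (of 0) (x, z) = (x, if x = 1 then z + 1 else z) := by
    intro x z
    simp [AR4_rho, AR4_zero]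
  have h1 := congrArg (fun g => AR4_rho g ((1 : FreeGroup ℕ), (0 : ℤ))) h
  simp only [map_mul, Equiv.Perm.mul_apply] at h1
  rw [h0, hc, hc, h0] at h1
  have h2 := congrArg Prod.snd h1
  simp [hne] at h2

end Pool.Agent.VB

end Row_AR4

section Row_AR5

/-!
ROW AR5: Artin's theorem: alpha n is injective.  Induction on n.  n = 0: every sg 0 k = 1, so Br 0 is trivial.
n+1: (j,g) := Theta n b (0,1).  AR1: y_0 = w y_j w^-1 so j = 0 (map to ℤ or FreeGroup abelianisation: lift (fun k => if k = j then ofAdd 1 else 1)).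
T5 with p = (0,1): b = iota g, g in GamP.  AR2: alpha n g.right (pi0 x) = pi0 x for all x, pi0 surjective: alpha n g.right = 1,
so g.right = 1 by induction.  AR3: y_0 = W y_0 W^-1, so pi0 W = 1 (AR4), g.left = 1.  g = 1, b = 1.
-/

namespace Pool.Agent.VB

open FreeGroup (of)

private theorem AR5_pi0_surj (y : FreeGroup ℕ) : ∃ x : FreeGroup ℕ, pi0 x = y := by
  refine ⟨FreeGroup.lift (fun k => (of (k + 1) : FreeGroup ℕ)) y, ?_⟩
  have h : pi0.comp (FreeGroup.lift (fun k => (of (k + 1) : FreeGroup ℕ))) = MonoidHom.id _ := by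
    ext k
    simp [pi0]
  exact DFunLike.congr_fun h y

private theorem AR5_zero (b : Br 0) : b = 1 := by
  have hb : b ∈ Subgroup.closure (Set.range (PresentedGroup.of (rels := brRels 0))) := by
    rw [PresentedGroup.closure_range_of]
    exact Subgroup.mem_top b
  have hle : Subgroup.closure (Set.range (PresentedGroup.of (rels := brRels 0))) ≤ ⊥ := by
    rw [Subgroup.closure_le]
    rintro x ⟨k, rfl⟩
    have : sg 0 k = 1 := sg_eq_one 0 k (Nat.zero_le k)
    exact this
  exact (Subgroup.mem_bot).1 (hle hb)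

private theorem AR5_conj (j : ℕ) (w : FreeGroup ℕ) (h : (of 0 : FreeGroup ℕ) = w * of j * w⁻¹) :
    j = 0 := by
  by_contra hj
  have h1 := congrArg (FreeGroup.lift
    (fun k : ℕ => if k = 0 then Multiplicative.ofAdd (1 : ℤ) else 1)) h
  rw [map_mul, map_mul, map_inv, mul_comm _ (FreeGroup.lift _ (of j)), mul_assoc,
    mul_inv_cancel, mul_one, FreeGroup.lift_apply_of, FreeGroup.lift_apply_of, if_pos rfl,
    if_neg hj] at h1
  have h2 := congrArg Multiplicative.toAdd h1
  simp at h2

theorem artin_faithful (n : ℕ) (b : Br n) (h : alpha n b = 1) : b = 1 := by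
  induction n with
  | zero => exact AR5_zero b
  | succ n ih =>
    obtain ⟨-, w, hw⟩ := alpha_conj n b (0, 1) (Nat.zero_le _)
    obtain ⟨-, hg, hE⟩ := Theta_E n b (0, 1) (Nat.zero_le _) (one_mem _)
    rw [h, MulAut.one_apply] at hw
    have hj : (Theta n b (0, 1)).1 = 0 := AR5_conj _ w hw
    set g := (Theta n b (0, 1)).2 with hgdef
    rw [hj] at hE
    have hb : b = iota n g := by
      simpa [RR] using hE
    have hr : g.right = 1 := by
      apply ih
      ext1 y
      obtain ⟨x, hx⟩ := AR5_pi0_surj y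
      have h1 := pi0_alpha n g x
      rw [← hb, h, MulAut.one_apply, hx] at h1
      rw [MulAut.one_apply]
      exact h1.symm
    have hl : g.left = 1 := by
      obtain ⟨W, hW, hpW⟩ := alpha_y0 n g hg
      rw [← hb, h, MulAut.one_apply] at hW
      have h1 : pi0 W = 1 := centralizer_y0 W (by
        conv_rhs => rw [hW]
        group)
      rw [h1] at hpW
      exact inv_eq_one.1 hpW.symm
    have hg1 : g = 1 := SemidirectProduct.ext (by rw [hl]; rfl) (by rw [hr]; rfl)
    rw [hb, hg1, map_one]

end Pool.Agent.VB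

end Row_AR5

section Row_ALdef

/-!
Definitions for the Artin-Hurwitz lemma.  A tuple of conjugates of generators is a list of pairs
`(g,c)`, standing for `u = g y_c g^-1`.
-/

namespace Pool.Agent.VB

open FreeGroup (of)

/-- the conjugate `g y_c g^-1` -/
def uu (p : FreeGroup ℕ × ℕ) : FreeGroup ℕ := p.1 * of p.2 * p.1⁻¹

/-- the product of the tuple -/
def uprod (L : List (FreeGroup ℕ × ℕ)) : FreeGroup ℕ := (L.map uu).prod

/-- the size: total length of the conjugators -/
def usize (L : List (FreeGroup ℕ × ℕ)) : ℕ := (L.map (fun p => p.1.norm)).sum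

/-- the word `(h^-1 g_0) y_(c_0) (g_0^-1 g_1) y_(c_1) ... y_(c_(l-1)) g_(l-1)^-1` -/
def chainW : FreeGroup ℕ → List (FreeGroup ℕ × ℕ) → List (ℕ × Bool)
  | h, [] => (h⁻¹).toWord
  | h, (g, c) :: L => (h⁻¹ * g).toWord ++ (c, true) :: chainW g L

/-- `p` is shortened: the reduced word of `g` does not end with `y_c` or `y_c^-1` -/
def Tight (p : FreeGroup ℕ × ℕ) : Prop := ∀ e : Bool, p.1.toWord.getLast? ≠ some (p.2, e)

/-- no move shortens the pair `p, p'` -/
def NoMove (p p' : FreeGroup ℕ × ℕ) : Prop :=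
  (p.1⁻¹ * p'.1).toWord.head? ≠ some (p.2, false) ∧
    (p.1⁻¹ * p'.1).toWord.getLast? ≠ some (p'.2, false)

/-- `y_r ... y_(r+l-1)` -/
def omr (r l : ℕ) : FreeGroup ℕ := ((List.range' r l).map (fun k => (of k : FreeGroup ℕ))).prod

end Pool.Agent.VB

end Row_ALdef

section Row_L1

/-!
ROW L1: the word `chainW h L` represents `h^-1 * uprod L`.  Induction on L, FreeGroup.mk_toWord, mul_mk.
-/

namespace Pool.Agent.VB

open FreeGroup (of)

theorem mk_chainW (h : FreeGroup ℕ) (L : List (FreeGroup ℕ × ℕ)) :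
    FreeGroup.mk (chainW h L) = h⁻¹ * uprod L := by
  induction L generalizing h with
  | nil =>
    rw [chainW, FreeGroup.mk_toWord, uprod, List.map_nil, List.prod_nil, mul_one]
  | cons p L ih =>
    obtain ⟨g, c⟩ := p
    have e1 : (c, true) :: chainW g L = [(c, true)] ++ chainW g L := rfl
    have e2 : FreeGroup.mk [(c, true)] = of c := rfl
    have e3 : uprod ((g, c) :: L) = g * of c * g⁻¹ * uprod L := by
      rw [uprod, List.map_cons, List.prod_cons]
      rfl
    rw [chainW, ← FreeGroup.mul_mk, FreeGroup.mk_toWord, e1, ← FreeGroup.mul_mk, e2, ih, e3]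
    group

end Pool.Agent.VB

end Row_L1

section Row_L2

/-!
ROW L2: if all pairs are tight and no consecutive pair has a move, then `chainW 1 L` is reduced.
-/

namespace Pool.Agent.VB

open FreeGroup (of)

private theorem L2_aux (L : List (FreeGroup ℕ × ℕ)) : ∀ (g : FreeGroup ℕ) (c : ℕ),
    Tight (g, c) → (∀ p ∈ L, Tight p) → ((g, c) :: L).IsChain NoMove →
    FreeGroup.IsReduced ((c, true) :: chainW g L) := by
  induction L with
  | nil =>
    intro g c ht _ _
    simp only [chainW]
    refine List.isChain_cons.2 ⟨?_, FreeGroup.isReduced_toWord⟩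
    intro y hy hc
    rw [FreeGroup.toWord_inv, FreeGroup.invRev] at hy
    simp only [List.head?_reverse, List.getLast?_map, Option.mem_def, Option.map_eq_some_iff] at hy
    obtain ⟨x, hx, rfl⟩ := hy
    exfalso
    apply ht x.2
    simp only at hc
    rw [hx, hc]
  | cons p L ih =>
    obtain ⟨g', c'⟩ := p
    intro g c ht hL hch
    rw [List.isChain_cons_cons] at hch
    have ihx := ih g' c' (hL _ (by simp)) (fun p hp => hL p (by simp [hp])) hch.2
    simp only [chainW]
    have hW : FreeGroup.IsReduced (g⁻¹ * g').toWord := FreeGroup.isReduced_toWord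
    have h2 : FreeGroup.IsReduced ((g⁻¹ * g').toWord ++ (c', true) :: chainW g' L) := by
      refine List.isChain_append.2 ⟨hW, ihx, ?_⟩
      intro x hx y hy hxy
      simp only [List.head?_cons, Option.mem_def, Option.some.injEq] at hy
      subst hy
      obtain ⟨a, b⟩ := x
      simp only at hxy
      subst hxy
      cases b
      · exact absurd hx hch.1.2
      · rfl
    refine List.isChain_cons.2 ⟨?_, h2⟩
    intro y hy hc
    obtain ⟨a, b⟩ := y
    simp only at hc
    subst hc
    cases hw : (g⁻¹ * g').toWord with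
    | nil =>
      rw [hw] at hy
      simp only [List.nil_append, List.head?_cons, Option.mem_def, Option.some.injEq,
        Prod.mk.injEq] at hy
      exact hy.2
    | cons z w =>
      rw [hw] at hy
      simp only [List.cons_append, List.head?_cons, Option.mem_def, Option.some.injEq] at hy
      subst hy
      cases b
      · exfalso
        apply hch.1.1
        simp [hw]
      · rfl

theorem chainW_reduced (L : List (FreeGroup ℕ × ℕ)) (h1 : ∀ p ∈ L, Tight p)
    (h2 : L.IsChain NoMove) : FreeGroup.IsReduced (chainW 1 L) := by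
  cases L with
  | nil => exact FreeGroup.isReduced_toWord
  | cons p L =>
    obtain ⟨g, c⟩ := p
    have hr := L2_aux L g c (h1 _ (by simp)) (fun p hp => h1 p (by simp [hp])) h2
    simp only [chainW, inv_one, one_mul]
    refine List.isChain_append.2 ⟨FreeGroup.isReduced_toWord, hr, ?_⟩
    intro x hx y hy hxy
    simp only [List.head?_cons, Option.mem_def, Option.some.injEq] at hy
    subst hy
    obtain ⟨a, b⟩ := x
    simp only at hxy
    subst hxy
    exfalso
    exact h1 (g, a) (by simp) b hx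

end Pool.Agent.VB

end Row_L2

section Row_L3

/-!
ROW L3: if `chainW 1 L` is reduced and `uprod L = y_r ... y_(r+l-1)`, l = length L, then all conjugators are 1
and the indices are r, r+1, ....  Both `chainW 1 L` (mk_chainW with h = 1) and `(List.range' r l).map (·, true)` are reduced words
of the same element, so equal (toWord uniqueness); length of chainW 1 L = l + sum of lengths of the pieces, so all pieces
(h^-1 g).toWord are empty: g_0 = 1, g_1 = g_0, ...; compare letters.
-/

namespace Pool.Agent.VB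

open FreeGroup (of)

/-- the standard word -/
private def L3_std (r l : ℕ) : List (ℕ × Bool) := (List.range' r l).map (fun k => (k, true))

private lemma L3_std_succ (r l : ℕ) : L3_std r (l + 1) = (r, true) :: L3_std (r + 1) l := by
  simp [L3_std, List.range'_succ]

private lemma L3_std_length (r l : ℕ) : (L3_std r l).length = l := by
  simp [L3_std]

private lemma L3_std_reduced (l : ℕ) : ∀ r, FreeGroup.IsReduced (L3_std r l) := by
  induction l with
  | zero => intro r; exact FreeGroup.IsReduced.nil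
  | succ n ih =>
    intro r
    rw [L3_std_succ]
    cases n with
    | zero => exact FreeGroup.IsReduced.singleton
    | succ m =>
      have h := ih (r + 1)
      rw [L3_std_succ] at h ⊢
      exact FreeGroup.isReduced_cons_cons.mpr ⟨fun _ => rfl, h⟩

private lemma L3_std_mk (l : ℕ) : ∀ r, FreeGroup.mk (L3_std r l) = omr r l := by
  induction l with
  | zero => intro r; rfl
  | succ n ih =>
    intro r
    have h1 : omr r (n + 1) = of r * omr (r + 1) n := by
      simp [omr, List.range'_succ]
    rw [h1, ← ih, L3_std_succ]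
    rfl

private lemma L3_length (L : List (FreeGroup ℕ × ℕ)) :
    ∀ h : FreeGroup ℕ, L.length ≤ (chainW h L).length := by
  induction L with
  | nil => intro h; simp
  | cons p L ih =>
    obtain ⟨g, c⟩ := p
    intro h
    have := ih g
    simp only [chainW, List.length_append, List.length_cons]
    omega

private lemma L3_main (L : List (FreeGroup ℕ × ℕ)) : ∀ (h : FreeGroup ℕ) (r : ℕ),
    chainW h L = L3_std r L.length → ∀ i (hi : i < L.length), L[i] = (h, r + i) := by
  induction L with
  | nil => intro h r _ i hi; exact absurd hi (by simp)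
  | cons p L ih =>
    obtain ⟨g, c⟩ := p
    intro h r heq i hi
    have hlen := congrArg List.length heq
    rw [L3_std_length] at hlen
    simp only [chainW, List.length_append, List.length_cons] at hlen
    have hl := L3_length L g
    have h0 : (h⁻¹ * g).toWord = [] := List.length_eq_zero_iff.mp (by omega)
    have hg : h⁻¹ * g = 1 := FreeGroup.toWord_eq_nil_iff.mp h0
    have hgh : g = h := (inv_mul_eq_one.mp hg).symm
    subst hgh
    simp only [chainW, h0, List.nil_append, List.length_cons, L3_std_succ] at heq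
    obtain ⟨h1, h2⟩ := List.cons.inj heq
    have hc : c = r := congrArg Prod.fst h1
    cases i with
    | zero => simp [hc]
    | succ j =>
      have hj : j < L.length := by simpa using hi
      have := ih g (r + 1) h2 j hj
      rw [List.getElem_cons_succ, this]
      congr 1
      omega

theorem chainW_standard (L : List (FreeGroup ℕ × ℕ)) (r : ℕ)
    (h1 : FreeGroup.IsReduced (chainW 1 L)) (h2 : uprod L = omr r L.length) :
    ∀ i (hi : i < L.length), L[i] = (1, r + i) := by
  apply L3_main
  have e1 : FreeGroup.mk (chainW 1 L) = FreeGroup.mk (L3_std r L.length) := by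
    rw [mk_chainW, L3_std_mk, h2, inv_one, one_mul]
  have e2 : FreeGroup.reduce (chainW 1 L) = FreeGroup.reduce (L3_std r L.length) := by
    have := congrArg FreeGroup.toWord e1
    rwa [FreeGroup.toWord_mk, FreeGroup.toWord_mk] at this
  rwa [h1.reduce_eq, (L3_std_reduced L.length r).reduce_eq] at e2

end Pool.Agent.VB

end Row_L3

section Row_L4

/-!
ROW L4: shortening a pair that is not tight: if g.toWord ends with (c,e) then g = g' y_c^(±1) with
norm g' < norm g, and g y_c g^-1 = g' y_c g'^-1.
-/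

namespace Pool.Agent.VB

open FreeGroup (of)

private theorem L4_comm (c : ℕ) (e : Bool) :
    (FreeGroup.mk [(c, e)] : FreeGroup ℕ) * of c * (FreeGroup.mk [(c, e)])⁻¹ = of c := by
  cases e with
  | true =>
    have h : (FreeGroup.mk [(c, true)] : FreeGroup ℕ) = of c := rfl
    rw [h]
    group
  | false =>
    have h : (FreeGroup.mk [(c, false)] : FreeGroup ℕ) = (of c)⁻¹ := rfl
    rw [h]
    group

theorem shorten (p : FreeGroup ℕ × ℕ) (h : ¬ Tight p) :
    ∃ g' : FreeGroup ℕ, uu (g', p.2) = uu p ∧ g'.norm < p.1.norm := by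
  unfold Tight at h
  push Not at h
  obtain ⟨e, he⟩ := h
  obtain ⟨l, hl⟩ := List.getLast?_eq_some_iff.1 he
  have hp : p.1 = FreeGroup.mk l * FreeGroup.mk [(p.2, e)] := by
    rw [FreeGroup.mul_mk, ← hl, FreeGroup.mk_toWord]
  refine ⟨FreeGroup.mk l, ?_, ?_⟩
  · have h1 : uu p = FreeGroup.mk l * (FreeGroup.mk [(p.2, e)] * of p.2 * (FreeGroup.mk [(p.2, e)])⁻¹) *
        (FreeGroup.mk l)⁻¹ := by
      unfold uu
      rw [hp, mul_inv_rev]
      simp only [mul_assoc]
    rw [h1, L4_comm]
    rfl
  · have h2 : p.1.norm = l.length + 1 := by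
      show p.1.toWord.length = _
      rw [hl, List.length_append]
      rfl
    rw [h2]
    exact Nat.lt_succ_of_le FreeGroup.norm_mk_le

end Pool.Agent.VB

end Row_L4

section Row_L5

/-!
ROW L5: the moves.  Let p = (g,c), p' = (g',c'), tight, and not NoMove.
(A) (g^-1 g').toWord = (c,false) :: w: g' = g y_c^-1 h with h = mk w; since the word of g does not end with (c,true)
(tight), g.toWord ++ (c,false) :: w is reduced, so norm g' = norm g + 1 + length w, and norm (uu p * g') = norm (g h) ≤ norm g + length w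
< norm g'.  (uu p * g' = g y_c g^-1 g y_c^-1 h = g h.)
(B) (g^-1 g').toWord = w ++ [(c',false)]: g = g' y_(c') h^-1, h = mk w; g'.toWord ++ (c',true) :: (word of h^-1) reduced (tight p');
norm ((uu p')^-1 * g) = norm (g' h^-1) < norm g.
-/

namespace Pool.Agent.VB

open FreeGroup (of)

private theorem L5_aux (g g' : FreeGroup ℕ) (c : ℕ) (b : Bool) (w : List (ℕ × Bool))
    (ht : Tight (g, c)) (h : (g⁻¹ * g').toWord = (c, b) :: w) :
    (g * FreeGroup.mk [(c, !b)] * g⁻¹ * g').norm < g'.norm := by
  have e1 : g⁻¹ * g' = FreeGroup.mk ((c, b) :: w) := by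
    rw [← h, FreeGroup.mk_toWord]
  have e2 : g' = g * FreeGroup.mk ((c, b) :: w) := by
    rw [← e1]; group
  have hred : FreeGroup.IsReduced (g.toWord ++ (c, b) :: w) := by
    have h2 : FreeGroup.IsReduced ((c, b) :: w) := by
      rw [← h]; exact FreeGroup.isReduced_toWord
    have h3 : FreeGroup.IsReduced g.toWord := FreeGroup.isReduced_toWord
    unfold FreeGroup.IsReduced at h2 h3 ⊢
    rw [List.isChain_append]
    refine ⟨h3, h2, ?_⟩
    intro x hx y hy
    simp only [List.head?_cons, Option.mem_def, Option.some.injEq] at hy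
    subst hy
    intro h4
    exfalso
    apply ht x.2
    rw [Option.mem_def.1 hx]
    simp only at h4
    simp [← h4]
  have hg' : g'.toWord = g.toWord ++ (c, b) :: w := by
    have h5 : g' = FreeGroup.mk (g.toWord ++ (c, b) :: w) := by
      rw [← FreeGroup.mul_mk, FreeGroup.mk_toWord]
      exact e2
    rw [h5, FreeGroup.toWord_mk, hred.reduce_eq]
  have hn : g'.norm = g.norm + (1 + w.length) := by
    unfold FreeGroup.norm
    rw [hg', List.length_append, List.length_cons]
    omega
  have e3 : g * FreeGroup.mk [(c, !b)] * g⁻¹ * g' = g * FreeGroup.mk w := by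
    have e4 : (FreeGroup.mk ((c, b) :: w)) = FreeGroup.mk [(c, b)] * FreeGroup.mk w := by
      rw [FreeGroup.mul_mk]; rfl
    have e5 : FreeGroup.mk [(c, !b)] * FreeGroup.mk [(c, b)] = (1 : FreeGroup ℕ) := by
      have : FreeGroup.mk [(c, !b)] = (FreeGroup.mk [(c, b)])⁻¹ := by
        rw [FreeGroup.inv_mk]; rfl
      rw [this, inv_mul_cancel]
    calc g * FreeGroup.mk [(c, !b)] * g⁻¹ * g'
        = g * FreeGroup.mk [(c, !b)] * (g⁻¹ * g') := by group
      _ = g * ((FreeGroup.mk [(c, !b)] * FreeGroup.mk [(c, b)]) * FreeGroup.mk w) := by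
          rw [e1, e4]; simp only [mul_assoc]
      _ = g * FreeGroup.mk w := by rw [e5, one_mul]
  rw [e3, hn]
  have h6 := FreeGroup.norm_mul_le g (FreeGroup.mk w)
  have h7 : (FreeGroup.mk w).norm ≤ w.length := FreeGroup.norm_mk_le
  omega

theorem move_shortens (p p' : FreeGroup ℕ × ℕ) (h1 : Tight p) (h2 : Tight p')
    (h : ¬ NoMove p p') :
    (uu p * p'.1).norm < p'.1.norm ∨ ((uu p')⁻¹ * p.1).norm < p.1.norm := by
  obtain ⟨g, c⟩ := p
  obtain ⟨g', c'⟩ := p'
  unfold NoMove at h
  rw [not_and_or, not_not, not_not] at h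
  simp only at h
  rcases h with h | h
  · left
    obtain ⟨w, hw⟩ : ∃ w, (g⁻¹ * g').toWord = (c, false) :: w := by
      cases hX : (g⁻¹ * g').toWord with
      | nil => rw [hX] at h; simp at h
      | cons a w =>
        rw [hX] at h
        simp only [List.head?_cons, Option.some.injEq] at h
        exact ⟨w, by rw [h]⟩
    exact L5_aux g g' c false w h1 hw
  · right
    obtain ⟨w, hw⟩ : ∃ w, (g'⁻¹ * g).toWord = (c', true) :: w := by
      have e : g'⁻¹ * g = (g⁻¹ * g')⁻¹ := by group
      rw [e, FreeGroup.toWord_inv]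
      obtain ⟨ys, hys⟩ := List.getLast?_eq_some_iff.1 h
      rw [hys]
      exact ⟨FreeGroup.invRev ys, by simp [FreeGroup.invRev]⟩
    have h3 := L5_aux g' g c' true w h2 hw
    have e2 : (uu (g', c'))⁻¹ = g' * FreeGroup.mk [(c', !true)] * g'⁻¹ := by
      simp only [uu]
      have : FreeGroup.mk [(c', !true)] = (of c')⁻¹ := by
        rw [of, FreeGroup.inv_mk]; rfl
      rw [this]
      group
    rw [e2]
    exact h3

end Pool.Agent.VB

end Row_L5

section Row_L6

/-!
ROW L6: the moves come from braids.  Suppose alpha n b (y_(r+i)) = u_i for all i < l, where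
(u_i) is the tuple of L; let k+1 < l.  Then b * s_(r+k) gives the tuple with (u_k, u_(k+1)) replaced by
(u_(k+1), u_(k+1)^-1 u_k u_(k+1)) and b * s_(r+k)^-1 gives (u_k u_(k+1) u_k^-1, u_k).  We need the converse direction: if the NEW tuple
is realised by b in the subgroup, then the OLD tuple is realised by b * s^-1 resp. b * s.  (here r + l ≤ n + 1, so r+k < n).
-/

namespace Pool.Agent.VB

open FreeGroup (of)

/-- the tuple `L` is realised by a braid in the block `[r, r+l)` -/
def Real (n r : ℕ) (L : List (FreeGroup ℕ × ℕ)) : Prop :=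
  ∃ b ∈ Subgroup.closure {g : Br n | ∃ k, r ≤ k ∧ k + 1 < r + L.length ∧ g = sg n k},
    ∀ i (hi : i < L.length), alpha n b (of (r + i)) = uu L[i]

private theorem L6_ne {α : Type} (L1 L2 : List α) (x y x' y' : α) (i : ℕ) (h1 : i ≠ L1.length)
    (h2 : i ≠ L1.length + 1) (hi : i < (L1 ++ x :: y :: L2).length)
    (hi' : i < (L1 ++ x' :: y' :: L2).length) :
    (L1 ++ x :: y :: L2)[i] = (L1 ++ x' :: y' :: L2)[i] := by
  by_cases h : i < L1.length
  · rw [List.getElem_append_left h, List.getElem_append_left h]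
  · rw [List.getElem_append_right (by omega), List.getElem_append_right (by omega)]
    obtain ⟨j, rfl⟩ : ∃ j, i = L1.length + (j + 2) := ⟨i - L1.length - 2, by omega⟩
    simp

private theorem L6_0 {α : Type} (L1 L2 : List α) (x y : α)
    (hi : L1.length < (L1 ++ x :: y :: L2).length) : (L1 ++ x :: y :: L2)[L1.length] = x := by
  simp

private theorem L6_1 {α : Type} (L1 L2 : List α) (x y : α)
    (hi : L1.length + 1 < (L1 ++ x :: y :: L2).length) :
    (L1 ++ x :: y :: L2)[L1.length + 1] = y := by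
  rw [List.getElem_append_right (by omega)]
  simp

private theorem L6_uu (u : FreeGroup ℕ) (p : FreeGroup ℕ × ℕ) :
    uu (u * p.1, p.2) = u * uu p * u⁻¹ := by
  simp only [uu, mul_inv_rev]
  group

theorem real_moveA (n r : ℕ) (L1 L2 : List (FreeGroup ℕ × ℕ)) (p p' : FreeGroup ℕ × ℕ)
    (hn : r + (L1 ++ p :: p' :: L2).length ≤ n + 1)
    (h : Real n r (L1 ++ (uu p * p'.1, p'.2) :: p :: L2)) :
    Real n r (L1 ++ p :: p' :: L2) := by
  obtain ⟨b, hb, h⟩ := h
  have hlen : (L1 ++ (uu p * p'.1, p'.2) :: p :: L2).length = (L1 ++ p :: p' :: L2).length := by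
    simp
  have hlen2 : (L1 ++ p :: p' :: L2).length = L1.length + L2.length + 2 := by
    simp; omega
  have hk : r + L1.length < n := by omega
  refine ⟨b * sg n (r + L1.length), ?_, ?_⟩
  · rw [hlen] at hb
    exact mul_mem hb (Subgroup.subset_closure ⟨r + L1.length, by omega, by omega, rfl⟩)
  · intro i hi
    rw [map_mul, MulAut.mul_apply, alpha_sg, if_pos hk]
    have e0 := h L1.length (by omega)
    have e1 := h (L1.length + 1) (by omega)
    rw [L6_0, L6_uu] at e0
    rw [L6_1] at e1
    by_cases h0 : i = L1.length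
    · subst h0
      rw [bact_self, L6_0, Nat.add_assoc, e1]
    · by_cases h1 : i = L1.length + 1
      · subst h1
        rw [← Nat.add_assoc, bact_succ, L6_1, map_mul, map_mul, map_inv, Nat.add_assoc, e1, e0]
        group
      · rw [bact_ne _ _ (by omega) (by omega), h i (by omega)]
        rw [L6_ne L1 L2 _ _ _ _ i h0 h1]

theorem real_moveB (n r : ℕ) (L1 L2 : List (FreeGroup ℕ × ℕ)) (p p' : FreeGroup ℕ × ℕ)
    (hn : r + (L1 ++ p :: p' :: L2).length ≤ n + 1)
    (h : Real n r (L1 ++ p' :: ((uu p')⁻¹ * p.1, p.2) :: L2)) :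
    Real n r (L1 ++ p :: p' :: L2) := by
  obtain ⟨b, hb, h⟩ := h
  have hlen : (L1 ++ p' :: ((uu p')⁻¹ * p.1, p.2) :: L2).length =
      (L1 ++ p :: p' :: L2).length := by
    simp
  have hlen2 : (L1 ++ p :: p' :: L2).length = L1.length + L2.length + 2 := by
    simp; omega
  have hk : r + L1.length < n := by omega
  have inv0 : (bact (r + L1.length))⁻¹ (of (r + L1.length + 1)) = of (r + L1.length) := by
    rw [← bact_self, ← MulAut.mul_apply, inv_mul_cancel, MulAut.one_apply]
  have inv1 : (bact (r + L1.length))⁻¹ (of (r + L1.length)) =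
      of (r + L1.length) * of (r + L1.length + 1) * (of (r + L1.length))⁻¹ := by
    have hx : bact (r + L1.length) (of (r + L1.length) * of (r + L1.length + 1) *
        (of (r + L1.length))⁻¹) = of (r + L1.length) := by
      rw [map_mul, map_mul, map_inv, bact_self, bact_succ]
      group
    rw [← hx, ← MulAut.mul_apply, inv_mul_cancel, MulAut.one_apply, hx]
  have inv2 : ∀ j, j ≠ r + L1.length → j ≠ r + L1.length + 1 →
      (bact (r + L1.length))⁻¹ (of j) = of j := by
    intro j h1 h2
    have hx := bact_ne (r + L1.length) j h1 h2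
    rw [← hx, ← MulAut.mul_apply, inv_mul_cancel, MulAut.one_apply, hx]
  refine ⟨b * (sg n (r + L1.length))⁻¹, ?_, ?_⟩
  · rw [hlen] at hb
    exact mul_mem hb
      (inv_mem (Subgroup.subset_closure ⟨r + L1.length, by omega, by omega, rfl⟩))
  · intro i hi
    rw [map_mul, MulAut.mul_apply, map_inv, alpha_sg, if_pos hk]
    have e0 := h L1.length (by omega)
    have e1 := h (L1.length + 1) (by omega)
    rw [L6_0] at e0
    rw [L6_1, L6_uu] at e1
    by_cases h0 : i = L1.length
    · subst h0
      rw [inv1, L6_0, map_mul, map_mul, map_inv, Nat.add_assoc, e0, e1]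
      group
    · by_cases h1 : i = L1.length + 1
      · subst h1
        rw [← Nat.add_assoc, inv0, L6_1, e0]
      · rw [inv2 _ (by omega) (by omega), h i (by omega)]
        rw [L6_ne L1 L2 _ _ _ _ i h0 h1]

end Pool.Agent.VB

end Row_L6

section Row_L7

/-!
ROW L7: the Artin-Hurwitz lemma.  Strong induction on usize L.
If some p in L is not tight: replace it (L4) by a shorter pair with the same uu: uprod, length same, usize smaller; Real transfers
(same uu).  Else if L.IsChain NoMove fails: L = L1 ++ p :: p' :: L2 with ¬ NoMove p p'; L5 gives a move that lowers usize and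
keeps uprod and length; by induction the new tuple is Real; L6.  Else L2, L3: L[i] = (1, r+i), b = 1.
-/

namespace Pool.Agent.VB

open FreeGroup (of)

private theorem L7_uu (u : FreeGroup ℕ) (p : FreeGroup ℕ × ℕ) :
    uu (u * p.1, p.2) = u * uu p * u⁻¹ := by
  simp only [uu, mul_inv_rev]
  group

private theorem L7_usize (L1 L2 : List (FreeGroup ℕ × ℕ)) :
    usize (L1 ++ L2) = usize L1 + usize L2 := by
  simp [usize]

private theorem L7_usize_cons (p : FreeGroup ℕ × ℕ) (L : List (FreeGroup ℕ × ℕ)) :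
    usize (p :: L) = p.1.norm + usize L := by
  simp [usize]

private theorem L7_uprod (L1 L2 : List (FreeGroup ℕ × ℕ)) :
    uprod (L1 ++ L2) = uprod L1 * uprod L2 := by
  simp [uprod]

private theorem L7_uprod_cons (p : FreeGroup ℕ × ℕ) (L : List (FreeGroup ℕ × ℕ)) :
    uprod (p :: L) = uu p * uprod L := by
  simp [uprod]

private theorem L7_repl (n r : ℕ) (L1 L2 : List (FreeGroup ℕ × ℕ)) (p p' : FreeGroup ℕ × ℕ)
    (hp : uu p' = uu p) (h : Real n r (L1 ++ p' :: L2)) : Real n r (L1 ++ p :: L2) := by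
  obtain ⟨b, hb, h⟩ := h
  have hlen : (L1 ++ p' :: L2).length = (L1 ++ p :: L2).length := by simp
  rw [hlen] at hb
  refine ⟨b, hb, fun i hi => ?_⟩
  rw [h i (by omega)]
  by_cases h0 : i < L1.length
  · rw [List.getElem_append_left h0, List.getElem_append_left h0]
  · rw [List.getElem_append_right (by omega), List.getElem_append_right (by omega)]
    by_cases h1 : i = L1.length
    · subst h1
      simpa using hp
    · obtain ⟨j, rfl⟩ : ∃ j, i = L1.length + (j + 1) := ⟨i - L1.length - 1, by omega⟩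
      simp

private theorem L7_split (L : List (FreeGroup ℕ × ℕ)) (h : ¬ L.IsChain NoMove) :
    ∃ L1 p p' L2, L = L1 ++ p :: p' :: L2 ∧ ¬ NoMove p p' := by
  by_contra hc
  apply h
  rw [List.isChain_iff_forall_rel_of_append_cons_cons]
  intro a b l1 l2 hl
  by_contra hn
  exact hc ⟨l1, a, b, l2, hl, hn⟩

private theorem L7_main (n r : ℕ) : ∀ (N : ℕ) (L : List (FreeGroup ℕ × ℕ)), usize L = N →
    r + L.length ≤ n + 1 → uprod L = omr r L.length → Real n r L := by
  intro N
  induction N using Nat.strong_induction_on with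
  | _ N ih =>
  intro L hN hn h
  by_cases ht : ∀ p ∈ L, Tight p
  · by_cases hc : L.IsChain NoMove
    · have hred := chainW_reduced L ht hc
      have hst := chainW_standard L r hred h
      refine ⟨1, one_mem _, fun i hi => ?_⟩
      rw [hst i hi, map_one, MulAut.one_apply]
      simp [uu]
    · obtain ⟨L1, p, p', L2, rfl, hm⟩ := L7_split L hc
      have hp : Tight p := ht p (by simp)
      have hp' : Tight p' := ht p' (by simp)
      have hlen2 : (L1 ++ p :: p' :: L2).length = L1.length + L2.length + 2 := by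
        simp; omega
      simp only [L7_usize, L7_usize_cons] at hN
      rcases move_shortens p p' hp hp' hm with hA | hB
      · have hlen : (L1 ++ (uu p * p'.1, p'.2) :: p :: L2).length =
            (L1 ++ p :: p' :: L2).length := by simp
        apply real_moveA n r L1 L2 p p' hn
        refine ih _ ?_ _ rfl (by omega) ?_
        · simp only [L7_usize, L7_usize_cons]
          omega
        · rw [hlen, ← h]
          simp only [L7_uprod, L7_uprod_cons, L7_uu]
          group
      · have hlen : (L1 ++ p' :: ((uu p')⁻¹ * p.1, p.2) :: L2).length =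
            (L1 ++ p :: p' :: L2).length := by simp
        apply real_moveB n r L1 L2 p p' hn
        refine ih _ ?_ _ rfl (by omega) ?_
        · simp only [L7_usize, L7_usize_cons]
          omega
        · rw [hlen, ← h]
          simp only [L7_uprod, L7_uprod_cons, L7_uu]
          group
  · push Not at ht
    obtain ⟨p, hpL, hp⟩ := ht
    obtain ⟨L1, L2, rfl⟩ := List.append_of_mem hpL
    obtain ⟨g', hg, hlt⟩ := shorten p hp
    have hlen : (L1 ++ (g', p.2) :: L2).length = (L1 ++ p :: L2).length := by simp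
    simp only [L7_usize, L7_usize_cons] at hN
    apply L7_repl n r L1 L2 p (g', p.2) hg
    refine ih _ ?_ _ rfl (by omega) ?_
    · simp only [L7_usize, L7_usize_cons]
      omega
    · rw [hlen, ← h]
      simp only [L7_uprod, L7_uprod_cons, hg]

theorem artin_hurwitz (n r : ℕ) (L : List (FreeGroup ℕ × ℕ)) (hn : r + L.length ≤ n + 1)
    (h : uprod L = omr r L.length) : Real n r L :=
  L7_main n r _ L rfl hn h

end Pool.Agent.VB

end Row_L7
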