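import Pool.Agent.Lib.MP_7c21d5_al.VB01_Modules

set_option autoImplicit false

section Row_Cdef

/-!
Definitions for the generic twisting theorem (paper, section 2).
-/

namespace Pool.Agent.VB

open FreeGroup (of)

section top
variable {ι R : Type} [Fintype ι] [DecidableEq ι] [CommRing R]

/-- `(1 + Y ea ea') B (1 - Y ea ea')` over `R[Y]` -/
noncomputable def hatM (ea ea' : ι → R) (B : Matrix ι ι R) : Matrix ι ι (Polynomial R) :=
  (1 + (Polynomial.X : Polynomial R) • (Matrix.vecMulVec ea ea').map Polynomial.C) *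
    B.map Polynomial.C *
    (1 - (Polynomial.X : Polynomial R) • (Matrix.vecMulVec ea ea').map Polynomial.C)

/-- constant vector -/
noncomputable def cvec (w : ι → R) : ι → Polynomial R := fun i => Polynomial.C (w i)

/-- all entries of `u` have degree ≤ d and the coefficient of degree `d` is `w` -/
def Top (u : ι → Polynomial R) (d : ℕ) (w : ι → R) : Prop :=
  (∀ i, (u i).natDegree ≤ d) ∧ ∀ i, (u i).coeff d = w i
end top

/-- `g` is in `(P Q)^k P` -/
inductive Alt {G : Type} [Group G] (P Q : Subgroup G) : ℕ → G → Prop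
  | base (a : G) (ha : a ∈ P) : Alt P Q 0 a
  | step (k : ℕ) (a b g : G) (ha : a ∈ P) (hb : b ∈ Q) (hg : Alt P Q k g) :
      Alt P Q (k + 1) (a * b * g)

/-- the data of the abstract step (paper, proof of Claim(X) for X not a clique) -/
structure StepData (G ι R : Type) [Group G] [Fintype ι] [DecidableEq ι] [CommRing R] where
  Φ : G →* Matrix ι ι (Polynomial R)
  P : Subgroup G
  Q : Subgroup G
  N : Subgroup G
  Lr : Subgroup G
  Ls : Subgroup G
  A : G → Matrix ι ι R
  B : G → Matrix ι ι R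
  ea : ι → R
  ea' : ι → R
  w : ι → R
  w' : ι → R
  cond : Prop
  hP : ∀ p ∈ P, Φ p = (A p).map Polynomial.C
  hQ : ∀ b ∈ Q, Φ b = hatM ea ea' (B b)
  hNP : N ≤ P
  hNQ : N ≤ Q
  hLs : ∀ v ∈ Ls, (Φ v).mulVec (cvec w) = cvec w
  hLr : ∀ u ∈ Lr, Matrix.vecMul (cvec w') (Φ u) = cvec w'
  ea0 : dotProduct ea' ea = 0
  ha : ∀ b ∈ Q, dotProduct ea' ((B b).mulVec ea) = 0 → b ∈ N
  hb : ∀ p ∈ P, dotProduct ea' ((A p).mulVec ea) = 0 → p ∈ N
  hc : ∀ p ∈ P, dotProduct ea' ((A p).mulVec w) = 0 →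
    dotProduct ea' w = 0 ∧ ∃ n ∈ N, ∃ v ∈ Ls, p = n * v
  hd : ∀ b ∈ Q, dotProduct ea' w = 0 → dotProduct ea' ((B b).mulVec w) = 0 →
    ∃ n ∈ N, ∃ v ∈ Ls, b = n * v
  hc' : ∀ p ∈ P, dotProduct w' ((A p).mulVec ea) = 0 →
    dotProduct w' ea = 0 ∧ ∃ u ∈ Lr, ∃ n ∈ N, p = u * n
  hd' : ∀ b ∈ Q, dotProduct w' ea = 0 → dotProduct w' ((B b).mulVec ea) = 0 →
    ∃ u ∈ Lr, ∃ n ∈ N, b = u * n
  heP : ∀ p ∈ P, dotProduct (cvec w') ((Φ p).mulVec (cvec w)) = 0 →
    cond ∧ ∃ u ∈ Lr, ∃ v ∈ Ls, p = u * v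
  heQ : ∀ b ∈ Q, dotProduct (cvec w') ((Φ b).mulVec (cvec w)) = 0 →
    cond ∧ ∃ u ∈ Lr, ∃ v ∈ Ls, b = u * v

end Pool.Agent.VB

end Row_Cdef

section Row_C1

/-!
ROW C1: top coefficients.  Everything is a finite sum of products; natDegree bounds by
natDegree_sum_le / natDegree_mul_le, coefficients of `X * p` by coeff_X_mul.
hatM ea ea' B *ᵥ u = B u - X (ea'.u) B ea + X (ea' . B u) ea - X^2 (ea'.u)(ea' . B ea) ea.
-/

namespace Pool.Agent.VB

open FreeGroup (of)

open Polynomial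

variable {ι R : Type} [Fintype ι] [DecidableEq ι] [CommRing R]

private theorem C1_mul (ea ea' : ι → R) (u : ι → R[X]) :
    ((Polynomial.X : Polynomial R) • (Matrix.vecMulVec ea ea').map Polynomial.C).mulVec u =
      fun i => X * (C (ea i) * dotProduct (cvec ea') u) := by
  funext i
  simp only [Matrix.mulVec, dotProduct, Matrix.smul_apply, Matrix.map_apply, Matrix.vecMulVec_apply,
    smul_eq_mul, cvec, Finset.mul_sum, C_mul]
  refine Finset.sum_congr rfl fun j _ => ?_
  ring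

private theorem C1_dot (w' : ι → R) (u : ι → R[X]) (d : ℕ) (w : ι → R) (h : Top u d w) :
    (dotProduct (cvec w') u).natDegree ≤ d ∧ (dotProduct (cvec w') u).coeff d = dotProduct w' w := by
  constructor
  · simp only [dotProduct, cvec]
    refine Polynomial.natDegree_sum_le_of_forall_le _ _ fun i _ => ?_
    exact (Polynomial.natDegree_C_mul_le _ _).trans (h.1 i)
  · simp only [dotProduct, cvec, Polynomial.finsetSum_coeff, Polynomial.coeff_C_mul, h.2]

private theorem C1_X (p : R[X]) (d : ℕ) (c : R) (h : p.natDegree ≤ d) (h' : p.coeff d = c)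
    (e : R) : (X * (C e * p)).natDegree ≤ d + 1 ∧ (X * (C e * p)).coeff (d + 1) = e * c := by
  constructor
  · refine Polynomial.natDegree_mul_le.trans ?_
    have h1 : (X : R[X]).natDegree ≤ 1 := Polynomial.natDegree_X_le
    have h2 := (Polynomial.natDegree_C_mul_le e p).trans h
    omega
  · rw [Polynomial.coeff_X_mul, Polynomial.coeff_C_mul, h']

private theorem C1_coeff0 (p : R[X]) (d : ℕ) (h : p.natDegree ≤ d) : p.coeff (d + 1) = 0 :=
  Polynomial.coeff_eq_zero_of_natDegree_lt (by omega)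

private theorem C1_plus (ea ea' : ι → R) (u : ι → R[X]) (d : ℕ) (w : ι → R) (h : Top u d w) :
    Top (((1 : Matrix ι ι R[X]) +
      (Polynomial.X : Polynomial R) • (Matrix.vecMulVec ea ea').map Polynomial.C).mulVec u) (d + 1)
      (dotProduct ea' w • ea) := by
  rw [Matrix.add_mulVec, Matrix.one_mulVec, C1_mul]
  have hd := C1_dot ea' u d w h
  constructor
  · intro i
    have hx := C1_X _ d _ hd.1 hd.2 (ea i)
    refine Polynomial.natDegree_add_le_of_degree_le ((h.1 i).trans (by omega)) hx.1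
  · intro i
    have hx := C1_X _ d _ hd.1 hd.2 (ea i)
    rw [Pi.add_apply, Polynomial.coeff_add, C1_coeff0 _ d (h.1 i), hx.2, Pi.smul_apply, smul_eq_mul]
    ring

private theorem C1_minus (ea ea' : ι → R) (u : ι → R[X]) (d : ℕ) (w : ι → R) (h : Top u d w) :
    Top (((1 : Matrix ι ι R[X]) -
      (Polynomial.X : Polynomial R) • (Matrix.vecMulVec ea ea').map Polynomial.C).mulVec u) (d + 1)
      ((-dotProduct ea' w) • ea) := by
  rw [Matrix.sub_mulVec, Matrix.one_mulVec, C1_mul]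
  have hd := C1_dot ea' u d w h
  constructor
  · intro i
    have hx := C1_X _ d _ hd.1 hd.2 (ea i)
    refine (Polynomial.natDegree_sub_le _ _).trans (max_le ?_ hx.1)
    exact (h.1 i).trans (by omega)
  · intro i
    have hx := C1_X _ d _ hd.1 hd.2 (ea i)
    rw [Pi.sub_apply, Polynomial.coeff_sub, C1_coeff0 _ d (h.1 i), hx.2, Pi.smul_apply, smul_eq_mul]
    ring

theorem top_cvec (w : ι → R) : Top (cvec w) 0 w := by
  constructor
  · intro i
    simp [cvec]
  · intro i
    simp [cvec]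

theorem top_map (A : Matrix ι ι R) (u : ι → R[X]) (d : ℕ) (w : ι → R) (h : Top u d w) :
    Top ((A.map Polynomial.C).mulVec u) d (A.mulVec w) :=
  ⟨fun i => (C1_dot (A i) u d w h).1, fun i => (C1_dot (A i) u d w h).2⟩

theorem top_hat (ea ea' : ι → R) (B : Matrix ι ι R) (u : ι → R[X]) (d : ℕ) (w : ι → R)
    (h : Top u d w) :
    Top ((hatM ea ea' B).mulVec u) (d + 2)
      ((-(dotProduct ea' (B.mulVec ea) * dotProduct ea' w)) • ea) := by
  have h1 := C1_minus ea ea' u d w h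
  have h2 := top_map B _ _ _ h1
  have h3 := C1_plus ea ea' _ _ _ h2
  rw [Matrix.mulVec_mulVec, Matrix.mulVec_mulVec] at h3
  have e : dotProduct ea' (B.mulVec ((-dotProduct ea' w) • ea)) =
      -(dotProduct ea' (B.mulVec ea) * dotProduct ea' w) := by
    rw [Matrix.mulVec_smul, dotProduct_smul, smul_eq_mul]
    ring
  rw [e] at h3
  exact h3

theorem top_hat0 (ea ea' : ι → R) (B : Matrix ι ι R) (w : ι → R) (h : dotProduct ea' w = 0) :
    Top ((hatM ea ea' B).mulVec (cvec w)) 1 ((dotProduct ea' (B.mulVec w)) • ea) := by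
  have h0 : dotProduct (cvec ea') (cvec w) = 0 := by
    have : dotProduct (cvec ea') (cvec w) = C (dotProduct ea' w) := by
      simp only [dotProduct, cvec, map_sum, map_mul]
    rw [this, h, map_zero]
  have h1 : ((1 : Matrix ι ι R[X]) -
      (Polynomial.X : Polynomial R) • (Matrix.vecMulVec ea ea').map Polynomial.C).mulVec (cvec w) =
      cvec w := by
    rw [Matrix.sub_mulVec, Matrix.one_mulVec, C1_mul, h0]
    funext i
    simp
  have h2 := top_map B _ _ _ (top_cvec w)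
  have h3 := C1_plus ea ea' _ _ _ h2
  rw [← h1, Matrix.mulVec_mulVec, Matrix.mulVec_mulVec] at h3
  exact h3

theorem top_dot (w' : ι → R) (u : ι → R[X]) (d : ℕ) (w : ι → R) (h : Top u d w) :
    (dotProduct (cvec w') u).coeff d = dotProduct w' w :=
  (C1_dot w' u d w h).2

theorem top_left (ea ea' w' : ι → R) (B : Matrix ι ι R) (u : ι → R[X]) (d : ℕ) (w : ι → R)
    (h : Top u d w) (h0 : dotProduct w' ea = 0) :
    (dotProduct (cvec w') ((hatM ea ea' B).mulVec u)).coeff (d + 1) =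
      -(dotProduct w' (B.mulVec ea) * dotProduct ea' w) := by
  have h1 := C1_minus ea ea' u d w h
  have h2 := top_map B _ _ _ h1
  have h3 : dotProduct (cvec w') ((hatM ea ea' B).mulVec u) = dotProduct (cvec w')
      ((B.map Polynomial.C).mulVec (((1 : Matrix ι ι R[X]) -
      (Polynomial.X : Polynomial R) • (Matrix.vecMulVec ea ea').map Polynomial.C).mulVec u)) := by
    rw [hatM, ← Matrix.mulVec_mulVec, ← Matrix.mulVec_mulVec, Matrix.add_mulVec, Matrix.one_mulVec,
      C1_mul, dotProduct_add]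
    have h4 : ∀ p : R[X], dotProduct (cvec w') (fun i => X * (C (ea i) * p)) = 0 := by
      intro p
      have h5 : dotProduct (cvec w') (fun i => X * (C (ea i) * p)) =
          C (dotProduct w' ea) * (X * p) := by
        simp only [dotProduct, cvec, map_sum, map_mul, Finset.sum_mul]
        refine Finset.sum_congr rfl fun j _ => ?_
        ring
      rw [h5, h0, map_zero, zero_mul]
    rw [h4, add_zero]
  rw [h3, top_dot w' _ _ _ h2, Matrix.mulVec_smul, dotProduct_smul, smul_eq_mul]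
  ring

end Pool.Agent.VB

end Row_C1

section Row_C2

/-!
ROW C2: every element of `P ⊔ Q` is in some `(PQ)^k P`.  The set {g | ∃ k, Alt k g} contains 1, P, Q
(b = 1 * b * 1), is closed under multiplication (Alt k g, Alt l h → Alt (k+l) (g h): induction on k; base: a * h, absorb
a in the first P factor of h) and inverses (Alt k g → Alt k g⁻¹: reverse; or: closed under right multiplication by P and Q elements and use
Subgroup.closure_induction on generators and inverses).
-/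

namespace Pool.Agent.VB

open FreeGroup (of)

variable {G : Type} [Group G] (P Q : Subgroup G)

theorem Alt.mul_left {P Q : Subgroup G} {k : ℕ} {g : G} (h : Alt P Q k g) (a : G) (ha : a ∈ P) :
    Alt P Q k (a * g) := by
  cases h with
  | base b hb => exact Alt.base _ (P.mul_mem ha hb)
  | step k b c g hb hc hg =>
    have : a * (b * c * g) = (a * b) * c * g := by group
    rw [this]
    exact Alt.step k _ _ _ (P.mul_mem ha hb) hc hg

theorem Alt.mul_right {P Q : Subgroup G} {k : ℕ} {g : G} (h : Alt P Q k g) (a : G) (ha : a ∈ P) :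
    Alt P Q k (g * a) := by
  induction h with
  | base b hb => exact Alt.base _ (P.mul_mem hb ha)
  | step k b c g hb hc hg ih =>
    have : (b * c * g) * a = b * c * (g * a) := by group
    rw [this]
    exact Alt.step k _ _ _ hb hc ih

theorem C2_right {P Q : Subgroup G} {k : ℕ} {g : G} (h : Alt P Q k g) (b : G) (hb : b ∈ Q) :
    Alt P Q (k + 1) (g * b) := by
  induction h with
  | base a ha =>
    have : a * b = a * b * 1 := by group
    rw [this]
    exact Alt.step 0 _ _ _ ha hb (Alt.base _ P.one_mem)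
  | step k a c g ha hc hg ih =>
    have : (a * c * g) * b = a * c * (g * b) := by group
    rw [this]
    exact Alt.step (k + 1) _ _ _ ha hc ih

theorem exists_alt (g : G) (hg : g ∈ P ⊔ Q) : ∃ k, Alt P Q k g := by
  rw [Subgroup.sup_eq_closure] at hg
  induction hg using Subgroup.closure_induction_right with
  | one => exact ⟨0, Alt.base _ P.one_mem⟩
  | mul_right x hx y hy ih =>
    obtain ⟨k, hk⟩ := ih
    rcases hy with hy | hy
    · exact ⟨k, hk.mul_right y hy⟩
    · exact ⟨k + 1, C2_right hk y hy⟩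
  | mul_inv_cancel x hx y hy ih =>
    obtain ⟨k, hk⟩ := ih
    rcases hy with hy | hy
    · exact ⟨k, hk.mul_right _ (P.inv_mem hy)⟩
    · exact ⟨k + 1, C2_right hk _ (Q.inv_mem hy)⟩

end Pool.Agent.VB

end Row_C2

section Row_C3

/-!
ROW C3: the key induction (paper: Claim(X), X not a clique).  `D : StepData G ι R`, R a domain.
RMin k g: some g v (v in Ls) is in (PQ)^k P and no g v is in (PQ)^k' P with k' < k.
THEOREM: if k ≥ 1 and RMin k g then there are d ≥ 1, c ≠ 0, a in P, h with g = a h, h in Q (PQ)^(k-1) P Ls, and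
Φ g *ᵥ w has top coefficient c • A(a) ea in degree d.
Proof by induction on k.  Take Alt k (g v) = a * b * g1', set g1 = g1' v^-1; g = a (b g1); Φ g w = Φ (g v) w (hLs).
* b not in N (else a b in P and g v in (PQ)^(k-1) P: Alt.mul_left).
* k = 1: g1' in P.  If ea' . A(g1') w ≠ 0: top_cvec, top_map, top_hat: d = 2, c = -(ea'.B(b)ea)(ea'.A(g1')w) ≠ 0 by ha; then top_map with A(a).
  If it is 0: hc: ea'.w = 0, g1' = n v'; Φ(g1') w = Φ(n) w; b n in Q; top_hat0 with B(b n): d = 1, c = ea' . B(b n) w, non zero by hd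
  (else b n = n' v'': g v = a n' v'' v', so g (v v'^-1 v''^-1) = a n' in P: Alt 0, contradiction).
* k ≥ 2: RMin (k-1) g1; induction: g1 = a1 h1, h1 = b2 g2 with b2 in Q, Alt (k-2) (g2 v2), top coefficient c A(a1) ea.  ea' . A(a1) ea ≠ 0 by hb: else a1 in N,
  b a1 b2 in Q, g = a (b a1 b2) g2, so Alt (k-1) (g v2), contradiction.  top_hat: d + 2, new c = -(ea'.B(b)ea)(ea'.A(a1)ea) c.
-/

namespace Pool.Agent.VB

open FreeGroup (of)

variable {G ι R : Type} [Group G] [Fintype ι] [DecidableEq ι] [CommRing R] [IsDomain R]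

/-- `k` is the minimal length of `g` modulo `Ls` on the right -/
def RMin (D : StepData G ι R) (k : ℕ) (g : G) : Prop :=
  (∃ v ∈ D.Ls, Alt D.P D.Q k (g * v)) ∧ ∀ k' < k, ∀ v ∈ D.Ls, ¬ Alt D.P D.Q k' (g * v)

theorem C3_inv {P Q : Subgroup G} {n : ℕ} {x : G} (h : Alt P Q (n + 1) x) :
    ∃ a ∈ P, ∃ b ∈ Q, ∃ g, Alt P Q n g ∧ x = a * b * g := by
  cases h with
  | step k a b g ha hb hg => exact ⟨a, ha, b, hb, g, hg, rfl⟩

theorem C3_inv0 {P Q : Subgroup G} {x : G} (h : Alt P Q 0 x) : x ∈ P := by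
  cases h with
  | base a ha => exact ha

omit [IsDomain R] in
/-- one more pair of letters, generic case -/
theorem C3_gen (D : StepData G ι R) (g a b g1 : G) (hg : g = a * (b * g1)) (ha : a ∈ D.P) (hb : b ∈ D.Q)
    (d : ℕ) (x : ι → R) (hT : Top ((D.Φ g1).mulVec (cvec D.w)) d x) :
    Top ((D.Φ g).mulVec (cvec D.w)) (d + 2)
      ((-(dotProduct D.ea' ((D.B b).mulVec D.ea) * dotProduct D.ea' x)) • (D.A a).mulVec D.ea) := by
  have h1 : (D.Φ g).mulVec (cvec D.w) =
      ((D.A a).map Polynomial.C).mulVec ((hatM D.ea D.ea' (D.B b)).mulVec ((D.Φ g1).mulVec (cvec D.w))) := by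
    rw [hg, map_mul, map_mul, D.hP a ha, D.hQ b hb, Matrix.mulVec_mulVec, Matrix.mulVec_mulVec,
      Matrix.mul_assoc]
  rw [h1, ← Matrix.mulVec_smul]
  exact top_map _ _ _ _ (top_hat _ _ _ _ _ _ hT)

theorem step_top (D : StepData G ι R) (k : ℕ) (hk : 1 ≤ k) (g : G) (h : RMin D k g) :
    ∃ d : ℕ, 1 ≤ d ∧ ∃ c : R, c ≠ 0 ∧ ∃ a ∈ D.P, ∃ b ∈ D.Q, ∃ g1 : G, g = a * (b * g1) ∧
      (∃ v ∈ D.Ls, Alt D.P D.Q (k - 1) (g1 * v)) ∧
      Top ((D.Φ g).mulVec (cvec D.w)) d (c • (D.A a).mulVec D.ea) := by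
  induction k generalizing g with
  | zero => omega
  | succ n ih =>
    obtain ⟨⟨v, hv, hAlt⟩, hmin⟩ := h
    obtain ⟨a, ha, b, hb, g1', hg1', hgv⟩ := C3_inv hAlt
    set g1 : G := g1' * v⁻¹ with hg1
    have hg : g = a * (b * g1) := by
      have : g = (g * v) * v⁻¹ := by group
      rw [this, hgv, hg1]; group
    have hg1v : g1 * v = g1' := by rw [hg1]; group
    have hbN : b ∉ D.N := by
      intro hbN
      refine hmin n (Nat.lt_succ_self n) v hv ?_
      rw [hgv]
      exact Alt.mul_left hg1' (a * b) (D.P.mul_mem ha (D.hNP hbN))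
    have hb0 : dotProduct D.ea' ((D.B b).mulVec D.ea) ≠ 0 := fun h0 => hbN (D.ha b hb h0)
    rcases Nat.eq_zero_or_pos n with hn | hn
    · subst hn
      have hg1P : g1' ∈ D.P := C3_inv0 hg1'
      have hΦg1 : (D.Φ g1).mulVec (cvec D.w) = (D.Φ g1').mulVec (cvec D.w) := by
        rw [hg1, map_mul, ← Matrix.mulVec_mulVec, D.hLs _ (D.Ls.inv_mem hv)]
      by_cases hx : dotProduct D.ea' ((D.A g1').mulVec D.w) = 0
      · obtain ⟨hew, n', hn', v', hv', hg1nv⟩ := D.hc g1' hg1P hx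
        have hbn : b * n' ∈ D.Q := D.Q.mul_mem hb (D.hNQ hn')
        have hne : dotProduct D.ea' ((D.B (b * n')).mulVec D.w) ≠ 0 := by
          intro h0
          obtain ⟨m, hm, v'', hv'', hbnm⟩ := D.hd (b * n') hbn hew h0
          refine hmin 0 (Nat.succ_pos 0) (v * v'⁻¹ * v''⁻¹)
            (D.Ls.mul_mem (D.Ls.mul_mem hv (D.Ls.inv_mem hv')) (D.Ls.inv_mem hv'')) ?_
          have : g * (v * v'⁻¹ * v''⁻¹) = a * m := by
            calc g * (v * v'⁻¹ * v''⁻¹) = (g * v) * v'⁻¹ * v''⁻¹ := by group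
              _ = a * (b * n') * v''⁻¹ := by rw [hgv, hg1nv]; group
              _ = a * m := by rw [hbnm]; group
          rw [this]
          exact Alt.base _ (D.P.mul_mem ha (D.hNP hm))
        refine ⟨1, le_rfl, dotProduct D.ea' ((D.B (b * n')).mulVec D.w), hne, a, ha, b, hb, g1, hg,
          ⟨v, hv, by rw [hg1v]; exact hg1'⟩, ?_⟩
        have h1 : (D.Φ g).mulVec (cvec D.w) =
            ((D.A a).map Polynomial.C).mulVec ((hatM D.ea D.ea' (D.B (b * n'))).mulVec (cvec D.w)) := by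
          rw [hg, map_mul, map_mul, D.hP a ha, ← D.hQ (b * n') hbn, ← Matrix.mulVec_mulVec,
            ← Matrix.mulVec_mulVec, hΦg1, hg1nv, map_mul, ← Matrix.mulVec_mulVec, D.hLs _ hv', map_mul,
            ← Matrix.mulVec_mulVec]
        rw [h1, ← Matrix.mulVec_smul]
        exact top_map _ _ _ _ (top_hat0 _ _ _ _ hew)
      · refine ⟨2, by norm_num, -(dotProduct D.ea' ((D.B b).mulVec D.ea) *
          dotProduct D.ea' ((D.A g1').mulVec D.w)), neg_ne_zero.mpr (mul_ne_zero hb0 hx), a, ha, b, hb, g1, hg,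
          ⟨v, hv, by rw [hg1v]; exact hg1'⟩, ?_⟩
        have hT : Top ((D.Φ g1).mulVec (cvec D.w)) 0 ((D.A g1').mulVec D.w) := by
          rw [hΦg1, D.hP _ hg1P]
          exact top_map _ _ _ _ (top_cvec _)
        exact C3_gen D g a b g1 hg ha hb 0 _ hT
    · have hR : RMin D n g1 := by
        refine ⟨⟨v, hv, by rw [hg1v]; exact hg1'⟩, ?_⟩
        intro k' hk' v' hv' hA
        refine hmin (k' + 1) (by omega) v' hv' ?_
        have : g * v' = a * b * (g1 * v') := by rw [hg]; group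
        rw [this]
        exact Alt.step k' a b _ ha hb hA
      obtain ⟨d, hd, c, hc, a1, ha1, b2, hb2, g2, hg1e, ⟨v2, hv2, hA2⟩, hT⟩ := ih hn g1 hR
      have hne : dotProduct D.ea' ((D.A a1).mulVec D.ea) ≠ 0 := by
        intro h0
        have ha1N := D.hb a1 ha1 h0
        refine hmin n (Nat.lt_succ_self n) v2 hv2 ?_
        have : g * v2 = a * (b * a1 * b2) * (g2 * v2) := by rw [hg, hg1e]; group
        rw [this]
        have h3 := Alt.step (P := D.P) (Q := D.Q) (n - 1) a (b * a1 * b2) (g2 * v2) ha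
          (D.Q.mul_mem (D.Q.mul_mem hb (D.hNQ ha1N)) hb2) hA2
        have hn1 : n - 1 + 1 = n := by omega
        rwa [hn1] at h3
      refine ⟨d + 2, by omega, -(dotProduct D.ea' ((D.B b).mulVec D.ea) *
          dotProduct D.ea' (c • (D.A a1).mulVec D.ea)), ?_, a, ha, b, hb, g1, hg,
          ⟨v, hv, by rw [hg1v]; exact hg1'⟩, C3_gen D g a b g1 hg ha hb d _ hT⟩
      rw [dotProduct_smul, smul_eq_mul]
      exact neg_ne_zero.mpr (mul_ne_zero hb0 (mul_ne_zero hc hne))

end Pool.Agent.VB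

end Row_C3

section Row_C4

/-!
ROW C4: the abstract step.  Let g in P ⊔ Q with w' . Φ g w = 0.  By C2 choose k minimal such that
Alt k (u g v) for some u in Lr, v in Ls; the hypothesis and the conclusion are the same for g' := u g (v may be dropped: work with g' and RMin).
k = 0: u g v in P: heP.  k ≥ 1: RMin k g' holds (by minimality).  C3: g' = a (b g1), Φ g' w top c A(a) ea, degree d.
If w' . A(a) ea ≠ 0: top_dot gives w' . Φ g' w ≠ 0, contradiction.  Else hc': w'.ea = 0, a = u' n: replace g' by g'' = u'^-1 g' = n b g1 = b' g1,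
b' = n b in Q.  Still minimal; RMin k g''.  w' . B(b') ea ≠ 0: else by hd' b' = u'' n'', u''^-1 g'' = n'' g1, Alt (k-1) contradiction.
k = 1: g1 v in P for some v in Ls.  Let p = g1 v.  If ea' . A(p) w ≠ 0: top_left with u = Φ(p) w, d = 0: coefficient 1 is -(w'.B(b')ea)(ea'.A(p)w) ≠ 0.
 If = 0: hc: p = n v': g'' v v'^-1 = b' n in Q: heQ gives the conclusion.
k ≥ 2: RMin (k-1) g1; C3 for g1: g1 = a1 (b2 g2), top c A(a1) ea in degree d; ea'.A(a1)ea ≠ 0 (else a1 in N, b' a1 b2 in Q: length drops);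
 top_left: coefficient d+1 is -(w'.B(b')ea) (ea' . c A(a1) ea) ≠ 0, contradiction.
-/

namespace Pool.Agent.VB

open FreeGroup (of)

variable {G ι R : Type} [Group G] [Fintype ι] [DecidableEq ι] [CommRing R] [IsDomain R]

omit [IsDomain R] in
private theorem C4_val (D : StepData G ι R) (x u v : G) (hu : u ∈ D.Lr) (hv : v ∈ D.Ls) :
    dotProduct (cvec D.w') ((D.Φ (u * x * v)).mulVec (cvec D.w)) =
      dotProduct (cvec D.w') ((D.Φ x).mulVec (cvec D.w)) := by
  rw [map_mul, map_mul, ← Matrix.mulVec_mulVec, D.hLs v hv, ← Matrix.mulVec_mulVec,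
    Matrix.dotProduct_mulVec, D.hLr u hu]

private theorem C4_core (D : StepData G ι R) (k : ℕ) (g : G)
    (h : dotProduct (cvec D.w') ((D.Φ g).mulVec (cvec D.w)) = 0)
    (hex : ∃ v ∈ D.Ls, Alt D.P D.Q k (g * v))
    (hmin : ∀ k' < k, ∀ u ∈ D.Lr, ∀ v ∈ D.Ls, ¬ Alt D.P D.Q k' (u * g * v)) :
    D.cond ∧ ∃ u ∈ D.Lr, ∃ v ∈ D.Ls, g = u * v := by
  rcases Nat.eq_zero_or_pos k with rfl | hk
  · -- k = 0
    obtain ⟨v, hv, hA⟩ := hex
    have hP : g * v ∈ D.P := by
      cases hA with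
      | base _ ha => exact ha
    have h1 := C4_val D g 1 v (one_mem _) hv
    rw [one_mul] at h1
    obtain ⟨hc, u1, hu1, v1, hv1, e⟩ := D.heP _ hP (h1.trans h)
    refine ⟨hc, u1, hu1, v1 * v⁻¹, D.Ls.mul_mem hv1 (D.Ls.inv_mem hv), ?_⟩
    rw [← mul_assoc, ← e, mul_inv_cancel_right]
  · -- k ≥ 1
    have hR : RMin D k g := by
      refine ⟨hex, ?_⟩
      intro k' hk' v hv hA
      exact hmin k' hk' 1 (one_mem _) v hv (by rw [one_mul]; exact hA)
    obtain ⟨d, hd1, c, hc0, a, ha, b, hb, g1, eg, ⟨v, hv, hA⟩, hTop⟩ := step_top D k hk g hR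
    have hz : dotProduct D.w' ((D.A a).mulVec D.ea) = 0 := by
      have h2 := top_dot D.w' _ _ _ hTop
      rw [h, Polynomial.coeff_zero, dotProduct_smul, smul_eq_mul] at h2
      rcases mul_eq_zero.1 h2.symm with h3 | h3
      · exact absurd h3 hc0
      · exact h3
    obtain ⟨hw'ea, u', hu', n, hn, ea⟩ := D.hc' a ha hz
    -- g'' = b' * g1
    set b' : G := n * b with hb'
    have hb'Q : b' ∈ D.Q := D.Q.mul_mem (D.hNQ hn) hb
    have eg2 : u'⁻¹ * g = b' * g1 := by
      rw [eg, ea, hb']; group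
    have hval2 : dotProduct (cvec D.w') ((D.Φ (b' * g1)).mulVec (cvec D.w)) = 0 := by
      have h3 := C4_val D g u'⁻¹ 1 (D.Lr.inv_mem hu') (one_mem _)
      rw [mul_one, eg2] at h3
      exact h3.trans h
    have hmin2 : ∀ k' < k, ∀ u ∈ D.Lr, ∀ v ∈ D.Ls, ¬ Alt D.P D.Q k' (u * (b' * g1) * v) := by
      intro k' hk' u hu v hv hAlt
      apply hmin k' hk' (u * u'⁻¹) (D.Lr.mul_mem hu (D.Lr.inv_mem hu')) v hv
      have e : u * u'⁻¹ * g = u * (b' * g1) := by rw [← eg2, mul_assoc]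
      rw [e]
      exact hAlt
    -- it is enough to treat b' * g1
    have hsuff : (D.cond ∧ ∃ u ∈ D.Lr, ∃ v ∈ D.Ls, b' * g1 = u * v) →
        D.cond ∧ ∃ u ∈ D.Lr, ∃ v ∈ D.Ls, g = u * v := by
      rintro ⟨hcd, u1, hu1, v1, hv1, e1⟩
      refine ⟨hcd, u' * u1, D.Lr.mul_mem hu' hu1, v1, hv1, ?_⟩
      rw [mul_assoc, ← e1, ← eg2, mul_inv_cancel_left]
    apply hsuff
    have hBne : dotProduct D.w' ((D.B b').mulVec D.ea) ≠ 0 := by
      intro h0
      obtain ⟨u2, hu2, n2, hn2, e2⟩ := D.hd' b' hb'Q hw'ea h0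
      apply hmin2 (k - 1) (by omega) u2⁻¹ (D.Lr.inv_mem hu2) v hv
      have e3 : u2⁻¹ * (b' * g1) * v = n2 * (g1 * v) := by rw [e2]; group
      rw [e3]
      exact hA.mul_left n2 (D.hNP hn2)
    have hΦb : D.Φ b' = hatM D.ea D.ea' (D.B b') := D.hQ b' hb'Q
    rcases Nat.lt_or_ge k 2 with hk2 | hk2
    · -- k = 1
      have hk1 : k - 1 = 0 := by omega
      rw [hk1] at hA
      have hP : g1 * v ∈ D.P := by
        cases hA with
        | base _ ha => exact ha
      have ep : (D.Φ g1).mulVec (cvec D.w) = ((D.A (g1 * v)).map Polynomial.C).mulVec (cvec D.w) := by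
        rw [← D.hP _ hP, map_mul, ← Matrix.mulVec_mulVec, D.hLs v hv]
      by_cases h0 : dotProduct D.ea' ((D.A (g1 * v)).mulVec D.w) = 0
      · obtain ⟨-, n3, hn3, v3, hv3, e3⟩ := D.hc _ hP h0
        have hQ3 : b' * n3 ∈ D.Q := D.Q.mul_mem hb'Q (D.hNQ hn3)
        have e4 : b' * n3 = 1 * (b' * g1) * (v * v3⁻¹) := by
          have : n3 = g1 * v * v3⁻¹ := by rw [e3, mul_inv_cancel_right]
          rw [this]; group
        have h5 := C4_val D (b' * g1) 1 (v * v3⁻¹) (one_mem _) (D.Ls.mul_mem hv (D.Ls.inv_mem hv3))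
        rw [← e4] at h5
        obtain ⟨hcd, u1, hu1, v1, hv1, e1⟩ := D.heQ _ hQ3 (h5.trans hval2)
        refine ⟨hcd, u1, hu1, v1 * (v3 * v⁻¹), D.Ls.mul_mem hv1 (D.Ls.mul_mem hv3 (D.Ls.inv_mem hv)), ?_⟩
        rw [← mul_assoc, ← e1, e4]
        group
      · exfalso
        have hT0 := top_map (D.A (g1 * v)) _ _ _ (top_cvec D.w)
        rw [← ep] at hT0
        have h6 := top_left D.ea D.ea' D.w' (D.B b') _ _ _ hT0 hw'ea
        rw [← hΦb, Matrix.mulVec_mulVec, ← map_mul, hval2, Polynomial.coeff_zero] at h6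
        have h7 := neg_eq_zero.1 h6.symm
        rcases mul_eq_zero.1 h7 with h8 | h8
        · exact hBne h8
        · exact h0 h8
    · -- k ≥ 2
      exfalso
      have hR1 : RMin D (k - 1) g1 := by
        refine ⟨⟨v, hv, hA⟩, ?_⟩
        intro k' hk' v' hv' hAlt
        apply hmin2 (k' + 1) (by omega) 1 (one_mem _) v' hv'
        have e5 : 1 * (b' * g1) * v' = 1 * b' * (g1 * v') := by group
        rw [e5]
        exact Alt.step k' 1 b' (g1 * v') (one_mem _) hb'Q hAlt
      obtain ⟨d1, hd11, c1, hc1, a1, ha1, b2, hb2, g2, eg1, ⟨v2, hv2, hA2⟩, hTop1⟩ :=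
        step_top D (k - 1) (by omega) g1 hR1
      have hane : dotProduct D.ea' ((D.A a1).mulVec D.ea) ≠ 0 := by
        intro h0
        have ha1N := D.hb a1 ha1 h0
        have hbQ : b' * a1 * b2 ∈ D.Q := D.Q.mul_mem (D.Q.mul_mem hb'Q (D.hNQ ha1N)) hb2
        apply hmin2 (k - 1 - 1 + 1) (by omega) 1 (one_mem _) v2 hv2
        have e6 : 1 * (b' * g1) * v2 = 1 * (b' * a1 * b2) * (g2 * v2) := by rw [eg1]; group
        rw [e6]
        exact Alt.step _ 1 _ _ (one_mem _) hbQ hA2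
      have h6 := top_left D.ea D.ea' D.w' (D.B b') _ _ _ hTop1 hw'ea
      rw [← hΦb, Matrix.mulVec_mulVec, ← map_mul, hval2, Polynomial.coeff_zero, dotProduct_smul,
        smul_eq_mul] at h6
      have h7 := neg_eq_zero.1 h6.symm
      rcases mul_eq_zero.1 h7 with h8 | h8
      · exact hBne h8
      · rcases mul_eq_zero.1 h8 with h9 | h9
        · exact hc1 h9
        · exact hane h9

theorem step_final (D : StepData G ι R) (g : G) (hg : g ∈ D.P ⊔ D.Q)
    (h : dotProduct (cvec D.w') ((D.Φ g).mulVec (cvec D.w)) = 0) :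
    D.cond ∧ ∃ u ∈ D.Lr, ∃ v ∈ D.Ls, g = u * v := by
  classical
  obtain ⟨k0, hk0⟩ := exists_alt D.P D.Q g hg
  have hex : ∃ k, ∃ u ∈ D.Lr, ∃ v ∈ D.Ls, Alt D.P D.Q k (u * g * v) :=
    ⟨k0, 1, one_mem _, 1, one_mem _, by rw [one_mul, mul_one]; exact hk0⟩
  obtain ⟨u, hu, v, hv, hA⟩ := Nat.find_spec hex
  have hmin : ∀ k' < Nat.find hex, ∀ u ∈ D.Lr, ∀ v ∈ D.Ls, ¬ Alt D.P D.Q k' (u * g * v) := by
    intro k' hk' u' hu' v' hv' hA'
    exact Nat.find_min hex hk' ⟨u', hu', v', hv', hA'⟩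
  have hval : dotProduct (cvec D.w') ((D.Φ (u * g)).mulVec (cvec D.w)) = 0 := by
    have h1 := C4_val D g u 1 hu (one_mem _)
    rw [mul_one] at h1
    exact h1.trans h
  obtain ⟨hcd, u1, hu1, v1, hv1, e1⟩ := C4_core D (Nat.find hex) (u * g) hval ⟨v, hv, hA⟩ (by
    intro k' hk' u' hu' v' hv' hA'
    apply hmin k' hk' (u' * u) (D.Lr.mul_mem hu' hu) v' hv'
    rw [mul_assoc u' u g]
    exact hA')
  refine ⟨hcd, u⁻¹ * u1, D.Lr.mul_mem (D.Lr.inv_mem hu) hu1, v1, hv1, ?_⟩
  rw [mul_assoc, ← e1, inv_mul_cancel_left]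

end Pool.Agent.VB

end Row_C4

section Row_TwDef

/-!
The data of the generic twisting theorem.
-/

namespace Pool.Agent.VB

open FreeGroup (of)

/-- adjacency in an Artin group -/
def Adj {S : Type} (br cm : S → S → Prop) (r s : S) : Prop := br r s ∨ br s r ∨ cm r s ∨ cm s r

/-- parabolic subgroup -/
def Par {S : Type} (br cm : S → S → Prop) (X : Set S) : Subgroup (Art br cm) :=
  Subgroup.closure (gen br cm '' X)

/-- pairwise adjacent -/
def Clique {S : Type} (br cm : S → S → Prop) (T : Set S) : Prop :=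
  ∀ a ∈ T, ∀ b ∈ T, a ≠ b → Adj br cm a b

/-- input of the generic twisting theorem (paper, section 2) -/
structure TwData (S ι R₀ : Type) [Fintype S] [DecidableEq S] [Fintype ι] [DecidableEq ι]
    [CommRing R₀] where
  br : S → S → Prop
  cm : S → S → Prop
  irr : ∀ s, ¬ Adj br cm s s
  ρ₀ : Art br cm →* (Matrix ι ι R₀)ˣ
  e : S → ι → R₀
  e' : S → ι → R₀
  H1 : ∀ r s, Adj br cm r s → (ρ₀ (gen br cm r) : Matrix ι ι R₀).mulVec (e s) = e s
  H1' : ∀ r s, Adj br cm r s → Matrix.vecMul (e' s) (ρ₀ (gen br cm r) : Matrix ι ι R₀) = e' s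
  H2 : ∀ r s, Adj br cm r s ∨ r = s → dotProduct (e' r) (e s) = 0
  H3 : ∀ T : Set S, Clique br cm T → ∀ g ∈ Par br cm T, ∀ r s,
    dotProduct (e' r) ((ρ₀ g : Matrix ι ι R₀).mulVec (e s)) = 0 →
      (Adj br cm r s ∨ r = s) ∧ ∃ u ∈ Par br cm (T ∩ {x | Adj br cm r x}),
        ∃ v ∈ Par br cm (T ∩ {x | Adj br cm s x}), g = u * v
  H4 : ∀ T : Set S, Clique br cm T → ∀ g ∈ Par br cm T, ρ₀ g = 1 → g = 1

section
variable {S ι R₀ : Type} [Fintype S] [DecidableEq S] [Fintype ι] [DecidableEq ι]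
    [CommRing R₀] (D : TwData S ι R₀)

/-- constant vectors -/
noncomputable def cv (w : ι → R₀) : ι → MvPolynomial S R₀ := fun i => MvPolynomial.C (w i)

/-- `T_s = 1 + X_s e_s e'_s` -/
noncomputable def Tw (s : S) : Matrix ι ι (MvPolynomial S R₀) :=
  1 + (MvPolynomial.X s : MvPolynomial S R₀) • Matrix.vecMulVec (cv (D.e s)) (cv (D.e' s))

/-- `T_s^-1` -/
noncomputable def Tw' (s : S) : Matrix ι ι (MvPolynomial S R₀) :=
  1 - (MvPolynomial.X s : MvPolynomial S R₀) • Matrix.vecMulVec (cv (D.e s)) (cv (D.e' s))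

/-- a homomorphism `ρ` with `ρ(x_s) = T_s ρ₀(x_s) T_s^-1` -/
def IsTw (ρ : Art D.br D.cm →* (Matrix ι ι (MvPolynomial S R₀))ˣ) : Prop :=
  ∀ s, (ρ (gen D.br D.cm s) : Matrix ι ι (MvPolynomial S R₀)) =
    Tw D s * (D.ρ₀ (gen D.br D.cm s) : Matrix ι ι R₀).map MvPolynomial.C * Tw' D s

/-- put all the variables equal to 0 -/
noncomputable def ev0 : MvPolynomial S R₀ →+* R₀ := MvPolynomial.eval₂Hom (RingHom.id R₀) (fun _ => 0)

/-- the variable `X_a` becomes the polynomial variable -/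
noncomputable def phiA (a : S) : MvPolynomial S R₀ →+* Polynomial (MvPolynomial S R₀) :=
  MvPolynomial.eval₂Hom (Polynomial.C.comp MvPolynomial.C)
    (fun s => if s = a then Polynomial.X else Polynomial.C (MvPolynomial.X s))

/-- `X_a := 0` -/
noncomputable def psiA (a : S) : MvPolynomial S R₀ →+* MvPolynomial S R₀ :=
  MvPolynomial.eval₂Hom MvPolynomial.C (fun s => if s = a then 0 else MvPolynomial.X s)
end

end Pool.Agent.VB

end Row_TwDef

section Row_C5

/-!
ROW C5: existence of the twisted representation.  T_s, T_s' are inverse (H2 with r = s).  T_r, T_s commute for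
adjacent r, s (H2 both ways), T_r commutes with ρ₀(x_s) (H1, H1').  So for adjacent r, s: with A = ρ₀(x_r), B = ρ₀(x_s) (mapped),
T_r A T_r^-1 = (T_r T_s) A (T_r T_s)^-1, T_s B T_s^-1 = (T_r T_s) B (T_r T_s)^-1: the braid / commutation relation of A, B is conjugated.
Use `artLift` into the group of units.
-/

namespace Pool.Agent.VB

open FreeGroup (of)

variable {S ι R₀ : Type} [Fintype S] [DecidableEq S] [Fintype ι] [DecidableEq ι]
    [CommRing R₀] (D : TwData S ι R₀)

omit [Fintype S] [DecidableEq S] [DecidableEq ι] in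
private theorem C5_dot (a b : ι → R₀) :
    dotProduct (cv (S := S) a) (cv b) = MvPolynomial.C (dotProduct a b) := by
  simp [dotProduct, cv, map_sum]

private theorem C5_EE (r s : S) (h : dotProduct (D.e' r) (D.e s) = 0) :
    Matrix.vecMulVec (cv (S := S) (D.e r)) (cv (D.e' r)) * Matrix.vecMulVec (cv (D.e s)) (cv (D.e' s)) = 0 := by
  rw [Matrix.vecMulVec_mul_vecMulVec, C5_dot, h]
  simp

theorem Tw_mul (s : S) : Tw D s * Tw' D s = 1 ∧ Tw' D s * Tw D s = 1 := by
  have h := C5_EE D s s (D.H2 s s (Or.inr rfl))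
  constructor
  · rw [Tw, Tw', add_mul, one_mul, mul_sub, mul_one, Matrix.smul_mul, Matrix.mul_smul, h]
    simp
  · rw [Tw, Tw', sub_mul, one_mul, mul_add, mul_one, Matrix.smul_mul, Matrix.mul_smul, h]
    simp

private theorem C5_adj_symm {r s : S} (h : Adj D.br D.cm r s) : Adj D.br D.cm s r := by
  rcases h with h | h | h | h
  · exact Or.inr (Or.inl h)
  · exact Or.inl h
  · exact Or.inr (Or.inr (Or.inr h))
  · exact Or.inr (Or.inr (Or.inl h))

/-- the unit `T_s` -/
private noncomputable def C5_u (s : S) : (Matrix ι ι (MvPolynomial S R₀))ˣ :=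
  ⟨Tw D s, Tw' D s, (Tw_mul D s).1, (Tw_mul D s).2⟩

/-- the unit `ρ₀(x_s)` over the polynomial ring -/
private noncomputable def C5_r (s : S) : (Matrix ι ι (MvPolynomial S R₀))ˣ :=
  Units.map (RingHom.mapMatrix (MvPolynomial.C : R₀ →+* MvPolynomial S R₀)).toMonoidHom
    (D.ρ₀ (gen D.br D.cm s))

private theorem C5_uu {r s : S} (h : Adj D.br D.cm r s) : C5_u D r * C5_u D s = C5_u D s * C5_u D r := by
  apply Units.ext
  have h1 := C5_EE D r s (D.H2 r s (Or.inl h))
  have h2 := C5_EE D s r (D.H2 s r (Or.inl (C5_adj_symm D h)))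
  show Tw D r * Tw D s = Tw D s * Tw D r
  rw [Tw, Tw, add_mul, one_mul, mul_add, mul_one, Matrix.smul_mul, Matrix.mul_smul, h1,
    add_mul, one_mul, mul_add, mul_one, Matrix.smul_mul, Matrix.mul_smul, h2]
  simp only [smul_zero, add_zero]
  abel

private theorem C5_ur {r s : S} (h : Adj D.br D.cm r s) : C5_u D s * C5_r D r = C5_r D r * C5_u D s := by
  apply Units.ext
  have h1 : (D.ρ₀ (gen D.br D.cm r) : Matrix ι ι R₀).map (MvPolynomial.C : R₀ →+* MvPolynomial S R₀) *
      Matrix.vecMulVec (cv (S := S) (D.e s)) (cv (D.e' s)) =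
      Matrix.vecMulVec (cv (S := S) (D.e s)) (cv (D.e' s)) := by
    rw [Matrix.mul_vecMulVec]
    congr 1
    have h3 := D.H1 r s h
    funext i
    have h4 := congrArg (MvPolynomial.C : R₀ →+* MvPolynomial S R₀) (congrFun h3 i)
    rw [RingHom.map_mulVec] at h4
    exact h4
  have h2 : Matrix.vecMulVec (cv (S := S) (D.e s)) (cv (D.e' s)) *
      (D.ρ₀ (gen D.br D.cm r) : Matrix ι ι R₀).map (MvPolynomial.C : R₀ →+* MvPolynomial S R₀) =
      Matrix.vecMulVec (cv (S := S) (D.e s)) (cv (D.e' s)) := by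
    rw [Matrix.vecMulVec_mul]
    congr 1
    have h3 := D.H1' r s h
    funext i
    have h4 := congrArg (MvPolynomial.C : R₀ →+* MvPolynomial S R₀) (congrFun h3 i)
    rw [RingHom.map_vecMul] at h4
    exact h4
  show Tw D s * (D.ρ₀ (gen D.br D.cm r) : Matrix ι ι R₀).map (MvPolynomial.C : R₀ →+* MvPolynomial S R₀) =
    (D.ρ₀ (gen D.br D.cm r) : Matrix ι ι R₀).map (MvPolynomial.C : R₀ →+* MvPolynomial S R₀) * Tw D s
  rw [Tw, add_mul, one_mul, mul_add, mul_one, Matrix.smul_mul, Matrix.mul_smul, h1, h2]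

private theorem C5_braid {r s : S} (h : D.br r s) :
    gen D.br D.cm r * gen D.br D.cm s * gen D.br D.cm r =
      gen D.br D.cm s * gen D.br D.cm r * gen D.br D.cm s := by
  have h' : (QuotientGroup.mk (of r * of s * of r * (of s * of r * of s)⁻¹) : Art D.br D.cm) = 1 :=
    (QuotientGroup.eq_one_iff _).2 (Subgroup.subset_normalClosure (Or.inl ⟨r, s, h, rfl⟩))
  have h'' : gen D.br D.cm r * gen D.br D.cm s * gen D.br D.cm r *
      (gen D.br D.cm s * gen D.br D.cm r * gen D.br D.cm s)⁻¹ = 1 := h'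
  exact mul_inv_eq_one.1 h''

private theorem C5_comm {r s : S} (h : D.cm r s) :
    gen D.br D.cm r * gen D.br D.cm s = gen D.br D.cm s * gen D.br D.cm r := by
  have h' : (QuotientGroup.mk (of r * of s * (of s * of r)⁻¹) : Art D.br D.cm) = 1 :=
    (QuotientGroup.eq_one_iff _).2 (Subgroup.subset_normalClosure (Or.inr ⟨r, s, h, rfl⟩))
  have h'' : gen D.br D.cm r * gen D.br D.cm s *
      (gen D.br D.cm s * gen D.br D.cm r)⁻¹ = 1 := h'
  exact mul_inv_eq_one.1 h''

private theorem C5_conj {r s : S} (h : Adj D.br D.cm r s) :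
    C5_u D r * C5_r D r * (C5_u D r)⁻¹ =
      (C5_u D r * C5_u D s) * C5_r D r * (C5_u D r * C5_u D s)⁻¹ ∧
    C5_u D s * C5_r D s * (C5_u D s)⁻¹ =
      (C5_u D r * C5_u D s) * C5_r D s * (C5_u D r * C5_u D s)⁻¹ := by
  have h1 := C5_ur D h
  have h2 := C5_ur D (C5_adj_symm D h)
  have h3 := C5_uu D h
  constructor
  · have e : C5_u D s * C5_r D r * (C5_u D s)⁻¹ = C5_r D r := by rw [h1, mul_inv_cancel_right]
    rw [mul_inv_rev]
    calc C5_u D r * C5_r D r * (C5_u D r)⁻¹
        = C5_u D r * (C5_u D s * C5_r D r * (C5_u D s)⁻¹) * (C5_u D r)⁻¹ := by rw [e]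
      _ = _ := by group
  · have e : C5_u D r * C5_r D s * (C5_u D r)⁻¹ = C5_r D s := by rw [h2, mul_inv_cancel_right]
    rw [h3, mul_inv_rev]
    calc C5_u D s * C5_r D s * (C5_u D s)⁻¹
        = C5_u D s * (C5_u D r * C5_r D s * (C5_u D r)⁻¹) * (C5_u D s)⁻¹ := by rw [e]
      _ = _ := by group

theorem tw_exists : ∃ ρ : Art D.br D.cm →* (Matrix ι ι (MvPolynomial S R₀))ˣ, IsTw D ρ := by
  have hb : ∀ r s, D.br r s → C5_r D r * C5_r D s * C5_r D r = C5_r D s * C5_r D r * C5_r D s := by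
    intro r s h
    simp only [C5_r, ← map_mul]
    rw [C5_braid D h]
  have hc : ∀ r s, D.cm r s → C5_r D r * C5_r D s = C5_r D s * C5_r D r := by
    intro r s h
    simp only [C5_r, ← map_mul]
    rw [C5_comm D h]
  refine ⟨artLift (fun s => C5_u D s * C5_r D s * (C5_u D s)⁻¹) ?_ ?_, ?_⟩
  · intro r s h
    obtain ⟨e1, e2⟩ := C5_conj D (r := r) (s := s) (Or.inl h)
    rw [e1, e2]
    have := hb r s h
    generalize C5_u D r * C5_u D s = w
    calc w * C5_r D r * w⁻¹ * (w * C5_r D s * w⁻¹) * (w * C5_r D r * w⁻¹)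
        = w * (C5_r D r * C5_r D s * C5_r D r) * w⁻¹ := by group
      _ = w * (C5_r D s * C5_r D r * C5_r D s) * w⁻¹ := by rw [this]
      _ = _ := by group
  · intro r s h
    obtain ⟨e1, e2⟩ := C5_conj D (r := r) (s := s) (Or.inr (Or.inr (Or.inl h)))
    rw [e1, e2]
    have := hc r s h
    generalize C5_u D r * C5_u D s = w
    calc w * C5_r D r * w⁻¹ * (w * C5_r D s * w⁻¹)
        = w * (C5_r D r * C5_r D s) * w⁻¹ := by group
      _ = w * (C5_r D s * C5_r D r) * w⁻¹ := by rw [this]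
      _ = _ := by group
  · intro s
    rw [artLift_gen]
    rfl

end Pool.Agent.VB

end Row_C5

section Row_C6

set_option linter.unusedSectionVars false

/-!
ROW C6: first consequences.  (1) ρ(g) e_s = e_s for g in Par {x | Adj s x}; (2) e'_s ρ(g) = e'_s;
(3) at X = 0: ρ becomes ρ₀ (Tw, Tw' become 1).  Generators first, then closure_induction (inverses: multiply by the inverse).
-/

namespace Pool.Agent.VB

open FreeGroup (of)

section aux
variable {ι R : Type} [Fintype ι] [DecidableEq ι] [CommRing R]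

private theorem C6_vmv_mulVec (X : R) (a b v : ι → R) (h : dotProduct b v = 0) :
    (X • Matrix.vecMulVec a b).mulVec v = 0 := by
  rw [Matrix.smul_mulVec, Matrix.vecMulVec_mulVec, h]
  simp

private theorem C6_vecMul_vmv (X : R) (a b v : ι → R) (h : dotProduct v a = 0) :
    Matrix.vecMul v (X • Matrix.vecMulVec a b) = 0 := by
  rw [Matrix.vecMul_smul, Matrix.vecMul_vecMulVec, h]
  simp
end aux

variable {S ι R₀ : Type} [Fintype S] [DecidableEq S] [Fintype ι] [DecidableEq ι]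
    [CommRing R₀] (D : TwData S ι R₀) (ρ : Art D.br D.cm →* (Matrix ι ι (MvPolynomial S R₀))ˣ)

private theorem C6_dot (a b : ι → R₀) (h : dotProduct a b = 0) :
    dotProduct (cv (S := S) a) (cv b) = 0 := by
  have : dotProduct (cv (S := S) a) (cv b) = MvPolynomial.C (dotProduct a b) := by
    simp [dotProduct, cv]
  rw [this, h, map_zero]

private theorem C6_mulVec (A : Matrix ι ι R₀) (w : ι → R₀) :
    (A.map MvPolynomial.C).mulVec (cv (S := S) w) = cv (A.mulVec w) := by
  funext i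
  simp [Matrix.mulVec, dotProduct, cv]

private theorem C6_vecMul (A : Matrix ι ι R₀) (w : ι → R₀) :
    Matrix.vecMul (cv (S := S) w) (A.map MvPolynomial.C) = cv (Matrix.vecMul w A) := by
  funext i
  simp [Matrix.vecMul, dotProduct, cv]

private theorem C6_adj_symm {r s : S} (h : Adj D.br D.cm r s) : Adj D.br D.cm s r := by
  rcases h with h | h | h | h
  · exact Or.inr (Or.inl h)
  · exact Or.inl h
  · exact Or.inr (Or.inr (Or.inr h))
  · exact Or.inr (Or.inr (Or.inl h))

private theorem C6_gen_right (h : IsTw D ρ) (s r : S) (hr : Adj D.br D.cm s r) :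
    (ρ (gen D.br D.cm r) : Matrix ι ι (MvPolynomial S R₀)).mulVec (cv (D.e s)) = cv (D.e s) := by
  have hrs := C6_adj_symm D hr
  have hd := C6_dot (S := S) (D.e' r) (D.e s) (D.H2 r s (Or.inl hrs))
  rw [h r, ← Matrix.mulVec_mulVec, ← Matrix.mulVec_mulVec]
  have h1 : (Tw' D r).mulVec (cv (D.e s)) = cv (D.e s) := by
    rw [Tw', Matrix.sub_mulVec, Matrix.one_mulVec, C6_vmv_mulVec _ _ _ _ hd, sub_zero]
  have h2 : (Tw D r).mulVec (cv (D.e s)) = cv (D.e s) := by
    rw [Tw, Matrix.add_mulVec, Matrix.one_mulVec, C6_vmv_mulVec _ _ _ _ hd, add_zero]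
  rw [h1, C6_mulVec, D.H1 r s hrs, h2]

private theorem C6_gen_left (h : IsTw D ρ) (s r : S) (hr : Adj D.br D.cm s r) :
    Matrix.vecMul (cv (D.e' s)) (ρ (gen D.br D.cm r) : Matrix ι ι (MvPolynomial S R₀))
      = cv (D.e' s) := by
  have hrs := C6_adj_symm D hr
  have hd := C6_dot (S := S) (D.e' s) (D.e r) (D.H2 s r (Or.inl hr))
  rw [h r, ← Matrix.vecMul_vecMul, ← Matrix.vecMul_vecMul]
  have h1 : Matrix.vecMul (cv (D.e' s)) (Tw' D r) = cv (D.e' s) := by
    rw [Tw', Matrix.vecMul_sub, Matrix.vecMul_one, C6_vecMul_vmv _ _ _ _ hd, sub_zero]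
  have h2 : Matrix.vecMul (cv (D.e' s)) (Tw D r) = cv (D.e' s) := by
    rw [Tw, Matrix.vecMul_add, Matrix.vecMul_one, C6_vecMul_vmv _ _ _ _ hd, add_zero]
  rw [h2, C6_vecMul, D.H1' r s hrs, h1]

theorem tw_right (h : IsTw D ρ) (s : S) (g : Art D.br D.cm)
    (hg : g ∈ Par D.br D.cm {x | Adj D.br D.cm s x}) :
    (ρ g : Matrix ι ι (MvPolynomial S R₀)).mulVec (cv (D.e s)) = cv (D.e s) := by
  unfold Par at hg
  induction hg using Subgroup.closure_induction with
  | mem x hx =>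
    obtain ⟨r, hr, rfl⟩ := hx
    exact C6_gen_right D ρ h s r hr
  | one => simp
  | mul x y _ _ hx hy =>
    rw [map_mul, Units.val_mul, ← Matrix.mulVec_mulVec, hy, hx]
  | inv x _ hx =>
    have hi : ((ρ x⁻¹ : (Matrix ι ι (MvPolynomial S R₀))ˣ) : Matrix ι ι (MvPolynomial S R₀)) *
        (ρ x : Matrix ι ι (MvPolynomial S R₀)) = 1 := by
      rw [← Units.val_mul, ← map_mul, inv_mul_cancel, map_one, Units.val_one]
    calc (ρ x⁻¹ : Matrix ι ι (MvPolynomial S R₀)).mulVec (cv (D.e s))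
        = (ρ x⁻¹ : Matrix ι ι (MvPolynomial S R₀)).mulVec
          ((ρ x : Matrix ι ι (MvPolynomial S R₀)).mulVec (cv (D.e s))) := by rw [hx]
      _ = cv (D.e s) := by rw [Matrix.mulVec_mulVec, hi, Matrix.one_mulVec]

theorem tw_left (h : IsTw D ρ) (s : S) (g : Art D.br D.cm)
    (hg : g ∈ Par D.br D.cm {x | Adj D.br D.cm s x}) :
    Matrix.vecMul (cv (D.e' s)) (ρ g : Matrix ι ι (MvPolynomial S R₀)) = cv (D.e' s) := by
  unfold Par at hg
  induction hg using Subgroup.closure_induction with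
  | mem x hx =>
    obtain ⟨r, hr, rfl⟩ := hx
    exact C6_gen_left D ρ h s r hr
  | one => simp
  | mul x y _ _ hx hy =>
    rw [map_mul, Units.val_mul, ← Matrix.vecMul_vecMul, hx, hy]
  | inv x _ hx =>
    have hi : (ρ x : Matrix ι ι (MvPolynomial S R₀)) *
        ((ρ x⁻¹ : (Matrix ι ι (MvPolynomial S R₀))ˣ) : Matrix ι ι (MvPolynomial S R₀)) = 1 := by
      rw [← Units.val_mul, ← map_mul, mul_inv_cancel, map_one, Units.val_one]
    calc Matrix.vecMul (cv (D.e' s)) (ρ x⁻¹ : Matrix ι ι (MvPolynomial S R₀))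
        = Matrix.vecMul (Matrix.vecMul (cv (D.e' s)) (ρ x : Matrix ι ι (MvPolynomial S R₀)))
          (ρ x⁻¹ : Matrix ι ι (MvPolynomial S R₀)) := by rw [hx]
      _ = cv (D.e' s) := by rw [Matrix.vecMul_vecMul, hi, Matrix.vecMul_one]

private theorem C6_ev0_C (r : R₀) : ev0 (S := S) (MvPolynomial.C r) = r := by
  simp [ev0]

private theorem C6_ev0_X (s : S) : ev0 (S := S) (R₀ := R₀) (MvPolynomial.X s) = 0 := by
  simp [ev0]

private theorem C6_Tw_map (s : S) : (Tw D s).map ev0 = 1 := by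
  ext i j
  simp [Tw, Matrix.one_apply, C6_ev0_X]

private theorem C6_Tw'_map (s : S) : (Tw' D s).map ev0 = 1 := by
  ext i j
  simp [Tw', Matrix.one_apply, C6_ev0_X]

theorem tw_zero (h : IsTw D ρ) (g : Art D.br D.cm) :
    (ρ g : Matrix ι ι (MvPolynomial S R₀)).map ev0 = (D.ρ₀ g : Matrix ι ι R₀) := by
  have key : (Units.map (RingHom.mapMatrix (ev0 (S := S) (R₀ := R₀)) :
      Matrix ι ι (MvPolynomial S R₀) →+* Matrix ι ι R₀).toMonoidHom).comp ρ = D.ρ₀ := by
    refine PresentedGroup.ext fun s => Units.ext ?_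
    show ((ρ (gen D.br D.cm s) : Matrix ι ι (MvPolynomial S R₀)).map ev0) =
      (D.ρ₀ (gen D.br D.cm s) : Matrix ι ι R₀)
    rw [h s, Matrix.map_mul, Matrix.map_mul, C6_Tw_map, C6_Tw'_map, one_mul, mul_one,
      Matrix.map_map]
    ext i j
    simp [C6_ev0_C]
  have := congrArg (fun f => ((f g : (Matrix ι ι R₀)ˣ) : Matrix ι ι R₀)) key
  exact this

end Pool.Agent.VB

end Row_C6

section Row_C7

/-!
ROW C7: dependence on the variable X_a.  phiA: X_a -> Y, psiA: X_a -> 0.
(1) g in Par {s ≠ a}: the entries of ρ(g) do not involve X_a: map phiA = map C.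
(2) b in Par ({a} ∪ lk a): map phiA (ρ b) = hatM (e a) (e' a) (map psiA (ρ b)).  (T_a = 1 + X_a e_a e'_a commutes with ρ(x_s), s in lk a;
so with ρ'(b) := map psiA (ρ b): ρ(b) = T_a ρ'(b) T_a^-1 on generators, hence on the subgroup; apply phiA: phiA of psiA-image is C of it.)
(3) phiA is injective (compose with evaluation Y := X_a).  (4) e'_a . psiA(ρ b) w = e'_a . ρ(b) w when w = e_s (constant vector) with
e'_a . e_s = 0; and the same on the left.  (ρ(b) = T_a ρ'(b) T_a^-1, e'_a T_a = e'_a, T_a^-1 e_s = e_s.)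
-/

namespace Pool.Agent.VB

open FreeGroup (of)

variable {S ι R₀ : Type} [Fintype S] [DecidableEq S] [Fintype ι] [DecidableEq ι]
    [CommRing R₀] (D : TwData S ι R₀) (ρ : Art D.br D.cm →* (Matrix ι ι (MvPolynomial S R₀))ˣ)

section aux

omit [Fintype S] in
theorem C7_phi_C (a : S) (r : R₀) : phiA a (MvPolynomial.C r) = Polynomial.C (MvPolynomial.C r) := by
  simp [phiA]

omit [Fintype S] in
theorem C7_phi_X (a s : S) : phiA (R₀ := R₀) a (MvPolynomial.X s) =
    if s = a then Polynomial.X else Polynomial.C (MvPolynomial.X s) := by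
  simp [phiA]

omit [Fintype S] in
theorem C7_psi_C (a : S) (r : R₀) : psiA a (MvPolynomial.C r) = MvPolynomial.C r := by
  simp [psiA]

omit [Fintype S] in
theorem C7_psi_X (a s : S) : psiA (R₀ := R₀) a (MvPolynomial.X s) =
    if s = a then 0 else MvPolynomial.X s := by
  simp [psiA]

omit [Fintype S] [DecidableEq S] [DecidableEq ι] in
theorem C7_dot (u v : ι → R₀) : dotProduct (cv (S := S) u) (cv v) = MvPolynomial.C (dotProduct u v) := by
  simp [dotProduct, cv, map_sum, map_mul]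

theorem C7_left (a : S) (w : ι → R₀) (hw : dotProduct w (D.e a) = 0) :
    Matrix.vecMul (cv w) (Tw D a) = cv w := by
  unfold Tw
  rw [Matrix.vecMul_add, Matrix.vecMul_one, Matrix.vecMul_smul, Matrix.vecMul_vecMulVec, C7_dot, hw]
  simp

theorem C7_right (a : S) (w : ι → R₀) (hw : dotProduct (D.e' a) w = 0) :
    (Tw' D a).mulVec (cv w) = cv w := by
  unfold Tw'
  rw [Matrix.sub_mulVec, Matrix.one_mulVec, Matrix.smul_mulVec, Matrix.vecMulVec_mulVec, C7_dot, hw]
  simp

/-- map of a twist by a ring homomorphism -/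
theorem C7_map_Tw {T : Type} [CommRing T] (f : MvPolynomial S R₀ →+* T) (s : S) :
    (Tw D s).map f = 1 + f (MvPolynomial.X s) •
      Matrix.vecMulVec (fun i => f (MvPolynomial.C (D.e s i))) (fun i => f (MvPolynomial.C (D.e' s i))) := by
  ext i j
  simp [Tw, cv, Matrix.vecMulVec, Matrix.one_apply, apply_ite f]

theorem C7_map_Tw' {T : Type} [CommRing T] (f : MvPolynomial S R₀ →+* T) (s : S) :
    (Tw' D s).map f = 1 - f (MvPolynomial.X s) •
      Matrix.vecMulVec (fun i => f (MvPolynomial.C (D.e s i))) (fun i => f (MvPolynomial.C (D.e' s i))) := by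
  ext i j
  simp [Tw', cv, Matrix.vecMulVec, Matrix.one_apply, apply_ite f]

/-- two ring homomorphisms that agree on constants and on `X_s` agree on `ρ(x_s)` -/
theorem C7_gen {T : Type} [CommRing T] (f g : MvPolynomial S R₀ →+* T) (h : IsTw D ρ) (s : S)
    (hC : ∀ r, f (MvPolynomial.C r) = g (MvPolynomial.C r)) (hX : f (MvPolynomial.X s) = g (MvPolynomial.X s)) :
    (ρ (gen D.br D.cm s) : Matrix ι ι (MvPolynomial S R₀)).map f =
      (ρ (gen D.br D.cm s) : Matrix ι ι (MvPolynomial S R₀)).map g := by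
  rw [h s, Matrix.map_mul, Matrix.map_mul, Matrix.map_mul, Matrix.map_mul, C7_map_Tw, C7_map_Tw,
    C7_map_Tw', C7_map_Tw']
  simp only [hC, hX]
  congr 2
  ext i j
  simp [hC]

end aux

theorem phiA_injective (a : S) : Function.Injective (phiA (R₀ := R₀) a) := by
  have h : (Polynomial.evalRingHom (MvPolynomial.X a : MvPolynomial S R₀)).comp (phiA (R₀ := R₀) a) =
      RingHom.id _ := by
    apply MvPolynomial.ringHom_ext
    · intro r
      simp [C7_phi_C]
    · intro s
      simp only [RingHom.comp_apply, C7_phi_X, RingHom.id_apply]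
      split_ifs with hs
      · simp [hs]
      · simp
  intro x y hxy
  have := congrArg (Polynomial.evalRingHom (MvPolynomial.X a : MvPolynomial S R₀)) hxy
  have h1 : ∀ z, Polynomial.evalRingHom (MvPolynomial.X a : MvPolynomial S R₀) (phiA a z) = z := fun z =>
    congrFun (congrArg DFunLike.coe h) z
  rwa [h1, h1] at this

theorem tw_free (h : IsTw D ρ) (a : S) (g : Art D.br D.cm)
    (hg : g ∈ Par D.br D.cm {x | x ≠ a}) :
    (ρ g : Matrix ι ι (MvPolynomial S R₀)).map (phiA a) =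
      (ρ g : Matrix ι ι (MvPolynomial S R₀)).map Polynomial.C := by
  have key : Set.EqOn ((Units.map (RingHom.mapMatrix (phiA (R₀ := R₀) a)).toMonoidHom).comp ρ)
      ((Units.map (RingHom.mapMatrix (Polynomial.C (R := MvPolynomial S R₀))).toMonoidHom).comp ρ)
      (Subgroup.closure (gen D.br D.cm '' {x | x ≠ a}) : Set (Art D.br D.cm)) := by
    apply MonoidHom.eqOn_closure
    rintro _ ⟨s, hs, rfl⟩
    apply Units.ext
    have hs' : s ≠ a := hs
    exact C7_gen D ρ (phiA a) Polynomial.C h s (fun r => C7_phi_C a r) (by rw [C7_phi_X, if_neg hs'])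
  have := congrArg (fun u : (Matrix ι ι (Polynomial (MvPolynomial S R₀)))ˣ => u.val) (key hg)
  exact this

/-- the unit of a twist -/
noncomputable def C7_unit (a : S) : (Matrix ι ι (MvPolynomial S R₀))ˣ :=
  ⟨Tw D a, Tw' D a, (Tw_mul D a).1, (Tw_mul D a).2⟩

theorem C7_comm (h : IsTw D ρ) (a s : S) (hs : Adj D.br D.cm a s) :
    Tw D a * (ρ (gen D.br D.cm s) : Matrix ι ι (MvPolynomial S R₀)) =
      (ρ (gen D.br D.cm s) : Matrix ι ι (MvPolynomial S R₀)) * Tw D a := by
  have hmem : gen D.br D.cm s ∈ Par D.br D.cm {x | Adj D.br D.cm a x} :=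
    Subgroup.subset_closure ⟨s, hs, rfl⟩
  have h1 := tw_right D ρ h a _ hmem
  have h2 := tw_left D ρ h a _ hmem
  unfold Tw
  rw [add_mul, mul_add, one_mul, mul_one, smul_mul_assoc, mul_smul_comm, Matrix.vecMulVec_mul,
    Matrix.mul_vecMulVec, h1, h2]

theorem tw_star (h : IsTw D ρ) (a : S) (g : Art D.br D.cm)
    (hg : g ∈ Par D.br D.cm {x | x = a ∨ Adj D.br D.cm a x}) :
    (ρ g : Matrix ι ι (MvPolynomial S R₀)) =
      Tw D a * (ρ g : Matrix ι ι (MvPolynomial S R₀)).map (psiA a) * Tw' D a := by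
  have key : Set.EqOn ρ
      ((MulAut.conj (C7_unit D a)).toMonoidHom.comp
        ((Units.map (RingHom.mapMatrix (psiA (R₀ := R₀) a)).toMonoidHom).comp ρ))
      (Subgroup.closure (gen D.br D.cm '' {x | x = a ∨ Adj D.br D.cm a x}) : Set (Art D.br D.cm)) := by
    apply MonoidHom.eqOn_closure
    rintro _ ⟨s, hs, rfl⟩
    apply Units.ext
    change (ρ (gen D.br D.cm s) : Matrix ι ι (MvPolynomial S R₀)) =
      Tw D a * (ρ (gen D.br D.cm s) : Matrix ι ι (MvPolynomial S R₀)).map (psiA a) * Tw' D a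
    rcases hs with hs | hs
    · subst hs
      rw [h s, Matrix.map_mul, Matrix.map_mul, C7_map_Tw, C7_map_Tw', C7_psi_X]
      simp only [if_true, zero_smul, add_zero, sub_zero, one_mul, mul_one]
      congr 2
      ext i j
      simp [C7_psi_C]
    · have hne : s ≠ a := by
        rintro rfl
        exact D.irr _ hs
      have h1 : (ρ (gen D.br D.cm s) : Matrix ι ι (MvPolynomial S R₀)).map (psiA a) =
          (ρ (gen D.br D.cm s) : Matrix ι ι (MvPolynomial S R₀)) := by
        have := C7_gen D ρ (psiA a) (RingHom.id _) h s (fun r => C7_psi_C a r)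
          (by rw [C7_psi_X, if_neg hne]; rfl)
        rw [this]
        ext i j
        simp
      rw [h1, C7_comm D ρ h a s hs, mul_assoc, (Tw_mul D a).1, mul_one]
  have := congrArg (fun u : (Matrix ι ι (MvPolynomial S R₀))ˣ => u.val) (key hg)
  exact this

theorem tw_hat (h : IsTw D ρ) (a : S) (g : Art D.br D.cm)
    (hg : g ∈ Par D.br D.cm {x | x = a ∨ Adj D.br D.cm a x}) :
    (ρ g : Matrix ι ι (MvPolynomial S R₀)).map (phiA a) =
      hatM (cv (D.e a)) (cv (D.e' a)) ((ρ g : Matrix ι ι (MvPolynomial S R₀)).map (psiA a)) := by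
  have h1 := congrArg (fun M : Matrix ι ι (MvPolynomial S R₀) => M.map (phiA a)) (tw_star D ρ h a g hg)
  rw [h1, Matrix.map_mul, Matrix.map_mul, C7_map_Tw, C7_map_Tw', C7_phi_X, if_pos rfl]
  unfold hatM
  have h2 : ∀ p : MvPolynomial S R₀, phiA a (psiA a p) = Polynomial.C (psiA a p) := by
    have : (phiA (R₀ := R₀) a).comp (psiA a) = (Polynomial.C).comp (psiA a) := by
      apply MvPolynomial.ringHom_ext
      · intro r
        simp [C7_phi_C, C7_psi_C]
      · intro s
        simp only [RingHom.comp_apply, C7_psi_X]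
        split_ifs with hs
        · simp
        · rw [C7_phi_X, if_neg hs]
    intro p
    exact congrFun (congrArg DFunLike.coe this) p
  have h3 : (fun i => phiA a (MvPolynomial.C (D.e a i))) = fun i => Polynomial.C (cv (S := S) (D.e a) i) := by
    funext i; rw [C7_phi_C]; rfl
  have h4 : (fun i => phiA a (MvPolynomial.C (D.e' a i))) = fun i => Polynomial.C (cv (S := S) (D.e' a) i) := by
    funext i; rw [C7_phi_C]; rfl
  have h5 : Matrix.vecMulVec (fun i => Polynomial.C (cv (S := S) (D.e a) i)) (fun i => Polynomial.C (cv (S := S) (D.e' a) i)) =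
      (Matrix.vecMulVec (cv (S := S) (D.e a)) (cv (D.e' a))).map Polynomial.C := by
    ext i j
    simp [Matrix.vecMulVec]
  rw [h3, h4, h5]
  congr 2
  ext i j
  simp only [Matrix.map_apply]
  rw [h2]

theorem tw_psi_left (h : IsTw D ρ) (a s : S) (hs : dotProduct (D.e' a) (D.e s) = 0)
    (g : Art D.br D.cm) (hg : g ∈ Par D.br D.cm {x | x = a ∨ Adj D.br D.cm a x}) :
    dotProduct (cv (D.e' a)) (((ρ g : Matrix ι ι (MvPolynomial S R₀)).map (psiA a)).mulVec
      (cv (D.e s))) =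
    dotProduct (cv (D.e' a)) ((ρ g : Matrix ι ι (MvPolynomial S R₀)).mulVec (cv (D.e s))) := by
  conv_rhs => rw [tw_star D ρ h a g hg]
  rw [← Matrix.mulVec_mulVec, C7_right D a _ hs, ← Matrix.mulVec_mulVec, Matrix.dotProduct_mulVec _ (Tw D a),
    C7_left D a _ (D.H2 a a (Or.inr rfl))]

theorem tw_psi_right (h : IsTw D ρ) (a r : S) (hr : dotProduct (D.e' r) (D.e a) = 0)
    (g : Art D.br D.cm) (hg : g ∈ Par D.br D.cm {x | x = a ∨ Adj D.br D.cm a x}) :
    dotProduct (cv (D.e' r)) (((ρ g : Matrix ι ι (MvPolynomial S R₀)).map (psiA a)).mulVec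
      (cv (D.e a))) =
    dotProduct (cv (D.e' r)) ((ρ g : Matrix ι ι (MvPolynomial S R₀)).mulVec (cv (D.e a))) := by
  conv_rhs => rw [tw_star D ρ h a g hg]
  rw [← Matrix.mulVec_mulVec, C7_right D a _ (D.H2 a a (Or.inr rfl)), ← Matrix.mulVec_mulVec,
    Matrix.dotProduct_mulVec _ (Tw D a), C7_left D a _ hr]

end Pool.Agent.VB

end Row_C7

section Row_C8

/-!
ROW C8: Claim(X) by strong induction on the finite set X (paper, section 2).
X clique: apply ev0 to the equation (tw_zero): H3, H4.  X not a clique: a, b in X, a ≠ b, not Adj a b.  P = Par (X \ {a}),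
Q = Par (X ∩ st a), N = Par (X ∩ lk a), Lr = Par (X ∩ lk r), Ls = Par (X ∩ lk s); b is in X but not in X ∩ st a, so both sets are proper.  Build
`StepData` with Φ g = map (phiA a) (ρ g), A p = ρ p, B b = map (psiA a) (ρ b), ea = cv (e a), ea' = cv (e' a), w = cv (e s), w' = cv (e' r);
cond = (Adj r s ∨ r = s).  Fields from C6, C7 and the induction hypotheses (dotProduct over cvec = phiA of the dotProduct over MvPolynomial, phiA_injective; when the induction hypothesis gives Adj a s ∨ a = s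
use H2 for dotProduct ea' w = 0).  hNP: X ∩ lk a ⊆ X \ {a} by irr.  (ii): ρ g = 1 gives e'_a . ρ(g) e_a = 0 (H2), so g in Par(X ∩ lk a) (product u * v of two such), contained in Par (X \ {a}).
-/

namespace Pool.Agent.VB

open FreeGroup (of)

variable {S ι R₀ : Type} [Fintype S] [DecidableEq S] [Fintype ι] [DecidableEq ι]
    [CommRing R₀] [IsDomain R₀] (D : TwData S ι R₀)
    (ρ : Art D.br D.cm →* (Matrix ι ι (MvPolynomial S R₀))ˣ)

/-- the claim for the set `X` -/
def Claim (X : Finset S) : Prop :=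
  (∀ g ∈ Par D.br D.cm (X : Set S), ∀ r s,
    dotProduct (cv (D.e' r)) ((ρ g : Matrix ι ι (MvPolynomial S R₀)).mulVec (cv (D.e s))) = 0 →
      (Adj D.br D.cm r s ∨ r = s) ∧ ∃ u ∈ Par D.br D.cm ((X : Set S) ∩ {x | Adj D.br D.cm r x}),
        ∃ v ∈ Par D.br D.cm ((X : Set S) ∩ {x | Adj D.br D.cm s x}), g = u * v) ∧
  (∀ g ∈ Par D.br D.cm (X : Set S), ρ g = 1 → g = 1)

theorem c8_mono {br cm : S → S → Prop} {X Y : Set S} (h : X ⊆ Y) : Par br cm X ≤ Par br cm Y :=
  Subgroup.closure_mono (Set.image_mono h)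

theorem c8_form {R R' : Type} [CommRing R] [CommRing R'] (f : R →+* R') (u v : ι → R)
    (M : Matrix ι ι R) :
    f (dotProduct u (M.mulVec v)) =
      dotProduct (fun i => f (u i)) ((M.map f).mulVec (fun i => f (v i))) := by
  simp [dotProduct, Matrix.mulVec, Matrix.map_apply, map_sum, map_mul]

theorem c8_mulVec {R R' : Type} [CommRing R] [CommRing R'] (f : R →+* R') (v : ι → R)
    (M : Matrix ι ι R) :
    (M.map f).mulVec (fun i => f (v i)) = fun i => f (M.mulVec v i) := by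
  ext i
  simp [dotProduct, Matrix.mulVec, Matrix.map_apply, map_sum, map_mul]

theorem c8_vecMul {R R' : Type} [CommRing R] [CommRing R'] (f : R →+* R') (v : ι → R)
    (M : Matrix ι ι R) :
    Matrix.vecMul (fun i => f (v i)) (M.map f) = fun i => f (Matrix.vecMul v M i) := by
  ext i
  simp [dotProduct, Matrix.vecMul, Matrix.map_apply, map_sum, map_mul]

theorem c8_dot (u v : ι → R₀) :
    dotProduct (cv (S := S) u) (cv v) = MvPolynomial.C (dotProduct u v) := by
  simp [dotProduct, cv, map_sum, map_mul]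

theorem c8_dot_zero {u v : ι → R₀} : dotProduct (cv (S := S) u) (cv v) = 0 ↔ dotProduct u v = 0 := by
  rw [c8_dot, MvPolynomial.C_eq_zero]

theorem c8_phi_cv (a : S) (w : ι → R₀) : (fun i => phiA a (cv (S := S) w i)) = cvec (cv w) := by
  ext i
  simp [phiA, cv, cvec]

theorem c8_phi_dot (a : S) (u v : ι → R₀) (M : Matrix ι ι (MvPolynomial S R₀)) :
    dotProduct (cvec (cv u)) ((M.map (phiA a)).mulVec (cvec (cv v))) =
      phiA a (dotProduct (cv u) (M.mulVec (cv v))) := by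
  rw [c8_form, c8_phi_cv, c8_phi_cv]

theorem claim_clique (h : IsTw D ρ) (X : Finset S) (hX : Clique D.br D.cm (X : Set S)) :
    Claim D ρ X := by
  constructor
  · intro g hg r s h0
    apply D.H3 _ hX g hg r s
    have h1 := congrArg (ev0 (S := S) (R₀ := R₀)) h0
    rw [c8_form, tw_zero D ρ h, map_zero] at h1
    have h2 : ∀ w : ι → R₀, (fun i => ev0 (cv (S := S) w i)) = w := by
      intro w
      ext i
      simp [ev0, cv]
    rwa [h2, h2] at h1
  · intro g hg h0
    apply D.H4 _ hX g hg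
    apply Units.ext
    rw [← tw_zero D ρ h, h0, Units.val_one, Units.val_one]
    exact Matrix.map_one _ (map_zero _) (map_one _)

/-- the data of the abstract step -/
noncomputable def c8_data (h : IsTw D ρ) (X : Finset S) (a : S) (Y : Finset S)
    (hY : ∀ x, x ∈ Y ↔ x ∈ X ∧ (x = a ∨ Adj D.br D.cm a x))
    (c1 : Claim D ρ (X.erase a)) (c2 : Claim D ρ Y) (r s : S) :
    StepData (Art D.br D.cm) ι (MvPolynomial S R₀) where
  Φ := ((phiA (R₀ := R₀) a).mapMatrix.toMonoidHom.comp (Units.coeHom _)).comp ρ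
  P := Par D.br D.cm ((X.erase a : Finset S) : Set S)
  Q := Par D.br D.cm (Y : Set S)
  N := Par D.br D.cm ((X : Set S) ∩ {x | Adj D.br D.cm a x})
  Lr := Par D.br D.cm ((X : Set S) ∩ {x | Adj D.br D.cm r x})
  Ls := Par D.br D.cm ((X : Set S) ∩ {x | Adj D.br D.cm s x})
  A := fun p => (ρ p : Matrix ι ι (MvPolynomial S R₀))
  B := fun p => (ρ p : Matrix ι ι (MvPolynomial S R₀)).map (psiA a)
  ea := cv (D.e a)
  ea' := cv (D.e' a)
  w := cv (D.e s)
  w' := cv (D.e' r)
  cond := Adj D.br D.cm r s ∨ r = s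
  hP := by
    intro p hp
    exact tw_free D ρ h a p (c8_mono (by
      intro x hx
      simp only [Finset.coe_erase, Set.mem_diff, Set.mem_singleton_iff] at hx
      exact hx.2) hp)
  hQ := by
    intro b hb
    exact tw_hat D ρ h a b (c8_mono (by
      intro x hx
      exact ((hY x).1 hx).2) hb)
  hNP := by
    apply c8_mono
    rintro x ⟨h1, h2⟩
    simp only [Finset.coe_erase, Set.mem_diff, Set.mem_singleton_iff]
    refine ⟨h1, ?_⟩
    rintro rfl
    exact D.irr _ h2
  hNQ := by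
    apply c8_mono
    rintro x ⟨h1, h2⟩
    exact (hY x).2 ⟨h1, Or.inr h2⟩
  hLs := by
    intro v hv
    have h1 := tw_right D ρ h s v (c8_mono (by rintro x ⟨_, h2⟩; exact h2) hv)
    change ((ρ v : Matrix ι ι (MvPolynomial S R₀)).map (phiA a)).mulVec (cvec (cv (D.e s))) =
      cvec (cv (D.e s))
    rw [← c8_phi_cv a, c8_mulVec, h1]
  hLr := by
    intro v hv
    have h1 := tw_left D ρ h r v (c8_mono (by rintro x ⟨_, h2⟩; exact h2) hv)
    change Matrix.vecMul (cvec (cv (D.e' r))) ((ρ v : Matrix ι ι (MvPolynomial S R₀)).map (phiA a)) =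
      cvec (cv (D.e' r))
    rw [← c8_phi_cv a, c8_vecMul, h1]
  ea0 := c8_dot_zero.2 (D.H2 a a (Or.inr rfl))
  ha := by
    intro b hb h0
    have hb' : b ∈ Par D.br D.cm {x | x = a ∨ Adj D.br D.cm a x} :=
      c8_mono (by intro x hx; exact ((hY x).1 hx).2) hb
    rw [tw_psi_left D ρ h a a (D.H2 a a (Or.inr rfl)) b hb'] at h0
    obtain ⟨_, u, hu, v, hv, rfl⟩ := c2.1 b hb a a h0
    have hm : Par D.br D.cm ((Y : Set S) ∩ {x | Adj D.br D.cm a x}) ≤
        Par D.br D.cm ((X : Set S) ∩ {x | Adj D.br D.cm a x}) :=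
      c8_mono (by rintro x ⟨h1, h2⟩; exact ⟨((hY x).1 h1).1, h2⟩)
    exact mul_mem (hm hu) (hm hv)
  hb := by
    intro p hp h0
    obtain ⟨_, u, hu, v, hv, rfl⟩ := c1.1 p hp a a h0
    have hm : Par D.br D.cm (((X.erase a : Finset S) : Set S) ∩ {x | Adj D.br D.cm a x}) ≤
        Par D.br D.cm ((X : Set S) ∩ {x | Adj D.br D.cm a x}) :=
      c8_mono (by rintro x ⟨h1, h2⟩; exact ⟨Finset.mem_of_mem_erase h1, h2⟩)
    exact mul_mem (hm hu) (hm hv)
  hc := by
    intro p hp h0
    obtain ⟨h1, u, hu, v, hv, rfl⟩ := c1.1 p hp a s h0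
    exact ⟨c8_dot_zero.2 (D.H2 a s h1), u,
      c8_mono (by rintro x ⟨h1, h2⟩; exact ⟨Finset.mem_of_mem_erase h1, h2⟩) hu, v,
      c8_mono (by rintro x ⟨h1, h2⟩; exact ⟨Finset.mem_of_mem_erase h1, h2⟩) hv, rfl⟩
  hd := by
    intro b hb h1 h0
    have hb' : b ∈ Par D.br D.cm {x | x = a ∨ Adj D.br D.cm a x} :=
      c8_mono (by intro x hx; exact ((hY x).1 hx).2) hb
    rw [tw_psi_left D ρ h a s (c8_dot_zero.1 h1) b hb'] at h0
    obtain ⟨_, u, hu, v, hv, rfl⟩ := c2.1 b hb a s h0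
    exact ⟨u, c8_mono (by rintro x ⟨h1, h2⟩; exact ⟨((hY x).1 h1).1, h2⟩) hu, v,
      c8_mono (by rintro x ⟨h1, h2⟩; exact ⟨((hY x).1 h1).1, h2⟩) hv, rfl⟩
  hc' := by
    intro p hp h0
    obtain ⟨h1, u, hu, v, hv, rfl⟩ := c1.1 p hp r a h0
    exact ⟨c8_dot_zero.2 (D.H2 r a h1), u,
      c8_mono (by rintro x ⟨h1, h2⟩; exact ⟨Finset.mem_of_mem_erase h1, h2⟩) hu, v,
      c8_mono (by rintro x ⟨h1, h2⟩; exact ⟨Finset.mem_of_mem_erase h1, h2⟩) hv, rfl⟩
  hd' := by
    intro b hb h1 h0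
    have hb' : b ∈ Par D.br D.cm {x | x = a ∨ Adj D.br D.cm a x} :=
      c8_mono (by intro x hx; exact ((hY x).1 hx).2) hb
    rw [tw_psi_right D ρ h a r (c8_dot_zero.1 h1) b hb'] at h0
    obtain ⟨_, u, hu, v, hv, rfl⟩ := c2.1 b hb r a h0
    exact ⟨u, c8_mono (by rintro x ⟨h1, h2⟩; exact ⟨((hY x).1 h1).1, h2⟩) hu, v,
      c8_mono (by rintro x ⟨h1, h2⟩; exact ⟨((hY x).1 h1).1, h2⟩) hv, rfl⟩
  heP := by
    intro p hp h0
    change dotProduct (cvec (cv (D.e' r)))
      (((ρ p : Matrix ι ι (MvPolynomial S R₀)).map (phiA a)).mulVec (cvec (cv (D.e s)))) = 0 at h0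
    rw [c8_phi_dot, map_eq_zero_iff _ (phiA_injective a)] at h0
    obtain ⟨h1, u, hu, v, hv, rfl⟩ := c1.1 p hp r s h0
    exact ⟨h1, u, c8_mono (by rintro x ⟨h1, h2⟩; exact ⟨Finset.mem_of_mem_erase h1, h2⟩) hu, v,
      c8_mono (by rintro x ⟨h1, h2⟩; exact ⟨Finset.mem_of_mem_erase h1, h2⟩) hv, rfl⟩
  heQ := by
    intro b hb h0
    change dotProduct (cvec (cv (D.e' r)))
      (((ρ b : Matrix ι ι (MvPolynomial S R₀)).map (phiA a)).mulVec (cvec (cv (D.e s)))) = 0 at h0
    rw [c8_phi_dot, map_eq_zero_iff _ (phiA_injective a)] at h0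
    obtain ⟨h1, u, hu, v, hv, rfl⟩ := c2.1 b hb r s h0
    exact ⟨h1, u, c8_mono (by rintro x ⟨h1, h2⟩; exact ⟨((hY x).1 h1).1, h2⟩) hu, v,
      c8_mono (by rintro x ⟨h1, h2⟩; exact ⟨((hY x).1 h1).1, h2⟩) hv, rfl⟩

theorem claim_step (h : IsTw D ρ) (X : Finset S) (a b : S) (ha : a ∈ X) (hb : b ∈ X)
    (hab : a ≠ b) (hadj : ¬ Adj D.br D.cm a b) (ih : ∀ Y : Finset S, Y ⊂ X → Claim D ρ Y) :
    Claim D ρ X := by
  classical
  set Y : Finset S := X.filter (fun x => x = a ∨ Adj D.br D.cm a x) with hYdef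
  have hY : ∀ x, x ∈ Y ↔ x ∈ X ∧ (x = a ∨ Adj D.br D.cm a x) := by
    intro x
    rw [hYdef, Finset.mem_filter]
  have hYX : Y ⊂ X := by
    refine ⟨fun x hx => ((hY x).1 hx).1, fun hc => ?_⟩
    rcases ((hY b).1 (hc hb)).2 with h1 | h1
    · exact hab h1.symm
    · exact hadj h1
  have c1 := ih (X.erase a) (Finset.erase_ssubset ha)
  have c2 := ih Y hYX
  have hsup : Par D.br D.cm (X : Set S) ≤
      Par D.br D.cm ((X.erase a : Finset S) : Set S) ⊔ Par D.br D.cm (Y : Set S) := by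
    rw [Par, Subgroup.closure_le]
    rintro _ ⟨x, hx, rfl⟩
    by_cases hxa : x = a
    · exact Subgroup.mem_sup_right (Subgroup.subset_closure
        ⟨x, (hY x).2 ⟨hx, Or.inl hxa⟩, rfl⟩)
    · exact Subgroup.mem_sup_left (Subgroup.subset_closure
        ⟨x, Finset.mem_erase.2 ⟨hxa, hx⟩, rfl⟩)
  have key : ∀ g ∈ Par D.br D.cm (X : Set S), ∀ r s,
    dotProduct (cv (D.e' r)) ((ρ g : Matrix ι ι (MvPolynomial S R₀)).mulVec (cv (D.e s))) = 0 →
      (Adj D.br D.cm r s ∨ r = s) ∧ ∃ u ∈ Par D.br D.cm ((X : Set S) ∩ {x | Adj D.br D.cm r x}),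
        ∃ v ∈ Par D.br D.cm ((X : Set S) ∩ {x | Adj D.br D.cm s x}), g = u * v := by
    intro g hg r s h0
    have h1 := step_final (c8_data D ρ h X a Y hY c1 c2 r s) g (hsup hg)
    apply h1
    change dotProduct (cvec (cv (D.e' r)))
      (((ρ g : Matrix ι ι (MvPolynomial S R₀)).map (phiA a)).mulVec (cvec (cv (D.e s)))) = 0
    rw [c8_phi_dot, h0, map_zero]
  refine ⟨key, ?_⟩
  intro g hg h0
  apply c1.2 g _ h0
  have h1 : dotProduct (cv (D.e' a))
      ((ρ g : Matrix ι ι (MvPolynomial S R₀)).mulVec (cv (D.e a))) = 0 := by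
    rw [h0, Units.val_one, Matrix.one_mulVec]
    exact c8_dot_zero.2 (D.H2 a a (Or.inr rfl))
  obtain ⟨_, u, hu, v, hv, rfl⟩ := key g hg a a h1
  have hm : Par D.br D.cm ((X : Set S) ∩ {x | Adj D.br D.cm a x}) ≤
      Par D.br D.cm ((X.erase a : Finset S) : Set S) := by
    apply c8_mono
    rintro x ⟨h1, h2⟩
    refine Finset.mem_erase.2 ⟨?_, h1⟩
    rintro rfl
    exact D.irr _ h2
  exact mul_mem (hm hu) (hm hv)

theorem claim_all (h : IsTw D ρ) (X : Finset S) : Claim D ρ X := by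
  induction X using Finset.strongInduction with
  | H X ih =>
    by_cases hX : Clique D.br D.cm (X : Set S)
    · exact claim_clique D ρ h X hX
    · simp only [Clique, not_forall] at hX
      obtain ⟨a, ha, b, hb, hab, hadj⟩ := hX
      exact claim_step D ρ h X a b ha hb hab hadj ih

end Pool.Agent.VB

end Row_C8

section Row_C9

/-!
ROW C9: the generic twisting theorem: the representation of C5 is injective (Claim for X = univ; every element
of Art is in Par univ).
-/

namespace Pool.Agent.VB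

open FreeGroup (of)

variable {S ι R₀ : Type} [Fintype S] [DecidableEq S] [Fintype ι] [DecidableEq ι]
    [CommRing R₀] [IsDomain R₀] (D : TwData S ι R₀)

theorem twisting_theorem :
    ∃ ρ : Art D.br D.cm →* (Matrix ι ι (MvPolynomial S R₀))ˣ, Function.Injective ρ := by
  obtain ⟨ρ, h⟩ := tw_exists D
  refine ⟨ρ, (injective_iff_map_eq_one ρ).2 ?_⟩
  intro g hg
  refine (claim_all D ρ h Finset.univ).2 g ?_ hg
  have h1 : Par D.br D.cm ((Finset.univ : Finset S) : Set S) = ⊤ := by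
    rw [Par, Finset.coe_univ, Set.image_univ]
    exact PresentedGroup.closure_range_of _
  rw [h1]
  exact Subgroup.mem_top g

end Pool.Agent.VB

end Row_C9
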