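import Pool.Agent.Lib.MP_7c21d5_al.VB01_Modules

set_option autoImplicit false

section Row_D1

/-!
ROW D1: abstract splitting lemma 1 (paper 5.1).  W finite, N_p(F) = sum_l n(p,l) w_l F{p,l}.  Arc i -> j with twist a,
not the emitter: w_j = q a w_i, n_ii = n_jj = 1-tq, n_ji = 1-q (i before j), n_ij = t(1-q), n_pi = n_pj and n_il = n_jl for the others.
Then N(F.x) = (N F).x (level 1).  Split the sum into l = i, l = j, others (Finset.sum over univ.erase).  The others match termwise;
the rest is field_simp/ring after substituting w_j.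
-/

namespace Pool.Agent.VB

open FreeGroup (of)

/-- `N_p(F)` -/
noncomputable def NN {K W : Type} [Field K] [Fintype W] (n : W → W → K) (w : W → K)
    (F : Sym2 W → K) (p : W) : K := ∑ l, n p l * w l * F s(p, l)

private theorem d1_split {K W : Type} [Field K] [Fintype W] [DecidableEq W] (i j : W) (hij : i ≠ j)
    (f : W → K) : ∑ l, f l = f i + f j + ∑ l ∈ (Finset.univ.erase i).erase j, f l := by
  rw [← Finset.add_sum_erase Finset.univ f (Finset.mem_univ i),
    ← Finset.add_sum_erase (Finset.univ.erase i) f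
      (Finset.mem_erase.2 ⟨hij.symm, Finset.mem_univ j⟩)]
  ring

theorem NN_arc {K W : Type} [Field K] [Fintype W] [DecidableEq W] (q t a : K) (ha : a ≠ 0)
    (i j : W) (hij : i ≠ j) (n : W → W → K) (w : W → K) (hw : w j = q * a * w i)
    (hii : n i i = 1 - t * q) (hjj : n j j = 1 - t * q) (hji : n j i = 1 - q)
    (hij' : n i j = t * (1 - q)) (hp : ∀ p, p ≠ i → p ≠ j → n p i = n p j)
    (hl : ∀ l, l ≠ i → l ≠ j → n i l = n j l) (F : Sym2 W → K) :
    NN n w (actV q t a a⁻¹ i j F) = act1 q a a⁻¹ i j (NN n w F) := by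
  have ha' : a⁻¹ * a = 1 := inv_mul_cancel₀ ha
  have hmem : ∀ l ∈ (Finset.univ.erase i).erase j, l ≠ i ∧ l ≠ j := by
    intro l hl
    simp only [Finset.mem_erase] at hl
    exact ⟨hl.2.1, hl.1⟩
  funext p
  by_cases h1 : p = i
  · subst h1
    rw [act1_i]
    unfold NN
    rw [d1_split p j hij, d1_split p j hij (fun l => n p l * w l * F s(p, l)),
      d1_split p j hij (fun l => n j l * w l * F s(j, l)), actV_ii, actV_ij _ _ _ _ _ _ _ hij]
    have h2 : ∑ l ∈ (Finset.univ.erase p).erase j, n p l * w l * actV q t a a⁻¹ p j F s(p, l) =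
        (1 - q) * ∑ l ∈ (Finset.univ.erase p).erase j, n p l * w l * F s(p, l) +
        q * a * ∑ l ∈ (Finset.univ.erase p).erase j, n j l * w l * F s(j, l) := by
      rw [Finset.mul_sum, Finset.mul_sum, ← Finset.sum_add_distrib]
      refine Finset.sum_congr rfl fun l hlm => ?_
      obtain ⟨hl1, hl2⟩ := hmem l hlm
      rw [actV_ik _ _ _ _ _ _ _ _ hl1 hl2, hl l hl1 hl2]
      ring
    rw [h2, hii, hjj, hji, hij', hw, Sym2.eq_swap (a := j) (b := p)]
    linear_combination (t * (1 - q) * q * w p * (1 - t * q) * F s(p, p)) * ha'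
  · by_cases h2 : p = j
    · subst h2
      rw [act1_j _ _ _ _ _ _ hij]
      unfold NN
      rw [d1_split i p hij, d1_split i p hij (fun l => n i l * w l * F s(i, l)),
        Sym2.eq_swap (a := p) (b := i), actV_ij _ _ _ _ _ _ _ hij, actV_jj _ _ _ _ _ _ _ hij]
      have h3 : ∑ l ∈ (Finset.univ.erase i).erase p, n p l * w l * actV q t a a⁻¹ i p F s(p, l) =
          a⁻¹ * ∑ l ∈ (Finset.univ.erase i).erase p, n i l * w l * F s(i, l) := by
        rw [Finset.mul_sum]
        refine Finset.sum_congr rfl fun l hlm => ?_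
        obtain ⟨hl1, hl2⟩ := hmem l hlm
        rw [actV_jk _ _ _ _ _ _ _ hij _ hl1 hl2, hl l hl1 hl2]
        ring
      rw [h3, hii, hjj, hji, hij', hw]
      linear_combination ((1 - t * q) * q * w i * a⁻¹ * F s(i, i) -
        t * (1 - q) * q * w i * F s(i, p)) * ha'
    · rw [act1_k _ _ _ _ _ _ _ h1 h2]
      unfold NN
      rw [d1_split i j hij, d1_split i j hij (fun l => n p l * w l * F s(p, l)),
        Sym2.eq_swap (a := p) (b := i), actV_ik _ _ _ _ _ _ _ _ h1 h2,
        Sym2.eq_swap (a := p) (b := j), actV_jk _ _ _ _ _ _ _ hij _ h1 h2]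
      have h3 : ∑ l ∈ (Finset.univ.erase i).erase j, n p l * w l * actV q t a a⁻¹ i j F s(p, l) =
          ∑ l ∈ (Finset.univ.erase i).erase j, n p l * w l * F s(p, l) := by
        refine Finset.sum_congr rfl fun l hlm => ?_
        obtain ⟨hl1, hl2⟩ := hmem l hlm
        rw [actV_kl _ _ _ _ _ _ _ _ _ h1 h2 hl1 hl2]
      rw [h3, hp p h1 h2, hw]
      linear_combination (n p j * q * w i * F s(i, p)) * ha'

theorem sum_arc {K W : Type} [Field K] [Fintype W] [DecidableEq W] (q a : K) (ha : a ≠ 0)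
    (i j : W) (hij : i ≠ j) (w : W → K) (hw : w j = q * a * w i) (f : W → K) :
    ∑ p, w p * act1 q a a⁻¹ i j f p = ∑ p, w p * f p := by
  have ha' : a⁻¹ * a = 1 := inv_mul_cancel₀ ha
  rw [d1_split i j hij, d1_split i j hij (fun p => w p * f p), act1_i, act1_j _ _ _ _ _ _ hij]
  have h3 : ∑ l ∈ (Finset.univ.erase i).erase j, w l * act1 q a a⁻¹ i j f l =
      ∑ l ∈ (Finset.univ.erase i).erase j, w l * f l := by
    refine Finset.sum_congr rfl fun l hlm => ?_
    simp only [Finset.mem_erase] at hlm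
    rw [act1_k _ _ _ _ _ _ _ hlm.2.1 hlm.1]
  rw [h3, hw]
  linear_combination (q * w i * f i) * ha'

end Pool.Agent.VB

end Row_D1

section Row_D2

/-!
ROW D2: abstract splitting lemma 2: the emitter arc i -> j (i last, j first), twist a.
c1 (w_j - t q a w_i) = t a.  With A_i = sum over l ≠ i,j of w_l F{i,l}: N_i = (1-tq) w_i F_ii + (1-q) w_j F_ij + (1-q) A_i,
N_j = (1-tq) w_j F_jj + t(1-q) w_i F_ij + t(1-q) A_j.  Coefficients: F_ii: (1-q)(1-tq)(w_j - tqa w_i)/a; F_jj: -q(1-tq)(a/t)(w_j - tqa w_i);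
F_ij: (1-q)(tq+q-1)(w_j - tqa w_i); others p: (1-q)(w_j/a - tq w_i)(F_ip - a F_jp).  All multiplied by c1.
-/

namespace Pool.Agent.VB

open FreeGroup (of)

variable {K W : Type} [Field K] [Fintype W] [DecidableEq W]

private theorem D2_split (i j : W) (hij : i ≠ j) (f : W → K) :
    ∑ l, f l = f i + f j + ∑ l ∈ (Finset.univ.erase i).erase j, f l := by
  rw [← Finset.add_sum_erase Finset.univ f (Finset.mem_univ i),
    ← Finset.add_sum_erase (Finset.univ.erase i) f
      (Finset.mem_erase.2 ⟨hij.symm, Finset.mem_univ j⟩)]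
  ring

private theorem D2_mem (i j l : W) (h : l ∈ (Finset.univ.erase i).erase j) : l ≠ i ∧ l ≠ j := by
  simp only [Finset.mem_erase, Finset.mem_univ, and_true] at h
  exact ⟨h.2, h.1⟩

private theorem D2_N (i j : W) (hij : i ≠ j) (n : W → W → K) (w : W → K) (F : Sym2 W → K)
    (p : W) (d : K) (h : ∀ l, l ≠ i → l ≠ j → n p l = d) :
    NN n w F p = n p i * w i * F s(p, i) + n p j * w j * F s(p, j)
      + d * ∑ l ∈ (Finset.univ.erase i).erase j, w l * F s(p, l) := by
  rw [NN, D2_split i j hij, Finset.mul_sum]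
  congr 1
  refine Finset.sum_congr rfl fun l hl => ?_
  obtain ⟨h1, h2⟩ := D2_mem i j l hl
  rw [h l h1 h2]
  ring

theorem NN_emit_i (q t a : K) (ha : a ≠ 0) (ht : t ≠ 0)
    (i j : W) (hij : i ≠ j) (n : W → W → K) (w : W → K)
    (hii : n i i = 1 - t * q) (hjj : n j j = 1 - t * q) (hij' : n i j = 1 - q)
    (hji : n j i = t * (1 - q)) (hil : ∀ l, l ≠ i → l ≠ j → n i l = 1 - q)
    (hjl : ∀ l, l ≠ i → l ≠ j → n j l = t * (1 - q)) (c : K)
    (hc : c * (w j - t * q * a * w i) = t * a) (F : Sym2 W → K) :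
    c * NN n w (actV q t a a⁻¹ i j F) i =
      (1 - q) * (c * NN n w F i) + q * (a / t) * (c * NN n w F j)
        + t * (1 - q) * (1 - t * q) * F s(i, i) + t * (1 - q) * (q + t * q - 1) * a * F s(i, j)
        - q * (1 - t * q) * a ^ 2 * F s(j, j) := by
  have hS : ∑ l ∈ (Finset.univ.erase i).erase j, w l * actV q t a a⁻¹ i j F s(i, l) =
      (1 - q) * ∑ l ∈ (Finset.univ.erase i).erase j, w l * F s(i, l)
        + q * a * ∑ l ∈ (Finset.univ.erase i).erase j, w l * F s(j, l) := by
    rw [Finset.mul_sum, Finset.mul_sum, ← Finset.sum_add_distrib]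
    refine Finset.sum_congr rfl fun l hl => ?_
    obtain ⟨h1, h2⟩ := D2_mem i j l hl
    rw [actV_ik q t a a⁻¹ i j F l h1 h2]
    ring
  rw [D2_N i j hij n w (actV q t a a⁻¹ i j F) i (1 - q) hil, D2_N i j hij n w F i (1 - q) hil,
    D2_N i j hij n w F j (t * (1 - q)) hjl, hS, hii, hij', hji, hjj,
    actV_ii, actV_ij q t a a⁻¹ i j F hij, Sym2.eq_swap (a := j) (b := i)]
  linear_combination (norm := (field_simp; ring))
    ((1 - q) * (1 - t * q) / a * F s(i, i) - q * (1 - t * q) * (a / t) * F s(j, j)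
      + (1 - q) * (t * q + q - 1) * F s(i, j)) * hc

theorem NN_emit_j (q t a : K) (ha : a ≠ 0) (ht : t ≠ 0)
    (i j : W) (hij : i ≠ j) (n : W → W → K) (w : W → K)
    (hii : n i i = 1 - t * q) (hjj : n j j = 1 - t * q) (hij' : n i j = 1 - q)
    (hji : n j i = t * (1 - q)) (hil : ∀ l, l ≠ i → l ≠ j → n i l = 1 - q)
    (hjl : ∀ l, l ≠ i → l ≠ j → n j l = t * (1 - q)) (c : K)
    (hc : c * (w j - t * q * a * w i) = t * a) (F : Sym2 W → K) :
    c * NN n w (actV q t a a⁻¹ i j F) j =
      t / a * (c * NN n w F i) + t * (1 - t * q) / a * F s(i, i)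
        - t ^ 2 * (1 - q) * F s(i, j) := by
  have hS : ∑ l ∈ (Finset.univ.erase i).erase j, w l * actV q t a a⁻¹ i j F s(j, l) =
      a⁻¹ * ∑ l ∈ (Finset.univ.erase i).erase j, w l * F s(i, l) := by
    rw [Finset.mul_sum]
    refine Finset.sum_congr rfl fun l hl => ?_
    obtain ⟨h1, h2⟩ := D2_mem i j l hl
    rw [actV_jk q t a a⁻¹ i j F hij l h1 h2]
    ring
  rw [D2_N i j hij n w (actV q t a a⁻¹ i j F) j (t * (1 - q)) hjl,
    D2_N i j hij n w F i (1 - q) hil, hS, hii, hij', hji, hjj, Sym2.eq_swap (a := j) (b := i),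
    actV_ij q t a a⁻¹ i j F hij, actV_jj q t a a⁻¹ i j F hij]
  linear_combination (norm := (field_simp; ring))
    ((1 - t * q) / a ^ 2 * F s(i, i) - t / a * (1 - q) * F s(i, j)) * hc

theorem NN_emit_p (q t a : K) (ha : a ≠ 0) (ht : t ≠ 0)
    (i j : W) (hij : i ≠ j) (n : W → W → K) (w : W → K) (p : W) (hpi : p ≠ i) (hpj : p ≠ j)
    (hni : n p i = t * (1 - q)) (hnj : n p j = 1 - q) (c : K)
    (hc : c * (w j - t * q * a * w i) = t * a) (F : Sym2 W → K) :
    c * NN n w (actV q t a a⁻¹ i j F) p =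
      c * NN n w F p + t * (1 - q) * (F s(i, p) - a * F s(j, p)) := by
  have hS : ∑ l ∈ (Finset.univ.erase i).erase j, n p l * w l * actV q t a a⁻¹ i j F s(p, l) =
      ∑ l ∈ (Finset.univ.erase i).erase j, n p l * w l * F s(p, l) := by
    refine Finset.sum_congr rfl fun l hl => ?_
    obtain ⟨h1, h2⟩ := D2_mem i j l hl
    rw [actV_kl q t a a⁻¹ i j F p l hpi hpj h1 h2]
  rw [NN, NN, D2_split i j hij, D2_split i j hij (fun l => n p l * w l * F s(p, l)), hS, hni, hnj,
    Sym2.eq_swap (a := p) (b := i), Sym2.eq_swap (a := p) (b := j),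
    actV_ik q t a a⁻¹ i j F p hpi hpj, actV_jk q t a a⁻¹ i j F hij p hpi hpj]
  linear_combination (norm := (field_simp; ring))
    ((1 - q) / a * F s(i, p) - (1 - q) * F s(j, p)) * hc

end Pool.Agent.VB

end Row_D2

section Row_D3

/-!
ROW D3: abstract splitting lemma 3: the state hh for the emitter arc.  c1 (w_j - tqa w_i) = t a,
c2 (w_j - q a w_i) = c1 t a.  From D2: c1 sum_p w_p N_p(F.x) - c1 sum_p w_p N_p(F) =
w_i(-q c1 N_i + q(a/t) c1 N_j + ...) + w_j((t/a) c1 N_i - c1 N_j + ...) + t(1-q) sum_(p ≠ i,j) w_p (F_ip - a F_jp), and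
(1-q) A_i = N_i - (1-tq) w_i F_ii - (1-q) w_j F_ij, t(1-q) A_j = N_j - (1-tq) w_j F_jj - t(1-q) w_i F_ij (A_i = sum over p ≠ i,j of w_p F_ip).
Then multiply by t a / (w_j - q a w_i).  (If w_j = q a w_i then c1 t a = 0, excluded by c1 ≠ 0.)
-/

namespace Pool.Agent.VB

open FreeGroup (of)

variable {K W : Type} [Field K] [Fintype W] [DecidableEq W]

private theorem D3_split (i j : W) (hij : i ≠ j) (f : W → K) :
    ∑ l, f l = f i + f j + ∑ l ∈ (Finset.univ.erase i).erase j, f l := by
  rw [← Finset.add_sum_erase Finset.univ f (Finset.mem_univ i),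
    ← Finset.add_sum_erase (Finset.univ.erase i) f
      (Finset.mem_erase.2 ⟨hij.symm, Finset.mem_univ j⟩)]
  ring

private theorem D3_mem (i j l : W) (h : l ∈ (Finset.univ.erase i).erase j) : l ≠ i ∧ l ≠ j := by
  simp only [Finset.mem_erase, Finset.mem_univ, and_true] at h
  exact ⟨h.2, h.1⟩

private theorem D3_N (i j : W) (hij : i ≠ j) (n : W → W → K) (w : W → K) (F : Sym2 W → K)
    (p : W) (d : K) (h : ∀ l, l ≠ i → l ≠ j → n p l = d) :
    NN n w F p = n p i * w i * F s(p, i) + n p j * w j * F s(p, j)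
      + d * ∑ l ∈ (Finset.univ.erase i).erase j, w l * F s(p, l) := by
  rw [NN, D3_split i j hij, Finset.mul_sum]
  congr 1
  refine Finset.sum_congr rfl fun l hl => ?_
  obtain ⟨h1, h2⟩ := D3_mem i j l hl
  rw [h l h1 h2]
  ring

private theorem D3_alg (q t a c c2 u v x y X Y P P' Fii Fij Fjj A B : K) (ha : a ≠ 0) (ht : t ≠ 0)
    (hc : c * (v - t * q * a * u) = t * a) (hc2 : c2 * (v - q * a * u) = c * (t * a))
    (hX : c * X = (1 - q) * (c * x) + q * (a / t) * (c * y) + t * (1 - q) * (1 - t * q) * Fii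
      + t * (1 - q) * (q + t * q - 1) * a * Fij - q * (1 - t * q) * a ^ 2 * Fjj)
    (hY : c * Y = t / a * (c * x) + t * (1 - t * q) / a * Fii - t ^ 2 * (1 - q) * Fij)
    (hQ : c * P' = c * P + t * (1 - q) * (A - a * B))
    (hx : x = (1 - t * q) * u * Fii + (1 - q) * v * Fij + (1 - q) * A)
    (hy : y = t * (1 - q) * u * Fij + (1 - t * q) * v * Fjj + t * (1 - q) * B) :
    c2 * (u * X + v * Y + P') = c2 * (u * x + v * y + P) + (1 + t) * (t * (c * x) - a * (c * y))
      + t * (1 - t * q) * (t * Fii + a ^ 2 * Fjj) - t ^ 2 * (1 + t) * (1 - q) * a * Fij := by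
  have hc0 : c ≠ 0 := by
    rintro rfl
    rw [zero_mul] at hc
    exact mul_ne_zero ht ha hc.symm
  have h1 : c * (u * X + v * Y + P') - c * (u * x + v * y + P) =
      (c * (t / a) * v - c * q * u + t) * x + (c * q * (a / t) * u - c * v - a) * y
        + (v - q * a * u) * (t * (1 - t * q) / a * Fii + a * (1 - t * q) * Fjj
          - t * (1 - q) * (1 + t) * Fij) := by
    linear_combination (norm := (field_simp; ring)) u * hX + v * hY + hQ - t * hx + a * hy
  apply mul_left_cancel₀ hc0
  linear_combination (norm := (field_simp; ring)) c2 * h1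
    + ((1 + t) * c * x / a - (1 + t) * c * y / t + t * (1 - t * q) / a * Fii
      + a * (1 - t * q) * Fjj - t * (1 - q) * (1 + t) * Fij) * hc2
    + c2 * (-x / a + y / t) * hc

theorem NN_emit_sum (q t a : K) (ha : a ≠ 0) (ht : t ≠ 0)
    (i j : W) (hij : i ≠ j) (n : W → W → K) (w : W → K)
    (hii : n i i = 1 - t * q) (hjj : n j j = 1 - t * q) (hij' : n i j = 1 - q)
    (hji : n j i = t * (1 - q)) (hil : ∀ l, l ≠ i → l ≠ j → n i l = 1 - q)
    (hjl : ∀ l, l ≠ i → l ≠ j → n j l = t * (1 - q))
    (hni : ∀ p, p ≠ i → p ≠ j → n p i = t * (1 - q)) (hnj : ∀ p, p ≠ i → p ≠ j → n p j = 1 - q)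
    (c c2 : K) (hc : c * (w j - t * q * a * w i) = t * a)
    (hc2 : c2 * (w j - q * a * w i) = c * (t * a)) (F : Sym2 W → K) :
    c2 * ∑ p, w p * NN n w (actV q t a a⁻¹ i j F) p =
      c2 * ∑ p, w p * NN n w F p + (1 + t) * (t * (c * NN n w F i) - a * (c * NN n w F j))
          + t * (1 - t * q) * (t * F s(i, i) + a ^ 2 * F s(j, j))
          - t ^ 2 * (1 + t) * (1 - q) * a * F s(i, j) := by
  have hP : c * ∑ p ∈ (Finset.univ.erase i).erase j, w p * NN n w (actV q t a a⁻¹ i j F) p =
      c * ∑ p ∈ (Finset.univ.erase i).erase j, w p * NN n w F p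
        + t * (1 - q) * ((∑ p ∈ (Finset.univ.erase i).erase j, w p * F s(i, p))
          - a * ∑ p ∈ (Finset.univ.erase i).erase j, w p * F s(j, p)) := by
    rw [mul_sub, Finset.mul_sum, Finset.mul_sum, Finset.mul_sum, Finset.mul_sum, Finset.mul_sum,
      ← Finset.sum_sub_distrib, ← Finset.sum_add_distrib]
    refine Finset.sum_congr rfl fun p hp => ?_
    obtain ⟨h1, h2⟩ := D3_mem i j p hp
    have h3 := NN_emit_p q t a ha ht i j hij n w p h1 h2 (hni p h1 h2) (hnj p h1 h2) c hc F
    linear_combination w p * h3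
  rw [D3_split i j hij, D3_split i j hij (fun p => w p * NN n w F p)]
  refine D3_alg q t a c c2 (w i) (w j) (NN n w F i) (NN n w F j) _ _ _ _ (F s(i, i)) (F s(i, j))
    (F s(j, j)) _ _ ha ht hc hc2
    (NN_emit_i q t a ha ht i j hij n w hii hjj hij' hji hil hjl c hc F)
    (NN_emit_j q t a ha ht i j hij n w hii hjj hij' hji hil hjl c hc F) hP ?_ ?_
  · rw [D3_N i j hij n w F i (1 - q) hil, hii, hij']
  · rw [D3_N i j hij n w F j (t * (1 - q)) hjl, hji, hjj, Sym2.eq_swap (a := j) (b := i)]

end Pool.Agent.VB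

end Row_D3

section Row_CycDef

/-!
Notation on the cycle `cyc M` with `M+3` sites; the cut is the arc `last = M+2` from `M+2` to `0`.
Emitter `a`, `r = a+1` (mod M+3) is its head; sites in the order r, r+1, ....
-/

namespace Pool.Agent.VB

open FreeGroup (of)

/-- the cut arc -/
abbrev lastA (M : ℕ) : Fin (M + 3) := Fin.last (M + 2)

/-- head of the arc `a`, as a natural number -/
def rr {M : ℕ} (a : Fin (M + 3)) : ℕ := ((a + 1 : Fin (M + 3)) : ℕ)

/-- position of the site `p` counted from `r` -/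
def cpos (M r : ℕ) (p : Fin (M + 3)) : ℕ := if r ≤ (p : ℕ) then (p : ℕ) - r else (p : ℕ) + (M + 3) - r

/-- the weight `omega(p)`, cut at the last arc -/
noncomputable def omg (M r : ℕ) (p : Fin (M + 3)) : KK :=
  if r ≤ (p : ℕ) then qK ^ ((p : ℕ) - r) else tK * qK * qK ^ ((p : ℕ) + (M + 3) - r)

/-- the coefficients `n(p,l)` -/
noncomputable def cnn (M r : ℕ) (p l : Fin (M + 3)) : KK :=
  if p = l then 1 - tK * qK else if cpos M r l < cpos M r p then 1 - qK else tK * (1 - qK)

/-- `Omega_a(F)`, r = head of a -/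
noncomputable def Omf (M r : ℕ) (F : Sym2 (Fin (M + 3)) → KK) : KK :=
  ∑ p, omg M r p * NN (cnn M r) (omg M r) F p

/-- `D = 1 - t^2 q^(m+1)`, m = M+3 -/
noncomputable def DD (M : ℕ) : KK := 1 - tK ^ 2 * qK ^ (M + 4)
/-- `D_2 = 1 - t q^(m+1)` -/
noncomputable def DD2 (M : ℕ) : KK := 1 - tK * qK ^ (M + 4)

/-- twist of the arc `a` -/
noncomputable def ae {M : ℕ} (a : Fin (M + 3)) : KK := tw (lastA M) a

/-- the splitting `F ↦ (F, c_1 N_p(F), c_2 Omega_a(F))` -/
noncomputable def Sf {M : ℕ} (a : Fin (M + 3)) (F : Sym2 (Fin (M + 3)) → KK) :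
    St (Fin (M + 3)) → KK
  | some (Sum.inl z) => F z
  | some (Sum.inr p) => tK * ae a / DD M * NN (cnn M (rr a)) (omg M (rr a)) F p
  | none => tK ^ 2 * ae a ^ 2 / (DD M * DD2 M) * Omf M (rr a) F

/-- the gauge factor -/
noncomputable def gam {M : ℕ} (a p : Fin (M + 3)) : KK :=
  if a ≠ lastA M ∧ rr a ≤ (p : ℕ) then tK else 1

/-- the gauge map from level 1 to level 2 -/
noncomputable def Lf {M : ℕ} (a : Fin (M + 3)) (f : St (Fin (M + 3)) → KK) :
    St (Fin (M + 3)) → KK
  | some (Sum.inl _) => 0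
  | some (Sum.inr p) => gam a p * f (some (Sum.inr p))
  | none => (1 + tK) * tK * f none

/-- the function 1 on multisets -/
noncomputable def oneV {W : Type} : Sym2 W → KK := fun _ => 1

end Pool.Agent.VB

end Row_CycDef

section Row_D4

/-!
ROW D4: arithmetic on the cycle: the hypotheses of D1-D3.  r = rr a.  For k ≠ a: tail k, head k+1, positions
cpos (k+1) = cpos k + 1 (positions run over 0..M+2, injective, cpos r = 0 for head of a, cpos a = M+2), omg (k+1) = q * tw * omg k.
For k = a: omg (a+1) = 1, q * ae a * omg a = t q^(m+1).  rr a ≤ M+2; rr (last) = 0, else rr a = a+1.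
-/

namespace Pool.Agent.VB

open FreeGroup (of)

variable {M : ℕ}

private theorem D4_val (k : Fin (M + 3)) :
    ((k + 1 : Fin (M + 3)) : ℕ) = if (k : ℕ) = M + 2 then 0 else (k : ℕ) + 1 := by
  rw [Fin.val_add_one]
  by_cases h : k = Fin.last (M + 2)
  · subst h; simp
  · have : (k : ℕ) ≠ M + 2 := fun h' => h (Fin.ext h')
    simp [h, this]

private theorem D4_rr (a : Fin (M + 3)) :
    rr a = if (a : ℕ) = M + 2 then 0 else (a : ℕ) + 1 := D4_val a

private theorem D4_tw (k : Fin (M + 3)) :
    tw (lastA M) k = if (k : ℕ) = M + 2 then tK * qK else 1 := by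
  unfold tw
  by_cases h : k = lastA M
  · subst h; simp [lastA]
  · have : (k : ℕ) ≠ M + 2 := fun h' => h (Fin.ext h')
    simp [h, this]

theorem rr_last : rr (lastA M) = 0 := by
  rw [D4_rr]; simp [lastA]

theorem rr_ne (a : Fin (M + 3)) (h : a ≠ lastA M) : rr a = (a : ℕ) + 1 := by
  have : (a : ℕ) ≠ M + 2 := fun h' => h (Fin.ext h')
  rw [D4_rr, if_neg this]

theorem omg_succ (a k : Fin (M + 3)) (h : k ≠ a) :
    omg M (rr a) (k + 1) = qK * tw (lastA M) k * omg M (rr a) k := by
  have hka : (k : ℕ) ≠ (a : ℕ) := fun h' => h (Fin.ext h')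
  have hk := k.isLt
  have ha := a.isLt
  have hv := D4_val k
  have hr := D4_rr a
  rw [D4_tw]
  unfold omg
  generalize ((k + 1 : Fin (M + 3)) : ℕ) = k1 at hv ⊢
  generalize rr a = r at hr ⊢
  generalize (k : ℕ) = k0 at *
  generalize (a : ℕ) = a0 at *
  by_cases h1 : k0 = M + 2
  · rw [if_pos h1] at hv ⊢
    subst hv
    rw [if_neg (by omega : ¬ a0 = M + 2)] at hr
    rw [if_neg (by omega : ¬ r ≤ 0), if_pos (by omega : r ≤ k0)]
    rw [show 0 + (M + 3) - r = (k0 - r) + 1 by omega, pow_succ]
    ring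
  · rw [if_neg h1] at hv ⊢
    subst hv
    by_cases h2 : a0 = M + 2
    · rw [if_pos h2] at hr
      subst hr
      rw [if_pos (Nat.zero_le _), if_pos (Nat.zero_le _)]
      rw [show k0 + 1 - 0 = (k0 - 0) + 1 by omega, pow_succ]
      ring
    · rw [if_neg h2] at hr
      by_cases h3 : r ≤ k0
      · rw [if_pos (by omega : r ≤ k0 + 1), if_pos h3,
          show k0 + 1 - r = (k0 - r) + 1 by omega, pow_succ]
        ring
      · rw [if_neg (by omega : ¬ r ≤ k0 + 1), if_neg h3,
          show k0 + 1 + (M + 3) - r = (k0 + (M + 3) - r) + 1 by omega, pow_succ]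
        ring

theorem cpos_succ (a k : Fin (M + 3)) (h : k ≠ a) :
    cpos M (rr a) (k + 1) = cpos M (rr a) k + 1 := by
  have hka : (k : ℕ) ≠ (a : ℕ) := fun h' => h (Fin.ext h')
  have hk := k.isLt
  have ha := a.isLt
  have hv := D4_val k
  have hr := D4_rr a
  unfold cpos
  generalize ((k + 1 : Fin (M + 3)) : ℕ) = k1 at hv ⊢
  generalize rr a = r at hr ⊢
  generalize (k : ℕ) = k0 at *
  generalize (a : ℕ) = a0 at *
  split_ifs at * <;> omega

theorem cpos_inj (a : Fin (M + 3)) : Function.Injective (cpos M (rr a)) := by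
  intro p p' h
  apply Fin.ext
  have hp := p.isLt
  have hp' := p'.isLt
  have ha := a.isLt
  have hr := D4_rr a
  unfold cpos at h
  generalize rr a = r at hr h
  generalize (p : ℕ) = p0 at *
  generalize (p' : ℕ) = p1 at *
  generalize (a : ℕ) = a0 at *
  split_ifs at * <;> omega

theorem cpos_lt (a p : Fin (M + 3)) : cpos M (rr a) p < M + 3 := by
  have hp := p.isLt
  have ha := a.isLt
  have hr := D4_rr a
  unfold cpos
  generalize rr a = r at hr ⊢
  generalize (p : ℕ) = p0 at *
  generalize (a : ℕ) = a0 at *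
  split_ifs at * <;> omega

theorem cpos_head (a : Fin (M + 3)) : cpos M (rr a) (a + 1) = 0 := by
  have e : ((a + 1 : Fin (M + 3)) : ℕ) = rr a := rfl
  unfold cpos
  rw [e, if_pos (le_refl _), Nat.sub_self]

theorem cpos_tail (a : Fin (M + 3)) : cpos M (rr a) a = M + 2 := by
  have ha := a.isLt
  have hr := D4_rr a
  unfold cpos
  generalize rr a = r at hr ⊢
  generalize (a : ℕ) = a0 at *
  split_ifs at * <;> omega

theorem omg_head (a : Fin (M + 3)) : omg M (rr a) (a + 1) = 1 := by
  have e : ((a + 1 : Fin (M + 3)) : ℕ) = rr a := rfl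
  unfold omg
  rw [e, if_pos (le_refl _), Nat.sub_self, pow_zero]

theorem omg_tail (a : Fin (M + 3)) : qK * ae a * omg M (rr a) a = tK * qK ^ (M + 4) := by
  have ha := a.isLt
  have hr := D4_rr a
  unfold ae
  rw [D4_tw]
  unfold omg
  generalize rr a = r at hr ⊢
  generalize (a : ℕ) = a0 at *
  by_cases h : a0 = M + 2
  · rw [if_pos h] at hr ⊢
    subst hr
    rw [if_pos (Nat.zero_le _), h, Nat.sub_zero]
    ring
  · rw [if_neg h] at hr ⊢
    rw [if_neg (by omega : ¬ r ≤ a0), show a0 + (M + 3) - r = M + 2 by omega]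
    ring

theorem DD_ne : DD M ≠ 0 := by
  have h := algMap_ne (1 - tP ^ 2 * qP ^ (M + 4)) (by simp [tP])
  have e : DD M = algebraMap (Polynomial ℚ) KK (1 - tP ^ 2 * qP ^ (M + 4)) := by
    simp only [DD, tK, qK, map_sub, map_mul, map_pow, map_one]
  rw [e]; exact h

theorem DD2_ne : DD2 M ≠ 0 := by
  have h := algMap_ne (1 - tP * qP ^ (M + 4)) (by simp [tP])
  have e : DD2 M = algebraMap (Polynomial ℚ) KK (1 - tP * qP ^ (M + 4)) := by
    simp only [DD2, tK, qK, map_sub, map_mul, map_pow, map_one]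
  rw [e]; exact h

end Pool.Agent.VB

end Row_D4

section Row_D5

/-!
ROW D5: the splitting is equivariant: Sf (F.x_k) = (Sf F).x_k for every arc k (level 2, cut last, emitter a).
k ≠ a: inr p: NN_arc (hypotheses from D4: n values from cpos), none: sum_arc after NN_arc.  k = a: NN_emit_i, _j, _p, NN_emit_sum with
c = t ae/DD, c2 = t^2 ae^2/(DD DD2): c (1 - t (t q^(m+1))) = t ae, c2 (1 - t q^(m+1)) = c t ae.  Then for all g (rac_mul, inverses: both sides
are actions by automorphisms and Sf is linear).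
-/

namespace Pool.Agent.VB

open FreeGroup (of)

variable {M : ℕ}

private theorem d5_nii (a p : Fin (M + 3)) : cnn M (rr a) p p = 1 - tK * qK := by
  unfold cnn
  rw [if_pos rfl]

private theorem d5_lt (a p l : Fin (M + 3)) (h : cpos M (rr a) l < cpos M (rr a) p) :
    cnn M (rr a) p l = 1 - qK := by
  unfold cnn
  rw [if_neg (by rintro rfl; exact lt_irrefl _ h), if_pos h]

private theorem d5_gt (a p l : Fin (M + 3)) (hne : p ≠ l)
    (h : ¬ cpos M (rr a) l < cpos M (rr a) p) : cnn M (rr a) p l = tK * (1 - qK) := by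
  unfold cnn
  rw [if_neg hne, if_neg h]

private theorem d5_ne (k : Fin (M + 3)) : k ≠ k + 1 := (cyc M).ne k

private theorem d5_NN (a k : Fin (M + 3)) (h : k ≠ a) (F : Sym2 (Fin (M + 3)) → KK) :
    NN (cnn M (rr a)) (omg M (rr a))
      (actV qK tK (tw (lastA M) k) (tw (lastA M) k)⁻¹ k (k + 1) F) =
    act1 qK (tw (lastA M) k) (tw (lastA M) k)⁻¹ k (k + 1)
      (NN (cnn M (rr a)) (omg M (rr a)) F) := by
  have hs := cpos_succ a k h
  have hinj := cpos_inj a
  refine NN_arc qK tK (tw (lastA M) k) (tw_ne _ _) k (k + 1) (d5_ne k) _ _ (omg_succ a k h)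
    (d5_nii a k) (d5_nii a (k + 1)) (d5_lt a _ _ (by omega))
    (d5_gt a _ _ (d5_ne k) (by omega)) ?_ ?_ F
  · intro p h1 h2
    have e1 : cpos M (rr a) p ≠ cpos M (rr a) (k + 1) := fun e => h2 (hinj e)
    by_cases h3 : cpos M (rr a) k < cpos M (rr a) p
    · rw [d5_lt a p k h3, d5_lt a p (k + 1) (by omega)]
    · rw [d5_gt a p k h1 h3, d5_gt a p (k + 1) h2 (by omega)]
  · intro l h1 h2
    have e1 : cpos M (rr a) l ≠ cpos M (rr a) k := fun e => h1 (hinj e)
    by_cases h3 : cpos M (rr a) l < cpos M (rr a) k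
    · rw [d5_lt a k l h3, d5_lt a (k + 1) l (by omega)]
    · rw [d5_gt a k l h1.symm h3, d5_gt a (k + 1) l h2.symm (by omega)]

private theorem d5_c (a : Fin (M + 3)) : tK * ae a / DD M *
    (omg M (rr a) (a + 1) - tK * qK * ae a * omg M (rr a) a) = tK * ae a := by
  have h1 := omg_tail a
  have h2 : omg M (rr a) (a + 1) - tK * qK * ae a * omg M (rr a) a = DD M := by
    rw [omg_head]
    have : tK * qK * ae a * omg M (rr a) a = tK * (qK * ae a * omg M (rr a) a) := by ring
    rw [this, h1]
    unfold DD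
    ring
  rw [h2, div_mul_cancel₀ _ DD_ne]

private theorem d5_c2 (a : Fin (M + 3)) : tK ^ 2 * ae a ^ 2 / (DD M * DD2 M) *
    (omg M (rr a) (a + 1) - qK * ae a * omg M (rr a) a) = tK * ae a / DD M * (tK * ae a) := by
  have h1 := omg_tail a
  have h2 : omg M (rr a) (a + 1) - qK * ae a * omg M (rr a) a = DD2 M := by
    rw [omg_head, h1]
    unfold DD2
    ring
  have h3 : DD M ≠ 0 := DD_ne
  have h4 : DD2 M ≠ 0 := DD2_ne
  rw [h2]
  field_simp

theorem Sf_arc (a k : Fin (M + 3)) (F : Sym2 (Fin (M + 3)) → KK) :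
    Sf a (rac (modV (cyc M) (lastA M)) F ((cyc M).x k)) =
      rac (modE (cyc M) (lastA M) a true) (Sf a F) ((cyc M).x k) := by
  rw [modV_x, modE_x]
  have hcut : (if decide (k = lastA M) = true then tK * qK else (1 : KK)) = tw (lastA M) k := by
    unfold tw
    by_cases h : k = lastA M
    · rw [if_pos h, if_pos (decide_eq_true h)]
    · rw [if_neg h, if_neg (by simpa using h)]
  have hact : actE qK tK true (decide (k = lastA M)) (decide (k = a)) ((cyc M).src k)
      ((cyc M).tgt k) (Sf a F) =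
      act2E qK tK (tw (lastA M) k) (decide (k = a)) k (k + 1) (Sf a F) := by
    show (if (true : Bool) = true then act2E qK tK (if decide (k = lastA M) = true then
      tK * qK else 1) (decide (k = a)) k (k + 1) (Sf a F) else _) = _
    rw [if_pos rfl, hcut]
  rw [hact]
  show Sf a (actV qK tK (tw (lastA M) k) (tw (lastA M) k)⁻¹ k (k + 1) F) = _
  by_cases hk : k = a
  · subst hk
    have hd : decide (k = k) = true := decide_eq_true rfl
    have hinj := cpos_inj k
    have hh := cpos_head k
    have ht := cpos_tail k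
    have hij' : cnn M (rr k) k (k + 1) = 1 - qK := d5_lt k _ _ (by omega)
    have hji : cnn M (rr k) (k + 1) k = tK * (1 - qK) := d5_gt k _ _ (d5_ne k).symm (by omega)
    have hil : ∀ l, l ≠ k → l ≠ k + 1 → cnn M (rr k) k l = 1 - qK := by
      intro l h1 h2
      have e1 : cpos M (rr k) l ≠ cpos M (rr k) k := fun e => h1 (hinj e)
      have e2 := cpos_lt k l
      exact d5_lt k _ _ (by omega)
    have hjl : ∀ l, l ≠ k → l ≠ k + 1 → cnn M (rr k) (k + 1) l = tK * (1 - qK) := by
      intro l h1 h2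
      exact d5_gt k _ _ h2.symm (by omega)
    have hni : ∀ p, p ≠ k → p ≠ k + 1 → cnn M (rr k) p k = tK * (1 - qK) := by
      intro p h1 h2
      have e2 := cpos_lt k p
      exact d5_gt k _ _ h1 (by omega)
    have hnj : ∀ p, p ≠ k → p ≠ k + 1 → cnn M (rr k) p (k + 1) = 1 - qK := by
      intro p h1 h2
      have e1 : cpos M (rr k) p ≠ cpos M (rr k) (k + 1) := fun e => h2 (hinj e)
      exact d5_lt k _ _ (by omega)
    have ha : ae k ≠ 0 := tw_ne _ _
    funext st
    rcases st with _ | z | p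
    · show tK ^ 2 * ae k ^ 2 / (DD M * DD2 M) * Omf M (rr k)
          (actV qK tK (ae k) (ae k)⁻¹ k (k + 1) F) =
        (if decide (k = k) = true then _ else _)
      rw [if_pos hd]
      exact NN_emit_sum qK tK (ae k) ha tK_ne k (k + 1) (d5_ne k) (cnn M (rr k)) (omg M (rr k))
        (d5_nii k k) (d5_nii k (k + 1)) hij' hji hil hjl hni hnj (tK * ae k / DD M)
        (tK ^ 2 * ae k ^ 2 / (DD M * DD2 M)) (d5_c k) (d5_c2 k) F
    · rfl
    · show tK * ae k / DD M * NN (cnn M (rr k)) (omg M (rr k))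
          (actV qK tK (ae k) (ae k)⁻¹ k (k + 1) F) p =
        (if decide (k = k) = true then _ else _)
      rw [if_pos hd]
      by_cases h1 : p = k
      · rw [if_pos h1]
        subst h1
        exact NN_emit_i qK tK (ae p) ha tK_ne p (p + 1) (d5_ne p) (cnn M (rr p)) (omg M (rr p))
          (d5_nii p p) (d5_nii p (p + 1)) hij' hji hil hjl (tK * ae p / DD M) (d5_c p) F
      · rw [if_neg h1]
        by_cases h2 : p = k + 1
        · rw [if_pos h2]
          subst h2
          exact NN_emit_j qK tK (ae k) ha tK_ne k (k + 1) (d5_ne k) (cnn M (rr k)) (omg M (rr k))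
            (d5_nii k k) (d5_nii k (k + 1)) hij' hji hil hjl (tK * ae k / DD M) (d5_c k) F
        · rw [if_neg h2]
          exact NN_emit_p qK tK (ae k) ha tK_ne k (k + 1) (d5_ne k) (cnn M (rr k)) (omg M (rr k))
            p h1 h2 (hni p h1 h2) (hnj p h1 h2) (tK * ae k / DD M) (d5_c k) F
  · have hd : ¬ decide (k = a) = true := by simpa using hk
    have hN := d5_NN a k hk F
    funext st
    rcases st with _ | z | p
    · show tK ^ 2 * ae a ^ 2 / (DD M * DD2 M) * Omf M (rr a)
          (actV qK tK (tw (lastA M) k) (tw (lastA M) k)⁻¹ k (k + 1) F) =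
        (if decide (k = a) = true then _ else _)
      rw [if_neg hd]
      show _ = tK ^ 2 * ae a ^ 2 / (DD M * DD2 M) * Omf M (rr a) F
      unfold Omf
      rw [hN, sum_arc qK (tw (lastA M) k) (tw_ne _ _) k (k + 1) (d5_ne k) (omg M (rr a))
        (omg_succ a k hk)]
    · rfl
    · show tK * ae a / DD M * NN (cnn M (rr a)) (omg M (rr a))
          (actV qK tK (tw (lastA M) k) (tw (lastA M) k)⁻¹ k (k + 1) F) p =
        (if decide (k = a) = true then _ else _)
      rw [if_neg hd, hN]
      show _ = act1 qK (tw (lastA M) k) (tw (lastA M) k)⁻¹ k (k + 1)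
        (fun p => tK * ae a / DD M * NN (cnn M (rr a)) (omg M (rr a)) F p) p
      unfold act1
      split_ifs <;> ring

theorem Sf_rac (a : Fin (M + 3)) (F : Sym2 (Fin (M + 3)) → KK) (g : (cyc M).G) :
    Sf a (rac (modV (cyc M) (lastA M)) F g) =
      rac (modE (cyc M) (lastA M) a true) (Sf a F) g := by
  have hmem : g ∈ (⊤ : Subgroup (cyc M).G) := Subgroup.mem_top g
  rw [← PresentedGroup.closure_range_of] at hmem
  induction hmem using Subgroup.closure_induction generalizing F with
  | mem x hx =>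
    obtain ⟨k, rfl⟩ := hx
    exact Sf_arc a k F
  | one => rw [rac_one, rac_one]
  | mul x y _ _ hx hy => rw [rac_mul, rac_mul, hy, hx]
  | inv x _ hx =>
    have h1 := hx (rac (modV (cyc M) (lastA M)) F x⁻¹)
    rw [← rac_mul, inv_mul_cancel, rac_one] at h1
    rw [h1, rac_inv_mul]

end Pool.Agent.VB

end Row_D5

section Row_D6

/-!
ROW D6: the gauge map is equivariant: Lf (f.x_k) at level 1 = (Lf f).x_k at level 2, for all k, then all g.
Functions with value 0 on multisets; level 2 action on (h,p) with twist alpha = a/t for the emitter.  Cases: k = a = last; k = a ≠ last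
(tail a has rr a > a: gam = 1, head: gam = t); k = last ≠ a (tail last: gam = t, head 0: gam = 1, since rr a ≥ 1); other k: same gam.
-/

namespace Pool.Agent.VB

open FreeGroup (of)

variable {M : ℕ}

private theorem D6_rr_last : rr (lastA M) = 0 := rr_last

private theorem D6_val_succ (k : Fin (M + 3)) (h : k ≠ lastA M) :
    ((k + 1 : Fin (M + 3)) : ℕ) = (k : ℕ) + 1 := rr_ne k h

private theorem D6_gam_eq (a k : Fin (M + 3)) (h1 : k ≠ lastA M) (h2 : k ≠ a) :
    gam a (k + 1) = gam a k := by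
  unfold gam
  by_cases ha : a = lastA M
  · simp [ha]
  · have h3 : rr a = (a : ℕ) + 1 := rr_ne a ha
    have h4 := D6_val_succ k h1
    have h5 : (k : ℕ) ≠ (a : ℕ) := fun e => h2 (Fin.ext e)
    have h6 : (rr a ≤ ((k + 1 : Fin (M + 3)) : ℕ)) ↔ (rr a ≤ (k : ℕ)) := by
      rw [h3, h4]; omega
    simp only [ha, ne_eq, not_false_eq_true, true_and, h6]

private theorem D6_gam_last (p : Fin (M + 3)) : gam (lastA M) p = 1 := by
  simp [gam]

private theorem D6_gam_head (a : Fin (M + 3)) (h : a ≠ lastA M) : gam a (a + 1) = tK := by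
  have h3 : rr a ≤ ((a + 1 : Fin (M + 3)) : ℕ) := le_refl _
  simp [gam, h, h3]

private theorem D6_gam_tail (a : Fin (M + 3)) (h : a ≠ lastA M) : gam a a = 1 := by
  have h3 : rr a = (a : ℕ) + 1 := rr_ne a h
  have h4 : ¬ (rr a ≤ (a : ℕ)) := by omega
  simp [gam, h4]

private theorem D6_gam_cut (a : Fin (M + 3)) (h : a ≠ lastA M) : gam a (lastA M) = tK := by
  have h3 : rr a = (a : ℕ) + 1 := rr_ne a h
  have h4 : (a : ℕ) ≠ M + 2 := fun e => h (Fin.ext e)
  have h5 := a.isLt
  have h6 : rr a ≤ ((lastA M : Fin (M + 3)) : ℕ) := by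
    rw [h3]; simp only [lastA, Fin.val_last]; omega
  rw [gam, if_pos ⟨h, h6⟩]

private theorem D6_gam_cut' (a : Fin (M + 3)) (h : a ≠ lastA M) : gam a (lastA M + 1) = 1 := by
  have h3 : rr a = (a : ℕ) + 1 := rr_ne a h
  have h4 : ((lastA M + 1 : Fin (M + 3)) : ℕ) = 0 := rr_last
  have h5 : ¬ (rr a ≤ ((lastA M + 1 : Fin (M + 3)) : ℕ)) := by
    rw [h3, h4]; omega
  rw [gam, if_neg (fun hh => h5 hh.2)]

theorem Lf_arc (a k : Fin (M + 3)) (f : St (Fin (M + 3)) → KK) :
    Lf a (rac (modE (cyc M) (lastA M) a false) f ((cyc M).x k)) =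
      rac (modE (cyc M) (lastA M) a true) (Lf a f) ((cyc M).x k) := by
  rw [modE_x, modE_x]
  have hq := qK_ne
  have ht := tK_ne
  have hne : k ≠ k + 1 := (cyc M).ne k
  change Lf a (actE qK tK false (decide (k = lastA M)) (decide (k = a)) k (k + 1) f) =
    actE qK tK true (decide (k = lastA M)) (decide (k = a)) k (k + 1) (Lf a f)
  funext x
  rcases x with _ | (z | p)
  · -- none
    by_cases hka : k = a
    · subst hka
      by_cases hkl : k = lastA M
      · subst hkl
        simp only [actE, act2E, act1E, Lf, decide_true, if_true, D6_gam_last,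
          Bool.false_eq_true, if_false]
        ring
      · have h1 := D6_gam_head k hkl
        have h2 := D6_gam_tail k hkl
        simp only [actE, act2E, act1E, Lf, decide_true, if_true, hkl, decide_false, h1, h2,
          Bool.false_eq_true, if_false]
        ring
    · have e1 : ∀ a' : KK, act1E qK a' false k (k + 1) f none = f none := fun _ => rfl
      have e2 : ∀ a' : KK, act2E qK tK a' false k (k + 1) (Lf a f) none = Lf a f none :=
        fun _ => rfl
      simp only [actE, Lf, hka, decide_false, Bool.false_eq_true, if_false, if_true, e1, e2]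
  · -- multisets
    have h0 : ∀ (a' : KK), actV qK tK a' a'⁻¹ k (k + 1) (fun z => Lf a f (some (Sum.inl z))) z = 0 := by
      intro a'
      induction z using Sym2.ind with
      | _ p r =>
        simp only [actV, Lf, Sym2.lift_mk, mul_zero, add_zero]
        split_ifs <;> rfl
    have h1 : Lf a (actE qK tK false (decide (k = lastA M)) (decide (k = a)) k (k + 1) f)
        (some (Sum.inl z)) = 0 := rfl
    rw [h1]
    simp only [actE, act2E, if_true, h0]
  · -- (h,p)
    by_cases hka : k = a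
    · subst hka
      by_cases hkl : k = lastA M
      · subst hkl
        simp only [actE, act2E, act1E, act1, Lf, decide_true, if_true, D6_gam_last,
          Bool.false_eq_true, if_false, one_mul, mul_zero, add_zero, sub_zero]
        split_ifs
        · field_simp
        · field_simp
        · rfl
      · have h1 := D6_gam_head k hkl
        have h2 := D6_gam_tail k hkl
        simp only [actE, act2E, act1E, act1, Lf, decide_true, if_true, hkl, decide_false,
          Bool.false_eq_true, if_false, one_mul, mul_zero, add_zero, sub_zero, h1, h2]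
        split_ifs with e1 e2
        · subst e1; rw [h2]; field_simp
        · subst e2; rw [h1]; field_simp
        · rfl
    · by_cases hkl : k = lastA M
      · subst hkl
        have hal : a ≠ lastA M := fun e => hka e.symm
        have h1 := D6_gam_cut a hal
        have h2 := D6_gam_cut' a hal
        simp only [actE, act2E, act1E, act1, Lf, decide_true, if_true, hka, decide_false,
          Bool.false_eq_true, if_false, h1, h2]
        split_ifs with e1 e2
        · subst e1; rw [h1]; field_simp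
        · subst e2; rw [h2]; field_simp
        · rfl
      · have h1 := D6_gam_eq a k hkl hka
        simp only [actE, act2E, act1E, act1, Lf, if_true, hka, hkl, decide_false,
          Bool.false_eq_true, if_false, h1]
        split_ifs with e1 e2
        · subst e1; ring
        · subst e2; rw [h1]; ring
        · rfl

theorem Lf_rac (a : Fin (M + 3)) (f : St (Fin (M + 3)) → KK) (g : (cyc M).G) :
    Lf a (rac (modE (cyc M) (lastA M) a false) f g) =
      rac (modE (cyc M) (lastA M) a true) (Lf a f) g := by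
  let H : Subgroup (cyc M).G :=
    { carrier := {g | ∀ f, Lf a (rac (modE (cyc M) (lastA M) a false) f g) =
        rac (modE (cyc M) (lastA M) a true) (Lf a f) g}
      one_mem' := by intro f; rw [rac_one, rac_one]
      mul_mem' := by
        intro g h hg hh f
        rw [rac_mul, rac_mul, hh, hg]
      inv_mem' := by
        intro g hg f
        have h1 := hg (rac (modE (cyc M) (lastA M) a false) f g⁻¹)
        rw [← rac_mul, inv_mul_cancel, rac_one] at h1
        rw [h1, rac_inv_mul] }
  have h := PresentedGroup.generated_by _ H (fun k => fun f => Lf_arc a k f) g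
  exact h f

end Pool.Agent.VB

end Row_D6

section Row_D7

/-!
ROW D7: eps = Sf 1 + C Lf(eps1) + (const) delta_hh, C = (t/D) q^k (1-tq), k = M+3 - rr a if a ≠ last, 0 if a = last.
N_p(1) = sum_l n(p,l) omega(l): geometric sums.  With m = M+3, r = rr a.
a = last (r = 0, omega(p) = q^p): N_p = (1-tq) q^p + (1-q)(sum_(l<p) q^l) + t(1-q) sum_(l>p) q^l = 1 - t q^m for every p; t - (t u/D)(1 - t q^m) = (t/D)(1-tq), u = tq.
a ≠ last: for p ≥ r: N_p = 1 - t q^k + t^2 q^(k+1) - t^2 q^(m+1) = D - t q^k (1-tq); for p < r: N_p = D - q^k(1-tq).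
-/

namespace Pool.Agent.VB

open FreeGroup (of)

variable {M : ℕ}

/-- number of sites from the head of `a` to the cut -/
def kcut {M : ℕ} (a : Fin (M + 3)) : ℕ := if a = lastA M then 0 else M + 3 - rr a

/-- the weight as a function of the position -/
private def D7w {R : Type} [CommRing R] (q t : R) (k c : ℕ) : R :=
  if c < k then q ^ c else t * q * q ^ c

/-- partial sums of the weights -/
private def D7W {R : Type} [CommRing R] (q t : R) (k n : ℕ) : R :=
  if n ≤ k then 1 - q ^ n else 1 - q ^ k + t * q * (q ^ k - q ^ n)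

private theorem D7W_succ {R : Type} [CommRing R] (q t : R) (k n : ℕ) :
    D7W q t k (n + 1) = D7W q t k n + (1 - q) * D7w q t k n := by
  unfold D7W D7w
  rcases lt_trichotomy n k with h | h | h
  · rw [if_pos (by omega : n + 1 ≤ k), if_pos h.le, if_pos h]; ring
  · subst h
    rw [if_neg (by omega : ¬ n + 1 ≤ n), if_pos le_rfl, if_neg (lt_irrefl n)]; ring
  · rw [if_neg (by omega : ¬ n + 1 ≤ k), if_neg (by omega : ¬ n ≤ k), if_neg (by omega : ¬ n < k)]; ring

/-- the summand -/
private def D7F {R : Type} [CommRing R] (q t : R) (k c l : ℕ) : R :=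
  (if c = l then 1 - t * q else if l < c then 1 - q else t * (1 - q)) * D7w q t k l

private theorem D7_sum_low {R : Type} [CommRing R] (q t : R) (k c : ℕ) :
    ∀ n, n ≤ c → ∑ l ∈ Finset.range n, D7F q t k c l = D7W q t k n := by
  intro n
  induction n with
  | zero => intro _; simp [D7W]
  | succ n ih =>
    intro h
    rw [Finset.sum_range_succ, ih (by omega), D7W_succ, D7F, if_neg (by omega : ¬ c = n),
      if_pos (by omega : n < c)]

private theorem D7_sum {R : Type} [CommRing R] (q t : R) (k c : ℕ) :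
    ∀ n, ∑ l ∈ Finset.range (c + 1 + n), D7F q t k c l =
      (1 - t * q) * D7w q t k c + D7W q t k c + t * (D7W q t k (c + 1 + n) - D7W q t k (c + 1)) := by
  intro n
  induction n with
  | zero =>
    rw [add_zero, Finset.sum_range_succ, D7_sum_low q t k c c le_rfl, D7F, if_pos rfl]; ring
  | succ n ih =>
    rw [← add_assoc, Finset.sum_range_succ, ih, D7W_succ q t k (c + 1 + n), D7F,
      if_neg (by omega : ¬ c = c + 1 + n), if_neg (by omega : ¬ c + 1 + n < c)]
    ring

private theorem D7_tot {R : Type} [CommRing R] (q t : R) (k c m : ℕ) (hc : c < m) (hk : k ≤ m) :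
    ∑ l ∈ Finset.range m, D7F q t k c l =
      if c < k then 1 - t * q ^ k + t ^ 2 * q ^ (k + 1) - t ^ 2 * q ^ (m + 1)
      else 1 - q ^ k + t * q ^ (k + 1) - t ^ 2 * q ^ (m + 1) := by
  obtain ⟨n, rfl⟩ := Nat.exists_eq_add_of_le (Nat.succ_le_of_lt hc)
  rw [Nat.succ_eq_add_one, D7_sum]
  have hm : D7W q t k (c + 1 + n) = 1 - q ^ k + t * q * (q ^ k - q ^ (c + 1 + n)) := by
    unfold D7W
    split_ifs with h
    · have : k = c + 1 + n := le_antisymm hk h
      rw [this]; ring
    · rfl
  rw [hm]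
  unfold D7W D7w
  rcases lt_trichotomy c k with h | h | h
  · rw [if_pos h, if_pos h.le, if_pos (by omega : c + 1 ≤ k), if_pos h]
    ring
  · subst h
    rw [if_neg (lt_irrefl c), if_pos le_rfl, if_neg (by omega : ¬ c + 1 ≤ c), if_neg (lt_irrefl c)]
    ring
  · rw [if_neg (by omega : ¬ c < k), if_neg (by omega : ¬ c ≤ k), if_neg (by omega : ¬ c + 1 ≤ k),
      if_neg (by omega : ¬ c < k)]
    ring

private theorem D7_rr (a : Fin (M + 3)) : rr a < M + 3 := (a + 1 : Fin (M + 3)).isLt

private theorem D7_omg (r : ℕ) (hr : r < M + 3) (l : Fin (M + 3)) :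
    omg M r l = D7w qK tK (M + 3 - r) (cpos M r l) := by
  have hl := l.isLt
  unfold omg cpos D7w
  by_cases h : r ≤ (l : ℕ)
  · rw [if_pos h, if_pos h, if_pos (by omega)]
  · rw [if_neg h, if_neg h, if_neg (by omega)]

private theorem D7_NN (a p : Fin (M + 3)) :
    NN (cnn M (rr a)) (omg M (rr a)) oneV p =
      ∑ l ∈ Finset.range (M + 3), D7F qK tK (M + 3 - rr a) (cpos M (rr a) p) l := by
  rw [← Fin.sum_univ_eq_sum_range (fun l => D7F qK tK (M + 3 - rr a) (cpos M (rr a) p) l) (M + 3)]
  have hb : Function.Bijective (fun l : Fin (M + 3) => (⟨cpos M (rr a) l, cpos_lt a l⟩ : Fin (M + 3))) := by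
    apply (Finite.injective_iff_bijective).1
    intro x y h
    exact cpos_inj a (congrArg Fin.val h)
  rw [← hb.sum_comp (fun l : Fin (M + 3) => D7F qK tK (M + 3 - rr a) (cpos M (rr a) p) (l : ℕ))]
  unfold NN
  refine Finset.sum_congr rfl fun l _ => ?_
  rw [D7_omg (rr a) (D7_rr a) l, D7F, cnn, oneV, mul_one]
  by_cases h : p = l
  · rw [if_pos h, if_pos (by rw [h])]
  · rw [if_neg h, if_neg (fun e => h (cpos_inj a e))]

private theorem D7_key (a p : Fin (M + 3)) :
    tK * DD M = tK * ae a * NN (cnn M (rr a)) (omg M (rr a)) oneV p +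
      tK * qK ^ kcut a * (1 - tK * qK) * gam a p := by
  rw [D7_NN, D7_tot qK tK _ _ _ (cpos_lt a p) (Nat.sub_le _ _)]
  have hp := p.isLt
  by_cases ha : a = lastA M
  · have hr : rr a = 0 := by rw [ha]; exact rr_last
    have hae : ae a = tK * qK := by rw [ae, tw, if_pos ha]
    have hg : gam a p = 1 := by rw [gam, if_neg (fun h => h.1 ha)]
    have hk : kcut a = 0 := by rw [kcut, if_pos ha]
    rw [hae, hg, hk, hr, Nat.sub_zero, if_pos (by unfold cpos; rw [if_pos (Nat.zero_le _)]; omega), DD]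
    ring
  · have hae : ae a = 1 := by rw [ae, tw, if_neg ha]
    have hk : kcut a = M + 3 - rr a := by rw [kcut, if_neg ha]
    have hr := D7_rr a
    rw [hae, hk, DD]
    by_cases h : rr a ≤ (p : ℕ)
    · rw [if_pos (by unfold cpos; rw [if_pos h]; omega), gam, if_pos ⟨ha, h⟩]
      ring
    · rw [if_neg (by unfold cpos; rw [if_neg h]; omega), gam, if_neg (fun e => h e.2)]
      ring

theorem eps_split (a : Fin (M + 3)) :
    ∃ κ : KK, (eps tK true : St (Fin (M + 3)) → KK) =
      Sf a oneV + (tK / DD M * qK ^ kcut a * (1 - tK * qK)) • Lf a (eps tK false)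
        + κ • (fun x => if x = none then (1 : KK) else 0) := by
  refine ⟨-(Sf a oneV none) - (tK / DD M * qK ^ kcut a * (1 - tK * qK)) * Lf a (eps tK false) none, ?_⟩
  funext x
  rw [Pi.add_apply, Pi.add_apply, Pi.smul_apply, Pi.smul_apply, smul_eq_mul, smul_eq_mul]
  rcases x with _ | z | p
  · rw [if_pos rfl]
    show (0 : KK) = _
    ring
  · rw [if_neg (by simp)]
    show (if true = true then (1 : KK) else 0) = oneV z + _ * 0 + _
    rw [if_pos rfl, oneV]; ring
  · rw [if_neg (by simp)]
    show (if true = true then tK else 1) = tK * ae a / DD M * NN (cnn M (rr a)) (omg M (rr a)) oneV p +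
      _ * (gam a p * (if false = true then tK else 1)) + _
    rw [if_pos rfl, if_neg (by simp)]
    have h := D7_key a p
    have hD := DD_ne (M := M)
    field_simp
    linear_combination h

end Pool.Agent.VB

end Row_D7

section Row_D8

/-!
ROW D8: conclusion of the splitting: if Psi at level 2 and level 1 vanish (d = false), then Omega_a(1.g) = Omega_a(1).
Apply `. g` to eps_split and evaluate at none: Psi^2(g) = (Sf 1 . g)(none) + C (Lf eps1 . g)(none) + κ (delta invariant under all g);
(Lf eps1 . g)(none) = (1+t) t Psi^1(g) = 0; (Sf 1 . g) none = Sf (1.g) none; at g = 1: 0 = Sf 1 none + 0 + κ.  So c2 (Omega(1.g) - Omega(1)) = 0, c2 ≠ 0.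
-/

namespace Pool.Agent.VB

open FreeGroup (of)

variable {M : ℕ}

/-- the delta function at `hh` -/
private noncomputable def D8_del : St (Fin (M + 3)) → KK := fun x => if x = none then (1 : KK) else 0

private theorem D8_add {G N : Type} [Group G] [AddCommGroup N] [Module KK N] (r : RA G N) (F F' : N)
    (g : G) : rac r (F + F') g = rac r F g + rac r F' g := by
  simp [rac]

private theorem D8_smul {G N : Type} [Group G] [AddCommGroup N] [Module KK N] (r : RA G N) (c : KK)
    (F : N) (g : G) : rac r (c • F) g = c • rac r F g := by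
  simp [rac]

private theorem D8_act {R W : Type} [CommRing R] [DecidableEq W] (q t a a' : R) (i j : W)
    (z : Sym2 W) : actV q t a a' i j (fun _ => (0 : R)) z = 0 := by
  induction z using Sym2.ind with
  | _ p r =>
    simp only [actV, Sym2.lift_mk]
    split_ifs <;> ring

private theorem D8_arc (b a k : Fin (M + 3)) :
    rac (modE (cyc M) b a true) (D8_del (M := M)) ((cyc M).x k) = D8_del (M := M) := by
  rw [modE_x]
  funext x
  rcases x with _ | z | p
  · by_cases h : k = a
    · simp [actE, act2E, D8_del, h]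
    · simp [actE, act2E, D8_del, h]
  · have h0 := D8_act qK tK (if decide (k = b) = true then tK * qK else 1)
      ((if decide (k = b) = true then tK * qK else 1) : KK)⁻¹ ((cyc M).src k) ((cyc M).tgt k) z
    simpa [actE, act2E, D8_del] using h0
  · by_cases h : k = a
    · simp [actE, act2E, D8_del, h]
    · simp [actE, act2E, act1, D8_del, h]

private theorem D8_all (b a : Fin (M + 3)) (g : (cyc M).G) :
    rac (modE (cyc M) b a true) (D8_del (M := M)) g = D8_del (M := M) := by
  let H : Subgroup (cyc M).G :=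
    { carrier := {g | rac (modE (cyc M) b a true) (D8_del (M := M)) g = D8_del (M := M)}
      mul_mem' := by
        intro x y hx hy
        simp only [Set.mem_setOf_eq] at hx hy ⊢
        rw [rac_mul, hx, hy]
      one_mem' := by
        simp only [Set.mem_setOf_eq]
        exact rac_one _ _
      inv_mem' := by
        intro x hx
        simp only [Set.mem_setOf_eq] at hx ⊢
        have h := rac_inv_mul (modE (cyc M) b a true) (D8_del (M := M)) x
        rw [hx] at h
        exact h }
  have hH : H = ⊤ := by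
    rw [eq_top_iff, ← PresentedGroup.closure_range_of, Subgroup.closure_le]
    rintro _ ⟨k, rfl⟩
    exact D8_arc b a k
  have : g ∈ H := by rw [hH]; trivial
  exact this

theorem Omf_inv_of_Psi (a : Fin (M + 3)) (g : (cyc M).G)
    (h2 : Psi (cyc M) (lastA M) a true false g = 0)
    (h1 : Psi (cyc M) (lastA M) a false false g = 0) :
    Omf M (rr a) (rac (modV (cyc M) (lastA M)) oneV g) = Omf M (rr a) oneV := by
  obtain ⟨κ, hκ⟩ := eps_split (M := M) a
  set C : KK := tK / DD M * qK ^ kcut a * (1 - tK * qK) with hC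
  have hκ' : (eps tK true : St (Fin (M + 3)) → KK) =
      Sf a oneV + C • Lf a (eps tK false) + κ • D8_del (M := M) := hκ
  have key : ∀ g : (cyc M).G, rac (modE (cyc M) (lastA M) a true) (eps tK true) g none =
      Sf a (rac (modV (cyc M) (lastA M)) oneV g) none +
        C * ((1 + tK) * tK * rac (modE (cyc M) (lastA M) a false) (eps tK false) g none) + κ := by
    intro g
    rw [hκ', D8_add, D8_add, D8_smul, D8_smul, D8_all, ← Sf_rac, ← Lf_rac]
    simp only [Pi.add_apply, Pi.smul_apply, smul_eq_mul]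
    have e1 : D8_del (M := M) none = 1 := by simp [D8_del]
    rw [e1, mul_one]
    rfl
  have k1 := key g
  have k2 := key 1
  have p2 : rac (modE (cyc M) (lastA M) a true) (eps tK true) g none = 0 := h2
  have p1 : rac (modE (cyc M) (lastA M) a false) (eps tK false) g none = 0 := h1
  rw [p2, p1] at k1
  rw [rac_one, rac_one, rac_one] at k2
  have e0 : ∀ lv : Bool, (eps tK lv : St (Fin (M + 3)) → KK) none = 0 := fun lv => rfl
  rw [e0, e0] at k2
  have s1 : ∀ F : Sym2 (Fin (M + 3)) → KK,
      Sf a F none = tK ^ 2 * ae a ^ 2 / (DD M * DD2 M) * Omf M (rr a) F := fun F => rfl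
  rw [s1] at k1 k2
  have hc : tK ^ 2 * ae a ^ 2 / (DD M * DD2 M) ≠ 0 := by
    refine div_ne_zero (mul_ne_zero (pow_ne_zero _ tK_ne) (pow_ne_zero _ ?_))
      (mul_ne_zero DD_ne DD2_ne)
    exact tw_ne _ _
  apply mul_left_cancel₀ hc
  linear_combination k2 - k1

end Pool.Agent.VB

end Row_D8
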