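import Pool.Agent.Lib.MP_7c21d5_al.VB01_Modules
import Pool.Agent.Lib.MP_7c21d5_al.VB02_Braids

set_option autoImplicit false

section Row_J1

/-!
ROW J1: relations in `Gam n` (n ≥ 1).  c = cG n = s_0...s_(n-1), tau = y_0 c, omega_r = om r.
(a) alpha (c) y_j = y_(j+1) for j < n:  c y_j c^-1 = y_(j+1) (PP (ss n) k y_j PP^-1 for k ≤ j: y_j; k > j: y_(j+1)).
(b) s_j commutes with omega_(r) (as inl (om r)) for j < n, r ≠ j+1; in particular c and all s_j commute with omega_(n+1), and s_0 with omega_2.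
(c) tau^r = omega_r c^r for r ≤ n+1.
(d) tau s_j tau^-1 = s_(j+1) for j+1 < n (PP_conj, s_(j+1) commutes with y_0).
(e) tau^2 s_(n-1) tau^-2 = s_0 (n ≥ 1): tau^2 = omega_2 c^2, c^2 s_(n-1) = s_0 c^2 (PP_sq), s_0 commutes with omega_2.
-/

namespace Pool.Agent.VB

open FreeGroup (of)

private theorem J1_inl (n j : ℕ) (h : j < n) (w : FreeGroup ℕ) :
    ss n j * SemidirectProduct.inl w = (SemidirectProduct.inl (bact j w) : Gam n) * ss n j := by
  have := SemidirectProduct.inl_aut (φ := alpha n) (sg n j) w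
  rw [alpha_sg, if_pos h] at this
  rw [this, map_inv]
  simp only [ss, inv_mul_cancel_right]

private theorem J1_yy (n j i : ℕ) (h : j < n) :
    ss n j * yy n i = (SemidirectProduct.inl (bact j (of i)) : Gam n) * ss n j :=
  J1_inl n j h (of i)

private theorem J1_PP_lt (n j : ℕ) : ∀ k, k < j → k ≤ n → PP (ss n) k * yy n j = yy n j * PP (ss n) k
  | 0, _, _ => by simp [PP]
  | k + 1, hk, hn => by
    show PP (ss n) k * ss n k * yy n j = yy n j * (PP (ss n) k * ss n k)
    have ih := J1_PP_lt n j k (by omega) (by omega)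
    rw [mul_assoc, J1_yy n k j (by omega), bact_ne k j (by omega) (by omega)]
    change PP (ss n) k * (yy n j * ss n k) = yy n j * (PP (ss n) k * ss n k)
    rw [← mul_assoc, ih, mul_assoc]

private theorem J1_PP_gt (n j : ℕ) : ∀ k, j < k → k ≤ n →
    PP (ss n) k * yy n j = yy n (j + 1) * PP (ss n) k
  | 0, h, _ => by omega
  | k + 1, hk, hn => by
    show PP (ss n) k * ss n k * yy n j = yy n (j + 1) * (PP (ss n) k * ss n k)
    by_cases hjk : j = k
    · subst hjk
      rw [mul_assoc, J1_yy n j j (by omega), bact_self]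
      change PP (ss n) j * (yy n (j + 1) * ss n j) = yy n (j + 1) * (PP (ss n) j * ss n j)
      rw [← mul_assoc, J1_PP_lt n (j + 1) j (by omega) (by omega), mul_assoc]
    · have ih := J1_PP_gt n j k (by omega) (by omega)
      rw [mul_assoc, J1_yy n k j (by omega), bact_ne k j (by omega) (by omega)]
      change PP (ss n) k * (yy n j * ss n k) = yy n (j + 1) * (PP (ss n) k * ss n k)
      rw [← mul_assoc, ih, mul_assoc]

theorem c_conj_y (n j : ℕ) (h : j < n) : cG n * yy n j * (cG n)⁻¹ = yy n (j + 1) := by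
  unfold cG
  rw [J1_PP_gt n j n h le_rfl, mul_inv_cancel_right]

private theorem J1_om_lt (j : ℕ) : ∀ r, r ≤ j → bact j (om r) = om r
  | 0, _ => by simp [om, PP]
  | r + 1, h => by
    have e : om (r + 1) = om r * of r := rfl
    rw [e, map_mul, J1_om_lt j r (by omega), bact_ne j r (by omega) (by omega)]

private theorem J1_om_ge (j : ℕ) : ∀ r, bact j (om (j + 2 + r)) = om (j + 2 + r)
  | 0 => by
    have e : om (j + 2 + 0) = om j * of j * of (j + 1) := rfl
    rw [e, map_mul, map_mul, J1_om_lt j j le_rfl, bact_self, bact_succ]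
    group
  | r + 1 => by
    have e : om (j + 2 + (r + 1)) = om (j + 2 + r) * of (j + 2 + r) := rfl
    rw [e, map_mul, J1_om_ge j r, bact_ne j (j + 2 + r) (by omega) (by omega)]

theorem ss_om (n j r : ℕ) (h : j < n) (hr : r ≠ j + 1) :
    ss n j * SemidirectProduct.inl (om r) = (SemidirectProduct.inl (om r) : Gam n) * ss n j := by
  have key : bact j (om r) = om r := by
    rcases Nat.lt_or_ge j r with h1 | h1
    · obtain ⟨d, rfl⟩ : ∃ d, r = j + 2 + d := ⟨r - (j + 2), by omega⟩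
      exact J1_om_ge j d
    · exact J1_om_lt j r h1
  rw [J1_inl n j h, key]

private theorem J1_PP_om (n : ℕ) : ∀ k, k ≤ n →
    PP (ss n) k * SemidirectProduct.inl (om (n + 1)) =
      (SemidirectProduct.inl (om (n + 1)) : Gam n) * PP (ss n) k
  | 0, _ => by simp [PP]
  | k + 1, h => by
    show PP (ss n) k * ss n k * SemidirectProduct.inl (om (n + 1)) =
      (SemidirectProduct.inl (om (n + 1)) : Gam n) * (PP (ss n) k * ss n k)
    rw [mul_assoc, ss_om n k (n + 1) (by omega) (by omega), ← mul_assoc, J1_PP_om n k (by omega), mul_assoc]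

theorem c_om (n : ℕ) :
    cG n * SemidirectProduct.inl (om (n + 1)) =
      (SemidirectProduct.inl (om (n + 1)) : Gam n) * cG n :=
  J1_PP_om n n le_rfl

private theorem J1_om_left : ∀ r, om (r + 1) = of 0 * PP (fun i => (of (i + 1) : FreeGroup ℕ)) r
  | 0 => by simp [om, PP]
  | r + 1 => by
    have e : om (r + 1 + 1) = om (r + 1) * of (r + 1) := rfl
    rw [e, J1_om_left r, mul_assoc]
    rfl

private theorem J1_c_PP (n : ℕ) : ∀ r, r ≤ n →
    cG n * SemidirectProduct.inl (om r) =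
      (SemidirectProduct.inl (PP (fun i => (of (i + 1) : FreeGroup ℕ)) r) : Gam n) * cG n
  | 0, _ => by simp [om, PP]
  | r + 1, h => by
    have e : (SemidirectProduct.inl (om (r + 1)) : Gam n) = SemidirectProduct.inl (om r) * yy n r := by
      rw [yy, ← map_mul]; rfl
    have e2 : (SemidirectProduct.inl (PP (fun i => (of (i + 1) : FreeGroup ℕ)) (r + 1)) : Gam n) =
        SemidirectProduct.inl (PP (fun i => (of (i + 1) : FreeGroup ℕ)) r) * yy n (r + 1) := by
      rw [yy, ← map_mul]; rfl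
    have h2 : cG n * yy n r = yy n (r + 1) * cG n := J1_PP_gt n r n (by omega) le_rfl
    rw [e, e2, ← mul_assoc, J1_c_PP n r (by omega), mul_assoc, h2, mul_assoc]

theorem tau_pow (n r : ℕ) (h : r ≤ n + 1) :
    tauG n ^ r = (SemidirectProduct.inl (om r) : Gam n) * cG n ^ r := by
  induction r with
  | zero => simp [om, PP]
  | succ r ih =>
    have h1 := J1_c_PP n r (by omega)
    have e : (SemidirectProduct.inl (om (r + 1)) : Gam n) =
        yy n 0 * SemidirectProduct.inl (PP (fun i => (of (i + 1) : FreeGroup ℕ)) r) := by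
      rw [J1_om_left, yy, ← map_mul]
    rw [pow_succ', ih (by omega), e, pow_succ', tauG]
    calc yy n 0 * cG n * (SemidirectProduct.inl (om r) * cG n ^ r)
        = yy n 0 * (cG n * SemidirectProduct.inl (om r)) * cG n ^ r := by simp only [mul_assoc]
      _ = yy n 0 * (SemidirectProduct.inl (PP (fun i => (of (i + 1) : FreeGroup ℕ)) r) * cG n) *
          cG n ^ r := by rw [h1]
      _ = _ := by simp only [mul_assoc]

theorem tau_ss (n j : ℕ) (h : j + 1 < n) : tauG n * ss n j * (tauG n)⁻¹ = ss n (j + 1) := by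
  have h1 : cG n * ss n j = ss n (j + 1) * cG n := PP_conj (ss n) n n j (bseq_ss n) le_rfl h
  have h2 : ss n (j + 1) * yy n 0 = yy n 0 * ss n (j + 1) := by
    rw [J1_yy n (j + 1) 0 h, bact_ne (j + 1) 0 (by omega) (by omega)]
    rfl
  rw [mul_inv_eq_iff_eq_mul, tauG, mul_assoc, h1, ← mul_assoc, ← h2, mul_assoc]

theorem tau_sq (n : ℕ) (h : 1 ≤ n) :
    tauG n * (tauG n * ss n (n - 1) * (tauG n)⁻¹) * (tauG n)⁻¹ = ss n 0 := by
  have h1 : tauG n ^ 2 = (SemidirectProduct.inl (om 2) : Gam n) * cG n ^ 2 := tau_pow n 2 (by omega)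
  have h2 : cG n * cG n * ss n (n - 1) = ss n 0 * (cG n * cG n) := by
    obtain ⟨k, rfl⟩ : ∃ k, n = k + 1 := ⟨n - 1, by omega⟩
    exact PP_sq (ss (k + 1)) (k + 1) k (bseq_ss (k + 1)) le_rfl
  have h3 := ss_om n 0 2 (by omega) (by omega)
  have h4 : tauG n ^ 2 * ss n (n - 1) = ss n 0 * tauG n ^ 2 := by
    rw [h1, mul_assoc, sq, h2, ← mul_assoc, ← h3, mul_assoc]
  have h5 : tauG n * (tauG n * ss n (n - 1) * (tauG n)⁻¹) * (tauG n)⁻¹ =
      tauG n ^ 2 * ss n (n - 1) * (tauG n ^ 2)⁻¹ := by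
    rw [sq, mul_inv_rev]
    simp only [mul_assoc]
  rw [h5, h4, mul_inv_cancel_right]

end Pool.Agent.VB

end Row_J1

section Row_J2

/-!
ROW J2: the homomorphism `jj M : (cyc M).G → Gam (M+2)`, x_k -> s_k (k < M+2), x_(M+2) -> tau s_(M+1) tau^-1.
Relations: neighbours k, k+1 < M+2: braid; (M+1, M+2): s_(M+1) = tau s_M tau^-1 (tau_ss), so the pair is the tau-conjugate of (s_M, s_(M+1));
(M+2, 0): s_0 = tau (tau s_(M+1) tau^-1) tau^-1 (tau_sq) and the pair is the tau-conjugate of (s_(M+1), x_(M+2)) = case before.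
Commutation: x_k, x_(M+2) with 1 ≤ k ≤ M: x_k = tau s_(k-1) tau^-1.  (cyc M).br k k' means k' = k+1 (and k ≠ k'+1); cm means k, k+1, k', k'+1 distinct.
-/

namespace Pool.Agent.VB

open FreeGroup (of)

/-- images of the generators -/
def jjf (M : ℕ) (k : Fin (M + 3)) : Gam (M + 2) :=
  if (k : ℕ) = M + 2 then tauG (M + 2) * ss (M + 2) (M + 1) * (tauG (M + 2))⁻¹
  else ss (M + 2) k

theorem J2_conj {G : Type} [Group G] {t a b x y : G} (hx : t * a * t⁻¹ = x) (hy : t * b * t⁻¹ = y)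
    (h : a * b * a = b * a * b) : x * y * x = y * x * y := by
  subst hx; subst hy
  have e1 : t * a * t⁻¹ * (t * b * t⁻¹) * (t * a * t⁻¹) = t * (a * b * a) * t⁻¹ := by group
  have e2 : t * b * t⁻¹ * (t * a * t⁻¹) * (t * b * t⁻¹) = t * (b * a * b) * t⁻¹ := by group
  rw [e1, e2, h]

theorem J2_conjc {G : Type} [Group G] {t a b x y : G} (hx : t * a * t⁻¹ = x) (hy : t * b * t⁻¹ = y)
    (h : a * b = b * a) : x * y = y * x := by
  subst hx; subst hy
  have e1 : t * a * t⁻¹ * (t * b * t⁻¹) = t * (a * b) * t⁻¹ := by group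
  have e2 : t * b * t⁻¹ * (t * a * t⁻¹) = t * (b * a) * t⁻¹ := by group
  rw [e1, e2, h]

theorem J2_last (M : ℕ) (k : Fin (M + 3)) (h : (k : ℕ) = M + 2) :
    jjf M k = tauG (M + 2) * ss (M + 2) (M + 1) * (tauG (M + 2))⁻¹ := by
  rw [jjf, if_pos h]

theorem J2_ne (M : ℕ) (k : Fin (M + 3)) (h : (k : ℕ) ≠ M + 2) : jjf M k = ss (M + 2) k := by
  rw [jjf, if_neg h]

/-- the pair `s_(M+1)`, `tau s_(M+1) tau^-1` -/
theorem J2_pair (M : ℕ) :
    ss (M + 2) (M + 1) * (tauG (M + 2) * ss (M + 2) (M + 1) * (tauG (M + 2))⁻¹) * ss (M + 2) (M + 1) =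
      (tauG (M + 2) * ss (M + 2) (M + 1) * (tauG (M + 2))⁻¹) * ss (M + 2) (M + 1) *
        (tauG (M + 2) * ss (M + 2) (M + 1) * (tauG (M + 2))⁻¹) :=
  J2_conj (tau_ss (M + 2) M (by omega)) rfl ((bseq_ss (M + 2)).braid M (by omega))

theorem J2_val_add_one (M : ℕ) (k : Fin (M + 3)) :
    ((k + 1 : Fin (M + 3)) : ℕ) = if (k : ℕ) = M + 2 then 0 else (k : ℕ) + 1 := by
  have := Fin.val_add_one (n := M + 2) k
  rw [this]
  by_cases h : (k : ℕ) = M + 2
  · rw [if_pos h, if_pos (Fin.ext (by simpa using h))]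
  · rw [if_neg h, if_neg (fun e => h (by rw [e]; simp))]

theorem jjf_br (M : ℕ) (k k' : Fin (M + 3)) (h : (cyc M).br k k') :
    jjf M k * jjf M k' * jjf M k = jjf M k' * jjf M k * jjf M k' := by
  have e : k + 1 = k' := h.1
  have ev := J2_val_add_one M k
  rw [e] at ev
  by_cases h1 : (k : ℕ) = M + 2
  · rw [if_pos h1] at ev
    rw [J2_last M k h1, J2_ne M k' (by omega), ev]
    exact J2_conj rfl (tau_sq (M + 2) (by omega)) (J2_pair M)
  · rw [if_neg h1] at ev
    rw [J2_ne M k h1]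
    by_cases h2 : (k' : ℕ) = M + 2
    · rw [J2_last M k' h2]
      have : (k : ℕ) = M + 1 := by omega
      rw [this]
      exact J2_pair M
    · rw [J2_ne M k' h2, ev]
      have := k'.isLt
      exact (bseq_ss (M + 2)).braid k (by omega)

theorem J2_cm1 (M : ℕ) (k k' : Fin (M + 3)) (h1 : (k : ℕ) ≠ M + 2) (h2 : (k' : ℕ) = M + 2)
    (h3 : (k : ℕ) + 1 ≠ M + 2) (h4 : (k : ℕ) ≠ 0) :
    jjf M k * jjf M k' = jjf M k' * jjf M k := by
  rw [J2_ne M k h1, J2_last M k' h2]
  have hk := k.isLt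
  obtain ⟨j, hj⟩ : ∃ j, (k : ℕ) = j + 1 := ⟨(k : ℕ) - 1, by omega⟩
  rw [hj]
  exact J2_conjc (tau_ss (M + 2) j (by omega)) rfl
    ((bseq_ss (M + 2)).comm j (M + 1) (by omega) (by omega))

theorem jjf_cm (M : ℕ) (k k' : Fin (M + 3)) (h : (cyc M).cm k k') :
    jjf M k * jjf M k' = jjf M k' * jjf M k := by
  obtain ⟨h1, h2, h3, h4⟩ := h
  have h1' : k ≠ k' := h1
  have h2' : k ≠ k' + 1 := h2
  have h3' : k + 1 ≠ k' := h3
  have e := J2_val_add_one M k
  have e' := J2_val_add_one M k'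
  have f1 : (k : ℕ) ≠ (k' : ℕ) := fun x => h1' (Fin.ext x)
  have f2 : (k : ℕ) ≠ ((k' + 1 : Fin (M + 3)) : ℕ) := fun x => h2' (Fin.ext x)
  have f3 : ((k + 1 : Fin (M + 3)) : ℕ) ≠ (k' : ℕ) := fun x => h3' (Fin.ext x)
  have hk := k.isLt
  have hk' := k'.isLt
  by_cases c1 : (k : ℕ) = M + 2
  · rw [if_pos c1] at e
    have c2 : (k' : ℕ) ≠ M + 2 := by omega
    rw [if_neg c2] at e'
    exact (J2_cm1 M k' k c2 c1 (by omega) (by omega)).symm
  · rw [if_neg c1] at e
    by_cases c2 : (k' : ℕ) = M + 2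
    · rw [if_pos c2] at e'
      exact J2_cm1 M k k' c1 c2 (by omega) (by omega)
    · rw [if_neg c2] at e'
      rw [J2_ne M k c1, J2_ne M k' c2]
      rcases Nat.lt_or_ge (k : ℕ) (k' : ℕ) with hlt | hge
      · exact (bseq_ss (M + 2)).comm k k' (by omega) (by omega)
      · exact ((bseq_ss (M + 2)).comm k' k (by omega) (by omega)).symm

/-- the homomorphism `j` -/
def jj (M : ℕ) : (cyc M).G →* Gam (M + 2) := artLift (jjf M) (jjf_br M) (jjf_cm M)

theorem jj_x (M : ℕ) (k : Fin (M + 3)) : jj M ((cyc M).x k) = jjf M k := by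
  simp [jj, ArcSys.x, artLift_gen]

end Pool.Agent.VB

end Row_J2

section Row_J3

/-!
ROW J3: rotation.  `rotH M` is the morphism k -> k+1 of `cyc M`; jj (rot g) = tau jj(g) tau^-1 (check on generators:
tau_ss, definition, tau_sq; then closure).  Image of jj lies in GamP.
-/

namespace Pool.Agent.VB

open FreeGroup (of)

/-- rotation by `c` -/
def rotH (M : ℕ) (c : Fin (M + 3)) : ArcHom (cyc M) (cyc M) :=
  ⟨fun k => k + c, fun k => k + c, fun a b h => add_right_cancel h,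
   fun a b h => add_right_cancel h, fun s => rfl, fun s => by
     show s + c + 1 = s + 1 + c
     exact add_right_comm s c 1⟩

private theorem J3_gen (M : ℕ) (k : Fin (M + 3)) :
    jjf M (k + 1) = tauG (M + 2) * jjf M k * (tauG (M + 2))⁻¹ := by
  by_cases h1 : (k : ℕ) = M + 2
  · have hk : k = Fin.last (M + 2) := Fin.ext h1
    subst hk
    have h0 : (Fin.last (M + 2) + 1 : Fin (M + 3)) = 0 := Fin.last_add_one (M + 2)
    rw [h0]
    have e0 : jjf M 0 = ss (M + 2) 0 := by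
      unfold jjf
      rw [if_neg (by simp)]
      rfl
    have e1 : jjf M (Fin.last (M + 2)) =
        tauG (M + 2) * ss (M + 2) (M + 1) * (tauG (M + 2))⁻¹ := by
      unfold jjf
      rw [if_pos (by simp)]
    rw [e0, e1]
    exact (tau_sq (M + 2) (by omega)).symm
  · have hlt : (k : ℕ) < M + 2 := by
      have := k.2
      omega
    have hv : ((k + 1 : Fin (M + 3)) : ℕ) = (k : ℕ) + 1 := by
      rw [Fin.val_add_one_of_lt]
      exact Fin.lt_def.2 hlt
    unfold jjf
    rw [hv, if_neg h1]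
    by_cases h2 : (k : ℕ) + 1 = M + 2
    · rw [if_pos h2]
      have : (k : ℕ) = M + 1 := by omega
      rw [this]
    · rw [if_neg h2]
      exact (tau_ss (M + 2) k (by omega)).symm

private theorem J3_hom (M : ℕ) :
    (jj M).comp (rotH M 1).map = (MulAut.conj (tauG (M + 2))).toMonoidHom.comp (jj M) := by
  refine PresentedGroup.ext fun k => ?_
  have h1 : ((rotH M 1).map ((cyc M).x k)) = (cyc M).x (k + 1) := ArcHom.map_x _ _
  have h2 := J3_gen M k
  rw [← jj_x, ← jj_x, ← h1] at h2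
  exact h2

theorem jj_rot (M : ℕ) (g : (cyc M).G) :
    jj M ((rotH M 1).map g) = tauG (M + 2) * jj M g * (tauG (M + 2))⁻¹ :=
  DFunLike.congr_fun (J3_hom M) g

private theorem J3_ss_mem (n k : ℕ) : ss n k ∈ GamP n :=
  Subgroup.subset_closure (Or.inl ⟨k, rfl⟩)

private theorem J3_tau_mem (n : ℕ) : tauG n ∈ GamP n := by
  refine Subgroup.mul_mem _ (Subgroup.subset_closure (Or.inr ⟨0, Nat.zero_le n, rfl⟩)) ?_
  unfold cG
  have h : ∀ k, PP (ss n) k ∈ GamP n := by
    intro k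
    induction k with
    | zero => exact Subgroup.one_mem _
    | succ k ih => exact Subgroup.mul_mem _ ih (J3_ss_mem n k)
  exact h n

theorem jj_mem (M : ℕ) (g : (cyc M).G) : jj M g ∈ GamP (M + 2) := by
  have h : (jj M).range ≤ GamP (M + 2) := by
    rw [MonoidHom.range_eq_map, ← PresentedGroup.closure_range_of, MonoidHom.map_closure,
      Subgroup.closure_le]
    rintro _ ⟨_, ⟨k, rfl⟩, rfl⟩
    have h1 : jj M (PresentedGroup.of k) = jjf M k := jj_x M k
    rw [h1]
    unfold jjf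
    split_ifs
    · exact Subgroup.mul_mem _ (Subgroup.mul_mem _ (J3_tau_mem _) (J3_ss_mem _ _))
        (Subgroup.inv_mem _ (J3_tau_mem _))
    · exact J3_ss_mem _ _
  exact h ⟨g, rfl⟩

theorem tau_mem (n : ℕ) : tauG n ∈ GamP n := J3_tau_mem n

end Pool.Agent.VB

end Row_J3

section Row_J4

/-!
ROW J4: jj is injective.  Target: A ⋊ ℤ with the rotation automorphism.  Let Aut: R = (rotH M 1).map as a MulAut (inverse
(rotH M (-1)).map), H = (cyc M).G ⋊ Multiplicative ℤ via zpowersHom.  T = inr (ofAdd 1), X k = inl (x k): T X_k T^-1 = X_(k+1).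
c = X_0 ... X_(M+1), Y_0 = T c^-1, Y_i = (X_(i-1)...X_0) Y_0 (...)^-1 for i ≤ M+2, 1 for i > M+2.  Facts: X_j Y_0 = Y_0 X_j (1 ≤ j ≤ M+1; c X_(j-1) = X_j c by PP_conj),
X_0 Y_0 X_0 Y_0 = Y_0 X_0 Y_0 X_0 (with c = X_0 c' : Y_0 X_0 = T c'^-1; (T c'^-1)^2 = T^2 (c' c'')^-1, c'' = T^-1 c' T = X_0...X_M; X_0 c' c'' = c c''
= c' c = c' c'' X_(M+1); and T^-2 X_0 T^2 = X_(M+1)).  Conjugating: X_j Y_j X_j Y_j = Y_j X_j Y_j X_j (j ≤ M+1).
k : Gam (M+2) → H by SemidirectProduct.lift, y_i -> Y_i, s_j -> X_j; the compatibility on generators: X_j Y_j X_j^-1 = Y_(j+1) (definition),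
X_j Y_(j+1) X_j^-1 = Y_(j+1)^-1 Y_j Y_(j+1) (from the last relation), X_j Y_i = Y_i X_j for i ≠ j, j+1.  k (tau) = T, k (jj (x_k)) = X_k for all k. So inl = k ∘ jj.
-/

namespace Pool.Agent.VB

open FreeGroup (of)

section abstr
variable {H : Type} [Group H]

theorem J4_PP_map {H' : Type} [Group H'] (K : H →* H') (f : ℕ → H) (k : ℕ) :
    K (PP f k) = PP (fun i => K (f i)) k := by
  induction k with
  | zero => simp [PP]
  | succ k ih => simp [PP, ih]

theorem J4_PP_shift (T : H) (f : ℕ → H) (n : ℕ) (hT : ∀ j, j + 1 < n → T * f j = f (j + 1) * T) :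
    ∀ k, k + 1 ≤ n → T * PP f k * T⁻¹ = PP (fun i => f (i + 1)) k := by
  intro k
  induction k with
  | zero => intro _; simp [PP]
  | succ k ih =>
    intro hk
    have h1 := ih (by omega)
    have h2 := hT k (by omega)
    show T * (PP f k * f k) * T⁻¹ = PP (fun i => f (i + 1)) k * f (k + 1)
    rw [← h1]
    calc T * (PP f k * f k) * T⁻¹ = T * PP f k * T⁻¹ * (T * f k * T⁻¹) := by group
      _ = T * PP f k * T⁻¹ * f (k + 1) := by rw [h2]; group

theorem J4_PP_left (f : ℕ → H) (k : ℕ) : PP f (k + 1) = f 0 * PP (fun i => f (i + 1)) k := by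
  induction k with
  | zero => simp [PP]
  | succ k ih =>
    show PP f (k + 1) * f (k + 1) = f 0 * (PP (fun i => f (i + 1)) k * f (k + 1))
    rw [ih, mul_assoc]

/-- the images of the `y_i` -/
def J4Y (n : ℕ) (f : ℕ → H) (T : H) (i : ℕ) : H :=
  if i ≤ n then RR f i * (T * (PP f n)⁻¹) * (RR f i)⁻¹ else 1

theorem J4_Y0_comm (n : ℕ) (f : ℕ → H) (T : H) (hf : BSeq f n)
    (hT : ∀ j, j + 1 < n → T * f j = f (j + 1) * T) (j : ℕ) (h1 : 1 ≤ j) (h2 : j < n) :
    f j * (T * (PP f n)⁻¹) = (T * (PP f n)⁻¹) * f j := by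
  obtain ⟨i, rfl⟩ : ∃ i, j = i + 1 := ⟨j - 1, by omega⟩
  have h3 := PP_conj f n n i hf le_rfl h2
  have h4 := hT i h2
  have h5 : (PP f n)⁻¹ * f (i + 1) = f i * (PP f n)⁻¹ := by
    rw [inv_mul_eq_iff_eq_mul, ← mul_assoc, h3, mul_inv_cancel_right]
  rw [← mul_assoc, ← h4, mul_assoc, mul_assoc, h5]

theorem J4_typeB0 (n : ℕ) (f : ℕ → H) (T : H) (hf : BSeq f (n + 1))
    (hT : ∀ j, j + 1 < n + 1 → T * f j = f (j + 1) * T)
    (hT2 : T * T * f n = f 0 * (T * T)) :
    f 0 * (T * (PP f (n + 1))⁻¹) * f 0 * (T * (PP f (n + 1))⁻¹) =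
      (T * (PP f (n + 1))⁻¹) * f 0 * (T * (PP f (n + 1))⁻¹) * f 0 := by
  obtain ⟨c, hc⟩ : ∃ c, c = PP f (n + 1) := ⟨_, rfl⟩
  obtain ⟨c', hc'⟩ : ∃ c', c' = PP (fun i => f (i + 1)) n := ⟨_, rfl⟩
  obtain ⟨c'', hc''⟩ : ∃ c'', c'' = PP f n := ⟨_, rfl⟩
  have e1 : c = f 0 * c' := by rw [hc, hc']; exact J4_PP_left f n
  have e2 : c = c'' * f n := by rw [hc, hc'']; rfl
  have e3 : T * c'' * T⁻¹ = c' := by rw [hc', hc'']; exact J4_PP_shift T f (n + 1) hT n le_rfl
  have e4 : c * c'' * c⁻¹ = c' := by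
    rw [hc', hc'']
    exact J4_PP_shift c f (n + 1) (fun j hj => by rw [hc]; exact PP_conj f (n + 1) (n + 1) j hf le_rfl hj) n le_rfl
  rw [← hc]
  have e5 : T * c⁻¹ * f 0 = T * c'⁻¹ := by rw [e1]; group
  have e6 : T * c'⁻¹ * (T * c'⁻¹) = T * T * (c' * c'')⁻¹ := by
    rw [← e3]
    group
  have e7 : c' * c'' * f n = f 0 * (c' * c'') := by
    calc c' * c'' * f n = c' * c := by rw [e2]; group
      _ = c * c'' := by rw [← e4]; group
      _ = f 0 * (c' * c'') := by rw [e1]; group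
  have e8 : f n * (c' * c'')⁻¹ = (c' * c'')⁻¹ * f 0 := by
    rw [eq_inv_mul_iff_mul_eq, ← mul_assoc, e7]
    group
  have e9 : f 0 * (T * c'⁻¹ * (T * c'⁻¹)) = T * c'⁻¹ * (T * c'⁻¹) * f 0 := by
    calc f 0 * (T * c'⁻¹ * (T * c'⁻¹)) = (f 0 * (T * T)) * (c' * c'')⁻¹ := by rw [e6]; group
      _ = (T * T) * (f n * (c' * c'')⁻¹) := by rw [← hT2]; group
      _ = T * c'⁻¹ * (T * c'⁻¹) * f 0 := by rw [e8, e6]; group
  have e10 : f 0 * (T * c⁻¹) * f 0 * (T * c⁻¹) * f 0 = T * c⁻¹ * f 0 * (T * c⁻¹) * f 0 * f 0 := by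
    calc f 0 * (T * c⁻¹) * f 0 * (T * c⁻¹) * f 0 = f 0 * ((T * c⁻¹ * f 0) * (T * c⁻¹ * f 0)) := by group
      _ = (T * c⁻¹ * f 0) * (T * c⁻¹ * f 0) * f 0 := by rw [e5, e9]
      _ = T * c⁻¹ * f 0 * (T * c⁻¹) * f 0 * f 0 := by group
  exact mul_right_cancel e10

theorem J4_Y_zero (n : ℕ) (f : ℕ → H) (T : H) : J4Y n f T 0 = T * (PP f n)⁻¹ := by
  simp [J4Y, RR]

theorem J4_Y_succ (n : ℕ) (f : ℕ → H) (T : H) (k : ℕ) (h : k < n) :
    J4Y n f T (k + 1) = f k * J4Y n f T k * (f k)⁻¹ := by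
  rw [J4Y, J4Y, if_pos (show k + 1 ≤ n from h), if_pos h.le]
  show f k * RR f k * (T * (PP f n)⁻¹) * (f k * RR f k)⁻¹ = _
  group

theorem J4_Y_comm1 (n : ℕ) (f : ℕ → H) (T : H) (hf : BSeq f n)
    (hT : ∀ j, j + 1 < n → T * f j = f (j + 1) * T) (i j : ℕ) (h1 : j + 1 ≤ i) (h2 : i < n) :
    f i * J4Y n f T j = J4Y n f T j * f i := by
  rw [J4Y, if_pos (by omega)]
  have h3 := RR_comm_ge f n j i hf h1 h2
  have h4 := J4_Y0_comm n f T hf hT i (by omega) h2
  have h5 : (RR f j)⁻¹ * f i = f i * (RR f j)⁻¹ := by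
    rw [inv_mul_eq_iff_eq_mul, ← mul_assoc, h3, mul_inv_cancel_right]
  calc f i * (RR f j * (T * (PP f n)⁻¹) * (RR f j)⁻¹)
      = (f i * RR f j) * (T * (PP f n)⁻¹) * (RR f j)⁻¹ := by group
    _ = RR f j * (f i * (T * (PP f n)⁻¹)) * (RR f j)⁻¹ := by rw [← h3]; group
    _ = RR f j * (T * (PP f n)⁻¹) * (f i * (RR f j)⁻¹) := by rw [h4]; group
    _ = RR f j * (T * (PP f n)⁻¹) * (RR f j)⁻¹ * f i := by rw [← h5]; group

theorem J4_Y_comm2 (n : ℕ) (f : ℕ → H) (T : H) (hf : BSeq f n)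
    (hT : ∀ j, j + 1 < n → T * f j = f (j + 1) * T) (i j : ℕ) (h1 : i + 2 ≤ j) (h2 : j ≤ n) :
    f i * J4Y n f T j = J4Y n f T j * f i := by
  rw [J4Y, if_pos h2]
  have h3 := RR_conj f n j i hf h2 (by omega)
  have h4 := J4_Y0_comm n f T hf hT (i + 1) (by omega) (by omega)
  have h5 : (RR f j)⁻¹ * f i = f (i + 1) * (RR f j)⁻¹ := by
    rw [inv_mul_eq_iff_eq_mul, ← mul_assoc, h3, mul_inv_cancel_right]
  calc f i * (RR f j * (T * (PP f n)⁻¹) * (RR f j)⁻¹)
      = (f i * RR f j) * (T * (PP f n)⁻¹) * (RR f j)⁻¹ := by group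
    _ = RR f j * (f (i + 1) * (T * (PP f n)⁻¹)) * (RR f j)⁻¹ := by rw [← h3]; group
    _ = RR f j * (T * (PP f n)⁻¹) * (f (i + 1) * (RR f j)⁻¹) := by rw [h4]; group
    _ = RR f j * (T * (PP f n)⁻¹) * (RR f j)⁻¹ * f i := by rw [← h5]; group

theorem J4_typeB (n : ℕ) (f : ℕ → H) (T : H) (hf : BSeq f (n + 1))
    (hT : ∀ j, j + 1 < n + 1 → T * f j = f (j + 1) * T)
    (hT2 : T * T * f n = f 0 * (T * T)) (j : ℕ) (hj : j < n + 1) :
    f j * J4Y (n + 1) f T j * f j * J4Y (n + 1) f T j =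
      J4Y (n + 1) f T j * f j * J4Y (n + 1) f T j * f j := by
  induction j with
  | zero => rw [J4_Y_zero]; exact J4_typeB0 n f T hf hT hT2
  | succ j ih =>
    have h0 := ih (by omega)
    have hb := hf.braid j (by omega)
    have h1 := J4_Y_comm1 (n + 1) f T hf hT (j + 1) j le_rfl hj
    rw [J4_Y_succ (n + 1) f T j (by omega)]
    obtain ⟨y, hy⟩ : ∃ y, y = J4Y (n + 1) f T j := ⟨_, rfl⟩
    obtain ⟨a, ha⟩ : ∃ a, a = f j := ⟨_, rfl⟩
    obtain ⟨b, hb'⟩ : ∃ b, b = f (j + 1) := ⟨_, rfl⟩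
    rw [← hy, ← ha] at h0 ⊢
    rw [← hb', ← hy] at h1
    rw [← ha, ← hb'] at hb
    rw [← hb']
    obtain ⟨U, hU⟩ : ∃ U, U = a * b := ⟨_, rfl⟩
    have u1 : U * a * U⁻¹ = b := by rw [hU, hb]; group
    have u2 : U * y * U⁻¹ = a * y * a⁻¹ := by
      rw [hU]
      calc a * b * y * (a * b)⁻¹ = a * (b * y) * b⁻¹ * a⁻¹ := by group
        _ = a * y * a⁻¹ := by rw [h1]; group
    rw [← u2, ← u1]
    calc U * a * U⁻¹ * (U * y * U⁻¹) * (U * a * U⁻¹) * (U * y * U⁻¹)
        = U * (a * y * a * y) * U⁻¹ := by group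
      _ = U * (y * a * y * a) * U⁻¹ := by rw [h0]
      _ = U * y * U⁻¹ * (U * a * U⁻¹) * (U * y * U⁻¹) * (U * a * U⁻¹) := by group

theorem J4_compat (n : ℕ) (f : ℕ → H) (T : H) (hf : BSeq f (n + 1))
    (h0 : ∀ k, n + 1 ≤ k → f k = 1)
    (h1 : ∀ k, k + 1 < n + 1 → f k * f (k + 1) * f k = f (k + 1) * f k * f (k + 1))
    (h2 : ∀ i j, i + 2 ≤ j → f i * f j = f j * f i)
    (hT : ∀ j, j + 1 < n + 1 → T * f j = f (j + 1) * T)
    (hT2 : T * T * f n = f 0 * (T * T)) (g : Br (n + 1)) (x : FreeGroup ℕ) :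
    FreeGroup.lift (J4Y (n + 1) f T) (alpha (n + 1) g x) =
      brLift (n + 1) f h0 h1 h2 g * FreeGroup.lift (J4Y (n + 1) f T) x *
        (brLift (n + 1) f h0 h1 h2 g)⁻¹ := by
  have hg : g ∈ Subgroup.closure (Set.range (PresentedGroup.of (rels := brRels (n + 1)))) := by
    rw [PresentedGroup.closure_range_of]; trivial
  revert x
  induction hg using Subgroup.closure_induction with
  | mem g hg =>
    obtain ⟨k, rfl⟩ := hg
    have key : (FreeGroup.lift (J4Y (n + 1) f T)).comp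
        (alpha (n + 1) (sg (n + 1) k)).toMonoidHom =
        (MulAut.conj (brLift (n + 1) f h0 h1 h2 (sg (n + 1) k))).toMonoidHom.comp
          (FreeGroup.lift (J4Y (n + 1) f T)) := by
      ext i
      rw [brLift_sg, alpha_sg]
      simp only [MonoidHom.comp_apply, MulEquiv.coe_toMonoidHom, FreeGroup.lift_apply_of,
        MulAut.conj_apply]
      by_cases hk : k < n + 1
      · rw [if_pos hk]
        by_cases hi : i = k
        · subst hi
          rw [bact_self, FreeGroup.lift_apply_of, J4_Y_succ _ _ _ _ hk]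
        · by_cases hi2 : i = k + 1
          · subst hi2
            rw [bact_succ, map_mul, map_mul, map_inv, FreeGroup.lift_apply_of,
              FreeGroup.lift_apply_of, J4_Y_succ _ _ _ _ hk]
            have hB := J4_typeB n f T hf hT hT2 k hk
            obtain ⟨y, hy⟩ : ∃ y, y = J4Y (n + 1) f T k := ⟨_, rfl⟩
            obtain ⟨a, ha⟩ : ∃ a, a = f k := ⟨_, rfl⟩
            rw [← hy, ← ha] at hB ⊢
            have e1 : y * a * y = a * y * a * y * a⁻¹ := by rw [hB]; group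
            calc (a * y * a⁻¹)⁻¹ * y * (a * y * a⁻¹) = a * y⁻¹ * a⁻¹ * (y * a * y) * a⁻¹ := by group
              _ = a * (a * y * a⁻¹) * a⁻¹ := by rw [e1]; group
          · rw [bact_ne k i hi hi2, FreeGroup.lift_apply_of]
            by_cases hin : i ≤ n + 1
            · have hc : f k * J4Y (n + 1) f T i = J4Y (n + 1) f T i * f k := by
                rcases Nat.lt_or_gt_of_ne hi with h | h
                · exact J4_Y_comm1 (n + 1) f T hf hT k i h hk
                · exact J4_Y_comm2 (n + 1) f T hf hT k i (by omega) hin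
              rw [hc, mul_inv_cancel_right]
            · rw [J4Y, if_neg hin]
              simp
      · rw [if_neg hk, h0 k (by omega)]
        simp
    intro x
    have := DFunLike.congr_fun key x
    exact this
  | one => intro x; simp
  | mul g h _ _ ihg ihh =>
    intro x
    rw [map_mul, MulAut.mul_apply, ihg, ihh, map_mul]
    group
  | inv g _ ih =>
    intro x
    have h3 := ih (alpha (n + 1) g⁻¹ x)
    have h4 : alpha (n + 1) g (alpha (n + 1) g⁻¹ x) = x := by
      rw [← MulAut.mul_apply, ← map_mul, mul_inv_cancel, map_one, MulAut.one_apply]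
    rw [h4] at h3
    rw [h3, map_inv (brLift (n + 1) f h0 h1 h2), inv_inv, mul_assoc, mul_assoc, mul_assoc,
      inv_mul_cancel, mul_one, inv_mul_cancel_left]

theorem J4_exists (n : ℕ) (f : ℕ → H) (T : H) (hf : BSeq f (n + 1))
    (h0 : ∀ k, n + 1 ≤ k → f k = 1)
    (hT : ∀ j, j + 1 < n + 1 → T * f j = f (j + 1) * T)
    (hT2 : T * T * f n = f 0 * (T * T)) :
    ∃ K : Gam (n + 1) →* H, (∀ k, K (ss (n + 1) k) = f k) ∧ K (tauG (n + 1)) = T := by
  have h2 : ∀ i j, i + 2 ≤ j → f i * f j = f j * f i := by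
    intro i j hij
    by_cases hj : j < n + 1
    · exact hf.comm i j hij hj
    · rw [h0 j (by omega), mul_one, one_mul]
  have hcomp := J4_compat n f T hf h0 hf.braid h2 hT hT2
  refine ⟨SemidirectProduct.lift (FreeGroup.lift (J4Y (n + 1) f T))
    (brLift (n + 1) f h0 hf.braid h2) (fun g => ?_), ?_, ?_⟩
  · ext x
    have := hcomp g (of x)
    exact this
  · intro k
    rw [ss, SemidirectProduct.lift_inr, brLift_sg]
  · rw [tauG, map_mul, yy, SemidirectProduct.lift_inl, FreeGroup.lift_apply_of, J4_Y_zero, cG,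
      J4_PP_map]
    have : (fun i => (SemidirectProduct.lift (FreeGroup.lift (J4Y (n + 1) f T))
        (brLift (n + 1) f h0 hf.braid h2) (fun g => by
          ext x
          have := hcomp g (of x)
          exact this)) (ss (n + 1) i)) = f := by
      funext i
      rw [ss, SemidirectProduct.lift_inr, brLift_sg]
    rw [this, inv_mul_cancel_right]

end abstr

/-- rotation as an automorphism -/
def J4R (M : ℕ) : MulAut (cyc M).G :=
  MonoidHom.toMulEquiv (rotH M 1).map (rotH M (-1)).map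
    (by
      apply PresentedGroup.ext
      intro k
      show (rotH M (-1)).map ((rotH M 1).map ((cyc M).x k)) = (cyc M).x k
      rw [ArcHom.map_x, ArcHom.map_x]
      show (cyc M).x (k + 1 + -1) = (cyc M).x k
      rw [add_neg_cancel_right])
    (by
      apply PresentedGroup.ext
      intro k
      show (rotH M 1).map ((rotH M (-1)).map ((cyc M).x k)) = (cyc M).x k
      rw [ArcHom.map_x, ArcHom.map_x]
      show (cyc M).x (k + -1 + 1) = (cyc M).x k
      rw [neg_add_cancel_right])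

theorem J4R_x (M : ℕ) (k : Fin (M + 3)) : J4R M ((cyc M).x k) = (cyc M).x (k + 1) := by
  show (rotH M 1).map ((cyc M).x k) = (cyc M).x (k + 1)
  rw [ArcHom.map_x]
  rfl

/-- the big group -/
abbrev J4H (M : ℕ) : Type := (cyc M).G ⋊[zpowersHom (MulAut (cyc M).G) (J4R M)] Multiplicative ℤ

/-- the images of the `s_k` -/
def J4f (M : ℕ) (k : ℕ) : J4H M :=
  if h : k < M + 2 then SemidirectProduct.inl ((cyc M).x ⟨k, by omega⟩) else 1

/-- the image of `tau` -/
def J4T (M : ℕ) : J4H M := SemidirectProduct.inr (Multiplicative.ofAdd 1)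

theorem J4T_conj (M : ℕ) (g : (cyc M).G) :
    J4T M * SemidirectProduct.inl g = SemidirectProduct.inl (J4R M g) * J4T M := by
  have h := SemidirectProduct.inl_aut (φ := zpowersHom (MulAut (cyc M).G) (J4R M))
    (Multiplicative.ofAdd (1 : ℤ)) g
  have h1 : (zpowersHom (MulAut (cyc M).G) (J4R M)) (Multiplicative.ofAdd (1 : ℤ)) = J4R M := by
    simp
  rw [h1] at h
  have h2 : (SemidirectProduct.inr (Multiplicative.ofAdd (1 : ℤ))⁻¹ : J4H M) =
      (SemidirectProduct.inr (Multiplicative.ofAdd (1 : ℤ)))⁻¹ :=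
    map_inv (SemidirectProduct.inr (φ := zpowersHom (MulAut (cyc M).G) (J4R M)))
      (Multiplicative.ofAdd (1 : ℤ))
  rw [h, J4T, h2, inv_mul_cancel_right]

theorem J4_x_succ (M k : ℕ) (h : k + 1 < M + 3) :
    (⟨k, by omega⟩ : Fin (M + 3)) + 1 = ⟨k + 1, h⟩ := by
  apply Fin.ext
  rw [Fin.val_add_one_of_lt]
  rw [Fin.lt_def]
  simp
  omega

theorem jj_injective (M : ℕ) : Function.Injective (jj M) := by
  have hbseq : BSeq (J4f M) (M + 1 + 1) := by
    constructor
    · intro k hk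
      rw [J4f, J4f, dif_pos (by omega), dif_pos (by omega)]
      simp only [← map_mul]
      rw [x_braid (cyc M)]
      constructor
      · show (⟨k, _⟩ : Fin (M + 3)) + 1 = ⟨k + 1, _⟩
        exact J4_x_succ M k (by omega)
      · show (⟨k, _⟩ : Fin (M + 3)) ≠ ⟨k + 1, _⟩ + 1
        rw [J4_x_succ M (k + 1) (by omega)]
        intro h
        have h' : k = k + 1 + 1 := congrArg Fin.val h
        omega
    · intro i j hij hj
      rw [J4f, J4f, dif_pos (by omega), dif_pos (by omega)]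
      simp only [← map_mul]
      rw [x_comm (cyc M)]
      refine ⟨?_, ?_, ?_, ?_⟩
      · show (⟨i, _⟩ : Fin (M + 3)) ≠ ⟨j, _⟩
        intro h
        have := congrArg Fin.val h
        simp at this
        omega
      · show (⟨i, _⟩ : Fin (M + 3)) ≠ ⟨j, _⟩ + 1
        rw [J4_x_succ M j (by omega)]
        intro h
        have := congrArg Fin.val h
        simp at this
        omega
      · show (⟨i, _⟩ : Fin (M + 3)) + 1 ≠ ⟨j, _⟩
        rw [J4_x_succ M i (by omega)]
        intro h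
        have := congrArg Fin.val h
        simp at this
        omega
      · show (⟨i, _⟩ : Fin (M + 3)) + 1 ≠ ⟨j, _⟩ + 1
        rw [J4_x_succ M i (by omega), J4_x_succ M j (by omega)]
        intro h
        have := congrArg Fin.val h
        simp at this
        omega
  have hT : ∀ j, j + 1 < M + 1 + 1 → J4T M * J4f M j = J4f M (j + 1) * J4T M := by
    intro j hj
    rw [J4f, J4f, dif_pos (by omega), dif_pos (by omega), J4T_conj, J4R_x, J4_x_succ M j (by omega)]
  have hT2 : J4T M * J4T M * J4f M (M + 1) = J4f M 0 * (J4T M * J4T M) := by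
    rw [J4f, J4f, dif_pos (by omega), dif_pos (by omega), mul_assoc, J4T_conj, J4R_x,
      J4_x_succ M (M + 1) (by omega), ← mul_assoc, J4T_conj, J4R_x, mul_assoc]
    have : (⟨M + 1 + 1, by omega⟩ : Fin (M + 3)) + 1 = ⟨0, by omega⟩ := by
      have h := Fin.last_add_one (M + 2)
      exact h
    rw [this]
  obtain ⟨K, hK1, hK2⟩ := J4_exists (M + 1) (J4f M) (J4T M) hbseq
    (fun k hk => by rw [J4f, dif_neg (by omega)]) hT hT2
  have hcomp : K.comp (jj M) = SemidirectProduct.inl := by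
    apply PresentedGroup.ext
    intro k
    show K (jj M ((cyc M).x k)) = SemidirectProduct.inl ((cyc M).x k)
    rw [jj_x, jjf]
    split_ifs with h
    · have hk1 : K (ss (M + 2) (M + 1)) = J4f M (M + 1) := hK1 (M + 1)
      have hk2 : K (tauG (M + 2)) = J4T M := hK2
      rw [map_mul, map_mul, map_inv, hk1, hk2, J4f, dif_pos (by omega), J4T_conj, J4R_x,
        J4_x_succ M (M + 1) (by omega), mul_inv_cancel_right]
      congr 2
      apply Fin.ext
      exact h.symm
    · have hk1 : K (ss (M + 2) k) = J4f M k := hK1 k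
      have := k.2
      rw [hk1, J4f, dif_pos (by omega)]
  intro a b hab
  have h1 : K (jj M a) = K (jj M b) := by rw [hab]
  have h2 : (SemidirectProduct.inl a : J4H M) = SemidirectProduct.inl b := by
    rw [← hcomp]
    exact h1
  exact SemidirectProduct.inl_injective h2

end Pool.Agent.VB

end Row_J4

section Row_J5

/-!
ROW J5: reversal.  `revG n : Gam n → Gam n`, s_i -> s_(n-1-i)^-1 (i < n), y_i -> omega y_(n-i)^-1 omega^-1 (i ≤ n), y_i -> y_i^-1 (i > n),
omega = inl (om (n+1)).  (SemidirectProduct.lift; compatibility: with i' = n-1-i: s_(i')^-1 acts by y_(i'+1) -> y_i', y_i' -> y_i' y_(i'+1) y_i'^-1; omega commutes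
with all s.)  revG (tau) = tau^-1: omega y_n^-1 omega^-1 c^-1 = c^-1 y_0^-1 because alpha(c)(y_n) = omega^-1 y_0 omega (c fixes omega = y_0 (y_1...y_n), c y_j = y_(j+1)).
State existence: a homomorphism with these values.
-/

namespace Pool.Agent.VB

open FreeGroup (of)

private theorem J5_om_succ (n r : ℕ) : (SemidirectProduct.inl (om (r + 1)) : Gam n) = SemidirectProduct.inl (om r) * yy n r := by
  unfold om yy
  rw [← map_mul]
  rfl

private theorem J5_s_self (n k : ℕ) (h : k < n) : ss n k * yy n k * (ss n k)⁻¹ = yy n (k + 1) := by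
  rw [ss_yy n k k h, bact_self]
  rfl

private theorem J5_s_succ (n k : ℕ) (h : k < n) : ss n k * yy n (k + 1) * (ss n k)⁻¹ = (yy n (k + 1))⁻¹ * yy n k * yy n (k + 1) := by
  rw [ss_yy n k (k + 1) h, bact_succ]
  simp only [map_mul, map_inv]
  rfl

private theorem J5_s_ne (n k j : ℕ) (h : k < n) (h1 : j ≠ k) (h2 : j ≠ k + 1) : ss n k * yy n j * (ss n k)⁻¹ = yy n j := by
  rw [ss_yy n k j h, bact_ne k j h1 h2]
  rfl

/-- images of the free generators -/
private def J5_f1 (n : ℕ) : FreeGroup ℕ →* Gam n :=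
  FreeGroup.lift fun i => if i ≤ n then SemidirectProduct.inl (om (n + 1)) * (yy n (n - i))⁻¹ *
      (SemidirectProduct.inl (om (n + 1)))⁻¹ else (yy n i)⁻¹

private theorem J5_f1_le (n i : ℕ) (h : i ≤ n) : J5_f1 n (of i) = SemidirectProduct.inl (om (n + 1)) * (yy n (n - i))⁻¹ *
      (SemidirectProduct.inl (om (n + 1)))⁻¹ := by
  rw [J5_f1, FreeGroup.lift_apply_of, if_pos h]

private theorem J5_f1_gt (n i : ℕ) (h : n < i) : J5_f1 n (of i) = (yy n i)⁻¹ := by
  rw [J5_f1, FreeGroup.lift_apply_of, if_neg (by omega)]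

private theorem J5_br (n k : ℕ) (h : k + 1 < n) :
    (if k < n then (ss n (n - 1 - k))⁻¹ else 1) * (if k + 1 < n then (ss n (n - 1 - (k + 1)))⁻¹ else 1) *
      (if k < n then (ss n (n - 1 - k))⁻¹ else 1) =
    (if k + 1 < n then (ss n (n - 1 - (k + 1)))⁻¹ else 1) * (if k < n then (ss n (n - 1 - k))⁻¹ else 1) *
      (if k + 1 < n then (ss n (n - 1 - (k + 1)))⁻¹ else 1) := by
  obtain ⟨a, ha⟩ : ∃ a, n - 1 - (k + 1) = a := ⟨_, rfl⟩
  have ha' : n - 1 - k = a + 1 := by omega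
  rw [if_pos (by omega : k < n), if_pos h, ha, ha']
  have := (bseq_ss n).braid a (by omega)
  calc (ss n (a + 1))⁻¹ * (ss n a)⁻¹ * (ss n (a + 1))⁻¹ = (ss n (a + 1) * ss n a * ss n (a + 1))⁻¹ := by group
    _ = (ss n a * ss n (a + 1) * ss n a)⁻¹ := by rw [this]
    _ = _ := by group

private theorem J5_cm (n i j : ℕ) (h : i + 2 ≤ j) :
    (if i < n then (ss n (n - 1 - i))⁻¹ else 1) * (if j < n then (ss n (n - 1 - j))⁻¹ else 1) =
    (if j < n then (ss n (n - 1 - j))⁻¹ else 1) * (if i < n then (ss n (n - 1 - i))⁻¹ else 1) := by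
  by_cases hj : j < n
  · rw [if_pos (by omega : i < n), if_pos hj]
    have := (bseq_ss n).comm (n - 1 - j) (n - 1 - i) (by omega) (by omega)
    rw [← mul_inv_rev, ← mul_inv_rev, this]
  · rw [if_neg hj, mul_one, one_mul]

/-- images of the braid generators -/
private def J5_f2 (n : ℕ) : Br n →* Gam n :=
  brLift n (fun k => if k < n then (ss n (n - 1 - k))⁻¹ else 1) (fun k h => by rw [if_neg (by omega)])
    (J5_br n) (J5_cm n)

private theorem J5_f2_lt (n k : ℕ) (h : k < n) : J5_f2 n (sg n k) = (ss n (n - 1 - k))⁻¹ := by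
  rw [J5_f2, brLift_sg, if_pos h]

private theorem J5_om_comm (n k : ℕ) (h : k < n) : ss n k * SemidirectProduct.inl (om (n + 1)) = (SemidirectProduct.inl (om (n + 1)) : Gam n) * ss n k :=
  ss_om n k (n + 1) h (by omega)

private theorem J5_gen (n k : ℕ) (h : k < n) (j : ℕ) :
    J5_f1 n (bact k (of j)) = (ss n (n - 1 - k))⁻¹ * J5_f1 n (of j) * ss n (n - 1 - k) := by
  obtain ⟨a, ha⟩ : ∃ a, n - 1 - k = a := ⟨_, rfl⟩
  have ha' : n - k = a + 1 := by omega
  have han : a < n := by omega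
  have hom := J5_om_comm n a han
  obtain ⟨W, hW⟩ : ∃ W : Gam n, W = SemidirectProduct.inl (om (n + 1)) := ⟨_, rfl⟩
  have hc1 := J5_s_self n a han
  have hc2 := J5_s_succ n a han
  rw [← hW] at hom
  -- move the conjugation inside
  have key : ∀ y : Gam n, (ss n a)⁻¹ * (W * y * W⁻¹) * ss n a = W * ((ss n a)⁻¹ * y * ss n a) * W⁻¹ := by
    intro y
    have e1 : (ss n a)⁻¹ * W = W * (ss n a)⁻¹ := by
      rw [inv_mul_eq_iff_eq_mul, ← mul_assoc, hom, mul_assoc, mul_inv_cancel, mul_one]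
    have e2 : W⁻¹ * ss n a = ss n a * W⁻¹ := by
      rw [inv_mul_eq_iff_eq_mul, ← mul_assoc, ← hom, mul_assoc, mul_inv_cancel, mul_one]
    calc (ss n a)⁻¹ * (W * y * W⁻¹) * ss n a = ((ss n a)⁻¹ * W) * y * (W⁻¹ * ss n a) := by group
      _ = _ := by rw [e1, e2]; group
  have c1 : (ss n a)⁻¹ * yy n (a + 1) * ss n a = yy n a := by
    rw [← hc1]
    group
  have c2 : (ss n a)⁻¹ * yy n a * ss n a = yy n a * yy n (a + 1) * (yy n a)⁻¹ := by
    have e : yy n a = yy n (a + 1) * (ss n a * yy n (a + 1) * (ss n a)⁻¹) * (yy n (a + 1))⁻¹ := by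
      rw [hc2]
      group
    calc (ss n a)⁻¹ * yy n a * ss n a
        = ((ss n a)⁻¹ * yy n (a + 1) * ss n a) * yy n (a + 1) * ((ss n a)⁻¹ * yy n (a + 1) * ss n a)⁻¹ := by
          conv_lhs => rw [e]
          group
      _ = _ := by rw [c1]
  rw [ha]
  by_cases h1 : j = k
  · subst h1
    rw [bact_self, J5_f1_le n (j + 1) (by omega), J5_f1_le n j (by omega), ← hW, key, ha', show n - (j + 1) = a by omega]
    congr 2
    rw [← c1]
    group
  · by_cases h2 : j = k + 1
    · subst h2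
      rw [bact_succ, map_mul, map_mul, map_inv, J5_f1_le n (k + 1) (by omega), J5_f1_le n k (by omega), ← hW, key, ha',
        show n - (k + 1) = a by omega]
      have e3 : (ss n a)⁻¹ * (yy n a)⁻¹ * ss n a = (yy n a * yy n (a + 1) * (yy n a)⁻¹)⁻¹ := by
        rw [← c2]
        group
      rw [e3]
      group
    · rw [bact_ne k j h1 h2]
      by_cases h3 : j ≤ n
      · rw [J5_f1_le n j h3, ← hW, key]
        have e4 := J5_s_ne n a (n - j) han (by omega) (by omega)
        congr 2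
        conv_lhs => rw [← e4]
        have e5 : (ss n a)⁻¹ * yy n (n - j) * ss n a = yy n (n - j) := by
          conv_lhs => rw [← e4]
          group
        have e6 : (ss n a)⁻¹ * (yy n (n - j))⁻¹ * ss n a = ((ss n a)⁻¹ * yy n (n - j) * ss n a)⁻¹ := by group
        rw [e6, e5, e4]
      · rw [J5_f1_gt n j (by omega)]
        have e4 := J5_s_ne n a j han (by omega) (by omega)
        have e5 : (ss n a)⁻¹ * yy n j * ss n a = yy n j := by
          conv_lhs => rw [← e4]
          group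
        have e6 : (ss n a)⁻¹ * (yy n j)⁻¹ * ss n a = ((ss n a)⁻¹ * yy n j * ss n a)⁻¹ := by group
        rw [e6, e5]

private theorem J5_all (n : ℕ) (g : Br n) : ∀ x : FreeGroup ℕ,
    J5_f1 n (alpha n g x) = J5_f2 n g * J5_f1 n x * (J5_f2 n g)⁻¹ := by
  have hg : g ∈ Subgroup.closure (Set.range (PresentedGroup.of : ℕ → Br n)) := by
    rw [PresentedGroup.closure_range_of]
    trivial
  induction hg using Subgroup.closure_induction with
  | mem g hg =>
    obtain ⟨k, rfl⟩ := hg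
    change ∀ x : FreeGroup ℕ, J5_f1 n (alpha n (sg n k) x) = J5_f2 n (sg n k) * J5_f1 n x * (J5_f2 n (sg n k))⁻¹
    by_cases hk : k < n
    · rw [alpha_sg, if_pos hk, J5_f2_lt n k hk]
      intro x
      have : (J5_f1 n).comp (bact k).toMonoidHom = (MulAut.conj (ss n (n - 1 - k))⁻¹).toMonoidHom.comp (J5_f1 n) := by
        refine FreeGroup.ext_hom _ _ fun j => ?_
        simpa using J5_gen n k hk j
      have h2 := DFunLike.congr_fun this x
      simpa using h2
    · intro x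
      rw [sg_eq_one n k (by omega)]
      simp
  | one => intro x; simp
  | mul g h _ _ ihg ihh =>
    intro x
    rw [map_mul, MulAut.mul_apply, ihg, ihh, map_mul]
    group
  | inv g _ ih =>
    intro x
    have h1 := ih (alpha n g⁻¹ x)
    rw [← MulAut.mul_apply, ← map_mul, mul_inv_cancel, map_one, MulAut.one_apply] at h1
    rw [h1, map_inv (J5_f2 n)]
    group

/-- the reversal -/
private def J5_phi (n : ℕ) : Gam n →* Gam n :=
  SemidirectProduct.lift (J5_f1 n) (J5_f2 n) fun g => by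
    refine FreeGroup.ext_hom _ _ fun x => ?_
    simpa using J5_all n g (of x)

private theorem J5_phi_yy (n i : ℕ) : J5_phi n (yy n i) = J5_f1 n (of i) := by
  rw [J5_phi, yy, SemidirectProduct.lift_inl]

private theorem J5_phi_ss (n i : ℕ) (h : i < n) : J5_phi n (ss n i) = (ss n (n - 1 - i))⁻¹ := by
  rw [J5_phi, ss, SemidirectProduct.lift_inr, J5_f2_lt n i h]

private theorem J5_c (n k : ℕ) (h : k ≤ n) : cG n * J5_phi n (PP (ss n) k) = PP (ss n) (n - k) := by
  induction k with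
  | zero =>
    rw [PP, map_one, mul_one]
    rfl
  | succ k ih =>
    rw [PP, map_mul, ← mul_assoc, ih (by omega), J5_phi_ss n k (by omega), show n - k = (n - (k + 1)) + 1 by omega, PP,
      show n - 1 - k = n - (k + 1) by omega, mul_assoc, mul_inv_cancel, mul_one]

private theorem J5_phi_c (n : ℕ) : J5_phi n (cG n) = (cG n)⁻¹ := by
  have h := J5_c n n le_rfl
  rw [Nat.sub_self] at h
  exact (inv_eq_of_mul_eq_one_right h).symm

private theorem J5_W (n r : ℕ) (h : r ≤ n) : cG n * SemidirectProduct.inl (om r) * (cG n)⁻¹ =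
    (yy n 0)⁻¹ * (SemidirectProduct.inl (om (r + 1)) : Gam n) := by
  induction r with
  | zero =>
    rw [J5_om_succ n 0]
    have : (SemidirectProduct.inl (om 0) : Gam n) = 1 := by
      unfold om
      rw [PP, map_one]
    rw [this]
    group
  | succ r ih =>
    have h1 := ih (by omega)
    have h2 := c_conj_y n r (by omega)
    rw [J5_om_succ n (r + 1), ← mul_assoc, ← h1, ← h2, J5_om_succ n r]
    group

theorem revG_exists (n : ℕ) (hn : 1 ≤ n) : ∃ φ : Gam n →* Gam n,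
    (∀ i, i < n → φ (ss n i) = (ss n (n - 1 - i))⁻¹) ∧
    (∀ i, i ≤ n → φ (yy n i) = SemidirectProduct.inl (om (n + 1)) * (yy n (n - i))⁻¹ *
      (SemidirectProduct.inl (om (n + 1)))⁻¹) ∧
    (∀ i, n < i → φ (yy n i) = (yy n i)⁻¹) ∧
    φ (tauG n) = (tauG n)⁻¹ := by
  refine ⟨J5_phi n, fun i h => J5_phi_ss n i h, fun i h => ?_, fun i h => ?_, ?_⟩
  · rw [J5_phi_yy, J5_f1_le n i h]
  · rw [J5_phi_yy, J5_f1_gt n i h]
  · unfold tauG
    rw [map_mul, J5_phi_c, J5_phi_yy, J5_f1_le n 0 (Nat.zero_le n), Nat.sub_zero]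
    have h1 := J5_W n n le_rfl
    have h2 := c_om n
    have h3 := J5_om_succ n n
    obtain ⟨W, hW⟩ : ∃ W : Gam n, W = SemidirectProduct.inl (om (n + 1)) := ⟨_, rfl⟩
    obtain ⟨V, hV⟩ : ∃ V : Gam n, V = SemidirectProduct.inl (om n) := ⟨_, rfl⟩
    obtain ⟨c, hcd⟩ : ∃ c : Gam n, c = cG n := ⟨_, rfl⟩
    rw [← hW, ← hV, ← hcd] at h1
    rw [← hW, ← hcd] at h2
    rw [← hW, ← hV] at h3
    rw [← hW, ← hcd]
    -- c y_n c⁻¹ = W⁻¹ y_0 W
    have h4 : c * yy n n * c⁻¹ = W⁻¹ * yy n 0 * W := by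
      have h5 : W = (c * V * c⁻¹) * (c * yy n n * c⁻¹) := by
        calc W = c * W * c⁻¹ := by rw [h2]; group
          _ = _ := by rw [h3]; group
      rw [h1] at h5
      calc c * yy n n * c⁻¹ = ((yy n 0)⁻¹ * W)⁻¹ * (((yy n 0)⁻¹ * W) * (c * yy n n * c⁻¹)) := by group
        _ = ((yy n 0)⁻¹ * W)⁻¹ * W := by rw [← h5]
        _ = _ := by group
    have h6 : W * (c * yy n n * c⁻¹) * W⁻¹ = yy n 0 := by
      rw [h4]
      group
    have h7 : c * (W * yy n n * W⁻¹) * c⁻¹ = yy n 0 := by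
      have e2 : W⁻¹ * c⁻¹ = c⁻¹ * W⁻¹ := by
        rw [← mul_inv_rev, ← mul_inv_rev, h2]
      calc c * (W * yy n n * W⁻¹) * c⁻¹ = (c * W) * yy n n * (W⁻¹ * c⁻¹) := by group
        _ = _ := by rw [h2, e2, ← h6]; group
    have h8 : c⁻¹ * (yy n 0)⁻¹ * c = W * (yy n n)⁻¹ * W⁻¹ := by
      rw [← h7]
      group
    rw [← h8]
    group

end Pool.Agent.VB

end Row_J5

section Row_J6

/-!
ROW J6: reversal of the cycle.  `flipH M` : morphism from the reversed cycle to the cycle, sites p -> rev p = M+2-p, arcs k -> rev (k+1).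
iotaA = (flipH M).map ∘ theta: x_k -> x_(rev (k+1))^-1; arc M+2 -> M+2, arc k < M+2 -> M+1-k.  Any φ as in J5 (n = M+2) satisfies φ (jj (iotaA g)) = jj g
(generators: k < M+2: φ(s_(M+1-k)^-1) = s_k; k = M+2: φ((tau s_(M+1) tau^-1)^-1) = (tau^-1 s_0^-1 tau)^-1 = tau^-1 s_0 tau = tau s_(M+1) tau^-1 by tau_sq).
-/

namespace Pool.Agent.VB

open FreeGroup (of)

theorem rev_succ_add (M : ℕ) (s : Fin (M + 3)) : Fin.rev (s + 1) + 1 = Fin.rev s := by
  apply Fin.ext
  rw [Fin.val_add_one, Fin.val_rev, Fin.val_rev]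
  by_cases h : s = Fin.last (M + 2)
  · subst h
    have e : (Fin.last (M + 2) + 1 : Fin (M + 3)) = 0 := by simp
    rw [e]
    simp [Fin.ext_iff]
  · have h1 : ((s + 1 : Fin (M + 3)) : ℕ) = (s : ℕ) + 1 := by
      rw [Fin.val_add_one, if_neg h]
    have h2 : (s : ℕ) < M + 2 := by
      have := s.2
      have h3 : (s : ℕ) ≠ M + 2 := fun e => h (Fin.ext e)
      omega
    have h4 : Fin.rev (s + 1) ≠ Fin.last (M + 2) := by
      intro e
      have := congrArg Fin.val e
      rw [Fin.val_rev, h1, Fin.val_last] at this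
      omega
    rw [if_neg h4, h1]
    omega

/-- the flip -/
def flipH (M : ℕ) : ArcHom (cyc M).rev (cyc M) :=
  ⟨fun k => Fin.rev (k + 1), Fin.rev, fun a b h => add_right_cancel (Fin.rev_injective h),
   Fin.rev_injective, fun s => rfl, fun s => by
     show Fin.rev (s + 1) + 1 = Fin.rev s
     exact rev_succ_add M s⟩

/-- reversal on the group of the cycle -/
def iotaA (M : ℕ) : (cyc M).G →* (cyc M).G := (flipH M).map.comp (theta (cyc M))

theorem iotaA_x (M : ℕ) (k : Fin (M + 3)) :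
    iotaA M ((cyc M).x k) = ((cyc M).x (Fin.rev (k + 1)))⁻¹ := by
  show (flipH M).map (theta (cyc M) ((cyc M).x k)) = _
  rw [theta_x, map_inv, ArcHom.map_x]
  rfl

theorem J6_val_add_one (M : ℕ) (k : Fin (M + 3)) :
    ((k + 1 : Fin (M + 3)) : ℕ) = if (k : ℕ) = M + 2 then 0 else (k : ℕ) + 1 := by
  have := Fin.val_add_one (n := M + 2) k
  rw [this]
  by_cases h : (k : ℕ) = M + 2
  · rw [if_pos h, if_pos (Fin.ext (by simpa using h))]
  · rw [if_neg h, if_neg (fun e => h (by rw [e]; simp))]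

theorem rev_jj (M : ℕ) (φ : Gam (M + 2) →* Gam (M + 2))
    (h1 : ∀ i, i < M + 2 → φ (ss (M + 2) i) = (ss (M + 2) (M + 2 - 1 - i))⁻¹)
    (h2 : φ (tauG (M + 2)) = (tauG (M + 2))⁻¹) (g : (cyc M).G) :
    φ (jj M (iotaA M g)) = jj M g := by
  have key : (φ.comp (jj M)).comp (iotaA M) = jj M := by
    apply PresentedGroup.ext
    intro k
    show φ (jj M (iotaA M ((cyc M).x k))) = jj M ((cyc M).x k)
    rw [iotaA_x, map_inv, map_inv, jj_x, jj_x]
    have e := J6_val_add_one M k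
    have er : ((Fin.rev (k + 1) : Fin (M + 3)) : ℕ) = M + 2 - ((k + 1 : Fin (M + 3)) : ℕ) := by
      rw [Fin.val_rev]; omega
    by_cases hk : (k : ℕ) = M + 2
    · rw [if_pos hk] at e
      rw [e] at er
      have er' : ((Fin.rev (k + 1) : Fin (M + 3)) : ℕ) = M + 2 := er
      have t := tau_sq (M + 2) (by omega)
      have hs := h1 (M + 1) (by omega)
      have e0 : M + 2 - 1 - (M + 1) = 0 := by omega
      rw [e0, ← t] at hs
      have e1 : M + 2 - 1 = M + 1 := rfl
      rw [e1] at hs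
      rw [jjf, jjf, if_pos er', if_pos hk, map_mul, map_mul, map_inv, h2, hs]
      group
    · rw [if_neg hk] at e
      rw [e] at er
      have hk' := k.isLt
      have er' : ((Fin.rev (k + 1) : Fin (M + 3)) : ℕ) ≠ M + 2 := by omega
      rw [jjf, jjf, if_neg er', if_neg hk, er, h1 _ (by omega)]
      have e2 : M + 2 - 1 - (M + 2 - ((k : ℕ) + 1)) = (k : ℕ) := by omega
      rw [e2, inv_inv]
  exact DFunLike.congr_fun key g

end Pool.Agent.VB

end Row_J6
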