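import Pool.Agent.Lib.MP_7c21d5_al.VB01_Modules
import Pool.Agent.Lib.MP_7c21d5_al.VB02_Braids
import Pool.Agent.Lib.MP_7c21d5_al.VB05_Split
import Pool.Agent.Lib.MP_7c21d5_al.VB06_Cycle

set_option autoImplicit false

section Row_E1

/-!
ROW E1: explicit partial products (paper 7').  Over any commutative ring, w = [0,0,1,...,k] :
actW gives the function tauF q t k F below.  Induction on k (List.range' 1 (k+1) = List.range' 1 k ++ [k+1]); k = 0: apply actS0 twice.
Step: actV q t 1 1 k (k+1) of tauF k = tauF (k+1): cases on p, r relative to k, k+1; ring.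
-/

namespace Pool.Agent.VB

open FreeGroup (of)

section
variable {R : Type} [CommRing R]

/-- closed form of `F . sigma_0^2 sigma_1 ... sigma_k` -/
def tauF (q t : R) (k : ℕ) (F : Sym2 ℕ → R) (z : Sym2 ℕ) : R :=
  Sym2.lift ⟨fun x y =>
    if max x y < k then q ^ 2 * F s(min x y + 1, max x y + 1)
    else if max x y = k then
      (if min x y < k then t * q ^ 3 * F s(0, min x y + 1) else t ^ 2 * q ^ 4 * F s(0, 0))
    else if min x y < k then q * F s(min x y + 1, max x y) - t * q ^ 2 * (1 - q) * F s(0, min x y + 1)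
    else if min x y = k then q ^ 2 * F s(0, max x y) - t * q ^ 3 * (1 - t * q) * F s(0, 0)
    else F s(min x y, max x y) - q * (1 - q) * (t * F s(0, min x y) + F s(0, max x y))
      + t * q ^ 2 * (1 - q) * (1 - t * q) * F s(0, 0),
    fun x y => by simp only [max_comm x y, min_comm x y]⟩ z

private theorem e1_le (q t : R) (k : ℕ) (F : Sym2 ℕ → R) (x y : ℕ) (h : x ≤ y) :
    tauF q t k F s(x, y) =
      if y < k then q ^ 2 * F s(x + 1, y + 1)
      else if y = k then
        (if x < k then t * q ^ 3 * F s(0, x + 1) else t ^ 2 * q ^ 4 * F s(0, 0))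
      else if x < k then q * F s(x + 1, y) - t * q ^ 2 * (1 - q) * F s(0, x + 1)
      else if x = k then q ^ 2 * F s(0, y) - t * q ^ 3 * (1 - t * q) * F s(0, 0)
      else F s(x, y) - q * (1 - q) * (t * F s(0, x) + F s(0, y))
        + t * q ^ 2 * (1 - q) * (1 - t * q) * F s(0, 0) := by
  simp only [tauF, Sym2.lift_mk, max_eq_right h, min_eq_left h]

private theorem e1_a (q t : R) (k : ℕ) (F : Sym2 ℕ → R) (x y : ℕ) (h : x ≤ y) (hy : y < k) :
    tauF q t k F s(x, y) = q ^ 2 * F s(x + 1, y + 1) := by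
  rw [e1_le q t k F x y h, if_pos hy]

private theorem e1_b (q t : R) (k : ℕ) (F : Sym2 ℕ → R) (x : ℕ) (h : x < k) :
    tauF q t k F s(x, k) = t * q ^ 3 * F s(0, x + 1) := by
  rw [e1_le q t k F x k h.le, if_neg (lt_irrefl k), if_pos rfl, if_pos h]

private theorem e1_c (q t : R) (k : ℕ) (F : Sym2 ℕ → R) :
    tauF q t k F s(k, k) = t ^ 2 * q ^ 4 * F s(0, 0) := by
  rw [e1_le q t k F k k le_rfl, if_neg (lt_irrefl k), if_pos rfl, if_neg (lt_irrefl k)]

private theorem e1_d (q t : R) (k : ℕ) (F : Sym2 ℕ → R) (x y : ℕ) (h : x < k) (hy : k < y) :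
    tauF q t k F s(x, y) = q * F s(x + 1, y) - t * q ^ 2 * (1 - q) * F s(0, x + 1) := by
  rw [e1_le q t k F x y (by omega), if_neg (by omega), if_neg (by omega), if_pos h]

private theorem e1_e (q t : R) (k : ℕ) (F : Sym2 ℕ → R) (y : ℕ) (hy : k < y) :
    tauF q t k F s(k, y) = q ^ 2 * F s(0, y) - t * q ^ 3 * (1 - t * q) * F s(0, 0) := by
  rw [e1_le q t k F k y (by omega), if_neg (by omega), if_neg (by omega),
    if_neg (lt_irrefl k), if_pos rfl]

private theorem e1_f (q t : R) (k : ℕ) (F : Sym2 ℕ → R) (x y : ℕ) (hx : k < x) (hy : x ≤ y) :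
    tauF q t k F s(x, y) = F s(x, y) - q * (1 - q) * (t * F s(0, x) + F s(0, y))
        + t * q ^ 2 * (1 - q) * (1 - t * q) * F s(0, 0) := by
  rw [e1_le q t k F x y hy, if_neg (by omega), if_neg (by omega), if_neg (by omega),
    if_neg (by omega)]

private theorem e1_base (q t : R) (F : Sym2 ℕ → R) (x y : ℕ) (h : x ≤ y) :
    actS0 q t (actS0 q t F) s(x, y) = tauF q t 0 F s(x, y) := by
  rcases Nat.eq_zero_or_pos x with rfl | hx
  · rcases Nat.eq_zero_or_pos y with rfl | hy
    · rw [actS0_00, actS0_00, e1_c]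
      ring
    · rw [actS0_0j _ _ _ y (by omega), actS0_00, actS0_0j _ _ _ y (by omega),
        e1_e q t 0 F y hy]
      ring
  · rw [actS0_ij _ _ _ x y (by omega) h, actS0_ij _ _ _ x y (by omega) h,
      actS0_0j _ _ _ x (by omega), actS0_0j _ _ _ y (by omega), actS0_00,
      e1_f q t 0 F x y hx h]
    ring

private theorem e1_step (q t : R) (k : ℕ) (F : Sym2 ℕ → R) (x y : ℕ) (h : x ≤ y) :
    actV q t 1 1 k (k + 1) (tauF q t k F) s(x, y) = tauF q t (k + 1) F s(x, y) := by
  have hk : k ≠ k + 1 := by omega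
  rcases lt_trichotomy y k with hy | rfl | hy
  · rw [actV_kl _ _ _ _ _ _ _ x y (by omega) (by omega) (by omega) (by omega),
      e1_a q t k F x y h hy, e1_a q t (k + 1) F x y h (by omega)]
  · rcases Nat.lt_or_ge x y with hx | hx
    · rw [(Sym2.eq_swap : s(x, y) = s(y, x)), actV_ik _ _ _ _ _ _ _ x (by omega) (by omega),
        (Sym2.eq_swap : s(y, x) = s(x, y)), (Sym2.eq_swap : s(y + 1, x) = s(x, y + 1)),
        e1_b q t y F x hx, e1_d q t y F x (y + 1) hx (by omega),
        e1_a q t (y + 1) F x y h (by omega)]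
      ring
    · obtain rfl : x = y := by omega
      rw [actV_ii, e1_c, e1_e q t x F (x + 1) (by omega),
        e1_f q t x F (x + 1) (x + 1) (by omega) le_rfl,
        e1_a q t (x + 1) F x x le_rfl (by omega)]
      ring
  · rcases Nat.lt_or_ge (k + 1) y with hy2 | hy2
    · rcases lt_trichotomy x k with hx | rfl | hx
      · rw [actV_kl _ _ _ _ _ _ _ x y (by omega) (by omega) (by omega) (by omega),
          e1_d q t k F x y hx hy, e1_d q t (k + 1) F x y (by omega) hy2]
      · rw [actV_ik _ _ _ _ _ _ _ y (by omega) (by omega), e1_e q t x F y hy,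
          e1_f q t x F (x + 1) y (by omega) (by omega), e1_d q t (x + 1) F x y (by omega) hy2]
        ring
      · rcases Nat.lt_or_ge (k + 1) x with hx2 | hx2
        · rw [actV_kl _ _ _ _ _ _ _ x y (by omega) (by omega) (by omega) (by omega),
            e1_f q t k F x y hx h, e1_f q t (k + 1) F x y hx2 h]
        · obtain rfl : x = k + 1 := by omega
          rw [actV_jk _ _ _ _ _ _ _ hk y (by omega) (by omega), e1_e q t k F y hy,
            e1_e q t (k + 1) F y hy2]
          ring
    · obtain rfl : y = k + 1 := by omega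
      rcases lt_trichotomy x k with hx | rfl | hx
      · rw [(Sym2.eq_swap : s(x, k + 1) = s(k + 1, x)),
          actV_jk _ _ _ _ _ _ _ hk x (by omega) (by omega),
          (Sym2.eq_swap : s(k, x) = s(x, k)), (Sym2.eq_swap : s(k + 1, x) = s(x, k + 1)),
          e1_b q t k F x hx, e1_b q t (k + 1) F x (by omega)]
        ring
      · rw [actV_ij _ _ _ _ _ _ _ hk, e1_c, e1_e q t x F (x + 1) (by omega),
          e1_b q t (x + 1) F x (by omega)]
        ring
      · obtain rfl : x = k + 1 := by omega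
        rw [actV_jj _ _ _ _ _ _ _ hk, e1_c, e1_c]
        ring

theorem actW_tau (q t : R) (k : ℕ) (F : Sym2 ℕ → R) :
    actW q t (0 :: 0 :: List.range' 1 k) F = tauF q t k F := by
  induction k with
  | zero =>
    funext z
    induction z using Sym2.ind with
    | _ x y =>
      show actS0 q t (actS0 q t F) s(x, y) = _
      rcases le_total x y with h | h
      · exact e1_base q t F x y h
      · rw [Sym2.eq_swap]
        exact e1_base q t F y x h
  | succ k ih =>
    have e : (0 :: 0 :: List.range' 1 (k + 1) : List ℕ) =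
        (0 :: 0 :: List.range' 1 k) ++ [k + 1] := by
      rw [List.range'_concat]
      simp [Nat.add_comm]
    rw [e, actW_append, ih]
    show actV q t 1 1 k (k + 1) (tauF q t k F) = _
    funext z
    induction z using Sym2.ind with
    | _ x y =>
      rcases le_total x y with h | h
      · exact e1_step q t k F x y h
      · rw [Sym2.eq_swap]
        exact e1_step q t k F y x h
end

end Pool.Agent.VB

end Row_E1

section Row_E2

/-!
ROW E2: words and the action of `Br m`; restriction to the sites < M+3; tau acts as q^2 * rotation.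
mword m w = product of the generators.  rac (brV m) F (mword m w) = actW qK tK w F if all letters < m.
rotF F = F rotated, factor u = tq for each wrap.  resF (F . tau~) = q^2 rotF (resF F), tau~ = mword [0,0,1,...,M+2] in Br (M+3) (E1 with k = M+2, sites ≤ M+2:
only the first lines of tauF are used).
-/

namespace Pool.Agent.VB

open FreeGroup (of)

/-- the element of a word -/
def mword (m : ℕ) (w : List ℕ) : Br m := (w.map (sg m)).prod

theorem rac_mword (m : ℕ) (w : List ℕ) (hw : ∀ k ∈ w, k < m) (F : Sym2 ℕ → KK) :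
    rac (brV m) F (mword m w) = actW qK tK w F := by
  induction w generalizing F with
  | nil =>
    show rac (brV m) F 1 = F
    exact rac_one _ _
  | cons k w ih =>
    have e : mword m (k :: w) = sg m k * mword m w := by simp [mword]
    rw [e, rac_mul, brV_sg m k (hw k (List.mem_cons_self ..)),
      ih (fun j hj => hw j (List.mem_cons_of_mem _ hj)), actW_cons]

/-- restriction to the sites of the cycle -/
def resF (M : ℕ) (F : Sym2 ℕ → KK) : Sym2 (Fin (M + 3)) → KK :=
  fun z => F (Sym2.map (fun k : Fin (M + 3) => (k : ℕ)) z)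

/-- wrap factor -/
noncomputable def wrp {M : ℕ} (p : Fin (M + 3)) : KK := if (p : ℕ) = M + 2 then tK * qK else 1

/-- rotation of level 2 functions: `(rotF F){p,r} = F{p+1,r+1}` with a factor `tq` for each wrap -/
noncomputable def rotF {M : ℕ} (F : Sym2 (Fin (M + 3)) → KK) (z : Sym2 (Fin (M + 3))) : KK :=
  Sym2.lift ⟨fun p r => wrp p * wrp r * F s(p + 1, r + 1), fun p r => by
    show wrp p * wrp r * F s(p + 1, r + 1) = wrp r * wrp p * F s(r + 1, p + 1)
    rw [mul_comm (wrp p) (wrp r), Sym2.eq_swap]⟩ z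

private theorem e2_val1 {M : ℕ} (p : Fin (M + 3)) (h : (p : ℕ) < M + 2) :
    ((p + 1 : Fin (M + 3)) : ℕ) = (p : ℕ) + 1 := by
  rw [Fin.val_add_one_of_lt]
  rw [Fin.lt_def, Fin.val_last]
  exact h

private theorem e2_val2 {M : ℕ} (p : Fin (M + 3)) (h : (p : ℕ) = M + 2) :
    ((p + 1 : Fin (M + 3)) : ℕ) = 0 := by
  have : p = Fin.last (M + 2) := Fin.ext h
  rw [this, Fin.last_add_one]
  rfl

private theorem e2_le (M : ℕ) (F : Sym2 ℕ → KK) (p r : Fin (M + 3)) (h : (p : ℕ) ≤ r) :
    tauF qK tK (M + 2) F s((p : ℕ), (r : ℕ)) =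
      qK ^ 2 * (wrp p * wrp r * F s(((p + 1 : Fin (M + 3)) : ℕ), ((r + 1 : Fin (M + 3)) : ℕ))) := by
  have hp := p.2
  have hr := r.2
  simp only [tauF, Sym2.lift_mk, max_eq_right h, min_eq_left h]
  rcases Nat.lt_or_ge (r : ℕ) (M + 2) with hr2 | hr2
  · have hp2 : (p : ℕ) < M + 2 := by omega
    rw [if_pos hr2, e2_val1 p hp2, e2_val1 r hr2]
    unfold wrp
    rw [if_neg (by omega), if_neg (by omega)]
    ring
  · have hr3 : (r : ℕ) = M + 2 := by omega
    rw [if_neg (by omega), if_pos hr3, e2_val2 r hr3]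
    rcases Nat.lt_or_ge (p : ℕ) (M + 2) with hp2 | hp2
    · rw [if_pos hp2, e2_val1 p hp2]
      unfold wrp
      rw [if_neg (by omega), if_pos hr3, (Sym2.eq_swap : s((p : ℕ) + 1, 0) = s(0, (p : ℕ) + 1))]
      ring
    · have hp3 : (p : ℕ) = M + 2 := by omega
      rw [if_neg (by omega), e2_val2 p hp3]
      unfold wrp
      rw [if_pos hp3, if_pos hr3]
      ring

theorem resF_tau (M : ℕ) (F : Sym2 ℕ → KK) :
    resF M (rac (brV (M + 3)) F (mword (M + 3) (0 :: 0 :: List.range' 1 (M + 2)))) =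
      (qK ^ 2) • rotF (resF M F) := by
  rw [rac_mword (M + 3) _ (by
    intro k hk
    rcases List.mem_cons.1 hk with rfl | hk
    · omega
    · rcases List.mem_cons.1 hk with rfl | hk
      · omega
      · rw [List.mem_range'_1] at hk
        omega), actW_tau]
  funext z
  induction z using Sym2.ind with
  | _ p r =>
    show tauF qK tK (M + 2) F s((p : ℕ), (r : ℕ)) =
      qK ^ 2 * (wrp p * wrp r * F s(((p + 1 : Fin (M + 3)) : ℕ), ((r + 1 : Fin (M + 3)) : ℕ)))
    rcases le_total (p : ℕ) (r : ℕ) with h | h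
    · exact e2_le M F p r h
    · rw [(Sym2.eq_swap : s((p : ℕ), (r : ℕ)) = s((r : ℕ), (p : ℕ))), e2_le M F r p h,
        mul_comm (wrp r) (wrp p), (Sym2.eq_swap : s(((r + 1 : Fin (M + 3)) : ℕ),
          ((p + 1 : Fin (M + 3)) : ℕ)) = s(((p + 1 : Fin (M + 3)) : ℕ), ((r + 1 : Fin (M + 3)) : ℕ)))]

end Pool.Agent.VB

end Row_E2

section Row_E3

/-!
ROW E3: the level 2 module of the cycle comes from the braid group: resF (F . iota(jj g)) = (resF F) . g.
(a) k < M+2: iota(s_k) = sigma_(k+1) = x_(k,k+1) on sites, restriction (actV_restr style: Fin values injective).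
(b) iota(tau) = mword [0,0,1,..,M+2]: iota (y_0) = sigma_0^2, iota (PP ss) = product of sigma_1..sigma_(M+2).
(c) k = M+2: rotF (F.x_(M+2)) = (rotF F).x_(M+1) (twist u on arc M+2 -> 0; cases), rotF injective, and resF(F.tau) = q^2 rotF(resF F):
resF(G . tau sigma_(M+2) tau^-1) : let G' = G.tau sigma_(M+2) tau^-1; resF(G'.tau) = resF(G.tau.sigma_(M+2)).
(d) all g: both sides are right actions: for products clear, for inverses use that the action is by automorphisms.
-/

namespace Pool.Agent.VB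

open FreeGroup (of)

variable {M : ℕ}

private theorem E3_PP (n k : ℕ) :
    iota n (PP (ss n) k) = ((List.range' 1 k).map (sg (n + 1))).prod := by
  induction k with
  | zero => simp [PP]
  | succ k ih =>
    rw [PP, map_mul, ih, iota_ss, List.range'_1_concat, List.map_append, List.prod_append]
    simp [add_comm]

theorem iota_tau (M : ℕ) :
    iota (M + 2) (tauG (M + 2)) = mword (M + 3) (0 :: 0 :: List.range' 1 (M + 2)) := by
  rw [tauG, cG, map_mul, E3_PP, iota_yy, mword, List.map_cons, List.prod_cons, List.map_cons, List.prod_cons]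
  simp [Ydef, RR, mul_assoc]

private theorem E3_wrp_ne (p : Fin (M + 3)) : wrp p ≠ 0 := by
  unfold wrp
  split_ifs
  · exact mul_ne_zero tK_ne qK_ne
  · exact one_ne_zero

private theorem E3_wrp (p : Fin (M + 3)) : tw (lastA M) p = wrp p := by
  unfold tw wrp
  by_cases h : p = lastA M
  · rw [if_pos h, if_pos (by rw [h]; simp [lastA])]
  · rw [if_neg h, if_neg (fun h' => h (Fin.ext (by rw [h']; simp [lastA])))]

private theorem E3_rotF_mk (F : Sym2 (Fin (M + 3)) → KK) (p r : Fin (M + 3)) :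
    rotF F s(p, r) = wrp p * wrp r * F s(p + 1, r + 1) := rfl

theorem rotF_inj : Function.Injective (rotF (M := M)) := by
  intro F F' h
  funext z
  induction z with
  | _ x y =>
    have h1 := congrFun h s(x - 1, y - 1)
    rw [E3_rotF_mk, E3_rotF_mk, sub_add_cancel, sub_add_cancel] at h1
    exact mul_left_cancel₀ (mul_ne_zero (E3_wrp_ne _) (E3_wrp_ne _)) h1

private theorem E3_arc_aux (F : Sym2 (Fin (M + 3)) → KK) (k : Fin (M + 3)) (z : Sym2 (Fin (M + 3))) :
    rotF (actV qK tK (wrp (k + 1)) (wrp (k + 1))⁻¹ (k + 1) (k + 1 + 1) F) z =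
      actV qK tK (wrp k) (wrp k)⁻¹ k (k + 1) (rotF F) z := by
  have hk : k ≠ k + 1 := by
    intro h
    have : (1 : Fin (M + 3)) = 0 := by
      have := h.symm
      rwa [add_eq_left] at this
    simp at this
  have hk' : k + 1 ≠ k + 1 + 1 := fun h => hk (add_right_cancel h)
  have hk2 : wrp k ≠ 0 := E3_wrp_ne k
  have hk3 : wrp (k + 1) ≠ 0 := E3_wrp_ne (k + 1)
  have key : ∀ p r : Fin (M + 3), (p = k ∨ (p = k + 1 ∧ r ≠ k) ∨ (p ≠ k ∧ p ≠ k + 1 ∧ r ≠ k ∧ r ≠ k + 1)) →
      rotF (actV qK tK (wrp (k + 1)) (wrp (k + 1))⁻¹ (k + 1) (k + 1 + 1) F) s(p, r) =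
      actV qK tK (wrp k) (wrp k)⁻¹ k (k + 1) (rotF F) s(p, r) := by
    intro p r h
    rw [E3_rotF_mk]
    rcases h with rfl | ⟨rfl, h2⟩ | ⟨h1, h2, h3, h4⟩
    · by_cases h1 : r = p
      · subst h1
        rw [actV_ii, actV_ii, E3_rotF_mk, E3_rotF_mk, E3_rotF_mk]
        ring
      · by_cases h2 : r = p + 1
        · subst h2
          rw [actV_ij _ _ _ _ _ _ _ hk', actV_ij _ _ _ _ _ _ _ hk, E3_rotF_mk, E3_rotF_mk]
          field_simp
        · rw [actV_ik _ _ _ _ _ _ _ _ (fun h => h1 (add_right_cancel h)) (fun h => h2 (add_right_cancel h)),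
            actV_ik _ _ _ _ _ _ _ _ h1 h2, E3_rotF_mk, E3_rotF_mk]
          ring
    · by_cases h3 : r = k + 1
      · subst h3
        rw [actV_jj _ _ _ _ _ _ _ hk', actV_jj _ _ _ _ _ _ _ hk, E3_rotF_mk]
        field_simp
      · rw [actV_jk _ _ _ _ _ _ _ hk' _ (fun h => h2 (add_right_cancel h)) (fun h => h3 (add_right_cancel h)),
          actV_jk _ _ _ _ _ _ _ hk _ h2 h3, E3_rotF_mk]
        field_simp
    · rw [actV_kl _ _ _ _ _ _ _ _ _ (fun h => h1 (add_right_cancel h)) (fun h => h2 (add_right_cancel h))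
          (fun h => h3 (add_right_cancel h)) (fun h => h4 (add_right_cancel h)),
        actV_kl _ _ _ _ _ _ _ _ _ h1 h2 h3 h4, E3_rotF_mk]
  induction z with
  | _ p r =>
    by_cases c1 : p = k
    · exact key p r (Or.inl c1)
    · by_cases c2 : r = k
      · rw [Sym2.eq_swap]
        exact key r p (Or.inl c2)
      · by_cases c3 : p = k + 1
        · exact key p r (Or.inr (Or.inl ⟨c3, c2⟩))
        · by_cases c4 : r = k + 1
          · rw [Sym2.eq_swap]
            exact key r p (Or.inr (Or.inl ⟨c4, c1⟩))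
          · exact key p r (Or.inr (Or.inr ⟨c1, c3, c2, c4⟩))

theorem rotF_arc (F : Sym2 (Fin (M + 3)) → KK) (k : Fin (M + 3)) :
    rotF (rac (modV (cyc M) (lastA M)) F ((cyc M).x (k + 1))) =
      rac (modV (cyc M) (lastA M)) (rotF F) ((cyc M).x k) := by
  rw [modV_x, modV_x, E3_wrp, E3_wrp]
  funext z
  exact E3_arc_aux F k z

private theorem E3_restr {W W' : Type} [DecidableEq W] [DecidableEq W'] (f : W → W') (hf : Function.Injective f)
    (a a' : KK) (i j : W) (F : Sym2 W' → KK) (z : Sym2 W) :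
    actV qK tK a a' (f i) (f j) F (Sym2.map f z) = actV qK tK a a' i j (fun z => F (Sym2.map f z)) z := by
  induction z with
  | _ p r =>
    simp only [Sym2.map_mk, actV, Sym2.lift_mk, hf.eq_iff]

private theorem E3_small (F : Sym2 ℕ → KK) (k : Fin (M + 3)) (hk : (k : ℕ) ≠ M + 2) :
    resF M (rac (brV (M + 3)) F (iota (M + 2) (ss (M + 2) k))) =
      rac (modV (cyc M) (lastA M)) (resF M F) ((cyc M).x k) := by
  have hk1 : ((k + 1 : Fin (M + 3)) : ℕ) = k + 1 := by
    apply Fin.val_add_one_of_lt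
    rw [Fin.lt_def, Fin.val_last]
    have := k.isLt
    omega
  rw [iota_ss, brV_sg _ _ (by have := k.isLt; omega), modV_x, E3_wrp]
  have hw : wrp k = 1 := if_neg hk
  rw [hw, inv_one]
  funext z
  unfold resF
  have h1 := E3_restr (fun k : Fin (M + 3) => (k : ℕ)) Fin.val_injective 1 1 k (k + 1) F z
  rw [hk1] at h1
  exact h1

private theorem E3_smul (c : KK) (F : Sym2 (Fin (M + 3)) → KK) (g : (cyc M).G) :
    rac (modV (cyc M) (lastA M)) (c • F) g = c • rac (modV (cyc M) (lastA M)) F g := by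
  unfold rac
  exact map_smul _ _ _

private theorem E3_gen (F : Sym2 ℕ → KK) (k : Fin (M + 3)) :
    resF M (rac (brV (M + 3)) F (iota (M + 2) (jj M ((cyc M).x k)))) =
      rac (modV (cyc M) (lastA M)) (resF M F) ((cyc M).x k) := by
  rw [jj_x]
  unfold jjf
  by_cases hk : (k : ℕ) = M + 2
  · rw [if_pos hk]
    have hkl : k = lastA M := Fin.ext (by rw [hk]; simp [lastA])
    set k' : Fin (M + 3) := ⟨M + 1, by omega⟩ with hk'
    have hkk : k' + 1 = k := by
      apply Fin.ext
      rw [Fin.val_add_one_of_lt (by rw [Fin.lt_def, Fin.val_last, hk']; simp), hk, hk']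
    set τ := iota (M + 2) (tauG (M + 2)) with hτ
    set σ := iota (M + 2) (ss (M + 2) (M + 1)) with hσ
    have e1 : iota (M + 2) (tauG (M + 2) * ss (M + 2) (M + 1) * (tauG (M + 2))⁻¹) = τ * σ * τ⁻¹ := by
      rw [map_mul, map_mul, map_inv]
    rw [e1]
    have e2 : ∀ G : Sym2 ℕ → KK, resF M (rac (brV (M + 3)) G τ) = (qK ^ 2) • rotF (resF M G) := by
      intro G
      rw [hτ, iota_tau, resF_tau]
    have e3 : rac (brV (M + 3)) (rac (brV (M + 3)) F (τ * σ * τ⁻¹)) τ =
        rac (brV (M + 3)) (rac (brV (M + 3)) F τ) σ := by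
      rw [← rac_mul, inv_mul_cancel_right, rac_mul]
    have e4 := e2 (rac (brV (M + 3)) F (τ * σ * τ⁻¹))
    rw [e3] at e4
    have e5 := E3_small (rac (brV (M + 3)) F τ) k' (by rw [hk']; simp)
    have e6 : ((k' : Fin (M + 3)) : ℕ) = M + 1 := by rw [hk']
    rw [e6, e4, e2, E3_smul, ← rotF_arc, hkk] at e5
    have hq : (qK ^ 2 : KK) ≠ 0 := pow_ne_zero 2 qK_ne
    exact rotF_inj (smul_right_injective _ hq e5)
  · rw [if_neg hk]
    exact E3_small F k hk

theorem res_act (F : Sym2 ℕ → KK) (g : (cyc M).G) :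
    resF M (rac (brV (M + 3)) F (iota (M + 2) (jj M g))) =
      rac (modV (cyc M) (lastA M)) (resF M F) g := by
  have htop : g ∈ Subgroup.closure (Set.range (PresentedGroup.of : Fin (M + 3) → (cyc M).G)) := by
    rw [PresentedGroup.closure_range_of]
    exact Subgroup.mem_top g
  induction htop using Subgroup.closure_induction generalizing F with
  | mem x hx =>
    obtain ⟨k, rfl⟩ := hx
    exact E3_gen F k
  | one => rw [map_one, map_one, rac_one, rac_one]
  | mul x y _ _ hx hy =>
    rw [map_mul, map_mul, rac_mul, rac_mul, hy, hx]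
  | inv x _ hx =>
    have h1 := hx (rac (brV (M + 3)) F (iota (M + 2) (jj M x⁻¹)))
    rw [← rac_mul, ← map_mul, ← map_mul, inv_mul_cancel, map_one, map_one, rac_one] at h1
    rw [h1, rac_inv_mul]

end Pool.Agent.VB

end Row_E3

section Row_E4

/-!
ROW E4: Omega_r (F) = Omega_0 of the rotated function: Omf M 0 (rotF^[r] F) = Omf M r F for r ≤ M+2 (omega is transported by the rotation:
omg 0 p * (wraps) = omg r (p + r), cpos r (p+r) = cpos 0 p).  Hence with tau~: Omf M 0 (resF (F . iota(tau^r))) = q^(2r) Omf M r (resF F).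
Then combine with res_act and D8-type equality: statement below.
-/

namespace Pool.Agent.VB

open FreeGroup (of)

variable {M : ℕ}

private theorem E4_rotF_mk (F : Sym2 (Fin (M + 3)) → KK) (p l : Fin (M + 3)) :
    rotF F s(p, l) = wrp p * wrp l * F s(p + 1, l + 1) := rfl

private theorem E4_succ_val (p : Fin (M + 3)) (h : (p : ℕ) ≠ M + 2) :
    ((p + 1 : Fin (M + 3)) : ℕ) = (p : ℕ) + 1 := by
  have h1 := p.isLt
  rw [Fin.val_add, Fin.val_one']
  rw [Nat.mod_eq_of_lt (by omega : 1 < M + 3), Nat.mod_eq_of_lt (by omega)]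

private theorem E4_last_val (p : Fin (M + 3)) (h : (p : ℕ) = M + 2) :
    ((p + 1 : Fin (M + 3)) : ℕ) = 0 := by
  rw [Fin.val_add, Fin.val_one', h, Nat.mod_eq_of_lt (by omega : 1 < M + 3)]
  exact Nat.mod_self _

private theorem E4_omg (r : ℕ) (hr : r ≤ M + 2) (p : Fin (M + 3)) :
    omg M (r + 1) (p + 1) = omg M r p * wrp p := by
  have h1 := p.isLt
  by_cases h : (p : ℕ) = M + 2
  · have h2 := E4_last_val p h
    have h3 : ¬ (r + 1 ≤ ((p + 1 : Fin (M + 3)) : ℕ)) := by omega
    have h4 : r ≤ (p : ℕ) := by omega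
    have h5 : ((p + 1 : Fin (M + 3)) : ℕ) + (M + 3) - (r + 1) = (p : ℕ) - r := by omega
    rw [omg, if_neg h3, omg, if_pos h4, wrp, if_pos h, h5]
    ring
  · have h2 := E4_succ_val p h
    rw [wrp, if_neg h, mul_one, omg, omg, h2]
    by_cases h3 : r ≤ (p : ℕ)
    · rw [if_pos (by omega), if_pos h3]
      congr 1; omega
    · rw [if_neg (by omega), if_neg h3]
      congr 2; omega

private theorem E4_cpos (r : ℕ) (hr : r ≤ M + 2) (p : Fin (M + 3)) :
    cpos M (r + 1) (p + 1) = cpos M r p := by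
  have h1 := p.isLt
  by_cases h : (p : ℕ) = M + 2
  · have h2 := E4_last_val p h
    rw [cpos, cpos, h2, if_neg (by omega), if_pos (by omega)]
    omega
  · have h2 := E4_succ_val p h
    rw [cpos, cpos, h2]
    by_cases h3 : r ≤ (p : ℕ)
    · rw [if_pos (by omega), if_pos h3]; omega
    · rw [if_neg (by omega), if_neg h3]; omega

private theorem E4_cnn (r : ℕ) (hr : r ≤ M + 2) (p l : Fin (M + 3)) :
    cnn M (r + 1) (p + 1) (l + 1) = cnn M r p l := by
  simp only [cnn, E4_cpos r hr, add_left_inj]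

private theorem E4_step (r : ℕ) (hr : r ≤ M + 2) (F : Sym2 (Fin (M + 3)) → KK) :
    Omf M r (rotF F) = Omf M (r + 1) F := by
  unfold Omf NN
  rw [← Equiv.sum_comp (Equiv.addRight (1 : Fin (M + 3)))
    (fun p => omg M (r + 1) p * ∑ l, cnn M (r + 1) p l * omg M (r + 1) l * F s(p, l))]
  refine Finset.sum_congr rfl fun p _ => ?_
  rw [← Equiv.sum_comp (Equiv.addRight (1 : Fin (M + 3)))
    (fun l => cnn M (r + 1) (Equiv.addRight (1 : Fin (M + 3)) p) l * omg M (r + 1) l *
      F s(Equiv.addRight (1 : Fin (M + 3)) p, l))]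
  simp only [Equiv.coe_addRight, E4_omg r hr, E4_cnn r hr, E4_rotF_mk]
  rw [Finset.mul_sum, Finset.mul_sum]
  refine Finset.sum_congr rfl fun l _ => ?_
  ring

theorem Omf_rot (r : ℕ) (hr : r ≤ M + 2) (F : Sym2 (Fin (M + 3)) → KK) :
    Omf M 0 (rotF^[r] F) = Omf M r F := by
  induction r generalizing F with
  | zero => rfl
  | succ r ih =>
    rw [Function.iterate_succ_apply, ih (by omega), E4_step r (by omega)]

private theorem E4_rotF_smul (c : KK) (F : Sym2 (Fin (M + 3)) → KK) :
    rotF (c • F) = c • rotF F := by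
  funext z
  induction z using Sym2.ind with
  | _ p l =>
    simp only [E4_rotF_mk, Pi.smul_apply, smul_eq_mul]
    ring

private theorem E4_Omf_smul (r : ℕ) (c : KK) (F : Sym2 (Fin (M + 3)) → KK) :
    Omf M r (c • F) = c * Omf M r F := by
  unfold Omf NN
  rw [Finset.mul_sum]
  refine Finset.sum_congr rfl fun p _ => ?_
  rw [Finset.mul_sum, Finset.mul_sum, Finset.mul_sum]
  refine Finset.sum_congr rfl fun l _ => ?_
  simp only [Pi.smul_apply, smul_eq_mul]
  ring

private theorem E4_pow (r : ℕ) (F : Sym2 ℕ → KK) :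
    resF M (rac (brV (M + 3)) F
      (mword (M + 3) (0 :: 0 :: List.range' 1 (M + 2)) ^ r)) =
      (qK ^ (2 * r)) • rotF^[r] (resF M F) := by
  induction r with
  | zero => simp [rac_one]
  | succ r ih =>
    rw [pow_succ, rac_mul, resF_tau, ih, E4_rotF_smul, smul_smul, Function.iterate_succ_apply']
    congr 1
    ring

theorem Omf_tau (r : ℕ) (hr : r ≤ M + 2) (F : Sym2 ℕ → KK) (g : (cyc M).G) :
    Omf M 0 (resF M (rac (brV (M + 3)) F (iota (M + 2) (jj M g * tauG (M + 2) ^ r)))) =
      qK ^ (2 * r) * Omf M r (rac (modV (cyc M) (lastA M)) (resF M F) g) := by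
  rw [map_mul, map_pow, iota_tau, rac_mul, E4_pow, E4_Omf_smul, Omf_rot r hr, res_act]

/-- `Omega_r(1)` is a polynomial in t -/
theorem Omf_one_poly (r : ℕ) (hr : r ≤ M + 2) :
    ∃ P : Polynomial ℚ, Omf M r oneV = algebraMap (Polynomial ℚ) KK P := by
  have hq : qK ∈ (algebraMap (Polynomial ℚ) KK).range := ⟨qP, rfl⟩
  have ht : tK ∈ (algebraMap (Polynomial ℚ) KK).range := ⟨tP, rfl⟩
  have ho : ∀ p : Fin (M + 3), omg M r p ∈ (algebraMap (Polynomial ℚ) KK).range := by
    intro p
    unfold omg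
    split_ifs
    · exact pow_mem hq _
    · exact mul_mem (mul_mem ht hq) (pow_mem hq _)
  have hn : ∀ p l : Fin (M + 3), cnn M r p l ∈ (algebraMap (Polynomial ℚ) KK).range := by
    intro p l
    unfold cnn
    split_ifs
    · exact sub_mem (one_mem _) (mul_mem ht hq)
    · exact sub_mem (one_mem _) hq
    · exact mul_mem ht (sub_mem (one_mem _) hq)
  have h : Omf M r oneV ∈ (algebraMap (Polynomial ℚ) KK).range := by
    unfold Omf NN
    exact sum_mem fun p _ => mul_mem (ho p) (sum_mem fun l _ =>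
      mul_mem (mul_mem (hn p l) (ho l)) (one_mem _))
  obtain ⟨P, hP⟩ := h
  exact ⟨P, hP.symm⟩

end Pool.Agent.VB

end Row_E4

section Row_V1

/-!
ROW V1: explicit partial products of the constant function (paper 7'').  Over any commutative ring, on all sites:
actW q t [0,1,...,k] 1 = delF k.  Induction on k; step with actV k (k+1).  And: E_p = indicator of {p,p}: for words [m-1, ..., 1]:
on sites ≤ m-1 (p, r < m): actW [m-1,m-2,...,1] E_(m-1) = q^(2(m-1)) E_0 on p,r < m; and actS0 E_0 = t q^2 on everything (E_0 = indicator of {0,0} everywhere).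
Use: values on sites < m of actS k F (k < m) depend only on the values of F on sites < m (lemma actS_local).
-/

namespace Pool.Agent.VB

open FreeGroup (of)

section
variable {R : Type} [CommRing R]

/-- closed form of `1 . sigma_0 ... sigma_k` -/
def delF (q t : R) (k : ℕ) (z : Sym2 ℕ) : R :=
  Sym2.lift ⟨fun x y =>
    if min x y < k then 0
    else if max x y = k then t * q ^ 2
    else if min x y = k then -(q * (1 - t * q))
    else (1 - q) * (1 - t * q), fun x y => by simp only [max_comm x y, min_comm x y]⟩ z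

/-- indicator of `{p,p}` -/
def EE (p : ℕ) (z : Sym2 ℕ) : R := if z = s(p, p) then 1 else 0

private theorem v1_off (q t a a' : R) (i j p r : ℕ) (F : Sym2 ℕ → R) (h1 : p ≠ i) (h2 : p ≠ j)
    (h3 : r ≠ i) (h4 : r ≠ j) : actV q t a a' i j F s(p, r) = F s(p, r) := by
  simp [actV, h1, h2, h3, h4]

private theorem v1_oi (q t a a' : R) (i j p : ℕ) (F : Sym2 ℕ → R) (h1 : p ≠ i) (h2 : p ≠ j) :
    actV q t a a' i j F s(p, i) = (1 - q) * F s(p, i) + q * a * F s(p, j) := by
  simp [actV, h1, h2, Sym2.eq_swap]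

private theorem v1_oj (q t a a' : R) (i j p : ℕ) (F : Sym2 ℕ → R) (h1 : p ≠ i) (h2 : p ≠ j)
    (hij : j ≠ i) :
    actV q t a a' i j F s(p, j) = a' * F s(p, i) := by
  simp [actV, h1, h2, hij, Sym2.eq_swap]

private theorem v1_ii (q t a a' : R) (i j : ℕ) (F : Sym2 ℕ → R) :
    actV q t a a' i j F s(i, i) = (1 - q) * (1 - t * q) * F s(i, i) +
      (1 + t) * q * (1 - q) * a * F s(i, j) + q ^ 2 * a ^ 2 * F s(j, j) := by
  simp [actV]

private theorem v1_ij (q t a a' : R) (i j : ℕ) (F : Sym2 ℕ → R) (hij : j ≠ i) :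
    actV q t a a' i j F s(i, j) = (1 - t * q) * a' * F s(i, i) + t * q * F s(i, j) := by
  simp [actV, hij]

private theorem v1_jj (q t a a' : R) (i j : ℕ) (F : Sym2 ℕ → R) (hij : j ≠ i) :
    actV q t a a' i j F s(j, j) = a' ^ 2 * F s(i, i) := by
  simp [actV, hij]

/-- two functions on multisets agree if they agree on the pairs in the order we like -/
private theorem v1_ext (k : ℕ) (F G : Sym2 ℕ → R)
    (h1 : F s(k, k) = G s(k, k)) (h2 : F s(k, k + 1) = G s(k, k + 1))
    (h3 : F s(k + 1, k + 1) = G s(k + 1, k + 1))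
    (h4 : ∀ p, p ≠ k → p ≠ k + 1 → F s(p, k) = G s(p, k))
    (h5 : ∀ p, p ≠ k → p ≠ k + 1 → F s(p, k + 1) = G s(p, k + 1))
    (h6 : ∀ p r, p ≠ k → p ≠ k + 1 → r ≠ k → r ≠ k + 1 → F s(p, r) = G s(p, r)) : F = G := by
  funext z
  induction z using Sym2.ind with
  | _ x y =>
    by_cases a1 : x = k
    · subst a1
      by_cases b1 : y = x
      · rw [b1]; exact h1
      by_cases b2 : y = x + 1
      · rw [b2]; exact h2
      rw [Sym2.eq_swap]; exact h4 y b1 b2
    by_cases a2 : x = k + 1
    · subst a2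
      by_cases b1 : y = k
      · rw [b1, Sym2.eq_swap]; exact h2
      by_cases b2 : y = k + 1
      · rw [b2]; exact h3
      rw [Sym2.eq_swap]; exact h5 y b1 b2
    by_cases b1 : y = k
    · rw [b1]; exact h4 x a1 a2
    by_cases b2 : y = k + 1
    · rw [b2]; exact h5 x a1 a2
    exact h6 x y a1 a2 b1 b2

private theorem v1_del (q t : R) (k x y : ℕ) : delF q t k s(x, y) =
    if min x y < k then 0
    else if max x y = k then t * q ^ 2
    else if min x y = k then -(q * (1 - t * q))
    else (1 - q) * (1 - t * q) := rfl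

private theorem v1_step (q t : R) (k : ℕ) :
    actV q t 1 1 k (k + 1) (delF q t k) = delF q t (k + 1) := by
  have hjk : k + 1 ≠ k := by omega
  have e1 : delF q t k s(k, k) = t * q ^ 2 := by simp [v1_del]
  have e2 : delF q t k s(k, k + 1) = -(q * (1 - t * q)) := by simp [v1_del]
  have e3 : delF q t k s(k + 1, k + 1) = (1 - q) * (1 - t * q) := by simp [v1_del]
  refine v1_ext k _ _ ?_ ?_ ?_ ?_ ?_ ?_
  · rw [v1_ii, e1, e2, e3, v1_del, if_pos (by omega)]
    ring
  · rw [v1_ij _ _ _ _ _ _ _ hjk, e1, e2, v1_del, if_pos (by omega)]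
    ring
  · rw [v1_jj _ _ _ _ _ _ _ hjk, e1, v1_del, if_neg (by omega), if_pos (by omega)]
    ring
  · intro p h1 h2
    rw [v1_oi _ _ _ _ _ _ _ _ h1 h2, v1_del, v1_del, v1_del]
    rcases lt_or_gt_of_ne h1 with h | h
    · rw [if_pos (by omega), if_pos (by omega), if_pos (by omega)]
      ring
    · rw [if_neg (by omega), if_neg (by omega), if_pos (by omega), if_neg (by omega),
        if_neg (by omega), if_neg (by omega), if_pos (by omega)]
      ring
  · intro p h1 h2
    rw [v1_oj _ _ _ _ _ _ _ _ h1 h2 hjk, v1_del, v1_del]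
    rcases lt_or_gt_of_ne h1 with h | h
    · rw [if_pos (by omega), if_pos (by omega)]
      ring
    · rw [if_neg (by omega), if_neg (by omega), if_pos (by omega), if_neg (by omega),
        if_neg (by omega), if_pos (by omega)]
      ring
  · intro p r h1 h2 h3 h4
    rw [v1_off _ _ _ _ _ _ _ _ _ h1 h2 h3 h4, v1_del, v1_del]
    rcases lt_or_ge (min p r) k with h | h
    · rw [if_pos h, if_pos (by omega)]
    · rw [if_neg (by omega), if_neg (by omega), if_neg (by omega), if_neg (by omega),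
        if_neg (by omega), if_neg (by omega)]

theorem actW_delta (q t : R) (k : ℕ) :
    actW q t (List.range (k + 1)) (fun _ => 1) = delF q t k := by
  induction k with
  | zero =>
    have : List.range (0 + 1) = [0] := rfl
    rw [this]
    show actS0 q t (fun _ => 1) = delF q t 0
    funext z
    induction z using Sym2.ind with
    | _ x y =>
      rw [v1_del]
      simp only [actS0, Sym2.lift_mk]
      by_cases hx : x = 0
      · by_cases hy : y = 0
        · subst hx hy
          simp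
        · have : ¬ max x y = 0 := by omega
          rw [if_neg (by omega), if_pos (by omega), if_neg (by omega), if_neg this,
            if_pos (by omega)]
          ring
      · by_cases hy : y = 0
        · have : ¬ max x y = 0 := by omega
          rw [if_neg (by omega), if_pos (by omega), if_neg (by omega), if_neg this,
            if_pos (by omega)]
          ring
        · rw [if_neg (by omega), if_neg (by omega), if_neg (by omega), if_neg (by omega),
            if_neg (by omega)]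
          ring
  | succ k ih =>
    rw [List.range_succ]
    show actW q t (List.range (k + 1) ++ [k + 1]) _ = _
    simp only [actW, List.foldl_append, List.foldl_cons, List.foldl_nil]
    have ih' : List.foldl (fun F k => actS q t k F) (fun _ => 1) (List.range (k + 1)) =
      delF q t k := ih
    rw [ih']
    exact v1_step q t k

theorem actS_one (q t : R) (k : ℕ) (hk : k ≠ 0) : actS q t k (fun _ => (1 : R)) = fun _ => 1 := by
  obtain ⟨k, rfl⟩ := Nat.exists_eq_succ_of_ne_zero hk
  show actV q t 1 1 k (k + 1) (fun _ => 1) = _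
  have hjk : k + 1 ≠ k := by omega
  refine v1_ext k _ _ ?_ ?_ ?_ ?_ ?_ ?_
  · rw [v1_ii]; ring
  · rw [v1_ij _ _ _ _ _ _ _ hjk]; ring
  · rw [v1_jj _ _ _ _ _ _ _ hjk]; ring
  · intro p h1 h2
    rw [v1_oi _ _ _ _ _ _ _ _ h1 h2]; ring
  · intro p h1 h2
    rw [v1_oj _ _ _ _ _ _ _ _ h1 h2 hjk]; ring
  · intro p r h1 h2 h3 h4
    rw [v1_off _ _ _ _ _ _ _ _ _ h1 h2 h3 h4]

theorem actS_local (q t : R) (m k : ℕ) (hk : k < m) (F G : Sym2 ℕ → R)
    (h : ∀ x y, x < m → y < m → F s(x, y) = G s(x, y)) (x y : ℕ) (hx : x < m) (hy : y < m) :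
    actS q t k F s(x, y) = actS q t k G s(x, y) := by
  cases k with
  | zero =>
    simp only [actS, actS0, Sym2.lift_mk]
    rw [h 0 0 hk hk, h x y hx hy, h 0 (max x y) hk (by omega), h 0 (min x y) hk (by omega)]
  | succ k =>
    simp only [actS, actV, Sym2.lift_mk]
    have hk' : k < m := by omega
    rw [h k k hk' hk', h k (k + 1) hk' hk, h (k + 1) (k + 1) hk hk, h k x hk' hx,
      h (k + 1) x hk hx, h k y hk' hy, h (k + 1) y hk hy, h x y hx hy]

private theorem v1_EE (p x y : ℕ) : (EE p s(x, y) : R) = if x = p ∧ y = p then 1 else 0 := by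
  unfold EE
  congr 1
  rw [Sym2.eq_iff]
  simp

private theorem v1_EEstep (q t : R) (m : ℕ) :
    actS q t (m + 1) (EE (m + 1)) = (q ^ 2) • (EE m : Sym2 ℕ → R) := by
  show actV q t 1 1 m (m + 1) (EE (m + 1)) = _
  have hjk : m + 1 ≠ m := by omega
  refine v1_ext m _ _ ?_ ?_ ?_ ?_ ?_ ?_
  · rw [v1_ii]; simp [v1_EE]
  · rw [v1_ij _ _ _ _ _ _ _ hjk]; simp [v1_EE]
  · rw [v1_jj _ _ _ _ _ _ _ hjk]; simp [v1_EE]
  · intro p h1 h2
    rw [v1_oi _ _ _ _ _ _ _ _ h1 h2]; simp [v1_EE, h1, h2]
  · intro p h1 h2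
    rw [v1_oj _ _ _ _ _ _ _ _ h1 h2 hjk]; simp [v1_EE, h1]
  · intro p r h1 h2 h3 h4
    rw [v1_off _ _ _ _ _ _ _ _ _ h1 h2 h3 h4]; simp [v1_EE, h1, h2]

private theorem v1_smul (q t c : R) (w : List ℕ) (F : Sym2 ℕ → R) :
    actW q t w (c • F) = c • actW q t w F := by
  induction w generalizing F with
  | nil => rfl
  | cons k w ih =>
    show actW q t w (actS q t k (c • F)) = c • actW q t w (actS q t k F)
    rw [actS_smul, ih]

theorem actW_E (q t : R) (m : ℕ) (x y : ℕ) (hx : x ≤ m) (hy : y ≤ m) :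
    actW q t ((List.range' 1 m).reverse) (EE m) s(x, y) = q ^ (2 * m) * EE 0 s(x, y) := by
  have key : ∀ m : ℕ, actW q t ((List.range' 1 m).reverse) (EE m) =
      (q ^ (2 * m)) • (EE 0 : Sym2 ℕ → R) := by
    intro m
    induction m with
    | zero =>
      show EE 0 = _
      simp
    | succ m ih =>
      have : (List.range' 1 (m + 1)).reverse = (m + 1) :: (List.range' 1 m).reverse := by
        rw [List.range'_1_concat, List.reverse_append, List.reverse_singleton,
          List.singleton_append, add_comm]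
      rw [this]
      show actW q t ((List.range' 1 m).reverse) (actS q t (m + 1) (EE (m + 1))) = _
      rw [v1_EEstep, v1_smul, ih, smul_smul]
      congr 1
      ring
  rw [key m]
  rfl

theorem actS0_E (q t : R) : actS0 q t (EE 0) = fun _ => t * q ^ 2 := by
  funext z
  induction z using Sym2.ind with
  | _ x y =>
    simp only [actS0, Sym2.lift_mk, v1_EE]
    by_cases hx : x = 0
    · by_cases hy : y = 0
      · simp [hx, hy]
      · simp [hx, hy]
    · by_cases hy : y = 0
      · simp [hx, hy]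
      · have h1 : ¬ max x y = 0 := by omega
        have h2 : ¬ min x y = 0 := by omega
        simp [hx, hy, h2]
end

end Pool.Agent.VB

end Row_V1

section Row_V2

/-!
ROW V2: the functional Omega_0 on functions with sites in N, over a commutative ring:
OmN q t m F = sum_p (1-tq) q^(2p) F{p,p} + (1+t)(1-q) sum_(p<r) q^(p+r) F{p,r}, p, r < m.  Invariance under sigma_k, 1 ≤ k < m
(split the sums into the sites k-1, k and the others).
-/

namespace Pool.Agent.VB

open FreeGroup (of)

section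
variable {R : Type} [CommRing R]

/-- `Omega_0` -/
def OmN (q t : R) (m : ℕ) (F : Sym2 ℕ → R) : R :=
  ∑ p ∈ Finset.range m, (1 - t * q) * q ^ (2 * p) * F s(p, p) +
    (1 + t) * (1 - q) * ∑ r ∈ Finset.range m, ∑ p ∈ Finset.range r, q ^ (p + r) * F s(p, r)

private theorem v2_succ (q t : R) (m : ℕ) (F : Sym2 ℕ → R) :
    OmN q t (m + 1) F = OmN q t m F + (1 - t * q) * q ^ (2 * m) * F s(m, m) +
      (1 + t) * (1 - q) * q ^ m * ∑ p ∈ Finset.range m, q ^ p * F s(p, m) := by
  unfold OmN
  rw [Finset.sum_range_succ, Finset.sum_range_succ]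
  have h : ∑ p ∈ Finset.range m, q ^ (p + m) * F s(p, m) =
      q ^ m * ∑ p ∈ Finset.range m, q ^ p * F s(p, m) := by
    rw [Finset.mul_sum]
    exact Finset.sum_congr rfl fun p _ => by ring
  rw [h]
  ring

private theorem v2_row (q : R) (k d : ℕ) (g g' : ℕ → R) (h1 : g' k = (1 - q) * g k + q * g (k + 1))
    (h2 : g' (k + 1) = g k) (h3 : ∀ p, p ≠ k → p ≠ k + 1 → g' p = g p) :
    ∑ p ∈ Finset.range (k + 2 + d), q ^ p * g' p = ∑ p ∈ Finset.range (k + 2 + d), q ^ p * g p := by
  induction d with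
  | zero =>
    rw [Nat.add_zero, Finset.sum_range_succ, Finset.sum_range_succ, Finset.sum_range_succ,
      Finset.sum_range_succ, h1, h2]
    have : ∑ p ∈ Finset.range k, q ^ p * g' p = ∑ p ∈ Finset.range k, q ^ p * g p :=
      Finset.sum_congr rfl fun p hp => by
        have := Finset.mem_range.1 hp
        rw [h3 p (by omega) (by omega)]
    rw [this]
    ring
  | succ d ih =>
    rw [← add_assoc, Finset.sum_range_succ, Finset.sum_range_succ, ih,
      h3 (k + 2 + d) (by omega) (by omega)]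

private theorem v2_off (q t a a' : R) (i j p r : ℕ) (F : Sym2 ℕ → R) (h1 : p ≠ i) (h2 : p ≠ j)
    (h3 : r ≠ i) (h4 : r ≠ j) : actV q t a a' i j F s(p, r) = F s(p, r) := by
  simp [actV, h1, h2, h3, h4]

private theorem v2_oi (q t a a' : R) (i j p : ℕ) (F : Sym2 ℕ → R) (h1 : p ≠ i) (h2 : p ≠ j) :
    actV q t a a' i j F s(p, i) = (1 - q) * F s(p, i) + q * a * F s(p, j) := by
  simp [actV, h1, h2, Sym2.eq_swap]

private theorem v2_oj (q t a a' : R) (i j p : ℕ) (F : Sym2 ℕ → R) (h1 : p ≠ i) (h2 : p ≠ j)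
    (hij : j ≠ i) :
    actV q t a a' i j F s(p, j) = a' * F s(p, i) := by
  simp [actV, h1, h2, hij, Sym2.eq_swap]

private theorem v2_ii (q t a a' : R) (i j : ℕ) (F : Sym2 ℕ → R) :
    actV q t a a' i j F s(i, i) = (1 - q) * (1 - t * q) * F s(i, i) +
      (1 + t) * q * (1 - q) * a * F s(i, j) + q ^ 2 * a ^ 2 * F s(j, j) := by
  simp [actV]

private theorem v2_ij (q t a a' : R) (i j : ℕ) (F : Sym2 ℕ → R) (hij : j ≠ i) :
    actV q t a a' i j F s(i, j) = (1 - t * q) * a' * F s(i, i) + t * q * F s(i, j) := by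
  simp [actV, hij]

private theorem v2_jj (q t a a' : R) (i j : ℕ) (F : Sym2 ℕ → R) (hij : j ≠ i) :
    actV q t a a' i j F s(j, j) = a' ^ 2 * F s(i, i) := by
  simp [actV, hij]

theorem OmN_local (q t : R) (m : ℕ) (F G : Sym2 ℕ → R)
    (h : ∀ x y, x < m → y < m → F s(x, y) = G s(x, y)) : OmN q t m F = OmN q t m G := by
  unfold OmN
  congr 1
  · exact Finset.sum_congr rfl fun p hp => by
      have := Finset.mem_range.1 hp
      rw [h p p this this]
  · congr 1
    refine Finset.sum_congr rfl fun r hr => Finset.sum_congr rfl fun p hp => ?_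
    have h1 := Finset.mem_range.1 hp
    have h2 := Finset.mem_range.1 hr
    rw [h p r (h1.trans h2) h2]

theorem OmN_inv (q t : R) (m k : ℕ) (hk : k + 1 < m) (F : Sym2 ℕ → R) :
    OmN q t m (actS q t (k + 1) F) = OmN q t m F := by
  obtain ⟨d, rfl⟩ : ∃ d, m = k + 2 + d := ⟨m - (k + 2), by omega⟩
  clear hk
  have hS : actS q t (k + 1) F = actV q t 1 1 k (k + 1) F := rfl
  rw [hS]
  have hjk : k + 1 ≠ k := by omega
  induction d with
  | zero =>
    rw [Nat.add_zero, v2_succ, v2_succ, v2_succ, v2_succ, v2_ii, v2_jj _ _ _ _ _ _ _ hjk]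
    have h0 : OmN q t k (actV q t 1 1 k (k + 1) F) = OmN q t k F := by
      refine OmN_local q t k _ _ fun x y hx hy => ?_
      exact v2_off _ _ _ _ _ _ _ _ _ (by omega) (by omega) (by omega) (by omega)
    rw [h0, Finset.sum_range_succ, Finset.sum_range_succ, v2_ij _ _ _ _ _ _ _ hjk]
    have h1 : ∑ p ∈ Finset.range k, q ^ p * actV q t 1 1 k (k + 1) F s(p, k) =
        (1 - q) * ∑ p ∈ Finset.range k, q ^ p * F s(p, k) +
          q * ∑ p ∈ Finset.range k, q ^ p * F s(p, k + 1) := by
      rw [Finset.mul_sum, Finset.mul_sum, ← Finset.sum_add_distrib]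
      refine Finset.sum_congr rfl fun p hp => ?_
      have := Finset.mem_range.1 hp
      rw [v2_oi _ _ _ _ _ _ _ _ (by omega) (by omega)]
      ring
    have h2 : ∑ p ∈ Finset.range k, q ^ p * actV q t 1 1 k (k + 1) F s(p, k + 1) =
        ∑ p ∈ Finset.range k, q ^ p * F s(p, k) := by
      refine Finset.sum_congr rfl fun p hp => ?_
      have := Finset.mem_range.1 hp
      rw [v2_oj _ _ _ _ _ _ _ _ (by omega) (by omega) hjk]
      ring
    rw [h1, h2]
    ring
  | succ d ih =>
    rw [← add_assoc, v2_succ, v2_succ, ih, v2_off _ _ _ _ _ _ _ _ _ (by omega) (by omega) (by omega)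
      (by omega)]
    have hrow := v2_row q k d (fun p => F s(p, k + 2 + d))
      (fun p => actV q t 1 1 k (k + 1) F s(p, k + 2 + d)) (by
        show actV q t 1 1 k (k + 1) F s(k, k + 2 + d) = _
        rw [Sym2.eq_swap, v2_oi _ _ _ _ _ _ _ _ (by omega) (by omega), Sym2.eq_swap,
          Sym2.eq_swap (a := k + 2 + d) (b := k + 1)]
        ring) (by
        show actV q t 1 1 k (k + 1) F s(k + 1, k + 2 + d) = _
        rw [Sym2.eq_swap, v2_oj _ _ _ _ _ _ _ _ (by omega) (by omega) hjk, Sym2.eq_swap]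
        ring) (fun p h1 h2 => v2_off _ _ _ _ _ _ _ _ _ h1 h2 (by omega) (by omega))
    rw [hrow]

theorem OmN_add (q t : R) (m : ℕ) (F G : Sym2 ℕ → R) :
    OmN q t m (F + G) = OmN q t m F + OmN q t m G := by
  simp only [OmN, Pi.add_apply, mul_add, Finset.sum_add_distrib]
  ring

theorem OmN_smul (q t c : R) (m : ℕ) (F : Sym2 ℕ → R) :
    OmN q t m (c • F) = c * OmN q t m F := by
  simp only [OmN, Pi.smul_apply, smul_eq_mul, mul_add, Finset.mul_sum]
  congr 1
  · exact Finset.sum_congr rfl fun p _ => by ring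
  · exact Finset.sum_congr rfl fun r _ => Finset.sum_congr rfl fun p _ => by ring

theorem OmN_map {R' : Type} [CommRing R'] (f : R →+* R') (q t : R) (m : ℕ) (F : Sym2 ℕ → R) :
    OmN (f q) (f t) m (fun z => f (F z)) = f (OmN q t m F) := by
  simp only [OmN, map_add, map_mul, map_sub, map_one, map_pow, map_sum]
end

end Pool.Agent.VB

end Row_V2

section Row_V3

/-!
ROW V3: the K transform at t = 0 (paper 7.3).  Functions f : ℕ → ℕ → ℚ, only f i j with i < j matter.
kT F 0 j = F{j-1,j-1} - (1-q) sum_(0<l<j) q^(l-1) D(l,j), kT F i j = D(i,j) - (1-q) sum_(i<l<j) q^(l-i-1) D(l,j),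
D(l,j) = F{j-1,j-1} - F{l-1,j-1}.  Intertwining with kact for every k (k = 0 uses actS0 at t = 0: {0,0}: 0; {0,j}: -qF{0,j};
{i,j}: F{i,j} - qF{0,j}, i ≤ j).  Split the sum over l at l = k, k+1.  Useful: kT F i j = q kT F (i+1) j + D'(i,j) - D(i+1,j) for i+1 < j.
-/

namespace Pool.Agent.VB

open FreeGroup (of)

/-- `D(l,j)` -/
def dD (F : Sym2 ℕ → ℚ) (l j : ℕ) : ℚ := F s(j - 1, j - 1) - F s(l - 1, j - 1)

/-- the K transform at t = 0 -/
def kT (F : Sym2 ℕ → ℚ) (i j : ℕ) : ℚ :=
  (if i = 0 then F s(j - 1, j - 1) else dD F i j) -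
    (1 - q0) * ∑ l ∈ Finset.Ioo i j, q0 ^ (l - i - 1) * dD F l j

/-- `f . sigma_k` at t = 0 on functions of pairs `i < j` -/
def kact (k : ℕ) (f : ℕ → ℕ → ℚ) (i j : ℕ) : ℚ :=
  if i = k ∧ j = k + 1 then 0
  else if j = k then (1 - q0) * f i k + q0 * f i (k + 1)
  else if j = k + 1 then f i k
  else if i = k then q0 * f (k + 1) j
  else if i = k + 1 then f k j + (1 - q0) * f (k + 1) j
  else f i j

/-- the sum in the K transform -/
private def v3S (F : Sym2 ℕ → ℚ) (i j : ℕ) : ℚ := ∑ l ∈ Finset.Ioo i j, q0 ^ (l - i - 1) * dD F l j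

private theorem v3_self (F : Sym2 ℕ → ℚ) (i : ℕ) : v3S F i (i + 1) = 0 := by
  have h : Finset.Ioo i (i + 1) = ∅ := by
    ext l
    simp only [Finset.mem_Ioo, Finset.notMem_empty, iff_false]
    omega
  simp [v3S, h]

private theorem v3_succ (F : Sym2 ℕ → ℚ) (i j : ℕ) (h : i + 1 < j) :
    v3S F i j = dD F (i + 1) j + q0 * v3S F (i + 1) j := by
  have h1 : Finset.Ioo i j = insert (i + 1) (Finset.Ioo (i + 1) j) := by
    ext l
    simp only [Finset.mem_Ioo, Finset.mem_insert]
    omega
  have h2 : (i + 1) ∉ Finset.Ioo (i + 1) j := by simp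
  rw [v3S, h1, Finset.sum_insert h2, v3S, Finset.mul_sum]
  congr 1
  · rw [show i + 1 - i - 1 = 0 by omega, pow_zero, one_mul]
  · refine Finset.sum_congr rfl fun l hl => ?_
    have h3 := Finset.mem_Ioo.1 hl
    rw [show l - i - 1 = (l - (i + 1) - 1) + 1 by omega, pow_succ]
    ring

private theorem v3_congr (F G : Sym2 ℕ → ℚ) (i j : ℕ) (h : ∀ l, i < l → l < j → dD F l j = dD G l j) :
    v3S F i j = v3S G i j := by
  refine Finset.sum_congr rfl fun l hl => ?_
  have h3 := Finset.mem_Ioo.1 hl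
  rw [h l h3.1 h3.2]

private theorem v3_kT0 (F : Sym2 ℕ → ℚ) (j : ℕ) : kT F 0 (j + 1) = F s(j, j) - (1 - q0) * v3S F 0 (j + 1) := by
  simp [kT, v3S]

private theorem v3_kTs (F : Sym2 ℕ → ℚ) (i j : ℕ) (h : i ≠ 0) : kT F i j = dD F i j - (1 - q0) * v3S F i j := by
  simp [kT, v3S, h]

private theorem v3_d (F : Sym2 ℕ → ℚ) (l j : ℕ) : dD F (l + 1) (j + 1) = F s(j, j) - F s(l, j) := rfl

/-- downward induction -/
private theorem v3_down (P : ℕ → Prop) (k : ℕ) (h0 : P k) (h1 : ∀ i, i < k → P (i + 1) → P i) :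
    ∀ i, i ≤ k → P i := by
  intro i hi
  induction hi using Nat.decreasingInduction with
  | self => exact h0
  | of_succ m hm ih => exact h1 m hm ih

/-! ### the case `k = 0` -/

private theorem v3_zd1 (F : Sym2 ℕ → ℚ) (j : ℕ) (hj : j ≠ 0) : dD (actS q0 0 0 F) 1 (j + 1) = F s(j, j) := by
  have h1 : dD (actS q0 0 0 F) 1 (j + 1) = actS0 q0 0 F s(j, j) - actS0 q0 0 F s(0, j) := rfl
  rw [h1, actS0_ij _ _ _ _ _ hj le_rfl, actS0_0j _ _ _ _ hj]
  ring

private theorem v3_zd (F : Sym2 ℕ → ℚ) (l j : ℕ) (hl : 2 ≤ l) (hlj : l ≤ j) :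
    dD (actS q0 0 0 F) l j = dD F l j := by
  have h1 : dD (actS q0 0 0 F) l j = actS0 q0 0 F s(j - 1, j - 1) - actS0 q0 0 F s(l - 1, j - 1) := rfl
  rw [h1, actS0_ij _ _ _ _ _ (by omega) le_rfl, actS0_ij _ _ _ _ _ (by omega) (by omega), dD]
  ring

private theorem v3_zero (F : Sym2 ℕ → ℚ) (i j : ℕ) (h : i < j) :
    kT (actS q0 0 0 F) i j = kact 0 (kT F) i j := by
  obtain ⟨j, rfl⟩ : ∃ j', j = j' + 1 := ⟨j - 1, by omega⟩
  have hS : ∀ i, 1 ≤ i → v3S (actS q0 0 0 F) i (j + 1) = v3S F i (j + 1) := fun i hi =>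
    v3_congr _ _ _ _ fun l h1 h2 => v3_zd F l (j + 1) (by omega) (by omega)
  rcases Nat.eq_zero_or_pos i with rfl | hi
  · rcases Nat.eq_zero_or_pos j with rfl | hj
    · rw [v3_kT0, v3_self]
      have : actS q0 0 0 F s(0, 0) = actS0 q0 0 F s(0, 0) := rfl
      rw [this, actS0_00]
      simp [kact]
    · rw [v3_kT0, v3_succ _ 0 (j + 1) (by omega), zero_add, v3_zd1 F j (by omega), hS 1 le_rfl]
      have h1 : actS q0 0 0 F s(j, j) = actS0 q0 0 F s(j, j) := rfl
      rw [h1, actS0_ij _ _ _ _ _ (by omega) le_rfl]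
      have h2 : kact 0 (kT F) 0 (j + 1) = q0 * kT F 1 (j + 1) := by
        simp only [kact]
        rw [if_neg (by omega), if_neg (by omega), if_neg (by omega), if_pos trivial]
      rw [h2, v3_kTs _ _ _ one_ne_zero]
      have h3 : dD F 1 (j + 1) = F s(j, j) - F s(0, j) := rfl
      rw [h3]
      ring
  · rw [v3_kTs _ _ _ (by omega), hS i hi]
    rcases Nat.lt_or_ge i 2 with hi2 | hi2
    · obtain rfl : i = 1 := by omega
      have hj : j ≠ 0 := by omega
      rw [v3_zd1 F j hj]
      have h2 : kact 0 (kT F) 1 (j + 1) = kT F 0 (j + 1) + (1 - q0) * kT F 1 (j + 1) := by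
        simp only [kact]
        rw [if_neg (by omega), if_neg (by omega), if_neg (by omega), if_neg (by omega), if_pos trivial]
      rw [h2, v3_kT0, v3_kTs _ _ _ one_ne_zero, v3_succ _ 0 (j + 1) (by omega), zero_add]
      ring
    · rw [v3_zd F i (j + 1) hi2 (by omega)]
      have h2 : kact 0 (kT F) i (j + 1) = kT F i (j + 1) := by
        simp only [kact]
        rw [if_neg (by omega), if_neg (by omega), if_neg (by omega), if_neg (by omega), if_neg (by omega)]
      rw [h2, v3_kTs _ _ _ (by omega)]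

/-! ### the case `k + 1` -/

section succ
variable (k : ℕ) (F : Sym2 ℕ → ℚ)

private theorem v3_aa : actS q0 0 (k + 1) F s(k, k) =
    (1 - q0) * F s(k, k) + q0 * (1 - q0) * F s(k, k + 1) + q0 ^ 2 * F s(k + 1, k + 1) := by
  have h1 : actS q0 0 (k + 1) F = actV q0 0 1 1 k (k + 1) F := rfl
  rw [h1, actV_ii]
  ring

private theorem v3_ab : actS q0 0 (k + 1) F s(k, k + 1) = F s(k, k) := by
  have h1 : actS q0 0 (k + 1) F = actV q0 0 1 1 k (k + 1) F := rfl
  rw [h1, actV_ij _ _ _ _ _ _ _ (by omega)]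
  ring

private theorem v3_bb : actS q0 0 (k + 1) F s(k + 1, k + 1) = F s(k, k) := by
  have h1 : actS q0 0 (k + 1) F = actV q0 0 1 1 k (k + 1) F := rfl
  rw [h1, actV_jj _ _ _ _ _ _ _ (by omega)]
  ring

private theorem v3_ac (c : ℕ) (h : c ≠ k) (h' : c ≠ k + 1) :
    actS q0 0 (k + 1) F s(k, c) = (1 - q0) * F s(k, c) + q0 * F s(k + 1, c) := by
  have h1 : actS q0 0 (k + 1) F = actV q0 0 1 1 k (k + 1) F := rfl
  rw [h1, actV_ik _ _ _ _ _ _ _ c h h']
  ring

private theorem v3_bc (c : ℕ) (h : c ≠ k) (h' : c ≠ k + 1) :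
    actS q0 0 (k + 1) F s(k + 1, c) = F s(k, c) := by
  have h1 : actS q0 0 (k + 1) F = actV q0 0 1 1 k (k + 1) F := rfl
  rw [h1, actV_jk _ _ _ _ _ _ _ (by omega) c h h']
  ring

private theorem v3_cc (c d : ℕ) (h : c ≠ k) (h' : c ≠ k + 1) (h1 : d ≠ k) (h1' : d ≠ k + 1) :
    actS q0 0 (k + 1) F s(c, d) = F s(c, d) := by
  have h2 : actS q0 0 (k + 1) F = actV q0 0 1 1 k (k + 1) F := rfl
  rw [h2, actV_kl _ _ _ _ _ _ _ c d h h' h1 h1']

/-- `D'(l,j)`, nothing moved -/
private theorem v3_d0 (l j : ℕ) (hl : 1 ≤ l) (hj : 1 ≤ j) (h1 : l ≠ k + 1) (h2 : l ≠ k + 2) (h3 : j ≠ k + 1)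
    (h4 : j ≠ k + 2) : dD (actS q0 0 (k + 1) F) l j = dD F l j := by
  obtain ⟨l, rfl⟩ : ∃ l', l = l' + 1 := ⟨l - 1, by omega⟩
  obtain ⟨j, rfl⟩ : ∃ j', j = j' + 1 := ⟨j - 1, by omega⟩
  rw [v3_d, v3_d, v3_cc _ _ _ _ (by omega) (by omega) (by omega) (by omega),
    v3_cc _ _ _ _ (by omega) (by omega) (by omega) (by omega)]

private theorem v3_d1 (j : ℕ) (hj : 1 ≤ j) (h3 : j ≠ k + 1) (h4 : j ≠ k + 2) :
    dD (actS q0 0 (k + 1) F) (k + 1) j = (1 - q0) * dD F (k + 1) j + q0 * dD F (k + 2) j := by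
  obtain ⟨j, rfl⟩ : ∃ j', j = j' + 1 := ⟨j - 1, by omega⟩
  rw [v3_d, v3_d, v3_cc _ _ _ _ (by omega) (by omega) (by omega) (by omega), v3_ac _ _ _ (by omega) (by omega)]
  have h1 : dD F (k + 2) (j + 1) = F s(j, j) - F s(k + 1, j) := rfl
  rw [h1]
  ring

private theorem v3_d2 (j : ℕ) (hj : 1 ≤ j) (h3 : j ≠ k + 1) (h4 : j ≠ k + 2) :
    dD (actS q0 0 (k + 1) F) (k + 2) j = dD F (k + 1) j := by
  obtain ⟨j, rfl⟩ : ∃ j', j = j' + 1 := ⟨j - 1, by omega⟩
  have h1 : dD (actS q0 0 (k + 1) F) (k + 2) (j + 1) =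
      actS q0 0 (k + 1) F s(j, j) - actS q0 0 (k + 1) F s(k + 1, j) := rfl
  rw [h1, v3_d, v3_cc _ _ _ _ (by omega) (by omega) (by omega) (by omega), v3_bc _ _ _ (by omega) (by omega)]

/-- `D'(l,K)` -/
private theorem v3_d3 (l : ℕ) (hl : 1 ≤ l) (h1 : l ≤ k) :
    dD (actS q0 0 (k + 1) F) l (k + 1) = (1 - q0) * dD F l (k + 1) + q0 * dD F l (k + 2) -
      q0 * (1 - q0) * dD F (k + 1) (k + 2) := by
  obtain ⟨l, rfl⟩ : ∃ l', l = l' + 1 := ⟨l - 1, by omega⟩
  have h2 : dD F (l + 1) (k + 2) = F s(k + 1, k + 1) - F s(l, k + 1) := rfl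
  have h3 : dD F (k + 1) (k + 2) = F s(k + 1, k + 1) - F s(k, k + 1) := rfl
  rw [v3_d, v3_d, h2, h3, v3_aa, Sym2.eq_swap (a := l) (b := k), v3_ac _ _ _ (by omega) (by omega),
    Sym2.eq_swap (a := k) (b := l), Sym2.eq_swap (a := k + 1) (b := l)]
  ring

/-- `D'(l,K+1)` -/
private theorem v3_d4 (l : ℕ) (hl : 1 ≤ l) (h1 : l ≤ k) :
    dD (actS q0 0 (k + 1) F) l (k + 2) = dD F l (k + 1) := by
  obtain ⟨l, rfl⟩ : ∃ l', l = l' + 1 := ⟨l - 1, by omega⟩
  have h2 : dD (actS q0 0 (k + 1) F) (l + 1) (k + 2) =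
      actS q0 0 (k + 1) F s(k + 1, k + 1) - actS q0 0 (k + 1) F s(l, k + 1) := rfl
  rw [h2, v3_d, v3_bb, Sym2.eq_swap (a := l) (b := k + 1), v3_bc _ _ _ (by omega) (by omega),
    Sym2.eq_swap (a := k) (b := l)]

private theorem v3_d5 : dD (actS q0 0 (k + 1) F) (k + 1) (k + 2) = 0 := by
  have h2 : dD (actS q0 0 (k + 1) F) (k + 1) (k + 2) =
      actS q0 0 (k + 1) F s(k + 1, k + 1) - actS q0 0 (k + 1) F s(k, k + 1) := rfl
  rw [h2, v3_bb, v3_ab, sub_self]

/-- `S'(i,j) = S(i,j)` for `K + 1 ≤ i` -/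
private theorem v3_s0 (i j : ℕ) (hi : k + 2 ≤ i) :
    v3S (actS q0 0 (k + 1) F) i j = v3S F i j :=
  v3_congr _ _ _ _ fun l h1 h2 => v3_d0 k F l j (by omega) (by omega) (by omega) (by omega) (by omega) (by omega)

/-- `S'(i,j) = S(i,j)` for `j < K` -/
private theorem v3_s0' (i j : ℕ) (hi : j ≤ k) :
    v3S (actS q0 0 (k + 1) F) i j = v3S F i j :=
  v3_congr _ _ _ _ fun l h1 h2 => v3_d0 k F l j (by omega) (by omega) (by omega) (by omega) (by omega) (by omega)

private theorem v3_s1 (j : ℕ) (h : k + 2 < j) :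
    v3S (actS q0 0 (k + 1) F) (k + 1) j = dD F (k + 1) j + q0 * v3S F (k + 2) j := by
  rw [v3_succ _ _ _ (by omega), show k + 1 + 1 = k + 2 from rfl, v3_d2 k F j (by omega) (by omega) (by omega),
    v3_s0 k F _ _ le_rfl]

private theorem v3_s2 (j : ℕ) (h : k + 2 < j) : ∀ i, i ≤ k → v3S (actS q0 0 (k + 1) F) i j = v3S F i j := by
  apply v3_down
  · rw [v3_succ _ _ _ (by omega), v3_d1 k F j (by omega) (by omega) (by omega), v3_s1 k F j h,
      v3_succ F k j (by omega), v3_succ F (k + 1) j (by omega)]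
    ring
  · intro i hi ih
    rw [v3_succ _ _ _ (by omega), v3_succ F _ _ (by omega), ih,
      v3_d0 k F (i + 1) j (by omega) (by omega) (by omega) (by omega) (by omega) (by omega)]

private theorem v3_s3 : ∀ i, i ≤ k → v3S (actS q0 0 (k + 1) F) i (k + 1) =
    (1 - q0) * v3S F i (k + 1) + q0 * v3S F i (k + 2) - q0 * dD F (k + 1) (k + 2) := by
  apply v3_down
  · rw [v3_self, v3_self, v3_succ F k (k + 2) (by omega), v3_self F (k + 1)]
    ring
  · intro i hi ih
    rw [v3_succ _ _ _ (by omega), v3_succ F i (k + 1) (by omega), v3_succ F i (k + 2) (by omega), ih,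
      v3_d3 k F (i + 1) (by omega) (by omega)]
    ring

private theorem v3_s4 : ∀ i, i ≤ k → v3S (actS q0 0 (k + 1) F) i (k + 2) = v3S F i (k + 1) := by
  apply v3_down
  · rw [v3_self, v3_succ _ k (k + 2) (by omega), v3_self _ (k + 1), v3_d5]
    ring
  · intro i hi ih
    rw [v3_succ _ _ _ (by omega), v3_succ F i (k + 1) (by omega), ih, v3_d4 k F (i + 1) (by omega) (by omega)]

end succ

private theorem v3_main (k : ℕ) (F : Sym2 ℕ → ℚ) (i j : ℕ) (h : i < j) :
    kT (actS q0 0 (k + 1) F) i j = kact (k + 1) (kT F) i j := by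
  by_cases hj1 : j = k + 1
  · subst hj1
    have h2 : kact (k + 1) (kT F) i (k + 1) = (1 - q0) * kT F i (k + 1) + q0 * kT F i (k + 1 + 1) := by
      simp only [kact]
      rw [if_neg (by omega), if_pos trivial]
    rw [h2]
    rcases Nat.eq_zero_or_pos i with rfl | hi
    · rw [v3_kT0, v3_kT0, v3_kT0, v3_s3 k F 0 (by omega), v3_aa]
      have h3 : dD F (k + 1) (k + 2) = F s(k + 1, k + 1) - F s(k, k + 1) := rfl
      rw [h3]
      ring
    · rw [v3_kTs _ _ _ (by omega), v3_kTs _ _ _ (by omega), v3_kTs _ _ _ (by omega), v3_s3 k F i (by omega),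
        v3_d3 k F i hi (by omega)]
      ring
  by_cases hj2 : j = k + 2
  · subst hj2
    by_cases hi1 : i = k + 1
    · subst hi1
      have h2 : kact (k + 1) (kT F) (k + 1) (k + 2) = 0 := by
        rw [kact, if_pos ⟨rfl, rfl⟩]
      rw [h2, v3_kTs _ _ _ (by omega), v3_self _ (k + 1), v3_d5]
      ring
    · have h2 : kact (k + 1) (kT F) i (k + 2) = kT F i (k + 1) := by
        rw [kact, if_neg (by omega), if_neg (by omega), if_pos rfl]
      rw [h2]
      rcases Nat.eq_zero_or_pos i with rfl | hi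
      · rw [v3_kT0, v3_kT0, v3_s4 k F 0 (by omega), v3_bb]
      · rw [v3_kTs _ _ _ (by omega), v3_kTs _ _ _ (by omega), v3_s4 k F i (by omega),
          v3_d4 k F i hi (by omega)]
  by_cases hi1 : i = k + 1
  · subst hi1
    have h2 : kact (k + 1) (kT F) (k + 1) j = q0 * kT F (k + 2) j := by
      simp only [kact]
      rw [if_neg (by omega), if_neg (by omega), if_neg (by omega), if_pos trivial]
    rw [h2, v3_kTs _ _ _ (by omega), v3_kTs _ _ _ (by omega), v3_s1 k F j (by omega),
      v3_d1 k F j (by omega) hj1 hj2]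
    ring
  by_cases hi2 : i = k + 2
  · subst hi2
    have h2 : kact (k + 1) (kT F) (k + 2) j = kT F (k + 1) j + (1 - q0) * kT F (k + 2) j := by
      simp only [kact]
      rw [if_neg (by omega), if_neg (by omega), if_neg (by omega), if_neg (by omega), if_pos trivial]
    rw [h2, v3_kTs _ _ _ (by omega), v3_kTs _ _ _ (by omega), v3_kTs _ _ _ (by omega), v3_s0 k F _ _ le_rfl,
      v3_d2 k F j (by omega) hj1 hj2, v3_succ F (k + 1) j (by omega)]
    ring
  have h2 : kact (k + 1) (kT F) i j = kT F i j := by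
    simp only [kact]
    rw [if_neg (by omega), if_neg (by omega), if_neg (by omega), if_neg (by omega), if_neg (by omega)]
  have hS : v3S (actS q0 0 (k + 1) F) i j = v3S F i j := by
    by_cases h3 : k + 2 ≤ i
    · exact v3_s0 k F i j h3
    · by_cases h4 : j ≤ k
      · exact v3_s0' k F i j h4
      · exact v3_s2 k F j (by omega) i (by omega)
  rw [h2]
  rcases Nat.eq_zero_or_pos i with rfl | hi
  · obtain ⟨j, rfl⟩ : ∃ j', j = j' + 1 := ⟨j - 1, by omega⟩
    rw [v3_kT0, v3_kT0, hS, v3_cc _ _ _ _ (by omega) (by omega) (by omega) (by omega)]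
  · rw [v3_kTs _ _ _ (by omega), v3_kTs _ _ _ (by omega), hS,
      v3_d0 k F i j hi (by omega) hi1 hi2 hj1 hj2]

theorem kT_act (k : ℕ) (F : Sym2 ℕ → ℚ) (i j : ℕ) (h : i < j) :
    kT (actS q0 0 k F) i j = kact k (kT F) i j := by
  cases k with
  | zero => exact v3_zero F i j h
  | succ k => exact v3_main k F i j h

end Pool.Agent.VB

end Row_V3

section Row_V4

/-!
ROW V4: K transform: surjectivity and special values.  (1) for every f there is F with kT F i j = f i j for all i < j:
F{j-1,j-1} = Fh 0 j, D(l,j) = Fh l j with Fh i j = f i j + (1-q) sum_(i<l<j) f l j, i.e. F{l-1,j-1} = Fh 0 j - Fh l j for 1 ≤ l < j.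
(check: Fh i j - (1-q) sum_(i<l<j) q^(l-i-1) Fh l j = f i j.)  (2) kT 1 i j = [i = 0]; (3) kT (EE (m-1)) i j = 0 for j ≠ m, > 0 for j = m
(q^(m-1) for i = 0, q^(m-1-i) for 1 ≤ i < m); here with m+1 for m.  (4) OmN q 0 m F = sum_(j=1..m) q^(j-1) kT F 0 j.
-/

namespace Pool.Agent.VB

open FreeGroup (of)

private theorem v4_Ioo (i j : ℕ) (h : i + 1 < j) (g : ℕ → ℚ) :
    ∑ l ∈ Finset.Ioo i j, g l = g (i + 1) + ∑ l ∈ Finset.Ioo (i + 1) j, g l := by
  have h1 : Finset.Ioo i j = Finset.Ico (i + 1) j := by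
    ext x; simp only [Finset.mem_Ioo, Finset.mem_Ico]; omega
  have h2 : Finset.Ioo (i + 1) j = Finset.Ico (i + 1 + 1) j := by
    ext x; simp only [Finset.mem_Ioo, Finset.mem_Ico]; omega
  rw [h1, h2]
  exact Finset.sum_eq_sum_Ico_succ_bot h g

private theorem v4_Ioo_range (i d : ℕ) (g : ℕ → ℚ) :
    ∑ l ∈ Finset.Ioo i (i + 1 + d), g l = ∑ l ∈ Finset.range d, g (i + 1 + l) := by
  have h1 : Finset.Ioo i (i + 1 + d) = Finset.Ico (i + 1) (i + 1 + d) := by
    ext x; simp only [Finset.mem_Ioo, Finset.mem_Ico]; omega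
  rw [h1, Finset.sum_Ico_eq_sum_range]
  congr 2
  omega

private noncomputable def v4_Fh (f : ℕ → ℕ → ℚ) (i j : ℕ) : ℚ :=
  f i j + (1 - q0) * ∑ l ∈ Finset.Ioo i j, f l j

private theorem v4_ST (f : ℕ → ℕ → ℚ) (d i : ℕ) :
    ∑ l ∈ Finset.Ioo i (i + 1 + d), q0 ^ (l - i - 1) * v4_Fh f l (i + 1 + d) =
      ∑ l ∈ Finset.Ioo i (i + 1 + d), f l (i + 1 + d) := by
  induction d generalizing i with
  | zero =>
    rw [v4_Ioo_range, v4_Ioo_range]
    simp
  | succ d ih =>
    have e : i + 1 + (d + 1) = (i + 1) + 1 + d := by omega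
    rw [v4_Ioo _ _ (by omega), v4_Ioo i (i + 1 + (d + 1)) (by omega) (fun l => f l _), e]
    have ih' := ih (i + 1)
    have h1 : ∑ l ∈ Finset.Ioo (i + 1) (i + 1 + 1 + d),
        q0 ^ (l - i - 1) * v4_Fh f l (i + 1 + 1 + d) =
        q0 * ∑ l ∈ Finset.Ioo (i + 1) (i + 1 + 1 + d),
        q0 ^ (l - (i + 1) - 1) * v4_Fh f l (i + 1 + 1 + d) := by
      rw [Finset.mul_sum]
      refine Finset.sum_congr rfl fun l hl => ?_
      have := Finset.mem_Ioo.1 hl
      have e2 : l - i - 1 = (l - (i + 1) - 1) + 1 := by omega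
      rw [e2, pow_succ]
      ring
    rw [h1, ih']
    have e3 : i + 1 - i - 1 = 0 := by omega
    rw [e3, pow_zero, one_mul, v4_Fh]
    ring

private noncomputable def v4_F (f : ℕ → ℕ → ℚ) (z : Sym2 ℕ) : ℚ :=
  Sym2.lift ⟨fun x y => if x = y then v4_Fh f 0 (x + 1)
    else v4_Fh f 0 (max x y + 1) - v4_Fh f (min x y + 1) (max x y + 1), fun x y => by
      simp only [max_comm x y, min_comm x y]
      by_cases h : x = y
      · subst h; rfl
      · rw [if_neg h, if_neg (Ne.symm h)]⟩ z

private theorem v4_F_mk (f : ℕ → ℕ → ℚ) (x y : ℕ) : v4_F f s(x, y) =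
    if x = y then v4_Fh f 0 (x + 1)
    else v4_Fh f 0 (max x y + 1) - v4_Fh f (min x y + 1) (max x y + 1) := rfl

private theorem v4_D (f : ℕ → ℕ → ℚ) (l j : ℕ) (hl : 1 ≤ l) (hj : l < j) :
    dD (v4_F f) l j = v4_Fh f l j := by
  unfold dD
  rw [v4_F_mk, v4_F_mk, if_pos rfl, if_neg (by omega)]
  have e1 : max (l - 1) (j - 1) + 1 = j := by omega
  have e2 : min (l - 1) (j - 1) + 1 = l := by omega
  have e3 : j - 1 + 1 = j := by omega
  rw [e1, e2, e3]
  ring

theorem kT_surj (f : ℕ → ℕ → ℚ) : ∃ F : Sym2 ℕ → ℚ, ∀ i j, i < j → kT F i j = f i j := by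
  refine ⟨v4_F f, fun i j hij => ?_⟩
  have h1 : (if i = 0 then v4_F f s(j - 1, j - 1) else dD (v4_F f) i j) = v4_Fh f i j := by
    split_ifs with h
    · rw [v4_F_mk, if_pos rfl, h]
      have e3 : j - 1 + 1 = j := by omega
      rw [e3]
    · exact v4_D f i j (by omega) hij
  have h2 : ∑ l ∈ Finset.Ioo i j, q0 ^ (l - i - 1) * dD (v4_F f) l j =
      ∑ l ∈ Finset.Ioo i j, q0 ^ (l - i - 1) * v4_Fh f l j := by
    refine Finset.sum_congr rfl fun l hl => ?_
    have := Finset.mem_Ioo.1 hl
    rw [v4_D f l j (by omega) this.2]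
  unfold kT
  rw [h1, h2]
  obtain ⟨d, rfl⟩ : ∃ d, j = i + 1 + d := ⟨j - (i + 1), by omega⟩
  rw [v4_ST, v4_Fh]
  ring

theorem kT_one (i j : ℕ) (h : i < j) : kT (fun _ => 1) i j = if i = 0 then 1 else 0 := by
  unfold kT
  have : ∀ l, dD (fun _ => 1) l j = 0 := fun l => by unfold dD; ring
  simp only [this, mul_zero, Finset.sum_const_zero, sub_zero]

private theorem v4_geom (i d : ℕ) :
    (1 - q0) * ∑ l ∈ Finset.Ioo i (i + 1 + d), q0 ^ (l - i - 1) = 1 - q0 ^ d := by
  rw [v4_Ioo_range, ← mul_neg_geom_sum q0 d]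
  congr 1
  refine Finset.sum_congr rfl fun l _ => ?_
  congr 1
  omega

private theorem v4_EE (p x y : ℕ) : (EE p s(x, y) : ℚ) = if x = p ∧ y = p then 1 else 0 := by
  unfold EE
  congr 1
  rw [Sym2.eq_iff]
  simp

theorem kT_E (m i j : ℕ) (h : i < j) :
    (j ≠ m + 1 → kT (EE m) i j = 0) ∧ (j = m + 1 → 0 < kT (EE m) i j) := by
  constructor
  · intro hj
    have h1 : ∀ x, (EE m s(x, j - 1) : ℚ) = 0 := by
      intro x
      rw [v4_EE, if_neg (by omega)]
    have h2 : ∀ l, dD (EE m) l j = 0 := by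
      intro l
      unfold dD
      rw [h1, h1, sub_zero]
    unfold kT
    simp only [h1, h2, mul_zero, Finset.sum_const_zero, sub_zero, ite_self]
  · intro hj
    subst hj
    have e0 : m + 1 - 1 = m := by omega
    have h2 : ∀ l, 1 ≤ l → l < m + 1 → dD (EE m) l (m + 1) = 1 := by
      intro l h3 h4
      unfold dD
      rw [e0, v4_EE, v4_EE, if_pos ⟨rfl, rfl⟩, if_neg (by omega), sub_zero]
    have h1 : (if i = 0 then (EE m s(m + 1 - 1, m + 1 - 1) : ℚ) else dD (EE m) i (m + 1)) = 1 := by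
      split_ifs with h3
      · rw [e0, v4_EE, if_pos ⟨rfl, rfl⟩]
      · exact h2 i (by omega) h
    unfold kT
    rw [h1]
    have h3 : ∑ l ∈ Finset.Ioo i (m + 1), q0 ^ (l - i - 1) * dD (EE m) l (m + 1) =
        ∑ l ∈ Finset.Ioo i (m + 1), q0 ^ (l - i - 1) := by
      refine Finset.sum_congr rfl fun l hl => ?_
      have := Finset.mem_Ioo.1 hl
      rw [h2 l (by omega) this.2, mul_one]
    rw [h3]
    obtain ⟨d, rfl⟩ : ∃ d, m = i + d := ⟨m - i, by omega⟩
    have e4 : i + d + 1 = i + 1 + d := by omega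
    rw [e4, v4_geom]
    have : 0 < q0 ^ d := pow_pos (by norm_num [q0]) d
    linarith

theorem OmN_kT (m : ℕ) (F : Sym2 ℕ → ℚ) :
    OmN q0 0 m F = ∑ j ∈ Finset.range m, q0 ^ j * kT F 0 (j + 1) := by
  have key : ∀ j, kT F 0 (j + 1) = q0 ^ j * F s(j, j) +
      (1 - q0) * ∑ p ∈ Finset.range j, q0 ^ p * F s(p, j) := by
    intro j
    unfold kT
    have e1 : j + 1 - 1 = j := by omega
    rw [if_pos rfl, e1]
    have e2 : ∑ l ∈ Finset.Ioo 0 (j + 1), q0 ^ (l - 0 - 1) * dD F l (j + 1) =
        F s(j, j) * ∑ l ∈ Finset.Ioo 0 (0 + 1 + j), q0 ^ (l - 0 - 1) -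
          ∑ p ∈ Finset.range j, q0 ^ p * F s(p, j) := by
      have e3 : j + 1 = 0 + 1 + j := by omega
      rw [e3, v4_Ioo_range, v4_Ioo_range, Finset.mul_sum, ← Finset.sum_sub_distrib]
      refine Finset.sum_congr rfl fun l _ => ?_
      unfold dD
      have e4 : 0 + 1 + l - 0 - 1 = l := by omega
      have e5 : 0 + 1 + j - 1 = j := by omega
      have e6 : 0 + 1 + l - 1 = l := by omega
      rw [e4, e5, e6]
      ring
    rw [e2, mul_sub, mul_left_comm, v4_geom]
    ring
  unfold OmN
  simp only [key, mul_add, Finset.sum_add_distrib, Finset.mul_sum]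
  congr 1
  · refine Finset.sum_congr rfl fun p _ => ?_
    ring
  · refine Finset.sum_congr rfl fun p _ => Finset.sum_congr rfl fun r _ => ?_
    ring

end Pool.Agent.VB

end Row_V4

section Row_V5

/-!
ROW V5: positivity and supports for the K action at t = 0.  kw w f = f . w (foldl).  (1) f ≥ 0 on pairs i<j implies kw w f ≥ 0.
(2) linear: kw of sums/multiples; (3) if f ≥ 0, β = (i0,j0) with f i0 j0 > 0 and kw w f = 0 on all pairs then kw w (delta β) = 0 on all pairs
(f ≥ f(β) delta_β).  Pointwise only on pairs i < j (kact uses only such values for such pairs).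
-/

namespace Pool.Agent.VB

open FreeGroup (of)

/-- action of a word -/
def kw (w : List ℕ) (f : ℕ → ℕ → ℚ) : ℕ → ℕ → ℚ := w.foldl (fun f k => kact k f) f

/-- zero on all pairs -/
def KZ (f : ℕ → ℕ → ℚ) : Prop := ∀ i j, i < j → f i j = 0

/-- non negative on all pairs -/
def KN (f : ℕ → ℕ → ℚ) : Prop := ∀ i j, i < j → 0 ≤ f i j

/-- indicator of the pair `(a,b)` -/
def kd (a b : ℕ) (i j : ℕ) : ℚ := if i = a ∧ j = b then 1 else 0

theorem kw_cons (k : ℕ) (w : List ℕ) (f : ℕ → ℕ → ℚ) : kw (k :: w) f = kw w (kact k f) := rfl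

theorem kw_append (w w' : List ℕ) (f : ℕ → ℕ → ℚ) : kw (w ++ w') f = kw w' (kw w f) := by
  simp [kw, List.foldl_append]

private theorem v5_congr (k : ℕ) (f g : ℕ → ℕ → ℚ) (h : ∀ i j, i < j → f i j = g i j)
    (i j : ℕ) (hij : i < j) : kact k f i j = kact k g i j := by
  unfold kact
  split_ifs with h1 h2 h3 h4 h5
  · rfl
  · rw [h i k (by omega), h i (k + 1) (by omega)]
  · rw [h i k (by omega)]
  · rw [h (k + 1) j (by omega)]
  · rw [h k j (by omega), h (k + 1) j (by omega)]
  · exact h i j hij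

theorem kw_congr (w : List ℕ) (f g : ℕ → ℕ → ℚ) (h : ∀ i j, i < j → f i j = g i j)
    (i j : ℕ) (hij : i < j) : kw w f i j = kw w g i j := by
  induction w generalizing f g with
  | nil => exact h i j hij
  | cons k w ih =>
    rw [kw_cons, kw_cons]
    exact ih _ _ (v5_congr k f g h)

private theorem v5_q : (0 : ℚ) ≤ q0 ∧ (0 : ℚ) ≤ 1 - q0 := by
  constructor <;> norm_num [q0]

theorem kw_nonneg (w : List ℕ) (f : ℕ → ℕ → ℚ) (h : KN f) : KN (kw w f) := by
  induction w generalizing f with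
  | nil => exact h
  | cons k w ih =>
    rw [kw_cons]
    refine ih _ ?_
    intro i j hij
    obtain ⟨q1, q2⟩ := v5_q
    unfold kact
    split_ifs with h1 h2 h3 h4 h5
    · exact le_rfl
    · exact add_nonneg (mul_nonneg q2 (h i k (by omega))) (mul_nonneg q1 (h i (k + 1) (by omega)))
    · exact h i k (by omega)
    · exact mul_nonneg q1 (h (k + 1) j (by omega))
    · exact add_nonneg (h k j (by omega)) (mul_nonneg q2 (h (k + 1) j (by omega)))
    · exact h i j hij

private theorem v5_lin (w : List ℕ) (c : ℚ) (f g : ℕ → ℕ → ℚ) :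
    kw w (fun i j => c * f i j + g i j) = fun i j => c * kw w f i j + kw w g i j := by
  induction w generalizing f g with
  | nil => rfl
  | cons k w ih =>
    rw [kw_cons, kw_cons, kw_cons, ← ih]
    congr 1
    funext i j
    unfold kact
    split_ifs <;> ring

theorem kw_zero_of (w : List ℕ) (f : ℕ → ℕ → ℚ) (h : KN f) (a b : ℕ) (hab : a < b)
    (hf : 0 < f a b) (hz : KZ (kw w f)) : KZ (kw w (kd a b)) := by
  have hg : KN (fun i j => f i j - f a b * kd a b i j) := by
    intro i j hij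
    show 0 ≤ f i j - f a b * kd a b i j
    unfold kd
    split_ifs with h1
    · rw [h1.1, h1.2]; linarith
    · rw [mul_zero, sub_zero]; exact h i j hij
  have hd : KN (kd a b) := by
    intro i j _
    unfold kd
    split_ifs <;> norm_num
  have e : f = fun i j => f a b * kd a b i j + (f i j - f a b * kd a b i j) := by
    funext i j; ring
  have e2 := v5_lin w (f a b) (kd a b) (fun i j => f i j - f a b * kd a b i j)
  rw [← e] at e2
  intro i j hij
  have h1 := hz i j hij
  rw [e2] at h1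
  have h2 := kw_nonneg w _ hg i j hij
  have h3 := kw_nonneg w _ hd i j hij
  have h4 : 0 ≤ f a b * kw w (kd a b) i j := mul_nonneg hf.le h3
  have h5 : f a b * kw w (kd a b) i j = 0 := by
    have : f a b * kw w (kd a b) i j + kw w (fun i j => f i j - f a b * kd a b i j) i j = 0 := h1
    linarith
  rcases mul_eq_zero.1 h5 with h6 | h6
  · exact absurd h6 hf.ne'
  · exact h6

theorem kw_kT (w : List ℕ) (F : Sym2 ℕ → ℚ) (i j : ℕ) (h : i < j) :
    kT (actW q0 0 w F) i j = kw w (kT F) i j := by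
  induction w generalizing F with
  | nil => rfl
  | cons k w ih =>
    rw [kw_cons]
    show kT (actW q0 0 w (actS q0 0 k F)) i j = _
    rw [ih]
    exact kw_congr w _ _ (fun i j h => kT_act k F i j h) i j h

end Pool.Agent.VB

end Row_V5

section Row_V6

/-!
ROW V6: C = sigma_1 ... sigma_(m-1) (m-1 = n letters 1..n) at t = 0 kills after n times the functions supported on i ≥ 1.
Let f vanish on (0,j), j ≤ n+1 (and we only look at pairs with j ≤ n+1).  Closed form of f_k = kw [1..k] f for pairs i<j≤n+1, i≥1: j ≤ k: q^2 f(i+1,j+1);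
j = k+1: 0; j > k+1, i ≤ k: q f(i+1,j); i = k+1 < j: f(1,j) + (1-q) sum_(l=2..k+1) f(l,j); i > k+1: f(i,j); and f_k(0,j) = 0 for all j ≤ n+1.
So kw [1..n] f (i,j) = q^2 f(i+1,j+1) if j ≤ n, 0 if j = n+1, and 0 for i = 0.  Iterating n times gives 0.
-/

namespace Pool.Agent.VB

open FreeGroup (of)

/-- closed form of `f . sigma_1 ... sigma_k` -/
private def v6_cf (f : ℕ → ℕ → ℚ) (k i j : ℕ) : ℚ :=
  if i = 0 then 0
  else if j ≤ k then q0 ^ 2 * f (i + 1) (j + 1)
  else if j = k + 1 then 0
  else if i ≤ k then q0 * f (i + 1) j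
  else if i = k + 1 then f 1 j + (1 - q0) * ∑ l ∈ Finset.range k, f (l + 2) j
  else f i j

private theorem v6_closed (n : ℕ) (f : ℕ → ℕ → ℚ) (h0 : ∀ j, 1 ≤ j → j ≤ n + 1 → f 0 j = 0)
    (k : ℕ) (hk : k ≤ n) (hk1 : 1 ≤ k) (i j : ℕ) (hij : i < j) (hj : j ≤ n + 1) :
    kw (List.range' 1 k) f i j = v6_cf f k i j := by
  induction k generalizing i j with
  | zero => omega
  | succ k ih =>
    have e : kw (List.range' 1 (k + 1)) f = kact (k + 1) (kw (List.range' 1 k) f) := by
      rw [List.range'_1_concat, kw_append, add_comm 1 k]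
      rfl
    rw [e]
    rcases Nat.eq_zero_or_pos k with hk0 | hk0
    · subst hk0
      have e1 : kw (List.range' 1 0) f = f := rfl
      rw [e1]
      unfold kact v6_cf
      by_cases hi : i = 0
      · subst hi
        rw [if_pos rfl]
        rw [if_neg (by omega)]
        by_cases hj1 : j = 0 + 1
        · rw [if_pos hj1, h0 (0 + 1) (by omega) (by omega), h0 (0 + 1 + 1) (by omega) (by omega)]
          ring
        rw [if_neg hj1]
        by_cases hj2 : j = 0 + 1 + 1
        · rw [if_pos hj2, h0 (0 + 1) (by omega) (by omega)]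
        rw [if_neg hj2, if_neg (by omega), if_neg (by omega), h0 j (by omega) hj]
      rw [if_neg hi]
      by_cases hj1 : j = 0 + 1
      · omega
      by_cases hj2 : j = 0 + 1 + 1
      · have hi1 : i = 0 + 1 := by omega
        rw [if_pos ⟨hi1, hj2⟩, if_neg (by omega), if_pos hj2]
      rw [if_neg (by omega), if_neg hj1, if_neg hj2]
      by_cases hi1 : i = 0 + 1
      · rw [if_pos hi1, if_neg (by omega : ¬ j ≤ 0 + 1), if_neg hj2, if_pos (by omega : i ≤ 0 + 1),
          hi1]
      rw [if_neg hi1, if_neg (by omega : ¬ j ≤ 0 + 1), if_neg hj2, if_neg (by omega : ¬ i ≤ 0 + 1)]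
      by_cases hi2 : i = 0 + 1 + 1
      · rw [if_pos hi2, if_pos hi2]
        simp
      rw [if_neg hi2, if_neg hi2]
    · have ih' := ih (by omega) hk0
      unfold kact
      by_cases c1 : i = k + 1 ∧ j = k + 1 + 1
      · rw [if_pos c1]
        unfold v6_cf
        rw [if_neg (by omega), if_neg (by omega), if_pos c1.2]
      rw [if_neg c1]
      by_cases c2 : j = k + 1
      · subst c2
        rw [if_pos rfl, ih' i (k + 1) hij hj, ih' i (k + 1 + 1) (by omega) (by omega)]
        unfold v6_cf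
        by_cases hi : i = 0
        · rw [if_pos hi, if_pos hi, if_pos hi]; ring
        rw [if_neg hi, if_neg hi, if_neg hi, if_neg (by omega), if_pos rfl, if_neg (by omega),
          if_neg (by omega), if_pos (by omega), if_pos (by omega)]
        ring
      rw [if_neg c2]
      by_cases c3 : j = k + 1 + 1
      · subst c3
        rw [if_pos rfl, ih' i (k + 1) (by omega) (by omega)]
        unfold v6_cf
        by_cases hi : i = 0
        · rw [if_pos hi, if_pos hi]
        rw [if_neg hi, if_neg hi, if_neg (by omega), if_pos rfl, if_neg (by omega), if_pos rfl]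
      rw [if_neg c3]
      by_cases c4 : i = k + 1
      · subst c4
        rw [if_pos rfl, ih' (k + 1 + 1) j (by omega) hj]
        unfold v6_cf
        rw [if_neg (by omega), if_neg (by omega), if_neg (by omega), if_neg (by omega),
          if_neg (by omega), if_neg (by omega), if_neg (by omega), if_neg (by omega),
          if_pos (by omega)]
      rw [if_neg c4]
      by_cases c5 : i = k + 1 + 1
      · subst c5
        rw [if_pos rfl, ih' (k + 1) j (by omega) hj, ih' (k + 1 + 1) j (by omega) hj]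
        unfold v6_cf
        rw [if_neg (by omega), if_neg (by omega), if_neg (by omega), if_neg (by omega),
          if_pos rfl, if_neg (by omega), if_neg (by omega), if_neg (by omega), if_neg (by omega),
          if_neg (by omega), if_neg (by omega), if_neg (by omega), if_neg (by omega),
          if_neg (by omega), if_pos rfl, Finset.sum_range_succ]
        ring
      rw [if_neg c5, ih' i j hij hj]
      unfold v6_cf
      by_cases hi : i = 0
      · rw [if_pos hi, if_pos hi]
      rw [if_neg hi, if_neg hi]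
      by_cases c6 : j ≤ k
      · rw [if_pos c6, if_pos (by omega)]
      rw [if_neg c6, if_neg c2, if_neg (by omega : ¬ j ≤ k + 1), if_neg c3]
      by_cases c7 : i ≤ k
      · rw [if_pos c7, if_pos (by omega)]
      rw [if_neg c7, if_neg c4, if_neg (by omega : ¬ i ≤ k + 1), if_neg c5]

private theorem v6_kill (n s : ℕ) (hn : 1 ≤ n) (f : ℕ → ℕ → ℚ)
    (h0 : ∀ j, 1 ≤ j → j ≤ n + 1 → f 0 j = 0)
    (h1 : ∀ i j, i < j → j ≤ n + 1 → s + 2 ≤ j → f i j = 0)
    (i j : ℕ) (hij : i < j) (hj : j ≤ n + 1) :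
    kw ((List.replicate s (List.range' 1 n)).flatten) f i j = 0 := by
  induction s generalizing f with
  | zero =>
    show f i j = 0
    by_cases h : 2 ≤ j
    · exact h1 i j hij hj (by omega)
    · have hi : i = 0 := by omega
      subst hi
      exact h0 j (by omega) hj
  | succ s ih =>
    rw [List.replicate_succ, List.flatten_cons, kw_append]
    refine ih _ ?_ ?_
    · intro j hj1 hj2
      rw [v6_closed n f h0 n le_rfl hn 0 j (by omega) hj2]
      unfold v6_cf
      rw [if_pos rfl]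
    · intro i j hij hj hs
      rw [v6_closed n f h0 n le_rfl hn i j hij hj]
      unfold v6_cf
      by_cases hi : i = 0
      · rw [if_pos hi]
      rw [if_neg hi]
      by_cases hj2 : j ≤ n
      · rw [if_pos hj2, h1 (i + 1) (j + 1) (by omega) (by omega) (by omega), mul_zero]
      · rw [if_neg hj2, if_pos (by omega)]

theorem kw_C_kill (n : ℕ) (f : ℕ → ℕ → ℚ) (h0 : ∀ j, 1 ≤ j → j ≤ n + 1 → f 0 j = 0)
    (i j : ℕ) (hij : i < j) (hj : j ≤ n + 1) :
    kw ((List.replicate n (List.range' 1 n)).flatten) f i j = 0 := by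
  rcases Nat.eq_zero_or_pos n with hn | hn
  · subst hn
    have hi : i = 0 := by omega
    subst hi
    exact h0 j (by omega) hj
  · exact v6_kill n n hn f h0 (fun i j _ h2 h3 => by omega) i j hij hj

theorem kw_support (n : ℕ) (w : List ℕ) (hw : ∀ k ∈ w, k ≤ n) (f : ℕ → ℕ → ℚ)
    (h : ∀ i j, i < j → n + 1 < j → f i j = 0) (i j : ℕ) (hij : i < j) (hj : n + 1 < j) :
    kw w f i j = 0 := by
  induction w generalizing f with
  | nil => exact h i j hij hj
  | cons k w ih =>
    rw [kw_cons]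
    refine ih (fun k hk => hw k (List.mem_cons_of_mem _ hk)) _ ?_
    have hk : k ≤ n := hw k List.mem_cons_self
    intro i j hij hj
    unfold kact
    split_ifs with h1 h2 h3 h4 h5
    · rfl
    · omega
    · omega
    · rw [h (k + 1) j (by omega) hj, mul_zero]
    · rw [h k j (by omega) hj, h (k + 1) j (by omega) hj, mul_zero, add_zero]
    · exact h i j hij hj

end Pool.Agent.VB

end Row_V6

section Row_V7

/-!
ROW V7: equality in `Br m` implies equality of the actions at t = 0.  mword m w = mword m w' (letters < m):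
rac_mword: actW qK tK w F = actW qK tK w' F for all F : Sym2 ℕ → KK; take F = algebraMap ∘ F1, F1 : Sym2 ℕ → ℚ[X] (actW_map, injectivity); then apply
eval 0 (ring hom ℚ[X] → ℚ, q0 = eval 0 qP, 0 = eval 0 tP), F1 = C ∘ F0.  Then for kw: kT_surj, kw_kT.
-/

namespace Pool.Agent.VB

open FreeGroup (of)

theorem actW_q_eq (m : ℕ) (w w' : List ℕ) (hw : ∀ k ∈ w, k < m) (hw' : ∀ k ∈ w', k < m)
    (h : mword m w = mword m w') (F : Sym2 ℕ → ℚ) : actW q0 0 w F = actW q0 0 w' F := by
  have h1 : actW qK tK w (fun z => algebraMap (Polynomial ℚ) KK (Polynomial.C (F z))) =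
      actW qK tK w' (fun z => algebraMap (Polynomial ℚ) KK (Polynomial.C (F z))) := by
    rw [← rac_mword m w hw, ← rac_mword m w' hw', h]
  have h2 : actW qP tP w (fun z => Polynomial.C (F z)) =
      actW qP tP w' (fun z => Polynomial.C (F z)) := by
    have e1 := actW_map (algebraMap (Polynomial ℚ) KK) qP tP w (fun z => Polynomial.C (F z))
    have e2 := actW_map (algebraMap (Polynomial ℚ) KK) qP tP w' (fun z => Polynomial.C (F z))
    have e3 := e1.symm.trans (h1.trans e2)
    funext z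
    exact algMap_inj (congrFun e3 z)
  have e4 := actW_map (Polynomial.evalRingHom (0 : ℚ)) qP tP w (fun z => Polynomial.C (F z))
  have e5 := actW_map (Polynomial.evalRingHom (0 : ℚ)) qP tP w' (fun z => Polynomial.C (F z))
  have q1 : Polynomial.evalRingHom (0 : ℚ) qP = q0 := by simp [qP]
  have t1 : Polynomial.evalRingHom (0 : ℚ) tP = 0 := by simp [tP]
  have f1 : (fun z => Polynomial.evalRingHom (0 : ℚ) (Polynomial.C (F z))) = F := by
    funext z; simp
  rw [q1, t1, f1] at e4 e5
  rw [e4, e5, h2]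

theorem kw_eq (m : ℕ) (w w' : List ℕ) (hw : ∀ k ∈ w, k < m) (hw' : ∀ k ∈ w', k < m)
    (h : mword m w = mword m w') (f : ℕ → ℕ → ℚ) (i j : ℕ) (hij : i < j) :
    kw w f i j = kw w' f i j := by
  obtain ⟨F, hF⟩ := kT_surj f
  rw [← kw_congr w _ _ hF i j hij, ← kw_congr w' _ _ hF i j hij, ← kw_kT w F i j hij,
    ← kw_kT w' F i j hij, actW_q_eq m w w' hw hw' h F]

end Pool.Agent.VB

end Row_V7

section Row_V8

/-!
ROW V8: (K0).  Strong induction on the length of w (for all i).  w = [] : kw [] (kd i (i+1)) is not zero.  w = j :: v: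
j = i: done.  |i-j| ≥ 2: kact j (kd i (i+1)) = kd i (i+1) on pairs, so KZ (kw v (kd i (i+1))), v ~ i :: v', mword: sigma_j sigma_i v' = sigma_i sigma_j v'.
|i-j| = 1: kact j (kd i (i+1)) is ≥ 0, positive at (i,i+1) [coefficient: j = i+1: the pair (i, j) = (i,k) gets (1-q); j = i-1: the pair (k+1, k+2) gets (1-q)]
and positive at a_i+a_j = (min i j, min i j + 2) [j = i+1: pair (i, k+1) gets f(i,k) = 1; j = i-1: pair (k, k+2) gets q f(k+1,k+2)].  So (kw_zero_of)
KZ (kw v (kd i (i+1))): v ~ i :: v' (mword equality), kw_eq: KZ (kw (i :: v') (kd lo (lo+2))): kact i (kd lo (lo+2)) is ≥ 0 and positive at (j, j+1)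
[i = lo+1 = j+1: pair (lo, lo+1) = (i', k) gets q f(i', k+1); i = lo = j-1: pair (k+1, k+2) gets f(k, k+2)]; KZ (kw v' (kd j (j+1))): v' ~ j :: v''.
mword (j :: i :: j :: v'') = mword (i :: j :: i :: v'') by sg_braid.
-/

namespace Pool.Agent.VB

open FreeGroup (of)

private theorem V8_kdN (a b : ℕ) : KN (kd a b) := by
  intro i j _
  unfold kd
  split_ifs <;> norm_num

private theorem V8_kactN (k : ℕ) (f : ℕ → ℕ → ℚ) (h : KN f) : KN (kact k f) :=
  kw_nonneg [k] f h

private theorem V8_mcons (m k : ℕ) (w : List ℕ) : mword m (k :: w) = sg m k * mword m w := by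
  simp [mword]

/-- values of `kact` on indicator functions -/
private theorem V8_a1 (i : ℕ) : 0 < kact (i + 1) (kd i (i + 1)) i (i + 1) := by
  simp only [kact, kd, q0]
  norm_num

private theorem V8_a2 (i : ℕ) : 0 < kact (i + 1) (kd i (i + 1)) i (i + 2) := by
  simp only [kact, kd, q0]
  norm_num

private theorem V8_a3 (i : ℕ) : 0 < kact i (kd i (i + 2)) (i + 1) (i + 1 + 1) := by
  have h1 : ¬ (i + 1 + 1 = i) := by omega
  simp only [kact, kd, q0, h1, if_false]
  norm_num

private theorem V8_b1 (j : ℕ) : 0 < kact j (kd (j + 1) (j + 1 + 1)) (j + 1) (j + 1 + 1) := by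
  have h1 : ¬ (j + 1 + 1 = j) := by omega
  simp only [kact, kd, q0, h1, if_false]
  norm_num

private theorem V8_b2 (j : ℕ) : 0 < kact j (kd (j + 1) (j + 1 + 1)) j (j + 2) := by
  simp only [kact, kd, q0]
  norm_num

private theorem V8_b3 (j : ℕ) : 0 < kact (j + 1) (kd j (j + 2)) j (j + 1) := by
  simp only [kact, kd, q0]
  norm_num

private theorem V8_far (i j a b : ℕ) (h : i + 2 ≤ j ∨ j + 2 ≤ i) (hab : a < b) :
    kact j (kd i (i + 1)) a b = kd i (i + 1) a b := by
  simp only [kact, kd]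
  split_ifs <;> first
    | rfl
    | (exfalso; omega)
    | simp

private theorem V8_main (m : ℕ) : ∀ N : ℕ, ∀ w : List ℕ, w.length ≤ N → (∀ k ∈ w, k < m) →
    ∀ i : ℕ, i < m → KZ (kw w (kd i (i + 1))) →
    ∃ w' : List ℕ, (∀ k ∈ w', k < m) ∧ w'.length + 1 = w.length ∧
      mword m w = mword m (i :: w') := by
  intro N
  induction N with
  | zero =>
    intro w hN hw i hi h
    have hw0 : w = [] := List.length_eq_zero_iff.1 (Nat.le_zero.1 hN)
    subst hw0
    have := h i (i + 1) (Nat.lt_succ_self i)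
    simp [kw, kd] at this
  | succ N ih =>
    intro w hN hw i hi h
    cases w with
    | nil =>
      have := h i (i + 1) (Nat.lt_succ_self i)
      simp [kw, kd] at this
    | cons j v =>
      have hjm : j < m := hw j (by simp)
      have hv : ∀ k ∈ v, k < m := fun k hk => hw k (by simp [hk])
      have hvN : v.length ≤ N := by simpa using hN
      rw [kw_cons] at h
      rcases lt_trichotomy i j with hij | hij | hij
      · by_cases hij2 : i + 2 ≤ j
        · have h1 : KZ (kw v (kd i (i + 1))) := by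
            intro a b hab
            rw [← h a b hab]
            exact kw_congr v _ _ (fun a b hab => (V8_far i j a b (Or.inl hij2) hab).symm) a b hab
          obtain ⟨v', hv', hl, he⟩ := ih v hvN hv i hi h1
          refine ⟨j :: v', ?_, ?_, ?_⟩
          · intro k hk
            rcases List.mem_cons.1 hk with rfl | hk
            · exact hjm
            · exact hv' k hk
          · simp only [List.length_cons]; omega
          · rw [V8_mcons, he, V8_mcons, V8_mcons, V8_mcons, ← mul_assoc, ← mul_assoc,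
              sg_comm m i j hij2]
        · obtain rfl : j = i + 1 := by omega
          have hN1 : KN (kact (i + 1) (kd i (i + 1))) := V8_kactN _ _ (V8_kdN _ _)
          have h1 : KZ (kw v (kd i (i + 1))) :=
            kw_zero_of v _ hN1 i (i + 1) (by omega) (V8_a1 i) h
          have h2 : KZ (kw v (kd i (i + 2))) :=
            kw_zero_of v _ hN1 i (i + 2) (by omega) (V8_a2 i) h
          obtain ⟨v', hv', hl, he⟩ := ih v hvN hv i hi h1
          have hiv' : ∀ k ∈ i :: v', k < m := by
            intro k hk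
            rcases List.mem_cons.1 hk with rfl | hk
            · exact hi
            · exact hv' k hk
          have h3 : KZ (kw v' (kact i (kd i (i + 2)))) := by
            intro a b hab
            rw [← h2 a b hab, kw_eq m v (i :: v') hv hiv' he _ a b hab, kw_cons]
          have hN2 : KN (kact i (kd i (i + 2))) := V8_kactN _ _ (V8_kdN _ _)
          have h4 : KZ (kw v' (kd (i + 1) (i + 1 + 1))) :=
            kw_zero_of v' _ hN2 (i + 1) (i + 1 + 1) (by omega) (V8_a3 i) h3
          obtain ⟨v'', hv'', hl', he'⟩ := ih v' (by omega) hv' (i + 1) hjm h4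
          refine ⟨(i + 1) :: i :: v'', ?_, ?_, ?_⟩
          · intro k hk
            rcases List.mem_cons.1 hk with rfl | hk
            · exact hjm
            rcases List.mem_cons.1 hk with rfl | hk
            · exact hi
            · exact hv'' k hk
          · simp only [List.length_cons]; omega
          · rw [V8_mcons, he, V8_mcons, he', V8_mcons, V8_mcons, V8_mcons, V8_mcons,
              ← mul_assoc, ← mul_assoc, ← mul_assoc, ← mul_assoc, sg_braid m i hjm]
      · subst hij
        exact ⟨v, hv, by simp, rfl⟩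
      · by_cases hij2 : j + 2 ≤ i
        · have h1 : KZ (kw v (kd i (i + 1))) := by
            intro a b hab
            rw [← h a b hab]
            exact kw_congr v _ _ (fun a b hab => (V8_far i j a b (Or.inr hij2) hab).symm) a b hab
          obtain ⟨v', hv', hl, he⟩ := ih v hvN hv i hi h1
          refine ⟨j :: v', ?_, ?_, ?_⟩
          · intro k hk
            rcases List.mem_cons.1 hk with rfl | hk
            · exact hjm
            · exact hv' k hk
          · simp only [List.length_cons]; omega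
          · rw [V8_mcons, he, V8_mcons, V8_mcons, V8_mcons, ← mul_assoc, ← mul_assoc,
              sg_comm m j i hij2]
        · obtain rfl : i = j + 1 := by omega
          have hN1 : KN (kact j (kd (j + 1) (j + 1 + 1))) := V8_kactN _ _ (V8_kdN _ _)
          have h1 : KZ (kw v (kd (j + 1) (j + 1 + 1))) :=
            kw_zero_of v _ hN1 (j + 1) (j + 1 + 1) (by omega) (V8_b1 j) h
          have h2 : KZ (kw v (kd j (j + 2))) :=
            kw_zero_of v _ hN1 j (j + 2) (by omega) (V8_b2 j) h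
          obtain ⟨v', hv', hl, he⟩ := ih v hvN hv (j + 1) hi h1
          have hiv' : ∀ k ∈ (j + 1) :: v', k < m := by
            intro k hk
            rcases List.mem_cons.1 hk with rfl | hk
            · exact hi
            · exact hv' k hk
          have h3 : KZ (kw v' (kact (j + 1) (kd j (j + 2)))) := by
            intro a b hab
            rw [← h2 a b hab, kw_eq m v ((j + 1) :: v') hv hiv' he _ a b hab, kw_cons]
          have hN2 : KN (kact (j + 1) (kd j (j + 2))) := V8_kactN _ _ (V8_kdN _ _)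
          have h4 : KZ (kw v' (kd j (j + 1))) :=
            kw_zero_of v' _ hN2 j (j + 1) (by omega) (V8_b3 j) h3
          obtain ⟨v'', hv'', hl', he'⟩ := ih v' (by omega) hv' j hjm h4
          refine ⟨j :: (j + 1) :: v'', ?_, ?_, ?_⟩
          · intro k hk
            rcases List.mem_cons.1 hk with rfl | hk
            · exact hjm
            rcases List.mem_cons.1 hk with rfl | hk
            · exact hi
            · exact hv'' k hk
          · simp only [List.length_cons]; omega
          · rw [V8_mcons, he, V8_mcons, he', V8_mcons, V8_mcons, V8_mcons, V8_mcons,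
              ← mul_assoc, ← mul_assoc, ← mul_assoc, ← mul_assoc, sg_braid m j hi]

theorem K0 (m : ℕ) (w : List ℕ) (hw : ∀ k ∈ w, k < m) (i : ℕ) (hi : i < m)
    (h : KZ (kw w (kd i (i + 1)))) :
    ∃ w' : List ℕ, (∀ k ∈ w', k < m) ∧ w'.length + 1 = w.length ∧
      mword m w = mword m (i :: w') :=
  V8_main m w.length w le_rfl hw i hi h

end Pool.Agent.VB

end Row_V8

section Row_V9

/-!
ROW V9: (K) and (K').  (K): kd 0 l . w = 0 for all 1 ≤ l ≤ m: by induction on k ≤ m: w ~ [0..k-1] ++ w_k: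
kw [0..k-1] (kd 0 (k+1)) is ≥ 0 and positive at (k,k+1) (kd 0 (k+1) . 0: pair (1,k+1) gets f(0,k+1) etc: sigma_j moves (j,k+1) to (j+1,k+1)), so
KZ (kw w_k (kd k (k+1))) and K0.  (K'): kd i m . w = 0 for all i < m: w ~ [m-1, ..., m-k] ++ w_k: kw [m-1..i+1] (kd i m) positive at (i,i+1)
(sigma_(m-1): pair (i,m-1) gets q f(i,m), ...).
-/

namespace Pool.Agent.VB

open FreeGroup (of)

private theorem v9_q1 : (0 : ℚ) < 1 - q0 := by norm_num [q0]

private theorem v9_q0 : (0 : ℚ) < q0 := by norm_num [q0]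

private theorem v9_KN (a b : ℕ) : KN (kd a b) := by
  intro i j _
  unfold kd
  split_ifs <;> norm_num

private theorem v9_KZ_congr (f g : ℕ → ℕ → ℚ) (w : List ℕ) (h : ∀ i j, i < j → f i j = g i j)
    (hz : KZ (kw w f)) : KZ (kw w g) := by
  intro i j hij
  rw [← kw_congr w f g h i j hij]
  exact hz i j hij

private theorem v9_mword_append (m : ℕ) (w w' : List ℕ) :
    mword m (w ++ w') = mword m w * mword m w' := by
  simp [mword]

/-- the step: from `w ~ u ++ v`, `kw u f` positive at `(a, a+1)` -/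
private theorem v9_step (m : ℕ) (w u v : List ℕ) (hw : ∀ k ∈ w, k < m) (hu : ∀ k ∈ u, k < m)
    (hv : ∀ k ∈ v, k < m) (huv : mword m w = mword m (u ++ v)) (f : ℕ → ℕ → ℚ)
    (hf : KN f) (hz : KZ (kw w f)) (a : ℕ) (ha : a < m) (hpos : 0 < kw u f a (a + 1)) :
    ∃ w' : List ℕ, (∀ k ∈ w', k < m) ∧ mword m w = mword m ((u ++ [a]) ++ w') := by
  have hz2 : KZ (kw v (kw u f)) := by
    intro i j hij
    rw [← kw_append, ← kw_eq m w (u ++ v) hw (by
      intro k hk
      rcases List.mem_append.1 hk with h | h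
      · exact hu k h
      · exact hv k h) huv f i j hij]
    exact hz i j hij
  have hz3 := kw_zero_of v (kw u f) (kw_nonneg u f hf) a (a + 1) (by omega) hpos hz2
  obtain ⟨w', h1, _, h2⟩ := K0 m v hv a ha hz3
  refine ⟨w', h1, ?_⟩
  rw [huv, List.append_assoc, v9_mword_append, v9_mword_append, h2]
  rfl

private theorem v9_pos1 (k : ℕ) : ∀ j, j ≤ k → 0 < kw (List.range j) (kd 0 (k + 1)) j (k + 1) := by
  intro j
  induction j with
  | zero =>
    intro _
    simp [kw, kd]
  | succ j ih =>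
    intro hj
    have h1 := ih (by omega)
    have h2 := kw_nonneg (List.range j) (kd 0 (k + 1)) (v9_KN _ _) (j + 1) (k + 1)
    rw [List.range_succ, kw_append]
    show 0 < kact j (kw (List.range j) (kd 0 (k + 1))) (j + 1) (k + 1)
    unfold kact
    rw [if_neg (by omega), if_neg (by omega), if_neg (by omega), if_neg (by omega), if_pos rfl]
    rcases Nat.lt_or_ge (j + 1) (k + 1) with h3 | h3
    · exact add_pos_of_pos_of_nonneg h1 (mul_nonneg v9_q1.le (h2 h3))
    · omega

private theorem v9_pos2 (m i : ℕ) (hi : i < m) : ∀ k, i + 1 + k ≤ m →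
    0 < kw ((List.range' (m - k) k).reverse) (kd i m) i (m - k) := by
  intro k
  induction k with
  | zero =>
    intro _
    simp [kw, kd]
  | succ k ih =>
    intro hk
    have h1 := ih (by omega)
    obtain ⟨n, hn⟩ : ∃ n, m - k = n + 1 := ⟨m - k - 1, by omega⟩
    have hn2 : m - (k + 1) = n := by omega
    rw [hn] at h1
    rw [hn2, List.range'_succ, List.reverse_cons, kw_append]
    show 0 < kact n (kw ((List.range' (n + 1) k).reverse) (kd i m)) i n
    have h2 := kw_nonneg ((List.range' (n + 1) k).reverse) (kd i m) (v9_KN _ _) i n (by omega)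
    unfold kact
    rw [if_neg (by omega), if_pos rfl]
    exact add_pos_of_nonneg_of_pos (mul_nonneg v9_q1.le h2) (mul_pos v9_q0 h1)

theorem Kd (m : ℕ) (w : List ℕ) (hw : ∀ k ∈ w, k < m)
    (h : ∀ l, 1 ≤ l → l ≤ m → KZ (kw w (kd 0 l))) :
    ∃ w' : List ℕ, (∀ k ∈ w', k < m) ∧ mword m w = mword m (List.range m ++ w') := by
  have key : ∀ k, k ≤ m → ∃ w' : List ℕ, (∀ k ∈ w', k < m) ∧
      mword m w = mword m (List.range k ++ w') := by
    intro k
    induction k with
    | zero => exact fun _ => ⟨w, hw, by simp⟩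
    | succ k ih =>
      intro hk
      obtain ⟨v, hv, huv⟩ := ih (by omega)
      have hu : ∀ j ∈ List.range k, j < m := by
        intro j hj
        have := List.mem_range.1 hj
        omega
      obtain ⟨w', h1, h2⟩ := v9_step m w (List.range k) v hw hu hv huv (kd 0 (k + 1))
        (v9_KN _ _) (h (k + 1) (by omega) (by omega)) k (by omega) (v9_pos1 k k le_rfl)
      exact ⟨w', h1, by rw [h2, List.range_succ]⟩
  exact key m le_rfl

theorem Kd' (m : ℕ) (w : List ℕ) (hw : ∀ k ∈ w, k < m)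
    (h : ∀ i, i < m → KZ (kw w (kd i m))) :
    ∃ w' : List ℕ, (∀ k ∈ w', k < m) ∧
      mword m w = mword m ((List.range m).reverse ++ w') := by
  have key : ∀ k, k ≤ m → ∃ w' : List ℕ, (∀ k ∈ w', k < m) ∧
      mword m w = mword m ((List.range' (m - k) k).reverse ++ w') := by
    intro k
    induction k with
    | zero => exact fun _ => ⟨w, hw, by simp⟩
    | succ k ih =>
      intro hk
      obtain ⟨v, hv, huv⟩ := ih (by omega)
      have hu : ∀ j ∈ (List.range' (m - k) k).reverse, j < m := by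
        intro j hj
        rw [List.mem_reverse, List.mem_range'_1] at hj
        omega
      obtain ⟨n, hn⟩ : ∃ n, m - k = n + 1 := ⟨m - k - 1, by omega⟩
      have hn2 : m - (k + 1) = n := by omega
      have hp := v9_pos2 m n (by omega) k (by omega)
      rw [hn] at hp
      rw [hn] at huv hu
      obtain ⟨w', h1, h2⟩ := v9_step m w ((List.range' (n + 1) k).reverse) v hw hu hv huv (kd n m)
        (v9_KN _ _) (h n (by omega)) n (by omega) hp
      refine ⟨w', h1, ?_⟩
      rw [h2, hn2, List.range'_succ, List.reverse_cons]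
  obtain ⟨w', h1, h2⟩ := key m le_rfl
  refine ⟨w', h1, ?_⟩
  rw [h2, Nat.sub_self, List.range_eq_range']

end Pool.Agent.VB

end Row_V9

section Row_V10

/-!
ROW V10: the central element z = delta^(m+1), m = n+1, in Br (n+1): z = mword of a positive word, z = delta delta' C^(n+1)
(full_twist), central (PP_central).  Every element of Br (n+1) is z^(-k) times a positive word: sigma_i z^-1... : z is a positive word containing every
letter: z = u sigma_i v gives z = sigma_i v u (central), sigma_i^-1 = z^-1 (v u).  Then induction on words in generators and inverses.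
-/

namespace Pool.Agent.VB

open FreeGroup (of)

/-- the full twist -/
def zz (n : ℕ) : Br (n + 1) := PP (sg (n + 1)) (n + 1) ^ (n + 2)

theorem V10_append (m : ℕ) (v w : List ℕ) : mword m (v ++ w) = mword m v * mword m w := by
  simp [mword]

theorem V10_cons (m k : ℕ) (w : List ℕ) : mword m (k :: w) = sg m k * mword m w := by
  simp [mword]

theorem V10_nil (m : ℕ) : mword m [] = 1 := by
  simp [mword]

theorem V10_single (m k : ℕ) : mword m [k] = sg m k := by
  simp [mword]

theorem V10_range (m k : ℕ) : mword m (List.range k) = PP (sg m) k := by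
  induction k with
  | zero => simp [mword, PP]
  | succ k ih => rw [List.range_succ, V10_append, ih, V10_single, PP]

theorem V10_rev (m k : ℕ) : mword m (List.range k).reverse = RR (sg m) k := by
  induction k with
  | zero => simp [mword, RR]
  | succ k ih =>
    rw [List.range_succ, List.reverse_append, V10_append, ih, List.reverse_singleton, V10_single, RR]

theorem V10_range' (m k : ℕ) : mword m (List.range' 1 k) = PP (fun i => sg m (i + 1)) k := by
  induction k with
  | zero => simp [mword, PP]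
  | succ k ih =>
    rw [List.range'_concat, V10_append, ih, V10_single, PP, one_mul, add_comm 1 k]

theorem V10_flat (m k : ℕ) (l : List ℕ) : mword m (List.replicate k l).flatten = mword m l ^ k := by
  induction k with
  | zero => simp [mword]
  | succ k ih => rw [List.replicate_succ, List.flatten_cons, V10_append, ih, pow_succ']

theorem mword_range (n : ℕ) : mword (n + 1) (List.range (n + 1)) = PP (sg (n + 1)) (n + 1) :=
  V10_range (n + 1) (n + 1)

theorem zz_central (n : ℕ) (g : Br (n + 1)) : zz n * g = g * zz n := by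
  have h : (⊤ : Subgroup (Br (n + 1))) ≤ Subgroup.centralizer {zz n} := by
    rw [← PresentedGroup.closure_range_of (brRels (n + 1)), Subgroup.closure_le]
    rintro x ⟨k, rfl⟩
    show (sg (n + 1) k) ∈ Subgroup.centralizer {zz n}
    rw [Subgroup.mem_centralizer_singleton_iff]
    by_cases hk : k < n + 1
    · exact (PP_central (sg (n + 1)) (n + 1) k (bseq_sg (n + 1)) hk).symm
    · rw [sg_eq_one (n + 1) k (by omega), mul_one, one_mul]
  have h2 := h (Subgroup.mem_top g)
  rw [Subgroup.mem_centralizer_singleton_iff] at h2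
  exact h2.symm

theorem zz_eq (n : ℕ) : zz n = mword (n + 1) (List.range (n + 1)) *
    mword (n + 1) ((List.range (n + 1)).reverse) *
    mword (n + 1) ((List.replicate (n + 1) (List.range' 1 n)).flatten) := by
  rw [V10_range, V10_rev, V10_flat, V10_range', zz]
  exact full_twist (sg (n + 1)) n (bseq_sg (n + 1))

theorem V10_word (n : ℕ) : ∃ W : List ℕ, (∀ i ∈ W, i < n + 1) ∧ (∀ i, i < n + 1 → i ∈ W) ∧
    zz n = mword (n + 1) W := by
  refine ⟨List.range (n + 1) ++ (List.range (n + 1)).reverse ++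
    (List.replicate (n + 1) (List.range' 1 n)).flatten, ?_, ?_, ?_⟩
  · intro i hi
    simp only [List.mem_append, List.mem_range, List.mem_reverse, List.mem_flatten,
      List.mem_replicate] at hi
    rcases hi with (hi | hi) | ⟨l, ⟨-, rfl⟩, hi⟩
    · exact hi
    · exact hi
    · rw [List.mem_range'_1] at hi
      omega
  · intro i hi
    simp only [List.mem_append, List.mem_range]
    exact Or.inl (Or.inl hi)
  · rw [V10_append, V10_append]
    exact zz_eq n

theorem exists_pos (n : ℕ) (f : Br (n + 1)) :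
    ∃ (k : ℕ) (w : List ℕ), (∀ i ∈ w, i < n + 1) ∧ f = (zz n ^ k)⁻¹ * mword (n + 1) w := by
  have hf : f ∈ Subgroup.closure (Set.range (PresentedGroup.of (rels := brRels (n + 1)))) := by
    rw [PresentedGroup.closure_range_of]
    exact Subgroup.mem_top f
  refine Subgroup.closure_induction'' (p := fun f _ => ∃ (k : ℕ) (w : List ℕ),
    (∀ i ∈ w, i < n + 1) ∧ f = (zz n ^ k)⁻¹ * mword (n + 1) w) ?_ ?_ ?_ ?_ hf
  · rintro x ⟨k, rfl⟩
    by_cases hk : k < n + 1
    · refine ⟨0, [k], ?_, ?_⟩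
      · intro i hi
        rw [List.mem_singleton] at hi
        omega
      · rw [pow_zero, inv_one, one_mul, V10_single]
        rfl
    · refine ⟨0, [], fun i hi => by simp at hi, ?_⟩
      rw [pow_zero, inv_one, one_mul, V10_nil]
      exact sg_eq_one (n + 1) k (by omega)
  · rintro x ⟨k, rfl⟩
    by_cases hk : k < n + 1
    · obtain ⟨W, hW1, hW2, hW3⟩ := V10_word n
      obtain ⟨s, t, hst⟩ := List.append_of_mem (hW2 k hk)
      refine ⟨1, t ++ s, ?_, ?_⟩
      · intro i hi
        rw [List.mem_append] at hi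
        apply hW1
        rw [hst, List.mem_append, List.mem_cons]
        tauto
      · show (sg (n + 1) k)⁻¹ = (zz n ^ 1)⁻¹ * mword (n + 1) (t ++ s)
        rw [hst, V10_append, V10_cons] at hW3
        have hc := zz_central n (mword (n + 1) s)
        rw [pow_one, V10_append]
        have h2 : zz n = sg (n + 1) k * (mword (n + 1) t * mword (n + 1) s) := by
          have h3 : mword (n + 1) s * zz n =
              mword (n + 1) s * (sg (n + 1) k * (mword (n + 1) t * mword (n + 1) s)) := by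
            rw [← hc]
            nth_rewrite 1 [hW3]
            simp only [mul_assoc]
          exact mul_left_cancel h3
        have h4 := zz_central n (sg (n + 1) k)
        rw [eq_inv_mul_iff_mul_eq, zz_central n ((sg (n + 1) k)⁻¹), inv_mul_eq_iff_eq_mul]
        exact h2
    · refine ⟨0, [], fun i hi => by simp at hi, ?_⟩
      rw [pow_zero, inv_one, one_mul, V10_nil]
      have : (PresentedGroup.of k : PresentedGroup (brRels (n + 1))) = 1 :=
        sg_eq_one (n + 1) k (by omega)
      rw [this, inv_one]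
  · exact ⟨0, [], fun i hi => by simp at hi, by rw [pow_zero, inv_one, one_mul, V10_nil]⟩
  · rintro x y hx hy ⟨k, w, hw, rfl⟩ ⟨l, v, hv, rfl⟩
    refine ⟨k + l, w ++ v, ?_, ?_⟩
    · intro i hi
      rw [List.mem_append] at hi
      exact hi.elim (hw i) (hv i)
    · have hcl : Commute (zz n ^ l) (mword (n + 1) w) :=
        Commute.pow_left (zz_central n (mword (n + 1) w)) l
      have hcl2 : mword (n + 1) w * (zz n ^ l)⁻¹ = (zz n ^ l)⁻¹ * mword (n + 1) w :=
        (hcl.inv_left).symm.eq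
      rw [V10_append, pow_add, mul_inv_rev]
      have hkl : (zz n ^ l)⁻¹ * (zz n ^ k)⁻¹ = (zz n ^ k)⁻¹ * (zz n ^ l)⁻¹ := by
        rw [← mul_inv_rev, ← mul_inv_rev, ← pow_add, ← pow_add, add_comm k l]
      rw [hkl]
      calc (zz n ^ k)⁻¹ * mword (n + 1) w * ((zz n ^ l)⁻¹ * mword (n + 1) v)
          = (zz n ^ k)⁻¹ * (mword (n + 1) w * (zz n ^ l)⁻¹) * mword (n + 1) v := by
            simp only [mul_assoc]
        _ = (zz n ^ k)⁻¹ * ((zz n ^ l)⁻¹ * mword (n + 1) w) * mword (n + 1) v := by rw [hcl2]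
        _ = (zz n ^ k)⁻¹ * (zz n ^ l)⁻¹ * (mword (n + 1) w * mword (n + 1) v) := by
            simp only [mul_assoc]

end Pool.Agent.VB

end Row_V10

section Row_V11

/-!
ROW V11: THEOREM V0 (paper 7.5).  m = n+1.  f in Br (n+1), OmN qK tK (n+1) (1 . f) = algebraMap P.
Then f = h [w] h', h, h' in <sigma_1..sigma_n>, w positive.  Write f = z^-k [p] (exists_pos), induction on k (for all f).
Facts: 1.h = 1 for h in H := closure {sigma_k, 1 ≤ k}; OmN (F.h) = OmN F (h in H) [k ≤ n; sigma_k = 1 for k > n]; 1 . delta = t q^2 E_n on sites ≤ n (actW_delta, delF),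
E_n . delta' = q^(2n) t q^2 1 on sites ≤ n (actW_E, actS0_E, actS_local); so OmN (1 . z g) = t^2 q^(2n+4) OmN(1 . g) (z = delta delta' C^(n+1); everything only depends on
the sites ≤ n: actS_local, OmN_local; for group elements g of Br (n+1) use words in generators and inverses or: 1.z = t^2 q^(2n+4) 1 on sites ≤ n and locality of rac).
Step k ≥ 1: OmN (1.p) = (t^2 q^(2n+4))^k algebraMap P, so as polynomials (actW_map, OmN_map): OmN qP tP (n+1) (actW qP tP p 1) = X^(2k) * .... Evaluate at 0: OmN q0 0 (n+1) (actW q0 0 p 1) = 0: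
by OmN_kT, kw_kT, kT_one: sum_j q^j (kw p (sum_l kd 0 l)) 0 (j+1) = 0, all terms ≥ 0: so f1 := kw p (kT 1) vanishes at (0,j), 1 ≤ j ≤ n+1; each kd 0 l (1 ≤ l ≤ n+1) ≤ kT 1, so kw p (kd 0 l)
vanishes there too, has support in j ≤ n+1 (kw_support), and by kw_C_kill KZ (kw (p ++ C^n) (kd 0 l)); (K): [p] C^n = delta [p1].  Then OmN(1.p) = OmN(1 . delta p1) = t q^2 OmN(E_n . p1),
again a polynomial identity; dividing by t: OmN qP tP (actW p1 E_n) is divisible by X, evaluate at 0: kw p1 (kT E_n) vanishes on all (0,j), kT_E: each kd i (n+1) ≤ const kT E_n, so as before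
KZ (kw (p1 ++ C^n) (kd i (n+1))), (K'): [p1] C^n = delta' [p2].  So [p] = delta delta' [p2] C^(-2n) = z C^(-(n+1)) [p2] C^(-2n), f = C^(-(n+1)) (z^-(k-1) [p2]) C^(-2n); apply induction to z^-(k-1)[p2].
-/

namespace Pool.Agent.VB

open FreeGroup (of)

/-- the subgroup `<sigma_1, ..., sigma_(m-1)>` -/
def HH (m : ℕ) : Subgroup (Br m) := Subgroup.closure {g | ∃ k, 1 ≤ k ∧ g = sg m k}

/-- zero on the sites `< m` -/
private def V11_LZ (m : ℕ) (F : Sym2 ℕ → KK) : Prop :=
  ∀ x y, x < m → y < m → F s(x, y) = 0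

private lemma V11_actS_back (m k : ℕ) (hk : k < m) (F : Sym2 ℕ → KK)
    (h : V11_LZ m (actS qK tK k F)) : V11_LZ m F := by
  have hq := qK_ne
  have ht := tK_ne
  cases k with
  | zero =>
    have h' : ∀ x y, x < m → y < m → actS0 qK tK F s(x, y) = 0 := h
    have h00 : F s(0, 0) = 0 := by
      have e := h' 0 0 hk hk
      rw [actS0_00] at e
      rcases mul_eq_zero.1 e with e | e
      · exact absurd e (mul_ne_zero ht (pow_ne_zero 2 hq))
      · exact e
    have h0 : ∀ j, j < m → F s(0, j) = 0 := by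
      intro j hj
      by_cases hj0 : j = 0
      · subst hj0; exact h00
      · have e := h' 0 j hk hj
        rw [actS0_0j _ _ _ _ hj0, h00, mul_zero, zero_sub, neg_eq_zero] at e
        rcases mul_eq_zero.1 e with e | e
        · exact absurd e hq
        · exact e
    have hij : ∀ i j, i < m → j < m → i ≠ 0 → i ≤ j → F s(i, j) = 0 := by
      intro i j hi hj hi0 hle
      have e := h' i j hi hj
      rw [actS0_ij _ _ _ _ _ hi0 hle, h00, h0 i hi, h0 j hj] at e
      simpa using e
    intro x y hx hy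
    by_cases hx0 : x = 0
    · subst hx0; exact h0 y hy
    · by_cases hy0 : y = 0
      · subst hy0; rw [Sym2.eq_swap]; exact h0 x hx
      · rcases le_total x y with hle | hle
        · exact hij x y hx hy hx0 hle
        · rw [Sym2.eq_swap]; exact hij y x hy hx hy0 hle
  | succ k =>
    have h' : ∀ x y, x < m → y < m → actV qK tK 1 1 k (k + 1) F s(x, y) = 0 := h
    have hne : k ≠ k + 1 := by omega
    have hk' : k < m := by omega
    have hii : F s(k, k) = 0 := by
      have e := h' (k + 1) (k + 1) hk hk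
      rw [actV_jj _ _ _ _ _ _ _ hne] at e
      simpa using e
    have hij : F s(k, k + 1) = 0 := by
      have e := h' k (k + 1) hk' hk
      rw [actV_ij _ _ _ _ _ _ _ hne, hii, mul_zero, zero_add] at e
      rcases mul_eq_zero.1 e with e | e
      · exact absurd e (mul_ne_zero ht hq)
      · exact e
    have hjj : F s(k + 1, k + 1) = 0 := by
      have e := h' k k hk' hk'
      rw [actV_ii, hii, hij, mul_zero, mul_zero, zero_add, zero_add, one_pow, mul_one] at e
      rcases mul_eq_zero.1 e with e | e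
      · exact absurd e (pow_ne_zero 2 hq)
      · exact e
    have hi : ∀ r, r < m → r ≠ k → r ≠ k + 1 → F s(k, r) = 0 := by
      intro r hr h1 h2
      have e := h' (k + 1) r hk hr
      rw [actV_jk _ _ _ _ _ _ _ hne r h1 h2] at e
      simpa using e
    have hj : ∀ r, r < m → r ≠ k → r ≠ k + 1 → F s(k + 1, r) = 0 := by
      intro r hr h1 h2
      have e := h' k r hk' hr
      rw [actV_ik _ _ _ _ _ _ _ r h1 h2, hi r hr h1 h2, mul_zero, zero_add, mul_one] at e
      rcases mul_eq_zero.1 e with e | e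
      · exact absurd e hq
      · exact e
    have h1 : ∀ x y, x < m → y < m → x = k ∨ x = k + 1 → F s(x, y) = 0 := by
      rintro x y hx hy (rfl | rfl)
      · by_cases e1 : y = x
        · subst e1; exact hii
        · by_cases e2 : y = x + 1
          · subst e2; exact hij
          · exact hi y hy e1 e2
      · by_cases e1 : y = k
        · subst e1; rw [Sym2.eq_swap]; exact hij
        · by_cases e2 : y = k + 1
          · subst e2; exact hjj
          · exact hj y hy e1 e2
    intro x y hx hy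
    by_cases ex : x = k ∨ x = k + 1
    · exact h1 x y hx hy ex
    · by_cases ey : y = k ∨ y = k + 1
      · rw [Sym2.eq_swap]; exact h1 y x hy hx ey
      · have e := h' x y hx hy
        rw [actV_kl _ _ _ _ _ _ _ x y (fun e => ex (Or.inl e)) (fun e => ex (Or.inr e))
          (fun e => ey (Or.inl e)) (fun e => ey (Or.inr e))] at e
        exact e

private lemma V11_actS_forw (m k : ℕ) (hk : k < m) (F : Sym2 ℕ → KK)
    (h : V11_LZ m F) : V11_LZ m (actS qK tK k F) := by
  intro x y hx hy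
  have h0 : actS qK tK k (0 : Sym2 ℕ → KK) = 0 := by
    rw [← eqS_apply, map_zero]
  have e := actS_local qK tK m k hk F 0 (fun x y hx hy => by rw [h x y hx hy]; rfl) x y hx hy
  rw [e, h0]; rfl

private lemma V11_loc (m : ℕ) (g : Br m) : ∀ F : Sym2 ℕ → KK,
    V11_LZ m F ↔ V11_LZ m (rac (brV m) F g) := by
  have hg : g ∈ Subgroup.closure (Set.range (PresentedGroup.of (rels := brRels m))) := by
    rw [PresentedGroup.closure_range_of]; trivial
  induction hg using Subgroup.closure_induction with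
  | mem x hx =>
    obtain ⟨k, rfl⟩ := hx
    intro F
    change _ ↔ V11_LZ m (rac (brV m) F (sg m k))
    by_cases hk : k < m
    · rw [brV_sg m k hk]
      exact ⟨V11_actS_forw m k hk F, V11_actS_back m k hk F⟩
    · rw [sg_eq_one m k (by omega), rac_one]
  | one => intro F; rw [rac_one]
  | mul x y _ _ hx hy =>
    intro F
    rw [rac_mul]
    exact (hx F).trans (hy _)
  | inv x _ hx =>
    intro F
    have := hx (rac (brV m) F x⁻¹)
    rw [← rac_mul, inv_mul_cancel, rac_one] at this
    exact this.symm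

/-- equality on the sites `< m` is preserved by the braid group -/
private lemma V11_loc2 (m : ℕ) (g : Br m) (F G : Sym2 ℕ → KK)
    (h : ∀ x y, x < m → y < m → F s(x, y) = G s(x, y)) (x y : ℕ) (hx : x < m) (hy : y < m) :
    rac (brV m) F g s(x, y) = rac (brV m) G g s(x, y) := by
  have e : V11_LZ m (F - G) := fun x y hx hy => by
    rw [Pi.sub_apply, h x y hx hy, sub_self]
  have e2 := (V11_loc m g (F - G)).1 e x y hx hy
  have e3 : rac (brV m) (F - G) g = rac (brV m) F g - rac (brV m) G g := by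
    simp only [rac, map_sub]
  rw [e3, Pi.sub_apply] at e2
  exact sub_eq_zero.1 e2

private lemma V11_rac_smul (m : ℕ) (g : Br m) (c : KK) (F : Sym2 ℕ → KK) :
    rac (brV m) (c • F) g = c • rac (brV m) F g := by
  simp only [rac, map_smul]

private lemma V11_mword_append (m : ℕ) (w w' : List ℕ) :
    mword m (w ++ w') = mword m w * mword m w' := by
  simp [mword]

/-- the constant function is fixed by words in letters `≥ 1` -/
private lemma V11_one_fix {R : Type} [CommRing R] (q t : R) (w : List ℕ) (hw : ∀ k ∈ w, k ≠ 0) :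
    actW q t w (fun _ => (1 : R)) = fun _ => 1 := by
  induction w with
  | nil => rfl
  | cons k w ih =>
    rw [actW_cons, actS_one q t k (hw k (by simp))]
    exact ih (fun k hk => hw k (by simp [hk]))

private lemma V11_OmN_fix {R : Type} [CommRing R] (q t : R) (m : ℕ) (w : List ℕ)
    (hw : ∀ k ∈ w, k ≠ 0 ∧ k < m) (F : Sym2 ℕ → R) :
    OmN q t m (actW q t w F) = OmN q t m F := by
  induction w generalizing F with
  | nil => rfl
  | cons k w ih =>
    rw [actW_cons, ih (fun k hk => hw k (by simp [hk]))]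
    obtain ⟨h1, h2⟩ := hw k (by simp)
    obtain ⟨k', rfl⟩ : ∃ k', k = k' + 1 := ⟨k - 1, by omega⟩
    exact OmN_inv q t m k' h2 F

/-- `C^j`, `C = [1..n]` -/
private def V11_C (n j : ℕ) : List ℕ := (List.replicate j (List.range' 1 n)).flatten

private lemma V11_C_mem (n j k : ℕ) (h : k ∈ V11_C n j) : k ≠ 0 ∧ k < n + 1 := by
  unfold V11_C at h
  rw [List.mem_flatten] at h
  obtain ⟨l, hl, hk⟩ := h
  rw [List.mem_replicate] at hl
  rw [hl.2, List.mem_range'_1] at hk
  omega

private lemma V11_range_mem (n k : ℕ) (h : k ∈ List.range (n + 1)) : k < n + 1 :=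
  List.mem_range.1 h

/-- constants are fixed by the group element of a word in letters `1..n` -/
private lemma V11_rac_one_C (n j : ℕ) :
    rac (brV (n + 1)) (fun _ => (1 : KK)) (mword (n + 1) (V11_C n j)) = fun _ => 1 := by
  rw [rac_mword (n + 1) (V11_C n j) (fun k hk => (V11_C_mem n j k hk).2)]
  exact V11_one_fix qK tK _ (fun k hk => (V11_C_mem n j k hk).1)

private lemma V11_OmN_C (n j : ℕ) (F : Sym2 ℕ → KK) :
    OmN qK tK (n + 1) (rac (brV (n + 1)) F (mword (n + 1) (V11_C n j))) =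
      OmN qK tK (n + 1) F := by
  rw [rac_mword (n + 1) (V11_C n j) (fun k hk => (V11_C_mem n j k hk).2)]
  exact V11_OmN_fix qK tK (n + 1) _ (fun k hk => V11_C_mem n j k hk) F

/-- `1 . delta = t q^2 E_n` on the sites `≤ n` -/
private lemma V11_delta (n x y : ℕ) (hx : x < n + 1) (hy : y < n + 1) :
    rac (brV (n + 1)) (fun _ => (1 : KK)) (mword (n + 1) (List.range (n + 1))) s(x, y) =
      ((tK * qK ^ 2) • (EE n : Sym2 ℕ → KK)) s(x, y) := by
  rw [rac_mword (n + 1) _ (fun k hk => V11_range_mem n k hk), actW_delta, Pi.smul_apply,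
    smul_eq_mul]
  simp only [delF, EE, Sym2.lift_mk]
  by_cases h1 : min x y < n
  · rw [if_pos h1, if_neg, mul_zero]
    intro e
    rw [Sym2.eq_iff] at e
    omega
  · have hx' : x = n := by omega
    have hy' : y = n := by omega
    subst hx'
    subst hy'
    simp

private lemma V11_rev_range (n : ℕ) :
    (List.range (n + 1)).reverse = (List.range' 1 n).reverse ++ [0] := by
  rw [List.range_eq_range', List.range'_succ, List.reverse_cons]

/-- `E_n . delta' = t q^2 q^(2n)` on the sites `≤ n` -/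
private lemma V11_E (n x y : ℕ) (hx : x < n + 1) (hy : y < n + 1) :
    rac (brV (n + 1)) (EE n : Sym2 ℕ → KK) (mword (n + 1) (List.range (n + 1)).reverse)
      s(x, y) = ((tK * qK ^ 2 * qK ^ (2 * n)) • (fun _ => (1 : KK)) : Sym2 ℕ → KK) s(x, y) := by
  rw [V11_rev_range, V11_mword_append, rac_mul]
  have e1 : ∀ x y, x < n + 1 → y < n + 1 →
      rac (brV (n + 1)) (EE n : Sym2 ℕ → KK) (mword (n + 1) (List.range' 1 n).reverse) s(x, y) =
        ((qK ^ (2 * n)) • (EE 0 : Sym2 ℕ → KK)) s(x, y) := by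
    intro x y hx hy
    rw [rac_mword (n + 1) _ (fun k hk => by
      rw [List.mem_reverse, List.mem_range'_1] at hk; omega)]
    rw [actW_E qK tK n x y (by omega) (by omega)]
    rfl
  rw [V11_loc2 (n + 1) _ _ _ e1 x y hx hy, V11_rac_smul,
    rac_mword (n + 1) [0] (fun k hk => by
      rw [List.mem_singleton] at hk; omega)]
  rw [actW_cons, actW_nil]
  change ((qK ^ (2 * n)) • actS0 qK tK (EE 0)) s(x, y) = _
  rw [actS0_E]
  simp only [Pi.smul_apply, smul_eq_mul]
  ring

/-- `1 . z = t^2 q^(2n+4) 1` on the sites `≤ n` -/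
private lemma V11_zz (n x y : ℕ) (hx : x < n + 1) (hy : y < n + 1) :
    rac (brV (n + 1)) (fun _ => (1 : KK)) (zz n) s(x, y) =
      ((tK ^ 2 * qK ^ (2 * n + 4)) • (fun _ => (1 : KK)) : Sym2 ℕ → KK) s(x, y) := by
  rw [zz_eq, rac_mul, rac_mul]
  have e1 := V11_loc2 (n + 1) (mword (n + 1) (List.range (n + 1)).reverse) _ _ (V11_delta n)
  have e2 : ∀ x y, x < n + 1 → y < n + 1 →
      rac (brV (n + 1)) (rac (brV (n + 1)) (fun _ => (1 : KK))
        (mword (n + 1) (List.range (n + 1)))) (mword (n + 1) (List.range (n + 1)).reverse)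
        s(x, y) = ((tK ^ 2 * qK ^ (2 * n + 4)) • (fun _ => (1 : KK)) : Sym2 ℕ → KK) s(x, y) := by
    intro x y hx hy
    rw [e1 x y hx hy, V11_rac_smul, Pi.smul_apply, V11_E n x y hx hy]
    simp only [Pi.smul_apply, smul_eq_mul]
    ring
  have e3 := V11_loc2 (n + 1) (mword (n + 1) (V11_C n (n + 1))) _ _ e2 x y hx hy
  change rac (brV (n + 1)) _ (mword (n + 1) (V11_C n (n + 1))) s(x, y) = _
  rw [e3, V11_rac_smul, V11_rac_one_C]

private lemma V11_OmN_smul1 (n : ℕ) (c : KK) (g : Br (n + 1)) (F G : Sym2 ℕ → KK)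
    (h : ∀ x y, x < n + 1 → y < n + 1 → F s(x, y) = (c • G) s(x, y)) :
    OmN qK tK (n + 1) (rac (brV (n + 1)) F g) =
      c * OmN qK tK (n + 1) (rac (brV (n + 1)) G g) := by
  rw [← OmN_smul, ← V11_rac_smul]
  exact OmN_local qK tK (n + 1) _ _ (V11_loc2 (n + 1) g _ _ h)

private lemma V11_zz_pow (n k : ℕ) (g : Br (n + 1)) :
    OmN qK tK (n + 1) (rac (brV (n + 1)) (fun _ => (1 : KK)) (zz n ^ k * g)) =
      (tK ^ 2 * qK ^ (2 * n + 4)) ^ k *
        OmN qK tK (n + 1) (rac (brV (n + 1)) (fun _ => (1 : KK)) g) := by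
  induction k with
  | zero => rw [pow_zero, pow_zero, one_mul, one_mul]
  | succ k ih =>
    have e : zz n ^ (k + 1) * g = zz n * (zz n ^ k * g) := by rw [pow_succ']; group
    rw [e, rac_mul, V11_OmN_smul1 n _ _ _ _ (V11_zz n), ih]
    ring

/-! ## Polynomial identities -/

private lemma V11_poly (n : ℕ) (w : List ℕ) (F : Sym2 ℕ → Polynomial ℚ) :
    OmN qK tK (n + 1) (actW qK tK w (fun z => algebraMap (Polynomial ℚ) KK (F z))) =
      algebraMap (Polynomial ℚ) KK (OmN qP tP (n + 1) (actW qP tP w F)) := by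
  have h1 := actW_map (algebraMap (Polynomial ℚ) KK) qP tP w F
  have h2 := OmN_map (algebraMap (Polynomial ℚ) KK) qP tP (n + 1) (actW qP tP w F)
  rw [← h2]
  unfold qK tK
  rw [h1]

private lemma V11_eval (n : ℕ) (w : List ℕ) (F : Sym2 ℕ → Polynomial ℚ) :
    OmN q0 0 (n + 1) (actW q0 0 w (fun z => (F z).eval 0)) =
      (OmN qP tP (n + 1) (actW qP tP w F)).eval 0 := by
  have h1 := actW_map (Polynomial.evalRingHom (0 : ℚ)) qP tP w F
  have h2 := OmN_map (Polynomial.evalRingHom (0 : ℚ)) qP tP (n + 1) (actW qP tP w F)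
  have e1 : (Polynomial.evalRingHom (0 : ℚ)) qP = q0 := by simp [qP]
  have e2 : (Polynomial.evalRingHom (0 : ℚ)) tP = 0 := by simp [tP]
  rw [e1, e2] at h1 h2
  simp only [Polynomial.coe_evalRingHom] at h1 h2
  rw [h1, h2]

/-! ## Linearity of `kw` -/

private lemma V11_kw_sub (w : List ℕ) (c : ℚ) (f g : ℕ → ℕ → ℚ) :
    kw w (fun i j => f i j - c * g i j) = fun i j => kw w f i j - c * kw w g i j := by
  induction w generalizing f g with
  | nil => rfl
  | cons k w ih =>
    rw [kw_cons, kw_cons, kw_cons, ← ih]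
    congr 1
    funext i j
    unfold kact
    split_ifs <;> ring

private lemma V11_dom (w : List ℕ) (c : ℚ) (hc : 0 < c) (f g : ℕ → ℕ → ℚ) (hg : KN g)
    (h : ∀ i j, i < j → c * g i j ≤ f i j) (i j : ℕ) (hij : i < j) (h0 : kw w f i j = 0) :
    kw w g i j = 0 := by
  have h1 : KN (fun i j => f i j - c * g i j) := fun i j hij => sub_nonneg.2 (h i j hij)
  have h2 : 0 ≤ kw w f i j - c * kw w g i j := by
    have h2 := kw_nonneg w _ h1 i j hij
    rw [V11_kw_sub] at h2
    exact h2
  rw [h0] at h2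
  have h3 := kw_nonneg w g hg i j hij
  nlinarith

private lemma V11_kd_nn (a b : ℕ) : KN (kd a b) := by
  intro i j _
  unfold kd
  split_ifs <;> norm_num

private lemma V11_zero (n : ℕ) (w : List ℕ) (F : Sym2 ℕ → ℚ) (hF : KN (kT F))
    (h : OmN q0 0 (n + 1) (actW q0 0 w F) = 0) (j : ℕ) (h1 : 1 ≤ j) (h2 : j ≤ n + 1) :
    kw w (kT F) 0 j = 0 := by
  rw [OmN_kT] at h
  have h3 : ∀ i ∈ Finset.range (n + 1), q0 ^ i * kT (actW q0 0 w F) 0 (i + 1) =
      q0 ^ i * kw w (kT F) 0 (i + 1) := fun i _ => by rw [kw_kT w F 0 (i + 1) (by omega)]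
  rw [Finset.sum_congr rfl h3] at h
  have h4 : ∀ i ∈ Finset.range (n + 1), 0 ≤ q0 ^ i * kw w (kT F) 0 (i + 1) := fun i _ =>
    mul_nonneg (pow_nonneg q0_pos.le _) (kw_nonneg w _ hF 0 (i + 1) (by omega))
  have h5 := (Finset.sum_eq_zero_iff_of_nonneg h4).1 h (j - 1) (Finset.mem_range.2 (by omega))
  rw [Nat.sub_add_cancel h1] at h5
  rcases mul_eq_zero.1 h5 with h6 | h6
  · exact absurd h6 (pow_ne_zero _ q0_pos.ne')
  · exact h6

private lemma V11_KZ (n : ℕ) (w : List ℕ) (hw : ∀ k ∈ w, k < n + 1) (a b : ℕ) (hb : b ≤ n + 1)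
    (h : ∀ j, 1 ≤ j → j ≤ n + 1 → kw w (kd a b) 0 j = 0) :
    KZ (kw (w ++ V11_C n n) (kd a b)) := by
  intro i j hij
  rw [kw_append]
  by_cases hj : j ≤ n + 1
  · exact kw_C_kill n _ h i j hij hj
  · refine kw_support n (V11_C n n) (fun k hk => ?_) _ ?_ i j hij (by omega)
    · have := V11_C_mem n n k hk; omega
    · intro i j hij hj
      refine kw_support n w (fun k hk => ?_) _ ?_ i j hij hj
      · have := hw k hk; omega
      · intro i j _ hj
        unfold kd
        rw [if_neg]
        rintro ⟨_, e⟩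
        omega

private lemma V11_append_lt (n : ℕ) (w : List ℕ) (hw : ∀ k ∈ w, k < n + 1) (j : ℕ) :
    ∀ k ∈ w ++ V11_C n j, k < n + 1 := by
  intro k hk
  rcases List.mem_append.1 hk with hk | hk
  · exact hw k hk
  · exact (V11_C_mem n j k hk).2

private lemma V11_HH (n j : ℕ) : mword (n + 1) (V11_C n j) ∈ HH (n + 1) := by
  have : ∀ w : List ℕ, (∀ k ∈ w, k ≠ 0) → mword (n + 1) w ∈ HH (n + 1) := by
    intro w
    induction w with
    | nil => intro _; simp [mword, one_mem]
    | cons k w ih =>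
      intro hw
      have e : mword (n + 1) (k :: w) = sg (n + 1) k * mword (n + 1) w := by simp [mword]
      rw [e]
      refine mul_mem (Subgroup.subset_closure ⟨k, ?_, rfl⟩) (ih fun k hk => hw k (by simp [hk]))
      have := hw k (by simp)
      omega
  exact this _ fun k hk => (V11_C_mem n j k hk).1

private lemma V11_step (n k : ℕ) (p : List ℕ) (hp : ∀ i ∈ p, i < n + 1) (P : Polynomial ℚ)
    (hP : OmN qK tK (n + 1) (rac (brV (n + 1)) (fun _ => 1) ((zz n ^ (k + 1))⁻¹ *
      mword (n + 1) p)) = algebraMap (Polynomial ℚ) KK P) :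
    ∃ p2 : List ℕ, (∀ i ∈ p2, i < n + 1) ∧ mword (n + 1) (p ++ V11_C n n ++ V11_C n n) =
      mword (n + 1) (List.range (n + 1)) * mword (n + 1) (List.range (n + 1)).reverse *
        mword (n + 1) p2 := by
  -- the polynomial of `1 . p`
  have hone : ∀ w : List ℕ, (∀ i ∈ w, i < n + 1) → ∀ F : Sym2 ℕ → Polynomial ℚ,
      OmN qK tK (n + 1) (rac (brV (n + 1)) (fun z => algebraMap (Polynomial ℚ) KK (F z))
        (mword (n + 1) w)) =
      algebraMap (Polynomial ℚ) KK (OmN qP tP (n + 1) (actW qP tP w F)) := by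
    intro w hw F
    rw [rac_mword (n + 1) w hw, V11_poly]
  have hfun1 : (fun z : Sym2 ℕ => algebraMap (Polynomial ℚ) KK ((fun _ => 1) z)) =
      fun _ => (1 : KK) := by
    funext z; exact map_one _
  have hc : algebraMap (Polynomial ℚ) KK (tP ^ 2 * qP ^ (2 * n + 4)) =
      tK ^ 2 * qK ^ (2 * n + 4) := by
    simp only [map_mul, map_pow]; rfl
  have hA : OmN qP tP (n + 1) (actW qP tP p (fun _ => 1)) =
      (tP ^ 2 * qP ^ (2 * n + 4)) ^ (k + 1) * P := by
    apply algMap_inj
    rw [← hone p hp, hfun1, map_mul, map_pow, hc, ← hP, ← V11_zz_pow, mul_inv_cancel_left]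
  have hA0 : OmN q0 0 (n + 1) (actW q0 0 p (fun _ => 1)) = 0 := by
    have e := V11_eval n p (fun _ => 1)
    rw [hA] at e
    simp only [Polynomial.eval_one] at e
    rw [e]
    simp [tP]
  have hT1 : KN (kT (fun _ => 1)) := by
    intro i j hij
    rw [kT_one i j hij]
    split_ifs <;> norm_num
  have hB := V11_zero n p _ hT1 hA0
  have hC : ∀ l, 1 ≤ l → l ≤ n + 1 → KZ (kw (p ++ V11_C n n) (kd 0 l)) := by
    intro l hl1 hl2
    refine V11_KZ n p hp 0 l hl2 (fun j hj1 hj2 => ?_)
    refine V11_dom p 1 one_pos _ _ (V11_kd_nn 0 l) (fun i j hij => ?_) 0 j (by omega)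
      (hB j hj1 hj2)
    rw [kT_one i j hij, one_mul]
    unfold kd
    split_ifs <;> first | omega | norm_num
  obtain ⟨p1, hp1, e1⟩ := Kd (n + 1) (p ++ V11_C n n) (V11_append_lt n p hp n) hC
  rw [V11_mword_append, V11_mword_append] at e1
  -- the polynomial of `E_n . p1`
  have hfunE : (fun z : Sym2 ℕ => algebraMap (Polynomial ℚ) KK ((EE n : Sym2 ℕ → Polynomial ℚ) z))
      = (EE n : Sym2 ℕ → KK) := by
    funext z
    unfold EE
    split_ifs
    · exact map_one _
    · exact map_zero _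
  have hD : OmN qP tP (n + 1) (actW qP tP p (fun _ => 1)) =
      tP * qP ^ 2 * OmN qP tP (n + 1) (actW qP tP p1 (EE n)) := by
    apply algMap_inj
    rw [← hone p hp, hfun1, map_mul, ← hone p1 hp1, hfunE, ← V11_OmN_C n n, ← rac_mul, e1,
      rac_mul, V11_OmN_smul1 n _ _ _ _ (V11_delta n)]
    congr 1
    simp only [map_mul, map_pow]; rfl
  have hne : tP * qP ^ 2 ≠ 0 := by
    refine mul_ne_zero Polynomial.X_ne_zero (pow_ne_zero 2 ?_)
    intro h
    exact qK_ne (by unfold qK; rw [h, map_zero])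
  have hE : OmN qP tP (n + 1) (actW qP tP p1 (EE n)) =
      tP * qP ^ (2 * n + 2) * ((tP ^ 2 * qP ^ (2 * n + 4)) ^ k * P) := by
    apply mul_left_cancel₀ hne
    rw [← hD, hA]
    ring
  have hE0 : OmN q0 0 (n + 1) (actW q0 0 p1 (EE n)) = 0 := by
    have e := V11_eval n p1 (EE n)
    have ee : (fun z : Sym2 ℕ => ((EE n : Sym2 ℕ → Polynomial ℚ) z).eval 0) =
        (EE n : Sym2 ℕ → ℚ) := by
      funext z
      unfold EE
      split_ifs <;> simp
    rw [hE, ee] at e
    rw [e]
    simp [tP]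
  have hT2 : KN (kT (EE n)) := by
    intro i j hij
    by_cases hj : j = n + 1
    · exact ((kT_E n i j hij).2 hj).le
    · rw [(kT_E n i j hij).1 hj]
  have hF := V11_zero n p1 _ hT2 hE0
  have hG : ∀ i, i < n + 1 → KZ (kw (p1 ++ V11_C n n) (kd i (n + 1))) := by
    intro a ha
    refine V11_KZ n p1 hp1 a (n + 1) le_rfl (fun j hj1 hj2 => ?_)
    refine V11_dom p1 (kT (EE n) a (n + 1)) ((kT_E n a (n + 1) ha).2 rfl) _ _
      (V11_kd_nn a (n + 1)) (fun i j hij => ?_) 0 j (by omega) (hF j hj1 hj2)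
    unfold kd
    by_cases h : i = a ∧ j = n + 1
    · rw [if_pos h, h.1, h.2, mul_one]
    · rw [if_neg h, mul_zero]
      exact hT2 i j hij
  obtain ⟨p2, hp2, e2⟩ := Kd' (n + 1) (p1 ++ V11_C n n) (V11_append_lt n p1 hp1 n) hG
  rw [V11_mword_append, V11_mword_append] at e2
  refine ⟨p2, hp2, ?_⟩
  rw [V11_mword_append, V11_mword_append, e1, mul_assoc, e2, mul_assoc]

theorem V0 (n : ℕ) (f : Br (n + 1)) (P : Polynomial ℚ)
    (hP : OmN qK tK (n + 1) (rac (brV (n + 1)) (fun _ => 1) f) = algebraMap (Polynomial ℚ) KK P) :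
    ∃ h ∈ HH (n + 1), ∃ h' ∈ HH (n + 1), ∃ w : List ℕ, (∀ k ∈ w, k < n + 1) ∧
      f = h * mword (n + 1) w * h' := by
  obtain ⟨k, p, hp, rfl⟩ := exists_pos n f
  induction k generalizing p with
  | zero =>
    refine ⟨1, one_mem _, 1, one_mem _, p, hp, ?_⟩
    simp
  | succ k ih =>
    obtain ⟨p2, hp2, e⟩ := V11_step n k p hp P hP
    have hz : zz n = mword (n + 1) (List.range (n + 1)) *
        mword (n + 1) (List.range (n + 1)).reverse * mword (n + 1) (V11_C n (n + 1)) := zz_eq n
    set A := mword (n + 1) (V11_C n n) with hA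
    set B := mword (n + 1) (V11_C n (n + 1)) with hB
    have hzc : ∀ g : Br (n + 1), (zz n ^ (k + 1))⁻¹ * (zz n * g) = (zz n ^ k)⁻¹ * g := by
      intro g
      rw [pow_succ', mul_inv_rev, mul_assoc, inv_mul_cancel_left]
    have hcomm : ∀ g : Br (n + 1), (zz n ^ k)⁻¹ * g = g * (zz n ^ k)⁻¹ := by
      intro g
      have h1 : Commute (zz n) g := zz_central n g
      exact ((h1.pow_left k).inv_left).eq
    -- `p = z B⁻¹ p2 A⁻¹ A⁻¹`
    have e3 : mword (n + 1) p = zz n * (B⁻¹ * mword (n + 1) p2 * A⁻¹ * A⁻¹) := by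
      rw [V11_mword_append, V11_mword_append, ← hA] at e
      have : mword (n + 1) p = (mword (n + 1) p * A * A) * A⁻¹ * A⁻¹ := by group
      rw [this, e, hz]
      group
    have e4 : (zz n ^ (k + 1))⁻¹ * mword (n + 1) p =
        B⁻¹ * ((zz n ^ k)⁻¹ * mword (n + 1) p2) * A⁻¹ * A⁻¹ := by
      rw [e3, hzc]
      have : (zz n ^ k)⁻¹ * (B⁻¹ * mword (n + 1) p2 * A⁻¹ * A⁻¹) =
          ((zz n ^ k)⁻¹ * B⁻¹) * mword (n + 1) p2 * A⁻¹ * A⁻¹ := by group
      rw [this, hcomm B⁻¹]
      group
    have e5 : (zz n ^ k)⁻¹ * mword (n + 1) p2 =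
        B * ((zz n ^ (k + 1))⁻¹ * mword (n + 1) p) * A * A := by
      rw [e4]; group
    have hP' : OmN qK tK (n + 1) (rac (brV (n + 1)) (fun _ => 1)
        ((zz n ^ k)⁻¹ * mword (n + 1) p2)) = algebraMap (Polynomial ℚ) KK P := by
      rw [e5, rac_mul, hA, V11_OmN_C, ← hA, rac_mul, hA, V11_OmN_C, rac_mul, hB, V11_rac_one_C,
        hP]
    obtain ⟨h, hh, h', hh', w, hw, e6⟩ := ih p2 hp2 hP'
    refine ⟨B⁻¹ * h, mul_mem (inv_mem (V11_HH n (n + 1))) hh, h' * A⁻¹ * A⁻¹,
      mul_mem (mul_mem hh' (inv_mem (V11_HH n n))) (inv_mem (V11_HH n n)), w, hw, ?_⟩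
    rw [e4, e6]
    group

end Pool.Agent.VB

end Row_V11
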