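import Pool.Agent.Lib.MP_7c21d5_al.VB01_Modules
import Pool.Agent.Lib.MP_7c21d5_al.VB02_Braids
import Pool.Agent.Lib.MP_7c21d5_al.VB03_Artin
import Pool.Agent.Lib.MP_7c21d5_al.VB05_Split
import Pool.Agent.Lib.MP_7c21d5_al.VB06_Cycle
import Pool.Agent.Lib.MP_7c21d5_al.VB07_Krammer

set_option autoImplicit false

section Row_X0

/-!
Definitions: products of conjugates of generators, the degree.
-/

namespace Pool.Agent.VB

open FreeGroup (of)

/-- `φ` is a product of `r` conjugates of generators -/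
def IsPC (r : ℕ) (φ : FreeGroup ℕ) : Prop := ∃ L : List (FreeGroup ℕ × ℕ), L.length = r ∧ φ = uprod L

/-- total exponent on the free group -/
def degF : FreeGroup ℕ →* Multiplicative ℤ := FreeGroup.lift (fun _ => Multiplicative.ofAdd 1)

end Pool.Agent.VB

end Row_X0

section Row_X1

/-!
ROW X1: facts on IsPC and the degree.  alpha n b (of k) is a conjugate of a generator (generators bact and their inverses, closure);
so alpha n b maps conjugates of generators to such.  degF ∘ alpha n b = degF (on generators).  degG: SemidirectProduct.lift degF 1.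
-/

namespace Pool.Agent.VB

open FreeGroup (of)

private def X1_Q (e : MulAut (FreeGroup ℕ)) : Prop :=
  ∀ k : ℕ, ∃ (w : FreeGroup ℕ) (j : ℕ), e (of k) = w * of j * w⁻¹

private theorem X1_Q_one : X1_Q 1 := fun k => ⟨1, k, by simp⟩

private theorem X1_Q_mul {e f : MulAut (FreeGroup ℕ)} (he : X1_Q e) (hf : X1_Q f) : X1_Q (e * f) := by
  intro k
  obtain ⟨w, j, h⟩ := hf k
  obtain ⟨v, i, h'⟩ := he j
  refine ⟨e w * v, i, ?_⟩
  rw [MulAut.mul_apply, h, map_mul, map_mul, map_inv, h']
  group

private theorem X1_Q_bact (i : ℕ) : X1_Q (bact i) := by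
  intro k
  by_cases h1 : k = i
  · subst h1
    exact ⟨1, k + 1, by rw [bact_self]; simp⟩
  · by_cases h2 : k = i + 1
    · subst h2
      exact ⟨(of (i + 1))⁻¹, i, by rw [bact_succ, inv_inv]⟩
    · exact ⟨1, k, by rw [bact_ne i k h1 h2]; simp⟩

private theorem X1_bact_inv (i k : ℕ) : (bact i)⁻¹ (of k) = bact0' i k := by
  have h : (bact i)⁻¹ (of k) = FreeGroup.lift (bact0' i) (of k) := rfl
  rw [h, FreeGroup.lift_apply_of]

private theorem X1_Q_bact_inv (i : ℕ) : X1_Q (bact i)⁻¹ := by
  intro k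
  rw [X1_bact_inv]
  by_cases h1 : k = i
  · subst h1
    exact ⟨of k, k + 1, by simp [bact0']⟩
  · by_cases h2 : k = i + 1
    · subst h2
      exact ⟨1, i, by simp [bact0']⟩
    · exact ⟨1, k, by simp [bact0', h1, h2]⟩

private theorem X1_Q_alpha (n : ℕ) (b : Br n) : X1_Q (alpha n b) := by
  obtain ⟨w, rfl⟩ := QuotientGroup.mk_surjective b
  have key : ∀ w : FreeGroup ℕ, X1_Q ((alpha n).comp (QuotientGroup.mk' _) w) := by
    intro w
    refine FreeGroup.induction_on w ?_ ?_ ?_ ?_
    · rw [map_one]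
      exact X1_Q_one
    · intro k
      have h : (alpha n).comp (QuotientGroup.mk' _) (of k) = alpha n (sg n k) := rfl
      change X1_Q ((alpha n).comp (QuotientGroup.mk' _) (of k))
      rw [h, alpha_sg]
      split_ifs
      · exact X1_Q_bact k
      · exact X1_Q_one
    · intro k _
      have h : (alpha n).comp (QuotientGroup.mk' _) (of k) = alpha n (sg n k) := rfl
      change X1_Q ((alpha n).comp (QuotientGroup.mk' _) (of k)⁻¹)
      rw [map_inv, h, alpha_sg]
      split_ifs
      · exact X1_Q_bact_inv k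
      · rw [inv_one]
        exact X1_Q_one
    · intro x y hx hy
      rw [map_mul]
      exact X1_Q_mul hx hy
  exact key w

theorem alpha_gen (n : ℕ) (b : Br n) (k : ℕ) :
    ∃ (w : FreeGroup ℕ) (j : ℕ), alpha n b (of k) = w * of j * w⁻¹ :=
  X1_Q_alpha n b k

private theorem X1_uprod_cons (p : FreeGroup ℕ × ℕ) (L : List (FreeGroup ℕ × ℕ)) :
    uprod (p :: L) = uu p * uprod L := by simp [uprod]

theorem IsPC.alpha {r : ℕ} {φ : FreeGroup ℕ} (h : IsPC r φ) (n : ℕ) (b : Br n) :
    IsPC r (alpha n b φ) := by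
  obtain ⟨L, hL, rfl⟩ := h
  induction L generalizing r with
  | nil => exact ⟨[], hL, by simp [uprod]⟩
  | cons p L ih =>
    obtain ⟨L', h1, h2⟩ := ih rfl
    obtain ⟨w, j, hw⟩ := alpha_gen n b p.2
    refine ⟨(Pool.Agent.VB.alpha n b p.1 * w, j) :: L', ?_, ?_⟩
    · rw [List.length_cons, h1, ← hL, List.length_cons]
    · rw [X1_uprod_cons, X1_uprod_cons, map_mul, ← h2]
      congr 1
      simp only [uu]
      rw [map_mul, map_mul, map_inv, hw]
      group

theorem IsPC.conj {r : ℕ} {φ : FreeGroup ℕ} (h : IsPC r φ) (g : FreeGroup ℕ) :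
    IsPC r (g * φ * g⁻¹) := by
  obtain ⟨L, hL, rfl⟩ := h
  induction L generalizing r with
  | nil => exact ⟨[], hL, by simp [uprod]⟩
  | cons p L ih =>
    obtain ⟨L', h1, h2⟩ := ih rfl
    refine ⟨(g * p.1, p.2) :: L', ?_, ?_⟩
    · rw [List.length_cons, h1, ← hL, List.length_cons]
    · rw [X1_uprod_cons, X1_uprod_cons, ← h2]
      simp only [uu]
      group

theorem IsPC.mul {r s : ℕ} {φ ψ : FreeGroup ℕ} (h : IsPC r φ) (h' : IsPC s ψ) :
    IsPC (r + s) (φ * ψ) := by
  obtain ⟨L, hL, rfl⟩ := h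
  obtain ⟨L', hL', rfl⟩ := h'
  exact ⟨L ++ L', by rw [List.length_append, hL, hL'], by simp [uprod]⟩

theorem isPC_one : IsPC 0 1 := ⟨[], rfl, rfl⟩

theorem isPC_zero {φ : FreeGroup ℕ} (h : IsPC 0 φ) : φ = 1 := by
  obtain ⟨L, hL, rfl⟩ := h
  rw [List.length_eq_zero_iff.1 hL]
  rfl

private theorem X1_degF_of (k : ℕ) : Pool.Agent.VB.degF (of k) = Multiplicative.ofAdd 1 := by
  simp [Pool.Agent.VB.degF]

theorem IsPC.degF {r : ℕ} {φ : FreeGroup ℕ} (h : IsPC r φ) :
    degF φ = Multiplicative.ofAdd (r : ℤ) := by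
  obtain ⟨L, hL, rfl⟩ := h
  induction L generalizing r with
  | nil =>
    have h0 : r = 0 := by simpa using hL.symm
    subst h0
    simp [uprod]
  | cons p L ih =>
    have h1 := ih rfl
    have hr : r = L.length + 1 := by simpa using hL.symm
    subst hr
    rw [X1_uprod_cons, map_mul, h1]
    simp only [uu]
    rw [map_mul, map_mul, map_inv, X1_degF_of, mul_comm (Pool.Agent.VB.degF p.1), mul_inv_cancel_right,
      ← ofAdd_add]
    push_cast
    rw [add_comm]

theorem degF_alpha (n : ℕ) (b : Br n) (φ : FreeGroup ℕ) : degF (alpha n b φ) = degF φ := by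
  have key : degF.comp (alpha n b).toMonoidHom = degF := by
    refine FreeGroup.ext_hom _ _ fun k => ?_
    obtain ⟨w, j, hw⟩ := alpha_gen n b k
    have h1 : (degF.comp (alpha n b).toMonoidHom) (of k) = degF (alpha n b (of k)) := rfl
    rw [h1, hw, map_mul, map_mul, map_inv, X1_degF_of, X1_degF_of, mul_comm (degF w), mul_inv_cancel_right]
  exact DFunLike.congr_fun key φ

/-- degree on `Gam n` : the degree of the free group component -/
theorem degF_left_mul (n : ℕ) (g h : Gam n) : degF (g * h).left = degF g.left * degF h.left := by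
  rw [SemidirectProduct.mul_left, map_mul, degF_alpha]

end Pool.Agent.VB

end Row_X1

section Row_X2

/-!
ROW X2: positive braids.  (1) For a positive word w (letters < n+1) and p with p.1 ≤ n+1: (Theta (mword w) p).2 = γ * p.2 with IsPC D γ.left for some D
(each letter multiplies by 1, y_k or s; alpha keeps IsPC; note mword acts by its last letter first; position stays ≤ n+1).
(2) for h in HH (n+1): Theta h (0,γ) = (0, inr η * γ) for some η : Br n independent of γ, and (Theta h p).1 = 0 iff p.1 = 0 (p.1 ≤ n+1) (letters k ≥ 1; closure_induction).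
(3) So if iota n γ = h [w] h' with γ in GamP n then IsPC D γ.left, and D = degree.
-/

namespace Pool.Agent.VB

open FreeGroup (of)

private theorem X2_isPC_of (k : ℕ) : IsPC 1 (of k : FreeGroup ℕ) :=
  ⟨[(1, k)], rfl, by simp [uprod, uu]⟩

private theorem X2_step (n k : ℕ) (p : ℕ × Gam n) :
    ∃ (d : ℕ) (δ : Gam n), (thF n k p).2 = δ * p.2 ∧ IsPC d δ.left := by
  by_cases h1 : n + 1 < p.1 ∨ n < k
  · exact ⟨0, 1, by simp [thF, h1], isPC_one⟩
  · by_cases h2 : p.1 = k
    · refine ⟨0, 1, ?_, isPC_one⟩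
      unfold thF
      rw [if_neg h1, if_pos h2, one_mul]
    · by_cases h3 : p.1 = k + 1
      · refine ⟨1, yy n k, ?_, ?_⟩
        · unfold thF
          rw [if_neg h1, if_neg h2, if_pos h3]
        · simp only [yy, SemidirectProduct.left_inl]
          exact X2_isPC_of k
      · by_cases h4 : p.1 < k
        · refine ⟨0, ss n (k - 1), ?_, ?_⟩
          · unfold thF
            rw [if_neg h1, if_neg h2, if_neg h3, if_pos h4]
          · simp only [ss, SemidirectProduct.left_inr]
            exact isPC_one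
        · refine ⟨0, ss n k, ?_, ?_⟩
          · unfold thF
            rw [if_neg h1, if_neg h2, if_neg h3, if_neg h4]
          · simp only [ss, SemidirectProduct.left_inr]
            exact isPC_one

theorem pos_word (n : ℕ) (w : List ℕ) (hw : ∀ k ∈ w, k < n + 1) (p : ℕ × Gam n)
    (hp : p.1 ≤ n + 1) :
    (Theta n (mword (n + 1) w) p).1 ≤ n + 1 ∧
      ∃ (D : ℕ) (γ : Gam n), (Theta n (mword (n + 1) w) p).2 = γ * p.2 ∧ IsPC D γ.left := by
  induction w with
  | nil =>
    refine ⟨?_, 0, 1, ?_, isPC_one⟩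
    · simpa [mword] using hp
    · simp [mword]
  | cons k w ih =>
    obtain ⟨h1, D, γ, h2, h3⟩ := ih (fun j hj => hw j (List.mem_cons_of_mem _ hj))
    have e : Theta n (mword (n + 1) (k :: w)) p = thF n k (Theta n (mword (n + 1) w) p) := by
      have : mword (n + 1) (k :: w) = sg (n + 1) k * mword (n + 1) w := by simp [mword]
      rw [this, map_mul, Equiv.Perm.mul_apply, Theta_sg]
    rw [e]
    obtain ⟨d, δ, h4, h5⟩ := X2_step n k (Theta n (mword (n + 1) w) p)
    refine ⟨thF_le n k _ h1, d + D, δ * γ, ?_, ?_⟩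
    · rw [h4, h2, mul_assoc]
    · rw [SemidirectProduct.mul_left]
      exact h5.mul (h3.alpha n _)

private theorem X2_thF_H (n k : ℕ) (hk : 1 ≤ k) :
    (∃ η : Br n, ∀ γ : Gam n, thF n k (0, γ) = (0, SemidirectProduct.inr η * γ)) ∧
      ∀ p : ℕ × Gam n, (thF n k p).1 = 0 → p.1 = 0 := by
  constructor
  · by_cases h : n < k
    · refine ⟨1, fun γ => ?_⟩
      unfold thF
      rw [if_pos (Or.inr h)]
      simp
    · refine ⟨sg n (k - 1), fun γ => ?_⟩
      unfold thF
      rw [if_neg (by simp; omega), if_neg (by simp; omega), if_neg (by simp), if_pos (by simp; omega)]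
      rfl
  · intro p hp
    unfold thF at hp
    split_ifs at hp with h1 h2 h3 h4
    · exact hp
    · simp at hp; omega
    · exact hp
    · exact hp

theorem HH_theta (n : ℕ) (h : Br (n + 1)) (hh : h ∈ HH (n + 1)) :
    (∃ η : Br n, ∀ γ : Gam n, Theta n h (0, γ) = (0, SemidirectProduct.inr η * γ)) ∧
      ∀ p : ℕ × Gam n, (Theta n h p).1 = 0 → p.1 = 0 := by
  unfold HH at hh
  induction hh using Subgroup.closure_induction with
  | mem x hx =>
    obtain ⟨k, hk, rfl⟩ := hx
    obtain ⟨⟨η, h1⟩, h2⟩ := X2_thF_H n k hk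
    refine ⟨⟨η, fun γ => ?_⟩, fun p hp => ?_⟩
    · rw [Theta_sg]; exact h1 γ
    · rw [Theta_sg] at hp; exact h2 p hp
  | one => exact ⟨⟨1, fun γ => by simp⟩, fun p hp => by simpa using hp⟩
  | mul x y _ _ hx hy =>
    obtain ⟨⟨η, h1⟩, h2⟩ := hx
    obtain ⟨⟨ζ, h3⟩, h4⟩ := hy
    refine ⟨⟨η * ζ, fun γ => ?_⟩, fun p hp => ?_⟩
    · rw [map_mul, Equiv.Perm.mul_apply, h3, h1, map_mul, mul_assoc]
    · rw [map_mul, Equiv.Perm.mul_apply] at hp
      exact h4 p (h2 _ hp)
  | inv x _ hx =>
    obtain ⟨⟨η, h1⟩, h2⟩ := hx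
    refine ⟨⟨η⁻¹, fun γ => ?_⟩, fun p hp => ?_⟩
    · rw [map_inv, Equiv.Perm.inv_eq_iff_eq, h1, map_inv, mul_inv_cancel_left]
    · set q := Theta n x⁻¹ p with hq
      have e : Theta n x q = p := by
        rw [hq, map_inv]; simp
      have e2 : q = (0, q.2) := Prod.ext hp rfl
      rw [e2, h1] at e
      rw [← e]

theorem pos_comp (n r : ℕ) (γ : Gam n) (hγ : γ ∈ GamP n) (h h' : Br (n + 1))
    (hh : h ∈ HH (n + 1)) (hh' : h' ∈ HH (n + 1)) (w : List ℕ) (hw : ∀ k ∈ w, k < n + 1)
    (e : iota n γ = h * mword (n + 1) w * h') (hd : degF γ.left = Multiplicative.ofAdd (r : ℤ)) :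
    IsPC r γ.left := by
  have h1 := Theta_iota n γ hγ 1
  rw [e, map_mul, map_mul, Equiv.Perm.mul_apply, Equiv.Perm.mul_apply, mul_one] at h1
  obtain ⟨⟨η, h2⟩, h3⟩ := HH_theta n h hh
  obtain ⟨⟨η', h4⟩, _⟩ := HH_theta n h' hh'
  rw [h4 1] at h1
  obtain ⟨_, D, δ, h5, h6⟩ := pos_word n w hw (0, SemidirectProduct.inr η' * 1) (by simp)
  set q := Theta n (mword (n + 1) w) (0, SemidirectProduct.inr η' * 1) with hq
  have h7 : q.1 = 0 := h3 q (by rw [h1])
  have h8 : q = (0, q.2) := Prod.ext h7 rfl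
  rw [h8, h2, h5] at h1
  have h9 : γ = SemidirectProduct.inr η * (δ * (SemidirectProduct.inr η' * 1)) := by
    exact (congrArg Prod.snd h1).symm
  have h10 : IsPC D γ.left := by
    rw [h9]
    simp only [SemidirectProduct.mul_left, SemidirectProduct.left_inr, SemidirectProduct.right_inr,
      map_one, mul_one, one_mul]
    exact h6.alpha n η
  have h11 := h10.degF
  rw [hd] at h11
  have h12 : D = r := by
    have := Multiplicative.ofAdd.injective h11
    exact_mod_cast this.symm
  rw [← h12]; exact h10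

end Pool.Agent.VB

end Row_X2

section Row_X3

/-!
ROW X3: degrees: degF (jj g).left = 1, degF (tau).left = ofAdd 1, degF (jj g * tau^r).left = ofAdd r.  (closure on generators of cyc:
degF of (s_k).left = 0, tau s tau^-1: use degF_left_mul; inverse: degF (g⁻¹).left = (degF g.left)⁻¹.)
-/

namespace Pool.Agent.VB

open FreeGroup (of)

/-- the degree as a homomorphism on `Gam n` -/
private def x3D (n : ℕ) : Gam n →* Multiplicative ℤ where
  toFun g := degF g.left
  map_one' := by rw [SemidirectProduct.one_left, map_one]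
  map_mul' g h := degF_left_mul n g h

private theorem x3D_apply (n : ℕ) (g : Gam n) : x3D n g = degF g.left := rfl

private theorem x3D_ss (n k : ℕ) : x3D n (ss n k) = 1 := by
  rw [x3D_apply, ss, SemidirectProduct.left_inr, map_one]

private theorem x3D_yy (n k : ℕ) : x3D n (yy n k) = Multiplicative.ofAdd 1 := by
  rw [x3D_apply, yy, SemidirectProduct.left_inl, degF, FreeGroup.lift_apply_of]

private theorem x3D_PP (n k : ℕ) : x3D n (PP (ss n) k) = 1 := by
  induction k with
  | zero => rw [PP, map_one]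
  | succ k ih => rw [PP, map_mul, ih, x3D_ss, one_mul]

private theorem x3D_tau (n : ℕ) : x3D n (tauG n) = Multiplicative.ofAdd 1 := by
  rw [tauG, map_mul, x3D_yy, cG, x3D_PP, mul_one]

private theorem x3D_jj (M : ℕ) (g : (cyc M).G) : x3D (M + 2) (jj M g) = 1 := by
  have h : (x3D (M + 2)).comp (jj M) = 1 := by
    apply PresentedGroup.ext
    intro k
    show x3D (M + 2) (jj M ((cyc M).x k)) = 1
    rw [jj_x, jjf]
    split_ifs
    · rw [map_mul, map_mul, map_inv, x3D_ss, mul_one, mul_inv_cancel]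
    · exact x3D_ss _ _
  exact DFunLike.congr_fun h g

theorem deg_jj (M : ℕ) (g : (cyc M).G) (r : ℕ) :
    degF (jj M g * tauG (M + 2) ^ r).left = Multiplicative.ofAdd (r : ℤ) := by
  rw [← x3D_apply, map_mul, map_pow, x3D_jj, x3D_tau, one_mul, ← ofAdd_nsmul]
  congr 1
  simp

end Pool.Agent.VB

end Row_X3

section Row_X4

/-!
ROW X4: Omega_0 in its two forms: Omf M 0 (resF F) = OmN qK tK (M+3) F.  omg M 0 p = q^p, cpos M 0 p = p; sum over Fin (M+3) = sum over range (M+3)
(Finset.sum_range / Fin.sum_univ_eq_sum_range); the double sum splits into p = l, l < p, l > p; swap to get (1+t)(1-q) sum_(p<r).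
-/

namespace Pool.Agent.VB

open FreeGroup (of)

private theorem X4_sum {R : Type} [CommRing R] (A B C : R) (g : ℕ → ℕ → R)
    (hg : ∀ p l, g p l = g l p) (m : ℕ) :
    ∑ p ∈ Finset.range m, ∑ l ∈ Finset.range m,
        (if p = l then A else if l < p then B else C) * g p l =
      A * ∑ p ∈ Finset.range m, g p p +
        (B + C) * ∑ r ∈ Finset.range m, ∑ p ∈ Finset.range r, g p r := by
  induction m with
  | zero => simp
  | succ m ih =>
    rw [Finset.sum_range_succ, Finset.sum_range_succ (fun r => ∑ p ∈ Finset.range r, g p r),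
      Finset.sum_range_succ (fun p => g p p)]
    have h1 : ∑ p ∈ Finset.range m, ∑ l ∈ Finset.range (m + 1),
        (if p = l then A else if l < p then B else C) * g p l =
        ∑ p ∈ Finset.range m, ∑ l ∈ Finset.range m,
          (if p = l then A else if l < p then B else C) * g p l +
          C * ∑ p ∈ Finset.range m, g p m := by
      rw [Finset.mul_sum, ← Finset.sum_add_distrib]
      refine Finset.sum_congr rfl fun p hp => ?_
      have hlt := Finset.mem_range.1 hp
      rw [Finset.sum_range_succ, if_neg (by omega : ¬ p = m), if_neg (by omega : ¬ m < p)]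
    have h2 : ∑ l ∈ Finset.range (m + 1), (if m = l then A else if l < m then B else C) * g m l =
        B * ∑ p ∈ Finset.range m, g p m + A * g m m := by
      rw [Finset.sum_range_succ, if_pos rfl, Finset.mul_sum]
      congr 1
      refine Finset.sum_congr rfl fun p hp => ?_
      have hlt := Finset.mem_range.1 hp
      rw [if_neg (by omega : ¬ m = p), if_pos hlt, hg m p]
    rw [h1, h2, ih]
    ring

theorem Omf_OmN (M : ℕ) (F : Sym2 ℕ → KK) : Omf M 0 (resF M F) = OmN qK tK (M + 3) F := by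
  have homg : ∀ p : Fin (M + 3), omg M 0 p = qK ^ (p : ℕ) := fun p => by simp [omg]
  have hcnn : ∀ p l : Fin (M + 3), cnn M 0 p l =
      if (p : ℕ) = l then 1 - tK * qK else if (l : ℕ) < p then 1 - qK else tK * (1 - qK) :=
    fun p l => by simp [cnn, cpos, Fin.ext_iff]
  have hres : ∀ p l : Fin (M + 3), resF M F s(p, l) = F s((p : ℕ), (l : ℕ)) := fun p l => rfl
  have h1 : Omf M 0 (resF M F) = ∑ p : Fin (M + 3), ∑ l : Fin (M + 3),
      (if (p : ℕ) = l then 1 - tK * qK else if (l : ℕ) < p then 1 - qK else tK * (1 - qK)) *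
        (qK ^ ((p : ℕ) + l) * F s((p : ℕ), (l : ℕ))) := by
    unfold Omf NN
    refine Finset.sum_congr rfl fun p _ => ?_
    rw [Finset.mul_sum]
    refine Finset.sum_congr rfl fun l _ => ?_
    rw [homg, homg, hcnn, hres, pow_add]
    ring
  have h2 := X4_sum (1 - tK * qK) (1 - qK) (tK * (1 - qK))
    (fun p l => qK ^ (p + l) * F s(p, l))
    (fun p l => by rw [add_comm p l, Sym2.eq_swap]) (M + 3)
  have h3 : ∑ p : Fin (M + 3), ∑ l : Fin (M + 3),
      (if (p : ℕ) = l then 1 - tK * qK else if (l : ℕ) < p then 1 - qK else tK * (1 - qK)) *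
        (qK ^ ((p : ℕ) + l) * F s((p : ℕ), (l : ℕ))) =
      ∑ p ∈ Finset.range (M + 3), ∑ l ∈ Finset.range (M + 3),
        (if p = l then 1 - tK * qK else if l < p then 1 - qK else tK * (1 - qK)) *
        (qK ^ (p + l) * F s(p, l)) := by
    rw [Finset.sum_range]
    refine Finset.sum_congr rfl fun p _ => ?_
    rw [Finset.sum_range]
  rw [h1, h3, h2, OmN, Finset.mul_sum]
  congr 1
  · refine Finset.sum_congr rfl fun p _ => ?_
    rw [two_mul, mul_assoc]
  · ring

end Pool.Agent.VB

end Row_X4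

section Row_X5

/-!
ROW X5: plain conditions.  If Psi (cyc M) last a lv false g = 0 for both lv then IsPC (rr a) ((jj g * tau^(rr a)).left).
Omf_inv_of_Psi (D8), Omf_tau with F = 1 (resF 1 = oneV), Omf_one_poly: Omf M 0 (resF (1 . f)) = q^(2r) P, f = iota (jj g tau^r); X4: OmN = algebraMap of a polynomial (C q0^(2r) * P);
V0 with n = M+2; pos_comp with γ = jj g * tau^r (in GamP by J3) and deg_jj.
-/

namespace Pool.Agent.VB

open FreeGroup (of)

theorem plain_cond (M : ℕ) (a : Fin (M + 3)) (g : (cyc M).G)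
    (h : ∀ lv, Psi (cyc M) (lastA M) a lv false g = 0) :
    IsPC (rr a) ((jj M g * tauG (M + 2) ^ rr a).left) := by
  have hr : rr a ≤ M + 2 := by
    have := (a + 1 : Fin (M + 3)).isLt
    unfold rr
    omega
  have h1 := Omf_inv_of_Psi a g (h true) (h false)
  obtain ⟨P, hP⟩ := Omf_one_poly (M := M) (rr a) hr
  have hres : resF M (fun _ => 1) = oneV := rfl
  have h2 := Omf_tau (M := M) (rr a) hr (fun _ => 1) g
  rw [hres, h1, hP, Omf_OmN] at h2
  have h3 : qK ^ (2 * rr a) * algebraMap (Polynomial ℚ) KK P =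
      algebraMap (Polynomial ℚ) KK (qP ^ (2 * rr a) * P) := by
    rw [map_mul, map_pow]
    rfl
  rw [h3] at h2
  obtain ⟨u, hu, u', hu', w, hw, e⟩ := V0 (M + 2) _ _ h2
  exact pos_comp (M + 2) (rr a) _ (mul_mem (jj_mem M g) (pow_mem (tau_mem (M + 2)) _)) u u' hu hu' w hw e
    (deg_jj M g (rr a))

end Pool.Agent.VB

end Row_X5

section Row_X6

/-!
ROW X6: bar conditions.  Psi_true and Psi_map for flipH: Psi (cyc M) last a lv true g = Psi (cyc M) last (rev (a+1)) lv false (iotaA g)
(flipH.f last = rev (last + 1) = rev 0 = last).  rr (rev (a+1)) = (rev a : ℕ) = M+2-a (rev_succ_add) = M+3 - rr a for a ≠ last.  Then X5.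
-/

namespace Pool.Agent.VB

open FreeGroup (of)

theorem bar_cond (M : ℕ) (a : Fin (M + 3)) (ha : a ≠ lastA M) (g : (cyc M).G)
    (h : ∀ lv, Psi (cyc M) (lastA M) a lv true g = 0) :
    IsPC (M + 3 - rr a) ((jj M (iotaA M g) * tauG (M + 2) ^ (M + 3 - rr a)).left) := by
  have hlast : (flipH M).f (lastA M) = lastA M := by
    have e : (lastA M + 1 : Fin (M + 3)) = 0 := by simp [lastA]
    change Fin.rev (lastA M + 1) = lastA M
    rw [e]
    exact Fin.rev_zero (M + 2)
  have hr : rr (Fin.rev (a + 1)) = M + 3 - rr a := by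
    have h1 : rr a = (a : ℕ) + 1 := by
      unfold rr
      rw [Fin.val_add_one, if_neg ha]
    have h2 : rr (Fin.rev (a + 1)) = ((Fin.rev a : Fin (M + 3)) : ℕ) := by
      unfold rr
      rw [rev_succ_add]
    rw [h2, h1, Fin.val_rev]
  have hP : ∀ lv, Psi (cyc M) (lastA M) (Fin.rev (a + 1)) lv false (iotaA M g) = 0 := by
    intro lv
    have h1 := Psi_map (flipH M) (lastA M) a lv false (theta (cyc M) g)
    rw [hlast, ← Psi_true, h lv] at h1
    exact h1
  have h3 := plain_cond M (Fin.rev (a + 1)) (iotaA M g) hP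
  rw [hr] at h3
  exact h3

end Pool.Agent.VB

end Row_X6

section Row_X7

/-!
ROW X7: apply the reversal.  φ from revG_exists (n = M+2).  For γ with IsPC D γ.left: IsPC D ((φ γ).left)⁻¹: γ = inl ψ * inr β;
φ (inr β) is in the range of inr (generators), φ (inl x) = inl (x') (generators: images y_i -> omega y^-1 omega^-1, in the range of inl), and φ(inl (g y_c g^-1)) = inl (g' (w y_j^-1 w^-1) g'^-1).
So (φ γ).left = product of D conjugates of inverse generators, its inverse is a product of D conjugates of generators (reversed order).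
With bar_cond and rev_jj: φ (jj (iotaA g) tau^k) = jj g tau^-k.
-/

namespace Pool.Agent.VB

open FreeGroup (of)

section X7

variable {n : ℕ} (φ : Gam n →* Gam n)
  (h1 : ∀ i, i < n → φ (ss n i) = (ss n (n - 1 - i))⁻¹)
  (h2 : ∀ i, i ≤ n → φ (yy n i) = SemidirectProduct.inl (om (n + 1)) * (yy n (n - i))⁻¹ *
      (SemidirectProduct.inl (om (n + 1)))⁻¹)
  (h3 : ∀ i, n < i → φ (yy n i) = (yy n i)⁻¹)

include h2 h3 in
theorem X7_gen (i : ℕ) : ∃ (g : FreeGroup ℕ) (c : ℕ),
    φ (SemidirectProduct.inl (of i)) = SemidirectProduct.inl (g * (of c)⁻¹ * g⁻¹) := by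
  rcases Nat.lt_or_ge n i with hi | hi
  · refine ⟨1, i, ?_⟩
    have := h3 i hi
    simp only [yy] at this
    rw [this]; simp
  · refine ⟨om (n + 1), n - i, ?_⟩
    have := h2 i hi
    simp only [yy] at this
    rw [this]; simp only [map_mul, map_inv]

include h2 h3 in
theorem X7_inl (x : FreeGroup ℕ) : ∃ x' : FreeGroup ℕ,
    φ (SemidirectProduct.inl x) = SemidirectProduct.inl x' := by
  induction x using FreeGroup.induction_on with
  | C1 => exact ⟨1, by simp⟩
  | of i =>
    obtain ⟨g, c, h⟩ := X7_gen φ h2 h3 i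
    exact ⟨_, h⟩
  | inv_of i ih =>
    obtain ⟨x', h⟩ := ih
    exact ⟨x'⁻¹, by rw [map_inv, map_inv, h, map_inv]⟩
  | mul x y hx hy =>
    obtain ⟨x', h⟩ := hx
    obtain ⟨y', h'⟩ := hy
    exact ⟨x' * y', by rw [map_mul, map_mul, h, h', map_mul]⟩

include h2 h3 in
theorem X7_uu (q : FreeGroup ℕ × ℕ) : ∃ q' : FreeGroup ℕ × ℕ,
    φ (SemidirectProduct.inl (uu q)) = SemidirectProduct.inl (uu q')⁻¹ := by
  obtain ⟨x', hx⟩ := X7_inl φ h2 h3 q.1
  obtain ⟨g, c, hg⟩ := X7_gen φ h2 h3 q.2
  refine ⟨(x' * g, c), ?_⟩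
  simp only [uu]
  simp only [map_mul, map_inv, hx, hg]
  group

include h2 h3 in
theorem X7_uprod (L : List (FreeGroup ℕ × ℕ)) : ∃ L' : List (FreeGroup ℕ × ℕ),
    L'.length = L.length ∧
    φ (SemidirectProduct.inl (uprod L)) = SemidirectProduct.inl (uprod L')⁻¹ := by
  induction L with
  | nil => exact ⟨[], rfl, by simp [uprod]⟩
  | cons q L ih =>
    obtain ⟨L', hl, h⟩ := ih
    obtain ⟨q', hq⟩ := X7_uu φ h2 h3 q
    refine ⟨L' ++ [q'], by simp [hl], ?_⟩
    have e : uprod (q :: L) = uu q * uprod L := by simp [uprod]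
    have e' : uprod (L' ++ [q']) = uprod L' * uu q' := by simp [uprod]
    rw [e, e', map_mul, map_mul, hq, h, mul_inv_rev, map_mul]

include h1 in
theorem X7_inr (b : Br n) : ∃ b' : Br n,
    φ (SemidirectProduct.inr b) = SemidirectProduct.inr b' := by
  have key : ∀ b ∈ Subgroup.closure (Set.range (PresentedGroup.of (rels := brRels n))),
      ∃ b' : Br n, φ (SemidirectProduct.inr b) = SemidirectProduct.inr b' := by
    intro b hb
    induction hb using Subgroup.closure_induction with
    | mem x hx =>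
      obtain ⟨k, rfl⟩ := hx
      rcases Nat.lt_or_ge k n with hk | hk
      · exact ⟨(sg n (n - 1 - k))⁻¹, by
          have := h1 k hk
          simp only [ss] at this
          rw [map_inv]; exact this⟩
      · refine ⟨1, ?_⟩
        have := sg_eq_one n k hk
        have e : (PresentedGroup.of k : Br n) = 1 := this
        rw [e]; simp
    | one => exact ⟨1, by simp⟩
    | mul x y _ _ hx hy =>
      obtain ⟨x', h⟩ := hx
      obtain ⟨y', h'⟩ := hy
      exact ⟨x' * y', by rw [map_mul, map_mul, h, h', map_mul]⟩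
    | inv x _ hx =>
      obtain ⟨x', h⟩ := hx
      exact ⟨x'⁻¹, by rw [map_inv, map_inv, h, map_inv]⟩
  exact key b (by rw [PresentedGroup.closure_range_of]; trivial)

include h1 h2 h3 in
theorem X7_left {D : ℕ} (γ : Gam n) (h : IsPC D γ.left) : IsPC D ((φ γ).left)⁻¹ := by
  obtain ⟨L, hL, hL'⟩ := h
  obtain ⟨L', hl, hu⟩ := X7_uprod φ h2 h3 L
  obtain ⟨b', hb⟩ := X7_inr φ h1 γ.right
  refine ⟨L', hl.trans hL, ?_⟩
  have e : φ γ = SemidirectProduct.inl (uprod L')⁻¹ * SemidirectProduct.inr b' := by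
    conv_lhs => rw [← SemidirectProduct.inl_left_mul_inr_right γ]
    rw [map_mul, hL', hu, hb]
  rw [e]
  simp

end X7

theorem bar_cond' (M : ℕ) (a : Fin (M + 3)) (ha : a ≠ lastA M) (g : (cyc M).G)
    (h : ∀ lv, Psi (cyc M) (lastA M) a lv true g = 0) :
    IsPC (M + 3 - rr a) ((jj M g * (tauG (M + 2) ^ (M + 3 - rr a))⁻¹).left)⁻¹ := by
  obtain ⟨φ, h1, h2, h3, h4⟩ := revG_exists (M + 2) (by omega)
  have hb := bar_cond M a ha g h
  have := X7_left φ h1 h2 h3 _ hb
  rw [map_mul, map_pow, rev_jj M φ h1 h4, h4, inv_pow] at this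
  exact this

end Pool.Agent.VB

end Row_X7

section Row_X8

/-!
ROW X8: rewrite with β = (jj g).right, φ' = alpha β^-1 (jj g).left (so jj g = inr β * inl φ').  tau^r = om r c^r:
(jj g tau^r).left = alpha β (φ' om r).  For r < m = M+3: tau^-(m-r) = tau^r tau^-m = om r c^r c^-m (om m)^-1 = om r (om m)^-1 c^(r-m) (c commutes with om m), so
(jj g tau^-(m-r)).left = alpha β (φ' om r (om m)^-1).  Apply alpha β^-1 (IsPC.alpha); the second one: ((φ' om r)(om m)^-1)^-1 = om m (φ' om r)^-1, conjugate by (φ' om r)^-1.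
For a = last: rr = 0, φ' = 1 and om m is a product of m generators.
-/

namespace Pool.Agent.VB

open FreeGroup (of)

/-- `φ'` -/
noncomputable def phi' (M : ℕ) (g : (cyc M).G) : FreeGroup ℕ :=
  alpha (M + 2) ((jj M g).right)⁻¹ (jj M g).left

private theorem X8_inv (n : ℕ) (b : Br n) (w : FreeGroup ℕ) :
    alpha n b (alpha n b⁻¹ w) = w := by
  rw [map_inv]; exact MulAut.apply_inv_self _ _ _

private theorem X8_inv' (n : ℕ) (b : Br n) (w : FreeGroup ℕ) :
    alpha n b⁻¹ (alpha n b w) = w := by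
  rw [map_inv]; exact MulAut.inv_apply_self _ _ _

theorem jj_eq (M : ℕ) (g : (cyc M).G) :
    jj M g = SemidirectProduct.inr (jj M g).right * SemidirectProduct.inl (phi' M g) := by
  refine SemidirectProduct.ext ?_ ?_
  · rw [SemidirectProduct.mul_left, SemidirectProduct.left_inr, SemidirectProduct.right_inr,
      SemidirectProduct.left_inl, one_mul, phi', X8_inv]
  · rw [SemidirectProduct.mul_right, SemidirectProduct.right_inr, SemidirectProduct.right_inl,
      mul_one]

private theorem X8_PP (n : ℕ) (k : ℕ) : ∃ b : Br n, PP (ss n) k = SemidirectProduct.inr b := by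
  induction k with
  | zero => exact ⟨1, by simp [PP]⟩
  | succ k ih =>
    obtain ⟨b, hb⟩ := ih
    exact ⟨b * sg n k, by rw [PP, hb, ss, map_mul]⟩

private theorem X8_c (n : ℕ) : ∃ b : Br n, cG n = SemidirectProduct.inr b := X8_PP n n

private theorem X8_left (n : ℕ) (γ : Gam n) (w : FreeGroup ℕ) (b : Br n) :
    (γ * (SemidirectProduct.inl w * SemidirectProduct.inr b)).left =
      γ.left * alpha n γ.right w := by
  rw [SemidirectProduct.mul_left, SemidirectProduct.mul_left, SemidirectProduct.left_inl,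
    SemidirectProduct.right_inl, SemidirectProduct.left_inr, map_one, mul_one]

private theorem X8_om (r : ℕ) : IsPC r (om r) := by
  induction r with
  | zero => exact isPC_one
  | succ r ih =>
    have h1 : IsPC 1 (of r : FreeGroup ℕ) := ⟨[(1, r)], rfl, by simp [uprod, uu]⟩
    exact ih.mul h1

private theorem X8_taum (n : ℕ) (r : ℕ) (hr : r ≤ n + 1) :
    (tauG n ^ (n + 1 - r))⁻¹ =
      (SemidirectProduct.inl (om r * (om (n + 1))⁻¹) : Gam n) * (cG n ^ r * (cG n ^ (n + 1))⁻¹) := by
  have h1 : tauG n ^ r * tauG n ^ (n + 1 - r) = tauG n ^ (n + 1) := by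
    rw [← pow_add]; congr 1; omega
  have h2 : (tauG n ^ (n + 1 - r))⁻¹ = (tauG n ^ (n + 1))⁻¹ * tauG n ^ r := by
    rw [← h1, mul_inv_rev, mul_assoc, inv_mul_cancel, mul_one]
  have h3 : (tauG n ^ (n + 1))⁻¹ * tauG n ^ r = tauG n ^ r * (tauG n ^ (n + 1))⁻¹ := by
    have : Commute (tauG n ^ (n + 1)) (tauG n ^ r) := (Commute.refl (tauG n)).pow_pow _ _
    exact (this.inv_left).eq
  have h4 : Commute (cG n) (SemidirectProduct.inl (om (n + 1)) : Gam n) := c_om n
  have h5 : (tauG n ^ (n + 1))⁻¹ =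
      (SemidirectProduct.inl (om (n + 1)) : Gam n)⁻¹ * (cG n ^ (n + 1))⁻¹ := by
    rw [tau_pow n (n + 1) le_rfl, mul_inv_rev]
    exact ((h4.pow_left (n + 1)).inv_inv).eq
  have h6 : cG n ^ r * (SemidirectProduct.inl (om (n + 1)) : Gam n)⁻¹ =
      (SemidirectProduct.inl (om (n + 1)) : Gam n)⁻¹ * cG n ^ r :=
    ((h4.pow_left r).inv_right).eq
  rw [h2, h3, h5, tau_pow n r hr, map_mul, map_inv]
  calc (SemidirectProduct.inl (om r) : Gam n) * cG n ^ r *
        ((SemidirectProduct.inl (om (n + 1)) : Gam n)⁻¹ * (cG n ^ (n + 1))⁻¹)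
      = (SemidirectProduct.inl (om r) : Gam n) *
        (cG n ^ r * (SemidirectProduct.inl (om (n + 1)) : Gam n)⁻¹) * (cG n ^ (n + 1))⁻¹ := by
        simp only [mul_assoc]
    _ = _ := by rw [h6]; simp only [mul_assoc]

private theorem X8_rr (M : ℕ) : rr (lastA M) = 0 := by
  simp [rr, lastA]

theorem both_cond (M : ℕ) (a : Fin (M + 3)) (g : (cyc M).G)
    (h : ∀ lv d, Psi (cyc M) (lastA M) a lv d g = 0) :
    IsPC (rr a) (phi' M g * om (rr a)) ∧
      IsPC (M + 3 - rr a) ((phi' M g * om (rr a))⁻¹ * om (M + 3)) := by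
  have hr : rr a ≤ M + 3 := by
    have := (a + 1 : Fin (M + 3)).isLt
    exact le_of_lt this
  obtain ⟨b, hb⟩ := X8_c (M + 2)
  have hfirst : IsPC (rr a) (phi' M g * om (rr a)) := by
    have h1 := plain_cond M a g (fun lv => h lv false)
    rw [tau_pow (M + 2) (rr a) hr, hb, ← map_pow, X8_left] at h1
    have h2 := h1.alpha (M + 2) ((jj M g).right)⁻¹
    rw [map_mul, X8_inv'] at h2
    exact h2
  refine ⟨hfirst, ?_⟩
  by_cases ha : a = lastA M
  · subst ha
    rw [X8_rr] at hfirst ⊢
    have h0 := isPC_zero hfirst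
    rw [h0, inv_one, one_mul]
    exact X8_om (M + 3)
  · have h1 := bar_cond' M a ha g (fun lv => h lv true)
    have h2 := X8_taum (M + 2) (rr a) hr
    have e : M + 2 + 1 = M + 3 := rfl
    rw [e] at h2
    rw [h2, hb, ← map_pow, ← map_pow, ← map_inv, ← map_mul, X8_left] at h1
    have h3 := h1.alpha (M + 2) ((jj M g).right)⁻¹
    rw [map_inv, map_mul, X8_inv'] at h3
    have h4 := h3.conj (phi' M g * om (rr a))⁻¹
    have e2 : (phi' M g * om (rr a))⁻¹ *
        (alpha (M + 2) ((jj M g).right)⁻¹ (jj M g).left * (om (rr a) * (om (M + 3))⁻¹))⁻¹ *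
        ((phi' M g * om (rr a))⁻¹)⁻¹ = (phi' M g * om (rr a))⁻¹ * om (M + 3) := by
      change (phi' M g * om (rr a))⁻¹ *
        (phi' M g * (om (rr a) * (om (M + 3))⁻¹))⁻¹ *
        ((phi' M g * om (rr a))⁻¹)⁻¹ = (phi' M g * om (rr a))⁻¹ * om (M + 3)
      group
    rw [e2] at h4
    exact h4

end Pool.Agent.VB

end Row_X8

section Row_X9

/-!
ROW X9: use of the Artin-Hurwitz lemma.  T1 nonempty; r1 = min, rk = max of rr over T1 (a1, ak).  psi_r = φ' om r.  psi_(r1) = uprod L1 (length r1), psi_(rk)^-1 om m = uprod L2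
(length m - rk), psi_(r1)^-1 psi_(rk) = y_(r1)...y_(rk-1).  L = L1 ++ [(1,r1),...,(1,rk-1)] ++ L2, length m, uprod L = om m = omr 0 m.  artin_hurwitz (n = M+2, r = 0): b with alpha b (y_i) = uu L[i]
for i < m.  Then alpha b (om r1) = uprod L1 = psi_(r1) and alpha b (y_i) = y_i for r1 ≤ i < rk, so alpha b (om r) = psi_r for r1 ≤ r ≤ rk.
-/

namespace Pool.Agent.VB

open FreeGroup (of)

theorem om_omr (r : ℕ) : omr 0 r = om r := by
  induction r with
  | zero => simp [omr, om, PP]
  | succ r ih =>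
    have e : om (r + 1) = om r * of r := rfl
    rw [e, ← ih]
    simp [omr, List.range'_1_concat]

private theorem X9_omr_succ (r l : ℕ) : omr r (l + 1) = omr r l * of (r + l) := by
  simp [omr, List.range'_1_concat]

private theorem X9_om_add (r l : ℕ) : om (r + l) = om r * omr r l := by
  induction l with
  | zero => simp [omr]
  | succ l ih =>
    rw [X9_omr_succ, ← mul_assoc, ← ih]
    rfl

private theorem X9_uprod_append (L L' : List (FreeGroup ℕ × ℕ)) :
    uprod (L ++ L') = uprod L * uprod L' := by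
  simp [uprod]

private theorem X9_uprod_one (r l : ℕ) :
    uprod ((List.range' r l).map (fun i => ((1 : FreeGroup ℕ), i))) = omr r l := by
  have e : (uu ∘ fun i => ((1 : FreeGroup ℕ), i)) = fun k => (of k : FreeGroup ℕ) := by
    funext i
    simp [uu]
  unfold uprod omr
  rw [List.map_map, e]

private theorem X9_take (n : ℕ) (b : Br n) (L : List (FreeGroup ℕ × ℕ))
    (h : ∀ i (hi : i < L.length), alpha n b (of (0 + i)) = uu L[i]) (j : ℕ) (hj : j ≤ L.length) :
    alpha n b (om j) = uprod (L.take j) := by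
  induction j with
  | zero => simp [om, PP, uprod]
  | succ j ih =>
    have e : om (j + 1) = om j * of j := rfl
    have h1 := h j (by omega)
    rw [zero_add] at h1
    rw [e, map_mul, ih (by omega), List.take_succ_eq_append_getElem (by omega : j < L.length),
      X9_uprod_append, h1]
    simp [uprod]

theorem exists_beta (M : ℕ) (T1 : Set (Fin (M + 3))) (hT : T1.Nonempty) (g : (cyc M).G)
    (h : ∀ a ∈ T1, ∀ lv d, Psi (cyc M) (lastA M) a lv d g = 0) :
    ∃ b : Br (M + 2), ∀ a ∈ T1, alpha (M + 2) b (om (rr a)) = phi' M g * om (rr a) := by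
  obtain ⟨a1, ha1, hmin⟩ := Set.exists_min_image T1 (fun a => rr a) (Set.toFinite T1) hT
  obtain ⟨ak, hak, hmax⟩ := Set.exists_max_image T1 (fun a => rr a) (Set.toFinite T1) hT
  obtain ⟨L1, hL1, e1⟩ := (both_cond M a1 g (h a1 ha1)).1
  obtain ⟨L2, hL2, e2⟩ := (both_cond M ak g (h ak hak)).2
  have hle : rr a1 ≤ rr ak := hmin ak hak
  have hlt : rr ak < M + 3 := (ak + 1).isLt
  obtain ⟨l, hl⟩ := Nat.exists_eq_add_of_le hle
  set L := L1 ++ ((List.range' (rr a1) l).map (fun i => ((1 : FreeGroup ℕ), i)) ++ L2) with hLdef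
  have hlen : L.length = M + 3 := by
    simp only [hLdef, List.length_append, List.length_map, List.length_range', hL1, hL2]
    omega
  have hprod : uprod L = omr 0 L.length := by
    rw [hlen, om_omr, hLdef, X9_uprod_append, X9_uprod_append, X9_uprod_one, ← e1, ← e2, hl,
      X9_om_add (rr a1) l]
    group
  obtain ⟨b, _, hb⟩ := artin_hurwitz (M + 2) 0 L (by omega) hprod
  refine ⟨b, ?_⟩
  have key : ∀ j, j ≤ l → alpha (M + 2) b (om (rr a1 + j)) = phi' M g * om (rr a1 + j) := by
    intro j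
    induction j with
    | zero =>
      intro _
      rw [add_zero, X9_take (M + 2) b L hb (rr a1) (by omega), e1, hLdef, List.take_append,
        ← hL1]
      simp
    | succ j ih =>
      intro hj
      have e : om (rr a1 + (j + 1)) = om (rr a1 + j) * of (rr a1 + j) := rfl
      have h1 := hb (rr a1 + j) (by omega)
      rw [zero_add] at h1
      have h2 : L[rr a1 + j]'(by omega) = ((1 : FreeGroup ℕ), rr a1 + j) := by
        simp only [hLdef]
        rw [List.getElem_append_right (by omega)]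
        rw [List.getElem_append_left (by simp; omega)]
        simp [hL1]
      rw [e, map_mul, ih (by omega), h1, h2, mul_assoc]
      simp [uu]
  intro a ha
  have h3 : rr a1 ≤ rr a := hmin a ha
  have h4 : rr a ≤ rr ak := hmax a ha
  obtain ⟨j, hj⟩ := Nat.exists_eq_add_of_le h3
  rw [hj]
  exact key j (by omega)

end Pool.Agent.VB

end Row_X9

section Row_X10

/-!
ROW X10: description of the parabolic subgroups: v in par {a}ᶜ iff jj v = tau^r inr η tau^-r for some η : Br (M+2), r = rr a.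
a = last: par {last}ᶜ is generated by x_k, k < M+2, jj (x_k) = s_k; range of inr is generated by s_k; injectivity of jj (J4) for the converse.
General a: (rotH M (rr a)) maps par {last}ᶜ onto par {last + rr a}ᶜ = par {a}ᶜ, jj (rot^r v) = tau^r jj(v) tau^-r (jj_rot iterated; (rotH M 1) iterated r times is rotH M r: same on generators).
-/

namespace Pool.Agent.VB

open FreeGroup (of)

private theorem X10_ext {M : ℕ} {H : Type} [Group H] {f g : (cyc M).G →* H}
    (h : ∀ k, f ((cyc M).x k) = g ((cyc M).x k)) : f = g :=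
  PresentedGroup.ext h

private theorem X10_jj_small (M : ℕ) (k : Fin (M + 3)) (hk : k ≠ lastA M) :
    jj M ((cyc M).x k) = SemidirectProduct.inr (sg (M + 2) k) := by
  rw [jj_x]
  unfold jjf
  rw [if_neg]
  · rfl
  · intro h
    exact hk (Fin.ext (by rw [h]; simp [lastA]))

private theorem X10_last (M : ℕ) (v : (cyc M).G) :
    v ∈ (cyc M).par {lastA M}ᶜ ↔ ∃ η : Br (M + 2), jj M v = SemidirectProduct.inr η := by
  constructor
  · intro hv
    unfold ArcSys.par at hv
    induction hv using Subgroup.closure_induction with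
    | mem x hx =>
      obtain ⟨k, hk, rfl⟩ := hx
      exact ⟨_, X10_jj_small M k hk⟩
    | one => exact ⟨1, by rw [map_one, map_one]⟩
    | mul x y _ _ hx hy =>
      obtain ⟨a, ha⟩ := hx
      obtain ⟨b, hb⟩ := hy
      exact ⟨a * b, by rw [map_mul, map_mul, ha, hb]⟩
    | inv x _ hx =>
      obtain ⟨a, ha⟩ := hx
      exact ⟨a⁻¹, by rw [map_inv, map_inv, ha]⟩
  · rintro ⟨η, hη⟩
    have key : ∃ w ∈ (cyc M).par {lastA M}ᶜ, jj M w = SemidirectProduct.inr η := by
      have htop : η ∈ Subgroup.closure (Set.range (PresentedGroup.of : ℕ → Br (M + 2))) := by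
        rw [PresentedGroup.closure_range_of]
        exact Subgroup.mem_top η
      clear hη
      induction htop using Subgroup.closure_induction with
      | mem x hx =>
        obtain ⟨k, rfl⟩ := hx
        by_cases hk : k < M + 2
        · refine ⟨(cyc M).x ⟨k, by omega⟩, Subgroup.subset_closure ⟨⟨k, by omega⟩, ?_, rfl⟩, ?_⟩
          · intro h
            have h1 : (⟨k, by omega⟩ : Fin (M + 3)) = lastA M := h
            have h2 := congrArg Fin.val h1
            simp [lastA] at h2
            omega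
          · rw [X10_jj_small]
            · rfl
            · intro h1
              have h2 := congrArg Fin.val h1
              simp [lastA] at h2
              omega
        · refine ⟨1, one_mem _, ?_⟩
          rw [map_one]
          have : (PresentedGroup.of k : Br (M + 2)) = 1 := sg_eq_one (M + 2) k (by omega)
          rw [this, map_one]
      | one => exact ⟨1, one_mem _, by rw [map_one, map_one]⟩
      | mul x y _ _ hx hy =>
        obtain ⟨a, ha, ha'⟩ := hx
        obtain ⟨b, hb, hb'⟩ := hy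
        exact ⟨a * b, mul_mem ha hb, by rw [map_mul, map_mul, ha', hb']⟩
      | inv x _ hx =>
        obtain ⟨a, ha, ha'⟩ := hx
        exact ⟨a⁻¹, inv_mem ha, by rw [map_inv, map_inv, ha']⟩
    obtain ⟨w, hw, hw'⟩ := key
    have : v = w := jj_injective M (by rw [hη, hw'])
    rw [this]
    exact hw

private theorem X10_rot (M : ℕ) (r : ℕ) (hr : r < M + 3) (v : (cyc M).G) :
    jj M ((rotH M ⟨r, hr⟩).map v) =
      tauG (M + 2) ^ r * jj M v * (tauG (M + 2) ^ r)⁻¹ := by
  induction r with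
  | zero =>
    have h1 : (rotH M ⟨0, hr⟩).map = MonoidHom.id _ := by
      apply X10_ext
      intro k
      rw [ArcHom.map_x]
      show (cyc M).x (k + ⟨0, hr⟩) = (cyc M).x k
      congr 1
      exact add_zero k
    rw [h1]
    simp
  | succ r ih =>
    have hr' : r < M + 3 := by omega
    have h1 : (rotH M ⟨r + 1, hr⟩).map =
        (rotH M 1).map.comp (rotH M ⟨r, hr'⟩).map := by
      apply X10_ext
      intro k
      rw [ArcHom.map_x, MonoidHom.comp_apply, ArcHom.map_x, ArcHom.map_x]
      show (cyc M).x (k + ⟨r + 1, hr⟩) = (cyc M).x (k + ⟨r, hr'⟩ + 1)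
      rw [add_assoc]
      congr 2
      apply Fin.ext
      rw [Fin.val_add_one_of_lt]
      rw [Fin.lt_def, Fin.val_last]
      show r < M + 2
      omega
    rw [h1, MonoidHom.comp_apply, jj_rot, ih hr', pow_succ']
    group

private theorem X10_par {M : ℕ} {c : Fin (M + 3)} {X Y : Set (Fin (M + 3))} (h : ∀ k ∈ X, k + c ∈ Y)
    {v : (cyc M).G} (hv : v ∈ (cyc M).par X) : (rotH M c).map v ∈ (cyc M).par Y := by
  unfold ArcSys.par at hv
  induction hv using Subgroup.closure_induction with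
  | mem x hx =>
    obtain ⟨k, hk, rfl⟩ := hx
    rw [ArcHom.map_x]
    exact Subgroup.subset_closure ⟨k + c, h k hk, rfl⟩
  | one => rw [map_one]; exact one_mem _
  | mul x y _ _ hx hy => rw [map_mul]; exact mul_mem hx hy
  | inv x _ hx => rw [map_inv]; exact inv_mem hx

private theorem X10_inv {M : ℕ} (c d : Fin (M + 3)) (h : c + d = 0) (v : (cyc M).G) :
    (rotH M d).map ((rotH M c).map v) = v := by
  have h1 : (rotH M d).map.comp (rotH M c).map = MonoidHom.id _ := by
    apply X10_ext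
    intro k
    rw [MonoidHom.comp_apply, ArcHom.map_x, ArcHom.map_x]
    show (cyc M).x (k + c + d) = _
    rw [add_assoc, h, add_zero]
    rfl
  exact DFunLike.congr_fun h1 v

theorem mem_par_iff (M : ℕ) (a : Fin (M + 3)) (v : (cyc M).G) :
    v ∈ (cyc M).par {a}ᶜ ↔
      ∃ η : Br (M + 2), jj M v =
        tauG (M + 2) ^ rr a * SemidirectProduct.inr η * (tauG (M + 2) ^ rr a)⁻¹ := by
  have hL : lastA M + 1 = 0 := Fin.last_add_one _
  set w := (rotH M (-(a + 1))).map v with hw
  have hv : (rotH M (a + 1)).map w = v := by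
    rw [hw]
    exact X10_inv _ _ (neg_add_cancel _) v
  have hjv : jj M v = tauG (M + 2) ^ rr a * jj M w * (tauG (M + 2) ^ rr a)⁻¹ := by
    have h0 := X10_rot M (rr a) (a + 1).isLt w
    have h1 : (⟨rr a, (a + 1).isLt⟩ : Fin (M + 3)) = a + 1 := rfl
    rw [h1, hv] at h0
    exact h0
  have h1 : v ∈ (cyc M).par {a}ᶜ ↔ w ∈ (cyc M).par {lastA M}ᶜ := by
    constructor
    · intro h
      refine X10_par (Y := {lastA M}ᶜ) ?_ h
      intro k hk hc
      apply hk
      have hc' : k + -(a + 1) = lastA M := hc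
      show k = a
      have : k = lastA M + 1 + a := by
        rw [← hc']
        abel
      rw [this, hL, zero_add]
    · intro h
      rw [← hv]
      refine X10_par (Y := {a}ᶜ) ?_ h
      intro k hk hc
      apply hk
      have hc' : k + (a + 1) = a := hc
      show k = lastA M
      have h2 : k + 1 = 0 := by
        have : k + 1 + a = a := by rw [← add_assoc] at hc'; rw [add_right_comm]; exact hc'
        simpa using this
      exact add_right_cancel (h2.trans hL.symm)
  rw [h1, X10_last]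
  constructor
  · rintro ⟨η, hη⟩
    exact ⟨η, by rw [hjv, hη]⟩
  · rintro ⟨η, hη⟩
    refine ⟨η, ?_⟩
    rw [hjv] at hη
    exact mul_left_cancel (mul_right_cancel hη)

end Pool.Agent.VB

end Row_X10

section Row_X11

/-!
ROW X11: CT1 for b = last.  b0 from exists_beta, β = (jj g).right.  u in par {last}ᶜ with jj u = inr (β b0) (X10 with a = last, rr = 0: existence: surjectivity onto range inr:
every element of Br (M+2) is a product of s_k^(±1) = jj (x_k^(±1)), k < M+2).  v = u^-1 g: jj v = inr b0^-1 * inl φ'.  For a in T1, r = rr a: alpha b0 (om r) = φ' om r, i.e.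
inr b0 * inl (om r) * inr b0^-1 = inl φ' * inl (om r), so jj v = inl (om r) * inr b0^-1 * inl (om r)^-1 = tau^r c^-r inr b0^-1 c^r tau^-r (tau_pow, r ≤ M+2).
-/

namespace Pool.Agent.VB

open FreeGroup (of)

private theorem x11_surj (M : ℕ) (η : Br (M + 2)) :
    ∃ u : (cyc M).G, jj M u = SemidirectProduct.inr η := by
  have h : Subgroup.closure (Set.range (PresentedGroup.of (rels := brRels (M + 2)))) ≤
      (jj M).range.comap (SemidirectProduct.inr : Br (M + 2) →* Gam (M + 2)) := by
    rw [Subgroup.closure_le]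
    rintro _ ⟨k, rfl⟩
    change SemidirectProduct.inr (sg (M + 2) k) ∈ (jj M).range
    by_cases hk : k < M + 2
    · refine ⟨(cyc M).x ⟨k, by omega⟩, ?_⟩
      rw [jj_x, jjf]
      have : ¬ (((⟨k, by omega⟩ : Fin (M + 3)) : ℕ) = M + 2) := by
        simp only; omega
      rw [if_neg this]
      rfl
    · rw [sg_eq_one _ _ (by omega), map_one]
      exact Subgroup.one_mem _
  rw [PresentedGroup.closure_range_of] at h
  obtain ⟨u, hu⟩ := h (Subgroup.mem_top η)
  exact ⟨u, hu⟩

private theorem x11_PP {H H' : Type} [Group H] [Group H'] (φ : H →* H') (f : ℕ → H) (k : ℕ) :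
    PP (fun i => φ (f i)) k = φ (PP f k) := by
  induction k with
  | zero => simp [PP]
  | succ k ih => simp [PP, ih]

theorem CT1_last (M : ℕ) (T1 : Set (Fin (M + 3))) (hT : T1.Nonempty) (g : (cyc M).G)
    (h : ∀ a ∈ T1, ∀ lv d, Psi (cyc M) (lastA M) a lv d g = 0) :
    ∃ u ∈ (cyc M).par {lastA M}ᶜ, ∃ v : (cyc M).G, (∀ a ∈ T1, v ∈ (cyc M).par {a}ᶜ) ∧
      g = u * v := by
  obtain ⟨b0, hb0⟩ := exists_beta M T1 hT g h
  obtain ⟨u, hu⟩ := x11_surj M ((jj M g).right * b0)
  refine ⟨u, ?_, u⁻¹ * g, ?_, by group⟩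
  · rw [mem_par_iff]
    refine ⟨(jj M g).right * b0, ?_⟩
    have : rr (lastA M) = 0 := by simp [rr, lastA]
    rw [this, pow_zero, one_mul, inv_one, mul_one, hu]
  · intro a ha
    rw [mem_par_iff]
    have hr : rr a ≤ M + 2 + 1 := by
      unfold rr
      exact le_of_lt (a + 1).isLt
    have ht := tau_pow (M + 2) (rr a) hr
    have hc : cG (M + 2) ^ rr a =
        SemidirectProduct.inr ((PP (sg (M + 2)) (M + 2)) ^ rr a) := by
      rw [map_pow]
      congr 1
      exact x11_PP (SemidirectProduct.inr : Br (M + 2) →* Gam (M + 2)) (sg (M + 2)) (M + 2)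
    have hb := SemidirectProduct.inl_aut (φ := alpha (M + 2)) b0 (om (rr a))
    rw [hb0 a ha, map_mul] at hb
    have hg := jj_eq M g
    refine ⟨((PP (sg (M + 2)) (M + 2)) ^ rr a)⁻¹ * b0⁻¹ * (PP (sg (M + 2)) (M + 2)) ^ rr a, ?_⟩
    have hv : jj M (u⁻¹ * g) = SemidirectProduct.inr b0⁻¹ * SemidirectProduct.inl (phi' M g) := by
      rw [map_mul, map_inv, hu, hg, map_mul, map_inv]
      simp only [SemidirectProduct.mul_right, SemidirectProduct.right_inr,
        SemidirectProduct.right_inl, mul_one]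
      group
    rw [hv, ht, hc]
    simp only [map_mul, map_inv]
    rw [map_inv] at hb
    have e : (SemidirectProduct.inl (phi' M g) : Gam (M + 2)) =
        SemidirectProduct.inr b0 * SemidirectProduct.inl (om (rr a)) *
          (SemidirectProduct.inr b0)⁻¹ * (SemidirectProduct.inl (om (rr a)))⁻¹ := by
      rw [← hb]; group
    rw [e]
    group

end Pool.Agent.VB

end Row_X11

section Row_X12

/-!
ROW X12: CT1 for all b by rotation.  φ = rotH M c with b + c = last; Psi (cyc) (b+c) (a+c) lv d (φ.map g) = Psi (cyc) b a lv d g (B2); apply CT1_last to φ.map g, T1 + c; transport back by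
(rotH M (-c)).map (inverse; par X ↦ par (X - c)).
-/

namespace Pool.Agent.VB

open FreeGroup (of)

theorem rot_map_x (M : ℕ) (c k : Fin (M + 3)) :
    (rotH M c).map ((cyc M).x k) = (cyc M).x (k + c) :=
  (rotH M c).map_x k

theorem rot_inv (M : ℕ) (c : Fin (M + 3)) (g : (cyc M).G) :
    (rotH M (-c)).map ((rotH M c).map g) = g := by
  have h : ((rotH M (-c)).map).comp ((rotH M c).map) = MonoidHom.id (cyc M).G := by
    refine PresentedGroup.ext fun k => ?_
    show (rotH M (-c)).map ((rotH M c).map ((cyc M).x k)) = (cyc M).x k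
    rw [rot_map_x, rot_map_x, add_neg_cancel_right]
  exact DFunLike.congr_fun h g

theorem rot_par (M : ℕ) (c a : Fin (M + 3)) (g : (cyc M).G) (hg : g ∈ (cyc M).par {a}ᶜ) :
    (rotH M c).map g ∈ (cyc M).par {a + c}ᶜ := by
  have h : (cyc M).par {a}ᶜ ≤ ((cyc M).par {a + c}ᶜ).comap (rotH M c).map := by
    unfold ArcSys.par
    rw [Subgroup.closure_le]
    rintro _ ⟨k, hk, rfl⟩
    show (rotH M c).map ((cyc M).x k) ∈ (cyc M).par {a + c}ᶜ
    rw [rot_map_x]
    apply Subgroup.subset_closure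
    refine ⟨k + c, ?_, rfl⟩
    intro h
    exact hk (add_right_cancel h)
  exact h hg

theorem CT1 (M : ℕ) (b : Fin (M + 3)) (T1 : Set (Fin (M + 3))) (hT : T1.Nonempty)
    (g : (cyc M).G) (h : ∀ a ∈ T1, ∀ lv d, Psi (cyc M) b a lv d g = 0) :
    ∃ u ∈ (cyc M).par {b}ᶜ, ∃ v : (cyc M).G, (∀ a ∈ T1, v ∈ (cyc M).par {a}ᶜ) ∧
      g = u * v := by
  obtain ⟨c, hc⟩ : ∃ c : Fin (M + 3), b + c = lastA M := ⟨lastA M - b, by abel⟩
  obtain ⟨u, hu, v, hv, e⟩ := CT1_last M ((fun a => a + c) '' T1) (hT.image _)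
    ((rotH M c).map g) (by
      rintro _ ⟨a, ha, rfl⟩ lv d
      have h1 := Psi_map (rotH M c) b a lv d g
      rw [← hc]
      exact h1.trans (h a ha lv d))
  refine ⟨(rotH M (-c)).map u, ?_, (rotH M (-c)).map v, ?_, ?_⟩
  · have h1 := rot_par M (-c) (lastA M) u hu
    rwa [← hc, add_neg_cancel_right] at h1
  · intro a ha
    have h1 := rot_par M (-c) (a + c) v (hv (a + c) ⟨a, ha, rfl⟩)
    rwa [add_neg_cancel_right] at h1
  · rw [← map_mul, ← e, rot_inv]

end Pool.Agent.VB

end Row_X12

section Row_X13a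

/-!
ROW X13a: block lemma.  Strong induction on N ≤ n+1.  β fixes om r for r in R and om N.  If no r in R with 0 < r < N: artin_hurwitz for the block [0,N)
(alpha β (y_i) are conjugates of generators (X1), product om N = omr 0 N).  Otherwise let r = max of R ∩ (0,N): induction gives b1 in closure {s_k, k+1 < r, k+1 ∉ R} agreeing with β on
y_i, i < r; omr r (N-r) = (om r)^-1 om N is fixed by β: artin_hurwitz for the block gives b2 in closure {s_k, r ≤ k, k+1 < N} agreeing on r ≤ i < N; b = b1 * b2: b2 fixes y_i for i < r;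
for r ≤ i: alpha b2 (y_i) lies in the subgroup generated by y_j, j ≥ r, which b1 fixes (b1 is in <s_k, k+1 < r>).
-/

namespace Pool.Agent.VB

open FreeGroup (of)

private theorem x13a_om (r l : ℕ) : om (r + l) = om r * omr r l := by
  induction l with
  | zero => simp [omr]
  | succ l ih =>
    have h1 : om (r + (l + 1)) = om (r + l) * of (r + l) := rfl
    have h2 : omr r (l + 1) = omr r l * of (r + l) := by
      simp [omr, List.range'_concat]
    rw [h1, h2, ih, mul_assoc]

/-- the block version of the Artin-Hurwitz lemma for the tuple `alpha β (y_(r+i))` -/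
private theorem x13a_block (n : ℕ) (β : Br n) (r l : ℕ) (hn : r + l ≤ n + 1)
    (h : alpha n β (omr r l) = omr r l) :
    ∃ b ∈ Subgroup.closure {g : Br n | ∃ k, r ≤ k ∧ k + 1 < r + l ∧ g = sg n k},
      ∀ i, i < l → alpha n b (of (r + i)) = alpha n β (of (r + i)) := by
  choose w j hwj using alpha_gen n β
  set L : List (FreeGroup ℕ × ℕ) := (List.range l).map (fun i => (w (r + i), j (r + i))) with hL
  have hlen : L.length = l := by simp [hL]
  have hprod : uprod L = omr r L.length := by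
    rw [hlen]
    conv_rhs => rw [← h]
    rw [hL, uprod, omr, List.range'_eq_map_range, map_list_prod, List.map_map, List.map_map,
      List.map_map]
    congr 1
    apply List.map_congr_left
    intro i _
    simp only [Function.comp_apply, uu]
    exact (hwj (r + i)).symm
  obtain ⟨b, hb, hb'⟩ := artin_hurwitz n r L (by rw [hlen]; exact hn) hprod
  refine ⟨b, by rw [hlen] at hb; exact hb, fun i hi => ?_⟩
  have hi' : i < L.length := by rw [hlen]; exact hi
  rw [hb' i hi', hwj (r + i)]
  simp [hL, uu]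

private theorem x13a_fix_small (n r i : ℕ) (hi : i < r) (b : Br n)
    (hb : b ∈ Subgroup.closure {g : Br n | ∃ k, r ≤ k ∧ g = sg n k}) :
    alpha n b (of i) = of i := by
  refine Subgroup.closure_induction (p := fun g _ => alpha n g (of i) = of i) ?_ ?_ ?_ ?_ hb
  · rintro g ⟨k, hk, rfl⟩
    rw [alpha_sg]
    split_ifs
    · exact bact_ne k i (by omega) (by omega)
    · rfl
  · simp
  · intro g g' _ _ h1 h2
    rw [map_mul, MulAut.mul_apply, h2, h1]
  · intro g _ h1
    rw [map_inv, MulAut.inv_apply]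
    rw [MulEquiv.symm_apply_eq]
    exact h1.symm

private theorem x13a_fix_large (n r i : ℕ) (hi : r ≤ i) (b : Br n)
    (hb : b ∈ Subgroup.closure {g : Br n | ∃ k, k + 1 < r ∧ g = sg n k}) :
    alpha n b (of i) = of i := by
  refine Subgroup.closure_induction (p := fun g _ => alpha n g (of i) = of i) ?_ ?_ ?_ ?_ hb
  · rintro g ⟨k, hk, rfl⟩
    rw [alpha_sg]
    split_ifs
    · exact bact_ne k i (by omega) (by omega)
    · rfl
  · simp
  · intro g g' _ _ h1 h2
    rw [map_mul, MulAut.mul_apply, h2, h1]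
  · intro g _ h1
    rw [map_inv, MulAut.inv_apply]
    rw [MulEquiv.symm_apply_eq]
    exact h1.symm

/-- the subgroup generated by `y_j`, `j ≥ r` -/
private def x13aF (r : ℕ) : Subgroup (FreeGroup ℕ) :=
  Subgroup.closure {x | ∃ j, r ≤ j ∧ x = of j}

private theorem x13a_stable_gen (r : ℕ) (f : FreeGroup ℕ →* FreeGroup ℕ)
    (hf : ∀ j, r ≤ j → f (of j) ∈ x13aF r) {x : FreeGroup ℕ} (hx : x ∈ x13aF r) :
    f x ∈ x13aF r := by
  refine Subgroup.closure_induction (p := fun g _ => f g ∈ x13aF r) ?_ ?_ ?_ ?_ hx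
  · rintro g ⟨j, hj, rfl⟩
    exact hf j hj
  · rw [map_one]; exact one_mem _
  · intro g g' _ _ h1 h2
    rw [map_mul]; exact mul_mem h1 h2
  · intro g _ h1
    rw [map_inv]; exact inv_mem h1

private theorem x13a_of_mem (r j : ℕ) (h : r ≤ j) : (of j : FreeGroup ℕ) ∈ x13aF r :=
  Subgroup.subset_closure ⟨j, h, rfl⟩

private theorem x13a_bact (r k : ℕ) (hk : r ≤ k) {x : FreeGroup ℕ} (hx : x ∈ x13aF r) :
    bact k x ∈ x13aF r := by
  refine x13a_stable_gen r (bact k).toMonoidHom ?_ hx
  intro j hj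
  change bact k (of j) ∈ x13aF r
  rw [bact_of, bact0]
  split_ifs
  · exact x13a_of_mem _ _ (by omega)
  · exact mul_mem (mul_mem (inv_mem (x13a_of_mem _ _ (by omega))) (x13a_of_mem _ _ (by omega)))
      (x13a_of_mem _ _ (by omega))
  · exact x13a_of_mem _ _ hj

private theorem x13a_bact' (r k : ℕ) (hk : r ≤ k) {x : FreeGroup ℕ} (hx : x ∈ x13aF r) :
    (bact k).symm x ∈ x13aF r := by
  refine x13a_stable_gen r (bact k).symm.toMonoidHom ?_ hx
  intro j hj
  change (bact k).symm (of j) ∈ x13aF r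
  have h0 : (bact k).symm (of j) = bact0' k j := by
    simp [bact]
  rw [h0, bact0']
  split_ifs
  · exact mul_mem (mul_mem (x13a_of_mem _ _ (by omega)) (x13a_of_mem _ _ (by omega)))
      (inv_mem (x13a_of_mem _ _ (by omega)))
  · exact x13a_of_mem _ _ (by omega)
  · exact x13a_of_mem _ _ hj

private theorem x13a_stable (n r : ℕ) (b : Br n)
    (hb : b ∈ Subgroup.closure {g : Br n | ∃ k, r ≤ k ∧ g = sg n k}) :
    (∀ x ∈ x13aF r, alpha n b x ∈ x13aF r) ∧ ∀ x ∈ x13aF r, alpha n b⁻¹ x ∈ x13aF r := by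
  refine Subgroup.closure_induction (p := fun g _ => (∀ x ∈ x13aF r, alpha n g x ∈ x13aF r) ∧
    ∀ x ∈ x13aF r, alpha n g⁻¹ x ∈ x13aF r) ?_ ?_ ?_ ?_ hb
  · rintro g ⟨k, hk, rfl⟩
    rw [map_inv, alpha_sg]
    split_ifs
    · exact ⟨fun x hx => x13a_bact r k hk hx, fun x hx => by
        rw [MulAut.inv_apply]; exact x13a_bact' r k hk hx⟩
    · exact ⟨fun x hx => hx, fun x hx => by simpa using hx⟩
  · simp
  · intro g g' _ _ h1 h2
    refine ⟨fun x hx => ?_, fun x hx => ?_⟩
    · rw [map_mul, MulAut.mul_apply]; exact h1.1 _ (h2.1 _ hx)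
    · rw [mul_inv_rev, map_mul, MulAut.mul_apply]; exact h2.2 _ (h1.2 _ hx)
  · intro g _ h1
    refine ⟨h1.2, ?_⟩
    rw [inv_inv]; exact h1.1

private theorem x13a_fixF (n r : ℕ) (b : Br n)
    (hb : b ∈ Subgroup.closure {g : Br n | ∃ k, k + 1 < r ∧ g = sg n k}) {x : FreeGroup ℕ}
    (hx : x ∈ x13aF r) : alpha n b x = x := by
  refine Subgroup.closure_induction (p := fun g _ => alpha n b g = g) ?_ ?_ ?_ ?_ hx
  · rintro g ⟨j, hj, rfl⟩
    exact x13a_fix_large n r j hj b hb
  · rw [map_one]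
  · intro g g' _ _ h1 h2
    rw [map_mul, h1, h2]
  · intro g _ h1
    rw [map_inv, h1]

theorem block_lemma (n : ℕ) (β : Br n) (R : Set ℕ) (N : ℕ) (hN : N ≤ n + 1)
    (hR : ∀ r ∈ R, r < N → alpha n β (om r) = om r) (hN' : alpha n β (om N) = om N) :
    ∃ b ∈ Subgroup.closure {g : Br n | ∃ k, k + 1 < N ∧ k + 1 ∉ R ∧ g = sg n k},
      ∀ i, i < N → alpha n b (of i) = alpha n β (of i) := by
  classical
  induction N using Nat.strong_induction_on with
  | _ N ih =>
  by_cases hex : ∃ r, r ∈ R ∧ 0 < r ∧ r < N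
  · -- the largest such `r`
    obtain ⟨r, ⟨hrR, hr0, hrN⟩, hmax⟩ : ∃ r, (r ∈ R ∧ 0 < r ∧ r < N) ∧
        ∀ s, (s ∈ R ∧ 0 < s ∧ s < N) → s ≤ r := by
      obtain ⟨r0, h0⟩ := hex
      refine ⟨Nat.findGreatest (fun s => s ∈ R ∧ 0 < s ∧ s < N) N, ?_, ?_⟩
      · exact Nat.findGreatest_spec (P := fun s => s ∈ R ∧ 0 < s ∧ s < N) (m := r0) h0.2.2.le h0
      · intro s hs
        exact Nat.le_findGreatest hs.2.2.le hs
    obtain ⟨b1, hb1, hb1'⟩ := ih r hrN (by omega) (fun s hs hsr => hR s hs (by omega))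
      (hR r hrR hrN)
    obtain ⟨l, rfl⟩ : ∃ l, N = r + l := ⟨N - r, by omega⟩
    have homr : alpha n β (omr r l) = omr r l := by
      have e := x13a_om r l
      have e' : omr r l = (om r)⁻¹ * om (r + l) := by rw [e]; group
      rw [e', map_mul, map_inv, hN', hR r hrR hrN]
    obtain ⟨b2, hb2, hb2'⟩ := x13a_block n β r l hN homr
    have hb1s : b1 ∈ Subgroup.closure {g : Br n | ∃ k, k + 1 < r ∧ g = sg n k} := by
      refine Subgroup.closure_mono ?_ hb1
      rintro g ⟨k, hk, _, rfl⟩
      exact ⟨k, hk, rfl⟩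
    have hb2s : b2 ∈ Subgroup.closure {g : Br n | ∃ k, r ≤ k ∧ g = sg n k} := by
      refine Subgroup.closure_mono ?_ hb2
      rintro g ⟨k, hk, _, rfl⟩
      exact ⟨k, hk, rfl⟩
    refine ⟨b1 * b2, mul_mem ?_ ?_, ?_⟩
    · refine Subgroup.closure_mono ?_ hb1
      rintro g ⟨k, hk, hkR, rfl⟩
      exact ⟨k, by omega, hkR, rfl⟩
    · refine Subgroup.closure_mono ?_ hb2
      rintro g ⟨k, hk, hk2, rfl⟩
      refine ⟨k, hk2, fun hc => ?_, rfl⟩
      have := hmax (k + 1) ⟨hc, by omega, hk2⟩
      omega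
    · intro i hi
      rw [map_mul, MulAut.mul_apply]
      by_cases hir : i < r
      · rw [x13a_fix_small n r i hir b2 hb2s]
        exact hb1' i hir
      · obtain ⟨j, rfl⟩ : ∃ j, i = r + j := ⟨i - r, by omega⟩
        rw [← hb2' j (by omega)]
        exact x13a_fixF n r b1 hb1s ((x13a_stable n r b2 hb2s).1 _ (x13a_of_mem r _ (by omega)))
  · have homr : alpha n β (omr 0 N) = omr 0 N := by
      have e := x13a_om 0 N
      have e0 : om 0 = 1 := rfl
      rw [zero_add, e0, one_mul] at e
      rw [← e]; exact hN'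
    obtain ⟨b, hb, hb'⟩ := x13a_block n β 0 N (by omega) homr
    refine ⟨b, ?_, ?_⟩
    · refine Subgroup.closure_mono ?_ hb
      rintro g ⟨k, _, hk2, rfl⟩
      refine ⟨k, by omega, fun hc => hex ⟨k + 1, hc, by omega, by omega⟩, rfl⟩
    · intro i hi
      have := hb' i hi
      rwa [zero_add] at this

end Pool.Agent.VB

end Row_X13a

section Row_X13

/-!
ROW X13: intersections, when last in T.  v in par {a}ᶜ for all a in T, last in T.  mem_par_iff: jj v = inr β (a = last, rr = 0), and for a in T, r = rr a: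
inr β = tau^r inr η tau^-r = inl(om r) inr η' inl(om r)^-1 (tau_pow, η' = c^r η c^-r), so β = η' (right component) and alpha β (om r) = om r.  alpha β (om (M+3)) = om (M+3) always (every s_k, k < M+2,
fixes it).  block_lemma with N = M+3, R = {rr a, a in T}: b agrees with β on y_i, i < M+3; both fix y_i for i ≥ M+3; so alpha b = alpha β, b = β (artin_faithful).  b is in closure {s_k, k+1 < M+3, k+1 ∉ R}:
s_k = jj (x_k), arc k < M+2 with rr k = k+1 ∉ R, so k ∉ T.  jj injective: v in par Tᶜ.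
-/

namespace Pool.Agent.VB

open FreeGroup (of)

/-- induction on the generators of `Br n` -/
private theorem x13_ind (n : ℕ) (p : Br n → Prop) (h1 : p 1) (hm : ∀ a b, p a → p b → p (a * b))
    (hi : ∀ a, p a → p a⁻¹) (hs : ∀ k, p (sg n k)) (b : Br n) : p b := by
  have hb : b ∈ Subgroup.closure (Set.range (PresentedGroup.of : ℕ → Br n)) := by
    rw [PresentedGroup.closure_range_of]; trivial
  refine Subgroup.closure_induction (p := fun g _ => p g) ?_ h1
    (fun a b _ _ ha hb => hm a b ha hb) (fun a _ ha => hi a ha) hb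
  rintro g ⟨k, rfl⟩
  exact hs k

private theorem x13_fix (n : ℕ) (x : FreeGroup ℕ) (h : ∀ k, alpha n (sg n k) x = x) (b : Br n) :
    alpha n b x = x := by
  refine x13_ind n (fun b => alpha n b x = x) ?_ ?_ ?_ h b
  · simp
  · intro g g' h1 h2
    rw [map_mul, MulAut.mul_apply, h2, h1]
  · intro g h1
    rw [map_inv, MulAut.inv_apply, MulEquiv.symm_apply_eq]
    exact h1.symm

private theorem x13_fix_large (n i : ℕ) (hi : n + 1 ≤ i) (b : Br n) :
    alpha n b (of i) = of i := by
  refine x13_fix n _ (fun k => ?_) b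
  rw [alpha_sg]
  split_ifs
  · exact bact_ne k i (by omega) (by omega)
  · rfl

private theorem x13_fix_om (n : ℕ) (b : Br n) :
    alpha n b (om (n + 1)) = om (n + 1) := by
  refine x13_fix n _ (fun k => ?_) b
  by_cases hk : k < n
  · have h := ss_om n k (n + 1) hk (by omega)
    have h2 := congrArg SemidirectProduct.left h
    rw [ss, SemidirectProduct.mul_left, SemidirectProduct.mul_left] at h2
    simpa using h2
  · rw [sg_eq_one n k (by omega)]; simp

private theorem x13_cG (n : ℕ) : ∃ C : Br n, cG n = SemidirectProduct.inr C := by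
  have key : ∀ m, ∃ C : Br n, PP (ss n) m = SemidirectProduct.inr C := by
    intro m
    induction m with
    | zero => exact ⟨1, by rw [map_one]; rfl⟩
    | succ m ih =>
      obtain ⟨C, hC⟩ := ih
      refine ⟨C * sg n m, ?_⟩
      have h1 : PP (ss n) (m + 1) = PP (ss n) m * ss n m := rfl
      rw [h1, hC, map_mul]; rfl
  exact key n

private theorem x13_tau_left (n r : ℕ) (h : r ≤ n + 1) : (tauG n ^ r).left = om r := by
  obtain ⟨C, hC⟩ := x13_cG n
  rw [tau_pow n r h, hC, ← map_pow, SemidirectProduct.mul_left, SemidirectProduct.left_inr,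
    map_one, mul_one, SemidirectProduct.left_inl]

theorem inter_last (M : ℕ) (T : Set (Fin (M + 3))) (hT : lastA M ∈ T) (v : (cyc M).G)
    (h : ∀ a ∈ T, v ∈ (cyc M).par {a}ᶜ) : v ∈ (cyc M).par Tᶜ := by
  obtain ⟨β, hβ⟩ := (mem_par_iff M (lastA M) v).1 (h _ hT)
  rw [rr_last, pow_zero, one_mul, inv_one, mul_one] at hβ
  have hrr : ∀ a : Fin (M + 3), rr a ≤ M + 2 := by
    intro a
    have := (a + 1 : Fin (M + 3)).2
    unfold rr
    omega
  have hfix : ∀ a ∈ T, alpha (M + 2) β (om (rr a)) = om (rr a) := by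
    intro a ha
    obtain ⟨η, hη⟩ := (mem_par_iff M a v).1 (h a ha)
    rw [hβ] at hη
    have h1 : (SemidirectProduct.inr β : Gam (M + 2)) * tauG (M + 2) ^ rr a =
        tauG (M + 2) ^ rr a * SemidirectProduct.inr η := by
      rw [hη]; group
    have h2 := congrArg SemidirectProduct.left h1
    rw [SemidirectProduct.mul_left, SemidirectProduct.mul_left,
      x13_tau_left (M + 2) (rr a) (by have := hrr a; omega)] at h2
    simpa using h2
  obtain ⟨b, hb, hb'⟩ := block_lemma (M + 2) β {r | ∃ a ∈ T, r = rr a} (M + 3) le_rfl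
    (by rintro r ⟨a, ha, rfl⟩ _; exact hfix a ha) (x13_fix_om (M + 2) β)
  have hal : alpha (M + 2) b = alpha (M + 2) β := by
    apply MulEquiv.toMonoidHom_injective
    apply FreeGroup.ext_hom
    intro i
    change alpha (M + 2) b (of i) = alpha (M + 2) β (of i)
    by_cases hi : i < M + 3
    · exact hb' i hi
    · rw [x13_fix_large (M + 2) i (by omega) b, x13_fix_large (M + 2) i (by omega) β]
  have hbβ : β = b := by
    have h1 : alpha (M + 2) (b⁻¹ * β) = 1 := by
      rw [map_mul, map_inv, hal, inv_mul_cancel]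
    have h2 := artin_faithful (M + 2) _ h1
    have h3 := inv_mul_eq_one.1 h2
    exact h3.symm
  have hex : ∃ u ∈ (cyc M).par Tᶜ, jj M u = SemidirectProduct.inr b := by
    refine Subgroup.closure_induction
      (p := fun g _ => ∃ u ∈ (cyc M).par Tᶜ, jj M u = SemidirectProduct.inr g) ?_ ?_ ?_ ?_ hb
    · rintro g ⟨k, hk, hkR, rfl⟩
      have hk3 : k < M + 3 := by omega
      refine ⟨(cyc M).x ⟨k, hk3⟩, Subgroup.subset_closure ⟨⟨k, hk3⟩, ?_, rfl⟩, ?_⟩
      · intro hkT
        apply hkR
        refine ⟨⟨k, hk3⟩, hkT, ?_⟩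
        have hne : (⟨k, hk3⟩ : Fin (M + 3)) ≠ lastA M := by
          intro e
          have := congrArg Fin.val e
          simp at this
          omega
        rw [rr_ne _ hne]
      · rw [jj_x, jjf, if_neg (by simp; omega)]
        rfl
    · exact ⟨1, one_mem _, by rw [map_one, map_one]⟩
    · rintro g g' _ _ ⟨u, hu, hu'⟩ ⟨w, hw, hw'⟩
      exact ⟨u * w, mul_mem hu hw, by rw [map_mul, map_mul, hu', hw']⟩
    · rintro g _ ⟨u, hu, hu'⟩
      exact ⟨u⁻¹, inv_mem hu, by rw [map_inv, map_inv, hu']⟩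
  obtain ⟨u, hu, hu'⟩ := hex
  have hvu : v = u := jj_injective M (by rw [hβ, hu', hbβ])
  rw [hvu]; exact hu

end Pool.Agent.VB

end Row_X13

section Row_X14

/-!
ROW X14: intersections in general: T empty: par univ = ⊤; T nonempty: rotate so that last is in T (as X12) and use X13.
-/

namespace Pool.Agent.VB

open FreeGroup (of)

private theorem X14_map (M : ℕ) (c : Fin (M + 3)) (X : Set (Fin (M + 3))) (u : (cyc M).G)
    (hu : u ∈ (cyc M).par X) : (rotH M c).map u ∈ (cyc M).par ((fun k => k + c) '' X) := by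
  have h : (cyc M).par X ≤ ((cyc M).par ((fun k => k + c) '' X)).comap (rotH M c).map := by
    unfold ArcSys.par
    rw [Subgroup.closure_le]
    rintro _ ⟨s, hs, rfl⟩
    rw [SetLike.mem_coe, Subgroup.mem_comap, (rotH M c).map_x]
    exact Subgroup.subset_closure ⟨s + c, ⟨s, hs, rfl⟩, rfl⟩
  exact h hu

private theorem X14_inv (M : ℕ) (c : Fin (M + 3)) (v : (cyc M).G) :
    (rotH M (-c)).map ((rotH M c).map v) = v := by
  have h : (rotH M (-c)).map.comp (rotH M c).map = MonoidHom.id (cyc M).G := by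
    apply PresentedGroup.ext
    intro s
    show (rotH M (-c)).map ((rotH M c).map ((cyc M).x s)) = (cyc M).x s
    rw [(rotH M c).map_x, (rotH M (-c)).map_x]
    congr 1
    show s + c + -c = s
    rw [add_neg_cancel_right]
  exact DFunLike.congr_fun h v

theorem inter_all (M : ℕ) (T : Set (Fin (M + 3))) (v : (cyc M).G)
    (h : ∀ a ∈ T, v ∈ (cyc M).par {a}ᶜ) : v ∈ (cyc M).par Tᶜ := by
  rcases T.eq_empty_or_nonempty with rfl | ⟨a0, ha0⟩
  · have h : (cyc M).par Set.univ = ⊤ := by
      unfold ArcSys.par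
      rw [Set.image_univ]
      exact PresentedGroup.closure_range_of _
    rw [Set.compl_empty, h]; trivial
  · have h1 := inter_last M ((fun k => k + (lastA M - a0)) '' T)
      ⟨a0, ha0, by show a0 + (lastA M - a0) = lastA M; rw [add_sub_cancel]⟩
      ((rotH M (lastA M - a0)).map v) (by
        rintro _ ⟨a, ha, rfl⟩
        refine Subgroup.closure_mono (Set.image_mono ?_) (X14_map M _ _ v (h a ha))
        rintro _ ⟨x, hx, rfl⟩ hxa
        exact hx (add_right_cancel (Set.mem_singleton_iff.1 hxa)))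
    have h2 := X14_map M (-(lastA M - a0)) _ _ h1
    rw [X14_inv] at h2
    refine Subgroup.closure_mono (Set.image_mono ?_) h2
    rintro _ ⟨x, hx, rfl⟩ hxT
    exact hx ⟨_, hxT, by show x + -(lastA M - a0) + (lastA M - a0) = x; rw [neg_add_cancel_right]⟩

end Pool.Agent.VB

end Row_X14

section Row_X15

/-!
ROW X15: the cycle theorem CT (paper 8.3).  T1 empty: u = 1... (g = 1 * g? need u in par T2ᶜ, v in par T1ᶜ = ⊤: u = 1, v = g).  T1 nonempty: induction on the finite set T2.
T2 = ∅: u = g, v = 1.  T2 = insert b T2': g = g2 g1 by induction (g2 in par T2'ᶜ, g1 in par T1ᶜ).  For a in T1: Psi b a g2 = Psi b a (g2 g1) = 0 (Psi_right, par T1ᶜ ≤ par {a}ᶜ);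
for a in T2': Psi b a g2 = Psi (1 * g2) = Psi 1 = 0 (Psi_right, Psi_one).  CT1 b (T1 ∪ T2') g2: g2 = p h, p in par {b}ᶜ, h in par {a}ᶜ for all a in T1 ∪ T2'; inter_all: h in par (T1 ∪ T2')ᶜ;
p = g2 h^-1 in par {a}ᶜ for all a in T2' and for b: inter_all: p in par T2ᶜ.  g = p (h g1).
-/

namespace Pool.Agent.VB

open FreeGroup (of)

private theorem X15_mono {M : ℕ} {X Y : Set (Fin (M + 3))} (h : X ⊆ Y) {g : (cyc M).G}
    (hg : g ∈ (cyc M).par X) : g ∈ (cyc M).par Y :=
  Subgroup.closure_mono (Set.image_mono h) hg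

private theorem X15_univ {M : ℕ} (g : (cyc M).G) : g ∈ (cyc M).par Set.univ := by
  have h : (cyc M).par Set.univ = ⊤ := by
    unfold ArcSys.par
    rw [Set.image_univ]
    exact PresentedGroup.closure_range_of _
  rw [h]; trivial

private theorem X15_step (M : ℕ) (T1 T2 : Set (Fin (M + 3))) (hT : T1.Nonempty)
    (b : Fin (M + 3)) (g : (cyc M).G)
    (hb : ∀ a ∈ T1, ∀ lv d, Psi (cyc M) b a lv d g = 0)
    (ih : ∃ u ∈ (cyc M).par T2ᶜ, ∃ v ∈ (cyc M).par T1ᶜ, g = u * v) :
    ∃ u ∈ (cyc M).par (insert b T2)ᶜ, ∃ v ∈ (cyc M).par T1ᶜ, g = u * v := by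
  obtain ⟨g2, h2, g1, h1, rfl⟩ := ih
  have hsub : ∀ (T : Set (Fin (M + 3))) (a : Fin (M + 3)), a ∈ T → Tᶜ ⊆ ({a} : Set _)ᶜ := by
    intro T a ha x hx hxa
    rw [Set.mem_singleton_iff] at hxa
    rw [hxa] at hx
    exact hx ha
  obtain ⟨p, hp, h, hh, e⟩ := CT1 M b (T1 ∪ T2) (hT.mono Set.subset_union_left) g2 (by
    rintro a (ha | ha) lv d
    · rw [← Psi_right (cyc M) b a lv d g2 g1 (X15_mono (hsub T1 a ha) h1)]
      exact hb a ha lv d
    · have h3 := Psi_right (cyc M) b a lv d 1 g2 (X15_mono (hsub T2 a ha) h2)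
      rw [one_mul, Psi_one] at h3
      exact h3)
  refine ⟨p, ?_, h * g1, mul_mem ?_ h1, by rw [e, mul_assoc]⟩
  · apply inter_all
    intro a ha
    rcases ha with rfl | ha
    · exact hp
    · have e' : p = g2 * h⁻¹ := by rw [e, mul_inv_cancel_right]
      rw [e']
      exact mul_mem (X15_mono (hsub T2 a ha) h2) (inv_mem (hh a (Or.inr ha)))
  · exact inter_all M T1 h (fun a ha => hh a (Or.inl ha))

theorem CT (M : ℕ) (T1 T2 : Set (Fin (M + 3))) (g : (cyc M).G)
    (h : ∀ b ∈ T2, ∀ a ∈ T1, ∀ lv d, Psi (cyc M) b a lv d g = 0) :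
    ∃ u ∈ (cyc M).par T2ᶜ, ∃ v ∈ (cyc M).par T1ᶜ, g = u * v := by
  rcases T1.eq_empty_or_nonempty with rfl | hT
  · refine ⟨1, one_mem _, g, ?_, (one_mul g).symm⟩
    rw [Set.compl_empty]
    exact X15_univ g
  · have key : ∀ F : Finset (Fin (M + 3)), (∀ b ∈ F, b ∈ T2) →
        ∃ u ∈ (cyc M).par ((F : Set (Fin (M + 3))))ᶜ, ∃ v ∈ (cyc M).par T1ᶜ, g = u * v := by
      intro F
      induction F using Finset.induction_on with
      | empty =>
        intro _
        refine ⟨g, ?_, 1, one_mem _, (mul_one g).symm⟩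
        rw [Finset.coe_empty, Set.compl_empty]
        exact X15_univ g
      | insert b F hbF ih =>
        intro hF
        rw [Finset.coe_insert]
        exact X15_step M T1 F hT b g (fun a ha => h b (hF b (Finset.mem_insert_self b F)) a ha)
          (ih (fun c hc => hF c (Finset.mem_insert_of_mem hc)))
    obtain ⟨F, hF⟩ := Set.Finite.exists_finset_coe (Set.toFinite T2)
    rw [← hF]
    exact key F (fun b hb => by rw [← hF]; exact hb)

end Pool.Agent.VB

end Row_X15
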