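import Pool.Agent.Lib.MP_7c21d5_al.VB01_Modules
import Pool.Agent.Lib.MP_7c21d5_al.VB02_Braids
import Pool.Agent.Lib.MP_7c21d5_al.VB03_Artin
import Pool.Agent.Lib.MP_7c21d5_al.VB04_Twist
import Pool.Agent.Lib.MP_7c21d5_al.VB06_Cycle
import Pool.Agent.Lib.MP_7c21d5_al.VB08_CT

set_option autoImplicit false

section Row_Q1

/-!
ROW Q1: the path with k+1 arcs embeds in the cycle with k+3 arcs: `pathH k`, arcs i ↦ i, sites i ↦ i, and the induced homomorphism is injective.
e : Br (k+1) → (path (k+1)).G, s_i ↦ x_i (i < k+1), 1 otherwise (brLift; path.br i i' means i' = i+1, disjoint arcs: |i-i'| ≥ 2), surjective.  Let g = e b with image 1 in (cyc k).G; apply jj k: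
jj (x_i) = ss (k+2) i for i ≤ k; so in Gam (k+2) the image of b under s_i ↦ ss (k+2) i (i < k+1), 1 otherwise, is 1; right component: b ↦ b'' in Br (k+2), alpha (k+2) b'' = alpha (k+1) b (generators),
so alpha (k+1) b = 1, b = 1 (artin_faithful).
-/

namespace Pool.Agent.VB

open FreeGroup (of)

/-- the embedding of the path in the cycle -/
def pathH (k : ℕ) : ArcHom (path (k + 1)) (cyc k) :=
  ⟨fun i => i.castSucc.castSucc, fun i => i.castSucc,
   fun a b h => Fin.castSucc_injective _ (Fin.castSucc_injective _ h),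
   Fin.castSucc_injective _, fun s => rfl, fun s => by
     show (s.castSucc.castSucc + 1 : Fin (k + 3)) = (s.succ).castSucc
     apply Fin.ext
     have h : (s : ℕ) < k + 1 := s.2
     rw [Fin.val_add_one, if_neg]
     · simp
     · intro e
       have := congrArg Fin.val e
       simp at this
       omega⟩

private def Q1f (k i : ℕ) : (path (k + 1)).G :=
  if h : i < k + 1 then (path (k + 1)).x ⟨i, h⟩ else 1

private theorem Q1f_lt (k i : ℕ) (h : i < k + 1) : Q1f k i = (path (k + 1)).x ⟨i, h⟩ :=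
  dif_pos h

private theorem Q1f_ge (k i : ℕ) (h : ¬ i < k + 1) : Q1f k i = 1 :=
  dif_neg h

private def Q1e (k : ℕ) : Br (k + 1) →* (path (k + 1)).G :=
  brLift (k + 1) (Q1f k) (fun i h => Q1f_ge k i (by omega))
    (fun i h => by
      rw [Q1f_lt k i (by omega), Q1f_lt k (i + 1) h]
      apply x_braid
      refine ⟨?_, ?_⟩
      · exact Fin.ext rfl
      · intro e
        have h1 : i = i + 1 + 1 := congrArg Fin.val e
        omega)
    (fun i j h => by
      by_cases hj : j < k + 1
      · rw [Q1f_lt k i (by omega), Q1f_lt k j hj]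
        apply x_comm
        refine ⟨?_, ?_, ?_, ?_⟩
        · intro e
          have h1 : i = j := congrArg Fin.val e
          omega
        · intro e
          have h1 : i = j + 1 := congrArg Fin.val e
          omega
        · intro e
          have h1 : i + 1 = j := congrArg Fin.val e
          omega
        · intro e
          have h1 : i + 1 = j + 1 := congrArg Fin.val e
          omega
      · rw [Q1f_ge k j hj, mul_one, one_mul])

private theorem Q1e_sg (k i : ℕ) : Q1e k (sg (k + 1) i) = Q1f k i := by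
  simp [Q1e, brLift_sg]

private theorem Q1e_surj (k : ℕ) : Function.Surjective (Q1e k) := by
  rw [← MonoidHom.range_eq_top, eq_top_iff]
  have h : (⊤ : Subgroup (path (k + 1)).G) =
      Subgroup.closure (Set.range (PresentedGroup.of : Fin (k + 1) → (path (k + 1)).G)) :=
    (PresentedGroup.closure_range_of _).symm
  rw [h, Subgroup.closure_le]
  rintro _ ⟨i, rfl⟩
  exact ⟨sg (k + 1) i, by rw [Q1e_sg, Q1f_lt k i i.2]; rfl⟩

private theorem Q1_alpha (k : ℕ) :
    (alpha (k + 2)).comp (SemidirectProduct.rightHom.comp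
      ((jj k).comp ((pathH k).map.comp (Q1e k)))) = alpha (k + 1) := by
  apply PresentedGroup.ext
  intro i
  show alpha (k + 2) (SemidirectProduct.rightHom (jj k ((pathH k).map (Q1e k (sg (k + 1) i))))) =
    alpha (k + 1) (sg (k + 1) i)
  rw [Q1e_sg, alpha_sg]
  by_cases h : i < k + 1
  · rw [Q1f_lt k i h, (pathH k).map_x, jj_x, if_pos h]
    have hne : ¬ ((((pathH k).f ⟨i, h⟩ : Fin (k + 3)) : ℕ) = k + 2) := by
      show ¬ (i = k + 2)
      omega
    rw [jjf, if_neg hne]
    show alpha (k + 2) (SemidirectProduct.rightHom (ss (k + 2) i)) = bact i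
    rw [ss, SemidirectProduct.rightHom_inr, alpha_sg, if_pos (by omega)]
  · rw [Q1f_ge k i h, if_neg h]
    simp only [map_one]

theorem pathH_injective (k : ℕ) : Function.Injective (pathH k).map := by
  rw [injective_iff_map_eq_one]
  intro g hg
  obtain ⟨b, rfl⟩ := Q1e_surj k g
  have h : alpha (k + 1) b = 1 := by
    rw [← Q1_alpha k]
    show alpha (k + 2) (SemidirectProduct.rightHom (jj k ((pathH k).map (Q1e k b)))) = 1
    rw [hg]
    simp only [map_one]
  rw [artin_faithful (k + 1) b h, map_one]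

end Pool.Agent.VB

end Row_Q1

section Row_Q2

/-!
ROW Q2: CL for a cycle and for a path in KB_n.  `CLs n C`: the statement CL for the set C of arcs.
(1) C = range φ.f, φ : ArcHom (cyc M) (kb n): g in par C = φ.map g' (par (range f) = range of map); Psi_map; CT with the preimages of T1, T2; map back (φ.map maps par (f^-1 T)ᶜ into par (C \ T)).
(2) C = range φ.f, φ : ArcHom (path (k+1)) (kb n): g = φ.map g'; g'' = (pathH k).map g'; Psi (cyc k) (f b) (f a) lv d g'' = Psi (path) b a g' = Psi (kb n) ...; for arcs a or b of the cycle outside the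
path (the two last ones) Psi = 0 by Psi_left/Psi_right/Psi_one (g'' in par (range)).  CT with T_i' = image of preimage of T_i ∪ {the two arcs}: g'' = u v, u in par T2'ᶜ = image of par (preimage T2)ᶜ, same v;
injectivity (Q1): g' = u' v'.
-/

namespace Pool.Agent.VB

open FreeGroup (of)

section Q2aux
variable {S' W' S W : Type} {A' : ArcSys S' W'} {A : ArcSys S W}

private theorem Q2_par_mono (A : ArcSys S W) {X Y : Set S} (h : X ⊆ Y) {g : A.G}
    (hg : g ∈ A.par X) : g ∈ A.par Y :=
  Subgroup.closure_mono (Set.image_mono h) hg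

private theorem Q2_par_image (φ : ArcHom A' A) (X : Set S') :
    (A'.par X).map φ.map = A.par (φ.f '' X) := by
  unfold ArcSys.par
  have h : (φ.map ∘ A'.x : S' → A.G) = A.x ∘ φ.f := funext (fun s => φ.map_x s)
  rw [MonoidHom.map_closure, ← Set.image_comp, ← Set.image_comp, h]

private theorem Q2_map_par (φ : ArcHom A' A) (X : Set S') {u : A'.G} (hu : u ∈ A'.par X) :
    φ.map u ∈ A.par (φ.f '' X) := by
  rw [← Q2_par_image]
  exact Subgroup.mem_map_of_mem _ hu

private theorem Q2_par_univ (A : ArcSys S W) (g : A.G) : g ∈ A.par Set.univ := by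
  have h : A.par Set.univ = ⊤ := by
    unfold ArcSys.par
    rw [Set.image_univ]
    exact PresentedGroup.closure_range_of _
  rw [h]; trivial

private theorem Q2_range (φ : ArcHom A' A) {g : A.G} (hg : g ∈ A.par (Set.range φ.f)) :
    ∃ g', φ.map g' = g := by
  rw [← Set.image_univ, ← Q2_par_image] at hg
  obtain ⟨g', _, h⟩ := hg
  exact ⟨g', h⟩

private theorem Q2_map_range (φ : ArcHom A' A) (g : A'.G) :
    φ.map g ∈ A.par (Set.range φ.f) := by
  rw [← Set.image_univ]
  exact Q2_map_par φ Set.univ (Q2_par_univ A' g)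

end Q2aux

/-- the statement (CL) for the set of arcs `C` -/
def CLs (n : ℕ) (C : Set {p : Fin n × Fin n // p.1 ≠ p.2}) : Prop :=
  ∀ T1 T2 : Set {p : Fin n × Fin n // p.1 ≠ p.2}, T1 ⊆ C → T2 ⊆ C → ∀ g ∈ (kb n).par C,
    (∀ b ∈ T2, ∀ a ∈ T1, ∀ lv d, Psi (kb n) b a lv d g = 0) →
      ∃ u ∈ (kb n).par (C \ T2), ∃ v ∈ (kb n).par (C \ T1), g = u * v

private theorem Q2_sub (n : ℕ) {S' : Type} (f : S' → {p : Fin n × Fin n // p.1 ≠ p.2})
    (T : Set {p : Fin n × Fin n // p.1 ≠ p.2}) :
    f '' (f ⁻¹' T)ᶜ ⊆ Set.range f \ T := by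
  rintro _ ⟨s, hs, rfl⟩
  exact ⟨⟨s, rfl⟩, hs⟩

theorem CL_cycle (n M : ℕ) (φ : ArcHom (cyc M) (kb n)) : CLs n (Set.range φ.f) := by
  intro T1 T2 _ _ g hg h
  obtain ⟨g', rfl⟩ := Q2_range φ hg
  obtain ⟨u, hu, v, hv, e⟩ := CT M (φ.f ⁻¹' T1) (φ.f ⁻¹' T2) g' (by
    intro b hb a ha lv d
    rw [← Psi_map φ]
    exact h _ hb _ ha lv d)
  refine ⟨φ.map u, Q2_par_mono _ (Q2_sub n φ.f T2) (Q2_map_par φ _ hu),
    φ.map v, Q2_par_mono _ (Q2_sub n φ.f T1) (Q2_map_par φ _ hv), ?_⟩
  rw [← map_mul, e]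

theorem CL_path (n k : ℕ) (φ : ArcHom (path (k + 1)) (kb n)) : CLs n (Set.range φ.f) := by
  intro T1 T2 _ _ g hg h
  obtain ⟨g', rfl⟩ := Q2_range φ hg
  have key : ∀ T : Set {p : Fin n × Fin n // p.1 ≠ p.2},
      ((pathH k).f '' (φ.f ⁻¹' T) ∪ (Set.range (pathH k).f)ᶜ)ᶜ ⊆
        (pathH k).f '' (φ.f ⁻¹' T)ᶜ := by
    intro T x hx
    rw [Set.mem_compl_iff, Set.mem_union, not_or] at hx
    obtain ⟨h1, h2⟩ := hx
    rw [Set.mem_compl_iff, not_not] at h2
    obtain ⟨s, rfl⟩ := h2
    exact ⟨s, fun hs => h1 ⟨s, hs, rfl⟩, rfl⟩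
  obtain ⟨u, hu, v, hv, e⟩ := CT k ((pathH k).f '' (φ.f ⁻¹' T1) ∪ (Set.range (pathH k).f)ᶜ)
    ((pathH k).f '' (φ.f ⁻¹' T2) ∪ (Set.range (pathH k).f)ᶜ) ((pathH k).map g') (by
    intro b hb a ha lv d
    rcases ha with ⟨a', ha', rfl⟩ | ha
    · rcases hb with ⟨b', hb', rfl⟩ | hb
      · rw [Psi_map (pathH k), ← Psi_map φ]
        exact h _ hb' _ ha' lv d
      · have hm : (pathH k).map g' ∈ (cyc k).par {b}ᶜ := by
          refine Q2_par_mono _ ?_ (Q2_map_range (pathH k) g')
          intro x hx hxb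
          rw [Set.mem_singleton_iff] at hxb
          rw [hxb] at hx
          exact hb hx
        have := Psi_left (cyc k) b ((pathH k).f a') lv d ((pathH k).map g') 1 hm
        rw [mul_one, Psi_one] at this
        exact this
    · have hm : (pathH k).map g' ∈ (cyc k).par {a}ᶜ := by
        refine Q2_par_mono _ ?_ (Q2_map_range (pathH k) g')
        intro x hx hxa
        rw [Set.mem_singleton_iff] at hxa
        rw [hxa] at hx
        exact ha hx
      have := Psi_right (cyc k) b a lv d 1 ((pathH k).map g') hm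
      rw [one_mul, Psi_one] at this
      exact this)
  have hu' := Q2_par_mono _ (key T2) hu
  have hv' := Q2_par_mono _ (key T1) hv
  rw [← Q2_par_image] at hu' hv'
  obtain ⟨u', hu', rfl⟩ := hu'
  obtain ⟨v', hv', rfl⟩ := hv'
  have e' : g' = u' * v' := by
    apply pathH_injective k
    rw [e, map_mul]
  refine ⟨φ.map u', Q2_par_mono _ (Q2_sub n φ.f T2) (Q2_map_par φ _ hu'),
    φ.map v', Q2_par_mono _ (Q2_sub n φ.f T1) (Q2_map_par φ _ hv'), ?_⟩
  rw [← map_mul, e']

end Pool.Agent.VB

end Row_Q2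

section Row_Q3

/-!
ROW Q3: a non empty clique T of arcs of KB_n contains a chain C (range of a cycle or of a path) such that every arc of T \ C is disjoint from every arc of C.
In a clique: two arcs with the same tail are equal, two arcs with the same head are equal, (i,j) and (j,i) are not both in T (adjacency means: chain with three distinct sites or disjoint).  So the successor
relation on arcs (head of s = tail of r) is a partial injection without fixed points and without 2-cycles.  Take s in T.  Consider paths in T: ArcHom (path (k+1)) (kb n) with range in T; lengths are bounded (v injective: k+2 ≤ n); k = 0 exists.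
Take one with k maximal.  Sites v_0..v_(k+1).  If some arc of T has tail v_(k+1): its head w is not v_1..v_(k+1) (these have their incoming arcs v_(i-1) -> v_i; v_(k+1) itself is the tail); w ∉ {v_0..} would
give a longer path; so w = v_0 and k+2 ≥ 3 sites (no 2-cycles: k ≥ 1): a cycle with M+3 = k+2 sites; all sites have their in and out arcs in C, so the others are disjoint.  If no arc of T has tail v_(k+1):
if some arc of T has head v_0, its tail is a new site (not v_0.. v_k: their out arcs are in C and do not have head v_0; v_(k+1) has no out arc): a longer path; so none: C = the path, other arcs are disjoint.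
-/

namespace Pool.Agent.VB

open FreeGroup (of)

/-- `(a, b)` is an arc of `T` -/
private def Q3_In {n : ℕ} (T : Set {p : Fin n × Fin n // p.1 ≠ p.2}) (a b : Fin n) : Prop :=
  ∃ h : a ≠ b, (⟨(a, b), h⟩ : {p : Fin n × Fin n // p.1 ≠ p.2}) ∈ T

/-- an injective path with `k+1` arcs of `T` -/
private def Q3_P {n : ℕ} (T : Set {p : Fin n × Fin n // p.1 ≠ p.2}) (k : ℕ) : Prop :=
  ∃ v : Fin (k + 2) → Fin n, Function.Injective v ∧ ∀ i : Fin (k + 1), Q3_In T (v i.castSucc) (v i.succ)

private theorem Q3_src {n : ℕ} {T : Set {p : Fin n × Fin n // p.1 ≠ p.2}}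
    (hc : ∀ a ∈ T, ∀ b ∈ T, a ≠ b → (kb n).adj a b) {a b : {p : Fin n × Fin n // p.1 ≠ p.2}}
    (ha : a ∈ T) (hb : b ∈ T) (h : a.1.1 = b.1.1) : a = b := by
  by_contra hne
  rcases hc a ha b hb hne with h1 | h1 | h1
  · exact a.2 (h.trans h1.1.symm)
  · exact b.2 (h.symm.trans h1.1.symm)
  · exact h1.1 h

private theorem Q3_tgt {n : ℕ} {T : Set {p : Fin n × Fin n // p.1 ≠ p.2}}
    (hc : ∀ a ∈ T, ∀ b ∈ T, a ≠ b → (kb n).adj a b) {a b : {p : Fin n × Fin n // p.1 ≠ p.2}}
    (ha : a ∈ T) (hb : b ∈ T) (h : a.1.2 = b.1.2) : a = b := by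
  by_contra hne
  rcases hc a ha b hb hne with h1 | h1 | h1
  · exact b.2 (h1.1.symm.trans h)
  · exact a.2 (h1.1.symm.trans h.symm)
  · exact h1.2.2.2 h

private theorem Q3_two {n : ℕ} {T : Set {p : Fin n × Fin n // p.1 ≠ p.2}}
    (hc : ∀ a ∈ T, ∀ b ∈ T, a ≠ b → (kb n).adj a b) {a b : {p : Fin n × Fin n // p.1 ≠ p.2}}
    (ha : a ∈ T) (hb : b ∈ T) (h : a.1.2 = b.1.1) (h' : a.1.1 = b.1.2) : False := by
  have hne : a ≠ b := by
    rintro rfl
    exact a.2 h'
  rcases hc a ha b hb hne with h1 | h1 | h1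
  · exact h1.2 h'
  · exact h1.2 h.symm
  · exact h1.2.2.1 h

theorem exists_chain (n : ℕ) (T : Set {p : Fin n × Fin n // p.1 ≠ p.2}) (hT : T.Nonempty)
    (hc : ∀ a ∈ T, ∀ b ∈ T, a ≠ b → (kb n).adj a b) :
    ∃ C ⊆ T, C.Nonempty ∧ (∀ s ∈ C, ∀ r ∈ T \ C, (kb n).cm s r) ∧
      ((∃ (M : ℕ) (φ : ArcHom (cyc M) (kb n)), Set.range φ.f = C) ∨
        ∃ (k : ℕ) (φ : ArcHom (path (k + 1)) (kb n)), Set.range φ.f = C) := by
  classical
  have hbd : ∀ k, Q3_P T k → k ≤ n := by
    rintro k ⟨v, hv, -⟩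
    have := Fintype.card_le_of_injective v hv
    simp only [Fintype.card_fin] at this
    omega
  have h0 : Q3_P T 0 := by
    obtain ⟨s, hs⟩ := hT
    refine ⟨![s.1.1, s.1.2], ?_, ?_⟩
    · intro a b hab
      fin_cases a <;> fin_cases b
      · rfl
      · exact absurd hab s.2
      · exact absurd hab.symm s.2
      · rfl
    · intro i
      fin_cases i
      exact ⟨s.2, hs⟩
  obtain ⟨k, ⟨v, hv, hp⟩, hk⟩ : ∃ k, Q3_P T k ∧ ¬ Q3_P T (k + 1) := by
    refine ⟨Nat.findGreatest (Q3_P T) n, Nat.findGreatest_spec (Nat.zero_le n) h0, fun h => ?_⟩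
    exact Nat.findGreatest_is_greatest (Nat.lt_succ_self _) (hbd _ h) h
  by_cases hA : ∃ w, Q3_In T (v (Fin.last (k + 1))) w
  · obtain ⟨w, hw⟩ := hA
    have hwr : ∃ j, v j = w := by
      by_contra hno
      push Not at hno
      refine hk ⟨Fin.snoc (α := fun _ => Fin n) v w, ?_, ?_⟩
      · intro a b hab
        refine Fin.lastCases (motive := fun a => Fin.snoc (α := fun _ => Fin n) v w a = Fin.snoc (α := fun _ => Fin n) v w b → a = b) ?_ ?_ a hab
        · refine Fin.lastCases (motive := fun b => Fin.snoc (α := fun _ => Fin n) v w (Fin.last _) = Fin.snoc (α := fun _ => Fin n) v w b → Fin.last _ = b) ?_ ?_ b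
          · intro _
            rfl
          · intro i h
            rw [Fin.snoc_last, Fin.snoc_castSucc] at h
            exact absurd h.symm (hno i)
        · intro i
          refine Fin.lastCases (motive := fun b => Fin.snoc (α := fun _ => Fin n) v w (Fin.castSucc i) = Fin.snoc (α := fun _ => Fin n) v w b → Fin.castSucc i = b) ?_ ?_ b
          · intro h
            rw [Fin.snoc_last, Fin.snoc_castSucc] at h
            exact absurd h (hno i)
          · intro j h
            rw [Fin.snoc_castSucc, Fin.snoc_castSucc] at h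
            rw [hv h]
      · intro i
        refine Fin.lastCases ?_ ?_ i
        · rw [Fin.snoc_castSucc, Fin.succ_last, Fin.snoc_last]
          exact hw
        · intro j
          rw [Fin.snoc_castSucc, Fin.succ_castSucc, Fin.snoc_castSucc]
          exact hp j
    obtain ⟨j, hj⟩ := hwr
    have hj0 : j = 0 := by
      by_contra hne
      obtain ⟨i, rfl⟩ := Fin.exists_succ_eq.2 hne
      obtain ⟨h1, h2⟩ := hp i
      obtain ⟨h3, h4⟩ := hw
      have := Q3_tgt hc h2 h4 hj
      have h5 : v i.castSucc = v (Fin.last (k + 1)) := congrArg (fun p => p.1.1) this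
      exact (Fin.castSucc_lt_last i).ne (hv h5)
    subst hj0
    obtain ⟨M, rfl⟩ : ∃ M, k = M + 1 := by
      rcases k with _ | M
      · exfalso
        obtain ⟨h1, h2⟩ := hp 0
        obtain ⟨h3, h4⟩ := hw
        exact Q3_two hc h2 h4 rfl hj
      · exact ⟨M, rfl⟩
    have hall : ∀ i : Fin (M + 3), Q3_In T (v i) (v (i + 1)) := by
      intro i
      refine Fin.lastCases ?_ ?_ i
      · rw [Fin.last_add_one, hj]
        exact hw
      · intro j
        have := hp j
        rwa [Fin.coeSucc_eq_succ]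
    choose g hg using hall
    refine ⟨Set.range fun i => ⟨(v i, v (i + 1)), g i⟩, ?_, ⟨_, 0, rfl⟩, ?_, Or.inl ⟨M, ⟨fun i => ⟨(v i, v (i + 1)), g i⟩, v, ?_, hv, fun _ => rfl, fun _ => rfl⟩, rfl⟩⟩
    · rintro _ ⟨i, rfl⟩
      exact hg i
    · rintro _ ⟨i, rfl⟩ r ⟨hr, hr'⟩
      have hs : ∀ j, v j ≠ r.1.1 := by
        intro j h
        exact hr' ⟨j, Q3_src hc (hg j) hr h⟩
      have ht : ∀ j, v j ≠ r.1.2 := by
        intro j h
        refine hr' ⟨j - 1, Q3_tgt hc (hg (j - 1)) hr ?_⟩
        show v (j - 1 + 1) = r.1.2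
        rw [sub_add_cancel]
        exact h
      exact ⟨hs _, ht _, hs _, ht _⟩
    · intro a b hab
      exact hv (congrArg (fun p => p.1.1) hab)
  · push Not at hA
    choose g hg using hp
    have hs : ∀ r ∈ T, r ∉ Set.range (fun i : Fin (k + 1) => (⟨(v i.castSucc, v i.succ), g i⟩ : {p : Fin n × Fin n // p.1 ≠ p.2})) →
        ∀ j, v j ≠ r.1.1 := by
      intro r hr hr' j
      refine Fin.lastCases ?_ ?_ j
      · intro h
        refine hA r.1.2 ?_
        have : Q3_In T r.1.1 r.1.2 := ⟨r.2, hr⟩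
        rwa [← h] at this
      · intro i h
        exact hr' ⟨i, Q3_src hc (hg i) hr h⟩
    refine ⟨Set.range fun i : Fin (k + 1) => ⟨(v i.castSucc, v i.succ), g i⟩, ?_, ⟨_, 0, rfl⟩, ?_, Or.inr ⟨k, ⟨fun i => ⟨(v i.castSucc, v i.succ), g i⟩, v, ?_, hv, fun _ => rfl, fun _ => rfl⟩, rfl⟩⟩
    · rintro _ ⟨i, rfl⟩
      exact hg i
    · rintro _ ⟨i, rfl⟩ r ⟨hr, hr'⟩
      have hs' := hs r hr hr'
      have ht : ∀ j, v j ≠ r.1.2 := by
        intro j
        refine Fin.cases ?_ ?_ j
        · intro h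
          refine hk ⟨Fin.cons r.1.1 v, ?_, ?_⟩
          · rw [Fin.cons_injective_iff]
            exact ⟨fun ⟨a, ha⟩ => hs' a ha, hv⟩
          · intro i
            refine Fin.cases ?_ ?_ i
            · rw [Fin.castSucc_zero, Fin.cons_zero, Fin.cons_succ, h]
              exact ⟨r.2, hr⟩
            · intro i
              rw [Fin.cons_succ, Fin.castSucc_succ, Fin.cons_succ]
              exact ⟨g i, hg i⟩
        · intro i h
          exact hr' ⟨i, Q3_tgt hc (hg i) hr h⟩
      exact ⟨hs' _, ht _, hs' _, ht _⟩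
    · intro a b hab
      exact Fin.castSucc_injective _ (hv (congrArg (fun p => p.1.1) hab))

end Pool.Agent.VB

end Row_Q3

section Row_Q4

/-!
ROW Q4: CL for all cliques, by strong induction on the finite set T.  T = ∅: g = 1.  Else C from Q3, C' = T \ C; every element of par T is g = c c' with c in par C, c' in par C' (commuting generators:
par C and par C' commute elementwise, par (C ∪ C') = par C * par C').  For a, b in C: Psi b a (c' c) = Psi b a c (Psi_left: par C' ≤ par {b}ᶜ), for a, b in C': Psi b a (c c') = Psi b a c'.  CLs C (Q2) and induction for C':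
c = u v, c' = u' v', g = (u u') (v v').
-/

namespace Pool.Agent.VB

open FreeGroup (of)

private theorem Q4_comm {S W : Type} (A : ArcSys S W) (C C' : Set S)
    (h : ∀ s ∈ C, ∀ r ∈ C', A.cm s r) :
    ∀ c ∈ A.par C, ∀ c' ∈ A.par C', Commute c c' := by
  have h1 : ∀ s ∈ C, ∀ c' ∈ A.par C', Commute (A.x s) c' := by
    intro s hs c' hc'
    refine Subgroup.closure_induction (p := fun y _ => Commute (A.x s) y) ?_ ?_ ?_ ?_ hc'
    · rintro _ ⟨r, hr, rfl⟩
      exact x_comm A s r (h s hs r hr)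
    · exact Commute.one_right _
    · intro y z _ _ hy hz
      exact hy.mul_right hz
    · intro y _ hy
      exact hy.inv_right
  intro c hc c' hc'
  refine Subgroup.closure_induction (p := fun y _ => Commute y c') ?_ ?_ ?_ ?_ hc
  · rintro _ ⟨s, hs, rfl⟩
    exact h1 s hs c' hc'
  · exact Commute.one_left _
  · intro y z _ _ hy hz
    exact hy.mul_left hz
  · intro y _ hy
    exact hy.inv_left

private theorem Q4_par_mono {S W : Type} (A : ArcSys S W) (X Y : Set S) (h : X ⊆ Y) :
    A.par X ≤ A.par Y :=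
  Subgroup.closure_mono (Set.image_mono h)

private theorem Q4_split {S W : Type} (A : ArcSys S W) (C C' T : Set S)
    (hT : T ⊆ C ∪ C') (h : ∀ s ∈ C, ∀ r ∈ C', A.cm s r) (g : A.G) (hg : g ∈ A.par T) :
    ∃ c ∈ A.par C, ∃ c' ∈ A.par C', g = c * c' := by
  have hcomm := Q4_comm A C C' h
  refine Subgroup.closure_induction
    (p := fun y _ => ∃ c ∈ A.par C, ∃ c' ∈ A.par C', y = c * c') ?_ ?_ ?_ ?_ hg
  · rintro _ ⟨s, hs, rfl⟩
    rcases hT hs with hs' | hs'
    · exact ⟨A.x s, Subgroup.subset_closure ⟨s, hs', rfl⟩, 1, Subgroup.one_mem _,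
        (mul_one _).symm⟩
    · exact ⟨1, Subgroup.one_mem _, A.x s, Subgroup.subset_closure ⟨s, hs', rfl⟩,
        (one_mul _).symm⟩
  · exact ⟨1, Subgroup.one_mem _, 1, Subgroup.one_mem _, (one_mul _).symm⟩
  · rintro y z _ _ ⟨c, hc, c', hc', rfl⟩ ⟨d, hd, d', hd', rfl⟩
    refine ⟨c * d, Subgroup.mul_mem _ hc hd, c' * d', Subgroup.mul_mem _ hc' hd', ?_⟩
    have e : c' * d = d * c' := (hcomm d hd c' hc').symm.eq
    calc c * c' * (d * d') = c * (c' * d) * d' := by simp only [mul_assoc]
      _ = c * (d * c') * d' := by rw [e]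
      _ = c * d * (c' * d') := by simp only [mul_assoc]
  · rintro y _ ⟨c, hc, c', hc', rfl⟩
    refine ⟨c⁻¹, Subgroup.inv_mem _ hc, c'⁻¹, Subgroup.inv_mem _ hc', ?_⟩
    rw [(hcomm c hc c' hc').eq, mul_inv_rev]

private theorem Q4_aux (n : ℕ) (m : ℕ) : ∀ T : Set {p : Fin n × Fin n // p.1 ≠ p.2},
    T.ncard = m → (∀ a ∈ T, ∀ b ∈ T, a ≠ b → (kb n).adj a b) → CLs n T := by
  induction m using Nat.strong_induction_on with
  | _ m ih =>
    intro T hm hc
    rcases T.eq_empty_or_nonempty with hT | hT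
    · subst hT
      intro T1 T2 _ _ g hg _
      have hbot : (kb n).par ∅ = ⊥ := by
        rw [ArcSys.par, Set.image_empty, Subgroup.closure_empty]
      rw [hbot, Subgroup.mem_bot] at hg
      exact ⟨1, Subgroup.one_mem _, 1, Subgroup.one_mem _, by rw [hg, one_mul]⟩
    · obtain ⟨C, hCT, hC, hcm, hch⟩ := exists_chain n T hT hc
      have hCL : CLs n C := by
        rcases hch with ⟨M, φ, rfl⟩ | ⟨k, φ, rfl⟩
        · exact CL_cycle n M φ
        · exact CL_path n k φ
      have hlt : (T \ C).ncard < m := by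
        rw [← hm]
        apply Set.ncard_lt_ncard _ (Set.toFinite T)
        refine ⟨Set.sdiff_subset, fun hsub => ?_⟩
        obtain ⟨x, hx⟩ := hC
        exact (hsub (hCT hx)).2 hx
      have hCL' : CLs n (T \ C) :=
        ih _ hlt (T \ C) rfl (fun a ha b hb => hc a ha.1 b hb.1)
      intro T1 T2 hT1 hT2 g hg h0
      have hTu : T ⊆ C ∪ (T \ C) := by
        intro x hx
        by_cases h : x ∈ C
        · exact Or.inl h
        · exact Or.inr ⟨hx, h⟩
      obtain ⟨c, hcC, c', hcC', rfl⟩ := Q4_split (kb n) C (T \ C) T hTu hcm g hg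
      have hcomm := Q4_comm (kb n) C (T \ C) hcm
      obtain ⟨u, hu, v, hv, e⟩ := hCL (T1 ∩ C) (T2 ∩ C) Set.inter_subset_right
        Set.inter_subset_right c hcC (by
          intro b hb a ha lv d
          have := h0 b hb.1 a ha.1 lv d
          have hsub : (T \ C) ⊆ ({a}ᶜ : Set {p : Fin n × Fin n // p.1 ≠ p.2}) := by
            rintro x hx rfl
            exact hx.2 ha.2
          rw [Psi_right (kb n) b a lv d c c' (Q4_par_mono (kb n) _ _ hsub hcC')] at this
          exact this)
      obtain ⟨u', hu', v', hv', e'⟩ := hCL' (T1 ∩ (T \ C)) (T2 ∩ (T \ C)) Set.inter_subset_right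
        Set.inter_subset_right c' hcC' (by
          intro b hb a ha lv d
          have := h0 b hb.1 a ha.1 lv d
          have hsub : C ⊆ ({b}ᶜ : Set {p : Fin n × Fin n // p.1 ≠ p.2}) := by
            rintro x hx rfl
            exact hb.2.2 hx
          rw [Psi_left (kb n) b a lv d c c' (Q4_par_mono (kb n) _ _ hsub hcC)] at this
          exact this)
      have hu1 : u ∈ (kb n).par C := Q4_par_mono (kb n) _ _ Set.sdiff_subset hu
      have hv1 : v ∈ (kb n).par C := Q4_par_mono (kb n) _ _ Set.sdiff_subset hv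
      have hu1' : u' ∈ (kb n).par (T \ C) := Q4_par_mono (kb n) _ _ Set.sdiff_subset hu'
      have hs1 : ∀ X : Set {p : Fin n × Fin n // p.1 ≠ p.2}, C \ (X ∩ C) ⊆ T \ X :=
        fun X x hx => ⟨hCT hx.1, fun hxX => hx.2 ⟨hxX, hx.1⟩⟩
      have hs2 : ∀ X : Set {p : Fin n × Fin n // p.1 ≠ p.2},
          (T \ C) \ (X ∩ (T \ C)) ⊆ T \ X :=
        fun X x hx => ⟨hx.1.1, fun hxX => hx.2 ⟨hxX, hx.1⟩⟩
      refine ⟨u * u', Subgroup.mul_mem _ (Q4_par_mono (kb n) _ _ (hs1 T2) hu)
        (Q4_par_mono (kb n) _ _ (hs2 T2) hu'), v * v',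
        Subgroup.mul_mem _ (Q4_par_mono (kb n) _ _ (hs1 T1) hv)
        (Q4_par_mono (kb n) _ _ (hs2 T1) hv'), ?_⟩
      have e3 : v * u' = u' * v := (hcomm v hv1 u' hu1').eq
      calc c * c' = u * v * (u' * v') := by rw [e, e']
        _ = u * (v * u') * v' := by simp only [mul_assoc]
        _ = u * (u' * v) * v' := by rw [e3]
        _ = u * u' * (v * v') := by simp only [mul_assoc]

theorem CL_all (n : ℕ) (T : Set {p : Fin n × Fin n // p.1 ≠ p.2})
    (hc : ∀ a ∈ T, ∀ b ∈ T, a ≠ b → (kb n).adj a b) : CLs n T :=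
  Q4_aux n T.ncard T rfl hc

end Pool.Agent.VB

end Row_Q4

section Row_H1

/-!
ROW H1: from a right action by linear automorphisms of ι → K (ι finite) to matrices: M g with vecMul F (M g) = F . g.
M g = (LinearMap.toMatrix' ((r g).unop : (ι → K) →ₗ (ι → K)))ᵀ; multiplicative, M 1 = 1; units: MonoidHom.toHomUnits.
-/

namespace Pool.Agent.VB

open FreeGroup (of)

theorem ra_matrix {G ι : Type} [Group G] [Fintype ι] [DecidableEq ι] (r : RA G (ι → KK)) :
    ∃ M : G →* (Matrix ι ι KK)ˣ, ∀ (g : G) (F : ι → KK),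
      Matrix.vecMul F (M g : Matrix ι ι KK) = rac r F g := by
  classical
  let f : G →* Matrix ι ι KK :=
    { toFun := fun g =>
        (LinearMap.toMatrix' (((r g).unop : (ι → KK) ≃ₗ[KK] (ι → KK)) : (ι → KK) →ₗ[KK] (ι → KK))).transpose
      map_one' := by
        rw [map_one, MulOpposite.unop_one]
        have h : (((1 : (ι → KK) ≃ₗ[KK] (ι → KK))) : (ι → KK) →ₗ[KK] (ι → KK)) = LinearMap.id := rfl
        rw [h, LinearMap.toMatrix'_id, Matrix.transpose_one]
      map_mul' := fun g g' => by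
        rw [map_mul, MulOpposite.unop_mul, ← Matrix.transpose_mul, ← LinearMap.toMatrix'_comp]
        rfl }
  refine ⟨MonoidHom.toHomUnits f, fun g F => ?_⟩
  rw [MonoidHom.coe_toHomUnits]
  change Matrix.vecMul F (LinearMap.toMatrix' (((r g).unop : (ι → KK) ≃ₗ[KK] (ι → KK)) : (ι → KK) →ₗ[KK] (ι → KK))).transpose = _
  rw [Matrix.vecMul_transpose]
  have := Matrix.toLin'_apply (LinearMap.toMatrix' (((r g).unop : (ι → KK) ≃ₗ[KK] (ι → KK)) : (ι → KK) →ₗ[KK] (ι → KK))) F
  rw [← this, Matrix.toLin'_toMatrix']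
  rfl

end Pool.Agent.VB

end Row_H1

section Row_H2

/-!
ROW H2: direct sums.  Given M c : G →* (Matrix κ κ K)ˣ for c in a finite set C, there is ρ : G →* (Matrix I I R₀)ˣ, I = (κ × C) ⊕ S,
block diagonal: M c on the block κ × {c} (entries mapped to R₀ = MvPolynomial P K by C) and the identity on S.  Matrix.fromBlocks (blockDiagonal ...) 0 0 1; the formula for the entries is what is used later.
-/

namespace Pool.Agent.VB

open FreeGroup (of)

theorem block_rep {G κ C S P : Type} [Group G] [Fintype κ] [DecidableEq κ] [Fintype C]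
    [DecidableEq C] [Fintype S] [DecidableEq S] (M : C → G →* (Matrix κ κ KK)ˣ) :
    ∃ ρ : G →* (Matrix ((κ × C) ⊕ S) ((κ × C) ⊕ S) (MvPolynomial P KK))ˣ, ∀ g : G,
      (ρ g : Matrix ((κ × C) ⊕ S) ((κ × C) ⊕ S) (MvPolynomial P KK)) =
        Matrix.fromBlocks
          (Matrix.blockDiagonal (fun c => (M c g : Matrix κ κ KK).map MvPolynomial.C)) 0 0 1 := by
  let F : G →* Matrix ((κ × C) ⊕ S) ((κ × C) ⊕ S) (MvPolynomial P KK) :=
    { toFun := fun g => Matrix.fromBlocks
          (Matrix.blockDiagonal (fun c => (M c g : Matrix κ κ KK).map MvPolynomial.C)) 0 0 1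
      map_one' := by
        have e : (fun c => (M c 1 : Matrix κ κ KK).map (MvPolynomial.C : KK →+* MvPolynomial P KK)) =
            (1 : C → Matrix κ κ (MvPolynomial P KK)) := by
          funext c
          rw [map_one, Units.val_one, Matrix.map_one _ (map_zero _) (map_one _)]
          rfl
        rw [e, Matrix.blockDiagonal_one, Matrix.fromBlocks_one]
      map_mul' := fun g h => by
        have e : (fun c => (M c (g * h) : Matrix κ κ KK).map
              (MvPolynomial.C : KK →+* MvPolynomial P KK)) =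
            (fun c => (M c g : Matrix κ κ KK).map (MvPolynomial.C : KK →+* MvPolynomial P KK) *
              (M c h : Matrix κ κ KK).map (MvPolynomial.C : KK →+* MvPolynomial P KK)) := by
          funext c
          rw [map_mul, Units.val_mul, Matrix.map_mul]
        rw [e, Matrix.blockDiagonal_mul, Matrix.fromBlocks_multiply]
        simp }
  refine ⟨F.toHomUnits, fun g => ?_⟩
  rw [MonoidHom.coe_toHomUnits]
  rfl

end Pool.Agent.VB

end Row_H2

section Row_H3

/-!
Definitions and ROW H3: the data for KB_n.  S = arcs, parameters Prm = (S × S) ⊕ (S × S × Bool × Bool) ⊕ (S × S): lambda_{s,a}, mu_{r,b,lv,d}, c_{r,s}.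
Components c = (b,a,lv,d), κ = St (Fin n).  e_s = sum over a not in lk s of lambda_{s,a} delta_none in the components (b,a,lv,d), plus 1_s; e'_r = sum over b not in lk r of mu_{r,b,lv,d} eps in (b,a,lv,d), plus
sum over s ≠ r, not adjacent, of c_{r,s} 1*_s.  ROW: the coefficient formula e'_r . ρ(g) e_s = sum over b, a, lv, d of [b ∉ lk r][a ∉ lk s] mu lambda Psi + [r ≠ s, not adj] c_{r,s}; and invariance (H1, H1', H2).
Psi (kb n) b a lv d g = (vecMul eps (M c g)) none.
-/

namespace Pool.Agent.VB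

open FreeGroup (of)

/-- arcs of `kb n` -/
abbrev Ar (n : ℕ) : Type := {p : Fin n × Fin n // p.1 ≠ p.2}

/-- adjacency (TwDef style) -/
def AdjK (n : ℕ) (r s : Ar n) : Prop := Adj (kb n).br (kb n).cm r s

/-- parameters -/
abbrev Prm (n : ℕ) : Type := (Ar n × Ar n) ⊕ ((Ar n × Ar n × Bool × Bool) ⊕ (Ar n × Ar n))

/-- components (b, a, lv, d) -/
abbrev Cmp (n : ℕ) : Type := Ar n × Ar n × Bool × Bool

instance instDecAr (n : ℕ) : DecidableEq (Ar n) := inferInstance
instance instDecCmp (n : ℕ) : DecidableEq (Cmp n) := inferInstance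
instance instDecSt (n : ℕ) : DecidableEq (St (Fin n)) := inferInstance
instance instDecSC (n : ℕ) : DecidableEq (St (Fin n) × Cmp n) :=
  @instDecidableEqProd _ _ (instDecSt n) (instDecCmp n)
instance instDecIK (n : ℕ) : DecidableEq (St (Fin n) × Cmp n ⊕ Ar n) :=
  @instDecidableEqSum _ _ (instDecSC n) (instDecAr n)

open Classical in
/-- the columns `e_s` -/
noncomputable def eK (n : ℕ) (s : Ar n) :
    (St (Fin n) × Cmp n) ⊕ Ar n → MvPolynomial (Prm n) KK
  | Sum.inl (x, c) => if x = none ∧ ¬ AdjK n s c.2.1 then MvPolynomial.X (Sum.inl (s, c.2.1)) else 0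
  | Sum.inr s' => if s' = s then 1 else 0

open Classical in
/-- the rows `e'_r` -/
noncomputable def eK' (n : ℕ) (r : Ar n) :
    (St (Fin n) × Cmp n) ⊕ Ar n → MvPolynomial (Prm n) KK
  | Sum.inl (x, c) => if ¬ AdjK n r c.1 then
      MvPolynomial.X (Sum.inr (Sum.inl (r, c.1, c.2.2.1, c.2.2.2))) *
        MvPolynomial.C (eps tK c.2.2.1 x) else 0
  | Sum.inr s' => if r ≠ s' ∧ ¬ AdjK n r s' then MvPolynomial.X (Sum.inr (Sum.inr (r, s'))) else 0

/-- a representation with the right blocks -/
def IsRho0 (n : ℕ) (ρ : (kb n).G →* (Matrix ((St (Fin n) × Cmp n) ⊕ Ar n)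
    ((St (Fin n) × Cmp n) ⊕ Ar n) (MvPolynomial (Prm n) KK))ˣ) : Prop :=
  ∃ M : Cmp n → (kb n).G →* (Matrix (St (Fin n)) (St (Fin n)) KK)ˣ,
    (∀ c g F, Matrix.vecMul F (M c g : Matrix (St (Fin n)) (St (Fin n)) KK) =
      rac (modD (kb n) c.1 c.2.1 c.2.2.1 c.2.2.2) F g) ∧
    ∀ g, (ρ g : Matrix ((St (Fin n) × Cmp n) ⊕ Ar n)
      ((St (Fin n) × Cmp n) ⊕ Ar n) (MvPolynomial (Prm n) KK)) =
        Matrix.fromBlocks (Matrix.blockDiagonal
          (fun c => (M c g : Matrix (St (Fin n)) (St (Fin n)) KK).map MvPolynomial.C)) 0 0 1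

theorem rho0_exists (n : ℕ) : ∃ ρ, IsRho0 n ρ := by
  have h1 : ∀ c : Cmp n, ∃ M : (kb n).G →* (Matrix (St (Fin n)) (St (Fin n)) KK)ˣ,
      ∀ (g : (kb n).G) (F : St (Fin n) → KK),
      Matrix.vecMul F (M g : Matrix (St (Fin n)) (St (Fin n)) KK) =
        rac (modD (kb n) c.1 c.2.1 c.2.2.1 c.2.2.2) F g :=
    fun c => ra_matrix (modD (kb n) c.1 c.2.1 c.2.2.1 c.2.2.2)
  choose M hM using h1
  obtain ⟨ρ, hρ⟩ := block_rep (P := Prm n) (S := Ar n) M
  exact ⟨ρ, M, fun c g F => hM c g F, hρ⟩

open Classical in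
theorem coef_formula (n : ℕ) (ρ) (h : IsRho0 n ρ) (g : (kb n).G) (r s : Ar n) :
    dotProduct (eK' n r) ((ρ g : Matrix ((St (Fin n) × Cmp n) ⊕ Ar n)
      ((St (Fin n) × Cmp n) ⊕ Ar n) (MvPolynomial (Prm n) KK)).mulVec (eK n s)) =
    (∑ c : Cmp n, if ¬ AdjK n r c.1 ∧ ¬ AdjK n s c.2.1 then
        MvPolynomial.X (Sum.inr (Sum.inl (r, c.1, c.2.2.1, c.2.2.2))) *
          MvPolynomial.X (Sum.inl (s, c.2.1)) *
          MvPolynomial.C (Psi (kb n) c.1 c.2.1 c.2.2.1 c.2.2.2 g) else 0) +
      if r ≠ s ∧ ¬ AdjK n r s then MvPolynomial.X (Sum.inr (Sum.inr (r, s))) else 0 := by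
  obtain ⟨M, hM, hρ⟩ := h
  rw [hρ g]
  unfold dotProduct
  rw [Fintype.sum_sum_type]
  congr 1
  · rw [Fintype.sum_prod_type_right]
    refine Finset.sum_congr rfl (fun c _ => ?_)
    have key : ∀ x : St (Fin n),
        (Matrix.mulVec (Matrix.fromBlocks (Matrix.blockDiagonal
          (fun c => (M c g : Matrix (St (Fin n)) (St (Fin n)) KK).map MvPolynomial.C)) 0 0
            (1 : Matrix (Ar n) (Ar n) (MvPolynomial (Prm n) KK))) (eK n s)) (Sum.inl (x, c)) =
        MvPolynomial.C ((M c g : Matrix (St (Fin n)) (St (Fin n)) KK) x none) *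
          (if ¬ AdjK n s c.2.1 then MvPolynomial.X (Sum.inl (s, c.2.1)) else 0) := by
      intro x
      rw [Matrix.mulVec, dotProduct, Fintype.sum_sum_type]
      have e2 : ∑ x' : Ar n, Matrix.fromBlocks (Matrix.blockDiagonal
          (fun c => (M c g : Matrix (St (Fin n)) (St (Fin n)) KK).map MvPolynomial.C)) 0 0
            (1 : Matrix (Ar n) (Ar n) (MvPolynomial (Prm n) KK)) (Sum.inl (x, c)) (Sum.inr x') *
              eK n s (Sum.inr x') = 0 := by
        refine Finset.sum_eq_zero (fun x' _ => ?_)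
        simp [Matrix.fromBlocks]
      rw [e2, add_zero, Fintype.sum_prod_type_right]
      rw [Finset.sum_eq_single c]
      · rw [Finset.sum_eq_single none]
        · simp only [Matrix.fromBlocks_apply₁₁, Matrix.blockDiagonal_apply, if_true, Matrix.map_apply,
            eK, true_and]
        · intro x' _ hx'
          simp [eK, hx']
        · intro h; exact absurd (Finset.mem_univ _) h
      · intro c' _ hc'
        refine Finset.sum_eq_zero (fun x' _ => ?_)
        rw [Matrix.fromBlocks_apply₁₁, Matrix.blockDiagonal_apply, if_neg (fun e => hc' e.symm), zero_mul]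
      · intro h; exact absurd (Finset.mem_univ _) h
    have hP : MvPolynomial.C (σ := Prm n) (Psi (kb n) c.1 c.2.1 c.2.2.1 c.2.2.2 g) =
        ∑ x : St (Fin n), MvPolynomial.C (eps tK c.2.2.1 x) *
          MvPolynomial.C ((M c g : Matrix (St (Fin n)) (St (Fin n)) KK) x none) := by
      have := congrFun (hM c g (eps tK c.2.2.1)) none
      rw [Psi, ← this, Matrix.vecMul, dotProduct, map_sum]
      simp only [map_mul]
    by_cases h1 : AdjK n r c.1
    · rw [if_neg (by tauto)]
      refine Finset.sum_eq_zero (fun x _ => ?_)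
      simp [eK', h1]
    · by_cases h2 : AdjK n s c.2.1
      · rw [if_neg (by tauto)]
        refine Finset.sum_eq_zero (fun x _ => ?_)
        rw [key x]
        simp [h2]
      · rw [if_pos ⟨h1, h2⟩, hP, Finset.mul_sum]
        refine Finset.sum_congr rfl (fun x _ => ?_)
        rw [key x]
        simp only [eK', h1, h2, not_false_eq_true, if_true]
        ring
  · have key : ∀ x : Ar n,
        (Matrix.mulVec (Matrix.fromBlocks (Matrix.blockDiagonal
          (fun c => (M c g : Matrix (St (Fin n)) (St (Fin n)) KK).map MvPolynomial.C)) 0 0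
            (1 : Matrix (Ar n) (Ar n) (MvPolynomial (Prm n) KK))) (eK n s)) (Sum.inr x) =
        if x = s then 1 else 0 := by
      intro x
      rw [Matrix.mulVec, dotProduct, Fintype.sum_sum_type]
      have e2 : ∑ x' : St (Fin n) × Cmp n, Matrix.fromBlocks (Matrix.blockDiagonal
          (fun c => (M c g : Matrix (St (Fin n)) (St (Fin n)) KK).map MvPolynomial.C)) 0 0
            (1 : Matrix (Ar n) (Ar n) (MvPolynomial (Prm n) KK)) (Sum.inr x) (Sum.inl x') *
              eK n s (Sum.inl x') = 0 := by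
        refine Finset.sum_eq_zero (fun x' _ => ?_)
        simp [Matrix.fromBlocks]
      rw [e2, zero_add, Finset.sum_eq_single x]
      · simp only [Matrix.fromBlocks_apply₂₂, Matrix.one_apply, if_true, one_mul, eK]
      · intro x' _ hx'
        rw [Matrix.fromBlocks_apply₂₂, Matrix.one_apply, if_neg (fun e => hx' e.symm), zero_mul]
      · intro h; exact absurd (Finset.mem_univ _) h
    rw [Finset.sum_eq_single s]
    · rw [key s, if_pos rfl, mul_one]
      rfl
    · intro x _ hx
      rw [key x, if_neg hx, mul_zero]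
    · intro h; exact absurd (Finset.mem_univ _) h

end Pool.Agent.VB

end Row_H3

section Row_H4

/-!
ROW H4: invariance.  (H1) ρ(x_r) e_s = e_s and (H1') e'_s ρ(x_r) = e'_s for adjacent r, s.  e_s lives in the components with a not adjacent to s, so r ≠ a (r is adjacent to s):
column delta_none is fixed by M c (x_r): (F . x_r) none = F none for all F (none_inv; bar version: theta (x_r) = x_r^-1 of the reversed system).  e'_s: components with b not adjacent to s, r ≠ b: eps_inv.
(H2): coef_formula at g = 1 with Psi_one.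
-/

namespace Pool.Agent.VB

open FreeGroup (of)

private theorem H4_adj_symm (n : ℕ) (r s : Ar n) (h : AdjK n r s) : AdjK n s r := by
  rcases h with h | h | h | h
  · exact Or.inr (Or.inl h)
  · exact Or.inl h
  · exact Or.inr (Or.inr (Or.inr h))
  · exact Or.inr (Or.inr (Or.inl h))

private theorem H4_modD {S W : Type} [DecidableEq S] [Fintype W] [DecidableEq W]
    (A : ArcSys S W) (b a : S) (lv : Bool) (r : S) (F : St W → KK) :
    rac (modD A b a lv true) F (A.x r) = rac (modE A.rev b a lv) F (A.rev.x r)⁻¹ := by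
  have e : modD A b a lv true = (modE A.rev b a lv).comp (theta A) := by
    simp only [modD, if_true]
  rw [e]
  have e2 : rac ((modE A.rev b a lv).comp (theta A)) F (A.x r) =
      rac (modE A.rev b a lv) F (theta A (A.x r)) := by
    simp only [rac, MonoidHom.comp_apply]
  rw [e2, theta_x]

private theorem H4_modF {S W : Type} [DecidableEq S] [Fintype W] [DecidableEq W]
    (A : ArcSys S W) (b a : S) (lv : Bool) :
    modD A b a lv false = modE A b a lv := by
  simp only [modD, if_false, Bool.false_eq_true]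

private theorem H4_none0 {S W : Type} [DecidableEq S] [Fintype W] [DecidableEq W]
    (A : ArcSys S W) (b a : S) (lv d : Bool) (r : S) (h : r ≠ a)
    (F : St W → KK) :
    rac (modD A b a lv d) F (A.x r) none = F none := by
  cases d with
  | false =>
    rw [H4_modF]
    exact none_inv A b a lv r h F
  | true =>
    rw [H4_modD]
    have h1 := none_inv A.rev b a lv r h (rac (modE A.rev b a lv) F (A.rev.x r)⁻¹)
    rw [← rac_mul, inv_mul_cancel, rac_one] at h1
    exact h1.symm

private theorem H4_eps0 {S W : Type} [DecidableEq S] [Fintype W] [DecidableEq W]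
    (A : ArcSys S W) (b a : S) (lv d : Bool) (r : S) (h : r ≠ b) :
    rac (modD A b a lv d) (eps tK lv) (A.x r) = eps tK lv := by
  cases d with
  | false =>
    rw [H4_modF]
    exact eps_inv A b a lv r h
  | true =>
    rw [H4_modD]
    have h1 := eps_inv A.rev b a lv r h
    conv_lhs => rw [← h1]
    rw [← rac_mul, mul_inv_cancel, rac_one]

private theorem H4_none (n : ℕ) (b a : Ar n) (lv d : Bool) (r : Ar n) (h : r ≠ a)
    (F : St (Fin n) → KK) :
    rac (modD (kb n) b a lv d) F ((kb n).x r) none = F none :=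
  H4_none0 (kb n) b a lv d r h F

private theorem H4_eps (n : ℕ) (b a : Ar n) (lv d : Bool) (r : Ar n) (h : r ≠ b) :
    rac (modD (kb n) b a lv d) (eps tK lv) ((kb n).x r) = eps tK lv :=
  H4_eps0 (kb n) b a lv d r h

theorem rho0_H1 (n : ℕ) (ρ) (h : IsRho0 n ρ) (r s : Ar n) (hrs : AdjK n r s) :
    (ρ (gen (kb n).br (kb n).cm r) : Matrix ((St (Fin n) × Cmp n) ⊕ Ar n)
      ((St (Fin n) × Cmp n) ⊕ Ar n) (MvPolynomial (Prm n) KK)).mulVec (eK n s) = eK n s := by
  classical
  obtain ⟨M, hM, hρ⟩ := h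
  obtain ⟨g, hg⟩ : ∃ g : (kb n).G, g = gen (kb n).br (kb n).cm r := ⟨_, rfl⟩
  rw [← hg]
  rw [hρ g]
  funext i
  rcases i with ⟨x, c⟩ | s'
  · rw [Matrix.mulVec, dotProduct, Fintype.sum_sum_type]
    have e2 : ∑ x' : Ar n, Matrix.fromBlocks (Matrix.blockDiagonal
        (fun c => (M c g : Matrix (St (Fin n)) (St (Fin n)) KK).map MvPolynomial.C)) 0 0
          (1 : Matrix (Ar n) (Ar n) (MvPolynomial (Prm n) KK)) (Sum.inl (x, c)) (Sum.inr x') *
            eK n s (Sum.inr x') = 0 := by
      refine Finset.sum_eq_zero (fun x' _ => ?_)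
      simp [Matrix.fromBlocks]
    rw [e2, add_zero, Fintype.sum_prod_type_right, Finset.sum_eq_single c]
    · rw [Finset.sum_eq_single none]
      · rw [Matrix.fromBlocks_apply₁₁, Matrix.blockDiagonal_apply, if_pos rfl, Matrix.map_apply]
        by_cases h1 : AdjK n s c.2.1
        · simp [eK, h1]
        · have hra : r ≠ c.2.1 := by
            rintro rfl
            exact h1 (H4_adj_symm n _ _ hrs)
          have h2 : (M c g : Matrix (St (Fin n)) (St (Fin n)) KK) x none =
              if x = none then 1 else 0 := by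
            have h3 := congrFun (hM c g (Pi.single x 1)) none
            rw [Matrix.single_one_vecMul] at h3
            have h4 : rac (modD (kb n) c.1 c.2.1 c.2.2.1 c.2.2.2) (Pi.single x 1) g none =
                (Pi.single x 1 : St (Fin n) → KK) none := by
              rw [hg]
              exact H4_none n c.1 c.2.1 c.2.2.1 c.2.2.2 r hra (Pi.single x 1)
            have h5 : (M c g : Matrix (St (Fin n)) (St (Fin n)) KK) x none =
                (Pi.single x 1 : St (Fin n) → KK) none := h3.trans h4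
            rw [h5, Pi.single_apply]
            exact if_congr eq_comm rfl rfl
          rw [h2]
          by_cases hx : x = none
          · simp [eK, h1, hx]
          · simp [eK, hx]
      · intro x' _ hx'
        simp [eK, hx']
      · intro h; exact absurd (Finset.mem_univ _) h
    · intro c' _ hc'
      refine Finset.sum_eq_zero (fun x' _ => ?_)
      rw [Matrix.fromBlocks_apply₁₁, Matrix.blockDiagonal_apply, if_neg (fun e => hc' e.symm),
        zero_mul]
    · intro h; exact absurd (Finset.mem_univ _) h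
  · rw [Matrix.mulVec, dotProduct, Fintype.sum_sum_type]
    have e2 : ∑ x' : St (Fin n) × Cmp n, Matrix.fromBlocks (Matrix.blockDiagonal
        (fun c => (M c g : Matrix (St (Fin n)) (St (Fin n)) KK).map MvPolynomial.C)) 0 0
          (1 : Matrix (Ar n) (Ar n) (MvPolynomial (Prm n) KK)) (Sum.inr s') (Sum.inl x') *
            eK n s (Sum.inl x') = 0 := by
      refine Finset.sum_eq_zero (fun x' _ => ?_)
      simp [Matrix.fromBlocks]
    rw [e2, zero_add, Finset.sum_eq_single s']
    · rw [Matrix.fromBlocks_apply₂₂, Matrix.one_apply_eq, one_mul]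
    · intro x' _ hx'
      rw [Matrix.fromBlocks_apply₂₂, Matrix.one_apply_ne (fun e => hx' e.symm), zero_mul]
    · intro h; exact absurd (Finset.mem_univ _) h

theorem rho0_H1' (n : ℕ) (ρ) (h : IsRho0 n ρ) (r s : Ar n) (hrs : AdjK n r s) :
    Matrix.vecMul (eK' n s) (ρ (gen (kb n).br (kb n).cm r) :
      Matrix ((St (Fin n) × Cmp n) ⊕ Ar n)
      ((St (Fin n) × Cmp n) ⊕ Ar n) (MvPolynomial (Prm n) KK)) = eK' n s := by
  classical
  obtain ⟨M, hM, hρ⟩ := h
  obtain ⟨g, hg⟩ : ∃ g : (kb n).G, g = gen (kb n).br (kb n).cm r := ⟨_, rfl⟩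
  rw [← hg]
  rw [hρ g]
  funext i
  rcases i with ⟨x, c⟩ | s'
  · rw [Matrix.vecMul, dotProduct, Fintype.sum_sum_type]
    have e2 : ∑ x' : Ar n, eK' n s (Sum.inr x') * Matrix.fromBlocks (Matrix.blockDiagonal
        (fun c => (M c g : Matrix (St (Fin n)) (St (Fin n)) KK).map MvPolynomial.C)) 0 0
          (1 : Matrix (Ar n) (Ar n) (MvPolynomial (Prm n) KK)) (Sum.inr x') (Sum.inl (x, c)) =
            0 := by
      refine Finset.sum_eq_zero (fun x' _ => ?_)
      simp [Matrix.fromBlocks]
    rw [e2, add_zero, Fintype.sum_prod_type_right, Finset.sum_eq_single c]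
    · by_cases h1 : AdjK n s c.1
      · have e3 : eK' n s (Sum.inl (x, c)) = 0 := by simp [eK', h1]
        rw [e3]
        refine Finset.sum_eq_zero (fun x' _ => ?_)
        simp [eK', h1]
      · have hrb : r ≠ c.1 := by
          rintro rfl
          exact h1 (H4_adj_symm n _ _ hrs)
        have h3 := congrFun (hM c g (eps tK c.2.2.1)) x
        have h4 : rac (modD (kb n) c.1 c.2.1 c.2.2.1 c.2.2.2) (eps tK c.2.2.1) g x =
            eps tK c.2.2.1 x := by
          rw [hg]
          exact congrFun (H4_eps n c.1 c.2.1 c.2.2.1 c.2.2.2 r hrb) x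
        have h5 : Matrix.vecMul (eps tK c.2.2.1) (M c g : Matrix (St (Fin n)) (St (Fin n)) KK) x =
            eps tK c.2.2.1 x := h3.trans h4
        rw [Matrix.vecMul, dotProduct] at h5
        have h6 : eK' n s (Sum.inl (x, c)) =
            MvPolynomial.X (Sum.inr (Sum.inl (s, c.1, c.2.2.1, c.2.2.2))) *
              MvPolynomial.C (eps tK c.2.2.1 x) := by simp [eK', h1]
        rw [h6, ← h5, map_sum, Finset.mul_sum]
        refine Finset.sum_congr rfl (fun x' _ => ?_)
        rw [Matrix.fromBlocks_apply₁₁, Matrix.blockDiagonal_apply, if_pos rfl, Matrix.map_apply,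
          map_mul]
        simp only [eK', h1, not_false_eq_true, if_true]
        ring
    · intro c' _ hc'
      refine Finset.sum_eq_zero (fun x' _ => ?_)
      rw [Matrix.fromBlocks_apply₁₁, Matrix.blockDiagonal_apply, if_neg hc', mul_zero]
    · intro h; exact absurd (Finset.mem_univ _) h
  · rw [Matrix.vecMul, dotProduct, Fintype.sum_sum_type]
    have e2 : ∑ x' : St (Fin n) × Cmp n, eK' n s (Sum.inl x') *
        Matrix.fromBlocks (Matrix.blockDiagonal
        (fun c => (M c g : Matrix (St (Fin n)) (St (Fin n)) KK).map MvPolynomial.C)) 0 0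
          (1 : Matrix (Ar n) (Ar n) (MvPolynomial (Prm n) KK)) (Sum.inl x') (Sum.inr s') = 0 := by
      refine Finset.sum_eq_zero (fun x' _ => ?_)
      simp [Matrix.fromBlocks]
    rw [e2, zero_add, Finset.sum_eq_single s']
    · rw [Matrix.fromBlocks_apply₂₂, Matrix.one_apply_eq, mul_one]
    · intro x' _ hx'
      rw [Matrix.fromBlocks_apply₂₂, Matrix.one_apply_ne hx', mul_zero]
    · intro h; exact absurd (Finset.mem_univ _) h

theorem rho0_H2 (n : ℕ) (ρ) (h : IsRho0 n ρ) (r s : Ar n) (hrs : AdjK n r s ∨ r = s) :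
    dotProduct (eK' n r) (eK n s) = 0 := by
  classical
  have h1 := coef_formula n ρ h 1 r s
  rw [map_one, Units.val_one, Matrix.one_mulVec] at h1
  rw [h1, if_neg (by tauto), add_zero]
  refine Finset.sum_eq_zero (fun c _ => ?_)
  rw [Psi_one, map_zero, mul_zero, ite_self]

end Pool.Agent.VB

end Row_H4

section Row_H5

/-!
ROW H5: KB_n is linear.  H3 of TwData: T a clique, g in Par T, e'_r ρ(g) e_s = 0: evaluate coef_formula (MvPolynomial.eval) at c_{r,s} = 1, others 0: r = s or adjacent; at mu_{r,b,lv,d} = 1,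
lambda_{s,a} = 1, all others 0: Psi b a lv d g = 0 for b ∉ lk r, a ∉ lk s (the sum has exactly one non zero term).  CL_all with T1 = T \ lk s, T2 = T \ lk r: u in par (T \ T2) = par (T ∩ lk r), v in par (T ∩ lk s).  H4: ρ g = 1:
for a, b in T: with r = b, s = a... (use the blocks: ρ g = 1 implies M c g = 1 for all c, so Psi c g = Psi c 1 = 0), CL with T1 = T2 = T: g in par ∅ * par ∅ = {1}.
AdjK is the same as (kb n).adj up to the order (cm symmetric).  Then twisting_theorem; MvPolynomial (Ar n) R₀ is a domain; map into its fraction field; reindex the finite index type to Fin N.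
-/

namespace Pool.Agent.VB

open FreeGroup (of)

private theorem H5_cm_symm {S W : Type} (A : ArcSys S W) (s r : S) (h : A.cm s r) : A.cm r s :=
  ⟨h.1.symm, h.2.2.1.symm, h.2.1.symm, h.2.2.2.symm⟩

private theorem H5_clique (n : ℕ) (T : Set (Ar n)) (hT : Clique (kb n).br (kb n).cm T) :
    ∀ a ∈ T, ∀ b ∈ T, a ≠ b → (kb n).adj a b := by
  intro a ha b hb hab
  rcases hT a ha b hb hab with h | h | h | h
  · exact Or.inl h
  · exact Or.inr (Or.inl h)
  · exact Or.inr (Or.inr h)
  · exact Or.inr (Or.inr (H5_cm_symm _ _ _ h))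

private theorem H5_irr (n : ℕ) (s : Ar n) : ¬ Adj (kb n).br (kb n).cm s s := by
  rintro (h | h | h | h)
  · exact (kb n).ne s h.1.symm
  · exact (kb n).ne s h.1.symm
  · exact h.1 rfl
  · exact h.1 rfl

/-- the evaluation point with only one parameter in `P` equal to 1 -/
private noncomputable def H5_pt {P : Type} (X : Set P) : P → KK := by
  classical
  exact fun p => if p ∈ X then 1 else 0

private theorem H5_pt_mem {P : Type} (X : Set P) (p : P) (h : p ∈ X) : H5_pt X p = 1 := by
  unfold H5_pt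
  simp [h]

private theorem H5_pt_not {P : Type} (X : Set P) (p : P) (h : p ∉ X) : H5_pt X p = 0 := by
  unfold H5_pt
  simp [h]

open Classical in
private theorem H5_first (n : ℕ) (g : (kb n).G) (r s : Ar n)
    (h0 : (∑ c : Cmp n, if ¬ AdjK n r c.1 ∧ ¬ AdjK n s c.2.1 then
        MvPolynomial.X (R := KK) (σ := Prm n) (Sum.inr (Sum.inl (r, c.1, c.2.2.1, c.2.2.2))) *
          MvPolynomial.X (Sum.inl (s, c.2.1)) *
          MvPolynomial.C (Psi (kb n) c.1 c.2.1 c.2.2.1 c.2.2.2 g) else 0) +
      (if r ≠ s ∧ ¬ AdjK n r s then MvPolynomial.X (Sum.inr (Sum.inr (r, s))) else 0) = 0) :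
    AdjK n r s ∨ r = s := by
  by_contra hcon
  have hcon' : r ≠ s ∧ ¬ AdjK n r s := by tauto
  have h1 := congrArg (MvPolynomial.eval (H5_pt {(Sum.inr (Sum.inr (r, s)) : Prm n)})) h0
  rw [if_pos hcon', map_add, map_sum, map_zero, MvPolynomial.eval_X, H5_pt_mem _ _ (Set.mem_singleton _)] at h1
  rw [Finset.sum_eq_zero, zero_add] at h1
  · exact one_ne_zero h1
  · intro c _
    split_ifs with h2
    · rw [map_mul, map_mul, MvPolynomial.eval_X, MvPolynomial.eval_X,
        H5_pt_not _ _ (by simp), zero_mul, zero_mul]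
    · exact map_zero _

open Classical in
private theorem H5_second (n : ℕ) (g : (kb n).G) (r s : Ar n) (hrs : AdjK n r s ∨ r = s)
    (h0 : (∑ c : Cmp n, if ¬ AdjK n r c.1 ∧ ¬ AdjK n s c.2.1 then
        MvPolynomial.X (R := KK) (σ := Prm n) (Sum.inr (Sum.inl (r, c.1, c.2.2.1, c.2.2.2))) *
          MvPolynomial.X (Sum.inl (s, c.2.1)) *
          MvPolynomial.C (Psi (kb n) c.1 c.2.1 c.2.2.1 c.2.2.2 g) else 0) +
      (if r ≠ s ∧ ¬ AdjK n r s then MvPolynomial.X (Sum.inr (Sum.inr (r, s))) else 0) = 0)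
    (b a : Ar n) (hb : ¬ AdjK n r b) (ha : ¬ AdjK n s a) (lv d : Bool) :
    Psi (kb n) b a lv d g = 0 := by
  have h1 := congrArg (MvPolynomial.eval (H5_pt
    {(Sum.inr (Sum.inl (r, b, lv, d)) : Prm n), (Sum.inl (s, a) : Prm n)})) h0
  have hrs' : ¬ (r ≠ s ∧ ¬ AdjK n r s) := by tauto
  rw [if_neg hrs', add_zero, map_sum, map_zero] at h1
  rw [Finset.sum_eq_single (b, a, lv, d)] at h1
  · rw [if_pos ⟨hb, ha⟩, map_mul, map_mul, MvPolynomial.eval_X, MvPolynomial.eval_X,
      MvPolynomial.eval_C, H5_pt_mem _ _ (by simp), H5_pt_mem _ _ (by simp), one_mul, one_mul] at h1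
    exact h1
  · rintro ⟨b', a', lv', d'⟩ _ hne
    split_ifs with h2
    · rw [map_mul, map_mul, MvPolynomial.eval_X, MvPolynomial.eval_X]
      by_cases h3 : b' = b ∧ lv' = lv ∧ d' = d
      · have h4 : a' ≠ a := by
          rintro rfl
          apply hne
          rw [h3.1, h3.2.1, h3.2.2]
        rw [H5_pt_not _ (Sum.inl (s, a')) (by simp [h4]), mul_zero, zero_mul]
      · rw [H5_pt_not _ (Sum.inr (Sum.inl (r, b', lv', d'))) (by
          simp only [Set.mem_insert_iff, Sum.inr.injEq, Sum.inl.injEq, Prod.mk.injEq, true_and,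
            Set.mem_singleton_iff, reduceCtorEq, or_false]
          exact h3), zero_mul, zero_mul]
    · exact map_zero _
  · intro h; exact absurd (Finset.mem_univ _) h

private theorem H5_H3 (n : ℕ) (ρ) (h : IsRho0 n ρ) (T : Set (Ar n))
    (hT : Clique (kb n).br (kb n).cm T) (g : (kb n).G) (hg : g ∈ Par (kb n).br (kb n).cm T)
    (r s : Ar n)
    (h0 : dotProduct (eK' n r) ((ρ g : Matrix ((St (Fin n) × Cmp n) ⊕ Ar n)
      ((St (Fin n) × Cmp n) ⊕ Ar n) (MvPolynomial (Prm n) KK)).mulVec (eK n s)) = 0) :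
    (Adj (kb n).br (kb n).cm r s ∨ r = s) ∧
      ∃ u ∈ Par (kb n).br (kb n).cm (T ∩ {x | Adj (kb n).br (kb n).cm r x}),
        ∃ v ∈ Par (kb n).br (kb n).cm (T ∩ {x | Adj (kb n).br (kb n).cm s x}), g = u * v := by
  classical
  rw [coef_formula n ρ h g r s] at h0
  have h1 : AdjK n r s ∨ r = s := H5_first n g r s h0
  refine ⟨h1, ?_⟩
  have h2 := H5_second n g r s h1 h0
  obtain ⟨u, hu, v, hv, he⟩ := CL_all n T (H5_clique n T hT)
    (T \ {x | Adj (kb n).br (kb n).cm s x}) (T \ {x | Adj (kb n).br (kb n).cm r x})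
    Set.sdiff_subset Set.sdiff_subset g hg (fun b hb a ha lv d => h2 b a hb.2 ha.2 lv d)
  rw [Set.sdiff_sdiff_right_self] at hu hv
  exact ⟨u, hu, v, hv, he⟩

private theorem H5_H4 (n : ℕ) (ρ) (h : IsRho0 n ρ) (T : Set (Ar n))
    (hT : Clique (kb n).br (kb n).cm T) (g : (kb n).G) (hg : g ∈ Par (kb n).br (kb n).cm T)
    (h1 : ρ g = 1) : g = 1 := by
  obtain ⟨M, hM, hρ⟩ := h
  have h2 := hρ g
  rw [h1, Units.val_one, ← Matrix.fromBlocks_one, Matrix.fromBlocks_inj] at h2
  have h3 : ∀ c : Cmp n, (M c g : Matrix (St (Fin n)) (St (Fin n)) KK) = 1 := by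
    intro c
    ext x y
    have h4 := congrFun (congrFun h2.1 (x, c)) (y, c)
    rw [Matrix.blockDiagonal_apply, if_pos rfl, Matrix.map_apply] at h4
    have h5 : (1 : Matrix (St (Fin n) × Cmp n) (St (Fin n) × Cmp n)
        (MvPolynomial (Prm n) KK)) (x, c) (y, c) =
        MvPolynomial.C ((1 : Matrix (St (Fin n)) (St (Fin n)) KK) x y) := by
      by_cases hxy : x = y
      · subst hxy
        rw [Matrix.one_apply_eq, Matrix.one_apply_eq, map_one]
      · rw [Matrix.one_apply_ne hxy, Matrix.one_apply_ne (by simpa using hxy), map_zero]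
    rw [h5] at h4
    exact (MvPolynomial.C_injective _ _ h4).symm
  have h4 : ∀ b ∈ T, ∀ a ∈ T, ∀ lv d, Psi (kb n) b a lv d g = 0 := by
    intro b _ a _ lv d
    have h5 := hM (b, a, lv, d) g (eps tK lv)
    rw [h3, Matrix.vecMul_one] at h5
    rw [Psi, ← h5]
    rfl
  obtain ⟨u, hu, v, hv, he⟩ := CL_all n T (H5_clique n T hT) T T subset_rfl subset_rfl g hg h4
  rw [Set.sdiff_self] at hu hv
  have hbot : (kb n).par ∅ = ⊥ := by
    rw [ArcSys.par, Set.image_empty, Subgroup.closure_empty]
  rw [hbot, Subgroup.mem_bot] at hu hv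
  rw [he, hu, hv, one_mul]

/-- the twisting data -/
private noncomputable def H5_D (n : ℕ) (ρ) (h : IsRho0 n ρ) :
    TwData (Ar n) ((St (Fin n) × Cmp n) ⊕ Ar n) (MvPolynomial (Prm n) KK) where
  br := (kb n).br
  cm := (kb n).cm
  irr := H5_irr n
  ρ₀ := ρ
  e := eK n
  e' := eK' n
  H1 := rho0_H1 n ρ h
  H1' := rho0_H1' n ρ h
  H2 := rho0_H2 n ρ h
  H3 := H5_H3 n ρ h
  H4 := H5_H4 n ρ h

private theorem H5_lin {G ι R : Type} [Group G] [Fintype ι] [DecidableEq ι] [CommRing R]
    [IsDomain R] (ρ : G →* (Matrix ι ι R)ˣ) (hρ : Function.Injective ρ) :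
    ∃ (k : Type) (_ : Field k) (N : ℕ)
      (f : G →* Matrix.GeneralLinearGroup (Fin N) k), Function.Injective f := by
  refine ⟨FractionRing R, inferInstance, Fintype.card ι, ?_⟩
  let e1 : Matrix ι ι R →+* Matrix ι ι (FractionRing R) :=
    RingHom.mapMatrix (algebraMap R (FractionRing R))
  let e2 : Matrix ι ι (FractionRing R) ≃+*
      Matrix (Fin (Fintype.card ι)) (Fin (Fintype.card ι)) (FractionRing R) :=
    (Matrix.reindexAlgEquiv ℤ (FractionRing R) (Fintype.equivFin ι)).toRingEquiv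
  let f : (Matrix ι ι R)ˣ →*
      (Matrix (Fin (Fintype.card ι)) (Fin (Fintype.card ι)) (FractionRing R))ˣ :=
    Units.map ((e2.toRingHom.comp e1 : Matrix ι ι R →+*
      Matrix (Fin (Fintype.card ι)) (Fin (Fintype.card ι)) (FractionRing R)) :
        Matrix ι ι R →* Matrix (Fin (Fintype.card ι)) (Fin (Fintype.card ι)) (FractionRing R))
  have he1 : Function.Injective e1 := by
    intro A B hAB
    ext i j
    have := congrFun (congrFun hAB i) j
    exact IsFractionRing.injective R (FractionRing R) this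
  have hf : Function.Injective f := by
    intro A B hAB
    apply Units.ext
    have := congrArg Units.val hAB
    exact he1 (e2.injective this)
  exact ⟨f.comp ρ, hf.comp hρ⟩

theorem kb_linear (n : ℕ) : ∃ (k : Type) (_ : Field k) (N : ℕ)
    (f : (kb n).G →* Matrix.GeneralLinearGroup (Fin N) k), Function.Injective f := by
  obtain ⟨ρ₀, h⟩ := rho0_exists n
  obtain ⟨ρ, hρ⟩ := twisting_theorem (H5_D n ρ₀ h)
  exact H5_lin ρ hρ

end Pool.Agent.VB

end Row_H5
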