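import Pool.Agent.Lib.MP_7c21d5_al.VB01_Modules
import Pool.Agent.Lib.MP_7c21d5_al.VB09_Cliques

set_option autoImplicit false

section Row_RDef

/-!
The group `VBG n` of the frozen statement and its generators.
-/

namespace Pool.Agent.VB

open FreeGroup (of)

/-- relators of the virtual braid group (verbatim from S02031) -/
def vbRels (n : ℕ) : Set (FreeGroup (ℕ ⊕ ℕ)) :=
  {w : FreeGroup (ℕ ⊕ ℕ) |
                (∃ i : ℕ, (i = 0 ∨ n ≤ i) ∧
                    (w = FreeGroup.of (Sum.inl i) ∨ w = FreeGroup.of (Sum.inr i))) ∨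
                (∃ i : ℕ, 1 ≤ i ∧ i + 1 ≤ n - 1 ∧
                    (w = FreeGroup.of (Sum.inl i) * FreeGroup.of (Sum.inl (i + 1)) *
                          FreeGroup.of (Sum.inl i) *
                          (FreeGroup.of (Sum.inl (i + 1)) * FreeGroup.of (Sum.inl i) *
                            FreeGroup.of (Sum.inl (i + 1)))⁻¹ ∨
                     w = FreeGroup.of (Sum.inr i) * FreeGroup.of (Sum.inr (i + 1)) *
                          FreeGroup.of (Sum.inr i) *
                          (FreeGroup.of (Sum.inr (i + 1)) * FreeGroup.of (Sum.inr i) *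
                            FreeGroup.of (Sum.inr (i + 1)))⁻¹ ∨
                     w = FreeGroup.of (Sum.inl i) * FreeGroup.of (Sum.inr (i + 1)) *
                          FreeGroup.of (Sum.inr i) *
                          (FreeGroup.of (Sum.inr (i + 1)) * FreeGroup.of (Sum.inr i) *
                            FreeGroup.of (Sum.inl (i + 1)))⁻¹)) ∨
                (∃ i : ℕ, 1 ≤ i ∧ i ≤ n - 1 ∧
                    w = FreeGroup.of (Sum.inr i) * FreeGroup.of (Sum.inr i)) ∨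
                (∃ i j : ℕ, 1 ≤ i ∧ i ≤ n - 1 ∧ 1 ≤ j ∧ j ≤ n - 1 ∧
                    (i + 2 ≤ j ∨ j + 2 ≤ i) ∧
                    (w = FreeGroup.of (Sum.inl i) * FreeGroup.of (Sum.inl j) *
                          (FreeGroup.of (Sum.inl j) * FreeGroup.of (Sum.inl i))⁻¹ ∨
                     w = FreeGroup.of (Sum.inr i) * FreeGroup.of (Sum.inr j) *
                          (FreeGroup.of (Sum.inr j) * FreeGroup.of (Sum.inr i))⁻¹ ∨
                     w = FreeGroup.of (Sum.inl i) * FreeGroup.of (Sum.inr j) *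
                          (FreeGroup.of (Sum.inr j) * FreeGroup.of (Sum.inl i))⁻¹))}

/-- the virtual braid group -/
abbrev VBG (n : ℕ) : Type := PresentedGroup (vbRels n)

/-- `sigma_i` -/
def vs (n i : ℕ) : VBG n := PresentedGroup.of (Sum.inl i)

/-- `rho_i` -/
def vr (n i : ℕ) : VBG n := PresentedGroup.of (Sum.inr i)

/-- the adjacent transposition `(i-1 i)` of `Fin n` (trivial if `i = 0` or `i ≥ n`) -/
def sw (n i : ℕ) : Equiv.Perm (Fin n) :=
  if h : 1 ≤ i ∧ i < n then Equiv.swap ⟨i - 1, by omega⟩ ⟨i, h.2⟩ else 1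

end Pool.Agent.VB

end Row_RDef

section Row_R1

/-!
ROW R1: the relations in VBG n, as equations.
-/

namespace Pool.Agent.VB

open FreeGroup (of)

private theorem R1_mk (n : ℕ) (w : FreeGroup (ℕ ⊕ ℕ)) (h : w ∈ vbRels n) :
    (QuotientGroup.mk w : VBG n) = 1 :=
  (QuotientGroup.eq_one_iff _).2 (Subgroup.subset_normalClosure h)

theorem vs_zero (n i : ℕ) (h : i = 0 ∨ n ≤ i) : vs n i = 1 :=
  R1_mk n _ (Or.inl ⟨i, h, Or.inl rfl⟩)

theorem vr_zero (n i : ℕ) (h : i = 0 ∨ n ≤ i) : vr n i = 1 :=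
  R1_mk n _ (Or.inl ⟨i, h, Or.inr rfl⟩)

theorem vs_braid (n i : ℕ) (h : 1 ≤ i) (h' : i + 1 < n) :
    vs n i * vs n (i + 1) * vs n i = vs n (i + 1) * vs n i * vs n (i + 1) := by
  have e : vs n i * vs n (i + 1) * vs n i * (vs n (i + 1) * vs n i * vs n (i + 1))⁻¹ = 1 :=
    R1_mk n _ (Or.inr (Or.inl ⟨i, h, by omega, Or.inl rfl⟩))
  exact mul_inv_eq_one.1 e

theorem vr_braid (n i : ℕ) (h : 1 ≤ i) (h' : i + 1 < n) :
    vr n i * vr n (i + 1) * vr n i = vr n (i + 1) * vr n i * vr n (i + 1) := by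
  have e : vr n i * vr n (i + 1) * vr n i * (vr n (i + 1) * vr n i * vr n (i + 1))⁻¹ = 1 :=
    R1_mk n _ (Or.inr (Or.inl ⟨i, h, by omega, Or.inr (Or.inl rfl)⟩))
  exact mul_inv_eq_one.1 e

theorem v_mixed (n i : ℕ) (h : 1 ≤ i) (h' : i + 1 < n) :
    vs n i * vr n (i + 1) * vr n i = vr n (i + 1) * vr n i * vs n (i + 1) := by
  have e : vs n i * vr n (i + 1) * vr n i * (vr n (i + 1) * vr n i * vs n (i + 1))⁻¹ = 1 :=
    R1_mk n _ (Or.inr (Or.inl ⟨i, h, by omega, Or.inr (Or.inr rfl)⟩))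
  exact mul_inv_eq_one.1 e

theorem vr_sq (n i : ℕ) : vr n i * vr n i = 1 := by
  by_cases h : i = 0 ∨ n ≤ i
  · rw [vr_zero n i h, one_mul]
  · have h1 : 1 ≤ i := by omega
    have h2 : i ≤ n - 1 := by omega
    exact R1_mk n _ (Or.inr (Or.inr (Or.inl ⟨i, h1, h2, rfl⟩)))

theorem vs_comm (n i j : ℕ) (h : i + 2 ≤ j ∨ j + 2 ≤ i) : vs n i * vs n j = vs n j * vs n i := by
  by_cases hi : i = 0 ∨ n ≤ i
  · rw [vs_zero n i hi, one_mul, mul_one]
  by_cases hj : j = 0 ∨ n ≤ j
  · rw [vs_zero n j hj, one_mul, mul_one]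
  have e : vs n i * vs n j * (vs n j * vs n i)⁻¹ = 1 :=
    R1_mk n _ (Or.inr (Or.inr (Or.inr ⟨i, j, by omega, by omega, by omega, by omega, h, Or.inl rfl⟩)))
  exact mul_inv_eq_one.1 e

theorem vr_comm (n i j : ℕ) (h : i + 2 ≤ j ∨ j + 2 ≤ i) : vr n i * vr n j = vr n j * vr n i := by
  by_cases hi : i = 0 ∨ n ≤ i
  · rw [vr_zero n i hi, one_mul, mul_one]
  by_cases hj : j = 0 ∨ n ≤ j
  · rw [vr_zero n j hj, one_mul, mul_one]
  have e : vr n i * vr n j * (vr n j * vr n i)⁻¹ = 1 :=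
    R1_mk n _ (Or.inr (Or.inr (Or.inr ⟨i, j, by omega, by omega, by omega, by omega, h,
      Or.inr (Or.inl rfl)⟩)))
  exact mul_inv_eq_one.1 e

theorem vsr_comm (n i j : ℕ) (h : i + 2 ≤ j ∨ j + 2 ≤ i) : vs n i * vr n j = vr n j * vs n i := by
  by_cases hi : i = 0 ∨ n ≤ i
  · rw [vs_zero n i hi, one_mul, mul_one]
  by_cases hj : j = 0 ∨ n ≤ j
  · rw [vr_zero n j hj, one_mul, mul_one]
  have e : vs n i * vr n j * (vr n j * vs n i)⁻¹ = 1 :=
    R1_mk n _ (Or.inr (Or.inr (Or.inr ⟨i, j, by omega, by omega, by omega, by omega, h,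
      Or.inr (Or.inr rfl)⟩)))
  exact mul_inv_eq_one.1 e

end Pool.Agent.VB

end Row_R1

section Row_R2

/-!
ROW R2: Coxeter presentation of the symmetric group, finite part.  `CoxG n` := presented group with generators c_i, i : ℕ, c_i = 1 for i = 0 or i ≥ n, c_i^2 = 1, braid, commutation.
Claim: it is finite with at most n! elements.  Induction on n: for n+1 let H = subgroup generated by c_1..c_(n-1) (image of CoxG n, so card H ≤ n!); the n+1 cosets C_j = c_j c_(j+1) ... c_n H, j = 1..n+1,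
form a set stable under left multiplication by all c_i: i < j-1: c_i commutes with c_j..c_n and is in H; i = j-1: C_(j-1); i = j: C_(j+1); i > j: c_i c_j...c_n = c_j...c_n c_(i-1).  So their union is everything.
-/

namespace Pool.Agent.VB

open FreeGroup (of)

/-- Coxeter relators of the symmetric group -/
def coxRels (n : ℕ) : Set (FreeGroup ℕ) :=
  {w | (∃ i, (i = 0 ∨ n ≤ i) ∧ w = of i) ∨ (∃ i, w = of i * of i) ∨
    (∃ i, 1 ≤ i ∧ i + 1 < n ∧ w = of i * of (i + 1) * of i * (of (i + 1) * of i * of (i + 1))⁻¹) ∨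
    (∃ i j, i + 2 ≤ j ∧ w = of i * of j * (of j * of i)⁻¹)}

/-- the Coxeter group -/
abbrev CoxG (n : ℕ) : Type := PresentedGroup (coxRels n)

private def R2c (n i : ℕ) : CoxG n := PresentedGroup.of i

private theorem R2_one (n i : ℕ) (h : i = 0 ∨ n ≤ i) : R2c n i = 1 := by
  have h' : (QuotientGroup.mk (of i) : CoxG n) = 1 :=
    (QuotientGroup.eq_one_iff _).2 (Subgroup.subset_normalClosure (Or.inl ⟨i, h, rfl⟩))
  exact h'

private theorem R2_sq (n i : ℕ) : R2c n i * R2c n i = 1 := by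
  have h' : (QuotientGroup.mk (of i * of i) : CoxG n) = 1 :=
    (QuotientGroup.eq_one_iff _).2 (Subgroup.subset_normalClosure (Or.inr (Or.inl ⟨i, rfl⟩)))
  exact h'

private theorem R2_braid (n i : ℕ) (h1 : 1 ≤ i) (h2 : i + 1 < n) :
    R2c n i * R2c n (i + 1) * R2c n i = R2c n (i + 1) * R2c n i * R2c n (i + 1) := by
  have h' : (QuotientGroup.mk (of i * of (i + 1) * of i * (of (i + 1) * of i * of (i + 1))⁻¹) :
      CoxG n) = 1 :=
    (QuotientGroup.eq_one_iff _).2
      (Subgroup.subset_normalClosure (Or.inr (Or.inr (Or.inl ⟨i, h1, h2, rfl⟩))))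
  have h'' : R2c n i * R2c n (i + 1) * R2c n i *
      (R2c n (i + 1) * R2c n i * R2c n (i + 1))⁻¹ = 1 := h'
  exact mul_inv_eq_one.1 h''

private theorem R2_comm (n i j : ℕ) (h : i + 2 ≤ j) :
    R2c n i * R2c n j = R2c n j * R2c n i := by
  have h' : (QuotientGroup.mk (of i * of j * (of j * of i)⁻¹) : CoxG n) = 1 :=
    (QuotientGroup.eq_one_iff _).2
      (Subgroup.subset_normalClosure (Or.inr (Or.inr (Or.inr ⟨i, j, h, rfl⟩))))
  have h'' : R2c n i * R2c n j * (R2c n j * R2c n i)⁻¹ = 1 := h'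
  exact mul_inv_eq_one.1 h''

/-- the natural map `CoxG n → CoxG (n+1)` -/
private def R2map (n : ℕ) : CoxG n →* CoxG (n + 1) :=
  PresentedGroup.toGroup (f := fun i => if i < n then R2c (n + 1) i else 1) (by
    rintro w (⟨i, h, rfl⟩ | ⟨i, rfl⟩ | ⟨i, h1, h2, rfl⟩ | ⟨i, j, h, rfl⟩)
    · rw [FreeGroup.lift_apply_of]
      split_ifs with hi
      · exact R2_one _ _ (Or.inl (h.resolve_right (by omega)))
      · rfl
    · rw [map_mul, FreeGroup.lift_apply_of]
      split_ifs with hi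
      · exact R2_sq _ _
      · exact one_mul _
    · simp only [map_mul, map_inv, FreeGroup.lift_apply_of]
      rw [if_pos (by omega : i < n), if_pos h2, R2_braid (n + 1) i h1 (by omega), mul_inv_cancel]
    · simp only [map_mul, map_inv, FreeGroup.lift_apply_of]
      by_cases hj : j < n
      · rw [if_pos (by omega : i < n), if_pos hj, R2_comm (n + 1) i j h, mul_inv_cancel]
      · rw [if_neg hj, mul_one, one_mul, mul_inv_cancel])

private theorem R2map_c (n i : ℕ) (h : i < n) : R2map n (R2c n i) = R2c (n + 1) i := by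
  simp [R2map, R2c, h]

/-- `c_(n-k+1) ... c_n` -/
private def R2v (n : ℕ) : ℕ → CoxG (n + 1)
  | 0 => 1
  | (k + 1) => R2c (n + 1) (n - k) * R2v n k

private theorem R2_A (n i : ℕ) : ∀ k, i + k + 1 ≤ n →
    R2c (n + 1) i * R2v n k = R2v n k * R2c (n + 1) i
  | 0, _ => by simp [R2v]
  | (k + 1), h => by
      rw [R2v, ← mul_assoc, R2_comm (n + 1) i (n - k) (by omega), mul_assoc,
        R2_A n i k (by omega), mul_assoc]

private theorem R2_B (n i : ℕ) (hi : i ≤ n) : ∀ k, k ≤ n → n + 2 ≤ i + k →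
    R2c (n + 1) i * R2v n k = R2v n k * R2c (n + 1) (i - 1)
  | 0, _, h => by omega
  | 1, _, h => by omega
  | (k + 2), h1, h2 => by
      by_cases h : n + 2 ≤ i + (k + 1)
      · rw [R2v, ← mul_assoc, ← R2_comm (n + 1) (n - (k + 1)) i (by omega), mul_assoc,
          R2_B n i hi (k + 1) (by omega) h, mul_assoc]
      · obtain ⟨j, hj⟩ : ∃ j, i = j + 1 := ⟨i - 1, by omega⟩
        have e1 : n - (k + 1) = j := by omega
        have e2 : n - k = j + 1 := by omega
        have e3 : i - 1 = j := by omega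
        have hA := R2_A n j k (by omega)
        have hb := R2_braid (n + 1) j (by omega) (by omega)
        rw [e3, hj, R2v, R2v, e1, e2]
        calc R2c (n + 1) (j + 1) * (R2c (n + 1) j * (R2c (n + 1) (j + 1) * R2v n k))
            = (R2c (n + 1) (j + 1) * R2c (n + 1) j * R2c (n + 1) (j + 1)) * R2v n k := by
              simp only [mul_assoc]
          _ = R2c (n + 1) j * R2c (n + 1) (j + 1) * (R2c (n + 1) j * R2v n k) := by
              rw [← hb]; simp only [mul_assoc]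
          _ = R2c (n + 1) j * (R2c (n + 1) (j + 1) * R2v n k) * R2c (n + 1) j := by
              rw [hA]; simp only [mul_assoc]

private theorem R2_stab (n i k : ℕ) (hk : k ≤ n) :
    ∃ k', k' ≤ n ∧ ∃ h : CoxG n, R2c (n + 1) i * R2v n k = R2v n k' * R2map n h := by
  by_cases h0 : i = 0 ∨ n + 1 ≤ i
  · exact ⟨k, hk, 1, by rw [R2_one (n + 1) i h0, one_mul, map_one, mul_one]⟩
  · have hi1 : 1 ≤ i := by omega
    have hi2 : i ≤ n := by omega
    by_cases h1 : i + k + 1 ≤ n
    · exact ⟨k, hk, R2c n i, by rw [R2_A n i k h1, R2map_c n i (by omega)]⟩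
    · by_cases h2 : i + k = n
      · refine ⟨k + 1, by omega, 1, ?_⟩
        have e : n - k = i := by omega
        rw [map_one, mul_one, R2v, e]
      · by_cases h3 : i + k = n + 1
        · obtain ⟨k', rfl⟩ : ∃ k', k = k' + 1 := ⟨k - 1, by omega⟩
          refine ⟨k', by omega, 1, ?_⟩
          have e : n - k' = i := by omega
          rw [map_one, mul_one, R2v, e, ← mul_assoc, R2_sq, one_mul]
        · exact ⟨k, hk, R2c n (i - 1), by
            rw [R2_B n i hi2 k hk (by omega), R2map_c n (i - 1) (by omega)]⟩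

private theorem R2_all (n : ℕ) (g : CoxG (n + 1)) :
    ∃ k, k ≤ n ∧ ∃ h : CoxG n, g = R2v n k * R2map n h := by
  have key : ∀ (i : ℕ) (x : CoxG (n + 1)),
      (∃ k, k ≤ n ∧ ∃ h : CoxG n, x = R2v n k * R2map n h) →
      ∃ k, k ≤ n ∧ ∃ h : CoxG n, R2c (n + 1) i * x = R2v n k * R2map n h := by
    rintro i x ⟨k, hk, h, rfl⟩
    obtain ⟨k', hk', h', e⟩ := R2_stab n i k hk
    exact ⟨k', hk', h' * h, by rw [← mul_assoc, e, map_mul, mul_assoc]⟩
  have hinv : ∀ i, (R2c (n + 1) i)⁻¹ = R2c (n + 1) i := fun i =>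
    inv_eq_of_mul_eq_one_left (R2_sq (n + 1) i)
  have hc : Subgroup.closure (Set.range (PresentedGroup.of : ℕ → CoxG (n + 1))) = ⊤ :=
    PresentedGroup.closure_range_of _
  have hg : g ∈ Subgroup.closure (Set.range (PresentedGroup.of : ℕ → CoxG (n + 1))) := by
    rw [hc]; trivial
  refine Subgroup.closure_induction_left
    (p := fun x _ => ∃ k, k ≤ n ∧ ∃ h : CoxG n, x = R2v n k * R2map n h)
    ⟨0, Nat.zero_le _, 1, by simp [R2v]⟩ ?_ ?_ hg
  · rintro _ ⟨i, rfl⟩ y _ ih
    exact key i y ih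
  · rintro _ ⟨i, rfl⟩ y _ ih
    have h := key i y ih
    rw [← hinv i] at h
    exact h

theorem cox_card (n : ℕ) : Finite (CoxG n) ∧ Nat.card (CoxG n) ≤ n.factorial := by
  induction n with
  | zero =>
    have h : ∀ g : CoxG 0, g = 1 := by
      intro g
      have hc : Subgroup.closure (Set.range (PresentedGroup.of : ℕ → CoxG 0)) = ⊤ :=
        PresentedGroup.closure_range_of _
      have hg : g ∈ Subgroup.closure (Set.range (PresentedGroup.of : ℕ → CoxG 0)) := by
        rw [hc]; trivial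
      have hle : Subgroup.closure (Set.range (PresentedGroup.of : ℕ → CoxG 0)) ≤ ⊥ := by
        rw [Subgroup.closure_le]
        rintro _ ⟨i, rfl⟩
        exact R2_one 0 i (Or.inr (Nat.zero_le i))
      exact hle hg
    have : Subsingleton (CoxG 0) := ⟨fun a b => by rw [h a, h b]⟩
    have : Unique (CoxG 0) := ⟨⟨1⟩, h⟩
    refine ⟨inferInstance, ?_⟩
    rw [Nat.card_unique]
    exact Nat.le_refl 1
  | succ n ih =>
    obtain ⟨hf, hc⟩ := ih
    let F : Fin (n + 1) × CoxG n → CoxG (n + 1) := fun p => R2v n (p.1 : ℕ) * R2map n p.2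
    have hF : Function.Surjective F := by
      intro g
      obtain ⟨k, hk, h, e⟩ := R2_all n g
      exact ⟨(⟨k, by omega⟩, h), e.symm⟩
    refine ⟨Finite.of_surjective F hF, ?_⟩
    calc Nat.card (CoxG (n + 1)) ≤ Nat.card (Fin (n + 1) × CoxG n) :=
          Nat.card_le_card_of_surjective F hF
      _ = (n + 1) * Nat.card (CoxG n) := by rw [Nat.card_prod, Nat.card_fin]
      _ ≤ (n + 1) * n.factorial := Nat.mul_le_mul_left _ hc
      _ = (n + 1).factorial := (Nat.factorial_succ n).symm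

end Pool.Agent.VB

end Row_R2

section Row_R3

/-!
ROW R3: the universal property of the symmetric group.  CoxG n → Perm (Fin n), c_i ↦ sw n i: well defined (relations of adjacent transpositions), surjective (adjacent transpositions generate:
Equiv.Perm.mclosure_swap_castSucc_succ), so bijective by cox_card (Nat.card (Perm (Fin n)) = n!).  Compose the inverse with CoxG n → H, c_i ↦ r i.
-/

namespace Pool.Agent.VB

open FreeGroup (of)

private def r3lift {H : Type} [Group H] (n : ℕ) (r : ℕ → H) (h0 : ∀ i, i = 0 ∨ n ≤ i → r i = 1)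
    (h1 : ∀ i, r i * r i = 1)
    (h2 : ∀ i, 1 ≤ i → i + 1 < n → r i * r (i + 1) * r i = r (i + 1) * r i * r (i + 1))
    (h3 : ∀ i j, i + 2 ≤ j → r i * r j = r j * r i) : CoxG n →* H :=
  PresentedGroup.toGroup (f := r) (by
    rintro w (⟨i, h, rfl⟩ | ⟨i, rfl⟩ | ⟨i, h, h', rfl⟩ | ⟨i, j, h, rfl⟩)
    · simp [h0 i h]
    · simp [h1 i]
    · simp only [map_mul, map_inv, FreeGroup.lift_apply_of]
      rw [h2 i h h', mul_inv_cancel]
    · simp only [map_mul, map_inv, FreeGroup.lift_apply_of]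
      rw [h3 i j h, mul_inv_cancel])

private theorem r3lift_of {H : Type} [Group H] (n : ℕ) (r : ℕ → H) (h0 : ∀ i, i = 0 ∨ n ≤ i → r i = 1)
    (h1 : ∀ i, r i * r i = 1)
    (h2 : ∀ i, 1 ≤ i → i + 1 < n → r i * r (i + 1) * r i = r (i + 1) * r i * r (i + 1))
    (h3 : ∀ i j, i + 2 ≤ j → r i * r j = r j * r i) (i : ℕ) :
    r3lift n r h0 h1 h2 h3 (PresentedGroup.of i) = r i := by
  simp [r3lift]

private theorem r3_sw0 (n i : ℕ) (h : i = 0 ∨ n ≤ i) : sw n i = 1 := by
  have : ¬ (1 ≤ i ∧ i < n) := by omega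
  simp [sw, this]

private theorem r3_sw1 (n i : ℕ) : sw n i * sw n i = 1 := by
  by_cases h : 1 ≤ i ∧ i < n
  · simp [sw, h]
  · simp [sw, h]

private theorem r3_sw2 (n i : ℕ) (h : 1 ≤ i) (h' : i + 1 < n) :
    sw n i * sw n (i + 1) * sw n i = sw n (i + 1) * sw n i * sw n (i + 1) := by
  have e1 : 1 ≤ i ∧ i < n := by omega
  have e2 : 1 ≤ i + 1 ∧ i + 1 < n := by omega
  simp only [sw, e1, e2, and_self, dif_pos]
  have a1 : (⟨i - 1, by omega⟩ : Fin n) ≠ ⟨i, e1.2⟩ := by
    simp only [ne_eq, Fin.mk.injEq]; omega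
  have a2 : (⟨i - 1, by omega⟩ : Fin n) ≠ ⟨i + 1, e2.2⟩ := by
    simp only [ne_eq, Fin.mk.injEq]; omega
  have a3 : (⟨i, e1.2⟩ : Fin n) ≠ ⟨i + 1, e2.2⟩ := by
    simp only [ne_eq, Fin.mk.injEq]; omega
  have a4 : (⟨i + 1 - 1, by omega⟩ : Fin n) = ⟨i, e1.2⟩ := by
    simp only [Fin.mk.injEq]; omega
  rw [a4]
  generalize (⟨i - 1, by omega⟩ : Fin n) = a at *
  generalize (⟨i, e1.2⟩ : Fin n) = b at *
  generalize (⟨i + 1, e2.2⟩ : Fin n) = c at *
  ext x
  simp only [Equiv.Perm.coe_mul, Function.comp_apply]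
  by_cases hx : x = a
  · subst hx
    rw [Equiv.swap_apply_left, Equiv.swap_apply_left, Equiv.swap_apply_of_ne_of_ne a2.symm a3.symm,
      Equiv.swap_apply_of_ne_of_ne a1 a2, Equiv.swap_apply_left, Equiv.swap_apply_left]
  · by_cases hy : x = b
    · subst hy
      rw [Equiv.swap_apply_right, Equiv.swap_apply_of_ne_of_ne a1 a2, Equiv.swap_apply_left,
        Equiv.swap_apply_left, Equiv.swap_apply_of_ne_of_ne a2.symm a3.symm,
        Equiv.swap_apply_right]
    · by_cases hz : x = c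
      · subst hz
        rw [Equiv.swap_apply_of_ne_of_ne hx hy, Equiv.swap_apply_right, Equiv.swap_apply_right,
          Equiv.swap_apply_of_ne_of_ne a1 a2]
      · rw [Equiv.swap_apply_of_ne_of_ne hx hy, Equiv.swap_apply_of_ne_of_ne hy hz,
          Equiv.swap_apply_of_ne_of_ne hx hy, Equiv.swap_apply_of_ne_of_ne hy hz]

private theorem r3_sw3 (n i j : ℕ) (h : i + 2 ≤ j) : sw n i * sw n j = sw n j * sw n i := by
  by_cases hi : 1 ≤ i ∧ i < n
  · by_cases hj : 1 ≤ j ∧ j < n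
    · simp only [sw, hi, hj, and_self, dif_pos]
      apply Equiv.Perm.Disjoint.commute
      intro x
      by_cases h1 : x = ⟨i - 1, by omega⟩
      · right
        subst h1
        apply Equiv.swap_apply_of_ne_of_ne <;> simp only [ne_eq, Fin.mk.injEq] <;> omega
      · by_cases h2 : x = ⟨i, hi.2⟩
        · right
          subst h2
          apply Equiv.swap_apply_of_ne_of_ne <;> simp only [ne_eq, Fin.mk.injEq] <;> omega
        · left
          exact Equiv.swap_apply_of_ne_of_ne h1 h2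
    · simp [sw, hj]
  · simp [sw, hi]

private def r3P (n : ℕ) : CoxG n →* Equiv.Perm (Fin n) :=
  r3lift n (sw n) (r3_sw0 n) (r3_sw1 n) (r3_sw2 n) (r3_sw3 n)

private theorem r3P_surj (n : ℕ) : Function.Surjective (r3P n) := by
  rw [← MonoidHom.range_eq_top]
  rw [eq_top_iff]
  rcases n with _ | n
  · intro w _
    have : w = 1 := Subsingleton.elim _ _
    rw [this]; exact Subgroup.one_mem _
  · intro w _
    have hw : w ∈ Submonoid.closure (Set.range fun i : Fin n ↦ Equiv.swap i.castSucc i.succ) := by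
      rw [Equiv.Perm.mclosure_swap_castSucc_succ]; trivial
    have hle : Submonoid.closure (Set.range fun i : Fin n ↦ Equiv.swap i.castSucc i.succ) ≤
        (r3P (n + 1)).range.toSubmonoid := by
      rw [Submonoid.closure_le]
      rintro _ ⟨i, rfl⟩
      refine ⟨PresentedGroup.of ((i : ℕ) + 1), ?_⟩
      rw [r3P, r3lift_of]
      have e : 1 ≤ (i : ℕ) + 1 ∧ (i : ℕ) + 1 < n + 1 := ⟨by omega, by omega⟩
      simp only [sw, e, and_self, dif_pos]
      rfl
    exact hle hw

theorem sym_lift {H : Type} [Group H] (n : ℕ) (r : ℕ → H) (h0 : ∀ i, i = 0 ∨ n ≤ i → r i = 1)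
    (h1 : ∀ i, r i * r i = 1)
    (h2 : ∀ i, 1 ≤ i → i + 1 < n → r i * r (i + 1) * r i = r (i + 1) * r i * r (i + 1))
    (h3 : ∀ i j, i + 2 ≤ j → r i * r j = r j * r i) :
    ∃ ψ : Equiv.Perm (Fin n) →* H, ∀ i, ψ (sw n i) = r i := by
  haveI : Finite (CoxG n) := (cox_card n).1
  have hb : Function.Bijective (r3P n) := by
    apply (r3P_surj n).bijective_of_nat_card_le
    rw [Nat.card_perm, Nat.card_fin]
    exact (cox_card n).2
  let e : CoxG n ≃* Equiv.Perm (Fin n) := MulEquiv.ofBijective (r3P n) hb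
  refine ⟨(r3lift n r h0 h1 h2 h3).comp e.symm.toMonoidHom, fun i => ?_⟩
  have : e.symm (sw n i) = PresentedGroup.of i := by
    rw [MulEquiv.symm_apply_eq]
    change sw n i = r3P n (PresentedGroup.of i)
    rw [r3P, r3lift_of]
  change r3lift n r h0 h1 h2 h3 (e.symm (sw n i)) = r i
  rw [this, r3lift_of]

end Pool.Agent.VB

end Row_R3

section Row_R4

/-!
ROW R4: S_n acts on KB_n.  permHom n w : ArcHom (kb n) (kb n) from a permutation; actK n : Perm (Fin n) →* MulAut (kb n).G with actK n w (x p) = x (w p).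
-/

namespace Pool.Agent.VB

open FreeGroup (of)

/-- `w` acts on arcs -/
def parc {n : ℕ} (w : Equiv.Perm (Fin n)) (p : {p : Fin n × Fin n // p.1 ≠ p.2}) :
    {p : Fin n × Fin n // p.1 ≠ p.2} :=
  ⟨(w p.1.1, w p.1.2), fun h => p.2 (w.injective h)⟩

theorem R4_parc_inj {n : ℕ} (w : Equiv.Perm (Fin n)) : Function.Injective (parc w) := by
  rintro ⟨⟨i, j⟩, h⟩ ⟨⟨i', j'⟩, h'⟩ e
  have e' := congrArg Subtype.val e
  simp only [parc, Prod.mk.injEq] at e'
  obtain ⟨e1, e2⟩ := e'
  obtain rfl := w.injective e1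
  obtain rfl := w.injective e2
  rfl

/-- the morphism of a permutation -/
def R4_permHom {n : ℕ} (w : Equiv.Perm (Fin n)) : ArcHom (kb n) (kb n) :=
  ⟨parc w, w, R4_parc_inj w, w.injective, fun _ => rfl, fun _ => rfl⟩

/-- the homomorphism of a permutation -/
def R4_kH {n : ℕ} (w : Equiv.Perm (Fin n)) : (kb n).G →* (kb n).G := (R4_permHom w).map

theorem R4_kH_x {n : ℕ} (w : Equiv.Perm (Fin n)) (p : {p : Fin n × Fin n // p.1 ≠ p.2}) :
    R4_kH w ((kb n).x p) = (kb n).x (parc w p) :=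
  ArcHom.map_x (R4_permHom w) p

theorem R4_kH_one {n : ℕ} : R4_kH (1 : Equiv.Perm (Fin n)) = MonoidHom.id _ := by
  apply PresentedGroup.ext
  intro p
  exact R4_kH_x 1 p

theorem R4_kH_mul {n : ℕ} (w w' : Equiv.Perm (Fin n)) :
    R4_kH (w * w') = (R4_kH w).comp (R4_kH w') := by
  apply PresentedGroup.ext
  intro p
  show R4_kH (w * w') ((kb n).x p) = R4_kH w (R4_kH w' ((kb n).x p))
  rw [R4_kH_x, R4_kH_x, R4_kH_x]
  rfl

/-- the automorphism of a permutation -/
def R4_kE {n : ℕ} (w : Equiv.Perm (Fin n)) : MulAut (kb n).G :=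
  MonoidHom.toMulEquiv (R4_kH w) (R4_kH w⁻¹)
    (by rw [← R4_kH_mul, inv_mul_cancel, R4_kH_one])
    (by rw [← R4_kH_mul, mul_inv_cancel, R4_kH_one])

theorem actK_exists (n : ℕ) : ∃ φ : Equiv.Perm (Fin n) →* MulAut (kb n).G,
    ∀ w p, φ w ((kb n).x p) = (kb n).x (parc w p) := by
  refine ⟨MonoidHom.mk' R4_kE fun w w' => ?_, fun w p => R4_kH_x w p⟩
  ext g
  show R4_kH (w * w') g = R4_kH w (R4_kH w' g)
  rw [R4_kH_mul]
  rfl

end Pool.Agent.VB

end Row_R4

section Row_R5

/-!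
ROW R5: forward map VBG n → KB_n ⋊ S_n (for any action φ as in R4): sigma_i ↦ inl (x (i-1,i)) (1 ≤ i < n; else 1), rho_i ↦ inr (sw n i).
Mixed relation: (x_(i-1,i), 1)(1, w) with w = sw (i+1) * sw i, w(i) = i-1, w(i+1) = i: w x_(i,i+1) w^-1 = x_(i-1,i).
-/

namespace Pool.Agent.VB

open FreeGroup (of)

/-- the element `x (i-1,i)` of `KB_n` (1 if out of range) -/
def xk (n i : ℕ) : (kb n).G :=
  if h : 1 ≤ i ∧ i < n then (kb n).x ⟨(⟨i - 1, by omega⟩, ⟨i, h.2⟩), by
    simp only [ne_eq, Fin.mk.injEq]; omega⟩ else 1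

private theorem r5_sw0 (n i : ℕ) (h : i = 0 ∨ n ≤ i) : sw n i = 1 := by
  have : ¬ (1 ≤ i ∧ i < n) := by omega
  simp [sw, this]

private theorem r5_sw1 (n i : ℕ) : sw n i * sw n i = 1 := by
  by_cases h : 1 ≤ i ∧ i < n
  · simp [sw, h]
  · simp [sw, h]

private theorem r5_sw2 (n i : ℕ) (h : 1 ≤ i) (h' : i + 1 < n) :
    sw n i * sw n (i + 1) * sw n i = sw n (i + 1) * sw n i * sw n (i + 1) := by
  have e1 : 1 ≤ i ∧ i < n := by omega
  have e2 : 1 ≤ i + 1 ∧ i + 1 < n := by omega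
  simp only [sw, e1, e2, and_self, dif_pos]
  have a1 : (⟨i - 1, by omega⟩ : Fin n) ≠ ⟨i, e1.2⟩ := by
    simp only [ne_eq, Fin.mk.injEq]; omega
  have a2 : (⟨i - 1, by omega⟩ : Fin n) ≠ ⟨i + 1, e2.2⟩ := by
    simp only [ne_eq, Fin.mk.injEq]; omega
  have a3 : (⟨i, e1.2⟩ : Fin n) ≠ ⟨i + 1, e2.2⟩ := by
    simp only [ne_eq, Fin.mk.injEq]; omega
  have a4 : (⟨i + 1 - 1, by omega⟩ : Fin n) = ⟨i, e1.2⟩ := by
    simp only [Fin.mk.injEq]; omega
  rw [a4]
  generalize (⟨i - 1, by omega⟩ : Fin n) = a at *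
  generalize (⟨i, e1.2⟩ : Fin n) = b at *
  generalize (⟨i + 1, e2.2⟩ : Fin n) = c at *
  ext x
  simp only [Equiv.Perm.coe_mul, Function.comp_apply]
  by_cases hx : x = a
  · subst hx
    rw [Equiv.swap_apply_left, Equiv.swap_apply_left, Equiv.swap_apply_of_ne_of_ne a2.symm a3.symm,
      Equiv.swap_apply_of_ne_of_ne a1 a2, Equiv.swap_apply_left, Equiv.swap_apply_left]
  · by_cases hy : x = b
    · subst hy
      rw [Equiv.swap_apply_right, Equiv.swap_apply_of_ne_of_ne a1 a2, Equiv.swap_apply_left,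
        Equiv.swap_apply_left, Equiv.swap_apply_of_ne_of_ne a2.symm a3.symm,
        Equiv.swap_apply_right]
    · by_cases hz : x = c
      · subst hz
        rw [Equiv.swap_apply_of_ne_of_ne hx hy, Equiv.swap_apply_right, Equiv.swap_apply_right,
          Equiv.swap_apply_of_ne_of_ne a1 a2]
      · rw [Equiv.swap_apply_of_ne_of_ne hx hy, Equiv.swap_apply_of_ne_of_ne hy hz,
          Equiv.swap_apply_of_ne_of_ne hx hy, Equiv.swap_apply_of_ne_of_ne hy hz]

private theorem r5_sw3 (n i j : ℕ) (h : i + 2 ≤ j) : sw n i * sw n j = sw n j * sw n i := by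
  by_cases hi : 1 ≤ i ∧ i < n
  · by_cases hj : 1 ≤ j ∧ j < n
    · simp only [sw, hi, hj, and_self, dif_pos]
      apply Equiv.Perm.Disjoint.commute
      intro x
      by_cases h1 : x = ⟨i - 1, by omega⟩
      · right
        subst h1
        apply Equiv.swap_apply_of_ne_of_ne <;> simp only [ne_eq, Fin.mk.injEq] <;> omega
      · by_cases h2 : x = ⟨i, hi.2⟩
        · right
          subst h2
          apply Equiv.swap_apply_of_ne_of_ne <;> simp only [ne_eq, Fin.mk.injEq] <;> omega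
        · left
          exact Equiv.swap_apply_of_ne_of_ne h1 h2
    · simp [sw, hj]
  · simp [sw, hi]

private theorem r5_xk0 (n i : ℕ) (h : i = 0 ∨ n ≤ i) : xk n i = 1 := by
  have : ¬ (1 ≤ i ∧ i < n) := by omega
  simp [xk, this]

private theorem r5_xk1 (n i : ℕ) (h : 1 ≤ i) (h' : i + 1 < n) :
    xk n i * xk n (i + 1) * xk n i = xk n (i + 1) * xk n i * xk n (i + 1) := by
  have e1 : 1 ≤ i ∧ i < n := by omega
  have e2 : 1 ≤ i + 1 ∧ i + 1 < n := by omega
  simp only [xk, e1, e2, and_self, dif_pos]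
  apply x_braid
  refine ⟨?_, ?_⟩
  · simp only [kb, Fin.mk.injEq]; omega
  · simp only [kb, ne_eq, Fin.mk.injEq]; omega

private theorem r5_xk2 (n i j : ℕ) (h : i + 2 ≤ j) : xk n i * xk n j = xk n j * xk n i := by
  by_cases hi : 1 ≤ i ∧ i < n
  · by_cases hj : 1 ≤ j ∧ j < n
    · simp only [xk, hi, hj, and_self, dif_pos]
      apply x_comm
      refine ⟨?_, ?_, ?_, ?_⟩ <;> simp only [kb, ne_eq, Fin.mk.injEq] <;> omega
    · simp [xk, hj]
  · simp [xk, hi]

/-- the permutation fixes or moves the generator -/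
private theorem r5_act (n : ℕ) (φ : Equiv.Perm (Fin n) →* MulAut (kb n).G)
    (hφ : ∀ w p, φ w ((kb n).x p) = (kb n).x (parc w p)) (i j : ℕ) (hij : i + 2 ≤ j ∨ j + 2 ≤ i) :
    φ (sw n j) (xk n i) = xk n i := by
  by_cases hi : 1 ≤ i ∧ i < n
  · by_cases hj : 1 ≤ j ∧ j < n
    · simp only [xk, hi, and_self, dif_pos]
      rw [hφ]
      congr 1
      apply Subtype.ext
      simp only [parc, sw, hj, and_self, dif_pos]
      rw [Equiv.swap_apply_of_ne_of_ne, Equiv.swap_apply_of_ne_of_ne] <;>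
        simp only [ne_eq, Fin.mk.injEq] <;> omega
    · simp [sw, hj]
  · simp [xk, hi]

private theorem r5_mix (n : ℕ) (φ : Equiv.Perm (Fin n) →* MulAut (kb n).G)
    (hφ : ∀ w p, φ w ((kb n).x p) = (kb n).x (parc w p)) (i : ℕ) (h : 1 ≤ i) (h' : i + 1 < n) :
    φ (sw n (i + 1) * sw n i) (xk n (i + 1)) = xk n i := by
  have e1 : 1 ≤ i ∧ i < n := by omega
  have e2 : 1 ≤ i + 1 ∧ i + 1 < n := by omega
  simp only [xk, e1, e2, and_self, dif_pos]
  rw [hφ]
  congr 1
  apply Subtype.ext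
  have a1 : (⟨i - 1, by omega⟩ : Fin n) ≠ ⟨i, e1.2⟩ := by
    simp only [ne_eq, Fin.mk.injEq]; omega
  have a2 : (⟨i - 1, by omega⟩ : Fin n) ≠ ⟨i + 1, e2.2⟩ := by
    simp only [ne_eq, Fin.mk.injEq]; omega
  have a3 : (⟨i, e1.2⟩ : Fin n) ≠ ⟨i + 1, e2.2⟩ := by
    simp only [ne_eq, Fin.mk.injEq]; omega
  have a4 : (⟨i + 1 - 1, by omega⟩ : Fin n) = ⟨i, e1.2⟩ := by
    simp only [Fin.mk.injEq]; omega
  simp only [parc, sw, e1, e2, and_self, dif_pos, Equiv.Perm.coe_mul, Function.comp_apply]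
  rw [a4, Equiv.swap_apply_right, Equiv.swap_apply_of_ne_of_ne a1 a2,
    Equiv.swap_apply_of_ne_of_ne a2.symm a3.symm, Equiv.swap_apply_right]

theorem fwd_exists (n : ℕ) (φ : Equiv.Perm (Fin n) →* MulAut (kb n).G)
    (hφ : ∀ w p, φ w ((kb n).x p) = (kb n).x (parc w p)) :
    ∃ F : VBG n →* (kb n).G ⋊[φ] Equiv.Perm (Fin n),
      (∀ i, F (vs n i) = SemidirectProduct.inl (xk n i)) ∧
      ∀ i, F (vr n i) = SemidirectProduct.inr (sw n i) := by
  let f : ℕ ⊕ ℕ → (kb n).G ⋊[φ] Equiv.Perm (Fin n) := fun s =>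
    match s with
    | Sum.inl i => SemidirectProduct.inl (xk n i)
    | Sum.inr i => SemidirectProduct.inr (sw n i)
  have fl : ∀ i, f (Sum.inl i) = SemidirectProduct.inl (xk n i) := fun i => rfl
  have fr : ∀ i, f (Sum.inr i) = SemidirectProduct.inr (sw n i) := fun i => rfl
  have key : ∀ w ∈ vbRels n, FreeGroup.lift f w = 1 := by
    rintro w (⟨i, h, rfl | rfl⟩ | ⟨i, h, h', rfl | rfl | rfl⟩ | ⟨i, h, h', rfl⟩ |
      ⟨i, j, h1, h2, h3, h4, h5, rfl | rfl | rfl⟩)
    · rw [FreeGroup.lift_apply_of, fl, r5_xk0 n i h, map_one]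
    · rw [FreeGroup.lift_apply_of, fr, r5_sw0 n i h, map_one]
    · simp only [map_mul, map_inv, FreeGroup.lift_apply_of, fl]
      rw [mul_inv_eq_one]
      simp only [← map_mul]
      rw [r5_xk1 n i h (by omega)]
    · simp only [map_mul, map_inv, FreeGroup.lift_apply_of, fr]
      rw [mul_inv_eq_one]
      simp only [← map_mul]
      rw [r5_sw2 n i h (by omega)]
    · simp only [map_mul, map_inv, FreeGroup.lift_apply_of, fr, fl]
      rw [mul_inv_eq_one]
      have hm := r5_mix n φ hφ i h (by omega)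
      have e := SemidirectProduct.inl_aut (φ := φ) (sw n (i + 1) * sw n i) (xk n (i + 1))
      rw [hm] at e
      rw [mul_assoc, e]
      simp only [← map_mul, mul_assoc]
      rw [inv_mul_cancel, map_one, mul_one]
    · simp only [map_mul, FreeGroup.lift_apply_of, fr]
      rw [← map_mul, r5_sw1, map_one]
    · simp only [map_mul, map_inv, FreeGroup.lift_apply_of, fl]
      rw [mul_inv_eq_one]
      simp only [← map_mul]
      rcases h5 with h5 | h5
      · rw [r5_xk2 n i j h5]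
      · rw [r5_xk2 n j i h5]
    · simp only [map_mul, map_inv, FreeGroup.lift_apply_of, fr]
      rw [mul_inv_eq_one]
      simp only [← map_mul]
      rcases h5 with h5 | h5
      · rw [r5_sw3 n i j h5]
      · rw [r5_sw3 n j i h5]
    · simp only [map_mul, map_inv, FreeGroup.lift_apply_of, fr, fl]
      rw [mul_inv_eq_one]
      have hm := r5_act n φ hφ i j h5
      have e := SemidirectProduct.inl_aut (φ := φ) (sw n j) (xk n i)
      rw [hm] at e
      nth_rewrite 1 [e]
      rw [mul_assoc, ← map_mul, inv_mul_cancel, map_one, mul_one]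
  refine ⟨PresentedGroup.toGroup key, fun i => ?_, fun i => ?_⟩
  · simp [vs, fl]
  · simp [vr, fr]

end Pool.Agent.VB

end Row_R5

section Row_R6

/-!
ROW R6: stabiliser: a permutation w of Fin n (n ≥ 2) with w 0 = 0, w 1 = 1 is in the subgroup generated by sw n i, 3 ≤ i < n.  Hence ψ w commutes with sigma_1 for the ψ of sym_lift (r = vr n) and also
ψ w σ_1 ψ w⁻¹ only depends on w 0, w 1.
-/

namespace Pool.Agent.VB

open FreeGroup (of)

private def R6_S (n m : ℕ) : Set (Equiv.Perm (Fin n)) := {g | ∃ i, m < i ∧ i < n ∧ g = sw n i}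

private theorem R6_move (n m : ℕ) (j : ℕ) (hm : m < n) (hj : m ≤ j) (hjn : j < n) :
    ∃ c ∈ Subgroup.closure (R6_S n m), c ⟨j, hjn⟩ = ⟨m, hm⟩ ∧
      ∀ i : Fin n, i.val < m → c i = i := by
  induction j, hj using Nat.le_induction with
  | base => exact ⟨1, Subgroup.one_mem _, rfl, fun i _ => rfl⟩
  | succ j hj ih =>
    obtain ⟨c, hc, h1, h2⟩ := ih (by omega)
    have hs : sw n (j + 1) = Equiv.swap (⟨j, by omega⟩ : Fin n) ⟨j + 1, hjn⟩ := by
      unfold sw
      rw [dif_pos ⟨by omega, hjn⟩]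
      rfl
    refine ⟨c * sw n (j + 1), Subgroup.mul_mem _ hc (Subgroup.subset_closure
      ⟨j + 1, by omega, hjn, rfl⟩), ?_, ?_⟩
    · rw [Equiv.Perm.mul_apply, hs, Equiv.swap_apply_right, h1]
    · intro i hi
      rw [Equiv.Perm.mul_apply, hs, Equiv.swap_apply_of_ne_of_ne, h2 i hi]
      · intro h
        rw [h] at hi
        simp at hi
        omega
      · intro h
        rw [h] at hi
        simp at hi
        omega

private theorem R6_fix (n : ℕ) (d : ℕ) : ∀ m, n ≤ m + d → ∀ w : Equiv.Perm (Fin n),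
    (∀ i : Fin n, i.val < m → w i = i) → w ∈ Subgroup.closure (R6_S n m) := by
  induction d with
  | zero =>
    intro m hm w hw
    have : w = 1 := Equiv.ext (fun i => hw i (by have := i.isLt; omega))
    rw [this]
    exact Subgroup.one_mem _
  | succ d ih =>
    intro m hm w hw
    by_cases hmn : m < n
    · have hj : m ≤ (w ⟨m, hmn⟩).val := by
        by_contra h
        push Not at h
        have h1 := hw (w ⟨m, hmn⟩) h
        have h2 := w.injective h1
        rw [h2] at h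
        simp at h
      obtain ⟨c, hc, h1, h2⟩ := R6_move n m (w ⟨m, hmn⟩).val hmn hj (w ⟨m, hmn⟩).isLt
      have h3 : c * w ∈ Subgroup.closure (R6_S n (m + 1)) := by
        apply ih (m + 1) (by omega)
        intro i hi
        rcases Nat.lt_succ_iff_lt_or_eq.mp hi with h | h
        · rw [Equiv.Perm.mul_apply, hw i h, h2 i h]
        · have : i = ⟨m, hmn⟩ := Fin.ext h
          subst this
          rw [Equiv.Perm.mul_apply]
          exact h1
      have h4 : Subgroup.closure (R6_S n (m + 1)) ≤ Subgroup.closure (R6_S n m) := by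
        apply Subgroup.closure_mono
        rintro g ⟨i, hi, hin, rfl⟩
        exact ⟨i, by omega, hin, rfl⟩
      have h5 := Subgroup.mul_mem _ (Subgroup.inv_mem _ hc) (h4 h3)
      rwa [inv_mul_cancel_left] at h5
    · have : w = 1 := Equiv.ext (fun i => hw i (by have := i.isLt; omega))
      rw [this]
      exact Subgroup.one_mem _

theorem stab_mem (n : ℕ) (hn : 2 ≤ n) (w : Equiv.Perm (Fin n))
    (h0 : w ⟨0, by omega⟩ = ⟨0, by omega⟩) (h1 : w ⟨1, by omega⟩ = ⟨1, by omega⟩) :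
    w ∈ Subgroup.closure {g | ∃ i, 3 ≤ i ∧ i < n ∧ g = sw n i} := by
  have := R6_fix n n 2 (by omega) w (by
    intro i hi
    have h2 : i.val = 0 ∨ i.val = 1 := by omega
    rcases h2 with h | h
    · have : i = ⟨0, by omega⟩ := Fin.ext h
      rw [this]; exact h0
    · have : i = ⟨1, by omega⟩ := Fin.ext h
      rw [this]; exact h1)
  exact this

theorem conj_eq (n : ℕ) (hn : 2 ≤ n) (ψ : Equiv.Perm (Fin n) →* VBG n)
    (hψ : ∀ i, ψ (sw n i) = vr n i) (w w' : Equiv.Perm (Fin n))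
    (h0 : w ⟨0, by omega⟩ = w' ⟨0, by omega⟩) (h1 : w ⟨1, by omega⟩ = w' ⟨1, by omega⟩) :
    ψ w * vs n 1 * (ψ w)⁻¹ = ψ w' * vs n 1 * (ψ w')⁻¹ := by
  have hu : w'⁻¹ * w ∈ Subgroup.closure {g | ∃ i, 3 ≤ i ∧ i < n ∧ g = sw n i} := by
    apply stab_mem n hn
    · rw [Equiv.Perm.mul_apply, h0]; exact w'.symm_apply_apply _
    · rw [Equiv.Perm.mul_apply, h1]; exact w'.symm_apply_apply _
  have hc : Commute (ψ (w'⁻¹ * w)) (vs n 1) := by
    generalize w'⁻¹ * w = u at hu
    induction hu using Subgroup.closure_induction with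
    | mem g hg =>
      obtain ⟨i, hi, _, rfl⟩ := hg
      rw [hψ]
      exact (vsr_comm n 1 i (Or.inl (by omega))).symm
    | one => rw [map_one]; exact Commute.one_left _
    | mul a b _ _ ha hb => rw [map_mul]; exact Commute.mul_left ha hb
    | inv a _ ha => rw [map_inv]; exact Commute.inv_left ha
  have e : ψ w = ψ w' * ψ (w'⁻¹ * w) := by rw [← map_mul, mul_inv_cancel_left]
  rw [e, mul_inv_rev]
  have h2 := hc.eq
  calc ψ w' * ψ (w'⁻¹ * w) * vs n 1 * ((ψ (w'⁻¹ * w))⁻¹ * (ψ w')⁻¹)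
      = ψ w' * (ψ (w'⁻¹ * w) * vs n 1 * (ψ (w'⁻¹ * w))⁻¹) * (ψ w')⁻¹ := by group
    _ = ψ w' * vs n 1 * (ψ w')⁻¹ := by rw [h2, mul_inv_cancel_right]

end Pool.Agent.VB

end Row_R6

section Row_R7

/-!
ROW R7: the elements X(i,j) = ψ(w) σ_1 ψ(w)^-1, w 0 = i, w 1 = j (exists; well defined by conj_eq).  Backward map on KB_n: there is a homomorphism B : (kb n).G → VBG n with
B (x p) = ψ w σ_1 ψ w⁻¹ whenever w 0 = p.1, w 1 = p.2.  First: if w 0 = i-1, w 1 = i then the conjugate is σ_i (induction on i: v_i = s_i s_(i+1) maps i-1 ↦ i, i ↦ i+1, and σ_(i+1) = ρ_i ρ_(i+1) σ_i ρ_(i+1) ρ_i by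
v_mixed).  Braid relation for (i,j),(j,k) distinct: w with w 0 = i, w 1 = j, w 2 = k: conjugate of σ_1 σ_2 σ_1 = σ_2 σ_1 σ_2.  Commutation for disjoint arcs: w with w 0,1,2,3 = i,j,k,l: σ_1 σ_3 = σ_3 σ_1.
-/

namespace Pool.Agent.VB

open FreeGroup (of)

private theorem R7_sigma_succ (n i : ℕ) (h : 1 ≤ i) (h' : i + 1 < n) :
    vr n i * vr n (i + 1) * vs n i * (vr n i * vr n (i + 1))⁻¹ = vs n (i + 1) := by
  have e := v_mixed n i h h'
  have e2 : vr n i * vr n (i + 1) * (vr n (i + 1) * vr n i) = 1 := by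
    calc vr n i * vr n (i + 1) * (vr n (i + 1) * vr n i)
        = vr n i * (vr n (i + 1) * vr n (i + 1)) * vr n i := by group
      _ = 1 := by rw [vr_sq, mul_one, vr_sq]
  have e3 : (vr n i * vr n (i + 1))⁻¹ = vr n (i + 1) * vr n i := inv_eq_of_mul_eq_one_right e2
  rw [e3]
  calc vr n i * vr n (i + 1) * vs n i * (vr n (i + 1) * vr n i)
      = vr n i * vr n (i + 1) * (vs n i * vr n (i + 1) * vr n i) := by simp only [mul_assoc]
    _ = vr n i * vr n (i + 1) * (vr n (i + 1) * vr n i * vs n (i + 1)) := by rw [e]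
    _ = (vr n i * vr n (i + 1) * (vr n (i + 1) * vr n i)) * vs n (i + 1) := by
        simp only [mul_assoc]
    _ = vs n (i + 1) := by rw [e2, one_mul]

theorem conj_sigma (n : ℕ) (hn : 2 ≤ n) (ψ : Equiv.Perm (Fin n) →* VBG n)
    (hψ : ∀ i, ψ (sw n i) = vr n i) (i : ℕ) (hi : 1 ≤ i) (hi' : i < n) (w : Equiv.Perm (Fin n))
    (h0 : w ⟨0, by omega⟩ = ⟨i - 1, by omega⟩) (h1 : w ⟨1, by omega⟩ = ⟨i, hi'⟩) :
    ψ w * vs n 1 * (ψ w)⁻¹ = vs n i := by
  induction i, hi using Nat.le_induction generalizing w with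
  | base =>
    have := conj_eq n hn ψ hψ w 1 (by rw [h0]; rfl) (by rw [h1]; rfl)
    rw [this]
    simp
  | succ i hi ih =>
    have hin : i < n := by omega
    have hsw1 : sw n i = Equiv.swap (⟨i - 1, by omega⟩ : Fin n) ⟨i, hin⟩ := by
      unfold sw
      rw [dif_pos ⟨hi, hin⟩]
    have hsw2 : sw n (i + 1) = Equiv.swap (⟨i, hin⟩ : Fin n) ⟨i + 1, hi'⟩ := by
      unfold sw
      rw [dif_pos ⟨by omega, hi'⟩]
      rfl
    have hv0 : (sw n i * sw n (i + 1)) ⟨i - 1, by omega⟩ = (⟨i, hin⟩ : Fin n) := by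
      rw [Equiv.Perm.mul_apply, hsw2, Equiv.swap_apply_of_ne_of_ne, hsw1, Equiv.swap_apply_left]
      · intro h
        have := congrArg Fin.val h
        simp only at this
        omega
      · intro h
        have := congrArg Fin.val h
        simp only at this
        omega
    have hv1 : (sw n i * sw n (i + 1)) ⟨i, hin⟩ = (⟨i + 1, hi'⟩ : Fin n) := by
      rw [Equiv.Perm.mul_apply, hsw2, Equiv.swap_apply_left, hsw1,
        Equiv.swap_apply_of_ne_of_ne]
      · intro h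
        have := congrArg Fin.val h
        simp only at this
        omega
      · intro h
        have := congrArg Fin.val h
        simp only at this
        omega
    set v := sw n i * sw n (i + 1) with hv
    have key := ih hin (v⁻¹ * w)
      (by rw [Equiv.Perm.mul_apply, h0, Equiv.Perm.inv_eq_iff_eq, hv0]; rfl)
      (by rw [Equiv.Perm.mul_apply, h1, Equiv.Perm.inv_eq_iff_eq, hv1])
    have hw : ψ w = ψ v * ψ (v⁻¹ * w) := by
      rw [← map_mul]
      congr 1
      group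
    have hψv : ψ v = vr n i * vr n (i + 1) := by
      rw [hv, map_mul, hψ, hψ]
    have hgen : ∀ a b c : VBG n, a * b * c * (a * b)⁻¹ = a * (b * c * b⁻¹) * a⁻¹ := by
      intro a b c
      group
    rw [hw, hgen, key, hψv]
    exact R7_sigma_succ n i hi hi'

private theorem R7_conj (n : ℕ) (hn : 2 ≤ n) (ψ : Equiv.Perm (Fin n) →* VBG n)
    (hψ : ∀ i, ψ (sw n i) = vr n i) (i : ℕ) (hi : 1 ≤ i) (hi' : i < n)
    (u w : Equiv.Perm (Fin n))
    (h0 : u ⟨0, by omega⟩ = w ⟨i - 1, by omega⟩) (h1 : u ⟨1, by omega⟩ = w ⟨i, hi'⟩) :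
    ψ u * vs n 1 * (ψ u)⁻¹ = ψ w * vs n i * (ψ w)⁻¹ := by
  have key := conj_sigma n hn ψ hψ i hi hi' (w⁻¹ * u)
    (by rw [Equiv.Perm.mul_apply, h0, Equiv.Perm.inv_eq_iff_eq])
    (by rw [Equiv.Perm.mul_apply, h1, Equiv.Perm.inv_eq_iff_eq])
  have hu : ψ u = ψ w * ψ (w⁻¹ * u) := by
    rw [← map_mul]
    congr 1
    group
  have hgen : ∀ a b c : VBG n, a * b * c * (a * b)⁻¹ = a * (b * c * b⁻¹) * a⁻¹ := by
    intro a b c
    group
  rw [← key, hu, hgen]

private theorem R7_ext (n : ℕ) (s : Finset (Fin n)) (f : Fin n → Fin n)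
    (hf : Set.InjOn f (s : Set (Fin n))) : ∃ w : Equiv.Perm (Fin n), ∀ i ∈ s, w i = f i := by
  classical
  obtain ⟨g, hg⟩ := Finset.exists_equiv_extend_of_card_eq (α := Fin n) (t := Finset.univ)
    (by simp) (s := s) (f := f) (by simp) hf
  refine ⟨g.trans (Equiv.subtypeUnivEquiv (by simp)), fun i hi => ?_⟩
  rw [← hg i hi]
  rfl

private theorem R7_ext2 (n : ℕ) (hn : 2 ≤ n) (a b : Fin n) (hab : a ≠ b) :
    ∃ w : Equiv.Perm (Fin n), w ⟨0, by omega⟩ = a ∧ w ⟨1, by omega⟩ = b := by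
  obtain ⟨w, hw⟩ := R7_ext n {⟨0, by omega⟩, ⟨1, by omega⟩} (fun x => if x.1 = 0 then a else b)
    (by
      intro x hx y hy hxy
      simp only [Finset.coe_insert, Finset.coe_singleton, Set.mem_insert_iff,
        Set.mem_singleton_iff] at hx hy
      rcases hx with rfl | rfl <;> rcases hy with rfl | rfl <;> simp_all)
  refine ⟨w, ?_, ?_⟩
  · rw [hw _ (by simp)]
    simp
  · rw [hw _ (by simp)]
    simp

private theorem R7_ext3 (n : ℕ) (a b c : Fin n) (hab : a ≠ b) (hac : a ≠ c) (hbc : b ≠ c) :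
    ∃ (hn : 3 ≤ n) (w : Equiv.Perm (Fin n)),
      w ⟨0, by omega⟩ = a ∧ w ⟨1, by omega⟩ = b ∧ w ⟨2, by omega⟩ = c := by
  have hn : 3 ≤ n := by
    have h := Finset.card_le_univ ({a, b, c} : Finset (Fin n))
    rw [Finset.card_insert_of_notMem (by simp [hab, hac]),
      Finset.card_insert_of_notMem (by simp [hbc]), Finset.card_singleton, Fintype.card_fin] at h
    exact h
  refine ⟨hn, ?_⟩
  obtain ⟨w, hw⟩ := R7_ext n {⟨0, by omega⟩, ⟨1, by omega⟩, ⟨2, by omega⟩}
    (fun x => if x.1 = 0 then a else if x.1 = 1 then b else c)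
    (by
      intro x hx y hy hxy
      simp only [Finset.coe_insert, Finset.coe_singleton, Set.mem_insert_iff,
        Set.mem_singleton_iff] at hx hy
      rcases hx with rfl | rfl | rfl <;> rcases hy with rfl | rfl | rfl <;> simp_all)
  refine ⟨w, ?_, ?_, ?_⟩
  · rw [hw _ (by simp)]
    simp
  · rw [hw _ (by simp)]
    simp
  · rw [hw _ (by simp)]
    simp

private theorem R7_ext4 (n : ℕ) (a b c d : Fin n) (hab : a ≠ b) (hac : a ≠ c) (hbc : b ≠ c)
    (had : a ≠ d) (hbd : b ≠ d) (hcd : c ≠ d) :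
    ∃ (hn : 4 ≤ n) (w : Equiv.Perm (Fin n)),
      w ⟨0, by omega⟩ = a ∧ w ⟨1, by omega⟩ = b ∧ w ⟨2, by omega⟩ = c ∧ w ⟨3, by omega⟩ = d := by
  have hn : 4 ≤ n := by
    have h := Finset.card_le_univ ({a, b, c, d} : Finset (Fin n))
    rw [Finset.card_insert_of_notMem (by simp [hab, hac, had]),
      Finset.card_insert_of_notMem (by simp [hbc, hbd]),
      Finset.card_insert_of_notMem (by simp [hcd]), Finset.card_singleton, Fintype.card_fin] at h
    exact h
  refine ⟨hn, ?_⟩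
  obtain ⟨w, hw⟩ := R7_ext n {⟨0, by omega⟩, ⟨1, by omega⟩, ⟨2, by omega⟩, ⟨3, by omega⟩}
    (fun x => if x.1 = 0 then a else if x.1 = 1 then b else if x.1 = 2 then c else d)
    (by
      intro x hx y hy hxy
      simp only [Finset.coe_insert, Finset.coe_singleton, Set.mem_insert_iff,
        Set.mem_singleton_iff] at hx hy
      rcases hx with rfl | rfl | rfl | rfl <;> rcases hy with rfl | rfl | rfl | rfl <;> simp_all)
  refine ⟨w, ?_, ?_, ?_, ?_⟩
  · rw [hw _ (by simp)]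
    simp
  · rw [hw _ (by simp)]
    simp
  · rw [hw _ (by simp)]
    simp
  · rw [hw _ (by simp)]
    simp

theorem bwdK_exists (n : ℕ) (hn : 2 ≤ n) (ψ : Equiv.Perm (Fin n) →* VBG n)
    (hψ : ∀ i, ψ (sw n i) = vr n i) :
    ∃ B : (kb n).G →* VBG n, ∀ (p : {p : Fin n × Fin n // p.1 ≠ p.2}) (w : Equiv.Perm (Fin n)),
      w ⟨0, by omega⟩ = p.1.1 → w ⟨1, by omega⟩ = p.1.2 →
        B ((kb n).x p) = ψ w * vs n 1 * (ψ w)⁻¹ := by
  have hex : ∀ p : {p : Fin n × Fin n // p.1 ≠ p.2}, ∃ w : Equiv.Perm (Fin n),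
      w ⟨0, by omega⟩ = p.1.1 ∧ w ⟨1, by omega⟩ = p.1.2 := fun p =>
    R7_ext2 n hn p.1.1 p.1.2 p.2
  choose u hu0 hu1 using hex
  refine ⟨artLift (fun p => ψ (u p) * vs n 1 * (ψ (u p))⁻¹) ?_ ?_, ?_⟩
  · rintro ⟨⟨a, b⟩, hab⟩ ⟨⟨c, d⟩, hcd⟩ ⟨h1, h2⟩
    have h1' : b = c := h1
    have h2' : a ≠ d := h2
    subst h1'
    obtain ⟨h3, w, w0, w1, w2⟩ := R7_ext3 n a b d hab h2' hcd
    have e1 := R7_conj n hn ψ hψ 1 le_rfl (by omega) (u ⟨⟨a, b⟩, hab⟩) w
      (by rw [hu0]; exact w0.symm) (by rw [hu1]; exact w1.symm)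
    have e2 := R7_conj n hn ψ hψ 2 (by omega) (by omega) (u ⟨⟨b, d⟩, hcd⟩) w
      (by rw [hu0]; exact w1.symm) (by rw [hu1]; exact w2.symm)
    simp only [e1, e2]
    have e3 := vs_braid n 1 le_rfl (by omega)
    calc ψ w * vs n 1 * (ψ w)⁻¹ * (ψ w * vs n 2 * (ψ w)⁻¹) * (ψ w * vs n 1 * (ψ w)⁻¹)
        = ψ w * (vs n 1 * vs n (1 + 1) * vs n 1) * (ψ w)⁻¹ := by group
      _ = ψ w * (vs n (1 + 1) * vs n 1 * vs n (1 + 1)) * (ψ w)⁻¹ := by rw [e3]
      _ = ψ w * vs n 2 * (ψ w)⁻¹ * (ψ w * vs n 1 * (ψ w)⁻¹) * (ψ w * vs n 2 * (ψ w)⁻¹) := by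
          group
  · rintro ⟨⟨a, b⟩, hab⟩ ⟨⟨c, d⟩, hcd⟩ ⟨h1, h2, h3, h4⟩
    have h1' : a ≠ c := h1
    have h2' : a ≠ d := h2
    have h3' : b ≠ c := h3
    have h4' : b ≠ d := h4
    obtain ⟨h5, w, w0, w1, w2, w3⟩ := R7_ext4 n a b c d hab h1' h3' h2' h4' hcd
    have e1 := R7_conj n hn ψ hψ 1 le_rfl (by omega) (u ⟨⟨a, b⟩, hab⟩) w
      (by rw [hu0]; exact w0.symm) (by rw [hu1]; exact w1.symm)
    have e2 := R7_conj n hn ψ hψ 3 (by omega) (by omega) (u ⟨⟨c, d⟩, hcd⟩) w
      (by rw [hu0]; exact w2.symm) (by rw [hu1]; exact w3.symm)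
    simp only [e1, e2]
    have e3 := vs_comm n 1 3 (Or.inl (by omega))
    calc ψ w * vs n 1 * (ψ w)⁻¹ * (ψ w * vs n 3 * (ψ w)⁻¹)
        = ψ w * (vs n 1 * vs n 3) * (ψ w)⁻¹ := by group
      _ = ψ w * (vs n 3 * vs n 1) * (ψ w)⁻¹ := by rw [e3]
      _ = ψ w * vs n 3 * (ψ w)⁻¹ * (ψ w * vs n 1 * (ψ w)⁻¹) := by group
  · intro p w h0 h1
    refine (artLift_gen _ _ _ p).trans ?_
    exact conj_eq n hn ψ hψ (u p) w (by rw [hu0, h0]) (by rw [hu1, h1])

end Pool.Agent.VB

end Row_R7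

section Row_R8

/-!
ROW R8: the forward map is injective (n ≥ 2): backward map KB_n ⋊ S_n → VBG n by SemidirectProduct.lift B ψ (compatibility on generators: B(w.x p) = ψ w B(x p) ψ w⁻¹, from R7), and
backward ∘ forward = id on the generators (conj_sigma).
-/

namespace Pool.Agent.VB

open FreeGroup (of)

/-- a permutation with two prescribed values -/
theorem R8_perm {α : Type} [DecidableEq α] (x y a b : α) (hxy : x ≠ y) (hab : a ≠ b) :
    ∃ v : Equiv.Perm α, v x = a ∧ v y = b := by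
  have hc : Equiv.swap x a y ≠ a := by
    intro h
    have h' : Equiv.swap x a y = Equiv.swap x a x := by rw [h, Equiv.swap_apply_left]
    exact hxy ((Equiv.swap x a).injective h').symm
  refine ⟨Equiv.swap (Equiv.swap x a y) b * Equiv.swap x a, ?_, ?_⟩
  · rw [Equiv.Perm.mul_apply, Equiv.swap_apply_left]
    exact Equiv.swap_apply_of_ne_of_ne hc.symm hab
  · rw [Equiv.Perm.mul_apply, Equiv.swap_apply_left]

theorem vb_embeds (n : ℕ) (hn : 2 ≤ n) : ∃ (φ : Equiv.Perm (Fin n) →* MulAut (kb n).G)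
    (F : VBG n →* (kb n).G ⋊[φ] Equiv.Perm (Fin n)), Function.Injective F := by
  obtain ⟨φ, hφ⟩ := actK_exists n
  obtain ⟨F, hF1, hF2⟩ := fwd_exists n φ hφ
  obtain ⟨ψ, hψ⟩ := sym_lift n (vr n) (vr_zero n) (vr_sq n) (vr_braid n)
    (fun i j h => vr_comm n i j (Or.inl h))
  obtain ⟨B, hB⟩ := bwdK_exists n hn ψ hψ
  have h01 : (⟨0, by omega⟩ : Fin n) ≠ ⟨1, by omega⟩ := by
    intro h
    have := Fin.mk.inj_iff.1 h
    omega
  have hcompat : ∀ w : Equiv.Perm (Fin n), B.comp (φ w).toMonoidHom =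
      (MulAut.conj (ψ w)).toMonoidHom.comp B := by
    intro w
    refine PresentedGroup.ext fun p => ?_
    obtain ⟨v, hv0, hv1⟩ := R8_perm (⟨0, by omega⟩ : Fin n) ⟨1, by omega⟩ p.1.1 p.1.2 h01 p.2
    have e1 : B ((kb n).x p) = ψ v * vs n 1 * (ψ v)⁻¹ := hB p v hv0 hv1
    have e2 : B ((kb n).x (parc w p)) = ψ (w * v) * vs n 1 * (ψ (w * v))⁻¹ := by
      refine hB (parc w p) (w * v) ?_ ?_
      · rw [Equiv.Perm.mul_apply, hv0]
        rfl
      · rw [Equiv.Perm.mul_apply, hv1]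
        rfl
    show B (φ w ((kb n).x p)) = ψ w * B ((kb n).x p) * (ψ w)⁻¹
    rw [hφ, e1, e2, map_mul]
    group
  refine ⟨φ, F, ?_⟩
  have hid : (SemidirectProduct.lift B ψ hcompat).comp F = MonoidHom.id (VBG n) := by
    refine PresentedGroup.ext fun x => ?_
    rcases x with i | i
    · show SemidirectProduct.lift B ψ hcompat (F (vs n i)) = vs n i
      rw [hF1, SemidirectProduct.lift_inl]
      by_cases h : 1 ≤ i ∧ i < n
      · rw [xk, dif_pos h]
        obtain ⟨v, hv0, hv1⟩ := R8_perm (⟨0, by omega⟩ : Fin n) ⟨1, by omega⟩ ⟨i - 1, by omega⟩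
          ⟨i, h.2⟩ h01 (by
            intro h'
            have := Fin.mk.inj_iff.1 h'
            omega)
        rw [hB _ v hv0 hv1]
        exact conj_sigma n hn ψ hψ i h.1 h.2 v hv0 hv1
      · rw [xk, dif_neg h, map_one, vs_zero n i (by omega)]
    · show SemidirectProduct.lift B ψ hcompat (F (vr n i)) = vr n i
      rw [hF2, SemidirectProduct.lift_inr, hψ]
  intro a b hab
  have h1 := DFunLike.congr_fun hid a
  have h2 := DFunLike.congr_fun hid b
  simp only [MonoidHom.comp_apply, MonoidHom.id_apply] at h1 h2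
  rw [← h1, ← h2, hab]

end Pool.Agent.VB

end Row_R8

section Row_R9

/-!
ROW R9: induced representation.  G linear, P finite: G ⋊ P linear.  Representation on P → (Fin N → k): (inl g) . f (x) = ρ(φ(x⁻¹) g) f(x), (inr p) . f (x) = f(p⁻¹ x).
Injective: an element inl g * inr p acting trivially has p = 1 (delta functions) and ρ(g) = 1 (x = 1).  Then choose a basis: LinearEquiv of a finite dimensional space to GL (Fin m) k.
-/

namespace Pool.Agent.VB

open FreeGroup (of)

private theorem R9_core {G P : Type} [Group G] [Group P] [Fintype P] [DecidableEq P]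
    (φ : P →* MulAut G)
    (k : Type) [Field k] (N : ℕ) (hN : 0 < N) (ρ : G →* Matrix.GeneralLinearGroup (Fin N) k)
    (hρ : Function.Injective ρ) :
    ∃ (m : ℕ) (f : G ⋊[φ] P →* Matrix.GeneralLinearGroup (Fin m) k), Function.Injective f := by
  classical
  let F : G ⋊[φ] P →* Matrix (P × Fin N) (P × Fin N) k :=
    { toFun := fun a => Matrix.of fun x y =>
        if y.1 = a.right⁻¹ * x.1 then (ρ (φ x.1⁻¹ a.left)).val x.2 y.2 else 0
      map_one' := by
        ext ⟨x, i⟩ ⟨y, j⟩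
        simp only [SemidirectProduct.one_right, SemidirectProduct.one_left, inv_one, one_mul,
          map_one, Matrix.of_apply, Matrix.one_apply, Units.val_one, Prod.mk.injEq]
        by_cases h : y = x
        · subst h; simp
        · have h2 : ¬ x = y := fun e => h e.symm
          simp [h, h2]
      map_mul' := by
        intro a b
        ext ⟨x, i⟩ ⟨y, j⟩
        simp only [SemidirectProduct.mul_right, SemidirectProduct.mul_left, Matrix.of_apply,
          Matrix.mul_apply, Fintype.sum_prod_type]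
        have key : ∀ z : P, (∑ l : Fin N,
            (if z = a.right⁻¹ * x then (ρ (φ x⁻¹ a.left)).val i l else 0) *
            (if y = b.right⁻¹ * z then (ρ (φ z⁻¹ b.left)).val l j else 0)) =
            if z = a.right⁻¹ * x then
              (∑ l : Fin N, (ρ (φ x⁻¹ a.left)).val i l *
              (if y = b.right⁻¹ * z then (ρ (φ z⁻¹ b.left)).val l j else 0)) else 0 := by
          intro z
          split_ifs with h <;> simp
        rw [Finset.sum_congr rfl (fun z _ => key z)]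
        rw [Finset.sum_ite_eq' Finset.univ (a.right⁻¹ * x)]
        simp only [Finset.mem_univ, if_true, mul_inv_rev, inv_inv, mul_assoc]
        by_cases h : y = b.right⁻¹ * (a.right⁻¹ * x)
        · simp only [h, if_true]
          have e1 : ρ (φ x⁻¹ (a.left * φ a.right b.left)) =
              ρ (φ x⁻¹ a.left) * ρ (φ (x⁻¹ * a.right) b.left) := by
            rw [map_mul, map_mul, map_mul, MulAut.mul_apply]
          rw [e1]
          rw [Units.val_mul, Matrix.mul_apply]
        · simp [h] }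
  have hFinj : Function.Injective F := by
    intro a b hab
    have h1 : ∀ x y, F a x y = F b x y := by intro x y; rw [hab]
    have hF : ∀ (c : G ⋊[φ] P) (y : P) (i j : Fin N), F c (1, i) (y, j) =
        if y = c.right⁻¹ then (ρ c.left).val i j else 0 := by
      intro c y i j
      show (if y = c.right⁻¹ * 1 then (ρ (φ (1 : P)⁻¹ c.left)).val i j else 0) = _
      simp
    have hr : a.right = b.right := by
      by_contra hne
      have hne' : ¬ a.right⁻¹ = b.right⁻¹ := fun e => hne (inv_injective e)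
      have h0 : (ρ a.left).val = 0 := by
        ext i j
        have := h1 (1, i) (a.right⁻¹, j)
        rw [hF, hF, if_pos rfl, if_neg hne'] at this
        simpa using this
      have h2 : (ρ a.left).val * (ρ a.left)⁻¹.val = 1 := by
        rw [← Units.val_mul, mul_inv_cancel, Units.val_one]
      rw [h0, zero_mul] at h2
      have h3 := congrFun (congrFun h2 ⟨0, hN⟩) ⟨0, hN⟩
      simp at h3
    have hl : a.left = b.left := by
      apply hρ
      apply Units.ext
      ext i j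
      have := h1 (1, i) (a.right⁻¹, j)
      rw [hF, hF, if_pos rfl, if_pos (by rw [hr])] at this
      exact this
    exact SemidirectProduct.ext hl hr
  let e : P × Fin N ≃ Fin (Fintype.card (P × Fin N)) := Fintype.equivFin _
  let E : Matrix (P × Fin N) (P × Fin N) k →*
      Matrix (Fin (Fintype.card (P × Fin N))) (Fin (Fintype.card (P × Fin N))) k :=
    (Matrix.reindexAlgEquiv k k e : _ →ₐ[k] _).toRingHom.toMonoidHom
  have hE : Function.Injective E := by
    intro A B h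
    exact (Matrix.reindexAlgEquiv k k e).injective h
  refine ⟨_, (E.comp F).toHomUnits, ?_⟩
  intro a b hab
  apply hFinj
  apply hE
  have := congrArg Units.val hab
  simpa using this

theorem semidirect_linear {G P : Type} [Group G] [Group P] [Finite P] (φ : P →* MulAut G)
    (k : Type) [Field k] (N : ℕ) (ρ : G →* Matrix.GeneralLinearGroup (Fin N) k)
    (hρ : Function.Injective ρ) :
    ∃ (m : ℕ) (f : G ⋊[φ] P →* Matrix.GeneralLinearGroup (Fin m) k), Function.Injective f := by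
  classical
  haveI : Fintype P := Fintype.ofFinite P
  rcases Nat.eq_zero_or_pos N with h | h
  · subst h
    have hG : ∀ g g' : G, g = g' := by
      intro g g'
      apply hρ
      apply Units.ext
      ext i
      exact i.elim0
    exact R9_core φ k 1 Nat.one_pos 1 (fun a b _ => hG a b)
  · exact R9_core φ k N h ρ hρ

end Pool.Agent.VB

end Row_R9

section Row_Final

/-!
Final assembly.
-/

namespace Pool.Agent.VB

open FreeGroup (of)

theorem vb_linear (n : ℕ) (hn : 3 < n) :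
    ∃ (k : Type) (_ : Field k) (m : ℕ) (f : VBG n →* Matrix.GeneralLinearGroup (Fin m) k),
      Function.Injective f := by
  obtain ⟨k, i1, N, ρ, hρ⟩ := kb_linear n
  obtain ⟨φ, F, hF⟩ := vb_embeds n (by omega)
  obtain ⟨m, f, hf⟩ := semidirect_linear φ k N ρ hρ
  exact ⟨k, i1, m, f.comp F, hf.comp hF⟩

end Pool.Agent.VB

end Row_Final
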